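import Mathlib
import Pool.Agent.Lib.Pf72953.Core

/-!
Galois covers of `ℙ¹`-bundles: definitions.
-/

set_option autoImplicit false

open scoped WithZero
open Pf72953

namespace Pf72953.Pl

/-- `D = d/dx` over `P`, and `ρ` is a lower bound of the relative logarithmic norm of `dx` at `w` -/
structure RelNorm (P : Type*) {N : Type*} [Field P] [Field N] [Algebra P N] (w : Valuation N ℤᵐ⁰)
    (x : N) (D : Derivation P N N) (ρ : ℤᵐ⁰) : Prop where
  dx : D x = 1
  le : ∀ g, w (D g) * ρ ≤ w g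

variable {N : Type*} [Field N]

/-- `dlog ((x - a)/(x - b)) = hh x a b dx` -/
def hh (x a b : N) : N := (a - b) / ((x - a) * (x - b))

variable [DecidableEq N]

/-- `∏ dlog ((x - a)/(x - b)) ^ m(a, b) = GG (dx)^MG`, over the ordered pairs of distinct elements of `S` -/
def GG (S : Finset N) (m : N → N → ℕ) (x : N) : N := ∏ p ∈ S.offDiag, hh x p.1 p.2 ^ m p.1 p.2

/-- the weight of `GG` -/
def MG (S : Finset N) (m : N → N → ℕ) : ℕ := ∑ p ∈ S.offDiag, m p.1 p.2

/-- half of the order of the pole of `GG` at `e` -/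
def DG (S : Finset N) (m : N → N → ℕ) (e : N) : ℕ := ∑ a ∈ S.erase e, m e a

/-- the quadruples `(i, j, l, s)` of distinct elements of `S` -/
def quads (S : Finset N) : Finset (N × N × N × N) :=
  (S ×ˢ S ×ˢ S ×ˢ S).filter fun q => q.1 ≠ q.2.1 ∧ q.1 ≠ q.2.2.1 ∧ q.1 ≠ q.2.2.2 ∧
    q.2.1 ≠ q.2.2.1 ∧ q.2.1 ≠ q.2.2.2 ∧ q.2.2.1 ≠ q.2.2.2

/-- `(c - λ) h_{sj} h_{li}`, `λ` the value at `x = s` of the coordinate which is `0, ∞, 1` at `i, j, l` -/
def tq (x c i j l s : N) : N := c * (hh x s j * hh x l i) - hh x s i * hh x l j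

/-- the product of all `tq` -/
def TT (S : Finset N) (x c : N) : N := ∏ q ∈ quads S, tq x c q.1 q.2.1 q.2.2.1 q.2.2.2

/-- the weight of `TT` -/
def MT (S : Finset N) : ℕ := 2 * (quads S).card

/-- the coordinate which is `0, ∞, 1` at `i, j, l` -/
def xc (x i j l : N) : N := ((x - i) * (l - j)) / ((x - j) * (l - i))

/-- the weights: `m` is symmetric and positive and the order `2 DG` of the pole of `GG (dx)^MG` at `e` is at most
`(1 - 1/r(e)) MG` -/
structure Weights (S : Finset N) (r : N → ℕ) (m : N → N → ℕ) : Prop where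
  symm : ∀ a b, m a b = m b a
  pos : ∀ a ∈ S, ∀ b ∈ S, 1 ≤ m a b
  le : ∀ e ∈ S, 2 * DG S m e * r e ≤ MG S m * (r e - 1)

/-- `w` is small: one of the forms vanishes at `w`, or `c` is not a unit different from `1` at `w` -/
def Small (P : Type*) {N : Type*} [Field P] [Field N] [Algebra P N] (w : Valuation N ℤᵐ⁰)
    (x c G T : N) (mg mt : ℕ) : Prop :=
  ∀ (D : Derivation P N N) (ρ : ℤᵐ⁰), RelNorm P w x D ρ →
    ρ ^ mg * w G < 1 ∨ ρ ^ mt * w T < 1 ∨ w c ≠ 1 ∨ w (c - 1) ≠ 1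

end Pf72953.Pl
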