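import Mathlib
import Pool.Agent.Lib.Pf72953n.Defs

/-!
Galois covers of `ℙ¹`-bundles: places of the generic fibre.
-/

set_option autoImplicit false

open scoped WithZero
open Pf72953

namespace Pf72953.Pl

/-- `w` is a place of `N/Q` (trivial on `Q`, nontrivial on `X`), `t` a uniformizer of `X` at `w` and `ρ` the relative norm of
`dx` at `w`, with a value in the value group of `X` -/
structure At (Q X : Type*) {N : Type*} [Field Q] [Field X] [Field N] [Algebra Q N] [Algebra X N]
    (w : Valuation N ℤᵐ⁰) (x : N) (D : Derivation Q N N) (ρ : ℤᵐ⁰) (t : X) : Prop where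
  triv : ∀ a : Q, a ≠ 0 → w (algebraMap Q N a) = 1
  norm : RelNorm Q w x D ρ
  mem : ∃ J : X, ρ = w (algebraMap X N J)
  ne : t ≠ 0
  lt : w (algebraMap X N t) < 1
  le : ∀ g : X, w (algebraMap X N g) < 1 → w (algebraMap X N g) ≤ w (algebraMap X N t)

/-- `r` is the ramification index of `N/K(x)` over `x = e` -/
def IsIdx (K : Type*) {N : Type*} [Field K] [Field N] [Algebra K N] (x e : N) (r : ℕ) : Prop :=
  ∀ u : Valuation N ℤᵐ⁰, (∀ a : K, a ≠ 0 → u (algebraMap K N a) = 1) → u (x - e) < 1 →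
    ∃ t : N, u t < 1 ∧ (∀ g : N, u g < 1 → u g ≤ u t) ∧ u (x - e) = u t ^ r

end Pf72953.Pl
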