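import Mathlib
import Pool.Agent.Lib.Pf72953n.Defs2
import Pool.Agent.Lib.Pf72953j.Grow2

/-!
`ℙ¹`-step: specialization of the coordinate to a new parameter.
-/

set_option autoImplicit false
set_option linter.style.haveILetI false

open scoped WithZero Polynomial
open Pf72953 Pf72953.Mov Pf72953.Tow

namespace Pf72953.Pl

section field

variable {N : Type*} [Field N]

theorem xc_inj {x y i j l : N} (hij : i ≠ j) (hil : i ≠ l) (hjl : j ≠ l) (hx : x ≠ j) (hy : y ≠ j)
    (h : xc x i j l = xc y i j l) : x = y := by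
  unfold xc at h
  have h1 : l - j ≠ 0 := sub_ne_zero.2 hjl.symm
  have h2 : l - i ≠ 0 := sub_ne_zero.2 hil.symm
  have h3 : x - j ≠ 0 := sub_ne_zero.2 hx
  have h4 : y - j ≠ 0 := sub_ne_zero.2 hy
  have h5 : i - j ≠ 0 := sub_ne_zero.2 hij
  rw [div_eq_div_iff (mul_ne_zero h3 h2) (mul_ne_zero h4 h2)] at h
  have h6 : (l - j) * (l - i) * (i - j) * (x - y) = 0 := by linear_combination h
  simp only [mul_eq_zero, h1, h2, h5, false_or] at h6
  exact sub_eq_zero.1 h6

theorem map_xcO {N' : Type*} [Field N'] (f : N →+* N') (x i j l : N) :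
    f (xc x i j l) = xc (f x) (f i) (f j) (f l) := by
  simp only [xc, map_div₀, map_mul, map_sub]

/-- the inverse of `xc` -/
theorem xc_solve {x i j l : N} (hij : i ≠ j) (hil : i ≠ l) (hjl : j ≠ l) (hx : x ≠ j) :
    (xc x i j l * (l - i) - (l - j)) ≠ 0 ∧
      x = (xc x i j l * (l - i) * j - (l - j) * i) / (xc x i j l * (l - i) - (l - j)) := by
  have h1 : l - j ≠ 0 := sub_ne_zero.2 hjl.symm
  have h2 : l - i ≠ 0 := sub_ne_zero.2 hil.symm
  have h3 : x - j ≠ 0 := sub_ne_zero.2 hx
  have h5 : j - i ≠ 0 := sub_ne_zero.2 hij.symm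
  have h6 : xc x i j l * (l - i) = (x - i) * (l - j) / (x - j) := by
    unfold xc
    field_simp
  have h7 : xc x i j l * (l - i) - (l - j) = (j - i) * (l - j) / (x - j) := by
    rw [h6]
    field_simp
    ring
  refine ⟨?_, ?_⟩
  · rw [h7]
    exact div_ne_zero (mul_ne_zero h5 h1) h3
  · rw [h7, h6]
    field_simp
    ring

end field

variable {k Ω : Type*} [Field k] [Field Ω] [Algebra k Ω]

theorem fin_adjoin (s : Finset Ω) : Fin' (IntermediateField.adjoin k (s : Set Ω)) := by
  rw [Fin', IntermediateField.essFiniteType_iff]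
  exact ⟨s, rfl⟩

theorem fin_one (x : Ω) : Fin' (IntermediateField.adjoin k {x}) := by
  have := fin_adjoin (k := k) ({x} : Finset Ω)
  rwa [Finset.coe_singleton] at this

theorem mem_sup_left' {A B : IntermediateField k Ω} {x : Ω} (h : x ∈ A) : x ∈ A ⊔ B :=
  (le_sup_left : A ≤ A ⊔ B) h

theorem mem_sup_right' {A B : IntermediateField k Ω} {x : Ω} (h : x ∈ B) : x ∈ A ⊔ B :=
  (le_sup_right : B ≤ A ⊔ B) h

theorem mem_adjoin_one (x : Ω) : x ∈ IntermediateField.adjoin k ({x} : Set Ω) :=
  IntermediateField.mem_adjoin_simple_self k x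

theorem adjoin_one_le {A : IntermediateField k Ω} {x : Ω} (h : x ∈ A) :
    IntermediateField.adjoin k ({x} : Set Ω) ≤ A := by
  rw [IntermediateField.adjoin_le_iff]
  rintro _ rfl
  exact h

theorem dim_adjOne [CharZero k] {x : Ω} (h : Transcendental k x) :
    dimension k (IntermediateField.adjoin k ({x} : Set Ω)) = 1 := by
  have h0 : AlgebraicIndependent k (fun _ : Unit => (⟨x, mem_adjoin_one x⟩ :
      IntermediateField.adjoin k ({x} : Set Ω))) := by
    refine algebraicIndependent_unique_type_iff.2 fun h' => h ?_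
    exact (isAlgebraic_algebraMap_iff (R := k) (A := Ω)
      (S := IntermediateField.adjoin k ({x} : Set Ω))
      (algebraMap (IntermediateField.adjoin k ({x} : Set Ω)) Ω).injective).2 h'
  have h1 : IsTranscendenceBasis k (fun _ : Unit => (⟨x, mem_adjoin_one x⟩ :
      IntermediateField.adjoin k ({x} : Set Ω))) := by
    haveI : Algebra.IsAlgebraic (Algebra.adjoin k (Set.range fun _ : Unit =>
        (⟨x, mem_adjoin_one x⟩ : IntermediateField.adjoin k ({x} : Set Ω))))
        (IntermediateField.adjoin k ({x} : Set Ω)) := by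
      refine ⟨fun z => ?_⟩
      rw [Set.range_const]
      rw [← IntermediateField.isAlgebraic_adjoin_iff]
      have h2 : (IntermediateField.adjoin k
          ({⟨x, mem_adjoin_one x⟩} : Set (IntermediateField.adjoin k ({x} : Set Ω)))) = ⊤ := by
        rw [_root_.eq_top_iff]
        rintro ⟨z, hz⟩ -
        have h3 : (IntermediateField.adjoin k ({x} : Set Ω)) ≤ (IntermediateField.adjoin k
          ({⟨x, mem_adjoin_one x⟩} : Set (IntermediateField.adjoin k ({x} : Set Ω)))).map
            (IntermediateField.adjoin k ({x} : Set Ω)).val := by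
          refine adjoin_one_le ⟨⟨x, mem_adjoin_one x⟩, mem_adjoin_one _, rfl⟩
        obtain ⟨z', hz', hzz⟩ := h3 hz
        have : z' = ⟨z, hz⟩ := Subtype.ext hzz
        rwa [this] at hz'
      rw [h2]
      exact isAlgebraic_algebraMap (⟨z, trivial⟩ : (⊤ : IntermediateField k
        (IntermediateField.adjoin k ({x} : Set Ω))))
    exact h0.isTranscendenceBasis_iff_isAlgebraic.mpr inferInstance
  have h2 := card_eq_of_isTranscendenceBasis h1
  simpa using h2.symm

/-- an element of an independent field is transcendental -/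
theorem transc_of_indep [CharZero k] {A Y : IntermediateField k Ω} (hA : Fin' A) (hY : Fin' Y)
    (hi : Indep A Y) {t : Ω} (htY : t ∈ Y) (ht : Transcendental k t) : Transcendental A t := by
  intro h
  have h1 := dim_submod (B := A) hY hA (adjoin_one_le htY)
  have h2 : dimension k (IntermediateField.adjoin k ({t} : Set Ω) ⊔ A : IntermediateField k Ω) =
      dimension k A := by
    refine dim_eq (fin_sup (fin_one t) hA) le_sup_right ?_
    rw [alg_iff]
    refine sup_le (adjoin_one_le (mem_cl.2 h)) le_cl
  have h3 := dim_adjOne ht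
  have h4 : dimension k (A ⊔ Y : IntermediateField k Ω) = dimension k A + dimension k Y := hi
  rw [sup_comm] at h4
  omega

theorem transc_mono {A B : IntermediateField k Ω} (h : A ≤ B) {t : Ω} (ht : Transcendental B t) :
    Transcendental A t := fun h' => ht (alg_mono h h')

end Pf72953.Pl
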