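import Mathlib
import Pool.Agent.Lib.Pf72953n.Spec

/-!
`ℙ¹`-step: specialization automorphisms.
-/

set_option autoImplicit false
set_option linter.style.haveILetI false

open scoped WithZero Polynomial
open Pf72953 Pf72953.Mov Pf72953.Tow

namespace Pf72953.Pl

variable {k Ω : Type*} [Field k] [Field Ω] [Algebra k Ω]

theorem adjoin_eq_sup (F : IntermediateField k Ω) (s : Set Ω) :
    (IntermediateField.adjoin F s).restrictScalars k = F ⊔ IntermediateField.adjoin k s := by
  refine le_antisymm ?_ ?_
  · intro z hz
    rw [IntermediateField.mem_restrictScalars] at hz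
    induction hz using IntermediateField.adjoin_induction with
    | mem u hu => exact mem_sup_right' (IntermediateField.subset_adjoin k s hu)
    | algebraMap r => exact mem_sup_left' r.2
    | add u v _ _ hu hv => exact add_mem hu hv
    | inv u _ hu => exact inv_mem hu
    | mul u v _ _ hu hv => exact mul_mem hu hv
  · refine sup_le (fun z hz => ?_) ?_
    · exact (IntermediateField.adjoin F s).algebraMap_mem ⟨z, hz⟩
    · rw [IntermediateField.adjoin_le_iff]
      exact IntermediateField.subset_adjoin F s

theorem transc_adjoin {F : IntermediateField k Ω} {s : Set Ω} {b : Ω}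
    (h : Transcendental (F ⊔ IntermediateField.adjoin k s : IntermediateField k Ω) b) :
    Transcendental (Algebra.adjoin F s) b := by
  intro h'
  apply h
  rw [← IntermediateField.isAlgebraic_adjoin_iff] at h'
  have h1 : ∀ z ∈ IntermediateField.adjoin F s, z ∈ F ⊔ IntermediateField.adjoin k s := by
    intro z hz
    rw [← adjoin_eq_sup]
    exact hz
  let g : IntermediateField.adjoin F s →+* (F ⊔ IntermediateField.adjoin k s : IntermediateField k Ω) :=
    { toFun := fun z => ⟨z, h1 z z.2⟩
      map_one' := rfl
      map_mul' := fun _ _ => rfl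
      map_zero' := rfl
      map_add' := fun _ _ => rfl }
  obtain ⟨p, hp, hpb⟩ := h'
  refine ⟨p.map g, (Polynomial.map_ne_zero_iff g.injective).2 hp, ?_⟩
  rw [Polynomial.aeval_def, Polynomial.eval₂_map]
  exact hpb

variable [IsAlgClosed Ω]

theorem exists_swap {F : IntermediateField k Ω} {a b : Ω} (ha : Transcendental F a)
    (hb : Transcendental (F ⊔ IntermediateField.adjoin k {a} : IntermediateField k Ω) b) :
    ∃ ψ : Ω ≃ₐ[k] Ω, Fixes ψ F ∧ ψ a = b := by
  classical
  have h0 : AlgebraicIndependent F (fun _ : Unit => a) :=
    algebraicIndependent_unique_type_iff.2 ha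
  have h1 : AlgebraicIndependent F (fun o : Option Unit => o.elim b (fun _ : Unit => a)) := by
    refine (h0.option_iff_transcendental b).2 ?_
    rw [Set.range_const]
    exact transc_adjoin hb
  set f : Option Unit → Ω := fun o => o.elim b (fun _ : Unit => a) with hf
  let sw : Option Unit ≃ Option Unit := Equiv.swap none (some ())
  have h2 : AlgebraicIndependent F (f ∘ sw) := h1.comp sw sw.injective
  have hr : Set.range (f ∘ sw) = Set.range f := sw.surjective.range_comp f
  let e : IntermediateField.adjoin F (Set.range f) ≃ₐ[F] IntermediateField.adjoin F (Set.range f) :=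
    (h1.aevalEquivField.symm.trans h2.aevalEquivField).trans
      (IntermediateField.equivOfEq (by rw [hr]))
  obtain ⟨ψ, hψ, hψe⟩ := exists_ext_of (F := F) e
  refine ⟨ψ, hψ, ?_⟩
  have haf : a ∈ IntermediateField.adjoin F (Set.range f) :=
    IntermediateField.subset_adjoin F _ ⟨some (), rfl⟩
  have h3 := hψe ⟨a, haf⟩
  have h4 : (⟨a, haf⟩ : IntermediateField.adjoin F (Set.range f)) =
      h1.aevalEquivField (algebraMap (MvPolynomial (Option Unit) F)
        (FractionRing (MvPolynomial (Option Unit) F)) (MvPolynomial.X (some ()))) := by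
    apply Subtype.ext
    rw [h1.aevalEquivField_algebraMap_apply_coe, MvPolynomial.aeval_X]
    rfl
  have h5 : (algebraMap (IntermediateField.adjoin F (Set.range f)) Ω (e ⟨a, haf⟩)) = b := by
    rw [h4]
    change (((h2.aevalEquivField (h1.aevalEquivField.symm (h1.aevalEquivField
      (algebraMap (MvPolynomial (Option Unit) F)
        (FractionRing (MvPolynomial (Option Unit) F)) (MvPolynomial.X (some ()))))) :
        IntermediateField.adjoin F (Set.range (f ∘ sw))) : Ω)) = b
    rw [AlgEquiv.symm_apply_apply, h2.aevalEquivField_algebraMap_apply_coe, MvPolynomial.aeval_X]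
    simp [sw, hf]
  rw [h5] at h3
  exact h3

end Pf72953.Pl
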