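import Mathlib
import Pool.Agent.Lib.Pf72953n.Swap
import Pool.Agent.Lib.Pf72953j.Ram

/-!
`ℙ¹`-step: the covering field.
-/

set_option autoImplicit false
set_option linter.style.haveILetI false

open scoped WithZero Polynomial
open Pf72953 Pf72953.Mov Pf72953.Tow

namespace Pf72953.Pl

variable {k Ω : Type*} [Field k] [Field Ω] [Algebra k Ω]

theorem alg_map {A B : IntermediateField k Ω} {σ : Ω ≃ₐ[k] Ω} (h : ∀ a ∈ A, σ a ∈ B) {z : Ω}
    (hz : IsAlgebraic A z) : IsAlgebraic B (σ z) := by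
  let g : A →+* B :=
    { toFun := fun z => ⟨σ z, h z z.2⟩
      map_one' := Subtype.ext (map_one σ)
      map_mul' := fun _ _ => Subtype.ext (map_mul σ _ _)
      map_zero' := Subtype.ext (map_zero σ)
      map_add' := fun _ _ => Subtype.ext (map_add σ _ _) }
  obtain ⟨p, hp, hpz⟩ := hz
  refine ⟨p.map g, (Polynomial.map_ne_zero_iff g.injective).2 hp, ?_⟩
  have h1 : Polynomial.eval₂ ((σ : Ω →+* Ω).comp (algebraMap A Ω)) (σ z) p = 0 := by
    have h2 := congrArg σ hpz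
    rw [map_zero, Polynomial.aeval_def] at h2
    have h3 := Polynomial.hom_eval₂ p (algebraMap A Ω) (σ : Ω →+* Ω) z
    rw [← h2]
    exact h3.symm
  rw [Polynomial.aeval_def, Polynomial.eval₂_map]
  exact h1

theorem cl_idem {A B : IntermediateField k Ω} (h : A ≤ cl B) {z : Ω} (hz : IsAlgebraic A z) :
    IsAlgebraic B z := mem_cl.1 (cl_le h (mem_cl.2 hz))

/-- `K(x̃) = K(x)` -/
theorem adjoin_xc {K : IntermediateField k Ω} {x i j l : Ω} (hx : Transcendental K x) (hi : i ∈ K)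
    (hj : j ∈ K) (hl : l ∈ K) (hij : i ≠ j) (hil : i ≠ l) (hjl : j ≠ l) :
    xc x i j l ∈ K ⊔ IntermediateField.adjoin k {x} ∧
      x ∈ K ⊔ IntermediateField.adjoin k {xc x i j l} := by
  have hxj : x ≠ j := fun h => hx (h ▸ alg_of_mem hj)
  constructor
  · have h1 : x ∈ K ⊔ IntermediateField.adjoin k {x} := mem_sup_right' (mem_adjoin_one x)
    exact div_mem (mul_mem (sub_mem h1 (mem_sup_left' hi)) (sub_mem (mem_sup_left' hl)
      (mem_sup_left' hj))) (mul_mem (sub_mem h1 (mem_sup_left' hj)) (sub_mem (mem_sup_left' hl)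
      (mem_sup_left' hi)))
  · have h1 : xc x i j l ∈ K ⊔ IntermediateField.adjoin k {xc x i j l} :=
      mem_sup_right' (mem_adjoin_one _)
    rw [(xc_solve hij hil hjl hxj).2]
    refine div_mem (sub_mem (mul_mem (mul_mem ?_ (sub_mem (mem_sup_left' hl) (mem_sup_left' hi)))
      (mem_sup_left' hj)) (mul_mem (sub_mem (mem_sup_left' hl) (mem_sup_left' hj))
        (mem_sup_left' hi))) (sub_mem (mul_mem ?_ (sub_mem (mem_sup_left' hl) (mem_sup_left' hi)))
      (sub_mem (mem_sup_left' hl) (mem_sup_left' hj)))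
    all_goals
      rw [← (xc_solve hij hil hjl hxj).2]
      exact h1


open Classical in
/-- the triples of distinct elements -/
noncomputable def trip (S : Finset Ω) : Finset (Ω × Ω × Ω) :=
  (S ×ˢ S ×ˢ S).filter fun p => p.1 ≠ p.2.1 ∧ p.1 ≠ p.2.2 ∧ p.2.1 ≠ p.2.2

theorem mem_trip {S : Finset Ω} {p : Ω × Ω × Ω} :
    p ∈ trip S ↔ (p.1 ∈ S ∧ p.2.1 ∈ S ∧ p.2.2 ∈ S) ∧ p.1 ≠ p.2.1 ∧ p.1 ≠ p.2.2 ∧ p.2.1 ≠ p.2.2 := by
  classical
  unfold trip
  rw [Finset.mem_filter, Finset.mem_product, Finset.mem_product]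

/-- the field of the branch points -/
def bp (V : IntermediateField k Ω) (S : Finset Ω) : IntermediateField k Ω :=
  V ⊔ IntermediateField.adjoin k (S : Set Ω)

/-- `R` is the field generated over `V·Y₂` by the specializations of `Q` -/
structure Cover (V X Q : IntermediateField k Ω) (x : Ω) (S : Finset Ω) (Y₂ : IntermediateField k Ω)
    (t : Ω) (ψ : Ω × Ω × Ω → (Ω ≃ₐ[k] Ω)) (R : IntermediateField k Ω) : Prop where
  fin : Fin' R
  gal : Gal (V ⊔ Y₂) R
  fix : ∀ p ∈ trip S, Fixes (ψ p) (X ⊔ bp V S)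
  map : ∀ p ∈ trip S, ψ p (xc x p.1 p.2.1 p.2.2) = t
  le : bp V S ≤ R
  img : ∀ p ∈ trip S, ∀ z ∈ Q ⊔ bp V S, ψ p z ∈ R
  gen : ∀ σ : Ω ≃ₐ[k] Ω, Fixes σ Y₂ → Fixes σ (bp V S) →
    (∀ p ∈ trip S, ∀ z ∈ Q ⊔ bp V S, σ (ψ p z) = ψ p z) → Fixes σ R

theorem bp_fin {V : IntermediateField k Ω} {S : Finset Ω} (hV : Fin' V) : Fin' (bp V S) :=
  fin_sup hV (fin_adjoin S)

theorem bp_mem {V : IntermediateField k Ω} {S : Finset Ω} {e : Ω} (he : e ∈ S) : e ∈ bp V S :=
  mem_sup_right' (IntermediateField.subset_adjoin k _ he)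

theorem bp_alg {V : IntermediateField k Ω} {S : Finset Ω} (hS : ∀ e ∈ S, IsAlgebraic V e) :
    bp V S ≤ cl V := by
  refine sup_le le_cl ?_
  rw [IntermediateField.adjoin_le_iff]
  exact fun e he => mem_cl.2 (hS e he)

theorem bp_stab {V : IntermediateField k Ω} {S : Finset Ω} {σ : Ω ≃ₐ[k] Ω} (hσ : Fixes σ V)
    (h : ∀ e ∈ S, σ e ∈ S) : Stab σ (bp V S) := by
  refine hσ.stab.sup ?_
  intro z hz
  have h1 : (IntermediateField.adjoin k (S : Set Ω)).map (σ : Ω →ₐ[k] Ω) ≤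
      IntermediateField.adjoin k (S : Set Ω) := by
    rw [IntermediateField.adjoin_map, IntermediateField.adjoin_le_iff]
    rintro _ ⟨e, he, rfl⟩
    exact IntermediateField.subset_adjoin k _ (h e he)
  exact h1 ⟨z, hz, rfl⟩

theorem bp_fixes {V : IntermediateField k Ω} {S : Finset Ω} {σ : Ω ≃ₐ[k] Ω} (hσ : Fixes σ V)
    (h : ∀ e ∈ S, σ e = e) : Fixes σ (bp V S) := by
  refine hσ.sup79 ?_
  rw [fixes_iff79, IntermediateField.adjoin_le_iff]
  exact fun e he => h e he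

theorem bp_gal {V : IntermediateField k Ω} {S : Finset Ω} (hS : ∀ e ∈ S, IsAlgebraic V e)
    (h : ∀ σ : Ω ≃ₐ[k] Ω, Fixes σ V → ∀ e ∈ S, σ e ∈ S) : Gal V (bp V S) :=
  ⟨le_sup_left, alg_iff.2 (bp_alg hS), fun σ hσ => bp_stab hσ (h σ hσ)⟩

variable [CharZero k] [IsAlgClosed Ω]

theorem exists_cover {V X Q Y₂ : IntermediateField k Ω} {x t : Ω} {S : Finset Ω} (hV : Fin' V)
    (hX : Fin' X) (hQ : Fin' Q) (hY₂ : Fin' Y₂) (hVX : V ≤ X) (hx : Transcendental X x)
    (hG : Gal (V ⊔ IntermediateField.adjoin k {x}) Q) (hS : ∀ e ∈ S, IsAlgebraic V e)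
    (hSσ : ∀ σ : Ω ≃ₐ[k] Ω, Fixes σ V → ∀ e ∈ S, σ e ∈ S) (htY : t ∈ Y₂)
    (ht : Transcendental (X ⊔ Q : IntermediateField k Ω) t) : ∃ ψ R, Cover V X Q x S Y₂ t ψ R := by
  classical
  set P := bp V S with hP
  have hPf : Fin' P := bp_fin hV
  have hPcl : P ≤ cl V := bp_alg hS
  have hKcl : X ⊔ P ≤ cl X := sup_le le_cl (hPcl.trans (cl_mono hVX))
  have hxK : Transcendental (X ⊔ P : IntermediateField k Ω) x := fun h => hx (cl_idem hKcl h)
  have hxQ : x ∈ Q := hG.le (mem_sup_right' (mem_adjoin_one x))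
  have hex : ∀ p : Ω × Ω × Ω, ∃ ψ : Ω ≃ₐ[k] Ω, p ∈ trip S → Fixes ψ (X ⊔ P) ∧
      ψ (xc x p.1 p.2.1 p.2.2) = t := by
    intro p
    by_cases hp : p ∈ trip S
    · obtain ⟨⟨h1, h2, h3⟩, h4, h5, h6⟩ := mem_trip.1 hp
      have hm : ∀ e ∈ S, e ∈ X ⊔ P := fun e he => mem_sup_right' (bp_mem he)
      obtain ⟨h7, h8⟩ := adjoin_xc hxK (hm _ h1) (hm _ h2) (hm _ h3) h4 h5 h6
      have h9 : Transcendental (X ⊔ P : IntermediateField k Ω) (xc x p.1 p.2.1 p.2.2) := by
        intro h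
        apply hxK
        have h10 : X ⊔ P ⊔ IntermediateField.adjoin k {xc x p.1 p.2.1 p.2.2} ≤ cl (X ⊔ P) :=
          sup_le le_cl (adjoin_one_le (mem_cl.2 h))
        exact mem_cl.1 (h10 h8)
      obtain ⟨ψ, hψ, hψt⟩ := exists_swap h9 (b := t) (fun h => ht (by
        refine cl_idem ?_ h
        refine sup_le (hKcl.trans (cl_mono le_sup_left)) (adjoin_one_le ?_)
        refine (sup_le (hKcl.trans (cl_mono le_sup_left)) ?_ :
          X ⊔ P ⊔ IntermediateField.adjoin k {x} ≤ cl (X ⊔ Q)) h7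
        exact adjoin_one_le (le_cl (mem_sup_right' hxQ))))
      exact ⟨ψ, fun _ => ⟨hψ, hψt⟩⟩
    · exact ⟨AlgEquiv.refl, fun h => absurd h hp⟩
  choose ψ hψ using hex
  set L := Q ⊔ P with hL
  set R : IntermediateField k Ω := Y₂ ⊔ P ⊔ ⨆ p : trip S, L.map (ψ p.1 : Ω →ₐ[k] Ω) with hR
  have hLR : ∀ p ∈ trip S, ∀ z ∈ L, ψ p z ∈ R := by
    intro p hp z hz
    refine mem_sup_right' ?_
    exact (le_iSup (fun p : trip S => L.map (ψ p.1 : Ω →ₐ[k] Ω)) ⟨p, hp⟩) ⟨z, hz, rfl⟩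
  have hPR : P ≤ R := le_sup_right.trans le_sup_left
  have hYR : Y₂ ≤ R := le_sup_left.trans le_sup_left
  have hmin : ∀ R' : IntermediateField k Ω, Y₂ ≤ R' → P ≤ R' →
      (∀ p ∈ trip S, ∀ z ∈ L, ψ p z ∈ R') → R ≤ R' := by
    intro R' h1 h2 h3
    refine sup_le (sup_le h1 h2) (iSup_le fun p => ?_)
    rintro _ ⟨z, hz, rfl⟩
    exact h3 p.1 p.2 z hz
  have hGL : Gal (V ⊔ IntermediateField.adjoin k {x}) L := by
    have h1 : Gal (V ⊔ IntermediateField.adjoin k {x}) (P ⊔ (V ⊔ IntermediateField.adjoin k {x})) :=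
      (bp_gal hS hSσ).base _ le_sup_left
    have h2 := hG.sup h1
    have h3 : Q ⊔ (P ⊔ (V ⊔ IntermediateField.adjoin k {x})) = L :=
      le_antisymm (sup_le le_sup_left (sup_le le_sup_right (hG.le.trans le_sup_left)))
        (sup_le le_sup_left (le_sup_left.trans le_sup_right))
    rwa [h3] at h2
  have hLf : Fin' L := fin_sup hQ hPf
  refine ⟨ψ, R, ⟨?_, ⟨?_, ?_, ?_⟩, fun p hp => (hψ p hp).1, fun p hp => (hψ p hp).2, hPR, hLR, ?_⟩⟩
  · -- finitely generated
    have h1 : ∀ p : trip S, (L.map (ψ p.1 : Ω →ₐ[k] Ω)).FG := by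
      intro p
      have h2 : L.FG := by rw [← IntermediateField.essFiniteType_iff]; exact hLf
      obtain ⟨s, hs⟩ := h2
      refine ⟨s.image (ψ p.1), ?_⟩
      rw [← hs, IntermediateField.adjoin_map, Finset.coe_image]
      rfl
    refine fin_sup (fin_sup hY₂ hPf) ?_
    rw [Fin', IntermediateField.essFiniteType_iff]
    exact IntermediateField.fg_iSup h1
  · exact sup_le (le_sup_left.trans hPR) hYR
  · rw [alg_iff]
    refine hmin _ (le_sup_right.trans le_cl) (hPcl.trans (cl_mono le_sup_left)) ?_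
    intro p hp z hz
    obtain ⟨⟨h1, h2, h3⟩, h4, h5, h6⟩ := mem_trip.1 hp
    have hxP : Transcendental P x := fun h => hxK (alg_mono le_sup_right h)
    have h7 : IsAlgebraic (P ⊔ IntermediateField.adjoin k {xc x p.1 p.2.1 p.2.2} :
        IntermediateField k Ω) z := by
      refine alg_mono ?_ (hGL.alg z hz)
      exact sup_le (le_sup_left.trans le_sup_left) (adjoin_one_le
        (adjoin_xc hxP (bp_mem h1) (bp_mem h2) (bp_mem h3) h4 h5 h6).2)
    refine mem_cl.2 (cl_idem (B := V ⊔ Y₂) (A := P ⊔ IntermediateField.adjoin k {t}) ?_ ?_)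
    · exact sup_le (hPcl.trans (cl_mono le_sup_left)) (adjoin_one_le (le_cl (mem_sup_right' htY)))
    · refine alg_map (fun a ha => ?_) h7
      have h8 : (P ⊔ IntermediateField.adjoin k {xc x p.1 p.2.1 p.2.2}).map (ψ p : Ω →ₐ[k] Ω) ≤
          P ⊔ IntermediateField.adjoin k {t} := by
        rw [IntermediateField.map_sup]
        refine sup_le ?_ ?_
        · rintro _ ⟨z, hz, rfl⟩
          refine mem_sup_left' ?_
          change ψ p z ∈ P
          rw [(hψ p hp).1 z (mem_sup_right' hz)]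
          exact hz
        · rw [IntermediateField.adjoin_map, IntermediateField.adjoin_le_iff]
          rintro _ ⟨_, rfl, rfl⟩
          change ψ p _ ∈ _
          rw [(hψ p hp).2]
          exact mem_sup_right' (mem_adjoin_one t)
      exact h8 ⟨a, ha, rfl⟩
  · -- stability
    intro σ hσ
    have hσV : Fixes σ V := hσ.mono le_sup_left
    have hσY : Fixes σ Y₂ := hσ.mono le_sup_right
    have hσP : Stab σ P := bp_stab hσV (hSσ σ hσV)
    have h1 : R ≤ R.comap (σ : Ω →ₐ[k] Ω) := by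
      refine hmin _ (fun z hz => ?_) (fun z hz => hPR (hσP z hz)) ?_
      · change σ z ∈ R
        rw [hσY z hz]
        exact hYR hz
      · intro p hp z hz
        change σ (ψ p z) ∈ R
        obtain ⟨⟨h1, h2, h3⟩, h4, h5, h6⟩ := mem_trip.1 hp
        set q : Ω × Ω × Ω := (σ p.1, σ p.2.1, σ p.2.2) with hq
        have hqS : q ∈ trip S := mem_trip.2 ⟨⟨hSσ σ hσV _ h1, hSσ σ hσV _ h2, hSσ σ hσV _ h3⟩,
          σ.injective.ne h4, σ.injective.ne h5, σ.injective.ne h6⟩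
        set θ : Ω ≃ₐ[k] Ω := ((ψ p).trans σ).trans (ψ q).symm with hθ
        have hθP : ∀ z ∈ P, θ z = σ z := by
          intro z hz
          rw [hθ, AlgEquiv.trans_apply, AlgEquiv.trans_apply, (hψ p hp).1 z (mem_sup_right' hz),
            AlgEquiv.symm_apply_eq]
          exact ((hψ q hqS).1 _ (mem_sup_right' (hσP z hz))).symm
        have hθV : Fixes θ V := fun z hz => by
          rw [hθP z (le_sup_left (a := V) hz), hσV z hz]
        have hθx : θ x = x := by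
          have e1 : θ (xc x p.1 p.2.1 p.2.2) = xc x (σ p.1) (σ p.2.1) (σ p.2.2) := by
            rw [hθ, AlgEquiv.trans_apply, AlgEquiv.trans_apply, (hψ p hp).2, hσY t htY,
              AlgEquiv.symm_apply_eq]
            exact ((hψ q hqS).2).symm
          have e2 : θ (xc x p.1 p.2.1 p.2.2) = xc (θ x) (σ p.1) (σ p.2.1) (σ p.2.2) := by
            rw [← hθP _ (bp_mem h1), ← hθP _ (bp_mem h2), ← hθP _ (bp_mem h3)]
            exact map_xcO (θ : Ω →+* Ω) x _ _ _
          have hxj : ∀ e ∈ S, x ≠ e := fun e he h => hxK (h ▸ alg_of_mem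
            (mem_sup_right' (bp_mem he)))
          refine xc_inj (σ.injective.ne h4) (σ.injective.ne h5) (σ.injective.ne h6) ?_
            (hxj _ (hSσ σ hσV _ h2)) (e2.symm.trans e1)
          rw [← hθP _ (bp_mem h2)]
          exact θ.injective.ne (hxj _ h2)
        have hθF : Fixes θ (V ⊔ IntermediateField.adjoin k {x}) := by
          refine hθV.sup79 ?_
          rw [fixes_iff79]
          exact adjoin_one_le hθx
        have h7 : σ (ψ p z) = ψ q (θ z) := by
          rw [hθ, AlgEquiv.trans_apply, AlgEquiv.trans_apply, AlgEquiv.apply_symm_apply]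
        rw [h7]
        exact hLR q hqS _ (hGL.stab θ hθF z hz)
    exact fun z hz => h1 hz
  · intro σ h1 h2 h3
    rw [fixes_iff79] at h1 h2 ⊢
    exact hmin _ h1 h2 h3

end Pf72953.Pl
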