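import Mathlib
import Pool.Agent.Lib.Pf72953n.Cov
import Pool.Agent.Lib.Pf72953b.Inertia
import Pool.Agent.Lib.Pf72953j.Iner

/-!
`ℙ¹`-step: `K(x)` as a subfield of `Ω` and as an intermediate field of `M/K`.
-/

set_option autoImplicit false
set_option linter.style.haveILetI false

open scoped WithZero Polynomial
open Pf72953 Pf72953.Mov Pf72953.Tow

namespace Pf72953.Pl

theorem unr_congr {Z Z' K : Type*} [Field Z] [Field Z'] [Field K] [Algebra Z K] [Algebra Z' K]
    (h : ∀ t : Z, ∃ t' : Z', algebraMap Z' K t' = algebraMap Z K t) {w : Valuation K ℤᵐ⁰}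
    (hU : Br.Unr Z w) : Br.Unr Z' w := by
  intro z hz
  obtain ⟨t, h1, h2⟩ := hU z hz
  obtain ⟨t', ht'⟩ := h t
  exact ⟨t', by rwa [ht'], by rwa [ht']⟩

theorem gal_of_hom {A' Z M : Type*} [Field A'] [Field Z] [Field M] [Algebra A' M] [Algebra Z M]
    [FiniteDimensional A' M] [IsGalois A' M] (g : A' →+* Z)
    (h : ∀ a, algebraMap Z M (g a) = algebraMap A' M a) : FiniteDimensional Z M ∧ IsGalois Z M := by
  letI : Algebra A' Z := g.toAlgebra
  haveI : IsScalarTower A' Z M := IsScalarTower.of_algebraMap_eq fun a => (h a).symm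
  exact ⟨FiniteDimensional.right A' Z M, IsGalois.tower_top_of_isGalois A' Z M⟩

variable {k Ω : Type*} [Field k] [Field Ω] [Algebra k Ω]

theorem mem_adjoin_iff {A M : IntermediateField k Ω} [Fact (A ≤ M)] {x : M} {z : M} :
    z ∈ IntermediateField.adjoin A ({x} : Set M) ↔
      (z : Ω) ∈ A ⊔ IntermediateField.adjoin k {(x : Ω)} := by
  constructor
  · intro hz
    induction hz using IntermediateField.adjoin_induction with
    | mem u hu =>
      rw [Set.mem_singleton_iff.1 hu]
      exact mem_sup_right' (mem_adjoin_one _)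
    | algebraMap r => exact mem_sup_left' r.2
    | add u v _ _ hu hv => exact add_mem hu hv
    | inv u _ hu => exact inv_mem hu
    | mul u v _ _ hu hv => exact mul_mem hu hv
  · intro hz
    let T : IntermediateField k M := (IntermediateField.adjoin A ({x} : Set M)).restrictScalars k
    have h1 : A ⊔ IntermediateField.adjoin k {(x : Ω)} ≤ T.map M.val := by
      refine sup_le (fun a ha => ⟨⟨a, (Fact.out : A ≤ M) ha⟩, ?_, rfl⟩) (adjoin_one_le ⟨x, ?_, rfl⟩)
      · exact (IntermediateField.adjoin A ({x} : Set M)).algebraMap_mem ⟨a, ha⟩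
      · exact IntermediateField.mem_adjoin_simple_self A x
    obtain ⟨z', hz', hzz⟩ := h1 hz
    have : z' = z := Subtype.ext hzz
    rw [← this]
    exact hz'

section gal

variable [CharZero k] [IsAlgClosed Ω]

/-- `M/A(x)` is finite Galois -/
theorem gal_adjoin {A M : IntermediateField k Ω} [Fact (A ≤ M)] {x : M} (hM : Fin' M)
    (h : Gal (A ⊔ IntermediateField.adjoin k {(x : Ω)}) M) :
    FiniteDimensional (IntermediateField.adjoin A ({x} : Set M)) M ∧
      IsGalois (IntermediateField.adjoin A ({x} : Set M)) M := by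
  set A' : IntermediateField k Ω := A ⊔ IntermediateField.adjoin k {(x : Ω)} with hA'
  haveI f1 : Fact (A' ≤ M) := ⟨h.le⟩
  obtain ⟨i1, i2⟩ := h.finite hM
  let g : A' →+* IntermediateField.adjoin A ({x} : Set M) :=
    { toFun := fun z => ⟨⟨z, h.le z.2⟩, mem_adjoin_iff.2 z.2⟩
      map_one' := rfl
      map_mul' := fun _ _ => rfl
      map_zero' := rfl
      map_add' := fun _ _ => rfl }
  exact gal_of_hom g fun _ => rfl

end gal

theorem unr_adjoin {A M A' : IntermediateField k Ω} [Fact (A ≤ M)] [Fact (A' ≤ M)] {x : M}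
    (hA' : A' ≤ A ⊔ IntermediateField.adjoin k {(x : Ω)}) {u : Valuation M ℤᵐ⁰}
    (hU : Br.Unr A' u) : Br.Unr (IntermediateField.adjoin A ({x} : Set M)) u := by
  refine unr_congr (fun t => ?_) hU
  exact ⟨⟨⟨t, (Fact.out : A' ≤ M) t.2⟩, mem_adjoin_iff.2 (hA' t.2)⟩, rfl⟩

theorem unr_adjoin' {A M A' : IntermediateField k Ω} [Fact (A ≤ M)] [Fact (A' ≤ M)] {x : M}
    (hA' : A ⊔ IntermediateField.adjoin k {(x : Ω)} ≤ A') {u : Valuation M ℤᵐ⁰}
    (hU : Br.Unr (IntermediateField.adjoin A ({x} : Set M)) u) : Br.Unr A' u := by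
  refine unr_congr (fun t => ?_) hU
  exact ⟨⟨(t : M), hA' (mem_adjoin_iff.1 t.2)⟩, rfl⟩

end Pf72953.Pl
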