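import Mathlib
import Pool.Agent.Lib.Pf72953j.Ram2
import Pool.Agent.Lib.Pf72953j.Over

/-!
An isomorphism of finitely generated subfields of the algebraically closed field `Ω` extends to an automorphism of `Ω`.
-/

set_option autoImplicit false
set_option linter.style.haveILetI false

open Pf72953 Pf72953.Mov

namespace Pf72953.Tow

/-- an isomorphism of subfields over which `Ω` has the same transcendence degree extends to `Ω` -/
theorem exists_ringExt_equiv {L₁ L₂ Ω : Type*} [Field L₁] [Field L₂] [Field Ω] [IsAlgClosed Ω]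
    [Algebra L₁ Ω] [Algebra L₂ Ω] (σ : L₁ ≃+* L₂) (h : Algebra.trdeg L₁ Ω = Algebra.trdeg L₂ Ω) :
    ∃ τ : Ω ≃+* Ω, ∀ x : L₁, τ (algebraMap L₁ Ω x) = algebraMap L₂ Ω (σ x) := by
  obtain ⟨s, hs⟩ := exists_isTranscendenceBasis L₁ Ω
  obtain ⟨t, ht⟩ := exists_isTranscendenceBasis L₂ Ω
  have hc : Cardinal.mk s = Cardinal.mk t := by
    rw [hs.cardinalMk_eq_trdeg, ht.cardinalMk_eq_trdeg, h]
  obtain ⟨f⟩ := Cardinal.eq.1 hc
  letI := IsAlgClosed.isAlgClosure_of_transcendence_basis (Subtype.val : s → Ω) hs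
  letI := IsAlgClosed.isAlgClosure_of_transcendence_basis (Subtype.val : t → Ω) ht
  let e : Algebra.adjoin L₁ (Set.range (Subtype.val : s → Ω)) ≃+*
      Algebra.adjoin L₂ (Set.range (Subtype.val : t → Ω)) :=
    hs.1.aevalEquiv.symm.toRingEquiv.trans
      ((MvPolynomial.mapEquiv s σ).trans
        ((MvPolynomial.renameEquiv L₂ f).toRingEquiv.trans ht.1.aevalEquiv.toRingEquiv))
  have he : ∀ x : L₁, e (algebraMap L₁ _ x) = algebraMap L₂ _ (σ x) := by
    intro x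
    change ht.1.aevalEquiv (MvPolynomial.rename f (MvPolynomial.map (σ : L₁ →+* L₂)
      (hs.1.aevalEquiv.symm (algebraMap L₁ _ x)))) = _
    rw [AlgEquiv.commutes]
    have h1 : MvPolynomial.map (σ : L₁ →+* L₂) (algebraMap L₁ (MvPolynomial s L₁) x) =
        algebraMap L₂ (MvPolynomial s L₂) (σ x) := MvPolynomial.map_C _ _
    have h2 : MvPolynomial.rename f (algebraMap L₂ (MvPolynomial s L₂) (σ x)) =
        algebraMap L₂ (MvPolynomial t L₂) (σ x) := MvPolynomial.rename_C _ _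
    rw [h1, h2, AlgEquiv.commutes]
  refine ⟨IsAlgClosure.equivOfEquiv Ω Ω e, fun x => ?_⟩
  have h1 : algebraMap L₁ Ω x = algebraMap (Algebra.adjoin L₁ (Set.range (Subtype.val : s → Ω))) Ω
      (algebraMap L₁ _ x) := rfl
  rw [h1, IsAlgClosure.equivOfEquiv_algebraMap, he]
  rfl

variable {k Ω : Type*} [Field k] [Field Ω] [Algebra k Ω] [CharZero k] [IsAlgClosed Ω]

omit [CharZero k] [IsAlgClosed Ω] in
theorem trdeg_lt_of_fin {L : IntermediateField k Ω} (h : Fin' L) :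
    Algebra.trdeg k L < Cardinal.aleph0 := by
  haveI := h
  rw [← trdeg_eq_dimension (k := k) (K := L)]
  exact Cardinal.natCast_lt_aleph0

omit [CharZero k] [IsAlgClosed Ω] in
theorem trdeg_eq_of_equiv {L₁ L₂ : IntermediateField k Ω} (h₁ : Fin' L₁) (e : L₁ ≃ₐ[k] L₂) :
    Algebra.trdeg L₁ Ω = Algebra.trdeg L₂ Ω := by
  have h1 := trdeg_add_eq k L₁ (A := Ω)
  have h2 := trdeg_add_eq k L₂ (A := Ω)
  rw [← e.trdeg_eq, add_comm] at h2
  rw [add_comm] at h1
  exact (Cardinal.add_right_inj_of_lt_aleph0 (trdeg_lt_of_fin h₁)).1 (h1.trans h2.symm)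

/-- an isomorphism of finitely generated subfields extends to `Ω` -/
theorem exists_ext_equiv {L₁ L₂ : IntermediateField k Ω} (h₁ : Fin' L₁) (_h₂ : Fin' L₂)
    (e : L₁ ≃ₐ[k] L₂) : ∃ τ : Ω ≃ₐ[k] Ω, ∀ x : L₁, τ x = e x := by
  obtain ⟨τ, hτ⟩ := exists_ringExt_equiv (Ω := Ω) e.toRingEquiv (trdeg_eq_of_equiv h₁ e)
  refine ⟨AlgEquiv.ofRingEquiv (f := τ) fun c => ?_, hτ⟩
  have h2 := hτ (algebraMap k L₁ c)
  rw [← IsScalarTower.algebraMap_apply k L₁ Ω] at h2
  rw [h2]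
  exact congrArg (algebraMap L₂ Ω) (e.commutes c)

end Pf72953.Tow
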