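import Mathlib
import Pool.Agent.Lib.Pf72953f.CompL
import Pool.Agent.Lib.Pf72953j.Ram2
import Pool.Agent.Lib.Pf72953j.Over
import Pool.Agent.Lib.Pf72953n.ExtEquiv

/-!
Amalgamation of automorphisms: `A/D` regular and free from `N/D`.
-/

set_option autoImplicit false
set_option linter.style.haveILetI false

open Pf72953 Pf72953.Mov
open scoped TensorProduct

namespace Pf72953.Tow

/-- two composita of `C` and `E` over `B` are isomorphic if `B` is algebraically closed in `E` -/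
theorem exists_equiv_of_comp {B C E L₁ L₂ ι : Type*} [Field B] [Field C] [Field E] [Field L₁]
    [Field L₂] [Algebra B C] [Algebra B E] [Algebra B L₁] [Algebra C L₁] [Algebra E L₁]
    [IsScalarTower B C L₁] [IsScalarTower B E L₁] [Algebra B L₂] [Algebra C L₂] [Algebra E L₂]
    [IsScalarTower B C L₂] [IsScalarTower B E L₂] [Fintype ι] [CharZero B] [CharZero C]
    [Algebra.EssFiniteType B L₁] [Algebra.EssFiniteType B L₂] (h₁ : Fib.Comp B C E L₁)
    (h₂ : Fib.Comp B C E L₂) (hE : Fib.ClosedIn B E) {s : ι → E} (hs : IsTranscendenceBasis B s) :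
    ∃ e : L₁ ≃+* L₂, (∀ c : C, e (algebraMap C L₁ c) = algebraMap C L₂ c) ∧
      ∀ x : E, e (algebraMap E L₁ x) = algebraMap E L₂ x := by
  have i₁ := h₁.inj hE hs
  have i₂ := h₂.inj hE hs
  letI a₁ : Algebra (C ⊗[B] E) L₁ := (Fib.pmap B C E L₁).toRingHom.toAlgebra
  letI a₂ : Algebra (C ⊗[B] E) L₂ := (Fib.pmap B C E L₂).toRingHom.toAlgebra
  haveI : FaithfulSMul (C ⊗[B] E) L₁ := (faithfulSMul_iff_algebraMap_injective _ _).2 i₁
  haveI : FaithfulSMul (C ⊗[B] E) L₂ := (faithfulSMul_iff_algebraMap_injective _ _).2 i₂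
  haveI : IsFractionRing (C ⊗[B] E) L₁ := IsFractionRing.of_field _ _ fun z => by
    obtain ⟨p, q, -, h⟩ := h₁.frac z
    exact ⟨p, q, h⟩
  haveI : IsFractionRing (C ⊗[B] E) L₂ := IsFractionRing.of_field _ _ fun z => by
    obtain ⟨p, q, -, h⟩ := h₂.frac z
    exact ⟨p, q, h⟩
  let e := IsLocalization.algEquiv (nonZeroDivisors (C ⊗[B] E)) L₁ L₂
  refine ⟨e.toRingEquiv, fun c => ?_, fun x => ?_⟩
  · have h3 := e.commutes (c ⊗ₜ[B] (1 : E))
    have h4 : algebraMap (C ⊗[B] E) L₁ (c ⊗ₜ[B] (1 : E)) = algebraMap C L₁ c := by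
      show Fib.pmap B C E L₁ (c ⊗ₜ 1) = _
      rw [Fib.pmap_tmul, map_one, mul_one]
    have h5 : algebraMap (C ⊗[B] E) L₂ (c ⊗ₜ[B] (1 : E)) = algebraMap C L₂ c := by
      show Fib.pmap B C E L₂ (c ⊗ₜ 1) = _
      rw [Fib.pmap_tmul, map_one, mul_one]
    rw [h4, h5] at h3
    exact h3
  · have h3 := e.commutes ((1 : C) ⊗ₜ[B] x)
    have h4 : algebraMap (C ⊗[B] E) L₁ ((1 : C) ⊗ₜ[B] x) = algebraMap E L₁ x := by
      show Fib.pmap B C E L₁ (1 ⊗ₜ x) = _
      rw [Fib.pmap_tmul, map_one, one_mul]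
    have h5 : algebraMap (C ⊗[B] E) L₂ ((1 : C) ⊗ₜ[B] x) = algebraMap E L₂ x := by
      show Fib.pmap B C E L₂ (1 ⊗ₜ x) = _
      rw [Fib.pmap_tmul, map_one, one_mul]
    rw [h4, h5] at h3
    exact h3

variable {k Ω : Type*} [Field k] [Field Ω] [Algebra k Ω]

theorem dim_eq_of_maps {N N' : IntermediateField k Ω} (ρ : Ω ≃ₐ[k] Ω) (h1 : ∀ x ∈ N, ρ x ∈ N')
    (h2 : ∀ x ∈ N', ρ.symm x ∈ N) : dimension k N = dimension k N' := by
  let g : N →ₐ[k] N' :=
    { toFun := fun x => ⟨ρ x, h1 x x.2⟩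
      map_one' := Subtype.ext (map_one ρ)
      map_mul' := fun a b => Subtype.ext (map_mul ρ _ _)
      map_zero' := Subtype.ext (map_zero ρ)
      map_add' := fun a b => Subtype.ext (map_add ρ _ _)
      commutes' := fun c => Subtype.ext (ρ.commutes c) }
  have hg : Function.Bijective g := by
    refine ⟨g.toRingHom.injective, fun y => ⟨⟨ρ.symm y, h2 y y.2⟩, ?_⟩⟩
    exact Subtype.ext (ρ.apply_symm_apply y)
  rw [dimension, dimension, (AlgEquiv.ofBijective g hg).trdeg_eq]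

theorem adjoin_sup_top {D N A : IntermediateField k Ω}
    [Fact (D ≤ N ⊔ A)] {S : Set (N ⊔ A : IntermediateField k Ω)}
    (h1 : ∀ x (hx : x ∈ N), (⟨x, (le_sup_left : N ≤ N ⊔ A) hx⟩ : (N ⊔ A : IntermediateField k Ω)) ∈ S)
    (h2 : ∀ x (hx : x ∈ A), (⟨x, (le_sup_right : A ≤ N ⊔ A) hx⟩ : (N ⊔ A : IntermediateField k Ω)) ∈ S) :
    IntermediateField.adjoin D S = ⊤ := by
  rw [eq_top_iff]
  intro x _
  have hle : (N ⊔ A : IntermediateField k Ω) ≤
      ((IntermediateField.adjoin D S).restrictScalars k).map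
        (N ⊔ A : IntermediateField k Ω).val := by
    refine sup_le (fun x hx => ?_) (fun x hx => ?_)
    · exact ⟨_, IntermediateField.subset_adjoin D S (h1 x hx), rfl⟩
    · exact ⟨_, IntermediateField.subset_adjoin D S (h2 x hx), rfl⟩
  obtain ⟨y, hy, hyx⟩ := hle x.2
  have : y = x := Subtype.ext hyx
  exact this ▸ hy

/-- `A` is regular over `D` and free from `N` and from `ρ(N)` over `D`: `ρ` can be changed to the identity on `A` -/
theorem exists_amalg [CharZero k] [IsAlgClosed Ω] {D N N' A : IntermediateField k Ω} (hN : Fin' N)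
    (hN' : Fin' N') (hA : Fin' A)
    (hDN : D ≤ N) (hDA : D ≤ A) (hcl : ∀ x ∈ A, IsAlgebraic D x → x ∈ D)
    (ρ : Ω ≃ₐ[k] Ω) (hρ : Fixes ρ D) (hρN : ∀ x ∈ N, ρ x ∈ N') (hρN' : ∀ x ∈ N', ρ.symm x ∈ N)
    (hi : dimension k (N ⊔ A : IntermediateField k Ω) + dimension k D =
      dimension k N + dimension k A)
    (hi' : dimension k (N' ⊔ A : IntermediateField k Ω) + dimension k D =
      dimension k N' + dimension k A) :
    ∃ ψ : Ω ≃ₐ[k] Ω, Fixes ψ A ∧ ∀ x ∈ N, ψ x = ρ x := by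
  haveI : CharZero D := charZero_of_injective_algebraMap (algebraMap k D).injective
  haveI : CharZero N := charZero_of_injective_algebraMap (algebraMap k N).injective
  haveI : Fact (D ≤ N) := ⟨hDN⟩
  haveI : Fact (D ≤ A) := ⟨hDA⟩
  haveI : Fact (N ≤ N ⊔ A) := ⟨le_sup_left⟩
  haveI : Fact (A ≤ N ⊔ A) := ⟨le_sup_right⟩
  haveI : Fact (D ≤ N ⊔ A) := ⟨hDN.trans le_sup_left⟩
  haveI : Fact (A ≤ N' ⊔ A) := ⟨le_sup_right⟩
  haveI : Fact (D ≤ N' ⊔ A) := ⟨hDA.trans le_sup_right⟩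
  have f₁ : Fin' (N ⊔ A) := fin_sup hN hA
  have f₂ : Fin' (N' ⊔ A) := fin_sup hN' hA
  haveI : Algebra.EssFiniteType k (N ⊔ A : IntermediateField k Ω) := f₁
  haveI : Algebra.EssFiniteType k (N' ⊔ A : IntermediateField k Ω) := f₂
  haveI : Algebra.EssFiniteType k A := hA
  haveI : Algebra.EssFiniteType D (N ⊔ A : IntermediateField k Ω) :=
    Algebra.EssFiniteType.of_comp k D _
  haveI : Algebra.EssFiniteType D (N' ⊔ A : IntermediateField k Ω) :=
    Algebra.EssFiniteType.of_comp k D _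
  haveI : Algebra.EssFiniteType D A := Algebra.EssFiniteType.of_comp k D _
  let g : N →+* (N' ⊔ A : IntermediateField k Ω) :=
    { toFun := fun x => ⟨ρ x, (le_sup_left : N' ≤ N' ⊔ A) (hρN x x.2)⟩
      map_one' := Subtype.ext (map_one ρ)
      map_mul' := fun a b => Subtype.ext (map_mul ρ _ _)
      map_zero' := Subtype.ext (map_zero ρ)
      map_add' := fun a b => Subtype.ext (map_add ρ _ _) }
  letI aN : Algebra N (N' ⊔ A : IntermediateField k Ω) := g.toAlgebra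
  haveI : IsScalarTower D N (N' ⊔ A : IntermediateField k Ω) :=
    IsScalarTower.of_algebraMap_eq fun d => Subtype.ext (hρ d d.2).symm
  have hdN := dim_add (A := D) hN
  have hdA := dim_add (A := D) hA
  have hd1 := dim_add (A := D) f₁
  have hd2 := dim_add (A := D) f₂
  have hNN : dimension k N = dimension k N' := dim_eq_of_maps ρ hρN hρN'
  have c₁ : Fib.Comp D N A (N ⊔ A : IntermediateField k Ω) :=
    ⟨by omega, adjoin_sup_top (fun x hx => Or.inl ⟨⟨x, hx⟩, rfl⟩) fun x hx => Or.inr ⟨⟨x, hx⟩, rfl⟩⟩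
  have c₂ : Fib.Comp D N A (N' ⊔ A : IntermediateField k Ω) := by
    refine ⟨by omega, adjoin_sup_top (fun x hx => Or.inl ⟨⟨ρ.symm x, hρN' x hx⟩, ?_⟩)
      fun x hx => Or.inr ⟨⟨x, hx⟩, rfl⟩⟩
    exact Subtype.ext (ρ.apply_symm_apply x)
  have hcA : Fib.ClosedIn D A := by
    intro a ha
    exact ⟨⟨a, hcl a a.2 ((isAlgebraic_algebraMap_iff (algebraMap A Ω).injective).2 ha)⟩, rfl⟩
  obtain ⟨s, hs⟩ := exists_tb D A
  obtain ⟨e, he1, he2⟩ := exists_equiv_of_comp c₁ c₂ hcA hs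
  have hek : ∀ c : k, e (algebraMap k _ c) = algebraMap k _ c := by
    intro c
    have h := he2 (algebraMap k A c)
    exact h
  obtain ⟨τ, hτ⟩ := exists_ext_equiv f₁ f₂ (AlgEquiv.ofRingEquiv (f := e) hek)
  refine ⟨τ, fun x hx => ?_, fun x hx => ?_⟩
  · have h := hτ ⟨x, (le_sup_right : A ≤ N ⊔ A) hx⟩
    have h2 := congrArg Subtype.val (he2 ⟨x, hx⟩)
    exact h.trans h2
  · have h := hτ ⟨x, (le_sup_left : N ≤ N ⊔ A) hx⟩
    have h2 := congrArg Subtype.val (he1 ⟨x, hx⟩)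
    exact h.trans h2

end Pf72953.Tow
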