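import Mathlib
import Pool.Agent.Lib.Pf72953j.Ext
import Pool.Agent.Lib.Pf72953j.Desc
import Pool.Agent.Lib.Pf72953j.Iner
import Pool.Agent.Lib.Pf72953b.Inertia
import Pool.Agent.Lib.Pf72953b.GalConj
import Pool.Agent.Lib.Pf72953.Extend
import Pool.Agent.Lib.Pf72953.Estimate

/-!
Galois covers of `ℙ¹`-bundles: transfer of ramification.
-/

set_option autoImplicit false
set_option linter.style.haveILetI false

open scoped WithZero Polynomial
open Pf72953 Pf72953.Mov Pf72953.Tow

namespace Pf72953.Pl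

section unr

theorem unr_of_equiv {Z K : Type*} [Field Z] [Field K] [Algebra Z K] {w w' : Valuation K ℤᵐ⁰}
    (h : w.IsEquiv w') (hu : Br.Unr Z w) : Br.Unr Z w' := by
  intro z hz
  have h1 : ∀ y : K, w' y < 1 ↔ w y < 1 := fun y => by
    have h2 := h 1 y
    rw [map_one, map_one] at h2
    rw [← not_le, ← not_le, h2]
  obtain ⟨t, ht, hzt⟩ := hu z ((h1 z).1 hz)
  exact ⟨t, (h1 _).2 ht, (h _ _).1 hzt⟩

theorem unr_comap {Z L L' : Type*} [Field Z] [Field L] [Field L'] [Algebra Z L] [Algebra L L']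
    [Algebra Z L'] [IsScalarTower Z L L'] {w : Valuation L' ℤᵐ⁰} (h : Br.Unr Z w) :
    Br.Unr Z (w.comap (algebraMap L L')) := by
  intro z hz
  obtain ⟨t, ht, hzt⟩ := h (algebraMap L L' z) hz
  rw [IsScalarTower.algebraMap_apply Z L L'] at ht hzt
  exact ⟨t, ht, hzt⟩

end unr

section place

open Polynomial

variable {K L : Type*} [Field K] [Field L] [Algebra K L] {w : Valuation L ℤᵐ⁰} {x : L} {e : K}

/-- the value of a polynomial at the place `x = e` -/
theorem val_poly (htriv : ∀ a : K, a ≠ 0 → w (algebraMap K L a) = 1)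
    (hlt : w (x - algebraMap K L e) < 1) {p : K[X]} (hp : p ≠ 0) :
    w (aeval x p) = w (x - algebraMap K L e) ^ p.rootMultiplicity e := by
  have hle : ∀ a : K, w (algebraMap K L a) ≤ 1 := fun a => by
    rcases eq_or_ne a 0 with rfl | h
    · rw [map_zero, map_zero]
      exact zero_le_one
    · exact (htriv a h).le
  have hx : w x ≤ 1 := by
    have h1 : x = (x - algebraMap K L e) + algebraMap K L e := by ring
    rw [h1]
    exact Valuation.map_add_le w hlt.le (hle e)
  have hle' : ∀ q : K[X], w (aeval x q) ≤ 1 := by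
    intro q
    induction q using Polynomial.induction_on' with
    | add p q hp hq =>
      rw [map_add]
      exact (Valuation.map_add w _ _).trans (max_le hp hq)
    | monomial n a =>
      rw [aeval_monomial, map_mul, map_pow]
      exact mul_le_one' (hle a) (pow_le_one' hx n)
  obtain ⟨q, hq, hdvd⟩ := Polynomial.exists_eq_pow_rootMultiplicity_mul_and_not_dvd p hp e
  have hqe : q.eval e ≠ 0 := by
    intro h0
    exact hdvd (Polynomial.dvd_iff_isRoot.2 h0)
  have hq1 : w (aeval x q) = 1 := by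
    obtain ⟨r, hr⟩ : X - C e ∣ q - C (q.eval e) := Polynomial.dvd_iff_isRoot.2 (by simp)
    have h1 : q = C (q.eval e) + (X - C e) * r := by rw [← hr]; ring
    have h2 : aeval x q = algebraMap K L (q.eval e) + (x - algebraMap K L e) * aeval x r := by
      conv_lhs => rw [h1]
      simp
    rw [h2, Valuation.map_add_eq_of_lt_left, htriv _ hqe]
    rw [htriv _ hqe, map_mul]
    exact lt_of_le_of_lt (mul_le_of_le_one_right' (hle' r)) hlt
  conv_lhs => rw [hq]
  rw [map_mul, map_mul, hq1, mul_one, map_pow]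
  simp

/-- the place `x = e` of `K(x)` -/
theorem val_le_iff (hx : Transcendental K x) (htriv : ∀ a : K, a ≠ 0 → w (algebraMap K L a) = 1)
    (hlt : w (x - algebraMap K L e) < 1) {p q : K[X]} (hp : p ≠ 0) (hq : q ≠ 0) :
    w (aeval x p / aeval x q) ≤ 1 ↔ q.rootMultiplicity e ≤ p.rootMultiplicity e := by
  have h0 : w (x - algebraMap K L e) ≠ 0 := by
    rw [Valuation.ne_zero_iff, sub_ne_zero]
    rintro rfl
    exact hx (isAlgebraic_algebraMap e)
  have hq0 : w (aeval x q) ≠ 0 := by
    rw [val_poly htriv hlt hq]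
    exact pow_ne_zero _ h0
  rw [map_div₀, div_le_one₀ (zero_lt_iff.2 hq0), val_poly htriv hlt hp, val_poly htriv hlt hq]
  constructor
  · intro h
    by_contra hcon
    push Not at hcon
    exact absurd h (not_le.2 (pow_lt_pow_right_of_lt_one₀ (zero_lt_iff.2 h0) hlt hcon))
  · intro h
    exact pow_le_pow_right_of_le_one' hlt.le h

/-- `x - e` is a uniformizer of the place `x = e` of `K(x)` -/
theorem val_unif (hx : Transcendental K x) (htriv : ∀ a : K, a ≠ 0 → w (algebraMap K L a) = 1)
    (hlt : w (x - algebraMap K L e) < 1) {p q : K[X]} (hq : q ≠ 0)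
    (h : w (aeval x p / aeval x q) < 1) :
    w (aeval x p / aeval x q) ≤ w (x - algebraMap K L e) := by
  rcases eq_or_ne p 0 with rfl | hp
  · rw [map_zero, zero_div, map_zero]
    exact zero_le
  have h0 : w (x - algebraMap K L e) ≠ 0 := by
    rw [Valuation.ne_zero_iff, sub_ne_zero]
    rintro rfl
    exact hx (isAlgebraic_algebraMap e)
  have hq0 : w (aeval x q) ≠ 0 := by
    rw [val_poly htriv hlt hq]
    exact pow_ne_zero _ h0
  rw [map_div₀, div_lt_one₀ (zero_lt_iff.2 hq0), val_poly htriv hlt hp, val_poly htriv hlt hq] at h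
  rw [map_div₀, div_le_iff₀ (zero_lt_iff.2 hq0), val_poly htriv hlt hp, val_poly htriv hlt hq,
    ← pow_succ']
  refine pow_le_pow_right_of_le_one' hlt.le ?_
  by_contra hcon
  push Not at hcon
  exact absurd h (not_lt.2 (pow_le_pow_right_of_le_one' hlt.le (by omega)))

end place

section omega

variable {k Ω : Type*} [Field k] [Field Ω] [Algebra k Ω]

/-- extension of valuations -/
theorem exists_val [CharZero k] {L L' : IntermediateField k Ω} [Fact (L ≤ L')] (hL' : Fin' L')
    (halg : ∀ x ∈ L', IsAlgebraic L x) (u : Valuation L ℤᵐ⁰) :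
    ∃ u' : Valuation L' ℤᵐ⁰, (u'.comap (algebraMap L L')).IsEquiv u := by
  classical
  haveI : FiniteDimensional L L' := finite_of hL' halg
  haveI : CharZero L := charZero_of_injective_algebraMap (algebraMap k L).injective
  by_cases hnt : ∃ a : L, a ≠ 0 ∧ u a ≠ 1
  · obtain ⟨w, hw⟩ := exists_extension (L := L') u hnt
    refine ⟨w, ?_⟩
    rw [Valuation.isEquiv_iff_val_le_one]
    intro a
    exact hw a
  · push Not at hnt
    refine ⟨1, ?_⟩
    rw [Valuation.isEquiv_iff_val_le_one]
    intro a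
    rcases eq_or_ne a 0 with rfl | ha
    · simp
    · rw [hnt a ha, Valuation.comap_apply]
      simp only [le_refl, iff_true]
      exact (Valuation.one_apply_of_ne_zero (by simpa using ha)).le

variable [IsAlgClosed Ω] [CharZero k] [IsAlgClosed k]

/-- base change of the base field -/
theorem unr_up {Z L Z' L' : IntermediateField k Ω} [Fact (Z ≤ L)] [Fact (Z' ≤ L')] [Fact (L ≤ L')]
    [Fact (Z ≤ L')] (hZZ' : Z ≤ Z') (hL : Fin' L) (hL' : Fin' L') (hG : Gal Z L) (hG' : Gal Z' L')
    (hgen : L' ≤ Z' ⊔ L) {w : Valuation L' ℤᵐ⁰}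
    (hw : ∀ c : k, c ≠ 0 → w (algebraMap k L' c) = 1)
    (h : Br.Unr Z (w.comap (algebraMap L L'))) : Br.Unr Z' w := by
  haveI : FiniteDimensional Z L := (hG.finite hL).1
  haveI : FiniteDimensional Z' L' := (hG'.finite hL').1
  haveI : IsGalois Z' L' := (hG'.finite hL').2
  refine Br.unr_of_inertia fun σ hσ => ?_
  obtain ⟨τ, hτ, hτσ⟩ := hG'.exists_ext hL' σ
  obtain ⟨s, hs⟩ := exists_restrict hG (hτ.mono hZZ')
  have hs1 : s = 1 := by
    refine inertia_of_unr (k := k) (w := w.comap (algebraMap L L')) (fun c hc => hw c hc) h s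
      fun z hz => ?_
    have h1 := hσ (algebraMap L L' z) hz
    have h2 : σ (algebraMap L L' z) - algebraMap L L' z = algebraMap L L' (s z - z) := by
      apply Subtype.ext
      have h3 : (σ (algebraMap L L' z) : Ω) = s z := by
        rw [← hτσ, hs]
        rfl
      change (σ (algebraMap L L' z) : Ω) - z = (s z : Ω) - z
      rw [h3]
    rw [h2] at h1
    exact h1
  have hτL : Fixes τ L := by
    intro x hx
    have h1 := hs ⟨x, hx⟩
    rw [hs1] at h1
    exact h1.symm
  ext z
  have h1 := (hτ.sup hτL) z (hgen z.2)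
  rw [hτσ] at h1
  exact h1

/-- constants may be added to the base field -/
theorem unr_const {Z Z' L' C : IntermediateField k Ω} [Fact (Z ≤ L')] [Fact (Z' ≤ L')]
    (hL' : Fin' L') (hG : Gal Z L') (hG' : Gal Z' L') (hC : C ≤ L')
    (hstab : ∀ σ : Ω ≃ₐ[k] Ω, Fixes σ Z → Stab σ C) (hZ' : Z' ≤ Z ⊔ C) {w : Valuation L' ℤᵐ⁰}
    (hw : ∀ c : k, c ≠ 0 → w (algebraMap k L' c) = 1)
    (hwC : ∀ a : L', (a : Ω) ∈ C → a ≠ 0 → w a = 1) (h : Br.Unr Z' w) : Br.Unr Z w := by
  haveI : FiniteDimensional Z L' := (hG.finite hL').1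
  haveI : IsGalois Z L' := (hG.finite hL').2
  haveI : FiniteDimensional Z' L' := (hG'.finite hL').1
  refine Br.unr_of_inertia fun σ hσ => ?_
  obtain ⟨τ, hτ, hτσ⟩ := hG.exists_ext hL' σ
  have hτC : Fixes τ C := by
    intro c hc
    by_contra hne
    set c' : L' := ⟨c, hC hc⟩ with hc'
    have hc0 : c' ≠ 0 := by
      intro h0
      have h1 : c = 0 := congrArg Subtype.val h0
      rw [h1, map_zero] at hne
      exact hne rfl
    have h1 : σ c' - c' ≠ 0 := by
      intro h0
      have h2 := congrArg Subtype.val h0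
      have h3 : (σ c' : Ω) - c = 0 := h2
      rw [← hτσ] at h3
      exact hne (sub_eq_zero.1 h3)
    have h2 : ((σ c' - c' : L') : Ω) ∈ C := by
      have h3 : ((σ c' - c' : L') : Ω) = τ c - c := by
        change (σ c' : Ω) - c = τ c - c
        rw [← hτσ]
      rw [h3]
      exact C.sub_mem (hstab τ hτ c hc) hc
    have h3 := hσ c' (hwC c' hc hc0).le
    rw [hwC _ h2 h1] at h3
    exact lt_irrefl _ h3
  have hτZ' : Fixes τ Z' := (hτ.sup hτC).mono hZ'
  obtain ⟨s, hs⟩ := exists_restrict hG' hτZ'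
  have hs1 : s = 1 := by
    refine inertia_of_unr (k := k) hw h s fun z hz => ?_
    have h1 := hσ z hz
    have h2 : s z = σ z := Subtype.ext (by rw [hs, hτσ])
    rw [h2]
    exact h1
  ext z
  have h1 := hs z
  rw [hs1, hτσ] at h1
  exact h1.symm

end omega

end Pf72953.Pl
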