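import Mathlib
import Pool.Agent.Lib.Pf72953n.BrA
import Pool.Agent.Lib.Pf72953i.Main

/-!
Galois covers of `ℙ¹`-bundles: places of `K(x)`, conjugates over `V(x)`.
-/

set_option autoImplicit false
set_option linter.style.haveILetI false

open scoped WithZero Polynomial
open Pf72953 Pf72953.Mov Pf72953.Tow

namespace Pf72953.Pl

variable {k Ω : Type*} [Field k] [Field Ω] [Algebra k Ω]

section simple

open Polynomial

/-- the elements of `K(x)` -/
theorem mem_simple {K : IntermediateField k Ω} {x t : Ω}
    (ht : t ∈ K ⊔ IntermediateField.adjoin k {x}) : ∃ p q : K[X], t = aeval x p / aeval x q := by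
  have h1 : K ⊔ IntermediateField.adjoin k {x} =
      (IntermediateField.adjoin K {x}).restrictScalars k := by
    rw [IntermediateField.restrictScalars_adjoin, IntermediateField.adjoin_union,
      IntermediateField.adjoin_self]
  rw [h1] at ht
  exact (IntermediateField.mem_adjoin_simple_iff K t).1 ht

variable {K L : IntermediateField k Ω} [Fact (K ≤ L)]

theorem repr_simple {x t : L} (ht : (t : Ω) ∈ K ⊔ IntermediateField.adjoin k {(x : Ω)}) :
    ∃ p q : K[X], q ≠ 0 ∧ t = aeval x p / aeval x q := by
  obtain ⟨p, q, h⟩ := mem_simple ht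
  rcases eq_or_ne q 0 with rfl | hq
  · refine ⟨0, 1, one_ne_zero, Subtype.ext ?_⟩
    rw [h]
    simp
  · refine ⟨p, q, hq, ?_⟩
    apply (algebraMap L Ω).injective
    rw [map_div₀, ← aeval_algebraMap_apply, ← aeval_algebraMap_apply]
    exact h

theorem transcendental_up {x : L} (hx : Transcendental K (x : Ω)) : Transcendental K x := fun h =>
  hx ((isAlgebraic_algebraMap_iff (R := K) (A := Ω) (S := L) (algebraMap L Ω).injective).2 h)

/-- `x - e` is a uniformizer of the place `x = e` of `K(x)` -/
theorem unif_simple {w : Valuation L ℤᵐ⁰} {x t : L} {e : K} (hx : Transcendental K (x : Ω))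
    (htriv : ∀ a : K, a ≠ 0 → w (algebraMap K L a) = 1) (hlt : w (x - algebraMap K L e) < 1)
    (ht : (t : Ω) ∈ K ⊔ IntermediateField.adjoin k {(x : Ω)}) (h : w t < 1) :
    w t ≤ w (x - algebraMap K L e) := by
  obtain ⟨p, q, hq, rfl⟩ := repr_simple ht
  exact val_unif (transcendental_up hx) htriv hlt hq h

/-- there is one place `x = e` of `K(x)` -/
theorem place_simple {w w' : Valuation L ℤᵐ⁰} {x t : L} {e : K} (hx : Transcendental K (x : Ω))
    (htriv : ∀ a : K, a ≠ 0 → w (algebraMap K L a) = 1) (hlt : w (x - algebraMap K L e) < 1)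
    (htriv' : ∀ a : K, a ≠ 0 → w' (algebraMap K L a) = 1) (hlt' : w' (x - algebraMap K L e) < 1)
    (ht : (t : Ω) ∈ K ⊔ IntermediateField.adjoin k {(x : Ω)}) : w t ≤ 1 ↔ w' t ≤ 1 := by
  obtain ⟨p, q, hq, rfl⟩ := repr_simple ht
  rcases eq_or_ne p 0 with rfl | hp
  · simp
  rw [val_le_iff (transcendental_up hx) htriv hlt hp hq,
    val_le_iff (transcendental_up hx) htriv' hlt' hp hq]

end simple

section alg

/-- a valuation trivial on `K` is trivial on algebraic elements -/
theorem triv_alg {K L : IntermediateField k Ω} [Fact (K ≤ L)] {w : Valuation L ℤᵐ⁰}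
    (htriv : ∀ a : K, a ≠ 0 → w (algebraMap K L a) = 1) {b : L} (hb : IsAlgebraic K (b : Ω))
    (hb0 : b ≠ 0) : w b = 1 := by
  exact val_eq_one_of_isIntegral htriv hb0 ((isAlgebraic_algebraMap_iff (R := K) (A := Ω) (S := L)
    (algebraMap L Ω).injective).1 hb).isIntegral

theorem transcendental_alg {K K' : IntermediateField k Ω} (hK : K ≤ K')
    (h : ∀ a ∈ K', IsAlgebraic K a) {x : Ω} (hx : Transcendental K x) : Transcendental K' x := by
  intro h1
  haveI : Fact (K ≤ K') := ⟨hK⟩
  haveI : Algebra.IsAlgebraic K K' := isAlg_iff.2 h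
  exact hx (h1.restrictScalars K)

end alg

section gal

theorem gal_up {V K Q : IntermediateField k Ω} {x : Ω}
    (hG : Gal (V ⊔ IntermediateField.adjoin k {x}) Q) (hVK : V ≤ K) :
    Gal (K ⊔ IntermediateField.adjoin k {x}) (K ⊔ Q) := by
  have h1 := hG.base (K ⊔ IntermediateField.adjoin k {x}) (sup_le_sup_right hVK _)
  have h2 : Q ⊔ (K ⊔ IntermediateField.adjoin k {x}) = K ⊔ Q := by
    apply le_antisymm
    · exact sup_le le_sup_right (sup_le le_sup_left ((le_sup_right.trans hG.le).trans le_sup_right))
    · exact sup_le (le_sup_left.trans le_sup_right) le_sup_left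
  rwa [h2] at h1

theorem gal_up' {V K P Q : IntermediateField k Ω} {x : Ω}
    (hG : Gal (V ⊔ IntermediateField.adjoin k {x}) Q) (hVK : V ≤ K) (hP : Gal V P) :
    Gal (K ⊔ IntermediateField.adjoin k {x}) (K ⊔ P ⊔ Q) := by
  have h1 := (gal_up hG hVK).sup
    (hP.base (K ⊔ IntermediateField.adjoin k {x}) (hVK.trans le_sup_left))
  have h2 : K ⊔ Q ⊔ (P ⊔ (K ⊔ IntermediateField.adjoin k {x})) = K ⊔ P ⊔ Q := by
    apply le_antisymm
    · exact sup_le (sup_le (le_sup_left.trans le_sup_left) le_sup_right)
        (sup_le (le_sup_right.trans le_sup_left) (sup_le (le_sup_left.trans le_sup_left)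
          ((le_sup_right.trans hG.le).trans le_sup_right)))
    · exact sup_le (sup_le (le_sup_left.trans le_sup_left) (le_sup_left.trans le_sup_right))
        (le_sup_right.trans le_sup_left)
  rwa [h2] at h1

end gal

section conj

variable [CharZero k]

omit [CharZero k] in
theorem fin_simple (x : Ω) : Fin' (IntermediateField.adjoin k {x}) := by
  rw [Fin', IntermediateField.essFiniteType_iff]
  exact IntermediateField.fg_adjoin_of_finite (Set.finite_singleton x)

theorem dim_simple {x : Ω} (hx : Transcendental k x) :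
    dimension k (IntermediateField.adjoin k {x}) = 1 := by
  haveI : Algebra.EssFiniteType k (IntermediateField.adjoin k {x}) := fin_simple x
  set x' : IntermediateField.adjoin k {x} := ⟨x, IntermediateField.mem_adjoin_simple_self k x⟩ with hx'
  have h1 : AlgebraicIndependent k (fun _ : Fin 1 => x') := by
    refine AlgebraicIndependent.of_comp (IntermediateField.adjoin k {x}).val ?_
    exact algebraicIndependent_unique_type_iff.mpr hx
  haveI : Algebra.IsAlgebraic (Algebra.adjoin k (Set.range (fun _ : Fin 1 => x')))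
      (IntermediateField.adjoin k {x}) := by
    refine ⟨fun a => ?_⟩
    rw [← IntermediateField.isAlgebraic_adjoin_iff]
    have h2 : a ∈ IntermediateField.adjoin k (Set.range (fun _ : Fin 1 => x')) := by
      have h3 : (IntermediateField.adjoin k (Set.range (fun _ : Fin 1 => x'))).map
          (IntermediateField.adjoin k {x}).val = IntermediateField.adjoin k {x} := by
        rw [IntermediateField.adjoin_map]
        congr 1
        ext y
        simp [hx']
      obtain ⟨b, hb, hba⟩ := h3.ge a.2
      exact (Subtype.ext hba : b = a) ▸ hb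
    exact isAlgebraic_algebraMap (⟨a, h2⟩ :
      IntermediateField.adjoin k (Set.range (fun _ : Fin 1 => x')))
  rw [← card_eq_of_isTranscendenceBasis (h1.isTranscendenceBasis_iff_isAlgebraic.2 inferInstance),
    Fintype.card_fin]

theorem indep_simple {V : IntermediateField k Ω} (hV : Fin' V) {x : Ω} (hx : Transcendental V x) :
    Indep V (IntermediateField.adjoin k {x}) := by
  refine Et.indep_curve hV (fin_simple x) (dim_simple fun h => hx ?_)
    (IntermediateField.mem_adjoin_simple_self k x) hx
  exact h.extendScalars (algebraMap k V).injective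

variable [IsAlgClosed k] [IsAlgClosed Ω]

/-- conjugates over `V` are conjugates over `V(x)` -/
theorem conj_over {V : IntermediateField k Ω} (hV : Fin' V) {x e : Ω} (hx : Transcendental V x)
    (he : IsAlgebraic V e) {σ : Ω ≃ₐ[k] Ω} (hσ : Fixes σ V) :
    ∃ τ : Ω ≃ₐ[k] Ω, Fixes τ (V ⊔ IntermediateField.adjoin k {x}) ∧ τ e = σ e := by
  set F : IntermediateField k Ω := V ⊔ IntermediateField.adjoin k {x} with hF
  haveI : Fact (V ≤ F) := ⟨le_sup_left⟩
  have heF : IsAlgebraic F e := alg_mono le_sup_left he
  refine exists_conj heF ?_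
  have hdvd : minpoly F e ∣ (minpoly V e).map (algebraMap V F) := minpoly.dvd_map_of_isScalarTower V F e
  have hcoef : ∀ n, ((minpoly F e).coeff n : Ω) ∈ V := by
    intro n
    have h1 : IsIntegral V ((minpoly F e).coeff n) :=
      Polynomial.isIntegral_coeff_of_dvd (minpoly V e) _ (minpoly.monic he.isIntegral)
        (minpoly.monic heF.isIntegral) hdvd n
    have h2 : IsAlgebraic V (((minpoly F e).coeff n : F) : Ω) := by
      have h3 := h1.isAlgebraic
      exact (isAlgebraic_algebraMap_iff (R := V) (A := Ω) (S := F) (algebraMap F Ω).injective).2 h3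
    exact closed_sup hV (fin_simple x) (indep_simple hV hx) ((minpoly F e).coeff n).2 h2
  have h1 : Polynomial.aeval (σ e) (minpoly F e) = σ (Polynomial.aeval e (minpoly F e)) := by
    rw [Polynomial.aeval_eq_sum_range, Polynomial.aeval_eq_sum_range, map_sum]
    refine Finset.sum_congr rfl fun n _ => ?_
    rw [Algebra.smul_def, Algebra.smul_def, map_mul, map_pow]
    congr 1
    exact (hσ _ (hcoef n)).symm
  rw [h1, minpoly.aeval, map_zero]

end conj

end Pf72953.Pl
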