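import Mathlib
import Pool.Agent.Lib.Pf72953j.Ext
import Pool.Agent.Lib.Pf72953j.Glue
import Pool.Agent.Lib.Pf72953b.Inertia
import Pool.Agent.Lib.Pf72953y.Filt
import Pool.Agent.Lib.Pf72953y.Ring

/-!
Galois covers of the projective line: a coordinate and a finite set which contains the branch points.
-/

set_option autoImplicit false
set_option linter.style.haveILetI false

open scoped WithZero Polynomial
open Pf72953 Pf72953.Mov Pf72953.Tow

namespace Pf72953.Pl

section coord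
variable {k Ω : Type*} [Field k] [CharZero k] [Field Ω] [IsAlgClosed Ω] [Algebra k Ω]

omit [CharZero k] [IsAlgClosed Ω] in
/-- `V(x)` is generated by `x` over `V` -/
theorem mem_adjoin_of_sup {V : IntermediateField k Ω} {x : Ω}
    [Fact (V ≤ V ⊔ IntermediateField.adjoin k {x})]
    (hxE : x ∈ V ⊔ IntermediateField.adjoin k {x})
    (z : (V ⊔ IntermediateField.adjoin k {x} : IntermediateField k Ω)) :
    z ∈ IntermediateField.adjoin V {(⟨x, hxE⟩ :
      (V ⊔ IntermediateField.adjoin k {x} : IntermediateField k Ω))} := by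
  have h1 : (z : Ω) ∈ IntermediateField.adjoin V {x} := by
    have h2 : (z : Ω) ∈ (IntermediateField.adjoin V {x}).restrictScalars k := by
      rw [IntermediateField.restrictScalars_adjoin_eq_sup]
      exact z.2
    exact h2
  obtain ⟨r, s, hrs⟩ := (IntermediateField.mem_adjoin_simple_iff V (z : Ω)).1 h1
  refine (IntermediateField.mem_adjoin_simple_iff V z).2 ⟨r, s, ?_⟩
  apply (algebraMap (V ⊔ IntermediateField.adjoin k {x} : IntermediateField k Ω) Ω).injective
  rw [map_div₀, ← Polynomial.aeval_algebraMap_apply, ← Polynomial.aeval_algebraMap_apply]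
  exact hrs

/-- a polynomial `δ` such that the places with `u x ≤ 1` and `u (δ(x)) = 1` are unramified, over every extension of `V` -/
theorem exists_delta {V Q : IntermediateField k Ω} (hQ : Fin' Q) {x : Ω} (hx : Transcendental V x)
    (hG : Gal (V ⊔ IntermediateField.adjoin k {x}) Q) :
    ∃ δ : V[X], δ ≠ 0 ∧ ∀ (F M : IntermediateField k Ω) [Fact (F ≤ M)], Gal F M → Fin' M →
      V ⊔ IntermediateField.adjoin k {x} ≤ F → ∀ (_ : Q ≤ M) (_ : M ≤ F ⊔ Q)
      (u : Valuation M ℤᵐ⁰), (∀ a : Ω, a ∈ V → a ≠ 0 → ∀ h : a ∈ M, u ⟨a, h⟩ = 1) →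
      (∀ h : x ∈ M, u ⟨x, h⟩ ≤ 1) → (∀ h : Polynomial.aeval x δ ∈ M, u ⟨_, h⟩ = 1) →
      Br.Unr F u := by
  classical
  set E : IntermediateField k Ω := V ⊔ IntermediateField.adjoin k {x} with hE
  haveI : Fact (V ≤ E) := ⟨le_sup_left⟩
  haveI : Fact (E ≤ Q) := ⟨hG.le⟩
  haveI : Fact (V ≤ Q) := ⟨le_sup_left.trans hG.le⟩
  have hxE : x ∈ E := (le_sup_right : IntermediateField.adjoin k {x} ≤ E)
    (IntermediateField.mem_adjoin_simple_self k x)
  haveI : CharZero E := charZero_of_injective_algebraMap (algebraMap k E).injective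
  obtain ⟨hfin, hgal⟩ := hG.finite hQ
  obtain ⟨y, hy⟩ := Field.exists_primitive_element E Q
  set D : Q := ∏ t ∈ (Finset.univ : Finset (Q ≃ₐ[E] Q)).erase 1, (y - t y) with hD
  have hy1 : ∀ t : Q ≃ₐ[E] Q, t y = y → t = 1 := by
    intro t ht
    ext z
    have hz : z ∈ IntermediateField.adjoin E {y} := by rw [hy]; exact IntermediateField.mem_top
    rw [AlgEquiv.one_apply]
    congr 1
    induction hz using IntermediateField.adjoin_induction with
    | mem a ha => rw [Set.mem_singleton_iff.1 ha, ht]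
    | algebraMap a => exact t.commutes a
    | add a b _ _ ha hb => rw [map_add, ha, hb]
    | inv a _ ha => rw [map_inv₀, ha]
    | mul a b _ _ ha hb => rw [map_mul, ha, hb]
  have hD0 : D ≠ 0 := by
    refine Finset.prod_ne_zero_iff.2 fun t ht => ?_
    intro h
    exact (Finset.mem_erase.1 ht).1 (hy1 t (sub_eq_zero.1 h).symm)
  -- the ring `V[x]`
  set xE : E := ⟨x, hxE⟩ with hxE'
  have hxt : Transcendental V xE := by
    rw [← transcendental_algebraMap_iff (algebraMap E Ω).injective]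
    exact hx
  letI : Algebra V[X] E := Pur.algP (P := V) xE
  haveI : IsFractionRing V[X] E := Pur.isFractionRing_algP hxt (mem_adjoin_of_sup hxE)
  letI : Algebra V[X] Q := ((algebraMap E Q).comp (algebraMap V[X] E)).toAlgebra
  haveI : IsScalarTower V[X] E Q := IsScalarTower.of_algebraMap_eq' rfl
  haveI : Algebra.IsAlgebraic V[X] Q :=
    (IsFractionRing.comap_isAlgebraic_iff (A := V[X]) (K := E) (C := Q)).2 inferInstance
  have halg : ∀ f : V[X], ((algebraMap V[X] Q f : Q) : Ω) = Polynomial.aeval x f := by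
    intro f
    have h1 : ((algebraMap V[X] Q f : Q) : Ω) = algebraMap E Ω (Polynomial.aeval xE f) := rfl
    rw [h1, ← Polynomial.aeval_algebraMap_apply]
    rfl
  obtain ⟨δ, hδ0, hδ⟩ := Algebra.IsAlgebraic.exists_integral_multiples V[X]
    (insert D⁻¹ (Finset.univ.image fun t : Q ≃ₐ[E] Q => t y))
  refine ⟨δ, hδ0, fun F M hFM hGM hM hEF hQM hMFQ u huV hux huδ => ?_⟩
  haveI : Fact (Q ≤ M) := ⟨hQM⟩
  obtain ⟨hfin', hgal'⟩ := hGM.finite hM
  have hxM : x ∈ M := hQM (hG.le hxE)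
  -- the valuation on `Q`
  set uQ : Valuation Q ℤᵐ⁰ := u.comap (algebraMap Q M) with huQ
  have huV1 : ∀ a : Q, (a : Ω) ∈ V → uQ a ≤ 1 := by
    intro a ha
    rcases eq_or_ne a 0 with rfl | h0
    · rw [map_zero]; exact zero_le
    · exact (huV a ha (fun h => h0 (Subtype.ext h)) (hQM a.2)).le
  have hle : ∀ f : V[X], uQ (algebraMap V[X] Q f) ≤ 1 := by
    intro f
    have h1 : algebraMap V[X] Q f = Polynomial.aeval (⟨x, hG.le hxE⟩ : Q) f := by
      apply Subtype.ext
      rw [halg]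
      exact (Polynomial.aeval_algebraMap_apply Ω (⟨x, hG.le hxE⟩ : Q) f).symm ▸ rfl
    rw [h1, Polynomial.aeval_eq_sum_range]
    refine Valuation.map_sum_le uQ fun i _ => ?_
    rw [Algebra.smul_def, map_mul, map_pow]
    exact mul_le_one' (huV1 _ (f.coeff i).2) (pow_le_one' (hux hxM) i)
  have hδ1 : uQ (algebraMap V[X] Q δ) = 1 := by
    have h1 : Polynomial.aeval x δ ∈ M := by rw [← halg]; exact hQM (algebraMap V[X] Q δ).2
    have h2 := huδ h1
    have h3 : algebraMap Q M (algebraMap V[X] Q δ) = ⟨_, h1⟩ := Subtype.ext (halg δ)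
    rw [← h3] at h2
    exact h2
  have hz : ∀ z : Q, IsIntegral V[X] (δ • z) → uQ z ≤ 1 := by
    intro z hz
    have h1 := Pur.le_one_of_isIntegral (w := uQ) hle hz
    rwa [Algebra.smul_def, map_mul, hδ1, one_mul] at h1
  have hty : ∀ t : Q ≃ₐ[E] Q, uQ (t y) ≤ 1 := fun t => hz _ (hδ _ (Finset.mem_insert_of_mem
    (Finset.mem_image_of_mem _ (Finset.mem_univ t))))
  have hDi : uQ D⁻¹ ≤ 1 := hz _ (hδ _ (Finset.mem_insert_self _ _))
  refine Br.unr_of_inertia fun g hg => ?_
  obtain ⟨τ, hτF, hτ⟩ := hGM.exists_ext hM g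
  obtain ⟨s, hs⟩ := exists_restrict hG (γ := τ) (hτF.mono hEF)
  have hs1 : s = 1 := by
    by_contra hne
    have h1 : uQ (y - s y) < 1 := by
      have h2 := hg (algebraMap Q M y) (by
        have := hty 1
        rwa [AlgEquiv.one_apply] at this)
      have h3 : g (algebraMap Q M y) = algebraMap Q M (s y) := by
        apply Subtype.ext
        rw [← hτ]
        exact (hs y).symm
      rw [h3, ← map_sub] at h2
      rw [← Valuation.map_sub_swap]
      exact h2
    have h2 : uQ D < 1 := by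
      rw [hD, ← Finset.mul_prod_erase _ _ (Finset.mem_erase.2 ⟨hne, Finset.mem_univ s⟩), map_mul,
        map_prod]
      refine (mul_le_of_le_one_right' (Finset.prod_le_one' fun t _ => ?_)).trans_lt h1
      refine (uQ.map_sub _ _).trans (max_le ?_ (hty t))
      have := hty 1
      rwa [AlgEquiv.one_apply] at this
    rw [map_inv₀, inv_le_one₀ (zero_lt_iff.2 ((Valuation.ne_zero_iff uQ).2 hD0))] at hDi
    exact absurd h2 (not_lt.2 hDi)
  have hτQ : Fixes τ Q := by
    intro z hz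
    have h1 := hs ⟨z, hz⟩
    rw [hs1, AlgEquiv.one_apply] at h1
    exact h1.symm
  have hτM : ∀ z ∈ F ⊔ Q, τ z = z := by
    intro z hz
    have h1 : F ⊔ Q ≤ IntermediateField.fixedField (Subgroup.zpowers τ) := by
      refine sup_le (fun a ha => ?_) fun a ha => ?_ <;>
      · rw [IntermediateField.mem_fixedField_iff]
        intro f hf
        obtain ⟨n, rfl⟩ := Subgroup.mem_zpowers_iff.1 hf
        have hτa : τ a = a := by first | exact hτF a ha | exact hτQ a ha
        have h2 : τ ∈ MulAction.stabilizer (Ω ≃ₐ[k] Ω) a := hτa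
        exact Subgroup.zpow_mem _ h2 n
    exact (IntermediateField.mem_fixedField_iff _ _).1 (h1 hz) τ (Subgroup.mem_zpowers τ)
  ext z
  rw [AlgEquiv.one_apply, ← hτ]
  exact hτM z (hMFQ z.2)

theorem exists_coord {V Q : IntermediateField k Ω} (_hV : Fin' V) (hQ : Fin' Q) {x : Ω}
    (hx : Transcendental V x) (hG : Gal (V ⊔ IntermediateField.adjoin k {x}) Q) :
    ∃ x' : Ω, IntermediateField.adjoin k {x'} = IntermediateField.adjoin k {x} ∧ ∃ S : Finset Ω,
      (∀ e ∈ S, IsAlgebraic V e) ∧ (∀ σ : Ω ≃ₐ[k] Ω, Fixes σ V → ∀ e ∈ S, σ e ∈ S) ∧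
      ∀ K : IntermediateField k Ω, Fin' K → V ≤ K → (∀ e ∈ S, e ∈ K) →
      ∀ (_hx' : x' ∈ K ⊔ Q) [Fact (K ⊔ IntermediateField.adjoin k {x'} ≤ K ⊔ Q)]
        (u : Valuation (K ⊔ Q : IntermediateField k Ω) ℤᵐ⁰),
        (∀ a : Ω, ∀ ha : a ∈ K, a ≠ 0 → u ⟨a, (le_sup_left : K ≤ K ⊔ Q) ha⟩ = 1) →
        (∀ e ∈ S, ∀ he : x' - e ∈ K ⊔ Q, ¬ u ⟨x' - e, he⟩ < 1) →
          Br.Unr (K ⊔ IntermediateField.adjoin k {x'} : IntermediateField k Ω) u := by
  classical
  obtain ⟨δ, hδ0, hδ⟩ := exists_delta hQ hx hG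
  -- the point `a`
  obtain ⟨a, ha⟩ : ∃ a : k, δ.eval (algebraMap k V a) ≠ 0 := by
    by_contra hcon
    push Not at hcon
    have h1 : Set.Infinite {z : V | δ.eval z = 0} := by
      refine Set.Infinite.mono (s := Set.range (algebraMap k V)) ?_
        (Set.infinite_range_of_injective (algebraMap k V).injective)
      rintro _ ⟨a, rfl⟩
      exact hcon a
    apply h1
    have h2 : {z : V | δ.eval z = 0} = {z : V | δ.IsRoot z} := rfl
    rw [h2]
    exact Polynomial.finite_setOfPred_isRoot hδ0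
  set α : Ω := algebraMap k Ω a with hα
  have hαF : ∀ F : IntermediateField k Ω, α ∈ F := fun F => F.algebraMap_mem a
  have hxα : x - α ≠ 0 := by
    intro h
    apply hx
    rw [sub_eq_zero.1 h]
    exact isAlgebraic_algebraMap (⟨α, hαF V⟩ : V)
  have hroot : ∀ e : Ω, Polynomial.aeval e δ = 0 → e - α ≠ 0 := by
    intro e he h
    apply ha
    rw [sub_eq_zero.1 h] at he
    have h1 : α = algebraMap V Ω (algebraMap k V a) := rfl
    rw [h1, Polynomial.aeval_algebraMap_apply] at he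
    have h2 := (algebraMap V Ω).injective (he.trans (map_zero _).symm)
    rwa [Polynomial.coe_aeval_eq_eval] at h2
  set R : Multiset Ω := (δ.map (algebraMap V Ω)).roots with hR
  have hδΩ : δ.map (algebraMap V Ω) ≠ 0 := Polynomial.map_ne_zero hδ0
  have hmemR : ∀ e : Ω, e ∈ R ↔ Polynomial.aeval e δ = 0 := by
    intro e
    rw [hR, Polynomial.mem_roots hδΩ, Polynomial.IsRoot, Polynomial.eval_map_algebraMap]
  refine ⟨(x - α)⁻¹, ?_, insert 0 (R.toFinset.image fun e => (e - α)⁻¹), ?_, ?_, ?_⟩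
  · refine le_antisymm ?_ ?_
    · rw [IntermediateField.adjoin_simple_le_iff]
      exact inv_mem (sub_mem (IntermediateField.mem_adjoin_simple_self k x) (hαF _))
    · rw [IntermediateField.adjoin_simple_le_iff]
      have h1 : x = ((x - α)⁻¹)⁻¹ + α := by rw [inv_inv]; ring
      have h2 : ((x - α)⁻¹)⁻¹ + α ∈ IntermediateField.adjoin k {(x - α)⁻¹} :=
        add_mem (inv_mem (IntermediateField.mem_adjoin_simple_self k (x - α)⁻¹)) (hαF _)
      rwa [← h1] at h2
  · intro e he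
    rcases Finset.mem_insert.1 he with rfl | he
    · exact isAlgebraic_zero
    obtain ⟨e', he', rfl⟩ := Finset.mem_image.1 he
    have h1 := (hmemR e').1 (Multiset.mem_toFinset.1 he')
    have h2 : IsAlgebraic V e' := ⟨δ, hδ0, h1⟩
    exact (h2.sub (isAlgebraic_algebraMap (⟨α, hαF V⟩ : V))).inv
  · intro σ hσ e he
    rcases Finset.mem_insert.1 he with rfl | he
    · rw [map_zero]; exact Finset.mem_insert_self _ _
    obtain ⟨e', he', rfl⟩ := Finset.mem_image.1 he
    have h1 := (hmemR e').1 (Multiset.mem_toFinset.1 he')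
    refine Finset.mem_insert_of_mem (Finset.mem_image.2 ⟨σ e', Multiset.mem_toFinset.2
      ((hmemR _).2 ?_), ?_⟩)
    · rw [hσ.aeval, h1, map_zero]
    · rw [map_inv₀, map_sub, hσ α (hαF V)]
  · intro K hK hVK hS hx' hFact u hu hnot
    have hx'K : (x - α)⁻¹ ∈ K ⊔ Q := hx'
    have hKM : K ≤ K ⊔ Q := le_sup_left
    have hadj : ∀ F : IntermediateField k Ω, (x - α)⁻¹ ∈ F → x ∈ F := by
      intro F h
      have h1 : x = ((x - α)⁻¹)⁻¹ + α := by rw [inv_inv]; ring
      rw [h1]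
      exact add_mem (inv_mem h) (hαF _)
    have hxM : x ∈ K ⊔ Q := hadj _ hx'
    have hx'F : (x - α)⁻¹ ∈ K ⊔ IntermediateField.adjoin k {(x - α)⁻¹} :=
      (le_sup_right : IntermediateField.adjoin k {(x - α)⁻¹} ≤ _)
        (IntermediateField.mem_adjoin_simple_self k _)
    have hEF : V ⊔ IntermediateField.adjoin k {x} ≤
        K ⊔ IntermediateField.adjoin k {(x - α)⁻¹} := by
      refine sup_le (hVK.trans le_sup_left) ?_
      rw [IntermediateField.adjoin_simple_le_iff]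
      exact hadj _ hx'F
    have hsup : Q ⊔ (K ⊔ IntermediateField.adjoin k {(x - α)⁻¹}) = K ⊔ Q := by
      refine le_antisymm (sup_le le_sup_right hFact.out) (sup_le ?_ le_sup_left)
      exact le_sup_left.trans le_sup_right
    have hGM : Gal (K ⊔ IntermediateField.adjoin k {(x - α)⁻¹}) (K ⊔ Q) := by
      rw [← hsup]
      exact hG.base _ hEF
    have hM : Fin' (K ⊔ Q : IntermediateField k Ω) := fin_sup hK hQ
    -- the valuation as a function on `Ω`
    have hmul : ∀ (b c : Ω) (hb : b ∈ K ⊔ Q) (hc : c ∈ K ⊔ Q),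
        u ⟨b * c, mul_mem hb hc⟩ = u ⟨b, hb⟩ * u ⟨c, hc⟩ :=
      fun b c hb hc => u.map_mul ⟨b, hb⟩ ⟨c, hc⟩
    have hinv : ∀ (b : Ω) (hb : b ∈ K ⊔ Q), u ⟨b⁻¹, inv_mem hb⟩ = (u ⟨b, hb⟩)⁻¹ :=
      fun b hb => map_inv₀ u (⟨b, hb⟩ : (K ⊔ Q : IntermediateField k Ω))
    have hadd : ∀ (b c : Ω) (hb : b ∈ K ⊔ Q) (hc : c ∈ K ⊔ Q),
        u ⟨b + c, add_mem hb hc⟩ ≤ max (u ⟨b, hb⟩) (u ⟨c, hc⟩) :=
      fun b c hb hc => u.map_add ⟨b, hb⟩ ⟨c, hc⟩
    have huK : ∀ b : Ω, ∀ hb : b ∈ K, ∀ h : b ∈ K ⊔ Q, u ⟨b, h⟩ ≤ 1 := by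
      intro b hb h
      rcases eq_or_ne b 0 with rfl | h0
      · exact (map_zero u).le.trans zero_le
      · exact (hu b hb h0).le
    have hX : 1 ≤ u ⟨(x - α)⁻¹, hx'⟩ := by
      have h1 : (x - α)⁻¹ - 0 ∈ K ⊔ Q := by rw [sub_zero]; exact hx'
      have h2 := hnot 0 (Finset.mem_insert_self _ _) h1
      rw [not_lt] at h2
      have h3 : (⟨(x - α)⁻¹ - 0, h1⟩ : (K ⊔ Q : IntermediateField k Ω)) = ⟨(x - α)⁻¹, hx'⟩ :=
        Subtype.ext (sub_zero _)
      rwa [h3] at h2
    have hxαM : x - α ∈ K ⊔ Q := sub_mem hxM (hαF _)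
    have hxα1 : u ⟨x - α, hxαM⟩ ≤ 1 := by
      have h1 := hinv _ hx'
      have h2 : (⟨((x - α)⁻¹)⁻¹, inv_mem hx'⟩ : (K ⊔ Q : IntermediateField k Ω)) =
          ⟨x - α, hxαM⟩ := Subtype.ext (inv_inv _)
      rw [h2] at h1
      rw [h1]
      exact inv_le_one_of_one_le₀ hX
    have hxle : ∀ h : x ∈ K ⊔ Q, u ⟨x, h⟩ ≤ 1 := by
      intro h
      have h1 := hadd (x - α) α hxαM (hαF _)
      have h2 : (⟨(x - α) + α, add_mem hxαM (hαF _)⟩ : (K ⊔ Q : IntermediateField k Ω)) =
          ⟨x, h⟩ := Subtype.ext (sub_add_cancel _ _)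
      rw [h2] at h1
      exact h1.trans (max_le hxα1 (huK α (hαF K) _))
    -- the multiplicative set of the units
    let T : Submonoid Ω :=
      { carrier := {z | ∃ h : z ∈ K ⊔ Q, u ⟨z, h⟩ = 1}
        one_mem' := ⟨one_mem _, map_one u⟩
        mul_mem' := fun {b c} hb hc => by
          obtain ⟨hb, hb1⟩ := hb
          obtain ⟨hc, hc1⟩ := hc
          exact ⟨mul_mem hb hc, by rw [hmul b c hb hc, hb1, hc1, one_mul]⟩ }
    have hT : ∀ e ∈ R, x - e ∈ T := by
      intro e he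
      have he0 := hroot e ((hmemR e).1 he)
      have heS : (e - α)⁻¹ ∈ insert 0 (R.toFinset.image fun e => (e - α)⁻¹) :=
        Finset.mem_insert_of_mem (Finset.mem_image.2 ⟨e, Multiset.mem_toFinset.2 he, rfl⟩)
      have heK : (e - α)⁻¹ ∈ K := hS _ heS
      have heαK : e - α ∈ K := by
        rw [← inv_inv (e - α)]; exact inv_mem heK
      have hexK : e ∈ K := by
        have h1 : e = (e - α) + α := by ring
        rw [h1]
        exact add_mem heαK (hαF _)
      have h1 : u ⟨e - α, hKM heαK⟩ = 1 := hu _ heαK he0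
      have hd : (x - α)⁻¹ - (e - α)⁻¹ ∈ K ⊔ Q := sub_mem hx' (hKM heK)
      have h2 := hnot _ heS hd
      rw [not_lt] at h2
      have hxe : x - e ∈ K ⊔ Q := sub_mem hxM (hKM hexK)
      refine ⟨hxe, ?_⟩
      -- `e - x = (x' - e') (x - α) (e - α)`
      have h3 : u ⟨x - e, hxe⟩ = u ⟨(x - α)⁻¹ - (e - α)⁻¹, hd⟩ * u ⟨x - α, hxαM⟩ := by
        have h4 : u ⟨(x - α)⁻¹ - (e - α)⁻¹, hd⟩ * u ⟨x - α, hxαM⟩ * u ⟨e - α, hKM heαK⟩ =
            u (-(⟨x - e, hxe⟩ : (K ⊔ Q : IntermediateField k Ω))) := by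
          rw [← hmul _ _ hd hxαM, ← hmul _ _ (mul_mem hd hxαM) (hKM heαK)]
          congr 1
          apply Subtype.ext
          show ((x - α)⁻¹ - (e - α)⁻¹) * (x - α) * (e - α) = -(x - e)
          field_simp
          ring
        rw [h1, mul_one, Valuation.map_neg] at h4
        exact h4.symm
      rcases eq_or_lt_of_le hX with h4 | h4
      · -- `u x' = 1`
        have h5 : u ⟨x - α, hxαM⟩ = 1 := by
          have h6 := hinv _ hxαM
          have h7 : (⟨(x - α)⁻¹, inv_mem hxαM⟩ : (K ⊔ Q : IntermediateField k Ω)) =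
            ⟨(x - α)⁻¹, hx'⟩ := rfl
          rw [h7, ← h4] at h6
          rw [← inv_inv (u _), ← h6, inv_one]
        refine le_antisymm ?_ ?_
        · have h6 := hadd x (-e) hxM (neg_mem (hKM hexK))
          have h7 : (⟨x + -e, add_mem hxM (neg_mem (hKM hexK))⟩ :
            (K ⊔ Q : IntermediateField k Ω)) = ⟨x - e, hxe⟩ := Subtype.ext (sub_eq_add_neg _ _).symm
          rw [h7] at h6
          exact h6.trans (max_le (hxle _) (huK _ (neg_mem hexK) _))
        · rw [h3, h5, mul_one]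
          exact h2
      · -- `u x' > 1`
        have h5 : u ⟨(x - α)⁻¹ - (e - α)⁻¹, hd⟩ = u ⟨(x - α)⁻¹, hx'⟩ := by
          have h6 : (⟨(x - α)⁻¹ - (e - α)⁻¹, hd⟩ : (K ⊔ Q : IntermediateField k Ω)) =
            ⟨(x - α)⁻¹, hx'⟩ - ⟨(e - α)⁻¹, hKM heK⟩ := rfl
          rw [h6]
          exact Valuation.map_sub_eq_of_lt_left _ ((huK _ heK _).trans_lt h4)
        have h6 := hinv _ hxαM
        have h7 : (⟨(x - α)⁻¹, inv_mem hxαM⟩ : (K ⊔ Q : IntermediateField k Ω)) =
            ⟨(x - α)⁻¹, hx'⟩ := rfl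
        rw [h3, h5, ← h7, h6, inv_mul_cancel₀]
        rw [Valuation.ne_zero_iff]
        exact fun h => hxα (congrArg Subtype.val h)
    refine hδ _ _ hGM hM hEF le_sup_right ?_ u (fun b hb hb0 h => hu b (hVK hb) hb0) hxle ?_
    · exact sup_le (le_sup_left.trans le_sup_left) le_sup_right
    · intro h
      have h1 : Polynomial.aeval x δ ∈ T := by
        have h2 : δ.map (algebraMap V Ω) = Polynomial.C (δ.map (algebraMap V Ω)).leadingCoeff *
            (R.map fun e => Polynomial.X - Polynomial.C e).prod :=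
          (IsAlgClosed.splits _).eq_prod_roots
        rw [← Polynomial.eval_map_algebraMap, h2, Polynomial.eval_mul, Polynomial.eval_C,
          Polynomial.eval_multiset_prod, Multiset.map_map]
        refine T.mul_mem ?_ (T.multiset_prod_mem _ fun z hz => ?_)
        · rw [Polynomial.leadingCoeff_map]
          have h3 : δ.leadingCoeff ≠ 0 := Polynomial.leadingCoeff_ne_zero.2 hδ0
          exact ⟨hKM (hVK δ.leadingCoeff.2), hu _ (hVK δ.leadingCoeff.2)
            fun h => h3 (Subtype.ext h)⟩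
        · obtain ⟨e, he, rfl⟩ := Multiset.mem_map.1 hz
          simpa using hT e he
      exact h1.2

end coord

end Pf72953.Pl
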