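import Mathlib
import Pool.Agent.Lib.Pf72953n.BrB
import Pool.Agent.Lib.Pf72953n.Coord

/-!
Galois covers of `ℙ¹`-bundles: a coordinate and the set of the branch points.
-/

set_option autoImplicit false
set_option linter.style.haveILetI false

open scoped WithZero Polynomial
open Pf72953 Pf72953.Mov Pf72953.Tow

namespace Pf72953.Pl

variable {k Ω : Type*} [Field k] [Field Ω] [Algebra k Ω]

/-- the place `x = e` of `P(x)` is ramified in `P·Q` -/
def RamAt (P Q : IntermediateField k Ω) (x e : Ω) : Prop :=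
  ∃ (he : x - e ∈ P ⊔ Q) (u : Valuation (P ⊔ Q : IntermediateField k Ω) ℤᵐ⁰),
    (∀ a : Ω, ∀ ha : a ∈ P, a ≠ 0 → u ⟨a, (le_sup_left : P ≤ P ⊔ Q) ha⟩ = 1) ∧
    u ⟨x - e, he⟩ < 1 ∧ ∀ _ : Fact (P ⊔ IntermediateField.adjoin k {x} ≤ P ⊔ Q),
      ¬ Br.Unr (P ⊔ IntermediateField.adjoin k {x} : IntermediateField k Ω) u

theorem x_mem_sup {P Q : IntermediateField k Ω} {x : Ω}
    (h : P ⊔ IntermediateField.adjoin k {x} ≤ P ⊔ Q) : x ∈ P ⊔ Q :=
  h ((le_sup_right : _ ≤ P ⊔ IntermediateField.adjoin k {x})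
    (IntermediateField.mem_adjoin_simple_self k x))

theorem stab_simple {σ : Ω ≃ₐ[k] Ω} {P : IntermediateField k Ω} {x : Ω} (h : Stab σ P)
    (hx : σ x = x) : Stab σ (P ⊔ IntermediateField.adjoin k {x}) := by
  refine h.sup (Fixes.stab ?_)
  rw [fixes_iff, IntermediateField.adjoin_le_iff]
  rintro _ rfl
  exact hx

theorem RamAt.map {P Q : IntermediateField k Ω} {x e : Ω} (h : RamAt P Q x e) {τ : Ω ≃ₐ[k] Ω}
    (s : (P ⊔ Q : IntermediateField k Ω) ≃+* (P ⊔ Q : IntermediateField k Ω))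
    (hs : ∀ z, (s z : Ω) = τ z) (hP : Stab τ.symm P) (hx : τ x = x) : RamAt P Q x (τ e) := by
  obtain ⟨he, u, hu, hlt, hram⟩ := h
  have hs' : ∀ z, (s.symm z : Ω) = τ.symm z := by
    intro z
    have h1 := hs (s.symm z)
    rw [RingEquiv.apply_symm_apply] at h1
    rw [h1, AlgEquiv.symm_apply_apply]
  have he' : x - τ e = s ⟨x - e, he⟩ := by
    rw [hs, map_sub, hx]
  refine ⟨he' ▸ (s ⟨x - e, he⟩).2, u.comap (s.symm : _ →+* _), ?_, ?_, ?_⟩
  · intro a ha ha0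
    have h1 : s.symm ⟨a, (le_sup_left : P ≤ P ⊔ Q) ha⟩ =
        ⟨τ.symm a, (le_sup_left : P ≤ P ⊔ Q) (hP a ha)⟩ := Subtype.ext (hs' _)
    change u (s.symm ⟨a, _⟩) = 1
    rw [h1]
    exact hu _ (hP a ha) (by simpa using ha0)
  · change u (s.symm ⟨x - τ e, _⟩) < 1
    have h1 : s.symm ⟨x - τ e, he' ▸ (s ⟨x - e, he⟩).2⟩ = ⟨x - e, he⟩ := by
      rw [RingEquiv.symm_apply_eq]
      exact Subtype.ext he'
    rw [h1]
    exact hlt
  · intro hF hunr
    refine hram hF fun z hz => ?_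
    obtain ⟨t, ht, hzt⟩ := hunr (s z) (by
      change u (s.symm (s z)) < 1
      rw [RingEquiv.symm_apply_apply]
      exact hz)
    have hst : Stab τ.symm (P ⊔ IntermediateField.adjoin k {x}) := stab_simple hP (by
      rw [AlgEquiv.symm_apply_eq]
      exact hx.symm)
    have h1 : s.symm (algebraMap _ _ t) =
        algebraMap (P ⊔ IntermediateField.adjoin k {x} : IntermediateField k Ω)
          (P ⊔ Q : IntermediateField k Ω) ⟨τ.symm t, hst t t.2⟩ := Subtype.ext (hs' _)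
    refine ⟨⟨τ.symm t, hst t t.2⟩, ?_, ?_⟩
    · rw [← h1]
      exact ht
    · rw [← h1]
      have h2 : u (s.symm (s z)) ≤ u (s.symm (algebraMap _ _ t)) := hzt
      rw [RingEquiv.symm_apply_apply] at h2
      exact h2

variable [CharZero k] [IsAlgClosed Ω]

theorem RamAt.not_unr {P Q : IntermediateField k Ω} {x e : Ω} (h : RamAt P Q x e)
    [Fact (P ⊔ IntermediateField.adjoin k {x} ≤ P ⊔ Q)] (hPQ : Fin' (P ⊔ Q : IntermediateField k Ω))
    (hG : Gal (P ⊔ IntermediateField.adjoin k {x}) (P ⊔ Q)) (hx : Transcendental P x) (heP : e ∈ P)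
    {u' : Valuation (P ⊔ Q : IntermediateField k Ω) ℤᵐ⁰}
    (hu' : ∀ a : Ω, ∀ ha : a ∈ P, a ≠ 0 → u' ⟨a, (le_sup_left : P ≤ P ⊔ Q) ha⟩ = 1)
    (he' : x - e ∈ P ⊔ Q) (hlt' : u' ⟨x - e, he'⟩ < 1) :
    ¬ Br.Unr (P ⊔ IntermediateField.adjoin k {x} : IntermediateField k Ω) u' := by
  obtain ⟨he, u, hu, hlt, hram⟩ := h
  intro hunr
  haveI : Fact (P ≤ P ⊔ Q) := ⟨le_sup_left⟩
  haveI := (hG.finite hPQ).1
  haveI := (hG.finite hPQ).2
  refine hram inferInstance (Br.unr_of_conj (fun z => ?_) hunr)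
  have hxm : x ∈ P ⊔ Q := x_mem_sup Fact.out
  exact place_simple (K := P) (L := P ⊔ Q) (w := u') (w' := u) (x := ⟨x, hxm⟩) (e := ⟨e, heP⟩) hx
    (fun a ha => hu' a a.2 (by simpa using ha)) hlt' (fun a ha => hu a a.2 (by simpa using ha)) hlt
    z.2

variable [IsAlgClosed k]

/-- the set of the branch points and the ramification over a finitely generated extension of `V` -/
theorem branch_aux {V Q : IntermediateField k Ω} (hV : Fin' V) (hQ : Fin' Q) {x : Ω}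
    (hx : Transcendental V x) (hG : Gal (V ⊔ IntermediateField.adjoin k {x}) Q) {Sb : Finset Ω}
    (hP : Gal V (V ⊔ IntermediateField.adjoin k (Sb : Set Ω)))
    {S : Finset Ω} (hSS : ∀ e, e ∈ S ↔ e ∈ Sb ∧
      RamAt (V ⊔ IntermediateField.adjoin k (Sb : Set Ω)) Q x e)
    (hun : ∀ K : IntermediateField k Ω, Fin' K → V ≤ K → (∀ e ∈ Sb, e ∈ K) →
      ∀ (_hx' : x ∈ K ⊔ Q) [Fact (K ⊔ IntermediateField.adjoin k {x} ≤ K ⊔ Q)]
        (u : Valuation (K ⊔ Q : IntermediateField k Ω) ℤᵐ⁰),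
        (∀ a : Ω, ∀ ha : a ∈ K, a ≠ 0 → u ⟨a, (le_sup_left : K ≤ K ⊔ Q) ha⟩ = 1) →
        (∀ e ∈ Sb, ∀ he : x - e ∈ K ⊔ Q, ¬ u ⟨x - e, he⟩ < 1) →
          Br.Unr (K ⊔ IntermediateField.adjoin k {x} : IntermediateField k Ω) u)
    {K : IntermediateField k Ω} (hK : Fin' K) (hVK : V ≤ K) (hSK : ∀ e ∈ S, e ∈ K)
    (hxK : Transcendental K x) [Fact (K ⊔ IntermediateField.adjoin k {x} ≤ K ⊔ Q)]
    (u : Valuation (K ⊔ Q : IntermediateField k Ω) ℤᵐ⁰)
    (hu : ∀ a : Ω, ∀ ha : a ∈ K, a ≠ 0 → u ⟨a, (le_sup_left : K ≤ K ⊔ Q) ha⟩ = 1) :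
    ((∀ e ∈ S, ∀ he : x - e ∈ K ⊔ Q, ¬ u ⟨x - e, he⟩ < 1) →
      Br.Unr (K ⊔ IntermediateField.adjoin k {x} : IntermediateField k Ω) u) ∧
    ∀ e ∈ S, ∀ he : x - e ∈ K ⊔ Q, u ⟨x - e, he⟩ < 1 →
      ¬ Br.Unr (K ⊔ IntermediateField.adjoin k {x} : IntermediateField k Ω) u := by
  classical
  have _h0 := ‹IsAlgClosed k›
  obtain ⟨P, hPdef⟩ : ∃ P, P = V ⊔ IntermediateField.adjoin k (Sb : Set Ω) := ⟨_, rfl⟩
  rw [← hPdef] at hP hSS
  have hPfin : Fin' P := by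
    rw [hPdef]
    refine fin_sup hV ?_
    rw [Fin', IntermediateField.essFiniteType_iff]
    exact IntermediateField.fg_adjoin_of_finite Sb.finite_toSet
  have hSbP : ∀ e ∈ Sb, e ∈ P := fun e he => by
    rw [hPdef]
    exact (le_sup_right : _ ≤ V ⊔ IntermediateField.adjoin k (Sb : Set Ω))
      (IntermediateField.subset_adjoin k _ he)
  have hVP : V ≤ P := hP.le
  -- the fields
  have hxQ : x ∈ Q := hG.le ((le_sup_right : _ ≤ V ⊔ IntermediateField.adjoin k {x})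
    (IntermediateField.mem_adjoin_simple_self k x))
  have hZQ : IntermediateField.adjoin k {x} ≤ Q := le_sup_right.trans hG.le
  haveI f1 : Fact (K ⊔ Q ≤ K ⊔ P ⊔ Q) := ⟨sup_le_sup_right le_sup_left _⟩
  haveI f2 : Fact (K ⊔ IntermediateField.adjoin k {x} ≤ K ⊔ P ⊔ Q) :=
    ⟨sup_le (le_sup_left.trans le_sup_left) (hZQ.trans le_sup_right)⟩
  haveI f3 : Fact (K ⊔ P ⊔ IntermediateField.adjoin k {x} ≤ K ⊔ P ⊔ Q) :=
    ⟨sup_le le_sup_left (hZQ.trans le_sup_right)⟩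
  haveI f5 : Fact (K ≤ K ⊔ Q) := ⟨le_sup_left⟩
  haveI f6 : Fact (K ⊔ P ≤ K ⊔ P ⊔ Q) := ⟨le_sup_left⟩
  haveI f7 : Fact (P ≤ P ⊔ Q) := ⟨le_sup_left⟩
  haveI f8 : Fact (P ⊔ Q ≤ K ⊔ P ⊔ Q) := ⟨sup_le_sup_right le_sup_right _⟩
  haveI f9 : Fact (P ⊔ IntermediateField.adjoin k {x} ≤ P ⊔ Q) := ⟨sup_le_sup_left hZQ _⟩
  haveI f10 : Fact (P ⊔ IntermediateField.adjoin k {x} ≤ K ⊔ P ⊔ Q) := ⟨f9.out.trans f8.out⟩
  haveI f11 : Fact (K ≤ K ⊔ P ⊔ Q) := ⟨f5.out.trans f1.out⟩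
  have hL : Fin' (K ⊔ Q : IntermediateField k Ω) := fin_sup hK hQ
  have hL' : Fin' (K ⊔ P ⊔ Q : IntermediateField k Ω) := fin_sup (fin_sup hK hPfin) hQ
  have hPQ : Fin' (P ⊔ Q : IntermediateField k Ω) := fin_sup hPfin hQ
  have hK'K : ∀ a ∈ K ⊔ P, IsAlgebraic K a := by
    refine alg_iff.2 (sup_le le_cl ?_)
    exact (alg_iff.1 hP.alg).trans (cl_mono hVK)
  have hxK' : Transcendental (K ⊔ P : IntermediateField k Ω) x :=
    transcendental_alg le_sup_left hK'K hxK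
  have hxP : Transcendental P x := transcendental_alg hVP hP.alg hx
  have hG1 : Gal (K ⊔ IntermediateField.adjoin k {x}) (K ⊔ Q) := gal_up hG hVK
  have hG2 : Gal (K ⊔ P ⊔ IntermediateField.adjoin k {x}) (K ⊔ P ⊔ Q) :=
    gal_up hG (hVK.trans le_sup_left)
  have hG3 : Gal (P ⊔ IntermediateField.adjoin k {x}) (P ⊔ Q) := gal_up hG hVP
  have hG4 : Gal (K ⊔ IntermediateField.adjoin k {x}) (K ⊔ P ⊔ Q) := gal_up' hG hVK hP
  -- the extension of `u`
  obtain ⟨u', hu'⟩ := exists_val (L := K ⊔ Q) (L' := K ⊔ P ⊔ Q) hL' (fun a ha => by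
    refine alg_iff.2 (sup_le (sup_le (le_sup_left.trans le_cl) ?_) (le_sup_right.trans le_cl)) a ha
    exact (alg_iff.1 hP.alg).trans (cl_mono (hVK.trans le_sup_left))) u
  have hval : ∀ a : Ω, ∀ (ha : a ∈ K ⊔ Q), u' ⟨a, f1.out ha⟩ < 1 ↔ u ⟨a, ha⟩ < 1 := by
    intro a ha
    have h1 : ∀ y : (K ⊔ Q : IntermediateField k Ω), _ := fun y =>
      Valuation.isEquiv_iff_val_lt_one.1 hu' (x := y)
    exact h1 ⟨a, ha⟩
  have htK : ∀ a : K, a ≠ 0 → u' (algebraMap K (K ⊔ P ⊔ Q : IntermediateField k Ω) a) = 1 := by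
    intro a ha
    have h1 : ∀ y : (K ⊔ Q : IntermediateField k Ω), _ := fun y =>
      Valuation.isEquiv_iff_val_eq_one.1 hu' (x := y)
    exact (h1 (algebraMap K (K ⊔ Q : IntermediateField k Ω) a)).2 (hu a a.2 (by simpa using ha))
  have ht : ∀ b : (K ⊔ P ⊔ Q : IntermediateField k Ω), (b : Ω) ∈ K ⊔ P → b ≠ 0 → u' b = 1 :=
    fun b hb hb0 => triv_alg htK (hK'K _ hb) hb0
  have htk : ∀ c : k, c ≠ 0 → u' (algebraMap k (K ⊔ P ⊔ Q : IntermediateField k Ω) c) = 1 := by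
    intro c hc
    refine ht _ ((K ⊔ P).algebraMap_mem c) ?_
    rw [Ne, map_eq_zero]
    exact hc
  -- from `P` to `K·P`
  have hup : Br.Unr (P ⊔ IntermediateField.adjoin k {x} : IntermediateField k Ω)
      (u'.comap (algebraMap (P ⊔ Q : IntermediateField k Ω) (K ⊔ P ⊔ Q : IntermediateField k Ω))) →
      Br.Unr (K ⊔ P ⊔ IntermediateField.adjoin k {x} : IntermediateField k Ω) u' := by
    intro h
    exact unr_up (Z := P ⊔ IntermediateField.adjoin k {x}) (L := P ⊔ Q)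
      (Z' := K ⊔ P ⊔ IntermediateField.adjoin k {x}) (L' := K ⊔ P ⊔ Q)
      (sup_le_sup_right le_sup_right _) hPQ hL' hG3 hG2
      (sup_le (le_sup_left.trans le_sup_left) (le_sup_right.trans le_sup_right)) htk h
  -- from `K·P` to `K`
  have hdown : Br.Unr (K ⊔ P ⊔ IntermediateField.adjoin k {x} : IntermediateField k Ω) u' →
      Br.Unr (K ⊔ IntermediateField.adjoin k {x} : IntermediateField k Ω) u := by
    intro h
    have h1 : Br.Unr (K ⊔ IntermediateField.adjoin k {x} : IntermediateField k Ω) u' := by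
      refine unr_const (Z' := K ⊔ P ⊔ IntermediateField.adjoin k {x}) (C := P) hL' hG4 hG2
        (le_sup_right.trans le_sup_left) (fun σ hσ => hP.stab σ (hσ.mono (hVK.trans le_sup_left)))
        (sup_le (sup_le (le_sup_left.trans le_sup_left) le_sup_right)
          (le_sup_right.trans le_sup_left)) htk
        (fun a ha ha0 => ht a ((le_sup_right : P ≤ K ⊔ P) ha) ha0) h
    exact unr_of_equiv hu' (unr_comap h1)
  -- the restriction of `u'` to `P·Q`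
  set u₁ : Valuation (P ⊔ Q : IntermediateField k Ω) ℤᵐ⁰ :=
    u'.comap (algebraMap (P ⊔ Q : IntermediateField k Ω) (K ⊔ P ⊔ Q : IntermediateField k Ω)) with hu₁
  have htP : ∀ a : Ω, ∀ ha : a ∈ P, a ≠ 0 → u₁ ⟨a, (le_sup_left : P ≤ P ⊔ Q) ha⟩ = 1 := by
    intro a ha ha0
    exact ht ⟨a, _⟩ ((le_sup_right : P ≤ K ⊔ P) ha) fun h => ha0 (congrArg Subtype.val h)
  have hxPQ : x ∈ P ⊔ Q := le_sup_right (a := P) hxQ
  refine ⟨fun hS => ?_, fun e he heL hlt hunr => ?_⟩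
  · refine hdown ?_
    by_cases hb : ∀ e ∈ Sb, ∀ he : x - e ∈ K ⊔ P ⊔ Q, ¬ u' ⟨x - e, he⟩ < 1
    · exact hun (K ⊔ P) (fin_sup hK hPfin) (hVK.trans le_sup_left)
        (fun e he => (le_sup_right : P ≤ K ⊔ P) (hSbP e he)) (le_sup_right (a := K ⊔ P) hxQ) u'
        (fun a ha ha0 => ht ⟨a, _⟩ ha fun h => ha0 (congrArg Subtype.val h)) hb
    · push Not at hb
      obtain ⟨e, he, heL', hlt⟩ := hb
      refine hup ?_
      by_contra hnun
      have heP := hSbP e he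
      have heS : e ∈ S := (hSS e).2 ⟨he, (P ⊔ Q).sub_mem hxPQ (le_sup_left (a := P) heP), u₁, htP,
        hlt, fun _ => hnun⟩
      have heK := hSK e heS
      have heL : x - e ∈ K ⊔ Q := (K ⊔ Q).sub_mem (le_sup_right (a := K) hxQ)
        (le_sup_left (a := K) heK)
      exact hS e heS heL ((hval _ heL).1 hlt)
  · have heP := hSbP e ((hSS e).1 he).1
    have heL'' : x - e ∈ P ⊔ Q := (P ⊔ Q).sub_mem hxPQ (le_sup_left (a := P) heP)
    have hlt' : u' ⟨x - e, f1.out heL⟩ < 1 := (hval _ heL).2 hlt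
    refine ((hSS e).1 he).2.not_unr hPQ hG3 hxP heP htP heL'' hlt' ?_
    -- `u'` is unramified over `(K·P)(x)`
    have h1 : Br.Unr (K ⊔ P ⊔ IntermediateField.adjoin k {x} : IntermediateField k Ω) u' :=
      unr_up (Z := K ⊔ IntermediateField.adjoin k {x}) (L := K ⊔ Q)
        (Z' := K ⊔ P ⊔ IntermediateField.adjoin k {x}) (L' := K ⊔ P ⊔ Q)
        (sup_le_sup_right le_sup_left _) hL hL' hG1 hG2
        (sup_le (le_sup_left.trans le_sup_left) (le_sup_right.trans le_sup_right)) htk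
        (unr_of_equiv hu'.symm hunr)
    intro z hz
    obtain ⟨t, ht1, hzt⟩ := h1 (algebraMap _ _ z) hz
    refine ⟨⟨x - e, ?_⟩, hlt', ?_⟩
    · exact (P ⊔ IntermediateField.adjoin k {x}).sub_mem (le_sup_right (a := P)
        (IntermediateField.mem_adjoin_simple_self k x)) (le_sup_left (a := P) heP)
    · refine hzt.trans ?_
      exact unif_simple (K := K ⊔ P) (L := K ⊔ P ⊔ Q) (x := ⟨x, (le_sup_right (a := K ⊔ P) hxQ)⟩)
        (e := ⟨e, (le_sup_right : P ≤ K ⊔ P) heP⟩) hxK'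
        (fun a ha => ht _ a.2 (by simpa using ha)) hlt' t.2 ht1

/-- a coordinate and the set of the branch points -/
theorem exists_branch {V Q : IntermediateField k Ω} (hV : Fin' V) (hQ : Fin' Q) {x : Ω}
    (hx : Transcendental V x) (hG : Gal (V ⊔ IntermediateField.adjoin k {x}) Q) :
    ∃ x' : Ω, IntermediateField.adjoin k {x'} = IntermediateField.adjoin k {x} ∧ ∃ S : Finset Ω,
      (∀ e ∈ S, IsAlgebraic V e) ∧ (∀ σ : Ω ≃ₐ[k] Ω, Fixes σ V → ∀ e ∈ S, σ e ∈ S) ∧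
      ∀ K : IntermediateField k Ω, Fin' K → V ≤ K → (∀ e ∈ S, e ∈ K) → Transcendental K x' →
      ∀ (_hx' : x' ∈ K ⊔ Q) [Fact (K ⊔ IntermediateField.adjoin k {x'} ≤ K ⊔ Q)]
        (u : Valuation (K ⊔ Q : IntermediateField k Ω) ℤᵐ⁰),
        (∀ a : Ω, ∀ ha : a ∈ K, a ≠ 0 → u ⟨a, (le_sup_left : K ≤ K ⊔ Q) ha⟩ = 1) →
        ((∀ e ∈ S, ∀ he : x' - e ∈ K ⊔ Q, ¬ u ⟨x' - e, he⟩ < 1) →
          Br.Unr (K ⊔ IntermediateField.adjoin k {x'} : IntermediateField k Ω) u) ∧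
        ∀ e ∈ S, ∀ he : x' - e ∈ K ⊔ Q, u ⟨x' - e, he⟩ < 1 →
          ¬ Br.Unr (K ⊔ IntermediateField.adjoin k {x'} : IntermediateField k Ω) u := by
  classical
  obtain ⟨x', hxx, Sb, hSb, hSσ, hun⟩ := exists_coord hV hQ hx hG
  rw [← hxx] at hG
  have hx'V : Transcendental V x' := by
    intro h
    have h1 : IntermediateField.adjoin k {x'} ≤ cl V := by
      rw [IntermediateField.adjoin_le_iff]
      rintro _ rfl
      exact mem_cl.2 h
    rw [hxx] at h1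
    exact hx (mem_cl.1 (h1 (IntermediateField.mem_adjoin_simple_self k x)))
  have hP : Gal V (V ⊔ IntermediateField.adjoin k (Sb : Set Ω)) := by
    refine ⟨le_sup_left, alg_iff.2 (sup_le le_cl ?_), fun σ hσ => hσ.stab.sup ?_⟩
    · rw [IntermediateField.adjoin_le_iff]
      exact fun e he => mem_cl.2 (hSb e he)
    · intro a ha
      have h1 : (IntermediateField.adjoin k (Sb : Set Ω)).map (σ : Ω →ₐ[k] Ω) ≤
          IntermediateField.adjoin k (Sb : Set Ω) := by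
        rw [IntermediateField.adjoin_map]
        refine IntermediateField.adjoin.mono k _ _ ?_
        rintro _ ⟨e, he, rfl⟩
        exact hSσ σ hσ e he
      exact h1 ⟨a, ha, rfl⟩
  refine ⟨x', hxx, Sb.filter (RamAt (V ⊔ IntermediateField.adjoin k (Sb : Set Ω)) Q x'),
    fun e he => hSb e (Finset.mem_filter.1 he).1, fun σ hσ e he => ?_,
    fun K hK hVK hSK hxK _ _ u hu => branch_aux hV hQ hx'V hG hP
      (fun e => Finset.mem_filter) hun hK hVK hSK hxK u hu⟩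
  obtain ⟨heb, hram⟩ := Finset.mem_filter.1 he
  refine Finset.mem_filter.2 ⟨hSσ σ hσ e heb, ?_⟩
  obtain ⟨τ, hτ, hτe⟩ := conj_over hV hx'V (hSb e heb) hσ
  rw [← hτe]
  have hG5 := gal_up' hG le_rfl hP
  rw [sup_eq_right.2 (le_sup_left : V ≤ V ⊔ IntermediateField.adjoin k (Sb : Set Ω))] at hG5
  haveI : Fact (V ⊔ IntermediateField.adjoin k {x'} ≤
    V ⊔ IntermediateField.adjoin k (Sb : Set Ω) ⊔ Q) := ⟨hG5.le⟩
  obtain ⟨s, hs⟩ := exists_restrict hG5 hτ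
  refine hram.map (τ := τ) s.toRingEquiv hs (hP.stab τ.symm fun a ha => ?_) (hτ x' ?_)
  · rw [AlgEquiv.symm_apply_eq]
    exact (hτ a ((le_sup_left : V ≤ V ⊔ IntermediateField.adjoin k {x'}) ha)).symm
  · exact (le_sup_right : _ ≤ V ⊔ IntermediateField.adjoin k {x'})
      (IntermediateField.mem_adjoin_simple_self k x')

end Pf72953.Pl
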