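import Mathlib
import Pool.Agent.Lib.Pf72953n.Defs

/-!
The forms `dlog ((x - a)/(x - b))` and the coordinates `xc`.
-/

set_option autoImplicit false

open scoped WithZero Polynomial
open Pf72953

namespace Pf72953.Pl

section eta
variable {P N : Type*} [Field P] [Field N] [Algebra P N]

section basic

variable {w : Valuation N ℤᵐ⁰} {x : N} {D : Derivation P N N} {ρ : ℤᵐ⁰}

/-- `D u = u * hh x a b` for `u = (x - a)/(x - b)` -/
lemma RelNorm.D_quot (h : RelNorm P w x D ρ) (a b : P) (hb : x ≠ algebraMap P N b) :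
    D ((x - algebraMap P N a) / (x - algebraMap P N b)) =
      (algebraMap P N a - algebraMap P N b) / (x - algebraMap P N b) ^ 2 := by
  have hb' : x - algebraMap P N b ≠ 0 := sub_ne_zero.2 hb
  rw [Derivation.leibniz_div, map_sub, map_sub, h.dx, D.map_algebraMap, D.map_algebraMap,
    sub_zero, smul_eq_mul, smul_eq_mul, smul_eq_mul, mul_one, mul_one]
  field_simp
  ring

/-- `hh x a b = D u / u`, `u = (x - a)/(x - b)` -/
theorem RelNorm.hh_le (h : RelNorm P w x D ρ) (a b : P) :
    ρ * w (hh x (algebraMap P N a) (algebraMap P N b)) ≤ 1 := by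
  by_cases ha : x = algebraMap P N a
  · unfold hh
    rw [← ha, sub_self, zero_mul, div_zero, map_zero, mul_zero]
    exact zero_le
  by_cases hb : x = algebraMap P N b
  · unfold hh
    rw [← hb, sub_self, mul_zero, div_zero, map_zero, mul_zero]
    exact zero_le
  have ha' : x - algebraMap P N a ≠ 0 := sub_ne_zero.2 ha
  have hb' : x - algebraMap P N b ≠ 0 := sub_ne_zero.2 hb
  set u := (x - algebraMap P N a) / (x - algebraMap P N b) with hu
  have hu0 : u ≠ 0 := div_ne_zero ha' hb'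
  have h1 : hh x (algebraMap P N a) (algebraMap P N b) = D u / u := by
    rw [hu, h.D_quot a b hb]
    unfold hh
    field_simp
  have h2 := h.le u
  have hwu : 0 < w u := zero_lt_iff.2 ((Valuation.ne_zero_iff w).2 hu0)
  rw [h1, map_div₀, ← mul_div_assoc, mul_comm, div_le_one₀ hwu]
  exact h2

end basic

variable [DecidableEq N] {w : Valuation N ℤᵐ⁰}
  {x : N} {D : Derivation P N N} {ρ : ℤᵐ⁰}

lemma RelNorm.hh_le' (h : RelNorm P w x D ρ) {S : Finset N}
    (hS : ∀ e ∈ S, ∃ e' : P, algebraMap P N e' = e) {a b : N} (ha : a ∈ S) (hb : b ∈ S) :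
    ρ * w (hh x a b) ≤ 1 := by
  obtain ⟨a', rfl⟩ := hS a ha
  obtain ⟨b', rfl⟩ := hS b hb
  exact h.hh_le a' b'

lemma GG_eq (S : Finset N) (m : N → N → ℕ) :
    ρ ^ MG S m * w (GG S m x) = ∏ p ∈ S.offDiag, (ρ * w (hh x p.1 p.2)) ^ m p.1 p.2 := by
  unfold MG GG
  rw [← Finset.prod_pow_eq_pow_sum, map_prod, ← Finset.prod_mul_distrib]
  exact Finset.prod_congr rfl fun p _ => by rw [map_pow, mul_pow]

theorem RelNorm.GG_le (h : RelNorm P w x D ρ) {S : Finset N}
    (hS : ∀ e ∈ S, ∃ e' : P, algebraMap P N e' = e) (m : N → N → ℕ) :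
    ρ ^ MG S m * w (GG S m x) ≤ 1 := by
  rw [GG_eq]
  refine Finset.prod_le_one' fun p hp => ?_
  have hp' := Finset.mem_offDiag.1 hp
  exact pow_le_one' (h.hh_le' hS hp'.1 hp'.2.1) _

lemma mem_quads {S : Finset N} {q : N × N × N × N} : q ∈ quads S ↔
    (q.1 ∈ S ∧ q.2.1 ∈ S ∧ q.2.2.1 ∈ S ∧ q.2.2.2 ∈ S) ∧ q.1 ≠ q.2.1 ∧ q.1 ≠ q.2.2.1 ∧
      q.1 ≠ q.2.2.2 ∧ q.2.1 ≠ q.2.2.1 ∧ q.2.1 ≠ q.2.2.2 ∧ q.2.2.1 ≠ q.2.2.2 := by
  unfold quads
  rw [Finset.mem_filter, Finset.mem_product, Finset.mem_product, Finset.mem_product]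

lemma RelNorm.tq_le (h : RelNorm P w x D ρ) {S : Finset N}
    (hS : ∀ e ∈ S, ∃ e' : P, algebraMap P N e' = e) (c : N) {i j l s : N} (hi : i ∈ S) (hj : j ∈ S)
    (hl : l ∈ S) (hs : s ∈ S) : ρ ^ 2 * w (tq x c i j l s) ≤ max 1 (w c) := by
  have e1 : ρ ^ 2 * w (c * (hh x s j * hh x l i)) ≤ max 1 (w c) := by
    have e2 : ρ ^ 2 * w (c * (hh x s j * hh x l i)) =
        w c * ((ρ * w (hh x s j)) * (ρ * w (hh x l i))) := by
      rw [map_mul, map_mul, pow_two]
      ac_rfl
    rw [e2]
    refine le_trans (mul_le_of_le_one_right zero_le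
      (mul_le_one' (h.hh_le' hS hs hj) (h.hh_le' hS hl hi))) (le_max_right _ _)
  have e3 : ρ ^ 2 * w (hh x s i * hh x l j) ≤ max 1 (w c) := by
    have e2 : ρ ^ 2 * w (hh x s i * hh x l j) =
        (ρ * w (hh x s i)) * (ρ * w (hh x l j)) := by
      rw [map_mul, pow_two]
      ac_rfl
    rw [e2]
    exact le_trans (mul_le_one' (h.hh_le' hS hs hi) (h.hh_le' hS hl hj)) (le_max_left _ _)
  unfold tq
  rcases le_total (w (c * (hh x s j * hh x l i))) (w (hh x s i * hh x l j)) with hc | hc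
  · refine le_trans (mul_le_mul_right ((w.map_sub _ _).trans (max_le hc le_rfl)) _) e3
  · refine le_trans (mul_le_mul_right ((w.map_sub _ _).trans (max_le le_rfl hc)) _) e1

lemma TT_eq (S : Finset N) (c : N) :
    ρ ^ MT S * w (TT S x c) =
      ∏ q ∈ quads S, (ρ ^ 2 * w (tq x c q.1 q.2.1 q.2.2.1 q.2.2.2)) := by
  unfold MT TT
  rw [Finset.prod_mul_distrib, Finset.prod_const, ← pow_mul, map_prod]

theorem RelNorm.TT_le (h : RelNorm P w x D ρ) {S : Finset N}
    (hS : ∀ e ∈ S, ∃ e' : P, algebraMap P N e' = e) (c : N) :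
    ρ ^ MT S * w (TT S x c) ≤ max 1 (w c) ^ MT S := by
  rw [TT_eq]
  have h1 : ∏ q ∈ quads S, (ρ ^ 2 * w (tq x c q.1 q.2.1 q.2.2.1 q.2.2.2)) ≤
      ∏ _q ∈ quads S, max 1 (w c) := by
    refine Finset.prod_le_prod' fun q hq => ?_
    have hq' := (mem_quads.1 hq).1
    exact h.tq_le hS c hq'.1 hq'.2.1 hq'.2.2.1 hq'.2.2.2
  refine h1.trans ?_
  rw [Finset.prod_const]
  unfold MT
  exact pow_le_pow_right₀ (le_max_left _ _) (by omega)

/-- a product of elements `≤ 1` which is not `< 1` -/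
lemma eq_one_of_prod {ι : Type*} {s : Finset ι} {f : ι → ℤᵐ⁰} (hf : ∀ i ∈ s, f i ≤ 1)
    (h : ¬ ∏ i ∈ s, f i < 1) {i : ι} (hi : i ∈ s) : f i = 1 := by
  classical
  refine le_antisymm (hf i hi) (not_lt.1 fun hlt => h ?_)
  rw [← Finset.mul_prod_erase s f hi]
  refine lt_of_le_of_lt (mul_le_of_le_one_right zero_le
    (Finset.prod_le_one' fun j hj => hf j (Finset.mem_of_mem_erase hj))) hlt

theorem exists_of_not_small {S : Finset N} {m : N → N → ℕ} (hm : ∀ a ∈ S, ∀ b ∈ S, 1 ≤ m a b)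
    (hS : ∀ e ∈ S, ∃ e' : P, algebraMap P N e' = e) {c : N}
    (h : ¬ Small P w x c (GG S m x) (TT S x c) (MG S m) (MT S)) :
    ∃ (D : Derivation P N N) (ρ : ℤᵐ⁰), RelNorm P w x D ρ ∧ w c = 1 ∧ w (c - 1) = 1 ∧
      (∀ a ∈ S, ∀ b ∈ S, a ≠ b → ρ * w (hh x a b) = 1) ∧
      ∀ q ∈ quads S, ρ ^ 2 * w (tq x c q.1 q.2.1 q.2.2.1 q.2.2.2) = 1 := by
  unfold Small at h
  push Not at h
  obtain ⟨D, ρ, hD, h1, h2, h3, h4⟩ := h
  refine ⟨D, ρ, hD, h3, h4, fun a ha b hb hab => ?_, fun q hq => ?_⟩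
  · rw [GG_eq] at h1
    have hmem : (a, b) ∈ S.offDiag := Finset.mem_offDiag.2 ⟨ha, hb, hab⟩
    have h5 := eq_one_of_prod (f := fun p : N × N => (ρ * w (hh x p.1 p.2)) ^ m p.1 p.2)
      (fun p hp => pow_le_one' (hD.hh_le' hS (Finset.mem_offDiag.1 hp).1
        (Finset.mem_offDiag.1 hp).2.1) _) (not_lt.2 h1) hmem
    refine le_antisymm (hD.hh_le' hS ha hb) (not_lt.1 fun hlt => ?_)
    have h6 : (ρ * w (hh x a b)) ^ m a b < 1 :=
      pow_lt_one₀ zero_le hlt (by have := hm a ha b hb; omega)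
    exact h6.ne h5
  · rw [TT_eq] at h2
    refine eq_one_of_prod (f := fun q : N × N × N × N =>
      ρ ^ 2 * w (tq x c q.1 q.2.1 q.2.2.1 q.2.2.2)) (fun q hq => ?_) (not_lt.2 h2) hq
    have hq' := (mem_quads.1 hq).1
    have h7 := hD.tq_le hS c hq'.1 hq'.2.1 hq'.2.2.1 hq'.2.2.2
    rwa [h3, max_self] at h7

/-- consequences for the coordinate `xc x i j l` -/
theorem xc_facts {S : Finset N} (hS : ∀ e ∈ S, ∃ e' : P, algebraMap P N e' = e) {c : N}
    (h : RelNorm P w x D ρ) (hh1 : ∀ a ∈ S, ∀ b ∈ S, a ≠ b → ρ * w (hh x a b) = 1)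
    (hq : ∀ q ∈ quads S, ρ ^ 2 * w (tq x c q.1 q.2.1 q.2.2.1 q.2.2.2) = 1) {i j l : N}
    (hi : i ∈ S) (hj : j ∈ S) (hl : l ∈ S) (hij : i ≠ j) (hil : i ≠ l) (hjl : j ≠ l) :
    w (xc x i j l) = 1 ∧ w (xc x i j l - 1) = 1 ∧ ρ * w (D (xc x i j l)) = 1 ∧
      ∀ s ∈ S, s ≠ i → s ≠ j → s ≠ l → w (xc s i j l) = 1 ∧ w (xc x i j l - xc s i j l) = 1 ∧
        w (c - xc s i j l) = 1 := by
  have hne : ∀ a ∈ S, ∀ b ∈ S, a ≠ b → hh x a b ≠ 0 := by
    intro a ha b hb hab h0
    have h1 := hh1 a ha b hb hab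
    rw [h0, map_zero, mul_zero] at h1
    exact zero_ne_one h1
  have hx : ∀ a ∈ S, ∀ b ∈ S, a ≠ b → x - a ≠ 0 := by
    intro a ha b hb hab h0
    apply hne a ha b hb hab
    unfold hh
    rw [h0, zero_mul, div_zero]
  have hρ : ρ ≠ 0 := by
    rintro rfl
    have h1 := hh1 i hi j hj hij
    rw [zero_mul] at h1
    exact zero_ne_one h1
  have hwh : ∀ a ∈ S, ∀ b ∈ S, a ≠ b → w (hh x a b) = ρ⁻¹ := fun a ha b hb hab =>
    eq_inv_of_mul_eq_one_right (hh1 a ha b hb hab)
  have hxi := hx i hi j hj hij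
  have hxj := hx j hj i hi hij.symm
  have hxl := hx l hl i hi hil.symm
  have hli : l - i ≠ 0 := sub_ne_zero.2 hil.symm
  have hlj : l - j ≠ 0 := sub_ne_zero.2 hjl.symm
  have hij' : i - j ≠ 0 := sub_ne_zero.2 hij
  have hρi : ρ⁻¹ ≠ 0 := inv_ne_zero hρ
  have e1 : xc x i j l = hh x l j / hh x l i := by
    unfold xc hh
    field_simp
  have w1 : w (xc x i j l) = 1 := by
    rw [e1, map_div₀, hwh l hl j hj hjl.symm, hwh l hl i hi hil.symm, div_self hρi]
  have e2 : xc x i j l - 1 = -(hh x i j / hh x i l) := by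
    have hil' : i - l ≠ 0 := sub_ne_zero.2 hil
    unfold xc hh
    rw [div_div_eq_mul_div]
    field_simp
    ring
  have w2 : w (xc x i j l - 1) = 1 := by
    rw [e2, Valuation.map_neg, map_div₀, hwh i hi j hj hij, hwh i hi l hl hil, div_self hρi]
  have e3 : D (xc x i j l) = xc x i j l * hh x i j := by
    obtain ⟨i', rfl⟩ := hS i hi
    obtain ⟨j', rfl⟩ := hS j hj
    obtain ⟨l', rfl⟩ := hS l hl
    have e4 : xc x (algebraMap P N i') (algebraMap P N j') (algebraMap P N l') =
        algebraMap P N ((l' - j') / (l' - i')) *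
          ((x - algebraMap P N i') / (x - algebraMap P N j')) := by
      unfold xc
      rw [map_div₀, map_sub, map_sub]
      field_simp
    rw [e4, D.leibniz, D.map_algebraMap, smul_zero, add_zero, smul_eq_mul,
      h.D_quot i' j' (sub_ne_zero.1 hxj)]
    unfold hh
    field_simp
  have w3 : ρ * w (D (xc x i j l)) = 1 := by
    rw [e3, map_mul, w1, one_mul]
    exact hh1 i hi j hj hij
  refine ⟨w1, w2, w3, fun s hs hsi hsj hsl => ?_⟩
  have hxs := hx s hs i hi hsi
  have hsi' : s - i ≠ 0 := sub_ne_zero.2 hsi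
  have hsj' : s - j ≠ 0 := sub_ne_zero.2 hsj
  have e5 : xc s i j l = (hh x s i * hh x l j) / (hh x s j * hh x l i) := by
    unfold xc hh
    field_simp
  have w5 : w (xc s i j l) = 1 := by
    rw [e5, map_div₀, map_mul, map_mul, hwh s hs i hi hsi, hwh l hl j hj hjl.symm,
      hwh s hs j hj hsj, hwh l hl i hi hil.symm]
    exact div_self (mul_ne_zero hρi hρi)
  have e6 : xc x i j l - xc s i j l = (hh x i j * hh x l j) / (hh x l i * hh x s j) := by
    unfold xc hh
    field_simp
    ring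
  have w6 : w (xc x i j l - xc s i j l) = 1 := by
    rw [e6, map_div₀, map_mul, map_mul, hwh i hi j hj hij, hwh l hl j hj hjl.symm,
      hwh l hl i hi hil.symm, hwh s hs j hj hsj]
    exact div_self (mul_ne_zero hρi hρi)
  have e7 : tq x c i j l s = (c - xc s i j l) * (hh x s j * hh x l i) := by
    have h0 : hh x s j * hh x l i ≠ 0 :=
      mul_ne_zero (hne s hs j hj hsj) (hne l hl i hi hil.symm)
    rw [e5, sub_mul, div_mul_cancel₀ _ h0]
    rfl
  have w7 : w (c - xc s i j l) = 1 := by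
    have h1 := hq (i, j, l, s) (mem_quads.2 ⟨⟨hi, hj, hl, hs⟩, hij, hil, hsi.symm, hjl, hsj.symm,
      hsl.symm⟩)
    simp only at h1
    rw [e7, map_mul, map_mul, hwh s hs j hj hsj, hwh l hl i hi hil.symm] at h1
    have h2 : ρ ^ 2 * (w (c - xc s i j l) * (ρ⁻¹ * ρ⁻¹)) = w (c - xc s i j l) := by
      field_simp
    rwa [h2] at h1
  exact ⟨w5, w6, w7⟩

omit [DecidableEq N] in
/-- `w` restricts to the Gauss valuation of `P(y)` -/
theorem gauss_of_norm (h : RelNorm P w x D ρ) (hn : ∀ n : ℕ, n ≠ 0 → w (n : N) = 1) {y : N}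
    (hy : w y ≤ 1) (hDy : ρ * w (D y) = 1) (p : P[X])
    (hp : ∀ i, w (algebraMap P N (p.coeff i)) ≤ 1) (hp1 : ∃ i, w (algebraMap P N (p.coeff i)) = 1) :
    w (Polynomial.aeval y p) = 1 := by
  have key : ∀ (n : ℕ) (p : P[X]), p.natDegree ≤ n →
      (∀ i, w (algebraMap P N (p.coeff i)) ≤ 1) → (∃ i, w (algebraMap P N (p.coeff i)) = 1) →
      w (Polynomial.aeval y p) = 1 := by
    intro n
    induction n with
    | zero =>
      intro p hdeg hp hp1
      obtain ⟨i, hi⟩ := hp1
      have hp0 : p = Polynomial.C (p.coeff 0) := Polynomial.eq_C_of_natDegree_le_zero hdeg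
      have hi0 : i = 0 := by
        by_contra hne
        rw [hp0, Polynomial.coeff_C_of_ne_zero hne, map_zero, map_zero] at hi
        exact zero_ne_one hi
      rw [hp0, Polynomial.aeval_C, ← hi0]
      exact hi
    | succ n ih =>
      intro p hdeg hp hp1
      have hle : w (Polynomial.aeval y p) ≤ 1 := by
        rw [Polynomial.aeval_eq_sum_range]
        refine w.map_sum_le fun i _ => ?_
        rw [Algebra.smul_def, map_mul, map_pow]
        exact mul_le_one' (hp i) (pow_le_one' hy i)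
      by_cases hex : ∃ i, w (algebraMap P N (p.coeff (i + 1))) = 1
      · obtain ⟨i, hi⟩ := hex
        have h1 : w (Polynomial.aeval y (Polynomial.derivative p)) = 1 := by
          refine ih _ ?_ ?_ ⟨i, ?_⟩
          · have := Polynomial.natDegree_derivative_le p
            omega
          · intro j
            rw [Polynomial.coeff_derivative, map_mul, map_mul]
            refine mul_le_one' (hp _) ?_
            have h2 := hn (j + 1) (Nat.succ_ne_zero j)
            rw [map_add, map_natCast, map_one]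
            push_cast at h2
            exact h2.le
          · rw [Polynomial.coeff_derivative, map_mul, map_mul, hi, one_mul]
            have h2 := hn (i + 1) (Nat.succ_ne_zero i)
            rw [map_add, map_natCast, map_one]
            push_cast at h2
            exact h2
        have h3 : D (Polynomial.aeval y p) = Polynomial.aeval y (Polynomial.derivative p) * D y := by
          have := D.map_aeval p y
          rw [this, smul_eq_mul]
        have h4 := h.le (Polynomial.aeval y p)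
        rw [h3, map_mul, h1, one_mul, mul_comm, hDy] at h4
        exact le_antisymm hle h4
      · push Not at hex
        obtain ⟨i, hi⟩ := hp1
        have hi0 : i = 0 := by
          rcases Nat.eq_zero_or_pos i with h0 | h0
          · exact h0
          · exact absurd (by rw [Nat.sub_add_cancel h0]; exact hi) (hex (i - 1))
        rw [hi0] at hi
        have hdec : Polynomial.aeval y p = algebraMap P N (p.coeff 0) +
            y * Polynomial.aeval y p.divX := by
          conv_lhs => rw [← Polynomial.divX_mul_X_add p]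
          rw [map_add, map_mul, Polynomial.aeval_X, Polynomial.aeval_C]
          ring
        have hlt : w (y * Polynomial.aeval y p.divX) < 1 := by
          rw [map_mul]
          refine lt_of_le_of_lt (mul_le_of_le_one_left zero_le hy) ?_
          rw [Polynomial.aeval_eq_sum_range]
          refine Valuation.map_sum_lt w one_ne_zero fun i _ => ?_
          rw [Algebra.smul_def, map_mul, map_pow, Polynomial.coeff_divX]
          exact lt_of_le_of_lt (mul_le_of_le_one_right zero_le (pow_le_one' hy i))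
            (lt_of_le_of_ne (hp _) (hex i))
        rw [hdec]
        exact (w.map_add_eq_of_lt_left (by rw [hi]; exact hlt)).trans hi
  exact key p.natDegree p le_rfl hp hp1

/-- an inertial automorphism fixes `S` -/
theorem fixS_of_inertia {k : Type*} [Field k] [CharZero k] [IsAlgClosed k] [Algebra k N] {S : Finset N}
    (hS : ∀ e ∈ S, ∃ e' : P, algebraMap P N e' = e) (h : RelNorm P w x D ρ)
    (hh1 : ∀ a ∈ S, ∀ b ∈ S, a ≠ b → ρ * w (hh x a b) = 1)
    (hk : ∀ a : k, ∃ a' : P, algebraMap P N a' = algebraMap k N a)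
    (hk1 : ∀ a : k, a ≠ 0 → w (algebraMap k N a) = 1) (σ : N ≃+* N) (hσk : ∀ a : k, σ (algebraMap k N a) = algebraMap k N a)
    {n : ℕ} (hn : 1 ≤ n) (hσn : ∀ z, (σ ^ n) z = z) (hσx : σ x = x) (hσS : ∀ e ∈ S, σ e ∈ S)
    (hσ : ∀ z, w z ≤ 1 → w (σ z - z) < 1) : ∀ e ∈ S, σ e = e := by
  intro e he
  by_contra hne
  have hσe := hσS e he
  have h1 := hh1 (σ e) hσe e he hne
  have hxe : x - e ≠ 0 := by
    intro h0
    unfold hh at h1
    rw [h0, mul_zero, div_zero, map_zero, mul_zero] at h1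
    exact zero_ne_one h1
  have hxσ : x - σ e ≠ 0 := by
    intro h0
    unfold hh at h1
    rw [h0, zero_mul, div_zero, map_zero, mul_zero] at h1
    exact zero_ne_one h1
  -- `σ` preserves `w`
  have hle : ∀ z, w z ≤ 1 → w (σ z) ≤ 1 := by
    intro z hz
    have h2 : σ z = (σ z - z) + z := by ring
    rw [h2]
    exact (w.map_add _ _).trans (max_le (hσ z hz).le hz)
  have hle' : ∀ y z, w y ≤ w z → w (σ y) ≤ w (σ z) := by
    intro y z hyz
    rcases eq_or_ne z 0 with rfl | hz
    · rw [map_zero] at hyz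
      have : y = 0 := (Valuation.zero_iff w).1 (le_antisymm hyz zero_le)
      rw [this]
    · have hwz : 0 < w z := zero_lt_iff.2 ((Valuation.ne_zero_iff w).2 hz)
      have hσz : 0 < w (σ z) := zero_lt_iff.2 ((Valuation.ne_zero_iff w).2 ((map_ne_zero σ).2 hz))
      have h2 := hle (y / z) (by rw [map_div₀, div_le_one₀ hwz]; exact hyz)
      rwa [map_div₀, map_div₀, div_le_one₀ hσz] at h2
  have hpow : ∀ (m : ℕ) (z : N), (σ ^ (m + 1)) z = σ ((σ ^ m) z) := by
    intro m z
    rw [pow_succ']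
    rfl
  have heq : ∀ z, w (σ z) = w z := by
    intro z
    obtain ⟨m, rfl⟩ : ∃ m, n = m + 1 := ⟨n - 1, by omega⟩
    rcases le_total (w (σ z)) (w z) with hc | hc
    · refine le_antisymm hc ?_
      have h2 : ∀ m : ℕ, w ((σ ^ (m + 1)) z) ≤ w (σ z) := by
        intro m
        induction m with
        | zero => rw [zero_add, pow_one]
        | succ m ih =>
          rw [hpow]
          exact hle' _ _ (ih.trans hc)
      have h3 := h2 m
      rwa [hσn] at h3
    · refine le_antisymm ?_ hc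
      have h2 : ∀ m : ℕ, w (σ z) ≤ w ((σ ^ (m + 1)) z) := by
        intro m
        induction m with
        | zero => rw [zero_add, pow_one]
        | succ m ih =>
          rw [hpow]
          exact hle' _ _ (hc.trans ih)
      have h3 := h2 m
      rwa [hσn] at h3
  -- `v = σ g / g`
  set v := (x - σ e) / (x - e) with hv
  have hvσ : v = σ (x - e) / (x - e) := by rw [hv, map_sub, hσx]
  have hwv : w v = 1 := by
    rw [hvσ, map_div₀, heq, div_self ((Valuation.ne_zero_iff w).2 hxe)]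
  have hprod : ∀ m : ℕ, ∏ i ∈ Finset.range m, (σ ^ i) v = (σ ^ m) (x - e) / (x - e) := by
    intro m
    induction m with
    | zero =>
      rw [Finset.range_zero, Finset.prod_empty, pow_zero]
      exact (div_self hxe).symm
    | succ m ih =>
      rw [Finset.prod_range_succ, ih]
      have h2 : (σ ^ m) v = (σ ^ (m + 1)) (x - e) / (σ ^ m) (x - e) := by
        rw [hvσ, map_div₀]
        congr 1
      rw [h2]
      have h3 : (σ ^ m) (x - e) ≠ 0 := (map_ne_zero (σ ^ m)).2 hxe
      field_simp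
  have hprod1 : ∏ i ∈ Finset.range n, (σ ^ i) v = 1 := by
    rw [hprod, hσn, div_self hxe]
  have hcong : ∀ i : ℕ, w ((σ ^ i) v) = 1 ∧ w ((σ ^ i) v - v) < 1 := by
    intro i
    induction i with
    | zero => exact ⟨hwv, by rw [pow_zero]; simp⟩
    | succ i ih =>
      rw [hpow]
      refine ⟨by rw [heq]; exact ih.1, ?_⟩
      have h2 : σ ((σ ^ i) v) - v = (σ ((σ ^ i) v) - (σ ^ i) v) + ((σ ^ i) v - v) := by ring
      rw [h2]
      exact lt_of_le_of_lt (w.map_add _ _) (max_lt (hσ _ ih.1.le) ih.2)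
  have hvn : ∀ m : ℕ, w (∏ i ∈ Finset.range m, (σ ^ i) v - v ^ m) < 1 := by
    intro m
    induction m with
    | zero => simp
    | succ m ih =>
      rw [Finset.prod_range_succ, pow_succ]
      have h2 : (∏ i ∈ Finset.range m, (σ ^ i) v) * (σ ^ m) v - v ^ m * v =
          (∏ i ∈ Finset.range m, (σ ^ i) v - v ^ m) * (σ ^ m) v +
            v ^ m * ((σ ^ m) v - v) := by ring
      rw [h2]
      refine lt_of_le_of_lt (w.map_add _ _) (max_lt ?_ ?_)
      · rw [map_mul, (hcong m).1, mul_one]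
        exact ih
      · rw [map_mul, map_pow, hwv, one_pow, one_mul]
        exact (hcong m).2
  have hvn1 : w (v ^ n - 1) < 1 := by
    have h2 := hvn n
    rw [hprod1, ← Valuation.map_neg, neg_sub] at h2
    exact h2
  -- a root of unity
  obtain ⟨ζ, hζ⟩ : ∃ ζ : k, w (v - algebraMap k N ζ) < 1 := by
    by_contra hcon
    push Not at hcon
    have hmon : (Polynomial.X ^ n - 1 : k[X]).Monic :=
      Polynomial.monic_X_pow_sub_C 1 (by omega)
    have hsp : (Polynomial.X ^ n - 1 : k[X]).Splits := IsAlgClosed.splits _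
    have h2 := hsp.eq_prod_roots_of_monic hmon
    have h3 : Polynomial.aeval v (Polynomial.X ^ n - 1 : k[X]) = v ^ n - 1 := by simp
    have h4 : Polynomial.aeval v (Polynomial.X ^ n - 1 : k[X]) =
        ((Polynomial.X ^ n - 1 : k[X]).roots.map fun ζ => v - algebraMap k N ζ).prod := by
      conv_lhs => rw [h2]
      rw [map_multiset_prod, Multiset.map_map]
      congr 1
      refine Multiset.map_congr rfl fun ζ _ => ?_
      simp
    have h5 : ∀ s : Multiset k, 1 ≤ w ((s.map fun ζ => v - algebraMap k N ζ).prod) := by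
      intro s
      induction s using Multiset.induction_on with
      | empty => simp
      | cons a s ih =>
        rw [Multiset.map_cons, Multiset.prod_cons, map_mul]
        exact one_le_mul (hcon a) ih
    rw [← h3, h4] at hvn1
    exact absurd hvn1 (not_lt.2 (h5 _))
  -- contradiction
  obtain ⟨ζ', hζ'⟩ := hk ζ
  obtain ⟨e', he'⟩ := hS e he
  obtain ⟨f', hf'⟩ := hS (σ e) hσe
  have hDv : D v = v * hh x (σ e) e := by
    have h7 := h.D_quot f' e' (by rw [he']; exact sub_ne_zero.1 hxe)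
    rw [he', hf'] at h7
    rw [hv, h7]
    unfold hh
    field_simp
  have h6 := h.le (v - algebraMap k N ζ)
  rw [← hζ', map_sub, D.map_algebraMap, sub_zero, hDv, map_mul, hwv, one_mul, mul_comm, h1, hζ'] at h6
  exact absurd hζ (not_lt.2 h6)

end eta

end Pf72953.Pl
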