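import Mathlib
import Pool.Agent.Lib.Pf72953y.Spec

/-!
The step over the projective line: a ramified prime of the translate passes to a horizontal point.
-/

set_option autoImplicit false
set_option linter.style.haveILetI false

open scoped WithZero Polynomial
open Pf72953

namespace Pf72953.Pl

section Z
variable {k P L N : Type*} [Field k] [CharZero k] [IsAlgClosed k] [Field P] [Field L] [Field N]
  [Algebra k P] [Algebra P L] [Algebra P N] [Algebra k N] [IsScalarTower k P N]

omit [CharZero k] [IsAlgClosed k] [Field k] [Algebra k P] [Algebra k N] [IsScalarTower k P N] in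
/-- the automorphism of `L` which corresponds to `σ` -/
theorem exists_restrict {x : L} [FiniteDimensional (IntermediateField.adjoin P {x}) L]
    (i θ : L →ₐ[P] N) (σ : N ≃+* N) (hσi : ∀ z, σ (i z) = i z) (hσc : σ (θ x) = θ x)
    (hσθ : ∀ z, ∃ z', σ (θ z) = θ z') :
    ∃ g : L ≃ₐ[IntermediateField.adjoin P {x}] L, ∀ z, θ (g z) = σ (θ z) := by
  have hinj : Function.Injective θ := θ.toRingHom.injective
  choose g₀ hg₀ using hσθ
  let G : L →ₐ[P] L :=
    { toFun := g₀
      map_one' := hinj (by rw [← hg₀, map_one, map_one])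
      map_mul' := fun a b => hinj (by rw [← hg₀, map_mul, map_mul, map_mul, hg₀, hg₀])
      map_zero' := hinj (by rw [← hg₀, map_zero, map_zero])
      map_add' := fun a b => hinj (by rw [← hg₀, map_add, map_add, map_add, hg₀, hg₀])
      commutes' := fun a => hinj (by
        rw [← hg₀, AlgHom.commutes, ← AlgHom.commutes i, hσi]) }
  have hG : ∀ z, θ (G z) = σ (θ z) := fun z => (hg₀ z).symm
  have hfix : ∀ z ∈ IntermediateField.adjoin P {x}, G z = z := by
    intro z hz
    induction hz using IntermediateField.adjoin_induction with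
    | mem y hy =>
      rw [Set.mem_singleton_iff.1 hy]
      exact hinj (by rw [hG, hσc])
    | algebraMap a => exact G.commutes a
    | add a b _ _ ha hb => rw [map_add, ha, hb]
    | inv a _ ha => rw [map_inv₀, ha]
    | mul a b _ _ ha hb => rw [map_mul, ha, hb]
  let G' : L →ₐ[IntermediateField.adjoin P {x}] L :=
    { G.toRingHom with commutes' := fun a => hfix a a.2 }
  refine ⟨AlgEquiv.ofBijective G' (Algebra.IsAlgebraic.algHom_bijective G'), fun z => ?_⟩
  exact hG z

theorem claimZ {x : L} (hx : Transcendental P x) [FiniteDimensional (IntermediateField.adjoin P {x}) L]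
    [IsGalois (IntermediateField.adjoin P {x}) L] (i θ : L →ₐ[P] N) {w : Valuation N ℤᵐ⁰}
    (hk : ∀ a : k, a ≠ 0 → w (algebraMap k N a) = 1)
    (hG : ∀ p : P[X], (∀ n, w (algebraMap P N (p.coeff n)) ≤ 1) →
      (∃ n, w (algebraMap P N (p.coeff n)) = 1) → w (i (Polynomial.aeval x p)) = 1)
    (hc : w (θ x) ≤ 1)
    (hU : ∀ u : Valuation L ℤᵐ⁰, (∀ a : P, a ≠ 0 → u (algebraMap P L a) = 1) → u x ≤ 1 →
      (∀ p : P[X], (∀ n, w (algebraMap P N (p.coeff n)) ≤ 1) → u (Polynomial.aeval x p) < 1 →
        w (θ (Polynomial.aeval x p)) < 1) →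
      ∀ g : L ≃ₐ[IntermediateField.adjoin P {x}] L, (∀ z, u z ≤ 1 → u (g z - z) < 1) → g = 1)
    (σ : N ≃+* N) (hσi : ∀ z, σ (i z) = i z) (hσc : σ (θ x) = θ x) (hσθ : ∀ z, ∃ z', σ (θ z) = θ z')
    (hσ : ∀ z, w z ≤ 1 → w (σ z - z) < 1) (z : L) : σ (θ z) = θ z := by
  obtain ⟨g, hg⟩ := exists_restrict (x := x) i θ σ hσi hσc hσθ
  have hinj : Function.Injective i := i.toRingHom.injective
  set x' : IntermediateField.adjoin P {x} := IntermediateField.AdjoinSimple.gen P x with hx'
  have hxx : algebraMap (IntermediateField.adjoin P {x}) L x' = x :=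
    IntermediateField.AdjoinSimple.algebraMap_gen P x
  have hae : ∀ p : P[X], algebraMap (IntermediateField.adjoin P {x}) L (Polynomial.aeval x' p) =
      Polynomial.aeval x p := by
    intro p
    rw [← Polynomial.aeval_algebraMap_apply, hxx]
  have hxt : Transcendental P x' := by
    rw [← transcendental_algebraMap_iff
      (algebraMap (IntermediateField.adjoin P {x}) L).injective, hxx]
    exact hx
  have hK : ∀ z : IntermediateField.adjoin P {x}, z ∈ IntermediateField.adjoin P {x'} := by
    intro z
    obtain ⟨r, s, hrs⟩ := (IntermediateField.mem_adjoin_simple_iff P (z : L)).1 z.2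
    refine (IntermediateField.mem_adjoin_simple_iff P z).2 ⟨r, s, ?_⟩
    apply (algebraMap (IntermediateField.adjoin P {x}) L).injective
    rw [map_div₀, hae, hae]
    exact hrs
  have h1 : g = 1 := by
    refine Pur.claimZ_aux (w₀ := w.comap (i : L →+* N)) (w₁ := w.comap (θ : L →+* N)) hxt hK
      (fun a => ?_) (fun n hn => ?_) (fun p hp hp1 => ?_) ?_ (fun u hu hux hup => ?_)
      (fun t b ht hb => ?_)
    · show w (θ _) = w (i _)
      rw [AlgHom.commutes, AlgHom.commutes]
    · show w (i _) = 1
      rw [map_natCast, ← map_natCast (algebraMap k N)]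
      exact hk _ (Nat.cast_ne_zero.2 hn)
    · show w (i _) = 1
      rw [hae]
      refine hG p (fun n => ?_) ?_
      · have := hp n
        change w (i _) ≤ 1 at this
        rwa [AlgHom.commutes] at this
      · obtain ⟨n, h⟩ := hp1
        change w (i _) = 1 at h
        rw [AlgHom.commutes] at h
        exact ⟨n, h⟩
    · show w (θ _) ≤ 1
      rw [hxx]
      exact hc
    · rw [hxx] at hux
      refine hU u hu hux fun p hp hpu => ?_
      have h2 := hup p (fun n => by
        change w (i _) ≤ 1
        rw [AlgHom.commutes]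
        exact hp n) (by rw [hae]; exact hpu)
      change w (θ _) < 1 at h2
      rwa [hae] at h2
    · change w (θ b) ≤ w (i t) at hb
      show w (θ _) < w (i t)
      have hit : i t ≠ 0 := fun h => ht (hinj (by rw [h, map_zero]))
      have hwt : 0 < w (i t) := zero_lt_iff.2 ((Valuation.ne_zero_iff w).2 hit)
      have h2 := hσ (θ b / i t) (by rw [map_div₀]; exact (div_le_one₀ hwt).2 hb)
      rw [map_div₀, hσi, ← hg, ← sub_div, ← map_sub, map_div₀] at h2
      exact (div_lt_one₀ hwt).1 h2
  rw [← hg, h1, AlgEquiv.one_apply]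

end Z

end Pf72953.Pl
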