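import Mathlib
import Pool.Agent.Lib.Pf72953n.Adj
import Pool.Agent.Lib.Pf72953n.Eta
import Pool.Agent.Lib.Pf72953n.Z

/-!
`ℙ¹`-step: the ramification of the covering field.
-/

set_option autoImplicit false
set_option linter.style.haveILetI false

open scoped WithZero Polynomial
open Pf72953 Pf72953.Mov Pf72953.Tow

namespace Pf72953.Pl

variable {k Ω : Type*} [Field k] [Field Ω] [Algebra k Ω]

/-- `S` is the set of the branch points of `Q/V(x)` -/
def BranchProp (V Q : IntermediateField k Ω) (x : Ω) (S : Finset Ω) : Prop :=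
  ∀ K : IntermediateField k Ω, Fin' K → V ≤ K → (∀ e ∈ S, e ∈ K) → Transcendental K x →
    ∀ (_ : x ∈ K ⊔ Q) [Fact (K ⊔ IntermediateField.adjoin k {x} ≤ K ⊔ Q)]
      (u : Valuation (K ⊔ Q : IntermediateField k Ω) ℤᵐ⁰),
      (∀ a : Ω, ∀ ha : a ∈ K, a ≠ 0 → u ⟨a, (le_sup_left : K ≤ K ⊔ Q) ha⟩ = 1) →
      ((∀ e ∈ S, ∀ he : x - e ∈ K ⊔ Q, ¬ u ⟨x - e, he⟩ < 1) →
        Br.Unr (K ⊔ IntermediateField.adjoin k {x} : IntermediateField k Ω) u) ∧
      ∀ e ∈ S, ∀ he : x - e ∈ K ⊔ Q, u ⟨x - e, he⟩ < 1 →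
        ¬ Br.Unr (K ⊔ IntermediateField.adjoin k {x} : IntermediateField k Ω) u

theorem galK {V K Q : IntermediateField k Ω} {x : Ω}
    (hG : Gal (V ⊔ IntermediateField.adjoin k {x}) Q) (hVK : V ≤ K) :
    Gal (K ⊔ IntermediateField.adjoin k {x}) (K ⊔ Q) := by
  have h1 := hG.base (K ⊔ IntermediateField.adjoin k {x}) (sup_le_sup_right hVK _)
  have h2 : Q ⊔ (K ⊔ IntermediateField.adjoin k {x}) = K ⊔ Q :=
    le_antisymm (sup_le le_sup_right (sup_le le_sup_left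
      ((le_sup_right.trans hG.le).trans le_sup_right)))
      (sup_le (le_sup_left.trans le_sup_right) le_sup_left)
  rwa [h2] at h1

theorem adjoin_xc_eq {K : IntermediateField k Ω} {x i j l : Ω} (hx : Transcendental K x) (hi : i ∈ K)
    (hj : j ∈ K) (hl : l ∈ K) (hij : i ≠ j) (hil : i ≠ l) (hjl : j ≠ l) :
    K ⊔ IntermediateField.adjoin k {xc x i j l} = K ⊔ IntermediateField.adjoin k {x} := by
  obtain ⟨h1, h2⟩ := adjoin_xc hx hi hj hl hij hil hjl
  exact le_antisymm (sup_le le_sup_left (adjoin_one_le h1)) (sup_le le_sup_left (adjoin_one_le h2))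


theorem equiv_pow {X N : Type*} [Field X] [Field N] [Algebra X N] (σ : N ≃ₐ[X] N) (n : ℕ) (z : N) :
    ((σ.toRingEquiv : N ≃+* N) ^ n) z = (σ ^ n) z := by
  induction n generalizing z with
  | zero => rfl
  | succ n ih =>
    rw [pow_succ, pow_succ]
    exact ih (σ z)

variable [CharZero k] [IsAlgClosed k] [IsAlgClosed Ω]

/-- the inertia group acts trivially on the specializations of `Q` -/
theorem fixes_spec {V X Q Y₂ R N : IntermediateField k Ω} {x t : Ω} {S : Finset Ω}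
    {ψ : Ω × Ω × Ω → (Ω ≃ₐ[k] Ω)} (hC : Cover V X Q x S Y₂ t ψ R) (hbr : BranchProp V Q x S)
    (hV : Fin' V) (hX : Fin' X) (hQ : Fin' Q) (hVX : V ≤ X) (hx : Transcendental X x)
    (hG : Gal (V ⊔ IntermediateField.adjoin k {x}) Q) (hS : ∀ e ∈ S, IsAlgebraic V e)
    (hXN : X ≤ N) (hQN : Q ≤ N) (hRN : R ≤ N) (htN : t ∈ N)
    (hRS : ∀ σ : Ω ≃ₐ[k] Ω, Fixes σ (X ⊔ Q) → Fixes σ Y₂ → Stab σ N)
    (w : Valuation N ℤᵐ⁰) (hk : ∀ a : k, a ≠ 0 → w (algebraMap k N a) = 1)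
    {p : Ω × Ω × Ω} (hp : p ∈ trip S)
    (hGa : ∀ f : (X ⊔ bp V S : IntermediateField k Ω)[X],
      (∀ n, ∀ h : ((f.coeff n : (X ⊔ bp V S : IntermediateField k Ω)) : Ω) ∈ N, w ⟨_, h⟩ ≤ 1) →
      (∃ n, ∃ h : ((f.coeff n : (X ⊔ bp V S : IntermediateField k Ω)) : Ω) ∈ N, w ⟨_, h⟩ = 1) →
      ∀ h : Polynomial.aeval (xc x p.1 p.2.1 p.2.2) f ∈ N, w ⟨_, h⟩ = 1)
    (ht1 : w ⟨t, htN⟩ = 1)
    (ht2 : w (⟨t, htN⟩ - 1) = 1)
    (htl : ∀ s ∈ S, s ≠ p.1 → s ≠ p.2.1 → s ≠ p.2.2 → ∀ h : xc s p.1 p.2.1 p.2.2 ∈ N,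
      w ⟨_, h⟩ = 1 ∧ w (⟨t, htN⟩ - ⟨_, h⟩) = 1)
    (σ' : Ω ≃ₐ[k] Ω) (hσX : Fixes σ' (X ⊔ Q)) (hσY : Fixes σ' Y₂) (htY : t ∈ Y₂)
    (hσS : ∀ e ∈ S, σ' e = e)
    (hσ : ∀ z : N, w z ≤ 1 → ∀ h : σ' z - z ∈ N, w ⟨_, h⟩ < 1) :
    ∀ z ∈ Q ⊔ bp V S, σ' (ψ p z) = ψ p z := by
  classical
  set P := bp V S with hP
  set K : IntermediateField k Ω := X ⊔ P with hK
  set M : IntermediateField k Ω := K ⊔ Q with hM
  have hPf : Fin' P := bp_fin hV
  have hKf : Fin' K := fin_sup hX hPf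
  have hMf : Fin' M := fin_sup hKf hQ
  have hPcl : P ≤ cl V := bp_alg hS
  have hKcl : K ≤ cl X := sup_le le_cl (hPcl.trans (cl_mono hVX))
  have hxK : Transcendental K x := fun h => hx (cl_idem hKcl h)
  have hxQ : x ∈ Q := hG.le (mem_sup_right' (mem_adjoin_one x))
  have hKN : K ≤ N := sup_le hXN (hC.le.trans hRN)
  have hMN : M ≤ N := sup_le hKN hQN
  obtain ⟨⟨h1, h2, h3⟩, h4, h5, h6⟩ := mem_trip.1 hp
  have hm : ∀ e ∈ S, e ∈ K := fun e he => mem_sup_right' (bp_mem he)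
  set x' : Ω := xc x p.1 p.2.1 p.2.2 with hx'
  obtain ⟨h7, h8⟩ := adjoin_xc hxK (hm _ h1) (hm _ h2) (hm _ h3) h4 h5 h6
  have hKx : K ⊔ IntermediateField.adjoin k {x} ≤ M :=
    sup_le le_sup_left (adjoin_one_le (mem_sup_right' hxQ))
  have hx'M : x' ∈ M := hKx h7
  have hVK : V ≤ K := hVX.trans le_sup_left
  have hGK : Gal (K ⊔ IntermediateField.adjoin k {x'}) M := by
    rw [adjoin_xc_eq hxK (hm _ h1) (hm _ h2) (hm _ h3) h4 h5 h6]
    exact galK hG hVK
  haveI f1 : Fact (K ≤ M) := ⟨le_sup_left⟩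
  haveI f2 : Fact (K ≤ N) := ⟨hKN⟩
  haveI f3 : Fact (M ≤ N) := ⟨hMN⟩
  haveI f4 : Fact (K ⊔ IntermediateField.adjoin k {x} ≤ M) := ⟨hKx⟩
  obtain ⟨i1, i2⟩ := gal_adjoin (A := K) (M := M) (x := ⟨x', hx'M⟩) hMf hGK
  have hψ := hC.fix p hp
  have hψM : ∀ z ∈ M, ψ p z ∈ N := by
    intro z hz
    have h9 : M.map (ψ p : Ω →ₐ[k] Ω) ≤ N := by
      rw [hM, IntermediateField.map_sup]
      refine sup_le ?_ ?_
      · rintro _ ⟨z, hz, rfl⟩
        change ψ p z ∈ _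
        rw [hψ z hz]
        exact hKN hz
      · rintro _ ⟨z, hz, rfl⟩
        exact hRN (hC.img p hp z (mem_sup_left' hz))
    exact h9 ⟨z, hz, rfl⟩
  let θ : M →ₐ[K] N :=
    { toFun := fun z => ⟨ψ p z, hψM z z.2⟩
      map_one' := Subtype.ext (map_one (ψ p))
      map_mul' := fun a b => Subtype.ext (map_mul (ψ p) (a : Ω) b)
      map_zero' := Subtype.ext (map_zero (ψ p))
      map_add' := fun a b => Subtype.ext (map_add (ψ p) (a : Ω) b)
      commutes' := fun a => Subtype.ext (hψ a a.2) }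
  let ι : M →ₐ[K] N :=
    { toFun := fun z => ⟨z, hMN z.2⟩
      map_one' := rfl
      map_mul' := fun a b => rfl
      map_zero' := rfl
      map_add' := fun a b => rfl
      commutes' := fun a => rfl }
  have hσK : Fixes σ' K := by
    refine (hσX.mono le_sup_left).sup79 (bp_fixes (hσX.mono (hVX.trans le_sup_left)) hσS)
  have hσM : Fixes σ' M := hσK.sup79 (hσX.mono le_sup_right)
  have hσN : Stab σ' N := hRS σ' hσX hσY
  have hσN' : Stab σ'.symm N := hRS σ'.symm hσX.symm79 hσY.symm79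
  let σ : N ≃+* N :=
    { toFun := fun z => ⟨σ' z, hσN z z.2⟩
      invFun := fun z => ⟨σ'.symm z, hσN' z z.2⟩
      left_inv := fun z => Subtype.ext (σ'.symm_apply_apply z)
      right_inv := fun z => Subtype.ext (σ'.apply_symm_apply z)
      map_mul' := fun a b => Subtype.ext (map_mul σ' (a : Ω) b)
      map_add' := fun a b => Subtype.ext (map_add σ' (a : Ω) b) }
  have hx'K : Transcendental K (⟨x', hx'M⟩ : M) := by
    intro h
    have h9 : IsAlgebraic K x' := h.algebraMap (A := Ω)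
    apply hxK
    have h10 : K ⊔ IntermediateField.adjoin k {x'} ≤ cl K :=
      sup_le le_cl (adjoin_one_le (mem_cl.2 h9))
    exact mem_cl.1 (h10 h8)
  have hψt : ψ p x' = t := hC.map p hp
  have hθx : θ ⟨x', hx'M⟩ = ⟨t, htN⟩ := Subtype.ext hψt
  have hcoe : ∀ f : K[X], ((ι (Polynomial.aeval (⟨x', hx'M⟩ : M) f) : N) : Ω) =
      Polynomial.aeval x' f := by
    intro f
    have h9 : Polynomial.aeval (algebraMap M Ω (⟨x', hx'M⟩ : M)) f =
        algebraMap M Ω (Polynomial.aeval (⟨x', hx'M⟩ : M) f) :=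
      Polynomial.aeval_algebraMap_apply Ω (⟨x', hx'M⟩ : M) f
    exact h9.symm
  have main := claimZ (k := k) (P := K) (L := M) (N := N) (x := ⟨x', hx'M⟩) hx'K ι θ (w := w) hk
    ?_ ?_ ?_ σ (fun z => Subtype.ext (hσM z z.2)) ?_ ?_ ?_
  · intro z hz
    have hzM : z ∈ M := (sup_le le_sup_right (le_sup_right.trans le_sup_left) : Q ⊔ P ≤ M) hz
    exact congrArg Subtype.val (main ⟨z, hzM⟩)
  · -- Gauss
    intro f hf1 hf2
    have h9 := hGa f (fun n h => hf1 n) (by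
      obtain ⟨n, hn⟩ := hf2
      exact ⟨n, hKN (f.coeff n).2, hn⟩) (by
        rw [← hcoe]
        exact (ι (Polynomial.aeval (⟨x', hx'M⟩ : M) f)).2)
    rw [← h9]
    congr 1
    exact Subtype.ext (hcoe f)
  · rw [hθx, ht1]
  · -- the horizontal places
    intro u hu hux hsp g hg
    have hxM : x ∈ M := mem_sup_right' hxQ
    have hun := hbr K hKf hVK hm hxK hxM u (fun a ha h0 => hu ⟨a, ha⟩ (fun h => h0 (by
      have := congrArg Subtype.val h
      exact this)))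
    have huS : ∀ e ∈ S, ∀ he : x - e ∈ K ⊔ Q, ¬ u ⟨x - e, he⟩ < 1 := by
      intro e he hme hlt
      have hem : ∀ s ∈ S, s ∈ M := fun s hs => le_sup_left (a := K) (hm s hs)
      have hxe : u (⟨x, hxM⟩ - ⟨e, hem e he⟩) < 1 := hlt
      have hdiff : ∀ s (hs : s ∈ S), s ≠ e → u (⟨x, hxM⟩ - ⟨s, hem s hs⟩) = 1 := by
        intro s hs hse
        have e1 : (⟨x, hxM⟩ - ⟨s, hem s hs⟩ : M) = (⟨x, hxM⟩ - ⟨e, hem e he⟩) +
            algebraMap K M (⟨e, hm e he⟩ - ⟨s, hm s hs⟩) := by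
          apply Subtype.ext
          change x - s = (x - e) + (e - s)
          ring
        have e2 : u (algebraMap K M (⟨e, hm e he⟩ - ⟨s, hm s hs⟩)) = 1 := by
          apply hu
          intro h0
          have h9 := congrArg Subtype.val h0
          exact hse (sub_eq_zero.1 h9).symm
        rw [e1, u.map_add_eq_of_lt_right (by rw [e2]; exact hxe), e2]
      have hunit : ∀ s (hs : s ∈ S) s' (hs' : s' ∈ S), s ≠ s' →
          u (⟨s, hem s hs⟩ - ⟨s', hem s' hs'⟩) = 1 := by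
        intro s hs s' hs' hss
        have e2 : u (algebraMap K M (⟨s, hm s hs⟩ - ⟨s', hm s' hs'⟩)) = 1 := by
          apply hu
          intro h0
          have h9 := congrArg Subtype.val h0
          exact hss (sub_eq_zero.1 h9)
        exact e2
      have hxce : ∀ s (hs : s ∈ S), xc s p.1 p.2.1 p.2.2 ∈ K := fun s hs =>
        div_mem (mul_mem (sub_mem (hm s hs) (hm _ h1)) (sub_mem (hm _ h3) (hm _ h2)))
          (mul_mem (sub_mem (hm s hs) (hm _ h2)) (sub_mem (hm _ h3) (hm _ h1)))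
      by_cases hej : e = p.2.1
      · -- `x̃ = ∞`
        subst hej
        have e3 : (⟨x', hx'M⟩ : M) = ((⟨x, hxM⟩ - ⟨p.1, hem _ h1⟩) *
            (⟨p.2.2, hem _ h3⟩ - ⟨p.2.1, hem _ h2⟩)) / ((⟨x, hxM⟩ - ⟨p.2.1, hem _ h2⟩) *
              (⟨p.2.2, hem _ h3⟩ - ⟨p.1, hem _ h1⟩)) := rfl
        rw [e3, map_div₀, map_mul, map_mul, hdiff _ h1 h4, hunit _ h3 _ h2 h6.symm,
          hunit _ h3 _ h1 h5.symm, mul_one, mul_one] at hux
        have e4 : u (⟨x, hxM⟩ - ⟨p.2.1, hem _ h2⟩) ≠ 0 := by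
          rw [Valuation.ne_zero_iff]
          intro h0
          have h9 : x = p.2.1 := sub_eq_zero.1 (congrArg Subtype.val h0)
          exact hxK (h9 ▸ alg_of_mem (hm _ h2))
        rw [div_le_one₀ (zero_lt_iff.2 e4)] at hux
        exact absurd hxe (not_lt.2 hux)
      · -- `x̃ = λ`
        set la : K := ⟨xc e p.1 p.2.1 p.2.2, hxce e he⟩ with hla
        have hla1 : w (algebraMap K N la) ≤ 1 ∧ w (⟨t, htN⟩ - algebraMap K N la) = 1 := by
          by_cases he1 : e = p.1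
          · have e5 : la = 0 := by
              apply Subtype.ext
              change xc e p.1 p.2.1 p.2.2 = 0
              rw [he1]
              simp [xc]
            rw [e5, map_zero, map_zero, sub_zero]
            exact ⟨zero_le, ht1⟩
          by_cases he3 : e = p.2.2
          · have e5 : la = 1 := by
              apply Subtype.ext
              change xc e p.1 p.2.1 p.2.2 = 1
              rw [he3]
              unfold xc
              rw [mul_comm, div_self]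
              exact mul_ne_zero (sub_ne_zero.2 h6.symm) (sub_ne_zero.2 h5.symm)
            rw [e5, map_one, map_one]
            exact ⟨le_rfl, ht2⟩
          · obtain ⟨e5, e6⟩ := htl e he he1 hej he3 (hKN la.2)
            exact ⟨e5.le, e6⟩
        have hsp1 := hsp (Polynomial.X - Polynomial.C la) (fun n => by
          rw [Polynomial.coeff_sub, Polynomial.coeff_X, Polynomial.coeff_C, map_sub]
          refine (w.map_sub _ _).trans (max_le ?_ ?_)
          · split_ifs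
            · rw [map_one, map_one]
            · rw [map_zero, map_zero]; exact zero_le
          · split_ifs
            · exact hla1.1
            · rw [map_zero, map_zero]; exact zero_le)
        have e7 : Polynomial.aeval (⟨x', hx'M⟩ : M) (Polynomial.X - Polynomial.C la) =
            ⟨x', hx'M⟩ - algebraMap K M la := by
          rw [map_sub, Polynomial.aeval_X, Polynomial.aeval_C]
        rw [e7] at hsp1
        have e8 : (⟨x', hx'M⟩ - algebraMap K M la : M) = ((⟨p.2.2, hem _ h3⟩ - ⟨p.2.1, hem _ h2⟩) *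
            (⟨x, hxM⟩ - ⟨e, hem e he⟩) * (⟨p.1, hem _ h1⟩ - ⟨p.2.1, hem _ h2⟩)) /
            ((⟨p.2.2, hem _ h3⟩ - ⟨p.1, hem _ h1⟩) * (⟨x, hxM⟩ - ⟨p.2.1, hem _ h2⟩) *
              (⟨e, hem e he⟩ - ⟨p.2.1, hem _ h2⟩)) := by
          apply Subtype.ext
          change xc x p.1 p.2.1 p.2.2 - xc e p.1 p.2.1 p.2.2 = ((p.2.2 - p.2.1) * (x - e) *
            (p.1 - p.2.1)) / ((p.2.2 - p.1) * (x - p.2.1) * (e - p.2.1))
          have e9 : x - p.2.1 ≠ 0 := fun h0 => hxK (by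
            rw [sub_eq_zero.1 h0]
            exact alg_of_mem (hm _ h2))
          have e10 : e - p.2.1 ≠ 0 := sub_ne_zero.2 hej
          have e11 : p.2.2 - p.1 ≠ 0 := sub_ne_zero.2 h5.symm
          unfold xc
          field_simp
          ring
        have e12 := hsp1 (by
          rw [e8, map_div₀, map_mul, map_mul, map_mul, map_mul, hunit _ h3 _ h2 h6.symm,
            hunit _ h1 _ h2 h4, hunit _ h3 _ h1 h5.symm, hdiff _ h2 (Ne.symm hej),
            hunit _ he _ h2 hej, one_mul, mul_one, one_mul, mul_one, div_one]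
          exact hxe)
        rw [map_sub, hθx, AlgHom.commutes, hla1.2] at e12
        exact absurd e12 (lt_irrefl _)
    have hU := hun.1 huS
    have hU' : Br.Unr (IntermediateField.adjoin K ({⟨x', hx'M⟩} : Set M)) u := by
      refine unr_adjoin (A' := K ⊔ IntermediateField.adjoin k {x}) ?_ hU
      exact (adjoin_xc_eq hxK (hm _ h1) (hm _ h2) (hm _ h3) h4 h5 h6).ge
    haveI : IsScalarTower k (IntermediateField.adjoin K ({⟨x', hx'M⟩} : Set M)) M :=
      IsScalarTower.of_algebraMap_eq fun _ => rfl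
    refine inertia_of_unr (k := k) (fun c hc => ?_) hU' g hg
    exact hu (algebraMap k K c) ((map_ne_zero _).2 hc)
  · rw [hθx]
    exact Subtype.ext (hσY t htY)
  · intro z
    set θ' : Ω ≃ₐ[k] Ω := ((ψ p).trans σ').trans (ψ p).symm with hθ'
    have hθK : ∀ z ∈ K, θ' z = z := by
      intro z hz
      rw [hθ', AlgEquiv.trans_apply, AlgEquiv.trans_apply, hψ z hz, hσK z hz,
        AlgEquiv.symm_apply_eq, hψ z hz]
    have hθx' : θ' x' = x' := by
      rw [hθ', AlgEquiv.trans_apply, AlgEquiv.trans_apply, hψt, hσY t htY,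
        AlgEquiv.symm_apply_eq, hψt]
    have hθF : Fixes θ' (K ⊔ IntermediateField.adjoin k {x'}) := by
      have h9 : Fixes θ' K := hθK
      refine h9.sup79 ?_
      rw [fixes_iff79]
      exact adjoin_one_le hθx'
    refine ⟨⟨θ' z, hGK.stab θ' hθF z z.2⟩, Subtype.ext ?_⟩
    change σ' (ψ p z) = ψ p (θ' z)
    rw [hθ', AlgEquiv.trans_apply, AlgEquiv.trans_apply, AlgEquiv.apply_symm_apply]
  · intro z hz
    exact hσ z hz (σ z - z).2


/-- the ramification of `X·Q·R` over `X·Q·Y₂` -/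
theorem unr_cover {V X Q Y₂ R XX PP N : IntermediateField k Ω} {x t : Ω} {S : Finset Ω}
    {ψ : Ω × Ω × Ω → (Ω ≃ₐ[k] Ω)} (hC : Cover V X Q x S Y₂ t ψ R) (hbr : BranchProp V Q x S)
    (hXX : XX = X ⊔ Q ⊔ Y₂) (hPP : PP = X ⊔ R) (hN : N = R ⊔ XX)
    (hV : Fin' V) (hX : Fin' X) (hQ : Fin' Q) (hY₂ : Fin' Y₂) (hVX : V ≤ X)
    (hx : Transcendental X x) (hG : Gal (V ⊔ IntermediateField.adjoin k {x}) Q)
    (hS : ∀ e ∈ S, IsAlgebraic V e) (hSσ : ∀ σ : Ω ≃ₐ[k] Ω, Fixes σ V → ∀ e ∈ S, σ e ∈ S)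
    (htY : t ∈ Y₂) [f1 : Fact (XX ≤ N)] [f2 : Fact (PP ≤ N)] [DecidableEq N]
    (w : Valuation N ℤᵐ⁰) (hk : ∀ a : k, a ≠ 0 → w (algebraMap k _ a) = 1)
    {SN : Finset N} (hSN : ∀ z, z ∈ SN ↔ (z : Ω) ∈ S)
    {m : N → N → ℕ} (hm : ∀ a ∈ SN, ∀ b ∈ SN, 1 ≤ m a b) (hxN : x ∈ N) (htN : t ∈ N)
    (hns : ¬ Small PP w ⟨x, hxN⟩ ⟨t, htN⟩ (GG SN m ⟨x, hxN⟩)
      (TT SN ⟨x, hxN⟩ ⟨t, htN⟩) (MG SN m) (MT SN)) :
    Br.Unr XX w := by
  classical
  have hXXf : Fin' XX := hXX ▸ fin_sup (fin_sup hX hQ) hY₂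
  have hNf : Fin' N := hN ▸ fin_sup hC.fin hXXf
  have hX1 : X ≤ XX := hXX ▸ le_sup_left.trans le_sup_left
  have hQ1 : Q ≤ XX := hXX ▸ le_sup_right.trans le_sup_left
  have hY1 : Y₂ ≤ XX := hXX ▸ le_sup_right
  have hXN : X ≤ N := hX1.trans f1.out
  have hQN : Q ≤ N := hQ1.trans f1.out
  have hYN : Y₂ ≤ N := hY1.trans f1.out
  have hRN : R ≤ N := hN ▸ le_sup_left
  have hbR : bp V S ≤ R := hC.le
  have hRPP : R ≤ PP := hPP ▸ le_sup_right
  have hSPP : ∀ e ∈ S, e ∈ PP := fun e he => hRPP (hbR (bp_mem he))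
  have hSR : ∀ e ∈ S, e ∈ N := fun e he => hRN (hbR (bp_mem he))
  have hGN : Gal XX N := by
    rw [hN]
    exact hC.gal.base XX (sup_le (hVX.trans hX1) hY1)
  obtain ⟨i1, i2⟩ := hGN.finite hNf
  have hSN' : ∀ e ∈ SN, ∃ e' : PP, algebraMap PP N e' = e := fun e he =>
    ⟨⟨e, hSPP _ ((hSN e).1 he)⟩, rfl⟩
  have hnat : ∀ n : ℕ, n ≠ 0 → w (n : N) = 1 := fun n hn => by
    have h1 := hk (n : k) (Nat.cast_ne_zero.2 hn)
    rwa [map_natCast] at h1
  obtain ⟨D, ρ, hR, ht1, ht2, hhh, hq⟩ := exists_of_not_small hm hSN' hns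
  refine Br.unr_of_inertia (fun σ hin => ?_)
  obtain ⟨σ', hσX', hσ'⟩ := hGN.exists_ext hNf σ
  have hσXX : Fixes σ' XX := hσX'
  have hσV : Fixes σ' V := hσXX.mono (hVX.trans hX1)
  have hxXX : x ∈ XX := hQ1 (hG.le (mem_sup_right' (mem_adjoin_one x)))
  have hfixN := fixS_of_inertia (k := k) (P := PP) (N := N) hSN' hR hhh
    (fun a => ⟨algebraMap k PP a, rfl⟩) hk σ.toRingEquiv
    (fun a => by
      have h1 := σ.commutes (algebraMap k XX a)
      exact h1) (n := orderOf σ) (orderOf_pos σ) (fun z => by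
      rw [equiv_pow, pow_orderOf_eq_one]
      rfl) (σ.commutes (⟨x, hxXX⟩ : XX)) (fun e he => by
      rw [hSN]
      have h1 := hσ' e
      have h2 := hSσ σ' hσV e ((hSN e).1 he)
      rw [h1] at h2
      exact h2) hin
  have hfixS : ∀ e ∈ S, σ' e = e := by
    intro e he
    have h1 := hσ' ⟨e, hSR e he⟩
    have h2 := hfixN ⟨e, hSR e he⟩ ((hSN _).2 he)
    have h3 : σ ⟨e, hSR e he⟩ = ⟨e, hSR e he⟩ := h2
    rw [h3] at h1
    exact h1
  have hfixP : Fixes σ' (bp V S) := bp_fixes hσV hfixS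
  have hstab : ∀ τ : Ω ≃ₐ[k] Ω, Fixes τ (X ⊔ Q) → Fixes τ Y₂ → Stab τ N := by
    intro τ h1 h2
    refine hGN.stab τ ?_
    rw [hXX]
    exact h1.sup79 h2
  have key : ∀ p ∈ trip S, ∀ z ∈ Q ⊔ bp V S, σ' (ψ p z) = ψ p z := by
    intro p hp
    obtain ⟨⟨h1, h2, h3⟩, h4, h5, h6⟩ := mem_trip.1 hp
    obtain ⟨e1, e2, e3, e4⟩ := xc_facts hSN' hR hhh hq (i := ⟨p.1, hSR _ h1⟩)
      (j := ⟨p.2.1, hSR _ h2⟩) (l := ⟨p.2.2, hSR _ h3⟩) ((hSN _).2 h1) ((hSN _).2 h2)
      ((hSN _).2 h3) (fun h => h4 (congrArg Subtype.val h)) (fun h => h5 (congrArg Subtype.val h))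
      (fun h => h6 (congrArg Subtype.val h))
    refine fixes_spec (X := X) (N := N) hC hbr hV hX hQ hVX hx hG hS hXN hQN hRN htN hstab w hk hp
      ?_ ht1 ht2 ?_ σ' (hσXX.mono (sup_le hX1 hQ1)) (hσXX.mono hY1) htY hfixS ?_
    · -- Gauss
      intro f hf1 hf2 h
      have hle : X ⊔ bp V S ≤ PP := hPP ▸ sup_le_sup_left hbR X
      haveI g1 : Fact (X ⊔ bp V S ≤ PP) := ⟨hle⟩
      haveI g2 : Fact (X ⊔ bp V S ≤ N) := ⟨hle.trans f2.out⟩
      have h7 := gauss_of_norm (P := PP) hR hnat e1.le e3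
        (f.map (algebraMap (X ⊔ bp V S : IntermediateField k Ω) PP)) (fun n => by
          rw [Polynomial.coeff_map]
          exact hf1 n (hle.trans f2.out (f.coeff n).2)) (by
          obtain ⟨n, h8, h9⟩ := hf2
          exact ⟨n, by rw [Polynomial.coeff_map]; exact h9⟩)
      rw [Polynomial.aeval_map_algebraMap] at h7
      rw [← h7]
      congr 1
      apply Subtype.ext
      have h8 := Polynomial.aeval_algebraMap_apply (R := (X ⊔ bp V S : IntermediateField k Ω)) Ω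
        (xc (⟨x, hxN⟩ : N) ⟨p.1, hSR _ h1⟩ ⟨p.2.1, hSR _ h2⟩ ⟨p.2.2, hSR _ h3⟩) f
      exact h8
    · intro s hs hs1 hs2 hs3 h
      obtain ⟨e5, -, e6⟩ := e4 ⟨s, hSR s hs⟩ ((hSN _).2 hs) (fun h => hs1 (congrArg Subtype.val h))
        (fun h => hs2 (congrArg Subtype.val h)) (fun h => hs3 (congrArg Subtype.val h))
      exact ⟨e5, e6⟩
    · intro z hz h
      have h7 := hin z hz
      have h8 : (⟨σ' z - z, h⟩ : N) = σ z - z := Subtype.ext (by
        change σ' z - z = ((σ z : N) : Ω) - z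
        rw [hσ' z])
      rw [h8]
      exact h7
  have hfixR : Fixes σ' R := hC.gen σ' (hσXX.mono hY1) hfixP key
  have hfixNN : Fixes σ' N := by
    rw [hN]
    exact hfixR.sup79 hσXX
  ext u
  have h6 := hσ' u
  rw [hfixNN u u.2] at h6
  exact h6.symm

end Pf72953.Pl
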