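import Mathlib
import Pool.Agent.Lib.Pf72953n.Cov
import Pool.Agent.Lib.Pf72953i.Main

/-!
`ℙ¹`-step: the fibres of the covering field.
-/

set_option autoImplicit false
set_option linter.style.haveILetI false

open scoped WithZero Polynomial
open Pf72953 Pf72953.Mov Pf72953.Tow

namespace Pf72953.Pl

theorem kge_transport {B B₂ E E₂ : Type*} [Field B] [CharZero B] [Field B₂] [Field E] [Field E₂]
    [Algebra B E] [Algebra B₂ E₂] [Algebra.EssFiniteType B E] (β : B ≃+* B₂) (ε : E ≃+* E₂)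
    (h : ∀ b, ε (algebraMap B E b) = algebraMap B₂ E₂ (β b)) {c : ℕ} (hc : KodairaGE B E c) :
    KodairaGE B₂ E₂ c := by
  haveI : CharZero B₂ := charZero_of_injective_ringHom β.toRingHom.injective
  letI : Algebra E E₂ := ε.toRingHom.toAlgebra
  letI : Algebra B B₂ := β.toRingHom.toAlgebra
  letI : Algebra B E₂ := (ε.toRingHom.comp (algebraMap B E)).toAlgebra
  haveI : IsScalarTower B E E₂ := IsScalarTower.of_algebraMap_eq fun _ => rfl
  haveI : IsScalarTower B B₂ E₂ := IsScalarTower.of_algebraMap_eq fun b => h b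
  haveI : FiniteDimensional E E₂ := Module.Finite.of_surjective (Algebra.linearMap E E₂) ε.surjective
  haveI : Algebra.EssFiniteType B E₂ := Algebra.EssFiniteType.comp B E E₂
  haveI : Algebra.EssFiniteType B₂ E₂ := Algebra.EssFiniteType.of_comp B B₂ E₂
  haveI : Algebra.IsAlgebraic B B₂ := ⟨fun x => by
    obtain ⟨b, rfl⟩ := β.surjective x
    exact isAlgebraic_algebraMap (A := B₂) b⟩
  have h1 : KodairaGE B E₂ c := Can.kodairaGE_pull (E := E) hc
  refine kge_of_le ?_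
  have h2 : kodairaDim B₂ E₂ = kodairaDim B E₂ := Dq.kodairaDim_closure
  rw [h2]
  exact le_iSup₂_of_le c h1 le_rfl

variable {k Ω : Type*} [Field k] [Field Ω] [Algebra k Ω] [CharZero k]

theorem kge_map {A Q : IntermediateField k Ω} (σ : Ω ≃ₐ[k] Ω) (hQ : Fin' Q) {c : ℕ}
    (h : KGE A Q c) : KGE (A.map (σ : Ω →ₐ[k] Ω)) (Q.map (σ : Ω →ₐ[k] Ω)) c := by
  obtain ⟨f1, h⟩ := h
  haveI f2 : Fact (A.map (σ : Ω →ₐ[k] Ω) ≤ Q.map (σ : Ω →ₐ[k] Ω)) :=
    ⟨IntermediateField.map_mono _ f1.out⟩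
  haveI : CharZero A := charZero_of_injective_algebraMap (algebraMap k A).injective
  haveI : Algebra.EssFiniteType k Q := hQ
  haveI : Algebra.EssFiniteType A Q := Algebra.EssFiniteType.of_comp k A Q
  refine ⟨f2, kge_transport (A.equivMap (σ : Ω →ₐ[k] Ω)).toRingEquiv
    (Q.equivMap (σ : Ω →ₐ[k] Ω)).toRingEquiv (fun b => rfl) h⟩

theorem dim_adj {F : IntermediateField k Ω} {x : Ω} (hF : Fin' F) (hx : Transcendental F x) :
    dimension k (F ⊔ IntermediateField.adjoin k {x} : IntermediateField k Ω) =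
      dimension k F + 1 := by
  have hxk : Transcendental k x := fun h => hx (h.tower_top (L := F))
  have h1 := Et.indep_curve hF (fin_one x) (dim_adjOne hxk) (mem_adjoin_one x) hx
  have h2 : dimension k (F ⊔ IntermediateField.adjoin k {x} : IntermediateField k Ω) =
    dimension k F + dimension k (IntermediateField.adjoin k ({x} : Set Ω)) := h1
  rw [h2, dim_adjOne hxk]


/-- the generic fibre of a fibre has `κ ≥ 0` -/
theorem kge_fibre {B K L : IntermediateField k Ω} (hL : Fin' L) (hBK : B ≤ K) (hKL : K ≤ L) {c : ℕ}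
    (hc : KGE B L c) : KGE K L 0 := by
  obtain ⟨a, b, -, -, hb⟩ := kge_sub (F := B) (X := B) (Y := K) hL le_rfl hBK (hBK.trans hKL) hKL
    (by rw [sup_eq_right.2 hBK, add_comm]) hc
  exact hb.mono (Nat.zero_le _)

theorem up_cover {B V X Q Y₂ R : IntermediateField k Ω} {x t : Ω} {S : Finset Ω}
    {ψ : Ω × Ω × Ω → (Ω ≃ₐ[k] Ω)} (hC : Cover V X Q x S Y₂ t ψ R) (hV : Fin' V) (hX : Fin' X)
    (hQ : Fin' Q) (hBX : B ≤ X) (hVX : V ≤ X) (hx : Transcendental X x)
    (hG : Gal (V ⊔ IntermediateField.adjoin k {x}) Q) (hS : ∀ e ∈ S, IsAlgebraic V e)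
    (htY : t ∈ Y₂) (htA : ∀ y ∈ Y₂, IsAlgebraic (IntermediateField.adjoin k ({t} : Set Ω)) y)
    {p : Ω × Ω × Ω} (hp : p ∈ trip S) {c : ℕ} (hc : KGE B (X ⊔ Q) c) :
    ∃ c' δ : ℕ, δ ≤ 1 ∧ c ≤ c' + δ ∧ KGE (X ⊔ bp V S) (X ⊔ bp V S ⊔ Q) δ ∧
      KGE (B ⊔ Y₂) (X ⊔ R) c' := by
  set P := bp V S with hP
  have hLeq : X ⊔ P ⊔ Q = X ⊔ (Q ⊔ P) := by rw [sup_assoc, sup_comm P Q]
  rw [hLeq]
  have hPf : Fin' P := bp_fin hV
  have hPcl : P ≤ cl V := bp_alg hS
  have hKcl : X ⊔ P ≤ cl X := sup_le le_cl (hPcl.trans (cl_mono hVX))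
  have hxK : Transcendental (X ⊔ P : IntermediateField k Ω) x := fun h => hx (cl_idem hKcl h)
  have hxQ : x ∈ Q := hG.le (mem_sup_right' (mem_adjoin_one x))
  have hKf : Fin' (X ⊔ P : IntermediateField k Ω) := fin_sup hX hPf
  have hLf : Fin' (X ⊔ (Q ⊔ P) : IntermediateField k Ω) := fin_sup hX (fin_sup hQ hPf)
  have hKL : X ⊔ P ≤ X ⊔ (Q ⊔ P) := sup_le_sup_left le_sup_right X

  have hBf : Fin' B := fin_le hX hBX
  obtain ⟨⟨h1, h2, h3⟩, h4, h5, h6⟩ := mem_trip.1 hp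
  have hm : ∀ e ∈ S, e ∈ X ⊔ P := fun e he => mem_sup_right' (bp_mem he)
  obtain ⟨h7, h8⟩ := adjoin_xc hxK (hm _ h1) (hm _ h2) (hm _ h3) h4 h5 h6
  set x' : Ω := xc x p.1 p.2.1 p.2.2 with hx'
  have hx'L : x' ∈ X ⊔ (Q ⊔ P) :=
    (sup_le hKL (adjoin_one_le (mem_sup_right' (mem_sup_left' hxQ))) :
      X ⊔ P ⊔ IntermediateField.adjoin k {x} ≤ X ⊔ (Q ⊔ P)) h7
  have hx'K : Transcendental (X ⊔ P : IntermediateField k Ω) x' := by
    intro h
    apply hxK
    have h10 : X ⊔ P ⊔ IntermediateField.adjoin k {x'} ≤ cl (X ⊔ P) :=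
      sup_le le_cl (adjoin_one_le (mem_cl.2 h))
    exact mem_cl.1 (h10 h8)
  -- the algebraic closure
  have hQcl : Q ≤ cl (V ⊔ IntermediateField.adjoin k {x}) := alg_iff.1 hG.alg
  have hLcl : X ⊔ (Q ⊔ P) ≤ cl (X ⊔ IntermediateField.adjoin k {x}) := by
    refine sup_le (le_sup_left.trans le_cl) (sup_le (hQcl.trans (cl_mono
      (sup_le_sup_right hVX _))) (hPcl.trans (cl_mono (hVX.trans le_sup_left))))
  have hc1 : KGE B (X ⊔ (Q ⊔ P)) c := by
    refine kge_pull hLf (sup_le_sup_left le_sup_left X) (fun z hz => ?_) hc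
    have h9 : X ⊔ (Q ⊔ P) ≤ cl (X ⊔ Q) := hLcl.trans (cl_le (sup_le (le_sup_left.trans le_cl)
      (adjoin_one_le (le_cl (mem_sup_right' hxQ)))))
    exact mem_cl.1 (h9 hz)
  set A : IntermediateField k Ω := B ⊔ IntermediateField.adjoin k {x'} with hA
  have hx'B : Transcendental B x' := fun h => hx'K (alg_mono (hBX.trans le_sup_left) h)
  have hdA := dim_adj hBf hx'B
  have hdK := dim_adj hKf hx'K
  obtain ⟨a, b, hab, ha, hb⟩ := kge_sub (F := B) (X := A) (Y := X ⊔ P) hLf le_sup_left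
    (hBX.trans le_sup_left) (sup_le (hBX.trans le_sup_left) (adjoin_one_le hx'L)) hKL (by
      have h9 : A ⊔ (X ⊔ P) = X ⊔ P ⊔ IntermediateField.adjoin k {x'} := by
        rw [hA]
        refine le_antisymm (sup_le (sup_le ((hBX.trans le_sup_left).trans le_sup_left)
          le_sup_right) le_sup_left) (sup_le le_sup_right (le_sup_right.trans le_sup_left))
      rw [h9, hdK, hdA]
      ring) hc1
  refine ⟨a, b, ?_, hab, hb, ?_⟩
  · -- the fibre is a curve
    obtain ⟨f1, hb⟩ := hb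
    haveI : Algebra.EssFiniteType k (X ⊔ (Q ⊔ P) : IntermediateField k Ω) := hLf
    haveI : Algebra.EssFiniteType (X ⊔ P : IntermediateField k Ω)
      (X ⊔ (Q ⊔ P) : IntermediateField k Ω) := Algebra.EssFiniteType.of_comp k _ _
    have h9 := hb.le_dimension
    have h10 := dim_add (A := X ⊔ P) hLf
    have h11 : dimension k (X ⊔ (Q ⊔ P) : IntermediateField k Ω) =
        dimension k (X ⊔ P ⊔ IntermediateField.adjoin k {x'} : IntermediateField k Ω) := by
      refine dim_eq hLf (sup_le hKL (adjoin_one_le hx'L)) ?_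
      rw [alg_iff]
      refine hLcl.trans (cl_mono (sup_le (le_sup_left.trans le_sup_left) (adjoin_one_le h8)))
    omega
  · -- specialization
    have hψ := hC.fix p hp
    have hψt : ψ p x' = t := hC.map p hp
    have h9 := kge_map (ψ p) hLf ha
    have hmapA : A.map (ψ p : Ω →ₐ[k] Ω) = B ⊔ IntermediateField.adjoin k {t} := by
      rw [hA, IntermediateField.map_sup, IntermediateField.adjoin_map, Set.image_singleton]
      congr 1
      · refine le_antisymm ?_ ?_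
        · rintro _ ⟨z, hz, rfl⟩
          change ψ p z ∈ B
          rw [hψ z (mem_sup_left' (hBX hz))]
          exact hz
        · intro z hz
          exact ⟨z, hz, hψ z (mem_sup_left' (hBX hz))⟩
      · congr 1
        exact congrArg _ hψt
    rw [hmapA] at h9
    have hRf : Fin' (X ⊔ R : IntermediateField k Ω) := fin_sup hX hC.fin
    have hle : (X ⊔ (Q ⊔ P)).map (ψ p : Ω →ₐ[k] Ω) ≤ X ⊔ R := by
      rw [IntermediateField.map_sup]
      refine sup_le ?_ ?_
      · rintro _ ⟨z, hz, rfl⟩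
        change ψ p z ∈ _
        rw [hψ z (mem_sup_left' hz)]
        exact mem_sup_left' hz
      · rintro _ ⟨z, hz, rfl⟩
        exact mem_sup_right' (hC.img p hp z hz)
    have hXle : X ≤ (X ⊔ (Q ⊔ P)).map (ψ p : Ω →ₐ[k] Ω) := fun z hz =>
      ⟨z, mem_sup_left' hz, hψ z (mem_sup_left' hz)⟩
    have htle : t ∈ (X ⊔ (Q ⊔ P)).map (ψ p : Ω →ₐ[k] Ω) := ⟨x', hx'L, hψt⟩
    have hY₂cl : Y₂ ≤ cl (IntermediateField.adjoin k {t}) := alg_iff.1 htA
    have h10 : KGE (B ⊔ IntermediateField.adjoin k {t}) (X ⊔ R) a := by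
      refine kge_pull hRf hle ?_ h9
      rw [alg_iff]
      refine sup_le (hXle.trans le_cl) ((alg_iff.1 hC.gal.alg).trans (cl_le ?_))
      exact sup_le ((hVX.trans hXle).trans le_cl) (hY₂cl.trans (cl_mono (adjoin_one_le htle)))
    refine (kge_base hRf (sup_le_sup_left (adjoin_one_le htY) B) ?_ ?_).1 h10
    · exact sup_le (hBX.trans le_sup_left) ((le_sup_right.trans hC.gal.le).trans le_sup_right)
    · rw [alg_iff]
      exact sup_le (le_sup_left.trans le_cl) (hY₂cl.trans (cl_mono le_sup_right))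

end Pf72953.Pl
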