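import Mathlib
import Pool.Agent.Lib.Pf72953n.RamP
import Pool.Agent.Lib.Pf72953n.Up
import Pool.Agent.Lib.Pf72953n.Br
import Pool.Agent.Lib.Pf72953n.Amalg
import Pool.Agent.Lib.Pf72953e.ExtE

/-!
Fractional linear transformations, cross ratios and places of `K(x)`.
-/

set_option autoImplicit false
set_option linter.style.haveILetI false

open scoped WithZero Polynomial
open Pf72953 Pf72953.Mov Pf72953.Tow

namespace Pf72953.Pl

section field

variable {N : Type*} [Field N]

theorem mob_sub {α β γ δ x y : N} (hx : γ * x + δ ≠ 0) (hy : γ * y + δ ≠ 0) :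
    (α * x + β) / (γ * x + δ) - (α * y + β) / (γ * y + δ) =
      (α * δ - β * γ) * (x - y) / ((γ * x + δ) * (γ * y + δ)) := by
  rw [div_sub_div _ _ hx hy]
  congr 1
  ring

/-- the cross ratio is invariant -/
theorem xc_mob {α β γ δ x i j l : N} (hd : α * δ - β * γ ≠ 0) (hx : γ * x + δ ≠ 0)
    (hi : γ * i + δ ≠ 0) (hj : γ * j + δ ≠ 0) (hl : γ * l + δ ≠ 0) :
    xc ((α * x + β) / (γ * x + δ)) ((α * i + β) / (γ * i + δ)) ((α * j + β) / (γ * j + δ))
      ((α * l + β) / (γ * l + δ)) = xc x i j l := by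
  unfold xc
  rw [mob_sub hx hi, mob_sub hl hj, mob_sub hx hj, mob_sub hl hi]
  rcases eq_or_ne (x - j) 0 with h0 | h0
  · rw [h0]
    simp
  rcases eq_or_ne (l - i) 0 with h1 | h1
  · rw [h1]
    simp
  field_simp

theorem mob_inj {α β γ δ x y : N} (hd : α * δ - β * γ ≠ 0) (hx : γ * x + δ ≠ 0)
    (hy : γ * y + δ ≠ 0) (h : (α * x + β) / (γ * x + δ) = (α * y + β) / (γ * y + δ)) : x = y := by
  have h1 := mob_sub (α := α) (β := β) hx hy
  rw [h, sub_self, eq_comm, div_eq_zero_iff] at h1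
  rcases h1 with h1 | h1
  · rcases mul_eq_zero.1 h1 with h2 | h2
    · exact absurd h2 hd
    · exact sub_eq_zero.1 h2
  · exact absurd h1 (mul_ne_zero hx hy)

end field

variable {k Ω : Type*} [Field k] [Field Ω] [Algebra k Ω]

/-- the zero of a cross ratio -/
theorem xc_zero {K : IntermediateField k Ω} {x a b c a' b' c' : Ω} (hx : Transcendental K x)
    (ha : a ∈ K) (hb : b ∈ K) (hc : c ∈ K) (ha' : a' ∈ K) (hb' : b' ∈ K) (hc' : c' ∈ K)
    (hab : a ≠ b) (hac : a ≠ c) (hac' : a' ≠ c') (hbc' : b' ≠ c') (h : xc x a b c = xc x a' b' c') :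
    a = a' := by
  have hne : ∀ e ∈ K, x - e ≠ 0 := fun e he h0 => hx (by
    rw [sub_eq_zero.1 h0]
    exact alg_of_mem he)
  unfold xc at h
  rw [div_eq_div_iff (mul_ne_zero (hne b hb) (sub_ne_zero.2 hac.symm))
    (mul_ne_zero (hne b' hb') (sub_ne_zero.2 hac'.symm))] at h
  set p : K[X] := (Polynomial.X - Polynomial.C ⟨a, ha⟩) * Polynomial.C (⟨c, hc⟩ - ⟨b, hb⟩) *
      ((Polynomial.X - Polynomial.C ⟨b', hb'⟩) * Polynomial.C (⟨c', hc'⟩ - ⟨a', ha'⟩)) -
    (Polynomial.X - Polynomial.C ⟨a', ha'⟩) * Polynomial.C (⟨c', hc'⟩ - ⟨b', hb'⟩) *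
      ((Polynomial.X - Polynomial.C ⟨b, hb⟩) * Polynomial.C (⟨c, hc⟩ - ⟨a, ha⟩)) with hp
  have h0 : Polynomial.aeval x p = 0 := by
    rw [hp]
    simp only [map_sub, map_mul, Polynomial.aeval_X, Polynomial.aeval_C]
    rw [sub_eq_zero]
    exact h
  have hp0 : p = 0 := by
    by_contra hne0
    exact hx ⟨p, hne0, h0⟩
  have h1 := congrArg (Polynomial.eval (⟨a, ha⟩ : K)) hp0
  rw [hp] at h1
  simp only [Polynomial.eval_sub, Polynomial.eval_mul, Polynomial.eval_X, Polynomial.eval_C,
    sub_self, zero_mul, zero_sub, Polynomial.eval_zero, neg_eq_zero, mul_eq_zero] at h1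
  have h2 : ∀ u v : K, u - v = 0 → (u : Ω) = v := fun u v huv => congrArg Subtype.val (sub_eq_zero.1 huv)
  rcases h1 with (h1 | h1) | (h1 | h1)
  · exact h2 _ _ h1
  · exact absurd (h2 _ _ h1).symm hbc'
  · exact absurd (h2 _ _ h1) hab
  · exact absurd (h2 _ _ h1).symm hac

/-- a generator of `P(x)` is a fractional linear transformation of `x` -/
theorem exists_mob {P : IntermediateField k Ω} {x y : Ω} (hx : Transcendental P x)
    (h : P ⊔ IntermediateField.adjoin k {y} = P ⊔ IntermediateField.adjoin k {x}) :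
    ∃ α ∈ P, ∃ β ∈ P, ∃ γ ∈ P, ∃ δ ∈ P, α * δ - β * γ ≠ 0 ∧ γ * x + δ ≠ 0 ∧
      y = (α * x + β) / (γ * x + δ) := by
  classical
  have hy1 : y ∈ P ⊔ IntermediateField.adjoin k {x} := h ▸ mem_sup_right' (mem_adjoin_one y)
  have hx1 : x ∈ P ⊔ IntermediateField.adjoin k {y} := h ▸ mem_sup_right' (mem_adjoin_one x)
  obtain ⟨r, s, hrs⟩ := mem_simple hx1
  have hy2 : y ∈ IntermediateField.adjoin P {x} := by
    have h1 := adjoin_eq_sup P ({x} : Set Ω)
    have h2 : y ∈ (IntermediateField.adjoin P {x}).restrictScalars k := h1 ▸ hy1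
    exact h2
  set e := RatFunc.algEquivOfTranscendental x hx with he
  set y' : IntermediateField.adjoin P {x} := ⟨y, hy2⟩ with hy'
  set x' : IntermediateField.adjoin P {x} := IntermediateField.AdjoinSimple.gen P x with hx'
  set f : RatFunc P := e.symm y' with hf
  have hx2 : x' = Polynomial.aeval y' r / Polynomial.aeval y' s := by
    apply Subtype.ext
    have h3 : ((Polynomial.aeval y' r : IntermediateField.adjoin P {x}) : Ω) =
        Polynomial.aeval y r := by
      have := Polynomial.aeval_algebraMap_apply (R := P) Ω y' r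
      exact this.symm
    have h4 : ((Polynomial.aeval y' s : IntermediateField.adjoin P {x}) : Ω) =
        Polynomial.aeval y s := by
      have := Polynomial.aeval_algebraMap_apply (R := P) Ω y' s
      exact this.symm
    change x = ((Polynomial.aeval y' r : IntermediateField.adjoin P {x}) : Ω) /
      ((Polynomial.aeval y' s : IntermediateField.adjoin P {x}) : Ω)
    rw [h3, h4]
    exact hrs
  have hX : (RatFunc.X : RatFunc P) = Polynomial.aeval f r / Polynomial.aeval f s := by
    have h3 := congrArg e.symm hx2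
    rw [map_div₀, hx', he, RatFunc.algEquivOfTranscendental_symm_gen, ← he] at h3
    rw [h3, hf]
    congr 1
    · exact (Polynomial.aeval_algHom_apply (e.symm : _ →ₐ[P] RatFunc P) y' r).symm
    · exact (Polynomial.aeval_algHom_apply (e.symm : _ →ₐ[P] RatFunc P) y' s).symm
  have htop : IntermediateField.adjoin P {f} = ⊤ := by
    rw [eq_top_iff, ← RatFunc.adjoin_X, IntermediateField.adjoin_le_iff]
    rintro _ rfl
    exact (IntermediateField.mem_adjoin_simple_iff P _).2 ⟨r, s, hX⟩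
  have hdeg := RatFunc.finrank_eq_max_natDegree f
  rw [htop, IntermediateField.finrank_top] at hdeg
  have hn : f.num.natDegree ≤ 1 := by rw [hdeg]; exact le_max_left _ _
  have hd : f.denom.natDegree ≤ 1 := by rw [hdeg]; exact le_max_right _ _
  have hy3 : y = Polynomial.aeval x f.num / Polynomial.aeval x f.denom := by
    have h3 := RatFunc.algEquivOfTranscendental_apply x hx f
    rw [← he, hf, AlgEquiv.apply_symm_apply, ← hf] at h3
    exact h3
  obtain ⟨a, b, hab⟩ : ∃ a b : P, f.num = Polynomial.C a * Polynomial.X + Polynomial.C b :=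
    ⟨_, _, Polynomial.eq_X_add_C_of_natDegree_le_one hn⟩
  obtain ⟨c, d, hcd⟩ : ∃ c d : P, f.denom = Polynomial.C c * Polynomial.X + Polynomial.C d :=
    ⟨_, _, Polynomial.eq_X_add_C_of_natDegree_le_one hd⟩
  have hden : Polynomial.aeval x f.denom ≠ 0 := fun h0 => f.denom_ne_zero (by
    by_contra hne
    exact hx ⟨_, hne, h0⟩)
  rw [hab, hcd] at hy3
  rw [hcd] at hden
  simp only [map_add, map_mul, Polynomial.aeval_C, Polynomial.aeval_X] at hy3 hden
  refine ⟨a, a.2, b, b.2, c, c.2, d, d.2, ?_, hden, hy3⟩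
  intro h0
  have hden' : (c : Ω) * x + d ≠ 0 := hden
  have hy4 : y = ((a : Ω) * x + b) / ((c : Ω) * x + d) := hy3
  have hyP : y ∈ P := by
    rcases eq_or_ne (d : Ω) 0 with hd0 | hd0
    · have hc0 : (c : Ω) ≠ 0 := fun hc0 => hden' (by rw [hc0, hd0, zero_mul, zero_add])
      have hb0 : (b : Ω) = 0 := by
        rw [hd0, mul_zero, zero_sub, neg_eq_zero, mul_eq_zero] at h0
        exact h0.resolve_right hc0
      have hx0 : x ≠ 0 := fun hx0 => hden' (by rw [hx0, hd0, mul_zero, zero_add])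
      rw [hy4, hb0, hd0, add_zero, add_zero, mul_div_mul_right _ _ hx0]
      exact div_mem a.2 c.2
    · have h3 : y = (b : Ω) / d := by
        rw [hy4, div_eq_div_iff hden' hd0]
        linear_combination x * h0
      rw [h3]
      exact div_mem b.2 d.2
  apply hx
  have h4 : P ⊔ IntermediateField.adjoin k {y} = P := sup_eq_left.2 (adjoin_one_le hyP)
  rw [h4] at hx1
  exact alg_of_mem hx1

/-- the place `x = e` -/
theorem exists_place [CharZero k] {K L : IntermediateField k Ω} [Fact (K ≤ L)] (hL : Fin' L)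
    {x e : Ω} (hx : Transcendental K x) (he : e ∈ K) (hxL : x ∈ L)
    (halg : ∀ z ∈ L, IsAlgebraic (K ⊔ IntermediateField.adjoin k {x} : IntermediateField k Ω) z) :
    ∃ u : Valuation L ℤᵐ⁰, (∀ a : K, a ≠ 0 → u (algebraMap K L a) = 1) ∧
      u (⟨x, hxL⟩ - algebraMap K L ⟨e, he⟩) < 1 := by
  haveI : Algebra.EssFiniteType k L := hL
  haveI : Algebra.EssFiniteType K L := Algebra.EssFiniteType.of_comp k K L
  haveI : CharZero K := charZero_of_injective_algebraMap (algebraMap k K).injective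
  have hKL : K ≤ L := Fact.out
  have hK : Fin' K := fin_le hL hKL
  have hdim : dimension K L = 1 := by
    have h1 := dim_add (A := K) hL
    have h2 : dimension k L = dimension k K + 1 := by
      rw [← dim_adj hK hx]
      exact dim_eq hL (sup_le hKL (adjoin_one_le hxL)) halg
    omega
  have hne : x - e ≠ 0 := fun h0 => hx (by
    rw [sub_eq_zero.1 h0]
    exact alg_of_mem he)
  set f : L := (⟨x, hxL⟩ - algebraMap K L ⟨e, he⟩)⁻¹ with hf
  have hfT : Transcendental K f := by
    intro h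
    have h1 : IsAlgebraic K (⟨x, hxL⟩ - algebraMap K L ⟨e, he⟩ : L) := by
      have := h.inv
      rwa [hf, inv_inv] at this
    have h2 : IsAlgebraic K (⟨x, hxL⟩ : L) := by
      have h3 := h1.add (isAlgebraic_algebraMap (⟨e, he⟩ : K))
      rwa [sub_add_cancel] at h3
    exact hx (h2.algebraMap (A := Ω))
  obtain ⟨w, hw, hwf⟩ := Ell.exists_pole hdim hfT
  refine ⟨w, hw, ?_⟩
  rw [hf, map_inv₀] at hwf
  have h0 : w (⟨x, hxL⟩ - algebraMap K L ⟨e, he⟩) ≠ 0 := by
    rw [Valuation.ne_zero_iff]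
    intro h
    exact hne (congrArg Subtype.val h)
  exact (one_lt_inv₀ (zero_lt_iff.2 h0)).1 hwf

end Pf72953.Pl
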