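import Mathlib
import Pool.Agent.Lib.Pf72953n.Mob

/-!
The set of the branch points: change of the coordinate and of the base field.
-/

set_option autoImplicit false
set_option linter.style.haveILetI false

open scoped WithZero Polynomial
open Pf72953 Pf72953.Mov Pf72953.Tow

namespace Pf72953.Pl

section val

variable {N : Type*} [Field N] {u : Valuation N ℤᵐ⁰} {α β γ δ x e : N}

theorem val_mob (hd : u (α * δ - β * γ) = 1) (hγ : u γ ≤ 1) (he : u (γ * e + δ) = 1)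
    (hlt : u (x - e) < 1) : u (γ * x + δ) = 1 ∧
      u ((α * x + β) / (γ * x + δ) - (α * e + β) / (γ * e + δ)) = u (x - e) := by
  have h1 : γ * x + δ = γ * (x - e) + (γ * e + δ) := by ring
  have h2 : u (γ * (x - e)) < 1 := by
    rw [map_mul]
    exact lt_of_le_of_lt (mul_le_of_le_one_left zero_le hγ) hlt
  have h3 : u (γ * x + δ) = 1 := by
    rw [h1, u.map_add_eq_of_lt_right (by rw [he]; exact h2), he]
  refine ⟨h3, ?_⟩
  have hx0 : γ * x + δ ≠ 0 := fun h0 => by rw [h0, map_zero] at h3; exact zero_ne_one h3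
  have he0 : γ * e + δ ≠ 0 := fun h0 => by rw [h0, map_zero] at he; exact zero_ne_one he
  rw [mob_sub hx0 he0, map_div₀, map_mul, map_mul, hd, h3, he, one_mul, mul_one, div_one]

end val

variable {k Ω : Type*} [Field k] [Field Ω] [Algebra k Ω]

/-- `BranchProp`, with a name for `K·Q` -/
def BP (V Q : IntermediateField k Ω) (x : Ω) (S : Finset Ω) : Prop :=
  ∀ K : IntermediateField k Ω, Fin' K → V ≤ K → (∀ e ∈ S, e ∈ K) → Transcendental K x →
    ∀ (L : IntermediateField k Ω) (_ : L = K ⊔ Q) [Fact (K ⊔ IntermediateField.adjoin k {x} ≤ L)]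
      (u : Valuation L ℤᵐ⁰), (∀ a ∈ K, a ≠ 0 → ∀ h : a ∈ L, u ⟨a, h⟩ = 1) →
      ((∀ e ∈ S, ∀ h : x - e ∈ L, ¬ u ⟨x - e, h⟩ < 1) →
        Br.Unr (K ⊔ IntermediateField.adjoin k {x} : IntermediateField k Ω) u) ∧
      ∀ e ∈ S, ∀ h : x - e ∈ L, u ⟨x - e, h⟩ < 1 →
        ¬ Br.Unr (K ⊔ IntermediateField.adjoin k {x} : IntermediateField k Ω) u

theorem bp_iff {V Q : IntermediateField k Ω} {x : Ω} {S : Finset Ω} :
    BranchProp V Q x S ↔ BP V Q x S := by
  constructor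
  · intro h K hK hVK hS hx L hL F u hu
    subst hL
    exact h K hK hVK hS hx (F.out (mem_sup_right' (mem_adjoin_one x))) u
      (fun a ha h0 => hu a ha h0 _)
  · intro h K hK hVK hS hx hxL F u hu
    exact h K hK hVK hS hx _ rfl u (fun a ha h0 _ => hu a ha h0)

theorem unr_eq {F F' L : IntermediateField k Ω} [Fact (F ≤ L)] [Fact (F' ≤ L)] (h : F = F')
    {u : Valuation L ℤᵐ⁰} : Br.Unr F u ↔ Br.Unr F' u := by
  subst h
  rfl

theorem BP.congr {V V₁ Q Q₁ : IntermediateField k Ω} {x : Ω} {S : Finset Ω} (h : BP V Q x S)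
    (hV : V ≤ V₁) (hQ : ∀ K, V₁ ≤ K → K ⊔ Q₁ = K ⊔ Q) : BP V₁ Q₁ x S :=
  fun K hK hVK hS hx L hL => h K hK (hV.trans hVK) hS hx L (hL.trans (hQ K hVK))

theorem mob_field {K : IntermediateField k Ω} {α β γ δ x : Ω} (hα : α ∈ K) (hβ : β ∈ K)
    (hγ : γ ∈ K) (hδ : δ ∈ K) (hd : α * δ - β * γ ≠ 0) (hx : γ * x + δ ≠ 0) :
    -γ * ((α * x + β) / (γ * x + δ)) + α ≠ 0 ∧
      x = (δ * ((α * x + β) / (γ * x + δ)) + -β) / (-γ * ((α * x + β) / (γ * x + δ)) + α) ∧
      K ⊔ IntermediateField.adjoin k {(α * x + β) / (γ * x + δ)} =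
        K ⊔ IntermediateField.adjoin k {x} := by
  have e1 : -γ * ((α * x + β) / (γ * x + δ)) + α = (α * δ - β * γ) / (γ * x + δ) := by
    field_simp
    ring
  have h1 : -γ * ((α * x + β) / (γ * x + δ)) + α ≠ 0 := by
    rw [e1]
    exact div_ne_zero hd hx
  have h2 : x = (δ * ((α * x + β) / (γ * x + δ)) + -β) /
      (-γ * ((α * x + β) / (γ * x + δ)) + α) := by
    have hy : (α * x + β) / (γ * x + δ) * (γ * x + δ) = α * x + β := div_mul_cancel₀ _ hx
    rw [eq_div_iff h1]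
    linear_combination -hy
  refine ⟨h1, h2, le_antisymm (sup_le le_sup_left (adjoin_one_le ?_))
    (sup_le le_sup_left (adjoin_one_le ?_))⟩
  · have h3 : x ∈ K ⊔ IntermediateField.adjoin k {x} := mem_sup_right' (mem_adjoin_one x)
    exact div_mem (add_mem (mul_mem (mem_sup_left' hα) h3) (mem_sup_left' hβ))
      (add_mem (mul_mem (mem_sup_left' hγ) h3) (mem_sup_left' hδ))
  · have h3 : (α * x + β) / (γ * x + δ) ∈
        K ⊔ IntermediateField.adjoin k {(α * x + β) / (γ * x + δ)} :=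
      mem_sup_right' (mem_adjoin_one _)
    have h4 := div_mem (add_mem (mul_mem (mem_sup_left' hδ) h3) (mem_sup_left' (neg_mem hβ)))
      (add_mem (mul_mem (neg_mem (mem_sup_left' hγ)) h3) (mem_sup_left' hα))
    rwa [← h2] at h4

/-- change of the coordinate -/
theorem BP.mob {V Q : IntermediateField k Ω} {x : Ω} {S S' : Finset Ω} (h : BP V Q x S)
    (hS : ∀ e ∈ S, e ∈ V) {α β γ δ : Ω} (hα : α ∈ V) (hβ : β ∈ V) (hγ : γ ∈ V) (hδ : δ ∈ V)
    (hd : α * δ - β * γ ≠ 0) (hne : ∀ e ∈ S, γ * e + δ ≠ 0)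
    (hS' : ∀ e', e' ∈ S' ↔ ∃ e ∈ S, (α * e + β) / (γ * e + δ) = e') :
    BP V Q ((α * x + β) / (γ * x + δ)) S' := by
  intro K hK hVK hSK hxK L hL F u hu
  have hxK' : Transcendental K x := by
    intro h0
    apply hxK
    have ha : ∀ a ∈ V, IsAlgebraic K a := fun a ha => alg_of_mem (hVK ha)
    rw [div_eq_mul_inv]
    exact (((ha α hα).mul h0).add (ha β hβ)).mul ((((ha γ hγ).mul h0).add (ha δ hδ)).inv)
  have hx0 : γ * x + δ ≠ 0 := by
    intro h0
    rcases eq_or_ne γ 0 with hγ0 | hγ0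
    · rw [hγ0, zero_mul, zero_add] at h0
      apply hd
      rw [h0, hγ0]
      ring
    · apply hxK'
      have h1 : x = -δ / γ := by
        rw [eq_div_iff hγ0]
        linear_combination h0
      rw [h1]
      exact alg_of_mem (hVK (div_mem (neg_mem hδ) hγ))
  obtain ⟨hm1, hm2, hm3⟩ := mob_field (hVK hα) (hVK hβ) (hVK hγ) (hVK hδ) hd hx0
  haveI f1 : Fact (K ⊔ IntermediateField.adjoin k {x} ≤ L) := ⟨hm3 ▸ F.out⟩
  have hKL : K ≤ L := le_sup_left.trans f1.out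
  have hxL : x ∈ L := f1.out (mem_sup_right' (mem_adjoin_one x))
  have hu1 : ∀ a : Ω, ∀ ha : a ∈ K, a ≠ 0 → u ⟨a, hKL ha⟩ = 1 := fun a ha h0 => hu a ha h0 _
  have hu2 : ∀ a : Ω, ∀ ha : a ∈ K, u ⟨a, hKL ha⟩ ≤ 1 := by
    intro a ha
    rcases eq_or_ne a 0 with h0 | h0
    · have : (⟨a, hKL ha⟩ : L) = 0 := Subtype.ext h0
      rw [this, map_zero]
      exact zero_le
    · exact (hu1 a ha h0).le
  have key : ∀ e ∈ S, ∀ (h1 : x - e ∈ L)
      (h2 : (α * x + β) / (γ * x + δ) - (α * e + β) / (γ * e + δ) ∈ L),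
      u ⟨x - e, h1⟩ < 1 ↔ u ⟨_, h2⟩ < 1 := by
    intro e he h1 h2
    have heK : e ∈ K := hVK (hS e he)
    have hdK : α * δ - β * γ ∈ K := sub_mem (mul_mem (hVK hα) (hVK hδ)) (mul_mem (hVK hβ) (hVK hγ))
    have heK' : γ * e + δ ∈ K := add_mem (mul_mem (hVK hγ) heK) (hVK hδ)
    constructor
    · intro hlt
      have h3 := (val_mob (u := u) (α := ⟨α, hKL (hVK hα)⟩) (β := ⟨β, hKL (hVK hβ)⟩)
        (γ := ⟨γ, hKL (hVK hγ)⟩) (δ := ⟨δ, hKL (hVK hδ)⟩) (x := ⟨x, hxL⟩) (e := ⟨e, hKL heK⟩)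
        (hu1 _ hdK hd) (hu2 _ (hVK hγ)) (hu1 _ heK' (hne e he)) hlt).2
      have h4 : u ⟨_, h2⟩ = u (⟨x, hxL⟩ - ⟨e, hKL heK⟩) := h3
      rw [h4]
      exact hlt
    · intro hlt
      obtain ⟨hn1, hn2, -⟩ := mob_field (K := K) (hVK hα) (hVK hβ) (hVK hγ) (hVK hδ) hd (hne e he)
      set x' : Ω := (α * x + β) / (γ * x + δ) with hx'
      set e' : Ω := (α * e + β) / (γ * e + δ) with he'
      have he'K : e' ∈ K := div_mem (add_mem (mul_mem (hVK hα) heK) (hVK hβ)) heK'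
      have hx'L : x' ∈ L := F.out (mem_sup_right' (mem_adjoin_one x'))
      have hd' : δ * α - -β * -γ ∈ K := sub_mem (mul_mem (hVK hδ) (hVK hα))
        (mul_mem (neg_mem (hVK hβ)) (neg_mem (hVK hγ)))
      have h3 := (val_mob (u := u) (α := ⟨δ, hKL (hVK hδ)⟩) (β := ⟨-β, hKL (neg_mem (hVK hβ))⟩)
        (γ := ⟨-γ, hKL (neg_mem (hVK hγ))⟩) (δ := ⟨α, hKL (hVK hα)⟩) (x := ⟨x', hx'L⟩)
        (e := ⟨e', hKL he'K⟩) (hu1 _ hd' (by
          intro h0
          apply hd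
          linear_combination h0)) (hu2 _ (neg_mem (hVK hγ)))
        (hu1 _ (add_mem (mul_mem (neg_mem (hVK hγ)) he'K) (hVK hα)) hn1) hlt).2
      have h4 : u ⟨x - e, h1⟩ = u (⟨x', hx'L⟩ - ⟨e', hKL he'K⟩) := by
        rw [← h3]
        congr 1
        apply Subtype.ext
        change x - e = (δ * x' + -β) / (-γ * x' + α) - (δ * e' + -β) / (-γ * e' + α)
        rw [← hm2, ← hn2]
      rw [h4]
      exact hlt
  have hmem : ∀ e ∈ S, (α * e + β) / (γ * e + δ) ∈ K := fun e he =>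
    hSK _ ((hS' _).2 ⟨e, he, rfl⟩)
  obtain ⟨g1, g2⟩ := h K hK hVK (fun e he => hVK (hS e he)) hxK' L hL u hu
  refine ⟨fun hcen => ?_, ?_⟩
  · rw [unr_eq hm3]
    refine g1 fun e he h1 hlt => ?_
    have hx'L : (α * x + β) / (γ * x + δ) ∈ L := F.out (mem_sup_right' (mem_adjoin_one _))
    exact hcen _ ((hS' _).2 ⟨e, he, rfl⟩) (sub_mem hx'L (hKL (hmem e he)))
      ((key e he h1 (sub_mem hx'L (hKL (hmem e he)))).1 hlt)
  · intro e' he' h1 hlt
    obtain ⟨e, he, rfl⟩ := (hS' e').1 he'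
    rw [unr_eq hm3]
    have h2 : x - e ∈ L := sub_mem hxL (hKL (hVK (hS e he)))
    exact g2 e he h2 ((key e he h2 h1).2 hlt)

section descent

variable [CharZero k] [IsAlgClosed Ω] [IsAlgClosed k]

/-- descent from `P₁` to `P` -/
theorem BP.descend {P P₁ Q : IntermediateField k Ω} {x : Ω} {S : Finset Ω}
    (h : BP P₁ (Q ⊔ P₁) x S) (hP₁ : Fin' P₁) (hG1 : Gal P P₁) (hQ : Fin' Q)
    (hG : Gal (P ⊔ IntermediateField.adjoin k {x}) (Q ⊔ P)) : BP P (Q ⊔ P) x S := by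
  intro K hK hPK hSK hxK L hL F u hu
  subst hL
  have hZQ : IntermediateField.adjoin k {x} ≤ Q ⊔ P := le_sup_right.trans hG.le
  have hPP₁ : P ≤ P₁ := hG1.le
  set K' : IntermediateField k Ω := K ⊔ P₁ with hK'
  set L' : IntermediateField k Ω := K' ⊔ (Q ⊔ P₁) with hL'
  have hQL' : Q ⊔ P ≤ L' := sup_le (le_sup_left.trans le_sup_right)
    (hPP₁.trans (le_sup_right.trans le_sup_right))
  haveI f1 : Fact (K ⊔ (Q ⊔ P) ≤ L') := ⟨sup_le (le_sup_left.trans le_sup_left) hQL'⟩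
  haveI f2 : Fact (K ⊔ IntermediateField.adjoin k {x} ≤ L') :=
    ⟨sup_le (le_sup_left.trans le_sup_left) (hZQ.trans hQL')⟩
  haveI f3 : Fact (K' ⊔ IntermediateField.adjoin k {x} ≤ L') :=
    ⟨sup_le le_sup_left (hZQ.trans hQL')⟩
  haveI f4 : Fact (K ≤ L') := ⟨le_sup_left.trans le_sup_left⟩
  haveI f5 : Fact (K ≤ K ⊔ (Q ⊔ P)) := ⟨le_sup_left⟩
  have hPf : Fin' P := fin_le hP₁ hPP₁
  have hLf : Fin' (K ⊔ (Q ⊔ P) : IntermediateField k Ω) := fin_sup hK (fin_sup hQ hPf)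
  have hL'f : Fin' L' := fin_sup (fin_sup hK hP₁) (fin_sup hQ hP₁)
  have hP₁cl : P₁ ≤ cl K := (alg_iff.1 hG1.alg).trans (cl_mono hPK)
  have hK'K : ∀ a ∈ K', IsAlgebraic K a := alg_iff.2 (sup_le le_cl hP₁cl)
  have hxK' : Transcendental K' x := transcendental_alg le_sup_left hK'K hxK
  have hG2 : Gal (K ⊔ IntermediateField.adjoin k {x}) (K ⊔ (Q ⊔ P)) := galK hG hPK
  have e1 : K' ⊔ (Q ⊔ P) = L' := by
    refine le_antisymm (sup_le le_sup_left hQL') (sup_le le_sup_left (sup_le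
      (le_sup_left.trans le_sup_right) (le_sup_right.trans le_sup_left)))
  have hG3 : Gal (K' ⊔ IntermediateField.adjoin k {x}) L' := e1 ▸ galK hG (hPK.trans le_sup_left)
  have hG4 : Gal (K ⊔ IntermediateField.adjoin k {x}) L' := e1 ▸ gal_up' hG hPK hG1
  obtain ⟨u', hu'⟩ := exists_val (L := K ⊔ (Q ⊔ P)) (L' := L') hL'f (fun a ha => by
    refine alg_iff.2 (sup_le (sup_le (le_sup_left.trans le_cl) ?_) (sup_le
      ((le_sup_left.trans le_sup_right).trans le_cl) ?_)) a ha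
    all_goals exact hP₁cl.trans (cl_mono le_sup_left)) u
  have hval : ∀ a : Ω, ∀ (ha : a ∈ K ⊔ (Q ⊔ P)), u' ⟨a, f1.out ha⟩ < 1 ↔ u ⟨a, ha⟩ < 1 := by
    intro a ha
    have h1 : ∀ y : (K ⊔ (Q ⊔ P) : IntermediateField k Ω), _ := fun y =>
      Valuation.isEquiv_iff_val_lt_one.1 hu' (x := y)
    exact h1 ⟨a, ha⟩
  have htK : ∀ a : K, a ≠ 0 → u' (algebraMap K L' a) = 1 := by
    intro a ha
    have h1 : ∀ y : (K ⊔ (Q ⊔ P) : IntermediateField k Ω), _ := fun y =>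
      Valuation.isEquiv_iff_val_eq_one.1 hu' (x := y)
    exact (h1 (algebraMap K (K ⊔ (Q ⊔ P) : IntermediateField k Ω) a)).2
      (hu a a.2 (by simpa using ha) _)
  have ht : ∀ b : L', (b : Ω) ∈ K' → b ≠ 0 → u' b = 1 :=
    fun b hb hb0 => triv_alg htK (hK'K _ hb) hb0
  have htk : ∀ c : k, c ≠ 0 → u' (algebraMap k L' c) = 1 := by
    intro c hc
    refine ht _ (K'.algebraMap_mem c) ?_
    rw [Ne, map_eq_zero]
    exact hc
  obtain ⟨g1, g2⟩ := h K' (fin_sup hK hP₁) le_sup_right (fun e he => mem_sup_left' (hSK e he))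
    hxK' L' rfl u' (fun a ha h0 _ => ht _ ha (fun h => h0 (congrArg Subtype.val h)))
  refine ⟨fun hcen => ?_, fun e he h1 hlt hunr => ?_⟩
  · have h2 : Br.Unr (K' ⊔ IntermediateField.adjoin k {x} : IntermediateField k Ω) u' := by
      refine g1 fun e he h3 hlt => ?_
      have h4 : x - e ∈ K ⊔ (Q ⊔ P) := sub_mem (F.out (mem_sup_right' (mem_adjoin_one x)))
        (mem_sup_left' (hSK e he))
      exact hcen e he h4 ((hval _ h4).1 hlt)
    have h3 : Br.Unr (K ⊔ IntermediateField.adjoin k {x} : IntermediateField k Ω) u' := by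
      refine unr_const (Z' := K' ⊔ IntermediateField.adjoin k {x}) (C := P₁) hL'f hG4 hG3
        (le_sup_right.trans le_sup_left) (fun σ hσ => hG1.stab σ (hσ.mono (hPK.trans le_sup_left)))
        (sup_le (sup_le (le_sup_left.trans le_sup_left) le_sup_right)
          (le_sup_right.trans le_sup_left)) htk
        (fun a ha ha0 => ht a (mem_sup_right' ha) ha0) h2
    exact unr_of_equiv hu' (unr_comap h3)
  · have h2 : Br.Unr (K' ⊔ IntermediateField.adjoin k {x} : IntermediateField k Ω) u' :=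
      unr_up (Z := K ⊔ IntermediateField.adjoin k {x}) (L := K ⊔ (Q ⊔ P))
        (Z' := K' ⊔ IntermediateField.adjoin k {x}) (L' := L')
        (sup_le_sup_right le_sup_left _) hLf hL'f hG2 hG3
        (e1 ▸ sup_le (le_sup_left.trans le_sup_left) (le_sup_right.trans le_sup_right)) htk
        (unr_of_equiv hu'.symm hunr)
    exact g2 e he (f1.out h1) ((hval _ h1).2 hlt) h2

end descent

end Pf72953.Pl
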