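import Mathlib
import Pool.Agent.Lib.Pf72953n.Defs2
import Pool.Agent.Lib.Pf72953i.Down

/-!
Galois covers of `ℙ¹`-bundles: from `Q` to `X`.
-/

set_option autoImplicit false
set_option linter.style.haveILetI false

open scoped WithZero
open Pf72953 Pf72953.Mov Pf72953.Var Pf72953.Ell

namespace Pf72953.Pl

namespace DownAux

theorem aux_id {R : Type*} [CommMonoid R] (r T G S U ρ lam : R) {mt mg n n' p m₁ M₀ K : ℕ}
    (hM : mt * n + mg * n' = M₀) (hK : p * m₁ = K) :
    (r * (T ^ n * G ^ n' * S) * U ^ p) * (ρ * lam) ^ (M₀ + K) =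
    (r * lam ^ M₀) * ((ρ ^ mt * T) ^ n * (ρ ^ mg * G) ^ n') * (ρ ^ K * S) * (U * lam ^ m₁) ^ p := by
  subst hM hK
  have e2 : m₁ * p = p * m₁ := mul_comm _ _
  simp only [mul_pow, ← pow_mul, pow_add, e2]
  simp only [mul_comm, mul_left_comm, mul_assoc]

end DownAux

open Et.DownAux

section down

variable {k W X Q N ι : Type*} [Field k] [CharZero k] [Field W] [Field X] [Field Q] [Field N]
  [Algebra k W] [Algebra k X] [Algebra k Q] [Algebra k N] [Algebra W X] [Algebra W Q] [Algebra W N]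
  [Algebra X N] [Algebra Q N]
  [IsScalarTower k W X] [IsScalarTower k W Q] [IsScalarTower k W N] [IsScalarTower k X N]
  [IsScalarTower k Q N] [IsScalarTower W X N] [IsScalarTower W Q N] [FiniteDimensional W Q]
  [FiniteDimensional X N] [Algebra.EssFiniteType k W] [Algebra.EssFiniteType k X]
  [Algebra.EssFiniteType k Q] [Algebra.EssFiniteType k N] [Fintype ι] [DecidableEq ι]

omit [IsScalarTower k W X] [Algebra.EssFiniteType k X] in
theorem mem_down {z : ι → W} (hz : IsTranscendenceBasis k z) {c : W} {x : X}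
    (hzx : IsTranscendenceBasis k (Sum.elim (fun i => algebraMap W N (z i))
      (fun _ : Unit => algebraMap X N x)))
    (hc0 : c ≠ 0) (hc1 : c ≠ 1) {mg mt : ℕ} {G T : X}
    (hG : ∀ (w : Valuation N ℤᵐ⁰) (D : Derivation Q N N) (ρ : ℤᵐ⁰),
      RelNorm Q w (algebraMap X N x) D ρ → ρ ^ mg * w (algebraMap X N G) ≤ 1)
    (hT : ∀ (w : Valuation N ℤᵐ⁰) (D : Derivation Q N N) (ρ : ℤᵐ⁰),
      RelNorm Q w (algebraMap X N x) D ρ →
        ρ ^ mt * w (algebraMap X N T) ≤ max 1 (w (algebraMap W N c)) ^ mt)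
    (hG' : ∀ (w : Valuation N ℤᵐ⁰) (D : Derivation Q N N) (ρ : ℤᵐ⁰) (t : X),
      At Q X w (algebraMap X N x) D ρ t →
        ρ ^ mg * w (algebraMap X N G) ≤ w (algebraMap X N t) ^ mg)
    (hT' : ∀ (w : Valuation N ℤᵐ⁰) (D : Derivation Q N N) (ρ : ℤᵐ⁰) (t : X),
      At Q X w (algebraMap X N x) D ρ t →
        ρ ^ mt * w (algebraMap X N T) ≤ w (algebraMap X N t) ^ mt)
    (hsm : ∀ w : Valuation N ℤᵐ⁰, IsDivisorial k N w → (∃ a : W, a ≠ 0 ∧ w (algebraMap W N a) ≠ 1) →
      ¬ Small Q w (algebraMap X N x) (algebraMap W N c) (algebraMap X N G) (algebraMap X N T) mg mt →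
      Br.Unr X w)
    {n n' p m₁ M₀ K : ℕ} {R : X}
    (hR : ∀ (w : Valuation N ℤᵐ⁰) (D : Derivation Q N N) (ρ : ℤᵐ⁰),
      RelNorm Q w (algebraMap X N x) D ρ → ρ ^ K * w (algebraMap X N R) ≤ 1)
    (hR' : ∀ (w : Valuation N ℤᵐ⁰) (D : Derivation Q N N) (ρ : ℤᵐ⁰) (t : X),
      At Q X w (algebraMap X N x) D ρ t →
        ρ ^ K * w (algebraMap X N R) ≤ w (algebraMap X N t) ^ K)
    {r : W} (hr : r ∈ WReg k z M₀) (hr1 : c ^ (mt * n + K) * r ∈ WReg k z M₀)
    (hr2 : c⁻¹ ^ K * r ∈ WReg k z M₀) (hr3 : (c - 1)⁻¹ ^ K * r ∈ WReg k z M₀)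
    (hM : mt * n + mg * n' = M₀) (hK : p * m₁ = K) (hn : K ≤ n) (hn' : K ≤ n')
    {U : Q} (hU : U ∈ WReg k (fun i => algebraMap W Q (z i)) m₁) :
    algebraMap W N r * algebraMap X N (T ^ n * G ^ n' * R) * algebraMap Q N U ^ p ∈
      GoodL k X (Sum.elim (fun i => algebraMap W N (z i)) (fun _ : Unit => algebraMap X N x))
        (M₀ + K) := by
  classical
  haveI : CharZero W := charZero_of_injective_algebraMap (algebraMap k W).injective
  haveI : CharZero Q := charZero_of_injective_algebraMap (algebraMap k Q).injective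
  intro w hv d t hd ht htb
  have hcardW : Fintype.card ι = dimension k W := card_eq_of_isTranscendenceBasis hz
  have hcardQ : Fintype.card ι = dimension k Q :=
    card_eq_of_isTranscendenceBasis (hz.algebraMap_comp (A := Q))
  have hcardN : Fintype.card (ι ⊕ Unit) = dimension k N := card_eq_of_isTranscendenceBasis htb
  have htbd : IsTranscendenceBasis k d := IsTranscendenceBasis.of_comp_algebraMap htb
  have hcardX : Fintype.card (ι ⊕ Unit) = dimension k X := card_eq_of_isTranscendenceBasis htbd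
  have hwN : IsDivisorial k N w := IsDivisorial.of_comap (hcardN.symm.trans hcardX) hv
  have hcN : Adapted k w (fun i => algebraMap X N (d i)) (algebraMap X N t) := hd.map
  have hlog := hcN.logBasis hcardN
  have hwt : w (algebraMap X N t) ≠ 0 := by
    rw [Valuation.ne_zero_iff]; simpa using ht.ne_zero
  have hwtpos : 0 < w (algebraMap X N t) := zero_lt_iff.mpr hwt
  have hwt1 : w (algebraMap X N t) ≤ 1 := ht.lt_one.le
  set wW := w.comap (algebraMap W N) with hwW
  set wQ := w.comap (algebraMap Q N) with hwQ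
  have hwWX : ∀ z : W, w (algebraMap X N (algebraMap W X z)) = wW z := fun z => by
    rw [hwW, Valuation.comap_apply, ← IsScalarTower.algebraMap_apply W X N]
  have hwWQ : wQ.comap (algebraMap W Q) = wW := by
    ext z
    rw [hwW, hwQ, Valuation.comap_apply, Valuation.comap_apply, Valuation.comap_apply,
      ← IsScalarTower.algebraMap_apply W Q N]
  have hwWQ' : ∀ z : W, wQ (algebraMap W Q z) = wW z := fun z => by
    rw [← hwWQ]
    rfl
  have hwQN : ∀ z : Q, w (algebraMap Q N z) = wQ z := fun z => rfl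
  have hX : ∀ g : X, w (algebraMap X N g) < 1 → w (algebraMap X N g) ≤ w (algebraMap X N t) :=
    fun g hg => ht.le g hg
  have hWX : ∀ z : W, wW z < 1 → wW z ≤ w (algebraMap X N t) := fun z hz => by
    rw [← hwWX]
    exact hX _ (by rw [hwWX]; exact hz)
  -- the basic estimates
  have key : ∀ {cW : ι → W} (hcW : LogBasis k wW cW)
      (hcQ : LogBasis k wQ (fun i => algebraMap W Q (cW i))), ∃ ρ : ℤᵐ⁰,
      (∃ J : X, ρ = w (algebraMap X N J)) ∧
      w (jac htb (Sum.elim (fun i => algebraMap W N (z i)) (fun _ : Unit => algebraMap X N x))) *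
        w (algebraMap X N t) = ρ * (wW (jac hcW.tb z) * ∏ j, wW (cW j)) ∧
      ∃ D : Derivation Q N N, RelNorm Q w (algebraMap X N x) D ρ := by
    intro cW hcW hcQ
    have hfam : (Sum.elim (fun i => algebraMap Q N (algebraMap W Q (cW i)))
        (fun _ : Unit => algebraMap X N x)) =
        Sum.elim (fun i => algebraMap W N (cW i)) (fun _ : Unit => algebraMap X N x) := by
      funext i
      rcases i with i | i
      · exact (IsScalarTower.algebraMap_apply W Q N _).symm
      · rfl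
    have hzP : IsTranscendenceBasis k (Sum.elim (fun i => algebraMap Q N (algebraMap W Q (cW i)))
        (fun _ : Unit => algebraMap X N x)) := by
      rw [hfam]
      exact tb_swap hcW.tb hzx
    obtain ⟨Du, hDu, hDρ⟩ := relU_cost hcQ.tb hlog hzP
    refine ⟨relU (fun i => algebraMap W Q (cW i)) hlog (algebraMap X N x), ?_, ?_, Du, hDu, hDρ⟩
    · refine ⟨jac htbd (Sum.elim (fun i => algebraMap W X (cW i)) (fun _ : Unit => x)) *
        (∏ j, d j) * (∏ j, algebraMap W X (cW j))⁻¹, ?_⟩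
      have h1 : (Sum.elim (fun i => algebraMap Q N (algebraMap W Q (cW i)))
          (fun _ : Unit => algebraMap X N x)) =
          fun j => algebraMap X N ((Sum.elim (fun i => algebraMap W X (cW i))
            (fun _ : Unit => x)) j) := by
        funext i
        rcases i with i | i
        · change algebraMap Q N (algebraMap W Q (cW i)) = algebraMap X N (algebraMap W X (cW i))
          rw [← IsScalarTower.algebraMap_apply W Q N, ← IsScalarTower.algebraMap_apply W X N]
        · rfl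
      rw [relU, h1, jac_algebraMap htbd hlog.tb]
      simp only [map_mul, map_prod, map_inv₀, hwWX, hwQN, hwWQ']
    · have h1 := relU_chain hcQ.tb hlog hzP (fun i => algebraMap W Q (z i))
      rw [hcN.prod, jac_algebraMap hcW.tb hcQ.tb, hwQN, hwWQ'] at h1
      simp only [hwQN, hwWQ'] at h1
      rw [← h1]
      congr 3
      funext i
      rcases i with i | i
      · exact IsScalarTower.algebraMap_apply W Q N _
      · rfl
  -- reduction
  have hfin : ∀ {cW : ι → W} (hcW : LogBasis k wW cW) {ρ : ℤᵐ⁰},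
      w (jac htb (Sum.elim (fun i => algebraMap W N (z i)) (fun _ : Unit => algebraMap X N x))) *
        w (algebraMap X N t) = ρ * (wW (jac hcW.tb z) * ∏ j, wW (cW j)) →
      (wW r * (wW (jac hcW.tb z) * ∏ j, wW (cW j)) ^ M₀) *
        ((ρ ^ mt * w (algebraMap X N T)) ^ n * (ρ ^ mg * w (algebraMap X N G)) ^ n') *
        (ρ ^ K * w (algebraMap X N R)) *
        (wQ U * (wW (jac hcW.tb z) * ∏ j, wW (cW j)) ^ m₁) ^ p ≤
        w (algebraMap X N t) ^ (M₀ + K) →
      w (algebraMap W N r * algebraMap X N (T ^ n * G ^ n' * R) * algebraMap Q N U ^ p) *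
        w (jac htb (Sum.elim (fun i => algebraMap W N (z i))
          (fun _ : Unit => algebraMap X N x))) ^ (M₀ + K) ≤ 1 := by
    intro cW hcW ρ h1 h2
    have hpos : 0 < w (algebraMap X N t) ^ (M₀ + K) := pow_pos hwtpos _
    refine le_of_mul_le_mul_right (a := w (algebraMap X N t) ^ (M₀ + K)) ?_ hpos
    rw [one_mul, mul_assoc, ← mul_pow, h1]
    refine le_trans (le_of_eq ?_) h2
    simp only [map_mul, map_pow]
    exact DownAux.aux_id (wW r) (w (algebraMap X N T)) (w (algebraMap X N G))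
      (w (algebraMap X N R)) (wQ U) ρ (wW (jac hcW.tb z) * ∏ j, wW (cW j)) hM hK
  by_cases hnt : ∃ a : W, a ≠ 0 ∧ w (algebraMap W N a) ≠ 1
  · -- `w` is nontrivial on `W`
    have hdW : IsDivisorial k W wW := hwN.restrict hnt
    have hntQ : ∃ a : Q, a ≠ 0 ∧ w (algebraMap Q N a) ≠ 1 := by
      obtain ⟨a, ha0, ha⟩ := hnt
      refine ⟨algebraMap W Q a, by simpa using ha0, ?_⟩
      rwa [← IsScalarTower.algebraMap_apply W Q N]
    have hdQ : IsDivisorial k Q wQ := hwN.restrict hntQ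
    obtain ⟨cW, tW, htW, hcW⟩ := hdW.exists_adapted hcardW
    obtain ⟨cQ, tQ, htQ, hcQ⟩ := hdQ.exists_adapted hcardQ
    have hlW := hcW.logBasis hcardW
    have hlQ := hcQ.logBasis hcardQ
    have hcWQ : Adapted k wQ (fun i => algebraMap W Q (cW i)) (algebraMap W Q tW) := by
      have h1 : Adapted k (wQ.comap (algebraMap W Q)) cW tW := by rw [hwWQ]; exact hcW
      exact h1.map
    have hlWQ := hcWQ.logBasis hcardQ
    obtain ⟨ρ, ⟨J, hJ⟩, hvol, D, hD⟩ := key hlW hlWQ
    refine hfin hlW hvol ?_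
    set lam : ℤᵐ⁰ := wW (jac hlW.tb z) * ∏ j, wW (cW j) with hlam
    set κ : ℤᵐ⁰ := max 1 (wW c) with hκ
    have hκ1 : 1 ≤ κ := le_max_left _ _
    have hκ0 : κ ≠ 0 := (zero_lt_one.trans_le hκ1).ne'
    have hκpos : 0 < κ := zero_lt_iff.mpr hκ0
    have hlogb : ∀ f ∈ WReg k z M₀, wW f * lam ^ M₀ ≤ w (algebraMap X N t) ^ M₀ := by
      intro f hf
      have h1 := hf wW hdW cW (hcW.regBasis hcardW htW)
      have h2 : wW f * lam ^ M₀ ≤ wW tW ^ M₀ := by
        rw [hlam, hcW.prod, mul_pow, ← mul_assoc]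
        calc _ ≤ 1 * wW tW ^ M₀ := by gcongr
          _ = _ := one_mul _
      exact h2.trans (pow_le_pow_left' (hWX tW htW.lt_one) _)
    have hlamQ : lam = wQ (jac hlQ.tb (fun i => algebraMap W Q (z i))) * ∏ j, wQ (cQ j) := by
      rw [← LogBasis.vol_eq hlWQ hlQ, jac_algebraMap hlW.tb hlWQ.tb, hwWQ']
      simp only [hwWQ']
      rfl
    have hbU : wQ U * lam ^ m₁ ≤ wQ tQ ^ m₁ := by
      have h1 := hU wQ hdQ cQ (hcQ.regBasis hcardQ htQ)
      rw [hlamQ, hcQ.prod, mul_pow, ← mul_assoc]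
      calc _ ≤ 1 * wQ tQ ^ m₁ := by gcongr
        _ = _ := one_mul _
    have hbU1 : (wQ U * lam ^ m₁) ^ p ≤ wQ tQ ^ K := by
      calc (wQ U * lam ^ m₁) ^ p ≤ (wQ tQ ^ m₁) ^ p := pow_le_pow_left' hbU p
        _ = wQ tQ ^ K := by rw [← pow_mul, ← hK, mul_comm p m₁]
    have hbU2 : (wQ U * lam ^ m₁) ^ p ≤ 1 := hbU1.trans (pow_le_one' htQ.lt_one.le _)
    have hcN' : w (algebraMap W N c) = wW c := rfl
    have hA : ρ ^ mg * w (algebraMap X N G) ≤ 1 := hG w D ρ hD
    have hB : ρ ^ mt * w (algebraMap X N T) ≤ κ ^ mt := hT w D ρ hD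
    have hS : ρ ^ K * w (algebraMap X N R) ≤ 1 := hR w D ρ hD
    set A : ℤᵐ⁰ := ρ ^ mg * w (algebraMap X N G) with hAdef
    set B : ℤᵐ⁰ := ρ ^ mt * w (algebraMap X N T) with hBdef
    have hAn : A ^ n' ≤ 1 := pow_le_one' hA _
    have hBn : B ^ n ≤ κ ^ (mt * n) := by
      rw [pow_mul]
      exact pow_le_pow_left' hB n
    -- the main inequality for `r`
    have hbr : ∀ j : ℕ, j ≤ mt * n + K → wW r * κ ^ j * lam ^ M₀ ≤ w (algebraMap X N t) ^ M₀ := by
      intro j hj
      rcases max_cases 1 (wW c) with ⟨h, -⟩ | ⟨h, h'⟩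
      · rw [hκ, h, one_pow, mul_one]
        exact hlogb r hr
      · have h2 := hlogb _ hr1
        rw [map_mul, map_pow] at h2
        refine le_trans ?_ h2
        rw [hκ, h, mul_comm (wW r)]
        gcongr
        exact h'.le
    -- it suffices
    suffices hsuff : (wW r * lam ^ M₀) * (B ^ n * A ^ n') * (wQ U * lam ^ m₁) ^ p ≤
        w (algebraMap X N t) ^ (M₀ + K) by
      calc wW r * lam ^ M₀ * (B ^ n * A ^ n') * (ρ ^ K * w (algebraMap X N R)) *
            (wQ U * lam ^ m₁) ^ p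
          ≤ wW r * lam ^ M₀ * (B ^ n * A ^ n') * 1 * (wQ U * lam ^ m₁) ^ p := by gcongr
        _ ≤ _ := by rw [mul_one]; exact hsuff
    have hbase : (wW r * lam ^ M₀) * B ^ n ≤ w (algebraMap X N t) ^ M₀ := by
      calc (wW r * lam ^ M₀) * B ^ n ≤ (wW r * lam ^ M₀) * κ ^ (mt * n) := by gcongr
        _ = wW r * κ ^ (mt * n) * lam ^ M₀ := mul_right_comm _ _ _
        _ ≤ _ := hbr _ (Nat.le_add_right _ _)
    have hgain : (wW r * lam ^ M₀) * B ^ n ≤ w (algebraMap X N t) ^ (M₀ + K) →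
        (wW r * lam ^ M₀) * (B ^ n * A ^ n') * (wQ U * lam ^ m₁) ^ p ≤
        w (algebraMap X N t) ^ (M₀ + K) := by
      intro h
      calc (wW r * lam ^ M₀) * (B ^ n * A ^ n') * (wQ U * lam ^ m₁) ^ p
          = ((wW r * lam ^ M₀) * B ^ n) * A ^ n' * (wQ U * lam ^ m₁) ^ p := by
            simp only [mul_assoc]
        _ ≤ w (algebraMap X N t) ^ (M₀ + K) * 1 * 1 := by gcongr
        _ = _ := by simp
    by_cases hUn : Br.Unr X w
    · obtain ⟨s', hs1, hs2⟩ := hUn (algebraMap Q N tQ) htQ.lt_one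
      have h2 : wQ tQ ≤ w (algebraMap X N t) := hs2.trans (ht.le s' hs1)
      calc (wW r * lam ^ M₀) * (B ^ n * A ^ n') * (wQ U * lam ^ m₁) ^ p
          = ((wW r * lam ^ M₀) * B ^ n) * A ^ n' * (wQ U * lam ^ m₁) ^ p := by
            simp only [mul_assoc]
        _ ≤ w (algebraMap X N t) ^ M₀ * 1 * w (algebraMap X N t) ^ K :=
            mul_le_mul' (mul_le_mul' hbase hAn) (hbU1.trans (pow_le_pow_left' h2 _))
        _ = _ := by rw [mul_one, pow_add]
    have hls : Small Q w (algebraMap X N x) (algebraMap W N c) (algebraMap X N G)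
        (algebraMap X N T) mg mt := by
      by_contra h
      exact hUn (hsm w hwN hnt h)
    have hJA : A < 1 → A ≤ w (algebraMap X N t) := by
      intro h
      have h1 : A = w (algebraMap X N (J ^ mg * G)) := by
        rw [hAdef, hJ, map_mul, map_mul, map_pow, map_pow]
      rw [h1] at h ⊢
      exact hX _ h
    have hJB : B < 1 → B ≤ w (algebraMap X N t) := by
      intro h
      have h1 : B = w (algebraMap X N (J ^ mt * T)) := by
        rw [hBdef, hJ, map_mul, map_mul, map_pow, map_pow]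
      rw [h1] at h ⊢
      exact hX _ h
    have hpw : ∀ {β : ℤᵐ⁰} {l : ℕ}, β ≤ w (algebraMap X N t) → K ≤ l →
        β ^ l ≤ w (algebraMap X N t) ^ K := by
      intro β l hβ hl
      exact (pow_le_pow_left' hβ l).trans (pow_le_pow_right_of_le_one' hwt1 hl)
    -- `c` is not a unit
    have hinv : ∀ e : W, e ≠ 0 → wW e < 1 → e⁻¹ ^ K * r ∈ WReg k z M₀ → wW c ≤ 1 →
        (wW r * lam ^ M₀) * B ^ n ≤ w (algebraMap X N t) ^ (M₀ + K) := by
      intro e he0 he her hc
      have hκe : κ = 1 := by rw [hκ]; exact max_eq_left hc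
      have hB1 : B ^ n ≤ 1 := by
        have := hBn
        rwa [hκe, one_pow] at this
      have h1 := hlogb _ her
      rw [map_mul, map_pow, map_inv₀] at h1
      have he1 : wW e ≠ 0 := (Valuation.ne_zero_iff _).2 he0
      have h2 : wW r * lam ^ M₀ = (wW e) ^ K * (((wW e)⁻¹) ^ K * wW r * lam ^ M₀) := by
        rw [mul_assoc, ← mul_assoc (wW e ^ K), ← mul_pow, mul_inv_cancel₀ he1, one_pow, one_mul]
      calc (wW r * lam ^ M₀) * B ^ n ≤ (wW r * lam ^ M₀) * 1 := by gcongr
        _ = (wW e) ^ K * (((wW e)⁻¹) ^ K * wW r * lam ^ M₀) := by rw [mul_one, h2]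
        _ ≤ w (algebraMap X N t) ^ K * w (algebraMap X N t) ^ M₀ := by
            gcongr
            exact hWX e he
        _ = _ := by rw [← pow_add, add_comm]
    rcases lt_or_ge 1 (wW c) with hc | hc
    · -- `w c > 1`
      refine hgain ?_
      have hκe : κ = wW c := by rw [hκ]; exact max_eq_right hc.le
      have hcinv : κ⁻¹ ≤ w (algebraMap X N t) := by
        have h1 : κ⁻¹ = wW c⁻¹ := by rw [hκe, map_inv₀]
        rw [h1]
        refine hWX _ ?_
        rw [map_inv₀]
        exact inv_lt_one_of_one_lt₀ hc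
      have h1 := hbr (mt * n + K) le_rfl
      have h2 : wW r * κ ^ (mt * n) * lam ^ M₀ = κ⁻¹ ^ K * (wW r * κ ^ (mt * n + K) * lam ^ M₀) := by
        have h3 : κ ^ (mt * n) = κ⁻¹ ^ K * κ ^ (mt * n + K) := by
          rw [pow_add, mul_left_comm, ← mul_pow, inv_mul_cancel₀ hκ0, one_pow, mul_one]
        rw [h3]
        simp only [mul_assoc, mul_left_comm]
      calc (wW r * lam ^ M₀) * B ^ n ≤ (wW r * lam ^ M₀) * κ ^ (mt * n) := by gcongr
        _ = wW r * κ ^ (mt * n) * lam ^ M₀ := mul_right_comm _ _ _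
        _ = κ⁻¹ ^ K * (wW r * κ ^ (mt * n + K) * lam ^ M₀) := h2
        _ ≤ w (algebraMap X N t) ^ K * w (algebraMap X N t) ^ M₀ := by gcongr
        _ = _ := by rw [← pow_add, add_comm]
    rcases hls D ρ hD with h | h | h | h
    · calc (wW r * lam ^ M₀) * (B ^ n * A ^ n') * (wQ U * lam ^ m₁) ^ p
          = ((wW r * lam ^ M₀) * B ^ n) * A ^ n' * (wQ U * lam ^ m₁) ^ p := by
            simp only [mul_assoc]
        _ ≤ w (algebraMap X N t) ^ M₀ * w (algebraMap X N t) ^ K * 1 :=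
            mul_le_mul' (mul_le_mul' hbase (hpw (hJA h) hn')) hbU2
        _ = _ := by rw [mul_one, pow_add]
    · refine hgain ?_
      calc (wW r * lam ^ M₀) * B ^ n ≤ w (algebraMap X N t) ^ M₀ * w (algebraMap X N t) ^ K :=
            mul_le_mul' (hlogb r hr) (hpw (hJB h) hn)
        _ = _ := by rw [pow_add]
    · rw [hcN'] at h
      exact hgain (hinv c hc0 (lt_of_le_of_ne hc h) hr2 hc)
    · have h1 : wW (c - 1) ≤ 1 := (wW.map_sub _ _).trans (max_le hc (by rw [map_one]))
      have h2 : w (algebraMap W N c - 1) = wW (c - 1) := by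
        rw [hwW, Valuation.comap_apply, map_sub (algebraMap W N), map_one (algebraMap W N)]
      rw [h2] at h
      exact hgain (hinv (c - 1) (sub_ne_zero.2 hc1) (lt_of_le_of_ne h1 h) hr3 hc)
  · -- `w` is trivial on `W`
    push Not at hnt
    have hntQ' : ∀ a : Q, a ≠ 0 → wQ a = 1 := fun a ha => by
      refine val_eq_one_of_isIntegral (B := W) ?_ ha (Algebra.IsIntegral.isIntegral (R := W) a)
      intro b hb
      rw [hwWQ']
      exact hnt b hb
    have hntQ : ∀ a : Q, a ≠ 0 → w (algebraMap Q N a) = 1 := hntQ'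
    have hlW : LogBasis k wW z := LogBasis.of_trivial hnt hz
    have hlQ : LogBasis k wQ (fun i => algebraMap W Q (z i)) :=
      LogBasis.of_trivial hntQ' (hz.algebraMap_comp (A := Q))
    obtain ⟨ρ, hJ, hvol, D, hD⟩ := key hlW hlQ
    refine hfin hlW hvol ?_
    have hAt : At Q X w (algebraMap X N x) D ρ t := ⟨hntQ, hD, hJ, ht.ne_zero, ht.lt_one, hX⟩
    have hlam : wW (jac hlW.tb z) * ∏ j, wW (z j) = 1 := by
      rw [jac_self, map_one, one_mul]
      exact Finset.prod_eq_one fun j _ => hnt _ (hz.1.ne_zero j)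
    have hW1 : ∀ f : W, wW f ≤ 1 := one_of_triv hnt
    have hQ1 : wQ U ≤ 1 := one_of_triv hntQ U
    have e1 := hT' w D ρ t hAt
    have e2 := hG' w D ρ t hAt
    have e3 := hR' w D ρ t hAt
    rw [hlam, one_pow, mul_one, one_pow, mul_one]
    calc wW r * ((ρ ^ mt * w (algebraMap X N T)) ^ n * (ρ ^ mg * w (algebraMap X N G)) ^ n') *
          (ρ ^ K * w (algebraMap X N R)) * wQ U ^ p
        ≤ 1 * ((w (algebraMap X N t) ^ mt) ^ n * (w (algebraMap X N t) ^ mg) ^ n') *
          w (algebraMap X N t) ^ K * 1 := by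
          gcongr
          · exact hW1 r
          · exact pow_le_one' hQ1 _
      _ = _ := by
          rw [one_mul, mul_one, ← pow_mul, ← pow_mul, ← pow_add, ← pow_add, hM]

theorem down {z : ι → W} (hz : IsTranscendenceBasis k z) {c : W} (hc0 : c ≠ 0) (hc1 : c ≠ 1) {x : X}
    (hzx : IsTranscendenceBasis k (Sum.elim (fun i => algebraMap W N (z i))
      (fun _ : Unit => algebraMap X N x)))
    {mg mt d δ : ℕ} (hmg : 1 ≤ mg) (hd : 1 ≤ d) (hδ : δ ≤ 1) {G T q : X} (hG0 : G ≠ 0) (hT0 : T ≠ 0)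
    (hq0 : q ≠ 0) (hq : δ = 1 → Transcendental Q (algebraMap X N q))
    (hG : ∀ (w : Valuation N ℤᵐ⁰) (D : Derivation Q N N) (ρ : ℤᵐ⁰),
      RelNorm Q w (algebraMap X N x) D ρ → ρ ^ mg * w (algebraMap X N G) ≤ 1)
    (hT : ∀ (w : Valuation N ℤᵐ⁰) (D : Derivation Q N N) (ρ : ℤᵐ⁰),
      RelNorm Q w (algebraMap X N x) D ρ →
        ρ ^ mt * w (algebraMap X N T) ≤ max 1 (w (algebraMap W N c)) ^ mt)
    (hR : ∀ (w : Valuation N ℤᵐ⁰) (D : Derivation Q N N) (ρ : ℤᵐ⁰),
      RelNorm Q w (algebraMap X N x) D ρ → ρ ^ (mg * d) * w (algebraMap X N (G ^ d * q)) ≤ 1)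
    (hG' : ∀ (w : Valuation N ℤᵐ⁰) (D : Derivation Q N N) (ρ : ℤᵐ⁰) (t : X),
      At Q X w (algebraMap X N x) D ρ t →
        ρ ^ mg * w (algebraMap X N G) ≤ w (algebraMap X N t) ^ mg)
    (hT' : ∀ (w : Valuation N ℤᵐ⁰) (D : Derivation Q N N) (ρ : ℤᵐ⁰) (t : X),
      At Q X w (algebraMap X N x) D ρ t →
        ρ ^ mt * w (algebraMap X N T) ≤ w (algebraMap X N t) ^ mt)
    (hR' : ∀ (w : Valuation N ℤᵐ⁰) (D : Derivation Q N N) (ρ : ℤᵐ⁰) (t : X),
      At Q X w (algebraMap X N x) D ρ t →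
        ρ ^ (mg * d) * w (algebraMap X N (G ^ d * q)) ≤ w (algebraMap X N t) ^ (mg * d))
    (hsm : ∀ w : Valuation N ℤᵐ⁰, IsDivisorial k N w → (∃ a : W, a ≠ 0 ∧ w (algebraMap W N a) ≠ 1) →
      ¬ Small Q w (algebraMap X N x) (algebraMap W N c) (algebraMap X N G) (algebraMap X N T) mg mt →
      Br.Unr X w)
    {m₀ : ℕ} (hm₀ : 1 ≤ m₀) {r₀ : W} (hr₀ : r₀ ≠ 0) (h1 : r₀ ∈ WReg k z m₀)
    (h2 : c * r₀ ∈ WReg k z m₀) (h3 : c⁻¹ * r₀ ∈ WReg k z m₀) (h4 : (c - 1)⁻¹ * r₀ ∈ WReg k z m₀)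
    {l : ℕ} (hl : KodairaGE k Q l) : KodairaGE k X (l + δ) := by
  classical
  haveI : CharZero W := charZero_of_injective_algebraMap (algebraMap k W).injective
  haveI : CharZero N := charZero_of_injective_algebraMap (algebraMap k N).injective
  have hzQ : IsTranscendenceBasis k (fun i => algebraMap W Q (z i)) := hz.algebraMap_comp (A := Q)
  have hcardQ : Fintype.card ι = dimension k Q := card_eq_of_isTranscendenceBasis hzQ
  let ε : Fin (dimension k Q) ≃ ι := (Fintype.equivFinOfCardEq hcardQ).symm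
  have hzε : IsTranscendenceBasis k ((fun i => algebraMap W Q (z i)) ∘ ε) :=
    (isTranscendenceBasis_equiv ε).mpr hzQ
  have hback : ((fun i => algebraMap W Q (z i)) ∘ ε) ∘ ε.symm = fun i => algebraMap W Q (z i) := by
    funext i; simp
  obtain ⟨m₁, hm₁, U₀, hU₀, hU₀ne, f, hf, hff⟩ := hl.exists_coord hzε
  have hU : U₀ ∈ WReg k (fun i => algebraMap W Q (z i)) m₁ := by
    have h3 := WReg.reindex hU₀ ε.symm
    rwa [hback] at h3
  have hfU : ∀ i, f i * U₀ ∈ WReg k (fun i => algebraMap W Q (z i)) m₁ := by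
    intro i
    have h3 := WReg.reindex (hff i) ε.symm
    rwa [hback] at h3
  -- the exponents
  set p := mg * d with hp
  set K := p * m₁ with hK
  set s' := (mt + 1) * K with hs'
  set s := mg * s' with hs
  set n' := m₀ * s' - mt * (d * m₁) with hn'
  have hK' : K = mg * (d * m₁) := by rw [hK, hp, mul_assoc]
  have hdm : d * m₁ ≤ K := by
    rw [hK']
    exact Nat.le_mul_of_pos_left _ hmg
  have hs1 : mt * K + K ≤ s := by
    calc mt * K + K = s' := by rw [hs']; ring
      _ ≤ s := Nat.le_mul_of_pos_left _ hmg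
  have hms : s' ≤ m₀ * s' := Nat.le_mul_of_pos_left _ hm₀
  have hle1 : mt * (d * m₁) ≤ mt * K := Nat.mul_le_mul_left _ hdm
  have hs'2 : s' = mt * K + K := by rw [hs']; ring
  have hn'K : K ≤ n' := by omega
  have hM : mt * K + mg * n' = m₀ * s := by
    have e1 : mg * n' = mg * (m₀ * s') - mg * (mt * (d * m₁)) := by
      rw [hn', Nat.mul_sub]
    have e2 : mg * (mt * (d * m₁)) = mt * K := by rw [hK']; ring
    have e3 : mg * (mt * (d * m₁)) ≤ mg * (m₀ * s') := Nat.mul_le_mul_left _ (by omega)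
    have e4 : mg * (m₀ * s') = m₀ * s := by rw [hs]; ring
    omega
  -- the forms on the base
  have hpw : ∀ {e : W} {j : ℕ}, j ≤ s → e * r₀ ∈ WReg k z m₀ → e ^ j * r₀ ^ s ∈ WReg k z (m₀ * s) := by
    intro e j hj he
    have h4 := WReg.mul (WReg.pow he j) (WReg.pow h1 (s - j))
    have e1 : m₀ * j + m₀ * (s - j) = m₀ * s := by
      rw [← mul_add]
      congr 1
      omega
    have e2 : (e * r₀) ^ j * r₀ ^ (s - j) = e ^ j * r₀ ^ s := by
      rw [mul_pow, mul_assoc, ← pow_add]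
      congr 2
      omega
    rwa [e1, e2] at h4
  have hrs : r₀ ^ s ∈ WReg k z (m₀ * s) := WReg.pow h1 _
  have hrs1 : c ^ (mt * K + K) * r₀ ^ s ∈ WReg k z (m₀ * s) := hpw hs1 h2
  have hrs2 : c⁻¹ ^ K * r₀ ^ s ∈ WReg k z (m₀ * s) := hpw (by omega) h3
  have hrs3 : (c - 1)⁻¹ ^ K * r₀ ^ s ∈ WReg k z (m₀ * s) := hpw (by omega) h4
  -- the last factor
  have hR1 : ∀ (w : Valuation N ℤᵐ⁰) (D : Derivation Q N N) (ρ : ℤᵐ⁰),
      RelNorm Q w (algebraMap X N x) D ρ → ρ ^ K * w (algebraMap X N (G ^ (d * m₁))) ≤ 1 := by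
    intro w D ρ h
    rw [hK', map_pow, map_pow, pow_mul ρ mg (d * m₁), ← mul_pow]
    exact pow_le_one' (hG w D ρ h) _
  have hR1' : ∀ (w : Valuation N ℤᵐ⁰) (D : Derivation Q N N) (ρ : ℤᵐ⁰) (t : X),
      At Q X w (algebraMap X N x) D ρ t →
        ρ ^ K * w (algebraMap X N (G ^ (d * m₁))) ≤ w (algebraMap X N t) ^ K := by
    intro w D ρ t h
    rw [hK', map_pow, map_pow, pow_mul ρ mg (d * m₁), pow_mul _ mg (d * m₁), ← mul_pow]
    exact pow_le_pow_left' (hG' w D ρ t h) _
  have key : ∀ U ∈ WReg k (fun i => algebraMap W Q (z i)) m₁, _ := fun U hU =>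
    mem_down (N := N) hz hzx hc0 hc1 hG hT hG' hT' hsm hR1 hR1' hrs hrs1 hrs2 hrs3 hM hK.symm le_rfl
      hn'K hU
  have hne : algebraMap W N (r₀ ^ s) * algebraMap X N (T ^ K * G ^ n' * G ^ (d * m₁)) *
      algebraMap Q N U₀ ^ p ≠ 0 := by
    refine mul_ne_zero (mul_ne_zero ?_ ?_) (pow_ne_zero _ ?_)
    · rw [Ne, map_eq_zero]; exact pow_ne_zero _ hr₀
    · rw [Ne, map_eq_zero]
      exact mul_ne_zero (mul_ne_zero (pow_ne_zero _ hT0) (pow_ne_zero _ hG0)) (pow_ne_zero _ hG0)
    · rw [Ne, map_eq_zero]; exact hU₀ne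
  have hp1 : 1 ≤ p := Nat.mul_pos hmg hd
  have hMpos : 1 ≤ m₀ * s + K := by
    have : 1 ≤ K := Nat.mul_pos hp1 hm₁
    omega
  have hfp : AlgebraicIndependent k (fun i => (f i) ^ p) := algebraicIndependent_pow hf (by omega)
  have hfN : AlgebraicIndependent k (fun i => algebraMap Q N (f i) ^ p) := by
    have h5 := (AlgHom.algebraicIndependent_iff (IsScalarTower.toAlgHom k Q N)
      (algebraMap Q N).injective).mpr hfp
    convert h5 using 2
    exact (map_pow (algebraMap Q N) _ _).symm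
  have hone : (1 : N) ∈ Ratios k X (Sum.elim (fun i => algebraMap W N (z i))
      (fun _ : Unit => algebraMap X N x)) :=
    ⟨_, hMpos, _, key U₀ hU, hne, by rw [one_mul]; exact key U₀ hU⟩
  have hfR : ∀ i, algebraMap Q N (f i) ^ p ∈ Ratios k X (Sum.elim (fun i => algebraMap W N (z i))
      (fun _ : Unit => algebraMap X N x)) := by
    intro i
    refine ⟨_, hMpos, _, key U₀ hU, hne, ?_⟩
    have h5 := key _ (hfU i)
    have h6 : algebraMap Q N (f i) ^ p * (algebraMap W N (r₀ ^ s) *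
        algebraMap X N (T ^ K * G ^ n' * G ^ (d * m₁)) * algebraMap Q N U₀ ^ p) =
        algebraMap W N (r₀ ^ s) * algebraMap X N (T ^ K * G ^ n' * G ^ (d * m₁)) *
          algebraMap Q N (f i * U₀) ^ p := by
      rw [map_mul (algebraMap Q N) (f i) U₀, mul_pow]
      ring
    rw [h6]
    exact h5
  rcases Nat.le_one_iff_eq_zero_or_eq_one.1 hδ with rfl | rfl
  · exact Twr.of_good' hzx hfN hfR hone
  · -- the additional function
    obtain ⟨m₂, rfl⟩ : ∃ m₂, m₁ = m₂ + 1 := ⟨m₁ - 1, by omega⟩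
    have hR2 : ∀ (w : Valuation N ℤᵐ⁰) (D : Derivation Q N N) (ρ : ℤᵐ⁰),
        RelNorm Q w (algebraMap X N x) D ρ →
          ρ ^ K * w (algebraMap X N (G ^ (d * m₂) * (G ^ d * q))) ≤ 1 := by
      intro w D ρ h
      have e1 : ρ ^ K * w (algebraMap X N (G ^ (d * m₂) * (G ^ d * q))) =
          (ρ ^ mg * w (algebraMap X N G)) ^ (d * m₂) *
            (ρ ^ (mg * d) * w (algebraMap X N (G ^ d * q))) := by
        rw [map_mul (algebraMap X N) (G ^ (d * m₂)), map_mul w, map_pow, map_pow, mul_pow, ← pow_mul,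
          mul_mul_mul_comm, ← pow_add]
        congr 2
        rw [hK']
        ring
      rw [e1]
      exact mul_le_one' (pow_le_one' (hG w D ρ h) _) (hR w D ρ h)
    have hR2' : ∀ (w : Valuation N ℤᵐ⁰) (D : Derivation Q N N) (ρ : ℤᵐ⁰) (t : X),
        At Q X w (algebraMap X N x) D ρ t →
          ρ ^ K * w (algebraMap X N (G ^ (d * m₂) * (G ^ d * q))) ≤ w (algebraMap X N t) ^ K := by
      intro w D ρ t h
      have e1 : ρ ^ K * w (algebraMap X N (G ^ (d * m₂) * (G ^ d * q))) =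
          (ρ ^ mg * w (algebraMap X N G)) ^ (d * m₂) *
            (ρ ^ (mg * d) * w (algebraMap X N (G ^ d * q))) := by
        rw [map_mul (algebraMap X N) (G ^ (d * m₂)), map_mul w, map_pow, map_pow, mul_pow, ← pow_mul,
          mul_mul_mul_comm, ← pow_add]
        congr 2
        rw [hK']
        ring
      have e2 : w (algebraMap X N t) ^ K = (w (algebraMap X N t) ^ mg) ^ (d * m₂) *
          w (algebraMap X N t) ^ (mg * d) := by
        rw [← pow_mul, ← pow_add, hK']
        congr 1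
        ring
      rw [e1, e2]
      exact mul_le_mul' (pow_le_pow_left' (hG' w D ρ t h) _) (hR' w D ρ t h)
    have key2 := mem_down (N := N) hz hzx hc0 hc1 hG hT hG' hT' hsm hR2 hR2' hrs hrs1 hrs2 hrs3 hM
      hK.symm le_rfl hn'K hU
    have hqR : algebraMap X N q ∈ Ratios k X (Sum.elim (fun i => algebraMap W N (z i))
        (fun _ : Unit => algebraMap X N x)) := by
      refine ⟨_, hMpos, _, key U₀ hU, hne, ?_⟩
      have h6 : algebraMap X N q * (algebraMap W N (r₀ ^ s) *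
          algebraMap X N (T ^ K * G ^ n' * G ^ (d * (m₂ + 1))) * algebraMap Q N U₀ ^ p) =
          algebraMap W N (r₀ ^ s) * algebraMap X N (T ^ K * G ^ n' * (G ^ (d * m₂) * (G ^ d * q))) *
            algebraMap Q N U₀ ^ p := by
        simp only [map_mul, map_pow]
        rw [mul_add d m₂ 1, mul_one, pow_add]
        ring
      rw [h6]
      exact key2
    have hind : AlgebraicIndependent k (Fin.snoc (fun i => algebraMap Q N (f i) ^ p)
        (algebraMap X N q) : Fin (l + 1) → N) := by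
      have h5 := hfp.sumElim_comp (A := N) (y := fun _ : Fin 1 => algebraMap X N q)
        (algebraicIndependent_unique_type_iff.2 (hq rfl))
      have h6 := h5.comp (finSumFinEquiv.symm.trans (Equiv.sumComm _ _)) (Equiv.injective _)
      have h7 : (Sum.elim (fun _ : Fin 1 => algebraMap X N q) (algebraMap Q N ∘ fun i => f i ^ p)) ∘
          (finSumFinEquiv.symm.trans (Equiv.sumComm (Fin l) (Fin 1))) =
          (Fin.snoc (fun i => algebraMap Q N (f i) ^ p) (algebraMap X N q) : Fin (l + 1) → N) := by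
        funext i
        refine Fin.lastCases ?_ (fun j => ?_) i
        · rw [Fin.snoc_last]
          have : finSumFinEquiv.symm (Fin.last l) = (Sum.inr 0 : Fin l ⊕ Fin 1) := by
            rw [Equiv.symm_apply_eq]
            rfl
          simp [this]
        · rw [Fin.snoc_castSucc]
          have : finSumFinEquiv.symm j.castSucc = (Sum.inl j : Fin l ⊕ Fin 1) := by
            rw [Equiv.symm_apply_eq]
            rfl
          simp [this]
      rw [← h7]
      exact h6
    refine Twr.of_good' hzx hind (fun i => ?_) hone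
    refine Fin.lastCases ?_ (fun j => ?_) i
    · rw [Fin.snoc_last]; exact hqR
    · rw [Fin.snoc_castSucc]; exact hfR j

end down

end Pf72953.Pl
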