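import Mathlib
import Pool.Agent.Lib.Pf72953n.Defs2
import Pool.Agent.Lib.Pf72953e.Place

/-!
Galois covers of `ℙ¹`-bundles: the forms `GG` and `TT` at the places of the generic fibre.
-/

set_option autoImplicit false

open scoped WithZero
open Pf72953

namespace Pf72953.Pl

theorem val_hh {N : Type*} [Field N] {w : Valuation N ℤᵐ⁰} {x a b : N} (h : w (a - b) = 1) :
    w (hh x a b) = (w (x - a) * w (x - b))⁻¹ := by
  rw [hh, map_div₀, map_mul, h, one_div]

section sums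

variable {N : Type*} [DecidableEq N]

/-- the weight of the pairs which do not contain `e` -/
theorem MG_split {S : Finset N} {r : N → ℕ} {m : N → N → ℕ} (hW : Weights S r m) {e : N}
    (he : e ∈ S) :
    MG S m = ∑ p ∈ S.offDiag, (if p.1 = e ∨ p.2 = e then 0 else m p.1 p.2) + 2 * DG S m e := by
  have h1 : ∑ p ∈ S.offDiag, (if p.1 = e then m p.1 p.2 else 0) = DG S m e := by
    rw [← Finset.sum_filter, DG]
    symm
    refine Finset.sum_nbij' (fun b => (e, b)) (fun p => p.2) ?_ ?_ ?_ ?_ ?_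
    · intro b hb
      rw [Finset.mem_erase] at hb
      simp only [Finset.mem_filter, Finset.mem_offDiag]
      exact ⟨⟨he, hb.2, hb.1.symm⟩, trivial⟩
    · intro p hp
      simp only [Finset.mem_filter, Finset.mem_offDiag] at hp
      rw [Finset.mem_erase]
      exact ⟨fun h => hp.1.2.2 (hp.2.trans h.symm), hp.1.2.1⟩
    · intro b _
      rfl
    · intro p hp
      simp only [Finset.mem_filter, Finset.mem_offDiag] at hp
      exact Prod.ext hp.2.symm rfl
    · intro b _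
      rfl
  have h2 : ∑ p ∈ S.offDiag, (if p.2 = e then m p.1 p.2 else 0) = DG S m e := by
    rw [← Finset.sum_filter, DG]
    symm
    refine Finset.sum_nbij' (fun b => (b, e)) (fun p => p.1) ?_ ?_ ?_ ?_ ?_
    · intro b hb
      rw [Finset.mem_erase] at hb
      simp only [Finset.mem_filter, Finset.mem_offDiag]
      exact ⟨⟨hb.2, he, hb.1⟩, trivial⟩
    · intro p hp
      simp only [Finset.mem_filter, Finset.mem_offDiag] at hp
      rw [Finset.mem_erase]
      exact ⟨fun h => hp.1.2.2 (h.trans hp.2.symm), hp.1.1⟩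
    · intro b _
      rfl
    · intro p hp
      simp only [Finset.mem_filter, Finset.mem_offDiag] at hp
      exact Prod.ext rfl hp.2.symm
    · intro b _
      exact hW.symm _ _
  rw [two_mul]
  nth_rewrite 1 [← h1]
  rw [← h2, ← Finset.sum_add_distrib, ← Finset.sum_add_distrib, MG]
  refine Finset.sum_congr rfl fun p hp => ?_
  have hne : p.1 ≠ p.2 := (Finset.mem_offDiag.1 hp).2.2
  by_cases ha : p.1 = e
  · have hb : p.2 ≠ e := fun h => hne (ha.trans h.symm)
    simp [ha, hb]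
  · by_cases hb : p.2 = e
    · simp [ha, hb]
    · simp [ha, hb]

end sums

section hor

variable {P X N : Type*} [Field P] [Field X] [Field N] [Algebra P N] [Algebra X N] [DecidableEq N]
  {w : Valuation N ℤᵐ⁰} {x : N} {D : Derivation P N N} {ρ : ℤᵐ⁰} {t : X} {S : Finset N} {r : N → ℕ}
  {m : N → N → ℕ}

omit [Field P] [Algebra P N] in
/-- bounds for products of the `hh` -/
theorem GG_of {u : ℤᵐ⁰} (h : ∀ a ∈ S, ∀ b ∈ S, a ≠ b → ρ * w (hh x a b) ≤ u) :
    ρ ^ MG S m * w (GG S m x) ≤ u ^ MG S m := by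
  rw [MG, GG, map_prod, ← Finset.prod_pow_eq_pow_sum, ← Finset.prod_pow_eq_pow_sum,
    ← Finset.prod_mul_distrib]
  refine Finset.prod_le_prod' fun p hp => ?_
  rw [Finset.mem_offDiag] at hp
  rw [map_pow, ← mul_pow]
  exact pow_le_pow_left' (h _ hp.1 _ hp.2.1 hp.2.2) _

omit [Field P] [Algebra P N] in
theorem TT_of {c : N} {v : ℤᵐ⁰} (h : ∀ i j l s, (i, j, l, s) ∈ quads S →
    ρ ^ 2 * w (tq x c i j l s) ≤ v ^ 2) :
    ρ ^ MT S * w (TT S x c) ≤ v ^ MT S := by
  rw [MT, TT, map_prod, pow_mul, pow_mul, ← Finset.prod_const, ← Finset.prod_const,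
    ← Finset.prod_mul_distrib]
  refine Finset.prod_le_prod' fun p hp => ?_
  exact h _ _ _ _ hp

omit [Field P] [Algebra P N] in
theorem tq_le {c : N} (hc : w c ≤ 1) {i j l s : N} {α β γ δ μ : ℤᵐ⁰} (h1 : w (hh x s j) ≤ α)
    (h2 : w (hh x l i) ≤ β) (h3 : w (hh x s i) ≤ γ) (h4 : w (hh x l j) ≤ δ) (h5 : α * β ≤ μ)
    (h6 : γ * δ ≤ μ) : w (tq x c i j l s) ≤ μ := by
  rw [tq]
  refine Valuation.map_sub_le w ?_ ?_
  · rw [map_mul, map_mul]
    exact (mul_le_of_le_one_left' hc).trans ((mul_le_mul' h1 h2).trans h5)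
  · rw [map_mul]
    exact (mul_le_mul' h3 h4).trans h6

theorem At.sub_eq (h : At P X w x D ρ t) (hS : ∀ e ∈ S, ∃ e' : P, algebraMap P N e' = e) {a b : N}
    (ha : a ∈ S) (hb : b ∈ S) (hne : a ≠ b) : w (a - b) = 1 := by
  obtain ⟨a', rfl⟩ := hS a ha
  obtain ⟨b', rfl⟩ := hS b hb
  rw [← map_sub]
  refine h.triv _ (sub_ne_zero.2 fun h' => hne (by rw [h']))

theorem At.le_one (h : At P X w x D ρ t) (hS : ∀ e ∈ S, ∃ e' : P, algebraMap P N e' = e) {a : N}
    (ha : a ∈ S) : w a ≤ 1 := by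
  obtain ⟨a', rfl⟩ := hS a ha
  exact Ell.PlaceAux.le_one h.triv a'

theorem At.rho_le (h : At P X w x D ρ t) (hS : ∀ e ∈ S, ∃ e' : P, algebraMap P N e' = e) {a : N}
    (ha : a ∈ S) : ρ ≤ w (x - a) := by
  obtain ⟨a', rfl⟩ := hS a ha
  have h1 := h.norm.le (x - algebraMap P N a')
  rwa [map_sub, Derivation.map_algebraMap, sub_zero, h.norm.dx, map_one, one_mul] at h1

/-- away from `S` the forms `hh` vanish -/
theorem At.far [CharZero P] (h : At P X w x D ρ t)
    (halg : ∀ g : N, IsAlgebraic (IntermediateField.adjoin P {x}) g)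
    (hx : ∃ x' : X, algebraMap X N x' = x)
    (hS : ∀ e ∈ S, ∃ e' : P, algebraMap P N e' = e) (hfar : ∀ e ∈ S, 1 ≤ w (x - e)) {a b : N}
    (ha : a ∈ S) (hb : b ∈ S) (hne : a ≠ b) : ρ * w (hh x a b) ≤ w (algebraMap X N t) := by
  rw [val_hh (h.sub_eq hS ha hb hne)]
  rcases lt_or_ge 1 (w x) with h1 | h1
  · -- a pole of `x`
    have h0 : w x ≠ 0 := (zero_lt_one.trans h1).ne'
    have h2 : ∀ e ∈ S, w (x - e) = w x := fun e he =>
      Valuation.map_sub_eq_of_lt_left w (lt_of_le_of_lt (h.le_one hS he) h1)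
    rw [h2 a ha, h2 b hb]
    obtain ⟨x', hx'⟩ := hx
    have h3 : w (algebraMap X N x'⁻¹) ≤ w (algebraMap X N t) := by
      refine h.le _ ?_
      rw [map_inv₀, hx', map_inv₀]
      exact inv_lt_one_of_one_lt₀ h1
    rw [map_inv₀, hx', map_inv₀] at h3
    have h4 : ρ ≤ w x := by
      have h5 := h.rho_le hS ha
      rwa [h2 a ha] at h5
    refine le_trans ?_ h3
    calc ρ * (w x * w x)⁻¹ ≤ w x * (w x * w x)⁻¹ := mul_le_mul' h4 le_rfl
      _ = (w x)⁻¹ := by
        rw [mul_inv, ← mul_assoc, mul_inv_cancel₀ h0, one_mul]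
  · -- `x` is regular
    have h2 : ∀ e ∈ S, w (x - e) = 1 := fun e he =>
      le_antisymm (Valuation.map_sub_le w h1 (h.le_one hS he)) (hfar e he)
    rw [h2 a ha, h2 b hb, mul_one, inv_one, mul_one]
    have hnt : ∃ z : N, z ≠ 0 ∧ w z ≠ 1 := by
      refine ⟨algebraMap X N t, ?_, h.lt.ne⟩
      rw [Ne, map_eq_zero]
      exact h.ne
    have h3 := Ell.PlaceAux.rho_lt_one h.triv hnt halg h1 D h.norm.dx h.norm.le
    obtain ⟨J, hJ⟩ := h.mem
    rw [hJ] at h3 ⊢
    exact h.le J h3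

theorem At.near (h : At P X w x D ρ t) (hS : ∀ e ∈ S, ∃ e' : P, algebraMap P N e' = e) {e : N}
    (he : e ∈ S) (hlt : w (x - e) < 1) {a : N} (ha : a ∈ S) (hne : a ≠ e) : w (x - a) = 1 := by
  have h1 : x - a = (e - a) + (x - e) := by ring
  rw [h1, Valuation.map_add_eq_of_lt_left w, h.sub_eq hS he ha hne.symm]
  rw [h.sub_eq hS he ha hne.symm]
  exact hlt

theorem At.pair (h : At P X w x D ρ t) (hS : ∀ e ∈ S, ∃ e' : P, algebraMap P N e' = e) {e : N}
    (he : e ∈ S) (hlt : w (x - e) < 1) {a b : N} (ha : a ∈ S) (hb : b ∈ S) (hne : a ≠ b) :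
    ρ * w (hh x a b) ≤ if a = e ∨ b = e then 1 else w (x - e) := by
  set u := w (x - e) with hu
  have hρu : ρ ≤ u := h.rho_le hS he
  rw [val_hh (h.sub_eq hS ha hb hne)]
  by_cases h1 : a = e
  · have h2 : b ≠ e := fun h' => hne (h1.trans h'.symm)
    rw [if_pos (Or.inl h1), h1, h.near hS he hlt hb h2, mul_one, ← hu]
    rcases eq_or_ne u 0 with h0 | h0
    · rw [h0, inv_zero, mul_zero]
      exact zero_le_one
    · calc ρ * u⁻¹ ≤ u * u⁻¹ := mul_le_mul' hρu le_rfl
        _ = 1 := mul_inv_cancel₀ h0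
  · by_cases h2 : b = e
    · rw [if_pos (Or.inr h2), h2, h.near hS he hlt ha h1, one_mul, ← hu]
      rcases eq_or_ne u 0 with h0 | h0
      · rw [h0, inv_zero, mul_zero]
        exact zero_le_one
      · calc ρ * u⁻¹ ≤ u * u⁻¹ := mul_le_mul' hρu le_rfl
          _ = 1 := mul_inv_cancel₀ h0
    · rw [if_neg (by simp [h1, h2]), h.near hS he hlt ha h1, h.near hS he hlt hb h2, mul_one,
        inv_one, mul_one]
      exact hρu

theorem At.GG_le [CharZero P] (h : At P X w x D ρ t)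
    (halg : ∀ g : N, IsAlgebraic (IntermediateField.adjoin P {x}) g) (hx : ∃ x' : X, algebraMap X N x' = x)
    (hS : ∀ e ∈ S, ∃ e' : P, algebraMap P N e' = e) (hW : Weights S r m) (hr : ∀ e ∈ S, 2 ≤ r e)
    (hram : ∀ e ∈ S, w (x - e) < 1 → w (x - e) ≤ w (algebraMap X N t) ^ r e) :
    ρ ^ MG S m * w (GG S m x) ≤ w (algebraMap X N t) ^ MG S m := by
  by_cases hfar : ∀ e ∈ S, 1 ≤ w (x - e)
  · exact GG_of fun a ha b hb hne => h.far halg hx hS hfar ha hb hne
  push Not at hfar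
  obtain ⟨e, he, hlt⟩ := hfar
  set u := w (x - e) with hu
  have h1 : ρ ^ MG S m * w (GG S m x) ≤
      u ^ ∑ p ∈ S.offDiag, (if p.1 = e ∨ p.2 = e then 0 else m p.1 p.2) := by
    rw [MG, GG, map_prod, ← Finset.prod_pow_eq_pow_sum, ← Finset.prod_pow_eq_pow_sum,
      ← Finset.prod_mul_distrib]
    refine Finset.prod_le_prod' fun p hp => ?_
    rw [map_pow, ← mul_pow]
    obtain ⟨ha, hb, hne⟩ := Finset.mem_offDiag.1 hp
    have h2 := h.pair hS he hlt ha hb hne
    by_cases h3 : p.1 = e ∨ p.2 = e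
    · rw [if_pos h3] at h2 ⊢
      rw [pow_zero]
      exact pow_le_one' h2 _
    · rw [if_neg h3] at h2 ⊢
      exact pow_le_pow_left' h2 _
  refine h1.trans ?_
  set A := ∑ p ∈ S.offDiag, (if p.1 = e ∨ p.2 = e then 0 else m p.1 p.2) with hA
  have h2 : MG S m = A + 2 * DG S m e := MG_split hW he
  have h3 : u ≤ w (algebraMap X N t) ^ r e := hram e he hlt
  have h4 := hW.le e he
  have hr2 := hr e he
  have h5 : MG S m ≤ r e * A := by
    obtain ⟨r', hr'⟩ : ∃ r', r e = r' + 1 := ⟨r e - 1, by omega⟩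
    rw [hr'] at h4 ⊢
    rw [Nat.add_sub_cancel] at h4
    nlinarith
  calc u ^ A ≤ (w (algebraMap X N t) ^ r e) ^ A := pow_le_pow_left' h3 _
    _ = w (algebraMap X N t) ^ (r e * A) := (pow_mul _ _ _).symm
    _ ≤ w (algebraMap X N t) ^ MG S m := pow_le_pow_right_of_le_one' h.lt.le h5

theorem At.TT_le [CharZero P] (h : At P X w x D ρ t)
    (halg : ∀ g : N, IsAlgebraic (IntermediateField.adjoin P {x}) g) (hx : ∃ x' : X, algebraMap X N x' = x)
    (hS : ∀ e ∈ S, ∃ e' : P, algebraMap P N e' = e) (hr : ∀ e ∈ S, 2 ≤ r e)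
    (hram : ∀ e ∈ S, w (x - e) < 1 → w (x - e) ≤ w (algebraMap X N t) ^ r e) {c : N} (hc : w c ≤ 1) :
    ρ ^ MT S * w (TT S x c) ≤ w (algebraMap X N t) ^ MT S := by
  set v := w (algebraMap X N t) with hv
  -- two forms with disjoint poles
  have key : ∀ a ∈ S, ∀ b ∈ S, ∀ a' ∈ S, ∀ b' ∈ S, a ≠ b → a' ≠ b' → a ≠ a' → a ≠ b' → b ≠ a' →
      b ≠ b' → ρ ^ 2 * (w (hh x a b) * w (hh x a' b')) ≤ v ^ 2 := by
    intro a ha b hb a' ha' b' hb' h1 h2 h3 h4 h5 h6
    have hmul : ρ ^ 2 * (w (hh x a b) * w (hh x a' b')) =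
        (ρ * w (hh x a b)) * (ρ * w (hh x a' b')) := by
      rw [pow_two, mul_mul_mul_comm]
    rw [hmul]
    by_cases hfar : ∀ e ∈ S, 1 ≤ w (x - e)
    · rw [pow_two]
      exact mul_le_mul' (h.far halg hx hS hfar ha hb h1) (h.far halg hx hS hfar ha' hb' h2)
    push Not at hfar
    obtain ⟨e, he, hlt⟩ := hfar
    have hu : w (x - e) ≤ v ^ 2 :=
      (hram e he hlt).trans (pow_le_pow_right_of_le_one' h.lt.le (hr e he))
    have e1 := h.pair hS he hlt ha hb h1
    have e2 := h.pair hS he hlt ha' hb' h2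
    refine le_trans ?_ hu
    by_cases hab : a = e ∨ b = e
    · have hab' : ¬(a' = e ∨ b' = e) := by
        rintro (h7 | h7)
        · rcases hab with h8 | h8
          · exact h3 (h8.trans h7.symm)
          · exact h5 (h8.trans h7.symm)
        · rcases hab with h8 | h8
          · exact h4 (h8.trans h7.symm)
          · exact h6 (h8.trans h7.symm)
      rw [if_pos hab] at e1
      rw [if_neg hab'] at e2
      calc _ ≤ 1 * w (x - e) := mul_le_mul' e1 e2
        _ = _ := one_mul _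
    · rw [if_neg hab] at e1
      have e2' : ρ * w (hh x a' b') ≤ 1 := by
        refine e2.trans ?_
        split_ifs
        · exact le_rfl
        · exact hlt.le
      calc _ ≤ w (x - e) * 1 := mul_le_mul' e1 e2'
        _ = _ := mul_one _
  refine TT_of fun i j l s hq => ?_
  simp only [quads, Finset.mem_filter, Finset.mem_product] at hq
  obtain ⟨⟨hi, hj, hl, hs⟩, hij, hil, his, hjl, hjs, hls⟩ := hq
  have k1 := key s hs j hj l hl i hi hjs.symm hil.symm hls.symm his.symm hjl hij.symm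
  have k2 := key s hs i hi l hl j hj his.symm hjl.symm hls.symm hjs.symm hil hij
  rcases le_total (w (hh x s j) * w (hh x l i)) (w (hh x s i) * w (hh x l j)) with h1 | h1
  · exact (mul_le_mul' le_rfl (tq_le hc le_rfl le_rfl le_rfl le_rfl h1 le_rfl)).trans k2
  · exact (mul_le_mul' le_rfl (tq_le hc le_rfl le_rfl le_rfl le_rfl le_rfl h1)).trans k1

end hor

end Pf72953.Pl
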