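import Mathlib
import Pool.Agent.Lib.Pf72953n.Defs2
import Pool.Agent.Lib.Pf72953b.GalConj
import Pool.Agent.Lib.Pf72953.Orb

/-!
Galois covers of the projective line: the ramification index over a rational point.
-/

set_option autoImplicit false
set_option linter.style.haveILetI false

open scoped WithZero Polynomial
open Pf72953

namespace Pf72953.Pl

section idx
variable {K N : Type*} [Field K] [CharZero K] [Field N] [Algebra K N]

omit [CharZero K] in
/-- the value of a polynomial in `x` at a valuation centred at `x = e` -/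
theorem val_aeval {u : Valuation N ℤᵐ⁰} (hu : ∀ a : K, a ≠ 0 → u (algebraMap K N a) = 1) {x : N}
    {e : K} (hx : u (x - algebraMap K N e) < 1) {p : K[X]} (hp : p ≠ 0) :
    u (Polynomial.aeval x p) = u (x - algebraMap K N e) ^ p.rootMultiplicity e := by
  have hu1 : ∀ a : K, u (algebraMap K N a) ≤ 1 := by
    intro a
    rcases eq_or_ne a 0 with rfl | ha
    · simp
    · exact (hu a ha).le
  have hxe : u x ≤ 1 := by
    have h1 : x = (x - algebraMap K N e) + algebraMap K N e := by ring
    rw [h1]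
    exact (u.map_add _ _).trans (max_le hx.le (hu1 e))
  have hle : ∀ q : K[X], u (Polynomial.aeval x q) ≤ 1 := by
    intro q
    rw [Polynomial.aeval_eq_sum_range]
    refine Valuation.map_sum_le u fun i _ => ?_
    rw [Algebra.smul_def, map_mul, map_pow]
    exact mul_le_one' (hu1 _) (pow_le_one' hxe i)
  obtain ⟨q, hq, hqe⟩ := Polynomial.exists_eq_pow_rootMultiplicity_mul_and_not_dvd p hp e
  have hq1 : u (Polynomial.aeval x q) = 1 := by
    have h1 : q.eval e ≠ 0 := fun h => hqe (Polynomial.dvd_iff_isRoot.2 h)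
    have h2 : (Polynomial.X - Polynomial.C e) ∣ q - Polynomial.C (q.eval e) := by
      rw [Polynomial.dvd_iff_isRoot]
      simp
    obtain ⟨s, hs⟩ := h2
    have h3 : q = Polynomial.C (q.eval e) + (Polynomial.X - Polynomial.C e) * s := by
      rw [← hs]; ring
    have h4 : Polynomial.aeval x q = algebraMap K N (q.eval e) +
        (x - algebraMap K N e) * Polynomial.aeval x s := by
      conv_lhs => rw [h3]
      simp
    rw [h4, u.map_add_eq_of_lt_left, hu _ h1]
    rw [hu _ h1, map_mul]
    exact (mul_le_of_le_one_right' (hle s)).trans_lt hx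
  conv_lhs => rw [hq]
  rw [map_mul, map_mul, hq1, mul_one, map_pow, map_pow]
  simp

omit [CharZero K] in
/-- two valuations centred at `x = e` have the same valuation ring on `K(x)` -/
theorem le_one_iff_of_center {u u' : Valuation N ℤᵐ⁰}
    (hu : ∀ a : K, a ≠ 0 → u (algebraMap K N a) = 1)
    (hu' : ∀ a : K, a ≠ 0 → u' (algebraMap K N a) = 1) {x : N} (hx : Transcendental K x) {e : K}
    (hxu : u (x - algebraMap K N e) < 1) (hxu' : u' (x - algebraMap K N e) < 1)
    (z : IntermediateField.adjoin K {x}) : u (z : N) ≤ 1 ↔ u' (z : N) ≤ 1 := by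
  have hxe : x - algebraMap K N e ≠ 0 := by
    intro h
    apply hx
    rw [sub_eq_zero.1 h]
    exact isAlgebraic_algebraMap e
  obtain ⟨p, q, hpq⟩ := (IntermediateField.mem_adjoin_simple_iff K (z : N)).1 z.2
  rcases eq_or_ne p 0 with rfl | hp
  · rw [hpq]; simp
  rcases eq_or_ne q 0 with rfl | hq
  · rw [hpq]; simp
  have key : ∀ u : Valuation N ℤᵐ⁰, (∀ a : K, a ≠ 0 → u (algebraMap K N a) = 1) →
      u (x - algebraMap K N e) < 1 →
      (u (z : N) ≤ 1 ↔ q.rootMultiplicity e ≤ p.rootMultiplicity e) := by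
    intro u hu hxu
    have h0 : 0 < u (x - algebraMap K N e) := zero_lt_iff.2 ((Valuation.ne_zero_iff u).2 hxe)
    rw [hpq, map_div₀, val_aeval hu hxu hp, val_aeval hu hxu hq, div_le_one₀ (pow_pos h0 _)]
    constructor
    · intro h
      by_contra hc
      rw [not_le] at hc
      exact absurd h (not_le.2 (pow_lt_pow_right_of_lt_one₀ h0 hxu hc))
    · intro h
      exact pow_le_pow_right_of_le_one' hxu.le h
  rw [key u hu hxu, key u' hu' hxu']

omit [CharZero K] in
theorem exists_index {x : N} (hx : Transcendental K x)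
    [FiniteDimensional (IntermediateField.adjoin K {x}) N] [IsGalois (IntermediateField.adjoin K {x}) N]
    (e : K) (he : ∀ u : Valuation N ℤᵐ⁰, (∀ a : K, a ≠ 0 → u (algebraMap K N a) = 1) →
      u (x - algebraMap K N e) < 1 → ¬ Br.Unr (IntermediateField.adjoin K {x}) u) :
    ∃ r : ℕ, 2 ≤ r ∧ IsIdx K x (algebraMap K N e) r := by
  by_cases hex : ∃ u : Valuation N ℤᵐ⁰, (∀ a : K, a ≠ 0 → u (algebraMap K N a) = 1) ∧
      u (x - algebraMap K N e) < 1
  swap
  · push Not at hex
    exact ⟨2, le_rfl, fun u hu hxu => absurd hxu (not_lt.2 (hex u hu))⟩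
  obtain ⟨u₀, hu₀, hxu₀⟩ := hex
  have hxe : x - algebraMap K N e ≠ 0 := by
    intro h
    apply hx
    rw [sub_eq_zero.1 h]
    exact isAlgebraic_algebraMap e
  obtain ⟨t₀, ht₀⟩ := exists_unif u₀ ⟨_, hxe, hxu₀.ne⟩
  obtain ⟨r, hr⟩ := ht₀.exists_pow hxe hxu₀.le
  have hr2 : 2 ≤ r := by
    by_contra hc
    have h1 : r = 0 ∨ r = 1 := by omega
    rcases h1 with rfl | rfl
    · rw [pow_zero] at hr
      exact hxu₀.ne hr
    · rw [pow_one] at hr
      refine he u₀ hu₀ hxu₀ fun z hz => ?_
      refine ⟨⟨x - algebraMap K N e, sub_mem (IntermediateField.mem_adjoin_simple_self K x)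
        (IntermediateField.algebraMap_mem _ e)⟩, hxu₀, ?_⟩
      show u₀ z ≤ u₀ (x - algebraMap K N e)
      rw [hr]
      exact ht₀.le z hz
  refine ⟨r, hr2, fun u hu hxu => ?_⟩
  obtain ⟨σ, hσ⟩ := Br.exists_conj (Z := IntermediateField.adjoin K {x}) (w := u₀) (w' := u)
    fun z => le_one_iff_of_center hu₀ hu hx hxu₀ hxu z
  have heq : (u₀.comap (σ : N →+* N)).IsEquiv u := by
    rw [Valuation.isEquiv_iff_val_le_one]
    intro x
    exact hσ x
  have hle : ∀ a b : N, u a ≤ u b ↔ u₀ (σ a) ≤ u₀ (σ b) := fun a b => (heq a b).symm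
  have hlt : ∀ a b : N, u a < u b ↔ u₀ (σ a) < u₀ (σ b) := fun a b => by
    rw [← not_le, ← not_le, hle]
  have hxs : σ (x - algebraMap K N e) = x - algebraMap K N e := by
    have h1 := σ.commutes ⟨x - algebraMap K N e, sub_mem
      (IntermediateField.mem_adjoin_simple_self K x) (IntermediateField.algebraMap_mem _ e)⟩
    exact h1
  have hst : σ (σ.symm t₀) = t₀ := σ.apply_symm_apply t₀
  refine ⟨σ.symm t₀, ?_, fun g hg => ?_, ?_⟩
  · rw [← map_one u, hlt, hst, map_one, map_one]
    exact ht₀.lt_one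
  · rw [hle, hst]
    rw [← map_one u, hlt, map_one, map_one] at hg
    exact ht₀.le _ hg
  · rw [← map_pow]
    refine le_antisymm ?_ ?_
    · rw [hle, hxs, map_pow, hst, map_pow, hr]
    · rw [hle, hxs, map_pow, hst, map_pow, hr]

end idx

end Pf72953.Pl
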