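import Mathlib
import Pool.Agent.Lib.Pf72953n.Defs2

/-!
Galois covers of `ℙ¹`-bundles: conjugate branch points have the same index; the forms are not zero.
-/

set_option autoImplicit false

open scoped WithZero

namespace Pf72953.Pl

theorem IsIdx.map {K N : Type*} [Field K] [Field N] [Algebra K N] (φ : N ≃+* N)
    (hK : ∀ a : K, ∃ b : K, φ (algebraMap K N a) = algebraMap K N b)
    (_hK' : ∀ a : K, ∃ b : K, φ.symm (algebraMap K N a) = algebraMap K N b) {x e : N}
    (hx : φ x = x) {r : ℕ} (h : IsIdx K x e r) : IsIdx K x (φ e) r := by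
  intro u hu hlt
  have hv : ∀ z : N, (u.comap (φ : N →+* N)) z = u (φ z) := fun z => rfl
  have h1 : ∀ a : K, a ≠ 0 → (u.comap (φ : N →+* N)) (algebraMap K N a) = 1 := by
    intro a ha
    obtain ⟨b, hb⟩ := hK a
    rw [hv, hb]
    apply hu
    rintro rfl
    rw [map_zero, map_eq_zero_iff φ φ.injective, map_eq_zero] at hb
    exact ha hb
  have h2 : (u.comap (φ : N →+* N)) (x - e) = u (x - φ e) := by rw [hv, map_sub, hx]
  obtain ⟨t, ht1, ht2, ht3⟩ := h _ h1 (by rw [h2]; exact hlt)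
  refine ⟨φ t, ht1, fun g hg => ?_, ?_⟩
  · have h3 := ht2 (φ.symm g) (by rw [hv, φ.apply_symm_apply]; exact hg)
    rw [hv, hv, φ.apply_symm_apply] at h3
    exact h3
  · rw [h2, hv] at ht3
    exact ht3

variable {P N : Type*} [Field P] [Field N] [Algebra P N] [DecidableEq N]

omit [DecidableEq N] in
theorem sub_ne_of_trans {e x : N} (he : ∃ e' : P, algebraMap P N e' = e) (hx : Transcendental P x) :
    x - e ≠ 0 := by
  obtain ⟨e', rfl⟩ := he
  intro h
  rw [sub_eq_zero] at h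
  exact hx (h ▸ isAlgebraic_algebraMap e')

theorem GG_ne {S : Finset N} (hS : ∀ e ∈ S, ∃ e' : P, algebraMap P N e' = e) (m : N → N → ℕ) {x : N}
    (hx : Transcendental P x) : GG S m x ≠ 0 := by
  unfold GG
  refine Finset.prod_ne_zero_iff.2 fun p hp => pow_ne_zero _ ?_
  rw [Finset.mem_offDiag] at hp
  unfold hh
  exact div_ne_zero (sub_ne_zero.2 hp.2.2) (mul_ne_zero (sub_ne_of_trans (hS _ hp.1) hx)
    (sub_ne_of_trans (hS _ hp.2.1) hx))

theorem TT_ne {S : Finset N} (hS : ∀ e ∈ S, ∃ e' : P, algebraMap P N e' = e) {x c : N}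
    (hx : Transcendental P x) (hc : ∀ i ∈ S, ∀ j ∈ S, ∀ l ∈ S, ∀ s ∈ S, c ≠ xc s i j l) :
    TT S x c ≠ 0 := by
  unfold TT
  refine Finset.prod_ne_zero_iff.2 fun q hq => ?_
  obtain ⟨i, j, l, s⟩ := q
  unfold quads at hq
  simp only [Finset.mem_filter, Finset.mem_product] at hq
  obtain ⟨⟨hi, hj, hl, hs⟩, hij, hil, his, hjl, hjs, hls⟩ := hq
  simp only
  have h1 := sub_ne_of_trans (hS _ hi) hx
  have h2 := sub_ne_of_trans (hS _ hj) hx
  have h3 := sub_ne_of_trans (hS _ hl) hx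
  have h4 := sub_ne_of_trans (hS _ hs) hx
  have h5 : s - j ≠ 0 := sub_ne_zero.2 (Ne.symm hjs)
  have h6 : l - i ≠ 0 := sub_ne_zero.2 (Ne.symm hil)
  intro h0
  apply hc i hi j hj l hl s hs
  unfold xc
  rw [eq_div_iff (mul_ne_zero h5 h6)]
  unfold tq hh at h0
  rw [sub_eq_zero] at h0
  field_simp at h0
  linear_combination h0

end Pf72953.Pl
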