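import Mathlib
import Pool.Agent.Lib.Pf72953n.Defs2
import Pool.Agent.Lib.Pf72953e.Place

/-!
The estimate of a form `F (dx)^M` at a place of the generic fibre, the order of its pole at `e ∈ S` being at most
`(1 - 1/r(e)) M`.
-/

set_option autoImplicit false

open scoped WithZero
open Pf72953

namespace Pf72953.Pl

section form
variable {P X N : Type*} [Field P] [Field X] [Field N] [Algebra P N] [Algebra X N]
  {w : Valuation N ℤᵐ⁰} {x : N} {D : Derivation P N N} {ρ : ℤᵐ⁰} {t : X}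

/-- `ρ ≤ w (x - e)` -/
theorem RelNorm.rho_le (h : RelNorm P w x D ρ) (e : P) : ρ ≤ w (x - algebraMap P N e) := by
  have h1 := h.le (x - algebraMap P N e)
  rwa [map_sub, h.dx, Derivation.map_algebraMap, sub_zero, map_one, one_mul] at h1

/-- `ρ ≤ w x` -/
theorem RelNorm.rho_le_self (h : RelNorm P w x D ρ) : ρ ≤ w x := by
  have h1 := h.le x
  rwa [h.dx, map_one, one_mul] at h1

theorem At.nontriv (h : At P X w x D ρ t) : ∃ z : N, z ≠ 0 ∧ w z ≠ 1 :=
  ⟨algebraMap X N t, (map_ne_zero _).2 h.ne, h.lt.ne⟩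

/-- the form `dx` has no pole where `w x ≤ 1` -/
theorem At.rho_lt [CharZero P] (h : At P X w x D ρ t)
    (halg : ∀ g : N, IsAlgebraic (IntermediateField.adjoin P {x}) g) (hx1 : w x ≤ 1) : ρ < 1 :=
  Ell.PlaceAux.rho_lt_one h.triv h.nontriv halg hx1 D h.norm.dx h.norm.le

theorem At.rho_le_t [CharZero P] (h : At P X w x D ρ t)
    (halg : ∀ g : N, IsAlgebraic (IntermediateField.adjoin P {x}) g) (hx1 : w x ≤ 1) :
    ρ ≤ w (algebraMap X N t) := by
  obtain ⟨J, hJ⟩ := h.mem
  have h1 := h.rho_lt halg hx1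
  rw [hJ] at h1 ⊢
  exact h.le J h1

theorem At.form_le [CharZero P] (h : At P X w x D ρ t)
    (halg : ∀ g : N, IsAlgebraic (IntermediateField.adjoin P {x}) g)
    (hx : ∃ x' : X, algebraMap X N x' = x) {S : Finset N} {r : N → ℕ}
    (hS : ∀ e ∈ S, ∃ e' : P, algebraMap P N e' = e) (hr : ∀ e ∈ S, 1 ≤ r e)
    (hram : ∀ e ∈ S, w (x - e) < 1 → w (x - e) ≤ w (algebraMap X N t) ^ r e)
    {F : N} {M : ℕ} {o : N → ℕ} (ho : ∀ e ∈ S, o e * r e ≤ M * (r e - 1))
    (hinf : 1 < w x → w F * w x ^ (2 * M) ≤ 1)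
    (haway : w x ≤ 1 → (∀ e ∈ S, w (x - e) = 1) → w F ≤ 1)
    (hat : ∀ e ∈ S, w (x - e) < 1 → w F * w (x - e) ^ o e ≤ 1) :
    ρ ^ M * w F ≤ w (algebraMap X N t) ^ M := by
  have hele : ∀ e ∈ S, w e ≤ 1 := by
    intro e he
    obtain ⟨e', rfl⟩ := hS e he
    exact Ell.PlaceAux.le_one h.triv e'
  rcases lt_or_ge 1 (w x) with hx1 | hx1
  · -- at infinity
    obtain ⟨x', hx'⟩ := hx
    have hw0 : w x ≠ 0 := (zero_lt_one.trans hx1).ne'
    have hinv : (w x)⁻¹ ≤ w (algebraMap X N t) := by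
      have h1 : w (algebraMap X N x'⁻¹) < 1 := by
        rw [map_inv₀, map_inv₀, hx']
        exact inv_lt_one_of_one_lt₀ hx1
      have h2 := h.le _ h1
      rwa [map_inv₀, map_inv₀, hx'] at h2
    have hρ := h.norm.rho_le_self
    calc ρ ^ M * w F ≤ w x ^ M * w F := by gcongr
      _ = (w F * w x ^ (2 * M)) * ((w x)⁻¹) ^ M := by
        rw [two_mul, pow_add, inv_pow]
        field_simp
      _ ≤ 1 * (w (algebraMap X N t)) ^ M := by
        gcongr
        exact hinf hx1
      _ = w (algebraMap X N t) ^ M := one_mul _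
  · by_cases hc : ∃ e ∈ S, w (x - e) < 1
    · obtain ⟨e, he, hlt⟩ := hc
      have hoe := ho e he
      have hre := hr e he
      have hoM : o e ≤ M := by
        have h1 : o e * r e ≤ M * r e := hoe.trans (Nat.mul_le_mul_left _ (Nat.sub_le _ _))
        exact Nat.le_of_mul_le_mul_right h1 (by omega)
      have hMr : M ≤ r e * (M - o e) := by
        obtain ⟨s, hs⟩ : ∃ s, r e = s + 1 := ⟨r e - 1, by omega⟩
        obtain ⟨u, hu⟩ : ∃ u, M = u + o e := ⟨M - o e, by omega⟩
        rw [hs, hu] at hoe ⊢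
        simp only [Nat.add_sub_cancel] at hoe ⊢
        nlinarith
      have hρ : ρ ≤ w (x - e) := by
        obtain ⟨e', he'⟩ := hS e he
        rw [← he']
        exact h.norm.rho_le e'
      calc ρ ^ M * w F ≤ w (x - e) ^ M * w F := by gcongr
        _ = (w F * w (x - e) ^ o e) * w (x - e) ^ (M - o e) := by
          rw [mul_assoc, ← pow_add, Nat.add_sub_cancel' hoM, mul_comm]
        _ ≤ 1 * (w (algebraMap X N t) ^ r e) ^ (M - o e) := by
          gcongr
          · exact hat e he hlt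
          · exact hram e he hlt
        _ = w (algebraMap X N t) ^ (r e * (M - o e)) := by rw [one_mul, pow_mul]
        _ ≤ w (algebraMap X N t) ^ M := pow_le_pow_right_of_le_one' h.lt.le hMr
    · have h1 : ∀ e ∈ S, w (x - e) = 1 := by
        intro e he
        refine le_antisymm ?_ (not_lt.1 fun hlt => hc ⟨e, he, hlt⟩)
        exact (Valuation.map_sub w _ _).trans (max_le hx1 (hele e he))
      have hρ := h.rho_le_t halg hx1
      calc ρ ^ M * w F ≤ w (algebraMap X N t) ^ M * 1 := by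
            gcongr
            exact haway hx1 h1
        _ = w (algebraMap X N t) ^ M := mul_one _

end form

end Pf72953.Pl
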