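import Mathlib
import Pool.Agent.Lib.Pf72953n.Form
import Pool.Agent.Lib.Pf72953n.Hor
import Pool.Agent.Lib.Pf72953n.Eta

/-!
The forms `GG`, `TT` and a third form `GG ^ d q` descend to `X`.
-/

set_option autoImplicit false

open scoped WithZero Polynomial
open Pf72953

namespace Pf72953.Pl

section galois

variable {X N : Type*} [Field X] [Field N] [Algebra X N]

lemma map_hh (σ : N ≃ₐ[X] N) (x a b : N) : σ (hh x a b) = hh (σ x) (σ a) (σ b) := by
  unfold hh
  simp only [map_div₀, map_mul, map_sub]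

lemma map_xc (σ : N ≃ₐ[X] N) (x i j l : N) :
    σ (xc x i j l) = xc (σ x) (σ i) (σ j) (σ l) := by
  unfold xc
  simp only [map_div₀, map_mul, map_sub]

lemma map_tq (σ : N ≃ₐ[X] N) (x c i j l s : N) :
    σ (tq x c i j l s) = tq (σ x) (σ c) (σ i) (σ j) (σ l) (σ s) := by
  unfold tq
  simp only [map_sub, map_mul, map_hh]

lemma symm_mem {S : Finset N} (hS : ∀ σ : N ≃ₐ[X] N, ∀ e ∈ S, σ e ∈ S) (σ : N ≃ₐ[X] N) :
    ∀ e ∈ S, σ.symm e ∈ S := hS σ.symm

variable [DecidableEq N] [FiniteDimensional X N] [IsGalois X N] {S : Finset N} {m : N → N → ℕ}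
  {x : X}

theorem exists_GG (hS : ∀ σ : N ≃ₐ[X] N, ∀ e ∈ S, σ e ∈ S)
    (hm : ∀ σ : N ≃ₐ[X] N, ∀ a ∈ S, ∀ b ∈ S, m (σ a) (σ b) = m a b) :
    ∃ G : X, algebraMap X N G = GG S m (algebraMap X N x) := by
  have key : GG S m (algebraMap X N x) ∈ Set.range (algebraMap X N) := by
    rw [IsGalois.mem_range_algebraMap_iff_fixed]
    intro σ
    unfold GG
    rw [map_prod]
    refine Finset.prod_nbij' (fun p => (σ p.1, σ p.2)) (fun p => (σ.symm p.1, σ.symm p.2))
      ?_ ?_ ?_ ?_ ?_
    · intro p hp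
      rw [Finset.mem_offDiag] at hp ⊢
      exact ⟨hS σ _ hp.1, hS σ _ hp.2.1, fun h => hp.2.2 (σ.injective h)⟩
    · intro p hp
      rw [Finset.mem_offDiag] at hp ⊢
      exact ⟨hS σ.symm _ hp.1, hS σ.symm _ hp.2.1, fun h => hp.2.2 (σ.symm.injective h)⟩
    · intro p _
      simp
    · intro p _
      simp
    · intro p hp
      rw [Finset.mem_offDiag] at hp
      simp only [map_pow, map_hh, AlgEquiv.commutes]
      rw [hm σ _ hp.1 _ hp.2.1]
  exact key

theorem exists_TT (hS : ∀ σ : N ≃ₐ[X] N, ∀ e ∈ S, σ e ∈ S) (c : X) :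
    ∃ T : X, algebraMap X N T = TT S (algebraMap X N x) (algebraMap X N c) := by
  have key : TT S (algebraMap X N x) (algebraMap X N c) ∈ Set.range (algebraMap X N) := by
    rw [IsGalois.mem_range_algebraMap_iff_fixed]
    intro σ
    unfold TT
    rw [map_prod]
    refine Finset.prod_nbij' (fun q => (σ q.1, σ q.2.1, σ q.2.2.1, σ q.2.2.2))
      (fun q => (σ.symm q.1, σ.symm q.2.1, σ.symm q.2.2.1, σ.symm q.2.2.2)) ?_ ?_ ?_ ?_ ?_
    · intro q hq
      rw [mem_quads] at hq ⊢
      obtain ⟨⟨h1, h2, h3, h4⟩, h5, h6, h7, h8, h9, h10⟩ := hq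
      exact ⟨⟨hS σ _ h1, hS σ _ h2, hS σ _ h3, hS σ _ h4⟩, fun h => h5 (σ.injective h),
        fun h => h6 (σ.injective h), fun h => h7 (σ.injective h), fun h => h8 (σ.injective h),
        fun h => h9 (σ.injective h), fun h => h10 (σ.injective h)⟩
    · intro q hq
      rw [mem_quads] at hq ⊢
      obtain ⟨⟨h1, h2, h3, h4⟩, h5, h6, h7, h8, h9, h10⟩ := hq
      exact ⟨⟨hS σ.symm _ h1, hS σ.symm _ h2, hS σ.symm _ h3, hS σ.symm _ h4⟩,
        fun h => h5 (σ.symm.injective h),
        fun h => h6 (σ.symm.injective h), fun h => h7 (σ.symm.injective h),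
        fun h => h8 (σ.symm.injective h),
        fun h => h9 (σ.symm.injective h), fun h => h10 (σ.symm.injective h)⟩
    · intro q _
      simp
    · intro q _
      simp
    · intro q _
      simp only [map_tq, AlgEquiv.commutes]
  exact key

/-- the coefficients of the product over the Galois group -/
theorem coeff_mem (y : N) (n : ℕ) :
    ∃ q : X, algebraMap X N q = (∏ τ : N ≃ₐ[X] N, (Polynomial.X - Polynomial.C (τ y))).coeff n := by
  have key : (∏ τ : N ≃ₐ[X] N, (Polynomial.X - Polynomial.C (τ y))).coeff n ∈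
      Set.range (algebraMap X N) := by
    rw [IsGalois.mem_range_algebraMap_iff_fixed]
    intro σ
    have h1 : (∏ τ : N ≃ₐ[X] N, (Polynomial.X - Polynomial.C (τ y))).map (σ : N →+* N) =
        ∏ τ : N ≃ₐ[X] N, (Polynomial.X - Polynomial.C (τ y)) := by
      rw [Polynomial.map_prod]
      refine Fintype.prod_equiv (Equiv.mulLeft σ) _ _ ?_
      intro τ
      simp
    have h2 := congrArg (fun p => p.coeff n) h1
    simp only [Polynomial.coeff_map] at h2
    exact h2
  exact key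

end galois

section coeff

variable {Q N : Type*} [Field Q] [Field N] [Algebra Q N]

/-- the Gauss norm of a product -/
theorem coeff_prod_le {ι : Type*} (w : Valuation N ℤᵐ⁰) (r c : ℤᵐ⁰) (s : Finset ι)
    (p : ι → N[X]) (h : ∀ i ∈ s, ∀ n, r * w ((p i).coeff n) ≤ c) (n : ℕ) :
    r ^ s.card * w ((∏ i ∈ s, p i).coeff n) ≤ c ^ s.card := by
  classical
  induction s using Finset.induction_on generalizing n with
  | empty =>
    rw [Finset.card_empty, pow_zero, pow_zero, one_mul, Finset.prod_empty, Polynomial.coeff_one]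
    split
    · rw [map_one]
    · rw [map_zero]
      exact zero_le
  | insert a s ha ih =>
    rw [Finset.card_insert_of_notMem ha, Finset.prod_insert ha, Polynomial.coeff_mul]
    have ih' := ih fun i hi n => h i (Finset.mem_insert_of_mem hi) n
    have ha' := h a (Finset.mem_insert_self a s)
    rcases eq_or_ne r 0 with hr | hr
    · rw [hr, pow_succ, mul_zero, zero_mul]
      exact zero_le
    · have hr' : r ^ (s.card + 1) ≠ 0 := pow_ne_zero _ hr
      rw [← le_div_iff₀' (zero_lt_iff.2 hr')]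
      refine Valuation.map_sum_le w fun i _ => ?_
      rw [le_div_iff₀' (zero_lt_iff.2 hr'), map_mul]
      calc r ^ (s.card + 1) * (w ((p a).coeff i.1) * w ((∏ i ∈ s, p i).coeff i.2))
          = (r * w ((p a).coeff i.1)) * (r ^ s.card * w ((∏ i ∈ s, p i).coeff i.2)) := by
            rw [pow_succ]; ac_rfl
        _ ≤ c * c ^ s.card := mul_le_mul' (ha' _) (ih' _)
        _ = c ^ (s.card + 1) := (pow_succ' _ _).symm

theorem exists_coeff {p : N[X]} (hp : p.Monic) {y : N} (hy : p.eval y = 0)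
    (hyQ : Transcendental Q y) : ∃ n, Transcendental Q (p.coeff n) := by
  by_contra hcon
  push Not at hcon
  have hlift : p ∈ Polynomial.lifts (algebraMap (integralClosure Q N) N) := by
    rw [Polynomial.lifts_iff_coeff_lifts]
    intro n
    have h1 : IsAlgebraic Q (p.coeff n) := by
      by_contra h
      exact hcon n h
    exact ⟨⟨p.coeff n, h1.isIntegral⟩, rfl⟩
  obtain ⟨q, hq, -, hqm⟩ := Polynomial.lifts_and_natDegree_eq_and_monic hlift hp
  have h1 : IsIntegral (integralClosure Q N) y := by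
    refine ⟨q, hqm, ?_⟩
    rw [← Polynomial.eval_map, hq, hy]
  have h2 : IsIntegral Q y := isIntegral_trans y h1
  exact hyQ h2.isAlgebraic

theorem xc_transcendental {x : N} (hx : Transcendental Q x) {i j l : N}
    (hi : ∃ e : Q, algebraMap Q N e = i) (hj : ∃ e : Q, algebraMap Q N e = j)
    (hl : ∃ e : Q, algebraMap Q N e = l) (hij : i ≠ j) (hil : i ≠ l) (hjl : j ≠ l) :
    Transcendental Q (xc x i j l) := by
  intro hy
  obtain ⟨i', rfl⟩ := hi
  obtain ⟨j', rfl⟩ := hj
  obtain ⟨l', rfl⟩ := hl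
  have hxj : x - algebraMap Q N j' ≠ 0 := by
    intro h
    rw [sub_eq_zero] at h
    exact hx (h ▸ isAlgebraic_algebraMap j')
  have hli : algebraMap Q N l' - algebraMap Q N i' ≠ 0 := sub_ne_zero.2 hil.symm
  have hlj : algebraMap Q N l' - algebraMap Q N j' ≠ 0 := sub_ne_zero.2 hjl.symm
  have h1 : xc x (algebraMap Q N i') (algebraMap Q N j') (algebraMap Q N l') *
      ((x - algebraMap Q N j') * (algebraMap Q N l' - algebraMap Q N i')) =
      (x - algebraMap Q N i') * (algebraMap Q N l' - algebraMap Q N j') := by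
    unfold xc
    field_simp
  set y := xc x (algebraMap Q N i') (algebraMap Q N j') (algebraMap Q N l') with hydef
  have hden : (algebraMap Q N l' - algebraMap Q N j') -
      y * (algebraMap Q N l' - algebraMap Q N i') ≠ 0 := by
    intro h
    have h2 : (algebraMap Q N i' - algebraMap Q N j') *
        (algebraMap Q N l' - algebraMap Q N j') = 0 := by
      linear_combination h1 + (x - algebraMap Q N j') * h
    rcases mul_eq_zero.1 h2 with h3 | h3
    · exact hij (sub_eq_zero.1 h3)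
    · exact hlj h3
  have h2 : x = (algebraMap Q N i' * (algebraMap Q N l' - algebraMap Q N j') -
      y * (algebraMap Q N j' * (algebraMap Q N l' - algebraMap Q N i'))) /
      ((algebraMap Q N l' - algebraMap Q N j') -
        y * (algebraMap Q N l' - algebraMap Q N i')) := by
    rw [eq_div_iff hden]
    linear_combination -h1
  apply hx
  rw [h2]
  have ha : ∀ q : Q, IsAlgebraic Q (algebraMap Q N q) := fun q => isAlgebraic_algebraMap q
  rw [div_eq_mul_inv]
  exact (((ha _).mul ((ha _).sub (ha _))).sub (hy.mul ((ha _).mul ((ha _).sub (ha _))))).mul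
    (((ha _).sub (ha _)).sub (hy.mul ((ha _).sub (ha _)))).inv

end coeff

section bounds

variable {P X N : Type*} [Field P] [Field X] [Field N] [Algebra P N] [Algebra X N]
  [DecidableEq N] {w : Valuation N ℤᵐ⁰} {x : N} {D : Derivation P N N} {ρ : ℤᵐ⁰} {t : X}
  {S : Finset N} {r : N → ℕ} {m : N → N → ℕ}

theorem RelNorm.GGxc_le (h : RelNorm P w x D ρ)
    (hS : ∀ e ∈ S, ∃ e' : P, algebraMap P N e' = e) {i j l : N} (hi : i ∈ S) (hj : j ∈ S)
    (hl : l ∈ S) (hli : l ≠ i) (hm : 1 ≤ m l i) (hx : ∀ e ∈ S, x ≠ e) :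
    ρ ^ MG S m * w (GG S m x * xc x i j l) ≤ 1 := by
  have hp0 : (l, i) ∈ S.offDiag := by
    rw [Finset.mem_offDiag]
    exact ⟨hl, hi, hli⟩
  have hkey : hh x l i * xc x i j l = hh x l j := by
    have h1 : x - l ≠ 0 := sub_ne_zero.2 (hx l hl)
    have h2 : x - i ≠ 0 := sub_ne_zero.2 (hx i hi)
    have h3 : x - j ≠ 0 := sub_ne_zero.2 (hx j hj)
    have h4 : l - i ≠ 0 := sub_ne_zero.2 hli
    unfold hh xc
    field_simp
  rw [map_mul, ← mul_assoc, GG_eq, ← Finset.mul_prod_erase _ _ hp0]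
  have hm' : m l i = (m l i - 1) + 1 := by omega
  have h1 : (ρ * w (hh x l i)) ^ m l i * w (xc x i j l) =
      (ρ * w (hh x l i)) ^ (m l i - 1) * (ρ * w (hh x l j)) := by
    rw [← hkey, map_mul]
    conv_lhs => rw [hm', pow_succ]
    ac_rfl
  calc (ρ * w (hh x l i)) ^ m l i *
        (∏ p ∈ S.offDiag.erase (l, i), (ρ * w (hh x p.1 p.2)) ^ m p.1 p.2) * w (xc x i j l)
      = ((ρ * w (hh x l i)) ^ m l i * w (xc x i j l)) *
        (∏ p ∈ S.offDiag.erase (l, i), (ρ * w (hh x p.1 p.2)) ^ m p.1 p.2) := by ac_rfl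
    _ ≤ 1 := by
      rw [h1]
      refine mul_le_one' (mul_le_one' (pow_le_one' (h.hh_le' hS hl hi) _) (h.hh_le' hS hl hj)) ?_
      refine Finset.prod_le_one' fun p hp => ?_
      have hp' := Finset.mem_offDiag.1 (Finset.mem_of_mem_erase hp)
      exact pow_le_one' (h.hh_le' hS hp'.1 hp'.2.1) _

/-- the order of the pole of `GG` at `e` -/
theorem two_DG (hW : Weights S r m) {e : N} (he : e ∈ S) :
    2 * DG S m e = ∑ p ∈ S.offDiag, (if p.1 = e ∨ p.2 = e then m p.1 p.2 else 0) := by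
  have h1 := MG_split hW he
  have h2 : MG S m = ∑ p ∈ S.offDiag, (if p.1 = e ∨ p.2 = e then 0 else m p.1 p.2) +
      ∑ p ∈ S.offDiag, (if p.1 = e ∨ p.2 = e then m p.1 p.2 else 0) := by
    rw [MG, ← Finset.sum_add_distrib]
    refine Finset.sum_congr rfl fun p _ => ?_
    split <;> simp
  omega

theorem At.GGxc_le [CharZero P] (h : At P X w x D ρ t)
    (halg : ∀ g : N, IsAlgebraic (IntermediateField.adjoin P {x}) g)
    (hx : ∃ x' : X, algebraMap X N x' = x)
    (hS : ∀ e ∈ S, ∃ e' : P, algebraMap P N e' = e) (hW : Weights S r m) (hr : ∀ e ∈ S, 1 ≤ r e)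
    (hram : ∀ e ∈ S, w (x - e) < 1 → w (x - e) ≤ w (algebraMap X N t) ^ r e)
    {i j l : N} (hi : i ∈ S) (hj : j ∈ S) (hl : l ∈ S) (hli : l ≠ i) (hlj : l ≠ j)
    (hij : i ≠ j) (hjr : (2 * DG S m j + 1) * r j ≤ MG S m * (r j - 1)) :
    ρ ^ MG S m * w (GG S m x * xc x i j l) ≤ w (algebraMap X N t) ^ MG S m := by
  have hxc : w (xc x i j l) = w (x - i) / w (x - j) := by
    unfold xc
    rw [map_div₀, map_mul, map_mul, h.sub_eq hS hl hj hlj, h.sub_eq hS hl hi hli, mul_one, mul_one]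
  refine h.form_le halg hx hS hr hram (o := fun e => 2 * DG S m e + if e = j then 1 else 0)
    ?_ ?_ ?_ ?_
  · intro e he
    split
    · next hej => rw [hej]; exact hjr
    · rw [add_zero]; exact hW.le e he
  · -- at infinity
    intro hx1
    have h0 : w x ≠ 0 := (zero_lt_one.trans hx1).ne'
    have h2 : ∀ e ∈ S, w (x - e) = w x := by
      intro e he
      refine Valuation.map_sub_eq_of_lt_left w ?_
      exact (h.le_one hS he).trans_lt hx1
    have h3 : w (xc x i j l) = 1 := by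
      rw [hxc, h2 i hi, h2 j hj, div_self h0]
    rw [map_mul, h3, mul_one, GG, map_prod, MG, pow_mul, ← Finset.prod_pow_eq_pow_sum,
      ← Finset.prod_mul_distrib]
    refine Finset.prod_le_one' fun p hp => ?_
    rw [Finset.mem_offDiag] at hp
    rw [map_pow, ← mul_pow, val_hh (h.sub_eq hS hp.1 hp.2.1 hp.2.2), h2 _ hp.1, h2 _ hp.2.1,
      ← pow_two, inv_mul_cancel₀ (pow_ne_zero _ h0), one_pow]
  · -- away from `S`
    intro _ h1
    have h3 : w (xc x i j l) = 1 := by
      rw [hxc, h1 i hi, h1 j hj, div_one]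
    rw [map_mul, h3, mul_one, GG, map_prod]
    refine Finset.prod_le_one' fun p hp => ?_
    rw [Finset.mem_offDiag] at hp
    rw [map_pow, val_hh (h.sub_eq hS hp.1 hp.2.1 hp.2.2), h1 _ hp.1, h1 _ hp.2.1, mul_one,
      inv_one, one_pow]
  · intro e he hlt
    have h1 : ∀ a ∈ S, a ≠ e → w (x - a) = 1 := fun a ha hne => h.near hS he hlt ha hne
    have hG : w (GG S m x) * w (x - e) ^ (2 * DG S m e) ≤ 1 := by
      rw [GG, map_prod, two_DG hW he, ← Finset.prod_pow_eq_pow_sum, ← Finset.prod_mul_distrib]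
      refine Finset.prod_le_one' fun p hp => ?_
      rw [Finset.mem_offDiag] at hp
      rw [map_pow, val_hh (h.sub_eq hS hp.1 hp.2.1 hp.2.2)]
      by_cases h2 : p.1 = e ∨ p.2 = e
      · rw [if_pos h2, ← mul_pow]
        refine pow_le_one' ?_ _
        rcases h2 with h2 | h2
        · have h3 : p.2 ≠ e := fun h' => hp.2.2 (h2.trans h'.symm)
          rw [h2, h1 _ hp.2.1 h3, mul_one]
          exact inv_mul_le_one
        · have h3 : p.1 ≠ e := fun h' => hp.2.2 (h'.trans h2.symm)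
          rw [h2, h1 _ hp.1 h3, one_mul]
          exact inv_mul_le_one
      · rw [if_neg h2, pow_zero, mul_one]
        push Not at h2
        rw [h1 _ hp.1 h2.1, h1 _ hp.2.1 h2.2, mul_one, inv_one, one_pow]
    have hX : w (xc x i j l) * w (x - e) ^ (if e = j then 1 else 0) ≤ 1 := by
      rw [hxc]
      by_cases h2 : e = j
      · rw [if_pos h2, pow_one, h1 i hi (by rw [h2]; exact hij), ← h2, one_div]
        exact inv_mul_le_one
      · rw [if_neg h2, pow_zero, mul_one, h1 j hj (fun h' => h2 h'.symm), div_one]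
        by_cases h3 : i = e
        · rw [h3]; exact hlt.le
        · exact (h1 i hi h3).le
    calc w (GG S m x * xc x i j l) * w (x - e) ^ (2 * DG S m e + if e = j then 1 else 0)
        = (w (GG S m x) * w (x - e) ^ (2 * DG S m e)) *
          (w (xc x i j l) * w (x - e) ^ (if e = j then 1 else 0)) := by
            rw [map_mul, pow_add]; ac_rfl
      _ ≤ 1 := mul_le_one' hG hX

end bounds

section inv
variable {Q X N : Type*} [Field Q] [Field X] [Field N] [Algebra Q N] [Algebra X N] [DecidableEq N]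
  [FiniteDimensional X N] [IsGalois X N] {S : Finset N} {r : N → ℕ} {m : N → N → ℕ} {x : X}

omit [FiniteDimensional X N] [IsGalois X N] in
lemma DG_map (hS : ∀ σ : N ≃ₐ[X] N, ∀ e ∈ S, σ e ∈ S)
    (hm : ∀ σ : N ≃ₐ[X] N, ∀ a ∈ S, ∀ b ∈ S, m (σ a) (σ b) = m a b) (σ : N ≃ₐ[X] N) {j : N}
    (hj : j ∈ S) : DG S m (σ j) = DG S m j := by
  unfold DG
  symm
  refine Finset.sum_nbij' (fun a => σ a) (fun a => σ.symm a) ?_ ?_ ?_ ?_ ?_
  · intro a ha
    rw [Finset.mem_erase] at ha ⊢
    exact ⟨fun h => ha.1 (σ.injective h), hS σ _ ha.2⟩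
  · intro a ha
    rw [Finset.mem_erase] at ha ⊢
    refine ⟨fun h => ha.1 ?_, hS σ.symm _ ha.2⟩
    rw [← h, AlgEquiv.apply_symm_apply]
  · intro a _
    simp
  · intro a _
    simp
  · intro a ha
    rw [Finset.mem_erase] at ha
    exact (hm σ _ hj _ ha.2).symm

/-- the second form: `q` is a coefficient of the product of the conjugates of `T - xc x i j l` -/
theorem exists_q [CharZero Q] (hS : ∀ σ : N ≃ₐ[X] N, ∀ e ∈ S, σ e ∈ S)
    (hSQ : ∀ e ∈ S, ∃ e' : Q, algebraMap Q N e' = e) (h3 : 3 ≤ S.card)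
    (hm : ∀ σ : N ≃ₐ[X] N, ∀ a ∈ S, ∀ b ∈ S, m (σ a) (σ b) = m a b)
    (hr : ∀ σ : N ≃ₐ[X] N, ∀ a ∈ S, r (σ a) = r a) (hr1 : ∀ e ∈ S, 2 ≤ r e) (hW : Weights S r m)
    (hj : ∃ j ∈ S, (2 * DG S m j + 1) * r j ≤ MG S m * (r j - 1))
    (hx : Transcendental Q (algebraMap X N x)) :
    ∃ (q : X) (d : ℕ), 1 ≤ d ∧ Transcendental Q (algebraMap X N q) ∧
      (∀ (w : Valuation N ℤᵐ⁰) (D : Derivation Q N N) (ρ : ℤᵐ⁰), RelNorm Q w (algebraMap X N x) D ρ →
        ρ ^ (MG S m * d) * w (GG S m (algebraMap X N x) ^ d * algebraMap X N q) ≤ 1) ∧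
      ∀ (w : Valuation N ℤᵐ⁰) (D : Derivation Q N N) (ρ : ℤᵐ⁰) (t : X),
        At Q X w (algebraMap X N x) D ρ t →
        (∀ g : N, IsAlgebraic (IntermediateField.adjoin Q {algebraMap X N x}) g) →
        (∀ e ∈ S, w (algebraMap X N x - e) < 1 →
          w (algebraMap X N x - e) ≤ w (algebraMap X N t) ^ r e) →
        ρ ^ (MG S m * d) * w (GG S m (algebraMap X N x) ^ d * algebraMap X N q) ≤
          w (algebraMap X N t) ^ (MG S m * d) := by
  obtain ⟨j, hjS, hjr⟩ := hj
  have hc1 : (S.erase j).Nonempty := by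
    rw [← Finset.card_pos, Finset.card_erase_of_mem hjS]
    omega
  obtain ⟨i, hi⟩ := hc1
  have hiS := Finset.mem_of_mem_erase hi
  have hij : i ≠ j := Finset.ne_of_mem_erase hi
  have hc2 : ((S.erase j).erase i).Nonempty := by
    rw [← Finset.card_pos, Finset.card_erase_of_mem hi, Finset.card_erase_of_mem hjS]
    omega
  obtain ⟨l, hl⟩ := hc2
  have hli : l ≠ i := Finset.ne_of_mem_erase hl
  have hl' := Finset.mem_of_mem_erase hl
  have hlj : l ≠ j := Finset.ne_of_mem_erase hl'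
  have hlS := Finset.mem_of_mem_erase hl'
  set y : N := xc (algebraMap X N x) i j l with hy
  have hyT : Transcendental Q y :=
    xc_transcendental hx (hSQ i hiS) (hSQ j hjS) (hSQ l hlS) hij hli.symm hlj.symm
  set p : N[X] := ∏ τ : N ≃ₐ[X] N, (Polynomial.X - Polynomial.C (τ y)) with hp
  have hpm : p.Monic := Polynomial.monic_prod_of_monic _ _ fun τ _ => Polynomial.monic_X_sub_C _
  have hpy : p.eval y = 0 := by
    rw [hp, Polynomial.eval_prod]
    refine Finset.prod_eq_zero (Finset.mem_univ (1 : N ≃ₐ[X] N)) ?_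
    simp
  obtain ⟨n, hn⟩ := exists_coeff hpm hpy hyT
  obtain ⟨q, hq⟩ := coeff_mem (X := X) y n
  rw [← hp] at hq
  have hxS : ∀ e ∈ S, algebraMap X N x ≠ e := by
    intro e he h
    obtain ⟨e', he'⟩ := hSQ e he
    rw [← he'] at h
    exact hx (h ▸ isAlgebraic_algebraMap e')
  -- the product of the forms
  have hmain : ∀ (w : Valuation N ℤᵐ⁰) (ρ c : ℤᵐ⁰),
      ρ ^ MG S m * w (GG S m (algebraMap X N x)) ≤ c →
      (∀ τ : N ≃ₐ[X] N, ρ ^ MG S m * w (GG S m (algebraMap X N x) * τ y) ≤ c) →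
      ρ ^ (MG S m * (Finset.univ : Finset (N ≃ₐ[X] N)).card) *
        w (GG S m (algebraMap X N x) ^ (Finset.univ : Finset (N ≃ₐ[X] N)).card *
          algebraMap X N q) ≤ c ^ (Finset.univ : Finset (N ≃ₐ[X] N)).card := by
    intro w ρ c h1 h2
    have h4 := coeff_prod_le w (ρ ^ MG S m) c (Finset.univ : Finset (N ≃ₐ[X] N))
      (fun τ => Polynomial.C (GG S m (algebraMap X N x)) * (Polynomial.X - Polynomial.C (τ y)))
      (by
        intro τ _ k
        rw [Polynomial.coeff_C_mul, Polynomial.coeff_sub, Polynomial.coeff_X, Polynomial.coeff_C]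
        rcases k with _ | k
        · rw [if_neg (by norm_num), if_pos rfl, zero_sub, mul_neg, Valuation.map_neg]
          exact h2 τ
        · rw [if_neg (by omega : ¬ k + 1 = 0), sub_zero]
          split
          · rw [mul_one]; exact h1
          · rw [mul_zero, map_zero, mul_zero]; exact zero_le) n
    rw [Finset.prod_mul_distrib, Finset.prod_const, ← Polynomial.C_pow, Polynomial.coeff_C_mul,
      ← hp, ← hq, ← pow_mul] at h4
    exact h4
  refine ⟨q, (Finset.univ : Finset (N ≃ₐ[X] N)).card, Finset.card_pos.2 ⟨1, Finset.mem_univ _⟩,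
    ?_, ?_, ?_⟩
  · rw [hq]; exact hn
  · intro w D ρ h
    have h1 := hmain w ρ 1 (h.GG_le hSQ m) (by
      intro τ
      rw [hy, map_xc, AlgEquiv.commutes]
      exact h.GGxc_le hSQ (hS τ _ hiS) (hS τ _ hjS) (hS τ _ hlS) (fun h' => hli (τ.injective h'))
        (hW.pos _ (hS τ _ hlS) _ (hS τ _ hiS)) hxS)
    rwa [one_pow] at h1
  · intro w D ρ t h halg hram
    have hr' : ∀ e ∈ S, 1 ≤ r e := fun e he => (by norm_num : 1 ≤ 2).trans (hr1 e he)
    have h1 := hmain w ρ (w (algebraMap X N t) ^ MG S m)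
      (h.GG_le halg ⟨x, rfl⟩ hSQ hW hr1 hram) (by
      intro τ
      rw [hy, map_xc, AlgEquiv.commutes]
      refine h.GGxc_le halg ⟨x, rfl⟩ hSQ hW hr' hram (hS τ _ hiS) (hS τ _ hjS) (hS τ _ hlS)
        (fun h' => hli (τ.injective h')) (fun h' => hlj (τ.injective h'))
        (fun h' => hij (τ.injective h')) ?_
      rw [DG_map hS hm τ hjS, hr τ _ hjS]
      exact hjr)
    rwa [← pow_mul] at h1

end inv

end Pf72953.Pl
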