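import Mathlib
import Pool.Agent.Lib.Pf72953n.Up
import Pool.Agent.Lib.Pf72953n.RamP

/-!
`ℙ¹`-step: preparations for the descent.
-/

set_option autoImplicit false
set_option linter.style.haveILetI false

open scoped WithZero Polynomial
open Pf72953 Pf72953.Mov Pf72953.Tow

namespace Pf72953.Pl

variable {k Ω : Type*} [Field k] [Field Ω] [Algebra k Ω] [CharZero k]

theorem tb_line {W N : IntermediateField k Ω} [Fact (W ≤ N)] (hN : Fin' N) {n : ℕ} {z : Fin n → W}
    (hz : IsTranscendenceBasis k z) {x : Ω} (hxN : x ∈ N) (hx : Transcendental W x)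
    (halg : ∀ y ∈ N, IsAlgebraic (W ⊔ IntermediateField.adjoin k {x} : IntermediateField k Ω) y) :
    IsTranscendenceBasis k (Sum.elim (fun i => algebraMap W N (z i))
      (fun _ : Unit => (⟨x, hxN⟩ : N))) := by
  have hWN : W ≤ N := Fact.out
  have hW : Fin' W := fin_le hN hWN
  haveI : Algebra.EssFiniteType k N := hN
  haveI : Algebra.EssFiniteType k W := hW
  haveI : Algebra.EssFiniteType W N := Algebra.EssFiniteType.of_comp k W N
  have hd := dim_add (A := W) hN
  have hd2 : dimension k N = dimension k W + 1 := by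
    rw [← dim_adj hW hx]
    exact dim_eq hN (sup_le hWN (adjoin_one_le hxN)) halg
  have h4 : IsTranscendenceBasis W (fun _ : Unit => (⟨x, hxN⟩ : N)) := by
    refine isTranscendenceBasis_of_card (by simp; omega) ?_
    refine algebraicIndependent_unique_type_iff.2 fun h' => hx ?_
    exact (isAlgebraic_algebraMap_iff (R := W) (A := Ω) (S := N) (algebraMap N Ω).injective).2 h'
  have h5 := hz.sumElim_comp h4
  have h6 := (isTranscendenceBasis_equiv (Equiv.sumComm _ _)).mpr h5
  have h7 : (Sum.elim (fun _ : Unit => (⟨x, hxN⟩ : N)) (algebraMap W N ∘ z)) ∘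
      (Equiv.sumComm (Fin n) Unit) =
      Sum.elim (fun i => algebraMap W N (z i)) (fun _ : Unit => (⟨x, hxN⟩ : N)) := by
    funext i
    rcases i with i | i <;> rfl
  rw [← h7]
  exact h6

omit [CharZero k] in
theorem alg_adjoin_of {A M : IntermediateField k Ω} [Fact (A ≤ M)] {x : M} {z : M}
    (h : IsAlgebraic (A ⊔ IntermediateField.adjoin k {(x : Ω)} : IntermediateField k Ω) (z : Ω)) :
    IsAlgebraic (IntermediateField.adjoin A ({x} : Set M)) z := by
  have hle : A ⊔ IntermediateField.adjoin k {(x : Ω)} ≤ M :=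
    sup_le Fact.out (adjoin_one_le x.2)
  let g : (A ⊔ IntermediateField.adjoin k {(x : Ω)} : IntermediateField k Ω) →+*
      IntermediateField.adjoin A ({x} : Set M) :=
    { toFun := fun z => ⟨⟨z, hle z.2⟩, mem_adjoin_iff.2 z.2⟩
      map_one' := rfl
      map_mul' := fun _ _ => rfl
      map_zero' := rfl
      map_add' := fun _ _ => rfl }
  obtain ⟨p, hp, hpz⟩ := h
  refine ⟨p.map g, (Polynomial.map_ne_zero_iff g.injective).2 hp, ?_⟩
  apply (algebraMap M Ω).injective
  rw [map_zero, Polynomial.aeval_def, Polynomial.eval₂_map, Polynomial.hom_eval₂]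
  exact hpz

variable [IsAlgClosed k] [IsAlgClosed Ω]

/-- places of the generic fibre are unramified -/
theorem unr_hor {XX PP N : IntermediateField k Ω} [Fact (XX ≤ N)] [Fact (PP ≤ N)] (hN : Fin' N)
    (hGN : Gal XX N) (hst : ∀ σ : Ω ≃ₐ[k] Ω, Fixes σ XX → Stab σ PP) (hgen : N ≤ PP ⊔ XX)
    {w : Valuation N ℤᵐ⁰} (hw : ∀ a : PP, a ≠ 0 → w (algebraMap PP N a) = 1) : Br.Unr XX w := by
  have hPN : PP ≤ N := Fact.out
  obtain ⟨i1, i2⟩ := hGN.finite hN
  refine Br.unr_of_inertia (fun σ hin => ?_)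
  obtain ⟨σ', hσX', hσ'⟩ := hGN.exists_ext hN σ
  have hfix : Fixes σ' PP := by
    intro a ha
    by_contra hne
    have hm : σ' a - a ∈ PP := sub_mem (hst σ' hσX' a ha) ha
    have h1 := hw ⟨σ' a - a, hm⟩ (fun h => hne (sub_eq_zero.1 (congrArg Subtype.val h)))
    have h2 := hin ⟨a, hPN ha⟩ (by
      by_cases h0 : a = 0
      · have : (⟨a, hPN ha⟩ : N) = 0 := Subtype.ext h0
        rw [this, map_zero]
        exact zero_le
      · exact (hw ⟨a, ha⟩ (fun h => h0 (congrArg Subtype.val h))).le)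
    have h3 : (σ ⟨a, hPN ha⟩ - ⟨a, hPN ha⟩ : N) = algebraMap PP N ⟨σ' a - a, hm⟩ := Subtype.ext (by
      change ((σ ⟨a, hPN ha⟩ : N) : Ω) - a = σ' a - a
      rw [← hσ'])
    rw [h3, h1] at h2
    exact lt_irrefl _ h2
  have hfixN : Fixes σ' N := (hfix.sup79 hσX').mono hgen
  ext u
  have h6 := hσ' u
  rw [hfixN u u.2] at h6
  exact h6.symm

end Pf72953.Pl
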