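import Mathlib
import Pool.Agent.Lib.Pf72953n.Defs2
import Pool.Agent.Lib.Pf72953b.Defs
import Pool.Agent.Lib.Pf72953e.ExtE

/-!
Galois covers of `ℙ¹`-bundles: the canonical divisor of the generic fibre has degree `≥ 0`, in the coordinate `x`.

`T = F^R ∏ (x - e)^(m (R - R/r(e)))` has no poles over finite points and a zero of order `≥ m (2R - ∑ (R - R/r(e)))` over `∞`.
-/

set_option autoImplicit false
set_option linter.style.haveILetI false

open scoped WithZero Polynomial
open Pf72953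

namespace Pf72953.Pl

namespace NormAux

variable {K N : Type*} [Field K] [Field N] [Algebra K N]

theorem le_of_triv {w : Valuation N ℤᵐ⁰} (h : ∀ a : K, a ≠ 0 → w (algebraMap K N a) = 1) (a : K) :
    w (algebraMap K N a) ≤ 1 := by
  rcases eq_or_ne a 0 with rfl | ha
  · simp
  · exact (h a ha).le

theorem aeval_le {w : Valuation N ℤᵐ⁰} (h : ∀ a : K, a ≠ 0 → w (algebraMap K N a) = 1) {x : N}
    (hx : w x ≤ 1) (p : K[X]) : w (Polynomial.aeval x p) ≤ 1 := by
  induction p using Polynomial.induction_on' with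
  | add p q hp hq =>
    rw [map_add]
    exact (w.map_add _ _).trans (max_le hp hq)
  | monomial n a =>
    rw [Polynomial.aeval_monomial, map_mul, map_pow]
    exact mul_le_one' (le_of_triv h a) (pow_le_one' hx n)

/-- the value of a polynomial at a pole of `x` -/
theorem aeval_big {w : Valuation N ℤᵐ⁰} (h : ∀ a : K, a ≠ 0 → w (algebraMap K N a) = 1) {x : N}
    (hx : 1 < w x) {p : K[X]} (hp : p ≠ 0) : w (Polynomial.aeval x p) = w x ^ p.natDegree := by
  have hx0 : w x ≠ 0 := (zero_lt_one.trans hx).ne'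
  induction hd : p.natDegree using Nat.strong_induction_on generalizing p with
  | _ d ih =>
    have h1 : p = p.eraseLead + Polynomial.monomial p.natDegree p.leadingCoeff :=
      p.eraseLead_add_monomial_natDegree_leadingCoeff.symm
    have h2 : w (Polynomial.aeval x (Polynomial.monomial p.natDegree p.leadingCoeff)) =
        w x ^ d := by
      rw [Polynomial.aeval_monomial, map_mul, map_pow,
        h _ (Polynomial.leadingCoeff_ne_zero.2 hp), one_mul, hd]
    rw [h1, map_add]
    by_cases h0 : p.eraseLead = 0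
    · rw [h0, map_zero, zero_add, h2]
    · have h3 : p.eraseLead.natDegree < d := by
        rcases Nat.lt_or_ge p.eraseLead.natDegree p.natDegree with h4 | h4
        · rwa [hd] at h4
        · exfalso
          have h5 := Polynomial.eraseLead_natDegree_lt_or_eraseLead_eq_zero p
          rcases h5 with h5 | h5
          · omega
          · exact h0 h5
      have h4 := ih _ h3 h0 rfl
      rw [add_comm, Valuation.map_add_eq_of_lt_left, h2]
      rw [h2, h4]
      exact pow_lt_pow_right₀ hx h3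

/-- nonzero algebraic elements are units -/
theorem val_alg {w : Valuation N ℤᵐ⁰} (h : ∀ a : K, a ≠ 0 → w (algebraMap K N a) = 1) {g : N}
    (hg0 : g ≠ 0) (hg : IsAlgebraic K g) : w g = 1 :=
  val_eq_one_of_isIntegral h hg0 (isAlgebraic_iff_isIntegral.1 hg)

variable [CharZero K] [Algebra.EssFiniteType K N]

omit [CharZero K] [Algebra.EssFiniteType K N] in
theorem dim_one {x : N} (hx : Transcendental K x)
    [FiniteDimensional (IntermediateField.adjoin K {x}) N] : dimension K N = 1 ∧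
      IsTranscendenceBasis K (fun _ : Fin 1 => x) := by
  have h1 : AlgebraicIndependent K (fun _ : Fin 1 => x) :=
    algebraicIndependent_unique_type_iff.2 hx
  haveI : Algebra.IsAlgebraic (Algebra.adjoin K (Set.range fun _ : Fin 1 => x)) N := by
    refine ⟨fun z => ?_⟩
    have h3 : IsAlgebraic (IntermediateField.adjoin K {x}) z :=
      Algebra.IsAlgebraic.isAlgebraic z
    rw [IntermediateField.isAlgebraic_adjoin_iff] at h3
    rw [Set.range_const]
    exact h3
  have h2 : IsTranscendenceBasis K (fun _ : Fin 1 => x) :=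
    h1.isTranscendenceBasis_iff_isAlgebraic.mpr inferInstance
  exact ⟨by rw [← card_eq_of_isTranscendenceBasis h2, Fintype.card_fin], h2⟩

theorem log_core (hdim : dimension K N = 1) {x : N}
    (hx : IsTranscendenceBasis K (fun _ : Fin 1 => x)) {F : N} {m : ℕ}
    (hF : F ∈ WReg K (fun _ : Fin 1 => x) m) {w : Valuation N ℤᵐ⁰}
    (hw : ∀ a : K, a ≠ 0 → w (algebraMap K N a) = 1) {c : N} (hc0 : c ≠ 0) (hc : w c < 1) {g : N}
    (hg : ∀ D : Derivation K N N, D c = 1 → w (D x) = w g) :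
    ∃ t : N, t ≠ 0 ∧ w t < 1 ∧ w F * (w g * w c) ^ m ≤ w t ^ m := by
  have hdiv : IsDivisorial K N w := by
    refine ⟨hw, ⟨c, hc0, hc.ne⟩, ?_⟩
    rw [hdim]
    refine ⟨Fin.elim0, fun p hp => ?_⟩
    haveI : IsEmpty (Fin (1 - 1)) := Fin.isEmpty'
    rw [MvPolynomial.eq_C_of_isEmpty p] at hp ⊢
    rw [MvPolynomial.aeval_C]
    exact hw _ fun h => hp (by rw [h, map_zero])
  obtain ⟨c₁, hc₁, t, ht0, ht, hb⟩ := WReg.log_bound hx hF hdiv
  refine ⟨t, ht0, ht, ?_⟩
  have had : Adapted K w (fun _ : Fin 1 => c) c := by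
    let e : Fin 1 ≃ Option (Fin 0) :=
      ⟨fun _ => none, fun _ => 0, fun i => (Subsingleton.elim _ _), fun i => by
        rcases i with _ | i
        · rfl
        · exact i.elim0⟩
    refine ⟨0, e, Fin.elim0, fun p hp => ?_, hc0, hc, rfl⟩
    rw [MvPolynomial.eq_C_of_isEmpty p] at hp ⊢
    rw [MvPolynomial.aeval_C]
    exact hw _ fun h => hp (by rw [h, map_zero])
  have hlog := had.logBasis (by rw [Fintype.card_fin, hdim])
  have hvol := hc₁.vol_eq hlog (fun _ : Fin 1 => x)
  rw [hvol] at hb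
  have h1 : w (jac hlog.tb (fun _ : Fin 1 => x)) = w g := by
    rw [jac_eq_det, Matrix.det_fin_one, Matrix.of_apply]
    exact hg _ (by
      have := pd_self hlog.tb 0 0
      rwa [if_pos rfl] at this)
  rw [h1, Fin.prod_univ_one] at hb
  exact hb

/-- reduction of fractions -/
theorem exists_coprime {R : Type*} [EuclideanDomain R] (r s : R) (hs : s ≠ 0) :
    ∃ g r' s' : R, r = g * r' ∧ s = g * s' ∧ IsCoprime r' s' := by
  classical
  have hg0 : EuclideanDomain.gcd r s ≠ 0 := fun h => hs (EuclideanDomain.gcd_eq_zero_iff.1 h).2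
  obtain ⟨r', hr'⟩ := EuclideanDomain.gcd_dvd_left r s
  obtain ⟨s', hs'⟩ := EuclideanDomain.gcd_dvd_right r s
  refine ⟨EuclideanDomain.gcd r s, r', s', hr', hs', EuclideanDomain.gcdA r s,
    EuclideanDomain.gcdB r s, ?_⟩
  have h1 := EuclideanDomain.gcd_eq_gcd_ab r s
  apply mul_left_cancel₀ hg0
  have h2 : EuclideanDomain.gcd r s * (EuclideanDomain.gcdA r s * r' +
      EuclideanDomain.gcdB r s * s') = (EuclideanDomain.gcd r s * r') * EuclideanDomain.gcdA r s +
      (EuclideanDomain.gcd r s * s') * EuclideanDomain.gcdB r s := by ring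
  rw [h2, ← hr', ← hs', mul_one]
  exact h1.symm

omit [CharZero K] [Algebra.EssFiniteType K N] in
/-- elements of `K(x)` -/
theorem exists_rep {x t : N} (ht : t ∈ IntermediateField.adjoin K {x}) (ht0 : t ≠ 0) :
    ∃ r s : K[X], r ≠ 0 ∧ s ≠ 0 ∧ IsCoprime r s ∧ Polynomial.aeval x s ≠ 0 ∧
      Polynomial.aeval x r = t * Polynomial.aeval x s := by
  obtain ⟨r, s, hrs⟩ := (IntermediateField.mem_adjoin_simple_iff K t).1 ht
  have hr : Polynomial.aeval x r ≠ 0 := by
    intro h
    rw [h, zero_div] at hrs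
    exact ht0 hrs
  have hs : Polynomial.aeval x s ≠ 0 := by
    intro h
    rw [h, div_zero] at hrs
    exact ht0 hrs
  have hs0 : s ≠ 0 := fun h => hs (by rw [h, map_zero])
  obtain ⟨g, r', s', h1, h2, h3⟩ := exists_coprime r s hs0
  have h1' : Polynomial.aeval x r = Polynomial.aeval x g * Polynomial.aeval x r' := by
    rw [h1, map_mul]
  have h2' : Polynomial.aeval x s = Polynomial.aeval x g * Polynomial.aeval x s' := by
    rw [h2, map_mul]
  have hgx : Polynomial.aeval x g ≠ 0 := by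
    intro h
    rw [h, zero_mul] at h2'
    exact hs h2'
  have hr'x : Polynomial.aeval x r' ≠ 0 := by
    intro h
    rw [h, mul_zero] at h1'
    exact hr h1'
  have hs'x : Polynomial.aeval x s' ≠ 0 := by
    intro h
    rw [h, mul_zero] at h2'
    exact hs h2'
  refine ⟨r', s', fun h => hr'x (by rw [h, map_zero]), fun h => hs'x (by rw [h, map_zero]), h3,
    hs'x, ?_⟩
  rw [hrs, h1', h2', mul_div_mul_left _ _ hgx, div_mul_cancel₀ _ hs'x]

/-- a place over a finite point outside the branch points -/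
theorem bound_fin (hdim : dimension K N = 1) {x : N}
    (hx : IsTranscendenceBasis K (fun _ : Fin 1 => x)) {F : N} {m : ℕ}
    (hF : F ∈ WReg K (fun _ : Fin 1 => x) m) {w : Valuation N ℤᵐ⁰}
    (hw : ∀ a : K, a ≠ 0 → w (algebraMap K N a) = 1) (hx1 : w x ≤ 1)
    (hu : Br.Unr (IntermediateField.adjoin K {x}) w) : w F ≤ 1 := by
  classical
  by_contra hF1
  rw [not_le] at hF1
  have hFi : w F⁻¹ < 1 := by rw [map_inv₀]; exact inv_lt_one_of_one_lt₀ hF1
  have hFi0 : F⁻¹ ≠ 0 := by
    intro h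
    rw [inv_eq_zero] at h
    rw [h, map_zero] at hF1
    exact not_lt_zero hF1
  -- elements of `K(x)`
  have hun : ∀ z : N, z ≠ 0 → w z < 1 → ∃ t ∈ IntermediateField.adjoin K {x},
      t ≠ 0 ∧ w t < 1 ∧ w z ≤ w t := by
    intro z hz0 hz
    obtain ⟨t, ht1, ht2⟩ := hu z hz
    refine ⟨t, t.2, ?_, ht1, ht2⟩
    intro h
    have h1 : algebraMap (IntermediateField.adjoin K {x}) N t = 0 := h
    rw [h1, map_zero, le_zero_iff, Valuation.zero_iff] at ht2
    exact hz0 ht2
  -- a polynomial which vanishes at `w`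
  have hex : ∃ n : ℕ, ∃ p : K[X], p ≠ 0 ∧ p.natDegree = n ∧ w (Polynomial.aeval x p) < 1 := by
    obtain ⟨t, ht, ht0, ht1, -⟩ := hun _ hFi0 hFi
    obtain ⟨r, s, hr, hs, -, -, h1⟩ := exists_rep ht ht0
    refine ⟨_, r, hr, rfl, ?_⟩
    rw [h1, map_mul]
    exact mul_lt_one_of_lt_of_le ht1 (aeval_le hw hx1 s)
  obtain ⟨π, hπ0, hπd, hπ⟩ := Nat.find_spec hex
  have hmin : ∀ p : K[X], p ≠ 0 → p.natDegree < π.natDegree → w (Polynomial.aeval x p) = 1 := by
    intro p hp hpd
    refine le_antisymm (aeval_le hw hx1 p) (not_lt.1 fun h => ?_)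
    rw [hπd] at hpd
    exact Nat.find_min hex hpd ⟨p, hp, rfl, h⟩
  have hπ1 : 0 < π.natDegree := by
    rw [Nat.pos_iff_ne_zero]
    intro h
    rw [Polynomial.eq_C_of_natDegree_eq_zero h, Polynomial.aeval_C] at hπ
    have h1 : π.coeff 0 ≠ 0 := by
      intro h2
      apply hπ0
      rw [Polynomial.eq_C_of_natDegree_eq_zero h, h2, map_zero]
    rw [hw _ h1] at hπ
    exact lt_irrefl _ hπ
  have hder : w (Polynomial.aeval x (Polynomial.derivative π)) = 1 := by
    refine hmin _ ?_ (Polynomial.natDegree_derivative_lt hπ1.ne')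
    intro h
    have h1 := Polynomial.natDegree_eq_zero_of_derivative_eq_zero h
    omega
  have hπx0 : Polynomial.aeval x π ≠ 0 := by
    intro h
    have h1 : Transcendental K x := hx.1.transcendental 0
    exact hπ0 ((transcendental_iff.1 h1) π h)
  -- `π(x)` is a uniformizer of `K(x)`
  have hle : ∀ t ∈ IntermediateField.adjoin K {x}, t ≠ 0 → w t < 1 →
      w t ≤ w (Polynomial.aeval x π) := by
    intro t ht ht0 ht1
    obtain ⟨r, s, hr, hs, ⟨a, b, hab⟩, hs0, h1⟩ := exists_rep ht ht0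
    have h2 : w (Polynomial.aeval x r) = w t * w (Polynomial.aeval x s) := by rw [h1, map_mul]
    have hrlt : w (Polynomial.aeval x r) < 1 := by
      rw [h2]
      exact mul_lt_one_of_lt_of_le ht1 (aeval_le hw hx1 s)
    have hs1 : w (Polynomial.aeval x s) = 1 := by
      refine le_antisymm (aeval_le hw hx1 s) (not_lt.1 fun h => ?_)
      have h3 := congrArg (Polynomial.aeval x) hab
      rw [map_add, map_mul, map_mul, map_one] at h3
      have h4 : w (1 : N) < 1 := by
        rw [← h3]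
        refine Valuation.map_add_lt _ ?_ ?_
        · rw [map_mul, mul_comm]
          exact mul_lt_one_of_lt_of_le hrlt (aeval_le hw hx1 a)
        · rw [map_mul, mul_comm]
          exact mul_lt_one_of_lt_of_le h (aeval_le hw hx1 b)
      rw [map_one] at h4
      exact lt_irrefl _ h4
    rw [hs1, mul_one] at h2
    rw [← h2]
    have h3 : Polynomial.aeval x r = Polynomial.aeval x π * Polynomial.aeval x (r / π) +
        Polynomial.aeval x (r % π) := by
      rw [← map_mul, ← map_add, EuclideanDomain.div_add_mod]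
    have h4 : r % π = 0 := by
      by_contra h0
      have h5 := hmin _ h0 (by
        have h6 : (r % π).degree < π.degree := EuclideanDomain.mod_lt r hπ0
        exact Polynomial.natDegree_lt_natDegree h0 h6)
      have h6 : w (Polynomial.aeval x (r % π)) < 1 := by
        have h7 : Polynomial.aeval x (r % π) =
            Polynomial.aeval x r - Polynomial.aeval x π * Polynomial.aeval x (r / π) := by
          rw [h3]; ring
        rw [h7]
        refine Valuation.map_sub_lt _ hrlt ?_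
        rw [map_mul]
        exact mul_lt_one_of_lt_of_le hπ (aeval_le hw hx1 _)
      rw [h5] at h6
      exact lt_irrefl _ h6
    rw [h3, h4, map_zero, add_zero, map_mul]
    exact mul_le_of_le_one_right' (aeval_le hw hx1 _)
  obtain ⟨t, ht0, ht1, hb⟩ := log_core hdim hx hF hw hπx0 hπ (g := 1) (fun D hD => by
    have h1 : D (Polynomial.aeval x π) =
        Polynomial.aeval x (Polynomial.derivative π) • D x := D.map_aeval π x
    rw [hD, smul_eq_mul] at h1
    have h2 := congrArg w h1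
    rw [map_mul, hder, one_mul] at h2
    exact h2.symm)
  obtain ⟨t', ht', ht0', ht1', htt'⟩ := hun t ht0 ht1
  have h1 := htt'.trans (hle t' ht' ht0' ht1')
  rw [map_one, one_mul] at hb
  have h2 : w F * w (Polynomial.aeval x π) ^ m ≤ 1 * w (Polynomial.aeval x π) ^ m := by
    rw [one_mul]
    exact hb.trans (pow_le_pow_left' h1 m)
  have h3 : 0 < w (Polynomial.aeval x π) ^ m :=
    zero_lt_iff.2 (pow_ne_zero _ ((Valuation.ne_zero_iff w).2 hπx0))
  exact absurd (le_of_mul_le_mul_right h2 h3) (not_le.2 hF1)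

/-- a place over a point with the ramification index `r` -/
theorem bound_idx (hdim : dimension K N = 1) {x : N}
    (hx : IsTranscendenceBasis K (fun _ : Fin 1 => x)) {F : N} {m : ℕ}
    (hF : F ∈ WReg K (fun _ : Fin 1 => x) m) {w : Valuation N ℤᵐ⁰}
    (hw : ∀ a : K, a ≠ 0 → w (algebraMap K N a) = 1) (e : K) {r R : ℕ} (hr : r ∣ R)
    (hidx : IsIdx K x (algebraMap K N e) r) (he : w (x - algebraMap K N e) < 1) :
    w F ^ R * w (x - algebraMap K N e) ^ (m * (R - R / r)) ≤ 1 := by
  have hc0 : x - algebraMap K N e ≠ 0 := by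
    intro h
    have h1 : Transcendental K x := hx.1.transcendental 0
    rw [sub_eq_zero] at h
    exact h1 (h ▸ isAlgebraic_algebraMap e)
  obtain ⟨t, ht0, ht1, hb⟩ := log_core hdim hx hF hw hc0 he (g := 1) (fun D hD => by
    rw [map_sub, D.map_algebraMap, sub_zero] at hD
    rw [hD])
  obtain ⟨t₀, h1, h2, h3⟩ := hidx w hw he
  have ht₀ : w t₀ ≠ 0 := by
    intro h
    have h4 := h2 t ht1
    rw [h, le_zero_iff, Valuation.zero_iff] at h4
    exact ht0 h4
  rw [map_one, one_mul] at hb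
  have h4 : w F * w t₀ ^ (r * m) ≤ w t₀ ^ m := by
    refine le_trans (le_of_eq ?_) (hb.trans (pow_le_pow_left' (h2 t ht1) m))
    rw [h3, ← pow_mul]
  obtain ⟨q, rfl⟩ := hr
  rcases Nat.eq_zero_or_pos r with hr0 | hr0
  · subst hr0
    simp
  have h5 : r * q / r = q := Nat.mul_div_cancel_left q hr0
  rw [h5, h3, ← pow_mul]
  have h6 : (w F * w t₀ ^ (r * m)) ^ (r * q) ≤ (w t₀ ^ m) ^ (r * q) := pow_le_pow_left' h4 _
  have h7 : (w F) ^ (r * q) * w t₀ ^ (r * (m * (r * q - q))) * w t₀ ^ (m * (r * q)) ≤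
      1 * w t₀ ^ (m * (r * q)) := by
    rw [one_mul]
    refine le_trans (le_of_eq ?_) (h6.trans (le_of_eq (by rw [← pow_mul])))
    rw [mul_pow, mul_assoc, ← pow_add, ← pow_mul]
    congr 2
    obtain ⟨r', rfl⟩ : ∃ r', r = r' + 1 := ⟨r - 1, by omega⟩
    have h8 : (r' + 1) * q - q = r' * q := by
      rw [add_mul, one_mul, Nat.add_sub_cancel]
    rw [h8]
    ring
  exact le_of_mul_le_mul_right h7 (zero_lt_iff.2 (pow_ne_zero _ ht₀))

/-- a place over `∞` -/
theorem bound_inf (hdim : dimension K N = 1) {x : N}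
    (hx : IsTranscendenceBasis K (fun _ : Fin 1 => x)) {F : N} {m : ℕ}
    (hF : F ∈ WReg K (fun _ : Fin 1 => x) m) {w : Valuation N ℤᵐ⁰}
    (hw : ∀ a : K, a ≠ 0 → w (algebraMap K N a) = 1) (hx1 : 1 < w x)
    (hu : Br.Unr (IntermediateField.adjoin K {x}) w) : w F * w x ^ (2 * m) ≤ 1 := by
  have hx0 : x ≠ 0 := by
    rintro rfl
    rw [map_zero] at hx1
    exact not_lt_zero hx1
  have hwx : w x ≠ 0 := (Valuation.ne_zero_iff w).2 hx0
  have hxi : w x⁻¹ < 1 := by rw [map_inv₀]; exact inv_lt_one_of_one_lt₀ hx1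
  obtain ⟨t, ht0, ht1, hb⟩ := log_core hdim hx hF hw (inv_ne_zero hx0) hxi (g := x ^ 2)
    (fun D hD => by
      rw [Derivation.leibniz_inv, smul_eq_mul] at hD
      have h1 : D x = -(x ^ 2) := by
        have h2 : x ^ 2 * (-x⁻¹ ^ 2 * D x) = x ^ 2 := by rw [hD, mul_one]
        have h3 : x ^ 2 * (-x⁻¹ ^ 2 * D x) = -D x := by
          rw [← mul_assoc, mul_neg, ← mul_pow, mul_inv_cancel₀ hx0, one_pow, neg_one_mul]
        rw [h3] at h2
        rw [← h2, neg_neg]
      rw [h1, Valuation.map_neg])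
  obtain ⟨t', ht1', htt'⟩ := hu t ht1
  have ht0' : algebraMap (IntermediateField.adjoin K {x}) N t' ≠ 0 := by
    intro h
    rw [h, map_zero, le_zero_iff, Valuation.zero_iff] at htt'
    exact ht0 htt'
  obtain ⟨r, s, hr, hs, -, hs0, h1⟩ := exists_rep t'.2 ht0'
  have h2 := congrArg w h1
  rw [map_mul, aeval_big hw hx1 hr, aeval_big hw hx1 hs] at h2
  have h3 : r.natDegree + 1 ≤ s.natDegree := by
    by_contra hlt
    have h4 : s.natDegree ≤ r.natDegree := by omega
    have h5 : w x ^ s.natDegree ≤ w x ^ r.natDegree := pow_le_pow_right₀ hx1.le h4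
    rw [h2] at h5
    have h6 : w (t' : N) * w x ^ s.natDegree < 1 * w x ^ s.natDegree :=
      mul_lt_mul_of_pos_right ht1' (zero_lt_iff.2 (pow_ne_zero _ hwx))
    rw [one_mul] at h6
    exact absurd h5 (not_le.2 h6)
  have h4 : w (t' : N) * w x ≤ 1 := by
    have h5 : w (t' : N) * w x * w x ^ r.natDegree ≤ 1 * w x ^ r.natDegree := by
      rw [one_mul, mul_assoc, ← pow_succ']
      calc w (t' : N) * w x ^ (r.natDegree + 1) ≤ w (t' : N) * w x ^ s.natDegree := by
            gcongr
            exact hx1.le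
        _ = _ := h2.symm
    exact le_of_mul_le_mul_right h5 (zero_lt_iff.2 (pow_ne_zero _ hwx))
  have h5 : w t * w x ≤ 1 := (mul_le_mul_left htt' (w x)).trans h4
  have h6 : w (x ^ 2) * w x⁻¹ = w x := by
    rw [← map_mul]
    congr 1
    field_simp
  rw [h6] at hb
  calc w F * w x ^ (2 * m) = (w F * w x ^ m) * w x ^ m := by
        rw [mul_assoc, ← pow_add, two_mul]
    _ ≤ w t ^ m * w x ^ m := by gcongr
    _ = (w t * w x) ^ m := (mul_pow _ _ _).symm
    _ ≤ 1 := pow_le_one' h5 m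

omit [CharZero K] [Algebra.EssFiniteType K N] in
theorem sub_ne {x : N} (hx : Transcendental K x) (e : K) : x - algebraMap K N e ≠ 0 := by
  intro h
  rw [sub_eq_zero] at h
  exact hx (h ▸ isAlgebraic_algebraMap e)

end NormAux

open NormAux

/-- the canonical divisor of the generic fibre has degree `≥ 0` (`> 0` if the Kodaira dimension is 1) -/
theorem sum_of_kod {K N : Type*} [Field K] [CharZero K] [Field N] [Algebra K N] [DecidableEq N]
    [Algebra.EssFiniteType K N] {x : N} (hx : Transcendental K x)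
    [FiniteDimensional (IntermediateField.adjoin K {x}) N]
    {S : Finset N} (hS : ∀ e ∈ S, ∃ e' : K, algebraMap K N e' = e) {r : N → ℕ} (hr : ∀ e ∈ S, 1 ≤ r e)
    (hidx : ∀ e ∈ S, IsIdx K x e (r e))
    (hunr : ∀ u : Valuation N ℤᵐ⁰, (∀ a : K, a ≠ 0 → u (algebraMap K N a) = 1) →
      (∀ e ∈ S, ¬ u (x - e) < 1) → Br.Unr (IntermediateField.adjoin K {x}) u)
    {δ : ℕ} (hδ : δ ≤ 1) (h : KodairaGE K N δ) :
    2 * ∏ e ∈ S, r e + δ ≤ ∑ e ∈ S, (∏ e ∈ S, r e - (∏ e ∈ S, r e) / r e) := by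
  obtain ⟨hdim, htb⟩ := dim_one hx
  obtain ⟨R, hR⟩ : ∃ R, R = ∏ e ∈ S, r e := ⟨_, rfl⟩
  rw [← hR]
  obtain ⟨Q, hQ⟩ : ∃ Q, Q = ∑ e ∈ S, (R - R / r e) := ⟨_, rfl⟩
  rw [← hQ]
  have hRpos : 0 < R := hR ▸ Finset.prod_pos fun e he => hr e he
  -- the forms
  let ε : Fin (dimension K N) ≃ Fin 1 := finCongr hdim
  obtain ⟨m, hm, f₀, hf₀, hne, f, hf, hff⟩ :=
    h.exists_coord (z := (fun _ : Fin 1 => x) ∘ ε) ((isTranscendenceBasis_equiv ε).2 htb)
  have hcv : ∀ g : N, g ∈ WReg K ((fun _ : Fin 1 => x) ∘ ε) m →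
      g ∈ WReg K (fun _ : Fin 1 => x) m := fun g hg => WReg.reindex hg ε.symm
  obtain ⟨T, hT⟩ : ∃ T : N → N, T = fun F => F ^ R * ∏ e ∈ S, (x - e) ^ (m * (R - R / r e)) :=
    ⟨_, rfl⟩
  have hT0 : ∀ F, F ≠ 0 → T F ≠ 0 := by
    intro F hF
    rw [hT]
    refine mul_ne_zero (pow_ne_zero _ hF) (Finset.prod_ne_zero_iff.2 fun e he => pow_ne_zero _ ?_)
    obtain ⟨e', rfl⟩ := hS e he
    exact sub_ne hx e'
  have hwe : ∀ w : Valuation N ℤᵐ⁰, (∀ a : K, a ≠ 0 → w (algebraMap K N a) = 1) → ∀ e ∈ S,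
      w e ≤ 1 := by
    intro w hw e he
    obtain ⟨e', rfl⟩ := hS e he
    exact le_of_triv hw e'
  -- finite places
  have claim1 : ∀ F ∈ WReg K (fun _ : Fin 1 => x) m, ∀ w : Valuation N ℤᵐ⁰,
      (∀ a : K, a ≠ 0 → w (algebraMap K N a) = 1) → w x ≤ 1 → w (T F) ≤ 1 := by
    intro F hF w hw hx1
    have hle : ∀ e ∈ S, w (x - e) ≤ 1 := fun e he =>
      (w.map_sub x e).trans (max_le hx1 (hwe w hw e he))
    rw [hT]
    simp only
    rw [map_mul, map_pow, map_prod]
    by_cases hcase : ∃ e ∈ S, w (x - e) < 1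
    · obtain ⟨e, he, hlt⟩ := hcase
      rw [← Finset.mul_prod_erase S _ he, ← mul_assoc]
      refine mul_le_one' ?_ (Finset.prod_le_one' fun a ha => ?_)
      · obtain ⟨e', he'⟩ := hS e he
        have h1 := hidx e he
        rw [map_pow]
        rw [← he'] at hlt h1 ⊢
        exact bound_idx hdim htb hF hw e' (by rw [he', hR]; exact Finset.dvd_prod_of_mem r he) h1 hlt
      · rw [map_pow]
        exact pow_le_one' (hle a (Finset.mem_of_mem_erase ha)) _
    · have h1 : ∀ e ∈ S, ¬ w (x - e) < 1 := fun e he hlt => hcase ⟨e, he, hlt⟩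
      have h2 := bound_fin hdim htb hF hw hx1 (hunr w hw h1)
      refine mul_le_one' (pow_le_one' h2 R) (Finset.prod_le_one' fun a ha => ?_)
      rw [map_pow]
      exact pow_le_one' (hle a ha) _
  -- infinite places
  have claim2 : ∀ F ∈ WReg K (fun _ : Fin 1 => x) m, ∀ w : Valuation N ℤᵐ⁰,
      (∀ a : K, a ≠ 0 → w (algebraMap K N a) = 1) → 1 < w x →
        w (T F) * w x ^ (m * (2 * R)) ≤ w x ^ (m * Q) := by
    intro F hF w hw hx1
    have heq : ∀ e ∈ S, w (x - e) = w x := fun e he =>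
      w.map_sub_eq_of_lt_left ((hwe w hw e he).trans_lt hx1)
    have h1 : ∀ e ∈ S, ¬ w (x - e) < 1 := fun e he => by
      rw [heq e he]
      exact not_lt.2 hx1.le
    have h2 := bound_inf hdim htb hF hw hx1 (hunr w hw h1)
    have h3 : w (T F) = w F ^ R * w x ^ (m * Q) := by
      rw [hT]
      simp only
      rw [map_mul, map_pow, map_prod, hQ, Finset.mul_sum, ← Finset.prod_pow_eq_pow_sum]
      congr 1
      refine Finset.prod_congr rfl fun e he => ?_
      rw [map_pow, heq e he]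
    rw [h3, mul_right_comm]
    have h4 : w F ^ R * w x ^ (m * (2 * R)) = (w F * w x ^ (2 * m)) ^ R := by
      rw [mul_pow, ← pow_mul]
      congr 2
      ring
    rw [h4]
    exact mul_le_of_le_one_left' (pow_le_one' h2 R)
  by_contra hlt
  rw [not_le] at hlt
  have hQR : Q ≤ 2 * R := by omega
  -- `T F` is algebraic over `K`
  have claim3 : ∀ F ∈ WReg K (fun _ : Fin 1 => x) m, IsAlgebraic K (T F) := by
    intro F hF
    by_contra htr
    obtain ⟨w, hw, hw1⟩ := Ell.exists_pole hdim (f := T F) htr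
    rcases le_or_gt (w x) 1 with hx1 | hx1
    · exact absurd (claim1 F hF w hw hx1) (not_le.2 hw1)
    · have h1 := claim2 F hF w hw hx1
      have h2 : w x ^ (m * Q) ≤ 1 * w x ^ (m * (2 * R)) := by
        rw [one_mul]
        exact pow_le_pow_right₀ hx1.le (Nat.mul_le_mul_left m hQR)
      have h3 : 0 < w x ^ (m * (2 * R)) :=
        zero_lt_iff.2 (pow_ne_zero _ (zero_lt_one.trans hx1).ne')
      exact absurd (le_of_mul_le_mul_right (h1.trans h2) h3) (not_le.2 hw1)
  rcases Nat.lt_or_ge Q (2 * R) with hQ1 | hQ1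
  · obtain ⟨w, hw, hx1⟩ := Ell.exists_pole hdim hx
    have h1 := claim2 f₀ (hcv _ hf₀) w hw hx1
    rw [val_alg hw (hT0 _ hne) (claim3 _ (hcv _ hf₀)), one_mul] at h1
    exact absurd h1 (not_le.2 (pow_lt_pow_right₀ hx1
      (Nat.mul_lt_mul_of_pos_left hQ1 (by omega))))
  · have hδ1 : δ = 1 := by omega
    subst hδ1
    have hφ : Transcendental K (f 0) := hf.transcendental 0
    have h1 : T (f 0 * f₀) = f 0 ^ R * T f₀ := by
      rw [hT]
      simp only
      rw [mul_pow, mul_assoc]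
    have h2 : f 0 ^ R = T (f 0 * f₀) * (T f₀)⁻¹ := by
      rw [h1, mul_assoc, mul_inv_cancel₀ (hT0 _ hne), mul_one]
    have h3 : IsAlgebraic K (f 0 ^ R) := by
      rw [h2]
      exact (claim3 _ (hcv _ (hff 0))).mul (claim3 _ (hcv _ hf₀)).inv
    exact hφ (h3.of_pow hRpos)

end Pf72953.Pl
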