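import Mathlib
import Pool.Agent.Lib.Pf72953i.Main

/-!
The form `r₀` on `X·Y₂`, `Y₂ = k(t, y₀)`, `y₀² = t⁵ - 1`: the forms `r₀`, `t r₀`, `t⁻¹ r₀`, `(t - 1)⁻¹ r₀` are regular.
-/

set_option autoImplicit false
set_option linter.style.haveILetI false

open scoped WithZero
open Pf72953 Pf72953.Mov Pf72953.Tow Pf72953.Et

namespace Pf72953.Pl

theorem wreg_prod {k K ι : Type*} [Field k] [CharZero k] [Field K] [Algebra k K] [Fintype ι]
    [DecidableEq ι] {z : ι → K} {m m' : ℕ} {f g : K} (hf : f ∈ WReg k z m)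
    (hg : g ∈ WReg k z m') : f * g ∈ WReg k z (m + m') := by
  intro w hw c hc
  rw [map_mul, pow_add, mul_mul_mul_comm]
  exact mul_le_one' (hf w hw c hc) (hg w hw c hc)

section curve

variable {k C : Type*} [Field k] [CharZero k] [Field C] [Algebra k C]

/-- the forms of weight `3 (m + 1)` on the curve `y² = t⁵ - 1` -/
theorem curve_forms3 {t y : C} (hy : y ≠ 0) (h : y ^ 2 = t ^ 5 - 1) (ht0 : t ≠ 0)
    (ht1 : t - 1 ≠ 0) (m : ℕ) :
    (y⁻¹ * (t * y⁻¹) * ((t - 1) * y⁻¹)) ^ (m + 1) ∈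
        WReg k (fun _ : Fin 1 => t) (3 * m + 3) ∧
      t * (y⁻¹ * (t * y⁻¹) * ((t - 1) * y⁻¹)) ^ (m + 1) ∈
        WReg k (fun _ : Fin 1 => t) (3 * m + 3) ∧
      t⁻¹ * (y⁻¹ * (t * y⁻¹) * ((t - 1) * y⁻¹)) ^ (m + 1) ∈
        WReg k (fun _ : Fin 1 => t) (3 * m + 3) ∧
      (t - 1)⁻¹ * (y⁻¹ * (t * y⁻¹) * ((t - 1) * y⁻¹)) ^ (m + 1) ∈
        WReg k (fun _ : Fin 1 => t) (3 * m + 3) := by
  obtain ⟨h0, h1⟩ := curve_forms (k := k) hy h 0
  rw [zero_add, pow_one] at h0 h1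
  have h2 : (t - 1) * y⁻¹ ∈ WReg k (fun _ : Fin 1 => t) 1 := by
    have h3 := WReg.add h1 (WReg.smul h0 (-1))
    have h4 : t * y⁻¹ + algebraMap k C (-1) * y⁻¹ = (t - 1) * y⁻¹ := by
      rw [map_neg, map_one]; ring
    rwa [h4] at h3
  have hg : (y⁻¹ * (t * y⁻¹) * ((t - 1) * y⁻¹)) ^ m ∈ WReg k (fun _ : Fin 1 => t) (3 * m) :=
    WReg.pow (wreg_prod (wreg_prod h0 h1) h2) m
  have key : ∀ a b c u : C, a ∈ WReg k (fun _ : Fin 1 => t) 1 →
      b ∈ WReg k (fun _ : Fin 1 => t) 1 → c ∈ WReg k (fun _ : Fin 1 => t) 1 →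
      a * b * c = u * (y⁻¹ * (t * y⁻¹) * ((t - 1) * y⁻¹)) →
      u * (y⁻¹ * (t * y⁻¹) * ((t - 1) * y⁻¹)) ^ (m + 1) ∈
        WReg k (fun _ : Fin 1 => t) (3 * m + 3) := by
    intro a b c u ha hb hc he
    have h3 := wreg_prod hg (wreg_prod (wreg_prod ha hb) hc)
    have h4 : (y⁻¹ * (t * y⁻¹) * ((t - 1) * y⁻¹)) ^ m * (a * b * c) =
        u * (y⁻¹ * (t * y⁻¹) * ((t - 1) * y⁻¹)) ^ (m + 1) := by
      rw [he, pow_succ]; ring
    rwa [h4] at h3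
  refine ⟨?_, ?_, ?_, ?_⟩
  · have h3 := key _ _ _ 1 h0 h1 h2 (by rw [one_mul])
    rwa [one_mul] at h3
  · exact key _ _ _ t h1 h1 h2 (by ring)
  · refine key _ _ _ t⁻¹ h0 h0 h2 ?_
    field_simp
  · refine key _ _ _ (t - 1)⁻¹ h0 h1 h0 ?_
    field_simp

end curve

variable {k Ω : Type*} [Field k] [CharZero k] [IsAlgClosed k] [Field Ω] [IsAlgClosed Ω]
  [Algebra k Ω]

theorem exists_r0 {X Y₂ : IntermediateField k Ω} [Fact (X ≤ X ⊔ Y₂)] (hX : Fin' X)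
    (h0 : KodairaGE k X 0) {t y₀ : Ω} (ht : Transcendental X t) (hty : y₀ ^ 2 = t ^ 5 - 1)
    (hY₂ : Y₂ = IntermediateField.adjoin k {t, y₀}) (htW : t ∈ X ⊔ Y₂) :
    ∃ (n : ℕ) (z : Fin n → (X ⊔ Y₂ : IntermediateField k Ω)), IsTranscendenceBasis k z ∧
      ∃ (m₀ : ℕ) (r₀ : (X ⊔ Y₂ : IntermediateField k Ω)), 1 ≤ m₀ ∧ r₀ ≠ 0 ∧ r₀ ∈ WReg k z m₀ ∧
        ⟨t, htW⟩ * r₀ ∈ WReg k z m₀ ∧
        (⟨t, htW⟩ : (X ⊔ Y₂ : IntermediateField k Ω))⁻¹ * r₀ ∈ WReg k z m₀ ∧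
        (⟨t, htW⟩ - 1)⁻¹ * r₀ ∈ WReg k z m₀ := by
  classical
  have htY : t ∈ Y₂ := by
    rw [hY₂]; exact IntermediateField.subset_adjoin k _ (Or.inl rfl)
  have hy₀Y : y₀ ∈ Y₂ := by
    rw [hY₂]; exact IntermediateField.subset_adjoin k _ (Or.inr rfl)
  have hYf : Fin' Y₂ := by
    rw [hY₂, Fin', IntermediateField.essFiniteType_iff]
    exact ⟨{t, y₀}, by rw [Finset.coe_pair]⟩
  have hWf : Fin' (X ⊔ Y₂) := fin_sup hX hYf
  haveI f7 : Fact (Y₂ ≤ X ⊔ Y₂) := ⟨le_sup_right⟩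
  haveI : Algebra.EssFiniteType k X := hX
  haveI : Algebra.EssFiniteType k Y₂ := hYf
  haveI : Algebra.EssFiniteType k (X ⊔ Y₂ : IntermediateField k Ω) := hWf
  have htk : Transcendental k t := fun h => ht (h.tower_top X)
  set t' : Y₂ := ⟨t, htY⟩ with ht'
  set y' : Y₂ := ⟨y₀, hy₀Y⟩ with hy'
  have htr : Transcendental k t' := fun h => htk
    ((isAlgebraic_algebraMap_iff (R := k) (A := Ω) (S := Y₂) (algebraMap Y₂ Ω).injective).2 h)
  have hty' : y' ^ 2 = t' ^ 5 - 1 := Subtype.ext hty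
  have hy'0 : y' ≠ 0 := by
    intro h1
    have h2 : t' ^ 5 - 1 = 0 := by
      rw [← hty', h1, zero_pow two_ne_zero]
    refine htr ⟨Polynomial.X ^ 5 - 1, fun h5 => ?_, by simpa using h2⟩
    have h6 := congrArg Polynomial.natDegree h5
    rw [← Polynomial.C_1, Polynomial.natDegree_X_pow_sub_C, Polynomial.natDegree_zero] at h6
    omega
  have ht0 : t' ≠ 0 := fun h => htr (h ▸ isAlgebraic_zero)
  have ht1 : t' - 1 ≠ 0 := by
    intro h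
    have h1 : t' = 1 := sub_eq_zero.1 h
    apply hy'0
    have h2 : y' ^ 2 = 0 := by rw [hty', h1, one_pow, sub_self]
    exact pow_eq_zero_iff (two_ne_zero) |>.1 h2
  have hYdim : dimension k Y₂ = 1 := by
    have h1 := dim_gens (k := k) (m := 1) (x := fun _ => t) (y := fun _ => y₀) (fun _ => hty)
      (algebraicIndependent_unique_type_iff.2 htk)
    rw [← range_one] at h1
    rw [hY₂]
    exact h1
  have hi : Indep X Y₂ := indep_curve hX hYf hYdim htY ht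
  have hzY : IsTranscendenceBasis k (fun _ : Fin 1 => t') :=
    isTranscendenceBasis_of_card (by rw [Fintype.card_fin, hYdim])
      (algebraicIndependent_unique_type_iff.2 htr)
  obtain ⟨zX, hzX⟩ := exists_tb k X
  obtain ⟨mX, hmX, rX, hrX, hrX0, -, -, -⟩ := h0.exists_coord hzX
  obtain ⟨m', rfl⟩ : ∃ m', mX = m' + 1 := ⟨mX - 1, by omega⟩
  have halgW : ∀ u : (X ⊔ Y₂ : IntermediateField k Ω), IsAlgebraic (Algebra.adjoin k
      (Set.range (algebraMap X (X ⊔ Y₂ : IntermediateField k Ω)) ∪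
        Set.range (algebraMap Y₂ (X ⊔ Y₂ : IntermediateField k Ω)))) u :=
    alg_sup fun v hv => alg_of_mem hv
  obtain ⟨g0, g1, g2, g3⟩ := curve_forms3 (k := k) hy'0 hty' ht0 ht1 m'
  have hrX3 : rX ^ 3 ∈ WReg k zX (3 * m' + 3) := by
    have h1 := WReg.pow hrX 3
    have h2 : (m' + 1) * 3 = 3 * m' + 3 := by ring
    rwa [h2] at h1
  have r1 := wreg_mul (N := (X ⊔ Y₂ : IntermediateField k Ω)) (Eq.symm hi) halgW hzX hzY hrX3 g0
  have r2 := wreg_mul (N := (X ⊔ Y₂ : IntermediateField k Ω)) (Eq.symm hi) halgW hzX hzY hrX3 g1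
  have r3 := wreg_mul (N := (X ⊔ Y₂ : IntermediateField k Ω)) (Eq.symm hi) halgW hzX hzY hrX3 g2
  have r4 := wreg_mul (N := (X ⊔ Y₂ : IntermediateField k Ω)) (Eq.symm hi) halgW hzX hzY hrX3 g3
  have hz := sumElim_tb (B := X) (F := Y₂) (L := (X ⊔ Y₂ : IntermediateField k Ω)) (Eq.symm hi)
    halgW hzX hzY
  set G : Y₂ := (y'⁻¹ * (t' * y'⁻¹) * ((t' - 1) * y'⁻¹)) ^ (m' + 1) with hG
  have hG0 : G ≠ 0 := pow_ne_zero _ (mul_ne_zero (mul_ne_zero (inv_ne_zero hy'0)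
    (mul_ne_zero ht0 (inv_ne_zero hy'0))) (mul_ne_zero ht1 (inv_ne_zero hy'0)))
  have htW' : (⟨t, htW⟩ : (X ⊔ Y₂ : IntermediateField k Ω)) =
      algebraMap Y₂ (X ⊔ Y₂ : IntermediateField k Ω) t' := rfl
  refine ⟨dimension k X + 1, _, (isTranscendenceBasis_equiv (finSumFinEquiv.symm)).mpr hz,
    3 * m' + 3, algebraMap X (X ⊔ Y₂ : IntermediateField k Ω) (rX ^ 3) *
      algebraMap Y₂ (X ⊔ Y₂ : IntermediateField k Ω) G, by omega, ?_, ?_, ?_, ?_, ?_⟩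
  · exact mul_ne_zero ((map_ne_zero _).2 (pow_ne_zero _ hrX0)) ((map_ne_zero _).2 hG0)
  · exact WReg.reindex r1 _
  · have h1 := WReg.reindex r2 (finSumFinEquiv (m := dimension k X) (n := 1)).symm
    rw [htW', mul_left_comm, ← map_mul (algebraMap Y₂ (X ⊔ Y₂ : IntermediateField k Ω))]
    exact h1
  · have h1 := WReg.reindex r3 (finSumFinEquiv (m := dimension k X) (n := 1)).symm
    rw [htW', mul_left_comm, ← map_inv₀ (algebraMap Y₂ (X ⊔ Y₂ : IntermediateField k Ω)),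
      ← map_mul (algebraMap Y₂ (X ⊔ Y₂ : IntermediateField k Ω))]
    exact h1
  · have h1 := WReg.reindex r4 (finSumFinEquiv (m := dimension k X) (n := 1)).symm
    rw [htW', mul_left_comm, ← map_one (algebraMap Y₂ (X ⊔ Y₂ : IntermediateField k Ω)),
      ← map_sub, ← map_inv₀ (algebraMap Y₂ (X ⊔ Y₂ : IntermediateField k Ω)),
      ← map_mul (algebraMap Y₂ (X ⊔ Y₂ : IntermediateField k Ω))]
    exact h1

end Pf72953.Pl
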