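import Mathlib
import Pool.Agent.Lib.Pf72953n.Defs

/-!
Galois covers of `ℙ¹`-bundles: the weights.
-/

set_option autoImplicit false

open scoped WithZero
open Pf72953

namespace Pf72953.Pl

variable {N : Type*} [DecidableEq N]

theorem MG_eq_sum (S : Finset N) (m : N → N → ℕ) : MG S m = ∑ e ∈ S, DG S m e := by
  unfold MG DG
  refine Finset.sum_finset_product (r := S.offDiag) (s := S) (t := fun e => S.erase e)
    (f := fun p => m p.1 p.2) ?_
  intro p
  rw [Finset.mem_offDiag, Finset.mem_erase]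
  constructor
  · rintro ⟨h1, h2, h3⟩
    exact ⟨h1, h3.symm, h2⟩
  · rintro ⟨h1, h2, h3⟩
    exact ⟨h1, h3, h2.symm⟩

theorem DG_one (S : Finset N) {e : N} (he : e ∈ S) : DG S (fun _ _ => 1) e = S.card - 1 := by
  rw [DG, Finset.sum_const, smul_eq_mul, mul_one, Finset.card_erase_of_mem he]

theorem MG_one (S : Finset N) : MG S (fun _ _ => 1) = S.card * (S.card - 1) := by
  rw [MG_eq_sum, Finset.sum_congr rfl fun e he => DG_one S he, Finset.sum_const, smul_eq_mul]

theorem exists_three {S : Finset N} (h : S.card = 3) {e : N} (he : e ∈ S) :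
    ∃ a b, a ≠ b ∧ e ≠ a ∧ e ≠ b ∧ S = {e, a, b} := by
  have h1 : (S.erase e).card = 2 := by rw [Finset.card_erase_of_mem he, h]
  obtain ⟨a, b, hab, hS⟩ := Finset.card_eq_two.1 h1
  have ha : a ∈ S.erase e := by rw [hS]; simp
  have hb : b ∈ S.erase e := by rw [hS]; simp
  refine ⟨a, b, hab, (Finset.ne_of_mem_erase ha).symm, (Finset.ne_of_mem_erase hb).symm, ?_⟩
  rw [← Finset.insert_erase he, hS]

/-- the weights of three points -/
def wt3 (R : ℕ) (r : N → ℕ) (a b : N) : ℕ := (R + r a * r b) - (R / r a + R / r b)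

omit [DecidableEq N] in
theorem wt3_add {R : ℕ} {r : N → ℕ} {a b : N} (ha : 2 ≤ r a) (hb : 2 ≤ r b) :
    wt3 R r a b + (R / r a + R / r b) = R + r a * r b := by
  unfold wt3
  have h1 : R / r a ≤ R / 2 := Nat.div_le_div_left ha (by norm_num)
  have h2 : R / r b ≤ R / 2 := Nat.div_le_div_left hb (by norm_num)
  omega

/-- the key identity for three points -/
theorem wt3_key {S : Finset N} {r : N → ℕ} (hr : ∀ e ∈ S, 2 ≤ r e) (hS : S.card = 3) {e : N}
    (he : e ∈ S) :
    ∃ p' : ℕ, r e = p' + 1 ∧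
      2 * DG S (wt3 (∏ e ∈ S, r e) r) e * r e + 2 * p' * ∑ e ∈ S, (∏ e ∈ S, r e - (∏ e ∈ S, r e) / r e) =
        MG S (wt3 (∏ e ∈ S, r e) r) * p' + 4 * p' * ∏ e ∈ S, r e := by
  obtain ⟨a, b, hab, hea, heb, rfl⟩ := exists_three hS he
  have hp := hr e (by simp)
  have hq := hr a (by simp)
  have hs := hr b (by simp)
  obtain ⟨p', hp'⟩ : ∃ p', r e = p' + 1 := ⟨r e - 1, by omega⟩
  refine ⟨p', hp', ?_⟩
  have hR : ∏ x ∈ ({e, a, b} : Finset N), r x = r e * r a * r b := by
    rw [Finset.prod_insert (by simp [hea, heb]), Finset.prod_insert (by simp [hab]),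
      Finset.prod_singleton, mul_assoc]
  have hsum : ∀ f : N → ℕ, ∑ x ∈ ({e, a, b} : Finset N), f x = f e + (f a + f b) := by
    intro f
    rw [Finset.sum_insert (by simp [hea, heb]), Finset.sum_insert (by simp [hab]),
      Finset.sum_singleton]
  have e1 : ({e, a, b} : Finset N).erase e = {a, b} := by
    ext x
    simp only [Finset.mem_erase, Finset.mem_insert, Finset.mem_singleton]
    constructor
    · tauto
    · rintro (rfl | rfl)
      · exact ⟨hea.symm, by tauto⟩
      · exact ⟨heb.symm, by tauto⟩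
  have e2 : ({e, a, b} : Finset N).erase a = {e, b} := by
    ext x
    simp only [Finset.mem_erase, Finset.mem_insert, Finset.mem_singleton]
    constructor
    · tauto
    · rintro (rfl | rfl)
      · exact ⟨hea, by tauto⟩
      · exact ⟨hab.symm, by tauto⟩
  have e3 : ({e, a, b} : Finset N).erase b = {e, a} := by
    ext x
    simp only [Finset.mem_erase, Finset.mem_insert, Finset.mem_singleton]
    constructor
    · tauto
    · rintro (rfl | rfl)
      · exact ⟨heb, by tauto⟩
      · exact ⟨hab, by tauto⟩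
  rw [MG_eq_sum, hsum, hsum, hR]
  unfold DG
  rw [e1, e2, e3, Finset.sum_pair hab, Finset.sum_pair heb, Finset.sum_pair hea]
  set R := r e * r a * r b with hRdef
  have d1 : R / r e = r a * r b := by
    rw [hRdef, mul_assoc, Nat.mul_div_cancel_left _ (by omega)]
  have d2 : R / r a = r e * r b := by
    rw [hRdef, mul_assoc, mul_left_comm, Nat.mul_div_cancel_left _ (by omega)]
  have d3 : R / r b = r e * r a := by
    rw [hRdef, Nat.mul_div_cancel _ (by omega)]
  have w1 := wt3_add (R := R) (r := r) hp hq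
  have w2 := wt3_add (R := R) (r := r) hp hs
  have w3 := wt3_add (R := R) (r := r) hq hs
  have w1' : wt3 R r a e = wt3 R r e a := by unfold wt3; rw [mul_comm, add_comm (R / r a)]
  have w2' : wt3 R r b e = wt3 R r e b := by unfold wt3; rw [mul_comm, add_comm (R / r b)]
  have w3' : wt3 R r b a = wt3 R r a b := by unfold wt3; rw [mul_comm, add_comm (R / r b)]
  rw [w1', w2', w3', d1, d2, d3]
  rw [d1, d2] at w1
  rw [d1, d3] at w2
  rw [d2, d3] at w3
  have l1 : r a * r b ≤ R := by
    rw [hRdef, mul_assoc]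
    exact Nat.le_mul_of_pos_left _ (by omega)
  have l2 : r e * r b ≤ R := by
    rw [hRdef, mul_right_comm]
    exact Nat.le_mul_of_pos_right _ (by omega)
  have l3 : r e * r a ≤ R := by
    rw [hRdef]
    exact Nat.le_mul_of_pos_right _ (by omega)
  generalize hA : wt3 R r e a = A at *
  generalize hB : wt3 R r e b = B at *
  generalize hC : wt3 R r a b = C at *
  rw [hp'] at *
  generalize r a = q at *
  generalize r b = s at *
  zify [l1, l2, l3] at w1 w2 w3 ⊢
  have hA' : (A : ℤ) = R + (p' + 1) * q - (q * s + (p' + 1) * s) := by linarith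
  have hB' : (B : ℤ) = R + (p' + 1) * s - (q * s + (p' + 1) * q) := by linarith
  have hC' : (C : ℤ) = R + q * s - ((p' + 1) * s + (p' + 1) * q) := by linarith
  rw [hA', hB', hC', hRdef]
  push_cast
  ring

theorem exists_weights {S : Finset N} {r : N → ℕ} (hr : ∀ e ∈ S, 2 ≤ r e)
    (h : 2 * ∏ e ∈ S, r e ≤ ∑ e ∈ S, (∏ e ∈ S, r e - (∏ e ∈ S, r e) / r e)) :
    3 ≤ S.card ∧ ∃ m : N → N → ℕ, Weights S r m ∧
      (∀ a ∈ S, ∀ b ∈ S, ∀ a' ∈ S, ∀ b' ∈ S, r a = r a' → r b = r b' → m a b = m a' b') ∧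
      (2 * ∏ e ∈ S, r e + 1 ≤ ∑ e ∈ S, (∏ e ∈ S, r e - (∏ e ∈ S, r e) / r e) →
        ∃ j ∈ S, (2 * DG S m j + 1) * r j ≤ MG S m * (r j - 1)) := by
  set R := ∏ e ∈ S, r e with hR
  have hR0 : 0 < R := Finset.prod_pos fun e he => by have := hr e he; omega
  have hcard : 3 ≤ S.card := by
    by_contra hcon
    have h1 : S.card ≤ 2 := by omega
    have h2 : ∀ e ∈ S, R - R / r e ≤ R - 1 := by
      intro e he
      have h3 : 0 < R / r e := Nat.div_pos (Nat.le_of_dvd hR0 (Finset.dvd_prod_of_mem r he))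
        (by have := hr e he; omega)
      omega
    have h3 := Finset.sum_le_sum h2
    rw [Finset.sum_const, smul_eq_mul] at h3
    have h4 : S.card * (R - 1) ≤ 2 * (R - 1) := Nat.mul_le_mul_right _ h1
    omega
  refine ⟨hcard, ?_⟩
  rcases Nat.lt_or_ge 3 S.card with h4 | h4
  · -- four points or more
    refine ⟨fun _ _ => 1, ⟨fun _ _ => rfl, fun _ _ _ _ => le_rfl, fun e he => ?_⟩,
      fun _ _ _ _ _ _ _ _ _ _ => rfl, fun hs => ?_⟩
    · rw [DG_one S he, MG_one]
      obtain ⟨p', hp'⟩ : ∃ p', r e = p' + 2 := ⟨r e - 2, by have := hr e he; omega⟩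
      obtain ⟨n, hn⟩ : ∃ n, S.card = n + 4 := ⟨S.card - 4, by omega⟩
      rw [hp', hn]
      have e1 : n + 4 - 1 = n + 3 := by omega
      have e2 : p' + 2 - 1 = p' + 1 := by omega
      rw [e1, e2]
      nlinarith [Nat.zero_le (n * p'), Nat.zero_le (n * n * p')]
    · rcases Nat.lt_or_ge 4 S.card with h5 | h5
      · -- five points or more
        obtain ⟨j, hj⟩ : S.Nonempty := Finset.card_pos.1 (by omega)
        refine ⟨j, hj, ?_⟩
        rw [DG_one S hj, MG_one]
        obtain ⟨p', hp'⟩ : ∃ p', r j = p' + 2 := ⟨r j - 2, by have := hr j hj; omega⟩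
        obtain ⟨n, hn⟩ : ∃ n, S.card = n + 5 := ⟨S.card - 5, by omega⟩
        rw [hp', hn]
        have e1 : n + 5 - 1 = n + 4 := by omega
        have e2 : p' + 2 - 1 = p' + 1 := by omega
        rw [e1, e2]
        nlinarith [Nat.zero_le (n * p'), Nat.zero_le (n * n * p')]
      · -- four points
        have hc4 : S.card = 4 := by omega
        have hex : ∃ j ∈ S, 3 ≤ r j := by
          by_contra hcon
          push Not at hcon
          have h6 : ∀ e ∈ S, r e = 2 := fun e he => by
            have := hr e he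
            have := hcon e he
            omega
          have h7 : R = 16 := by
            rw [hR, Finset.prod_congr rfl h6, Finset.prod_const, hc4]
            norm_num
          have h8 : ∑ e ∈ S, (R - R / r e) = 32 := by
            rw [Finset.sum_congr rfl fun e he => by rw [h6 e he, h7], Finset.sum_const, hc4]
            norm_num
          rw [h8, h7] at hs
          omega
        obtain ⟨j, hj, hj3⟩ := hex
        refine ⟨j, hj, ?_⟩
        rw [DG_one S hj, MG_one, hc4]
        omega
  · -- three points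
    have hc3 : S.card = 3 := by omega
    refine ⟨wt3 R r, ⟨fun a b => ?_, fun a ha b hb => ?_, fun e he => ?_⟩, ?_, fun hs => ?_⟩
    · unfold wt3
      rw [mul_comm, add_comm (R / r a)]
    · have h1 := wt3_add (R := R) (hr a ha) (hr b hb)
      have h2 : R / r a ≤ R / 2 := Nat.div_le_div_left (hr a ha) (by norm_num)
      have h3 : R / r b ≤ R / 2 := Nat.div_le_div_left (hr b hb) (by norm_num)
      have h5 := Nat.mul_le_mul (hr a ha) (hr b hb)
      omega
    · obtain ⟨p', hp', hk⟩ := wt3_key hr hc3 he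
      rw [← hR] at hk
      have e2 : r e - 1 = p' := by omega
      rw [e2]
      have h6 : 4 * p' * R ≤ 2 * p' * ∑ e ∈ S, (R - R / r e) := by
        calc 4 * p' * R = 2 * p' * (2 * R) := by ring
          _ ≤ _ := Nat.mul_le_mul_left _ h
      omega
    · intro a _ b _ a' _ b' _ h1 h2
      unfold wt3
      rw [h1, h2]
    · obtain ⟨j, hj⟩ : S.Nonempty := Finset.card_pos.1 (by omega)
      refine ⟨j, hj, ?_⟩
      obtain ⟨p', hp', hk⟩ := wt3_key hr hc3 hj
      rw [← hR] at hk
      have hrj := hr j hj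
      have e2 : r j - 1 = p' := by omega
      rw [e2]
      have h6 : 4 * p' * R + 2 * p' ≤ 2 * p' * ∑ e ∈ S, (R - R / r e) := by
        calc 4 * p' * R + 2 * p' = 2 * p' * (2 * R + 1) := by ring
          _ ≤ _ := Nat.mul_le_mul_left _ hs
      have h7 : (2 * DG S (wt3 R r) j + 1) * r j = 2 * DG S (wt3 R r) j * r j + r j := by ring
      rw [h7]
      omega

end Pf72953.Pl
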