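import Mathlib
import Pool.Agent.Lib.Pf72953n.Line0
import Pool.Agent.Lib.Pf72953n.Inv
import Pool.Agent.Lib.Pf72953n.Wt
import Pool.Agent.Lib.Pf72953n.Hor
import Pool.Agent.Lib.Pf72953n.Idx
import Pool.Agent.Lib.Pf72953n.Down
import Pool.Agent.Lib.Pf72953n.Norm
import Pool.Agent.Lib.Pf72953n.IdxMap
import Pool.Agent.Lib.Pf72953n.Rform
import Pool.Agent.Lib.Pf72953j.Over

/-!
`ℙ¹`-step: the descent.
-/

set_option autoImplicit false
set_option linter.style.haveILetI false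

open scoped WithZero Polynomial
open Pf72953 Pf72953.Mov Pf72953.Tow

namespace Pf72953.Pl

variable {k Ω : Type*} [Field k] [Field Ω] [Algebra k Ω] [CharZero k]

omit [CharZero k] in
/-- transport of the index by an automorphism of `Ω` -/
theorem idx_transport {K M : IntermediateField k Ω} [Fact (K ≤ M)] (σ : Ω ≃ₐ[k] Ω)
    (h1 : Stab σ M) (h2 : Stab σ.symm M) (h3 : Stab σ K) (h4 : Stab σ.symm K) {x : Ω} (hx : x ∈ M)
    (hσx : σ x = x) {e : Ω} {r : ℕ} (h : ∃ he : e ∈ M, IsIdx K (⟨x, hx⟩ : M) ⟨e, he⟩ r) :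
    ∃ he : σ e ∈ M, IsIdx K (⟨x, hx⟩ : M) ⟨σ e, he⟩ r := by
  obtain ⟨he, h⟩ := h
  let φ : M ≃+* M :=
    { toFun := fun z => ⟨σ z, h1 z z.2⟩
      invFun := fun z => ⟨σ.symm z, h2 z z.2⟩
      left_inv := fun z => Subtype.ext (σ.symm_apply_apply z)
      right_inv := fun z => Subtype.ext (σ.apply_symm_apply z)
      map_mul' := fun a b => Subtype.ext (map_mul σ (a : Ω) b)
      map_add' := fun a b => Subtype.ext (map_add σ (a : Ω) b) }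
  exact ⟨h1 e he, h.map φ (fun a => ⟨⟨σ a, h3 a a.2⟩, rfl⟩) (fun a => ⟨⟨σ.symm a, h4 a a.2⟩, rfl⟩)
    (Subtype.ext hσx)⟩

variable [IsAlgClosed k] [IsAlgClosed Ω]

/-- the indices of the branch points -/
theorem exists_idx {V X Q : IntermediateField k Ω} {x : Ω} {S : Finset Ω}
    (hbr : BranchProp V Q x S) (hV : Fin' V) (hX : Fin' X) (hQ : Fin' Q) (hVX : V ≤ X)
    (hx : Transcendental X x) (hG : Gal (V ⊔ IntermediateField.adjoin k {x}) Q)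
    (hS : ∀ e ∈ S, IsAlgebraic V e) (hSσ : ∀ σ : Ω ≃ₐ[k] Ω, Fixes σ V → ∀ e ∈ S, σ e ∈ S)
    {K M : IntermediateField k Ω} (hK : K = X ⊔ bp V S) (hM : M = K ⊔ Q) [Fact (K ≤ M)]
    (hxM : x ∈ M) {δ : ℕ} (hδ : δ ≤ 1) (hκ : KodairaGE K M δ) :
    ∃ r : Ω → ℕ, (∀ e ∈ S, 2 ≤ r e) ∧ (∀ e ∈ S, ∃ he : e ∈ M, IsIdx K (⟨x, hxM⟩ : M) ⟨e, he⟩ (r e)) ∧
      (∀ σ : Ω ≃ₐ[k] Ω, Fixes σ (X ⊔ Q) → ∀ e ∈ S, r (σ e) = r e) ∧
      2 * ∏ e ∈ S, r e + δ ≤ ∑ e ∈ S, (∏ e ∈ S, r e - (∏ e ∈ S, r e) / r e) := by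
  classical
  have hKf : Fin' K := hK ▸ fin_sup hX (bp_fin hV)
  have hMf : Fin' M := hM ▸ fin_sup hKf hQ
  have hKM : K ≤ M := Fact.out
  have hKcl : K ≤ cl X := hK ▸ sup_le le_cl ((bp_alg hS).trans (cl_mono hVX))
  have hxK : Transcendental K x := fun h => hx (cl_idem hKcl h)
  have hVK : V ≤ K := hVX.trans (hK ▸ le_sup_left)
  have hm : ∀ e ∈ S, e ∈ K := fun e he => hK ▸ mem_sup_right' (bp_mem he)
  have hGK : Gal (K ⊔ IntermediateField.adjoin k {x}) M := hM ▸ galK hG hVK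
  haveI f4 : Fact (K ⊔ IntermediateField.adjoin k {x} ≤ M) := ⟨hGK.le⟩
  obtain ⟨i1, i2⟩ := gal_adjoin (A := K) (M := M) (x := ⟨x, hxM⟩) hMf hGK
  haveI : Algebra.EssFiniteType k M := hMf
  haveI : Algebra.EssFiniteType K M := Algebra.EssFiniteType.of_comp k K M
  haveI : CharZero K := charZero_of_injective_algebraMap (algebraMap k K).injective
  have hxK' : Transcendental K (⟨x, hxM⟩ : M) := fun h => hxK (h.algebraMap (A := Ω))
  have hB : ∀ (u : Valuation M ℤᵐ⁰), (∀ a : K, a ≠ 0 → u (algebraMap K M a) = 1) →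
      ((∀ e (he : e ∈ S), ¬ u (⟨x, hxM⟩ - ⟨e, hKM (hm e he)⟩) < 1) →
        Br.Unr (K ⊔ IntermediateField.adjoin k {x} : IntermediateField k Ω) u) ∧
      ∀ e (he : e ∈ S), u (⟨x, hxM⟩ - ⟨e, hKM (hm e he)⟩) < 1 →
        ¬ Br.Unr (K ⊔ IntermediateField.adjoin k {x} : IntermediateField k Ω) u := by
    subst hM
    intro u hu
    obtain ⟨h1, h2⟩ := hbr K hKf hVK hm hxK hxM u (fun a ha h0 => hu ⟨a, ha⟩
      (fun h => h0 (congrArg Subtype.val h)))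
    exact ⟨fun h => h1 fun e he _ => h e he, fun e he h => h2 e he _ h⟩
  let P : Ω → ℕ → Prop := fun e r => ∃ he : e ∈ M, IsIdx K (⟨x, hxM⟩ : M) ⟨e, he⟩ r
  have hex : ∀ e ∈ S, ∃ r, 2 ≤ r ∧ P e r := by
    intro e he
    obtain ⟨r, hr, hI⟩ := exists_index hxK' (⟨e, hm e he⟩ : K) (fun u hu hlt hU => by
      exact (hB u hu).2 e he hlt (unr_adjoin' (A := K) (x := ⟨x, hxM⟩) le_rfl hU))
    exact ⟨r, hr, hKM (hm e he), hI⟩
  set r : Ω → ℕ := fun e => sInf {r : ℕ | 2 ≤ r ∧ P e r} with hr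
  have hmem : ∀ e ∈ S, 2 ≤ r e ∧ P e (r e) := fun e he => Nat.sInf_mem (hex e he)
  refine ⟨r, fun e he => (hmem e he).1, fun e he => (hmem e he).2, ?_, ?_⟩
  · intro σ hσ e he
    have hσX : Fixes σ X := hσ.mono le_sup_left
    have hσQ : Fixes σ Q := hσ.mono le_sup_right
    have stK : ∀ τ : Ω ≃ₐ[k] Ω, Fixes τ X → Stab τ K := by
      intro τ hτ
      rw [hK]
      exact hτ.stab.sup (bp_stab (hτ.mono hVX) (hSσ τ (hτ.mono hVX)))
    have stM : ∀ τ : Ω ≃ₐ[k] Ω, Fixes τ X → Fixes τ Q → Stab τ M := by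
      intro τ hτ hτQ
      rw [hM]
      exact (stK τ hτ).sup hτQ.stab
    have hxQ : x ∈ Q := hG.le (mem_sup_right' (mem_adjoin_one x))
    have tr : ∀ τ : Ω ≃ₐ[k] Ω, Fixes τ X → Fixes τ Q → ∀ e r, P e r → P (τ e) r :=
      fun τ hτ hτQ e r h => idx_transport τ (stM τ hτ hτQ) (stM _ hτ.symm79 hτQ.symm79)
        (stK τ hτ) (stK _ hτ.symm79) hxM (hτQ x hxQ) h
    have h1 : {r : ℕ | 2 ≤ r ∧ P (σ e) r} = {r : ℕ | 2 ≤ r ∧ P e r} := by
      ext n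
      refine and_congr_right fun _ => ⟨fun h => ?_, tr σ hσX hσQ e n⟩
      have h2 := tr σ.symm hσX.symm79 hσQ.symm79 (σ e) n h
      rwa [AlgEquiv.symm_apply_apply] at h2
    change sInf _ = sInf _
    rw [h1]
  · set SM : Finset M := S.subtype (· ∈ M) with hSM
    have hmS : ∀ z : M, z ∈ SM ↔ (z : Ω) ∈ S := fun z => Finset.mem_subtype
    have h1 := sum_of_kod (K := K) (N := M) hxK' (S := SM)
      (fun e he => ⟨⟨e, hm e ((hmS e).1 he)⟩, rfl⟩) (r := fun z => r z)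
      (fun e he => by have := (hmem e ((hmS e).1 he)).1; omega)
      (fun e he => by
        obtain ⟨_, hI⟩ := (hmem e ((hmS e).1 he)).2
        exact hI)
      (fun u hu h => unr_adjoin (A := K) (x := ⟨x, hxM⟩) le_rfl ((hB u hu).1 fun e he =>
        h ⟨e, hKM (hm e he)⟩ ((hmS _).2 he))) hδ hκ
    have hall : ∀ e ∈ S, e ∈ M := fun e he => hKM (hm e he)
    have h2 : ∏ e ∈ SM, r e = ∏ e ∈ S, r e := Finset.prod_subtype_of_mem (fun e => r e) hall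
    rw [h2] at h1
    have h3 : ∑ e ∈ SM, (∏ e ∈ S, r e - (∏ e ∈ S, r e) / r e) =
        ∑ e ∈ S, (∏ e ∈ S, r e - (∏ e ∈ S, r e) / r e) :=
      Finset.sum_subtype_of_mem (fun e => (∏ e ∈ S, r e - (∏ e ∈ S, r e) / r e)) hall
    rw [h3] at h1
    exact h1


/-- the descent from `X·R` to `X·Q·Y₂` -/
theorem line_down {V X Q Y₂ R : IntermediateField k Ω} {x t y₀ : Ω} {S : Finset Ω}
    {ψ : Ω × Ω × Ω → (Ω ≃ₐ[k] Ω)} (hC : Cover V X Q x S Y₂ t ψ R) (hbr : BranchProp V Q x S)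
    (hV : Fin' V) (hX : Fin' X) (hQ : Fin' Q) (hVX : V ≤ X)
    (hx : Transcendental X x) (hG : Gal (V ⊔ IntermediateField.adjoin k {x}) Q)
    (hS : ∀ e ∈ S, IsAlgebraic V e) (hSσ : ∀ σ : Ω ≃ₐ[k] Ω, Fixes σ V → ∀ e ∈ S, σ e ∈ S)
    (hty : y₀ ^ 2 = t ^ 5 - 1) (hY₂ : Y₂ = IntermediateField.adjoin k {t, y₀})
    (ht : Transcendental (X ⊔ Q : IntermediateField k Ω) t) (h0 : KodairaGE k X 0) {δ : ℕ}
    (hδ : δ ≤ 1) (hκ : KGE (X ⊔ bp V S) (X ⊔ bp V S ⊔ Q) δ) {l : ℕ}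
    (hl : KodairaGE k (X ⊔ R : IntermediateField k Ω) l) :
    KodairaGE k (X ⊔ Q ⊔ Y₂ : IntermediateField k Ω) (l + δ) := by
  classical
  obtain ⟨K, hK⟩ : ∃ K, K = X ⊔ bp V S := ⟨_, rfl⟩
  obtain ⟨M, hM⟩ : ∃ M, M = K ⊔ Q := ⟨_, rfl⟩
  obtain ⟨W, hW⟩ : ∃ W, W = X ⊔ Y₂ := ⟨_, rfl⟩
  obtain ⟨XX, hXX⟩ : ∃ XX, XX = X ⊔ Q ⊔ Y₂ := ⟨_, rfl⟩
  obtain ⟨PP, hPP⟩ : ∃ PP, PP = X ⊔ R := ⟨_, rfl⟩
  obtain ⟨N, hN⟩ : ∃ N, N = R ⊔ XX := ⟨_, rfl⟩
  rw [← hK, ← hM] at hκ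
  rw [← hPP] at hl
  rw [← hXX]
  obtain ⟨fKM, hκ⟩ := hκ
  -- finiteness and inclusions
  have hfg : ∀ u v : Ω, Fin' (IntermediateField.adjoin k {u, v}) := fun u v => by
    rw [Fin', IntermediateField.essFiniteType_iff]
    exact ⟨{u, v}, by rw [Finset.coe_pair]⟩
  have hY₂f : Fin' Y₂ := by rw [hY₂]; exact hfg _ _
  have htY : t ∈ Y₂ := by rw [hY₂]; exact IntermediateField.subset_adjoin k _ (Or.inl rfl)
  have hWf : Fin' W := hW ▸ fin_sup hX hY₂f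
  have hXXf : Fin' XX := hXX ▸ fin_sup (fin_sup hX hQ) hY₂f
  have hPPf : Fin' PP := hPP ▸ fin_sup hX hC.fin
  have hNf : Fin' N := hN ▸ fin_sup hC.fin hXXf
  have hX1 : X ≤ XX := hXX ▸ le_sup_left.trans le_sup_left
  have hQ1 : Q ≤ XX := hXX ▸ le_sup_right.trans le_sup_left
  have hY1 : Y₂ ≤ XX := hXX ▸ le_sup_right
  have hYR : Y₂ ≤ R := le_sup_right.trans hC.gal.le
  have hXW : X ≤ W := hW ▸ le_sup_left
  have hYW : Y₂ ≤ W := hW ▸ le_sup_right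
  have hWXX : W ≤ XX := hW ▸ sup_le hX1 hY1
  have hRPP : R ≤ PP := hPP ▸ le_sup_right
  have hXPP : X ≤ PP := hPP ▸ le_sup_left
  have hWPP : W ≤ PP := hW ▸ sup_le hXPP (hYR.trans hRPP)
  have hXXN : XX ≤ N := hN ▸ le_sup_right
  have hRN : R ≤ N := hN ▸ le_sup_left
  have hPPN : PP ≤ N := hPP ▸ sup_le (hX1.trans hXXN) hRN
  have hbR : bp V S ≤ R := hC.le
  have hKPP : K ≤ PP := hK ▸ sup_le hXPP (hbR.trans hRPP)
  have hMN : M ≤ N := hM ▸ sup_le (hKPP.trans hPPN) (hQ1.trans hXXN)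
  have hxQ : x ∈ Q := hG.le (mem_sup_right' (mem_adjoin_one x))
  have hxXX : x ∈ XX := hQ1 hxQ
  have hxN : x ∈ N := hXXN hxXX
  have hxM : x ∈ M := hM ▸ mem_sup_right' hxQ
  have htN : t ∈ N := hXXN (hY1 htY)
  have htXX : t ∈ XX := hY1 htY
  have hSPP : ∀ e ∈ S, e ∈ PP := fun e he => hRPP (hbR (bp_mem he))
  have hSN : ∀ e ∈ S, e ∈ N := fun e he => hRN (hbR (bp_mem he))
  haveI f1 : Fact (W ≤ XX) := ⟨hWXX⟩
  haveI f2 : Fact (W ≤ PP) := ⟨hWPP⟩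
  haveI f3 : Fact (XX ≤ N) := ⟨hXXN⟩
  haveI f4 : Fact (PP ≤ N) := ⟨hPPN⟩
  haveI f5 : Fact (W ≤ N) := ⟨hWPP.trans hPPN⟩
  haveI f6 : Fact (M ≤ N) := ⟨hMN⟩
  haveI : Algebra.EssFiniteType k W := hWf
  haveI : Algebra.EssFiniteType k XX := hXXf
  haveI : Algebra.EssFiniteType k PP := hPPf
  haveI : Algebra.EssFiniteType k N := hNf
  haveI : CharZero PP := charZero_of_injective_algebraMap (algebraMap k PP).injective
  have hGN : Gal XX N := hN ▸ hC.gal.base XX (sup_le (hVX.trans hX1) hY1)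
  have hGP : Gal W PP := by
    have h1 := hC.gal.base W (sup_le (hVX.trans hXW) hYW)
    have h2 : R ⊔ W = PP := by
      rw [hPP]
      exact le_antisymm (sup_le le_sup_right (hW ▸ sup_le le_sup_left (hYR.trans le_sup_right)))
        (sup_le (hXW.trans le_sup_right) le_sup_left)
    rwa [h2] at h1
  obtain ⟨i1, i2⟩ := hGN.finite hNf
  obtain ⟨i3, i4⟩ := hGP.finite hPPf
  -- transcendence
  have hiY : Indep (X ⊔ Q) Y₂ := by
    have h1 := dim_gens (k := k) (m := 1) (x := fun _ => t) (y := fun _ => y₀) (fun _ => hty)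
      (algebraicIndependent_unique_type_iff.2 (fun h => ht (h.tower_top (L := _))))
    rw [← range_one] at h1
    exact Et.indep_curve (fin_sup hX hQ) hY₂f (by rw [hY₂]; exact h1) htY ht
  have hxW : Transcendental W x := by
    rw [hW]
    exact trans_of_indep (fin_sup hX hQ) hY₂f le_sup_left hiY (mem_sup_right' hxQ) hx
  have hNcl : N ≤ cl (W ⊔ IntermediateField.adjoin k {x}) := by
    have h1 : Q ≤ cl (W ⊔ IntermediateField.adjoin k {x}) := (alg_iff.1 hG.alg).trans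
      (cl_mono (sup_le_sup_right (hVX.trans hXW) _))
    have h2 : R ≤ cl (W ⊔ IntermediateField.adjoin k {x}) := (alg_iff.1 hC.gal.alg).trans
      (cl_mono (sup_le ((hVX.trans hXW).trans le_sup_left) (hYW.trans le_sup_left)))
    rw [hN, hXX]
    exact sup_le h2 (sup_le (sup_le ((hXW.trans le_sup_left).trans le_cl) h1)
      ((hYW.trans le_sup_left).trans le_cl))
  have hPcl : PP ≤ cl W := alg_iff.1 hGP.alg
  have hxPP : Transcendental PP x := fun h => hxW (cl_idem hPcl h)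
  have hxPP' : Transcendental PP (algebraMap XX N ⟨x, hxXX⟩) :=
    fun h => hxPP (h.algebraMap (A := Ω))
  have halg : ∀ g : N, IsAlgebraic (IntermediateField.adjoin PP {algebraMap XX N ⟨x, hxXX⟩}) g := by
    intro g
    refine alg_adjoin_of (x := ⟨x, hxN⟩) ?_
    exact mem_cl.1 (cl_mono (sup_le_sup_right hWPP _) (hNcl g.2))
  -- the weights
  obtain ⟨r, hr2, hridx, hrσ, hsum⟩ := exists_idx (M := M) hbr hV hX hQ hVX hx hG hS hSσ hK hM hxM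
    hδ hκ
  set SN : Finset N := S.subtype (· ∈ N) with hSNdef
  have hmS : ∀ z : N, z ∈ SN ↔ (z : Ω) ∈ S := fun z => Finset.mem_subtype
  have hprod : ∏ e ∈ SN, r e = ∏ e ∈ S, r e := Finset.prod_subtype_of_mem (fun e => r e) hSN
  have hsumN : ∑ e ∈ SN, (∏ e ∈ SN, r e - (∏ e ∈ SN, r e) / r e) =
      ∑ e ∈ S, (∏ e ∈ S, r e - (∏ e ∈ S, r e) / r e) := by
    rw [hprod]
    exact Finset.sum_subtype_of_mem (fun e => (∏ e ∈ S, r e - (∏ e ∈ S, r e) / r e)) hSN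
  rw [← hsumN, ← hprod] at hsum
  have hr2N : ∀ e ∈ SN, 2 ≤ (fun z : N => r z) e := fun e he => hr2 e ((hmS e).1 he)
  obtain ⟨hcard, m, hWt, hmr, hslack⟩ := exists_weights (S := SN) (r := fun z : N => r z) hr2N
    (le_trans (Nat.le_add_right _ _) hsum)
  have hSN' : ∀ e ∈ SN, ∃ e' : PP, algebraMap PP N e' = e := fun e he =>
    ⟨⟨e, hSPP _ ((hmS e).1 he)⟩, rfl⟩
  have hσex : ∀ σ : N ≃ₐ[XX] N, ∃ σ' : Ω ≃ₐ[k] Ω, Fixes σ' XX ∧ ∀ z : N, σ' z = σ z :=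
    fun σ => hGN.exists_ext hNf σ
  have hσS : ∀ σ : N ≃ₐ[XX] N, ∀ e ∈ SN, σ e ∈ SN := by
    intro σ e he
    obtain ⟨σ', h1, h2⟩ := hσex σ
    rw [hmS, ← h2]
    exact hSσ σ' (h1.mono (hVX.trans hX1)) e ((hmS e).1 he)
  have hσr : ∀ σ : N ≃ₐ[XX] N, ∀ a ∈ SN, (fun z : N => r z) (σ a) = (fun z : N => r z) a := by
    intro σ e he
    obtain ⟨σ', h1, h2⟩ := hσex σ
    change r (σ e : N) = r e
    rw [← h2]
    exact hrσ σ' (h1.mono (sup_le hX1 hQ1)) e ((hmS e).1 he)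
  have hσm : ∀ σ : N ≃ₐ[XX] N, ∀ a ∈ SN, ∀ b ∈ SN, m (σ a) (σ b) = m a b := fun σ a ha b hb =>
    hmr _ (hσS σ a ha) _ (hσS σ b hb) _ ha _ hb (hσr σ a ha) (hσr σ b hb)
  obtain ⟨G, hGG⟩ := exists_GG (X := XX) (N := N) (m := m) (x := ⟨x, hxXX⟩) hσS hσm
  obtain ⟨T, hTT⟩ := exists_TT (X := XX) (N := N) (x := ⟨x, hxXX⟩) hσS (⟨t, htXX⟩ : XX)
  -- the places of the generic fibre
  have hunr : ∀ w : Valuation N ℤᵐ⁰, (∀ a : PP, a ≠ 0 → w (algebraMap PP N a) = 1) →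
      Br.Unr XX w := by
    intro w hw
    refine unr_hor hNf hGN (fun σ hσ => ?_) ?_ hw
    · rw [hPP]
      exact (hσ.mono hX1).stab.sup (hC.gal.stab σ (hσ.mono (sup_le (hVX.trans hX1) hY1)))
    · rw [hN]
      exact sup_le (hRPP.trans le_sup_left) le_sup_right
  have hram : ∀ (w : Valuation N ℤᵐ⁰) (D : Derivation PP N N) (ρ : ℤᵐ⁰) (τ : XX),
      At PP XX w (algebraMap XX N ⟨x, hxXX⟩) D ρ τ → ∀ e ∈ SN,
      w (algebraMap XX N ⟨x, hxXX⟩ - e) < 1 →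
        w (algebraMap XX N ⟨x, hxXX⟩ - e) ≤ w (algebraMap XX N τ) ^ r e := by
    intro w D ρ τ hAt e he hlt
    obtain ⟨heM, hI⟩ := hridx e ((hmS e).1 he)
    obtain ⟨s, hs1, -, hs2⟩ := hI (w.comap (algebraMap M N)) (fun a ha => by
      have h1 := hAt.triv ⟨a, hKPP a.2⟩ (fun h => ha (by
        have h4 : (a : Ω) = 0 := congrArg Subtype.val h
        exact Subtype.ext h4))
      exact h1) hlt
    obtain ⟨s', hs3, hs4⟩ := hunr w hAt.triv (algebraMap M N s) hs1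
    have h2 : w (algebraMap M N s) ≤ w (algebraMap XX N τ) := hs4.trans (hAt.le s' hs3)
    have h3 : w (algebraMap XX N ⟨x, hxXX⟩ - e) = w (algebraMap M N s) ^ r e := hs2
    rw [h3]
    exact pow_le_pow_left' h2 _
  have hGG' : ∀ (w : Valuation N ℤᵐ⁰) (D : Derivation PP N N) (ρ : ℤᵐ⁰) (τ : XX),
      At PP XX w (algebraMap XX N ⟨x, hxXX⟩) D ρ τ →
        ρ ^ MG SN m * w (algebraMap XX N G) ≤ w (algebraMap XX N τ) ^ MG SN m := by
    intro w D ρ τ hAt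
    rw [hGG]
    exact hAt.GG_le halg ⟨_, rfl⟩ hSN' hWt hr2N (hram w D ρ τ hAt)
  have hTT' : ∀ (w : Valuation N ℤᵐ⁰) (D : Derivation PP N N) (ρ : ℤᵐ⁰) (τ : XX),
      At PP XX w (algebraMap XX N ⟨x, hxXX⟩) D ρ τ →
        ρ ^ MT SN * w (algebraMap XX N T) ≤ w (algebraMap XX N τ) ^ MT SN := by
    intro w D ρ τ hAt
    rw [hTT]
    refine hAt.TT_le halg ⟨_, rfl⟩ hSN' hr2N (hram w D ρ τ hAt) ?_
    have htPP : t ∈ PP := hWPP (hYW htY)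
    have ht0 : (⟨t, htPP⟩ : PP) ≠ 0 := by
      intro h
      have h1 : t = 0 := congrArg Subtype.val h
      exact ht (by rw [h1]; exact isAlgebraic_zero)
    exact (hAt.triv ⟨t, htPP⟩ ht0).le
  have hMG : 1 ≤ MG SN m := by
    have h1 : ∃ a ∈ SN, ∃ b ∈ SN, a ≠ b := by
      have h2 : 1 < SN.card := by omega
      obtain ⟨a, ha, b, hb, hab⟩ := Finset.one_lt_card.1 h2
      exact ⟨a, ha, b, hb, hab⟩
    obtain ⟨a, ha, b, hb, hab⟩ := h1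
    have h2 : m a b ≤ MG SN m := Finset.single_le_sum (f := fun p : N × N => m p.1 p.2)
      (fun _ _ => Nat.zero_le _) (Finset.mem_offDiag.2 ⟨ha, hb, hab⟩ : (a, b) ∈ SN.offDiag)
    exact (hWt.pos a ha b hb).trans h2
  have htK : ∀ y ∈ K, t ≠ y := by
    intro y hy h
    apply ht
    rw [h]
    have h1 : K ≤ cl (X ⊔ Q) := hK ▸ sup_le (le_sup_left.trans le_cl)
      ((bp_alg hS).trans (cl_mono (hVX.trans le_sup_left)))
    exact mem_cl.1 (h1 hy)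
  have hG0 : G ≠ 0 := by
    intro h
    rw [h, map_zero] at hGG
    exact GG_ne hSN' m hxPP' hGG.symm
  have hT0 : T ≠ 0 := by
    intro h
    rw [h, map_zero] at hTT
    refine TT_ne hSN' hxPP' ?_ hTT.symm
    intro i hi j hj l' hl' s hs h1
    have hmK : ∀ e ∈ S, e ∈ K := fun e he => hK ▸ mem_sup_right' (bp_mem he)
    refine htK (xc s i j l' : Ω) ?_ (congrArg Subtype.val h1)
    exact div_mem (mul_mem (sub_mem (hmK _ ((hmS _).1 hs)) (hmK _ ((hmS _).1 hi)))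
      (sub_mem (hmK _ ((hmS _).1 hl')) (hmK _ ((hmS _).1 hj))))
      (mul_mem (sub_mem (hmK _ ((hmS _).1 hs)) (hmK _ ((hmS _).1 hj)))
      (sub_mem (hmK _ ((hmS _).1 hl')) (hmK _ ((hmS _).1 hi))))
  -- the forms on `W`
  have htX : Transcendental X t := transc_mono le_sup_left ht
  obtain ⟨n, z, hz, m₀, r₀, hm₀, hr₀, e1, e2, e3, e4⟩ : ∃ (n : ℕ) (z : Fin n → W),
      IsTranscendenceBasis k z ∧ ∃ (m₀ : ℕ) (r₀ : W), 1 ≤ m₀ ∧ r₀ ≠ 0 ∧ r₀ ∈ WReg k z m₀ ∧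
        ⟨t, hYW htY⟩ * r₀ ∈ WReg k z m₀ ∧ (⟨t, hYW htY⟩ : W)⁻¹ * r₀ ∈ WReg k z m₀ ∧
        ((⟨t, hYW htY⟩ : W) - 1)⁻¹ * r₀ ∈ WReg k z m₀ := by
    subst hW
    haveI : Fact (X ≤ X ⊔ Y₂) := ⟨le_sup_left⟩
    exact exists_r0 hX h0 htX hty hY₂ (hYW htY)
  have hzx := tb_line (W := W) hNf hz hxN hxW (fun y hy => mem_cl.1 (hNcl hy))
  -- the second form
  obtain ⟨q, d, hd, hq0, hqt, hqR, hqR'⟩ : ∃ (q : XX) (d : ℕ), 1 ≤ d ∧ q ≠ 0 ∧
      (δ = 1 → Transcendental PP (algebraMap XX N q)) ∧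
      (∀ (w : Valuation N ℤᵐ⁰) (D : Derivation PP N N) (ρ : ℤᵐ⁰),
        RelNorm PP w (algebraMap XX N ⟨x, hxXX⟩) D ρ →
          ρ ^ (MG SN m * d) * w (algebraMap XX N (G ^ d * q)) ≤ 1) ∧
      ∀ (w : Valuation N ℤᵐ⁰) (D : Derivation PP N N) (ρ : ℤᵐ⁰) (τ : XX),
        At PP XX w (algebraMap XX N ⟨x, hxXX⟩) D ρ τ →
          ρ ^ (MG SN m * d) * w (algebraMap XX N (G ^ d * q)) ≤
            w (algebraMap XX N τ) ^ (MG SN m * d) := by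
    rcases Nat.lt_or_ge δ 1 with hδ0 | hδ1
    · refine ⟨1, 1, le_rfl, one_ne_zero, fun h => by omega, ?_, ?_⟩
      · intro w D ρ hR
        rw [mul_one, pow_one, mul_one, hGG]
        exact hR.GG_le hSN' m
      · intro w D ρ τ hAt
        rw [mul_one, pow_one, mul_one]
        exact hGG' w D ρ τ hAt
    · have hδ' : δ = 1 := le_antisymm hδ hδ1
      rw [hδ'] at hsum
      obtain ⟨q, d, hd, hqt, h1, h2⟩ := exists_q (Q := PP) (X := XX) (N := N) (x := ⟨x, hxXX⟩) hσS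
        hSN' hcard hσm hσr hr2N hWt (hslack hsum) hxPP'
      refine ⟨q, d, hd, ?_, fun _ => hqt, ?_, ?_⟩
      · rintro rfl
        rw [map_zero] at hqt
        exact hqt isAlgebraic_zero
      · intro w D ρ hR
        rw [map_mul, map_pow, hGG]
        exact h1 w D ρ hR
      · intro w D ρ τ hAt
        rw [map_mul, map_pow, hGG]
        exact h2 w D ρ τ hAt halg (hram w D ρ τ hAt)
  have hXK : X ≤ K := hK ▸ le_sup_left
  have hc0 : (⟨t, hYW htY⟩ : W) ≠ 0 := fun h => htK 0 K.zero_mem (congrArg Subtype.val h)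
  have hc1 : (⟨t, hYW htY⟩ : W) ≠ 1 := fun h => htK 1 K.one_mem (congrArg Subtype.val h)
  refine down (k := k) (W := W) (X := XX) (Q := PP) (N := N) hz (c := ⟨t, hYW htY⟩) hc0 hc1
    (x := ⟨x, hxXX⟩) hzx hMG hd hδ hG0 hT0 hq0 hqt ?_ ?_ hqR hGG' hTT' hqR' ?_ hm₀ hr₀ e1 e2 e3 e4 hl
  · intro w D ρ hR
    rw [hGG]
    exact hR.GG_le hSN' m
  · intro w D ρ hR
    rw [hTT]
    exact hR.TT_le hSN' _
  · intro w hw _ hns
    have hk : ∀ a : k, a ≠ 0 → w (algebraMap k N a) = 1 := hw.const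
    rw [hGG, hTT] at hns
    exact unr_cover hC hbr hXX hPP hN hV hX hQ hY₂f hVX hx hG hS hSσ htY w hk hmS hWt.pos hxN htN hns

end Pf72953.Pl
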