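import Mathlib
import Pool.Agent.Lib.Pf72953n.Line
import Pool.Agent.Lib.Pf72953n.Br
import Pool.Agent.Lib.Pf72953j.Over

/-!
The `ℙ¹`-step: Galois covers of `X × ℙ¹`.
-/

set_option autoImplicit false
set_option linter.style.haveILetI false

open scoped WithZero Polynomial
open Pf72953 Pf72953.Mov Pf72953.Tow

namespace Pf72953.Pl

variable {k Ω : Type*} [Field k] [Field Ω] [Algebra k Ω] [CharZero k] [IsAlgClosed k]
  [IsAlgClosed Ω]

omit [CharZero k] [IsAlgClosed k] [IsAlgClosed Ω] in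
theorem trip_nonempty {S : Finset Ω} (h : 3 ≤ S.card) : ∃ p, p ∈ trip S := by
  classical
  obtain ⟨a, b, c, ha, hb, hc, hab, hac, hbc⟩ := Finset.two_lt_card_iff.1 (show 2 < S.card by omega)
  exact ⟨(a, b, c), mem_trip.2 ⟨⟨ha, hb, hc⟩, hab, hac, hbc⟩⟩

/-- **The `ℙ¹`-step.** -/
theorem OverC.line {B V X : IntermediateField k Ω} (hO : OverC B V X) (hX : Fin' X)
    (h0 : KodairaGE k X 0)
    (hΩ : ∀ A : IntermediateField k Ω, Fin' A → ∃ t : Ω, Transcendental A t) {x : Ω}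
    (hx : Transcendental X x) :
    OverC B (V ⊔ IntermediateField.adjoin k {x}) (X ⊔ IntermediateField.adjoin k {x}) := by
  classical
  obtain ⟨hBX, hVX, hO⟩ := hO
  refine ⟨hBX.trans le_sup_left, sup_le_sup_right hVX _, fun Y Q hY hi hQ hG b c hb hc => ?_⟩
  have hYf := hY.fin
  have hVf : Fin' V := fin_le hX hVX
  have hEf : Fin' (X ⊔ IntermediateField.adjoin k {x} : IntermediateField k Ω) :=
    fin_sup hX (fin_one x)
  obtain ⟨X', hX'⟩ : ∃ X', X' = X ⊔ Y := ⟨_, rfl⟩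
  obtain ⟨V', hV'⟩ : ∃ V', V' = V ⊔ Y := ⟨_, rfl⟩
  have hX'f : Fin' X' := hX' ▸ fin_sup hX hYf
  have hV'f : Fin' V' := hV' ▸ fin_sup hVf hYf
  have hVX' : V' ≤ X' := by rw [hV', hX']; exact sup_le_sup_right hVX Y
  have hiX : Indep X Y := hi.mono_left hEf hYf le_sup_left
  have hxX' : Transcendental X' x := by
    rw [hX']
    exact trans_of_indep hEf hYf le_sup_left hi (mem_sup_right' (mem_adjoin_one x)) hx
  have hG' : Gal (V' ⊔ IntermediateField.adjoin k {x}) Q := by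
    have h1 : V ⊔ IntermediateField.adjoin k {x} ⊔ Y = V' ⊔ IntermediateField.adjoin k {x} := by
      rw [hV', sup_right_comm]
    rwa [h1] at hG
  have hxQ : x ∈ Q := hG'.le (mem_sup_right' (mem_adjoin_one x))
  have hYQ : Y ≤ Q := (hV' ▸ le_sup_right : Y ≤ V').trans (le_sup_left.trans hG'.le)
  have hEQ : X ⊔ IntermediateField.adjoin k {x} ⊔ Q = X' ⊔ Q := by
    rw [hX']
    exact le_antisymm (sup_le (sup_le (le_sup_left.trans le_sup_left) (adjoin_one_le
      (mem_sup_right' hxQ))) le_sup_right) (sup_le (sup_le (le_sup_left.trans le_sup_left)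
      (hYQ.trans le_sup_right)) le_sup_right)
  rw [hEQ] at hc ⊢
  obtain ⟨x', hadj, S, hS, hSσ, hbr⟩ := exists_branch hV'f hQ (fun h => hxX' (alg_mono hVX' h)) hG'
  have hbr' : BranchProp V' Q x' S := hbr
  rw [← hadj] at hG'
  have hx' : Transcendental X' x' := by
    intro h
    apply hxX'
    have h1 : IntermediateField.adjoin k {x} ≤ cl X' := by
      rw [← hadj]
      exact adjoin_one_le (mem_cl.2 h)
    exact mem_cl.1 (h1 (mem_adjoin_one x))
  have h0' : KodairaGE k X' 0 := by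
    rw [hX']
    exact kge_mono (Nat.zero_le _) (kge_prod hX hYf hiX h0 hY.kod)
  have hBX' : B ⊔ Y ≤ X' := by rw [hX']; exact sup_le_sup_right hBX Y
  -- at least three branch points
  obtain ⟨K, hK⟩ : ∃ K, K = X' ⊔ bp V' S := ⟨_, rfl⟩
  obtain ⟨M, hM⟩ : ∃ M, M = K ⊔ Q := ⟨_, rfl⟩
  have hKf : Fin' K := hK ▸ fin_sup hX'f (bp_fin hV'f)
  have hMf : Fin' M := hM ▸ fin_sup hKf hQ
  have hXK : X' ≤ K := hK ▸ le_sup_left
  have hKM : K ≤ M := hM ▸ le_sup_left
  have hKcl : K ≤ cl X' := hK ▸ sup_le le_cl ((bp_alg hS).trans (cl_mono hVX'))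
  have hcM : KGE (B ⊔ Y) M c := by
    refine kge_pull hMf (hM ▸ sup_le_sup_right hXK Q) ?_ hc
    rw [alg_iff, hM]
    exact sup_le (hKcl.trans (cl_mono le_sup_left)) (le_sup_right.trans le_cl)
  obtain ⟨fKM, hκ0⟩ := kge_fibre hMf (hBX'.trans hXK) hKM hcM
  have hxM : x' ∈ M := hM ▸ mem_sup_right' (hG'.le (mem_sup_right' (mem_adjoin_one x')))
  obtain ⟨r, hr2, -, -, hsum⟩ := exists_idx hbr' hV'f hX'f hQ hVX' hx' hG' hS hSσ hK hM hxM
    (Nat.zero_le 1) hκ0
  obtain ⟨hcard, -⟩ := exists_weights (S := S) (r := r) hr2 (by simpa using hsum)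
  obtain ⟨p, hp⟩ := trip_nonempty hcard
  -- the new curve
  obtain ⟨t, ht⟩ := hΩ (X' ⊔ Q) (fin_sup hX'f hQ)
  obtain ⟨y₀, hty⟩ := IsAlgClosed.exists_pow_nat_eq (t ^ 5 - 1) (n := 2) (by norm_num)
  obtain ⟨Y₂, hY₂⟩ : ∃ Y₂, Y₂ = IntermediateField.adjoin k ({t, y₀} : Set Ω) := ⟨_, rfl⟩
  have htk : Transcendental k t := fun h => ht (h.tower_top (L := _))
  have htY : t ∈ Y₂ := hY₂ ▸ IntermediateField.subset_adjoin k _ (Or.inl rfl)
  have hYC : CurveProd Y₂ := ⟨1, fun _ => t, fun _ => y₀,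
    algebraicIndependent_unique_type_iff.2 htk, fun _ => hty, by rw [hY₂, ← range_one]⟩
  have hY₂f := hYC.fin
  have hY₂d : dimension k Y₂ = 1 := by
    have h1 := dim_gens (k := k) (m := 1) (x := fun _ => t) (y := fun _ => y₀) (fun _ => hty)
      (algebraicIndependent_unique_type_iff.2 htk)
    rw [← range_one] at h1
    rw [hY₂]
    exact h1
  have hi₂ : Indep (X' ⊔ Q) Y₂ := Et.indep_curve (fin_sup hX'f hQ) hY₂f hY₂d htY ht
  have hi₂' : Indep X' Y₂ := hi₂.mono_left (fin_sup hX'f hQ) hY₂f le_sup_left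
  have htA : ∀ y ∈ Y₂, IsAlgebraic (IntermediateField.adjoin k ({t} : Set Ω)) y := by
    rw [alg_iff, hY₂, IntermediateField.adjoin_le_iff]
    rintro y (rfl | hy)
    · exact le_cl (mem_adjoin_one y)
    · rw [Set.mem_singleton_iff] at hy
      subst hy
      refine mem_cl.2 (IsAlgebraic.of_pow (n := 2) (by norm_num) ?_)
      rw [hty]
      exact alg_of_mem (sub_mem (pow_mem (mem_adjoin_one t) 5) (one_mem _))
  -- the covering field
  obtain ⟨ψ, R, hC⟩ := exists_cover hV'f hX'f hQ hY₂f hVX' hx' hG' hS hSσ htY ht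
  obtain ⟨c', δ, hδ, hcδ, hκ, hcR⟩ := up_cover hC hV'f hX'f hQ hBX' hVX' hx' hG' hS htY htA hp hc
  have hYR : Y ≤ R := (hV' ▸ le_sup_right : Y ≤ V').trans (le_sup_left.trans hC.gal.le)
  have hXR : X' ⊔ R = X ⊔ R := by
    rw [hX']
    exact le_antisymm (sup_le (sup_le le_sup_left (hYR.trans le_sup_right)) le_sup_right)
      (sup_le (le_sup_left.trans le_sup_left) le_sup_right)
  have hiY : Indep Y Y₂ := hi₂'.mono_left hX'f hY₂f (hX' ▸ le_sup_right)
  have hdYY : dimension k (Y ⊔ Y₂ : IntermediateField k Ω) = dimension k Y + dimension k Y₂ := hiY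
  have hiXY : Indep X (Y ⊔ Y₂) := by
    have h1 : dimension k (X' ⊔ Y₂ : IntermediateField k Ω) = dimension k X' + dimension k Y₂ :=
      hi₂'
    have h2 : dimension k (X ⊔ Y : IntermediateField k Ω) = dimension k X + dimension k Y := hiX
    unfold Indep
    rw [← sup_assoc, ← hX', h1, hX', h2, hdYY]
    ring
  have h1 : KodairaGE k (X ⊔ R : IntermediateField k Ω)
      (b + c' + dimension k (Y ⊔ Y₂ : IntermediateField k Ω)) := by
    refine hO (Y ⊔ Y₂) R (hY.sup hYC hiY) hiXY hC.fin ?_ b c' hb ?_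
    · rw [← sup_assoc, ← hV']
      exact hC.gal
    · rw [← sup_assoc, ← hXR]
      exact hcR
  rw [← hXR] at h1
  have h2 := line_down hC hbr' hV'f hX'f hQ hVX' hx' hG' hS hSσ hty hY₂ ht h0' hδ hκ h1
  obtain ⟨a, b₂, hab, ha, hb₂⟩ := kge_prod_upper' (fin_sup hX'f hQ) hY₂f hi₂ h2
  haveI : Algebra.EssFiniteType k Y₂ := hY₂f
  have h3 := hb₂.le_dimension
  exact kge_mono (by omega) ha

end Pf72953.Pl
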