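import Mathlib
import Pool.Agent.Lib.Pf72953n.LineO

/-!
Galois covers of `V × ℙⁿ`.
-/

set_option autoImplicit false
set_option linter.style.haveILetI false

open scoped WithZero Polynomial
open Pf72953 Pf72953.Mov Pf72953.Tow

namespace Pf72953.Pl

variable {k Ω : Type*} [Field k] [Field Ω] [Algebra k Ω]

/-- `V(x₁, …, x_i)` -/
def coords {n : ℕ} (V : IntermediateField k Ω) (x : Fin n → Ω) (i : ℕ) : IntermediateField k Ω :=
  V ⊔ IntermediateField.adjoin k {y | ∃ j : Fin n, (j : ℕ) < i ∧ x j = y}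

/-- the algebraic closure of `V(x₁, …, x_i)` in `E` -/
def stage {n : ℕ} (V E : IntermediateField k Ω) (x : Fin n → Ω) (i : ℕ) : IntermediateField k Ω :=
  E ⊓ cl (coords V x i)

theorem coords_zero {n : ℕ} {V : IntermediateField k Ω} {x : Fin n → Ω} : coords V x 0 = V := by
  unfold coords
  refine le_antisymm (sup_le le_rfl ?_) le_sup_left
  rw [IntermediateField.adjoin_le_iff]
  rintro _ ⟨j, hj, rfl⟩
  exact absurd hj (Nat.not_lt_zero _)

theorem coords_succ {n : ℕ} {V : IntermediateField k Ω} {x : Fin n → Ω} (i : Fin n) :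
    coords V x (i + 1) = coords V x i ⊔ IntermediateField.adjoin k {x i} := by
  unfold coords
  refine le_antisymm (sup_le (le_sup_left.trans le_sup_left) ?_)
    (sup_le (sup_le le_sup_left (le_sup_of_le_right ?_)) (adjoin_one_le ?_))
  · rw [IntermediateField.adjoin_le_iff]
    rintro _ ⟨j, hj, rfl⟩
    rcases Nat.lt_succ_iff_lt_or_eq.1 hj with h | h
    · exact mem_sup_left' (mem_sup_right' (IntermediateField.subset_adjoin k _ ⟨j, h, rfl⟩))
    · rw [Fin.ext h]
      exact mem_sup_right' (mem_adjoin_one _)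
  · refine IntermediateField.adjoin.mono k _ _ ?_
    rintro _ ⟨j, hj, rfl⟩
    exact ⟨j, by omega, rfl⟩
  · exact mem_sup_right' (IntermediateField.subset_adjoin k _ ⟨i, by omega, rfl⟩)

theorem coords_fin {n : ℕ} {V : IntermediateField k Ω} {x : Fin n → Ω} (hV : Fin' V) (i : ℕ) :
    Fin' (coords V x i) := by
  refine fin_sup hV ?_
  have h : Set.Finite {y | ∃ j : Fin n, (j : ℕ) < i ∧ x j = y} :=
    (Set.finite_range x).subset (by rintro _ ⟨j, -, rfl⟩; exact ⟨j, rfl⟩)
  have h2 := fin_adjoin (k := k) h.toFinset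
  rwa [h.coe_toFinset] at h2

section

variable [IsAlgClosed Ω]

/-- an automorphism over `F` which moves `a` to `b` -/
theorem exists_move {F : IntermediateField k Ω} {a b t : Ω} (ha : Transcendental F a)
    (hb : Transcendental F b)
    (hta : Transcendental (F ⊔ IntermediateField.adjoin k {a} : IntermediateField k Ω) t)
    (htb : Transcendental (F ⊔ IntermediateField.adjoin k {b} : IntermediateField k Ω) t) :
    ∃ ρ : Ω ≃ₐ[k] Ω, Fixes ρ F ∧ ρ a = b := by
  obtain ⟨ρ₁, h1, h2⟩ := exists_swap ha hta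
  obtain ⟨ρ₂, h3, h4⟩ := exists_swap hb htb
  refine ⟨ρ₁.trans ρ₂.symm, h1.trans79 h3.symm79, ?_⟩
  rw [AlgEquiv.trans_apply, h2, AlgEquiv.symm_apply_eq, h4]

end


/-- `x_i` is transcendental over `V(x₁, …, x_{i-1})` -/
theorem transc_coords {n : ℕ} {V : IntermediateField k Ω} {x : Fin n → Ω}
    (hx : AlgebraicIndependent V x) (i : Fin n) : Transcendental (coords V x i) (x i) := by
  have h1 : Transcendental (Algebra.adjoin V (x '' {j | (j : ℕ) < i})) (x i) :=
    hx.transcendental_adjoin (by simp)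
  have hs : x '' {j | (j : ℕ) < i} = {y | ∃ j : Fin n, (j : ℕ) < i ∧ x j = y} := rfl
  rw [hs] at h1
  intro h
  apply h1
  rw [← IntermediateField.isAlgebraic_adjoin_iff]
  have h2 : ∀ z ∈ coords V x i, z ∈ IntermediateField.adjoin V
      {y | ∃ j : Fin n, (j : ℕ) < i ∧ x j = y} := by
    intro z hz
    have h3 := adjoin_eq_sup V {y | ∃ j : Fin n, (j : ℕ) < i ∧ x j = y}
    have h4 : z ∈ (IntermediateField.adjoin V
      {y | ∃ j : Fin n, (j : ℕ) < i ∧ x j = y}).restrictScalars k := h3 ▸ hz
    exact h4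
  let g : coords V x i →+* IntermediateField.adjoin V {y | ∃ j : Fin n, (j : ℕ) < i ∧ x j = y} :=
    { toFun := fun z => ⟨z, h2 z z.2⟩
      map_one' := rfl
      map_mul' := fun _ _ => rfl
      map_zero' := rfl
      map_add' := fun _ _ => rfl }
  obtain ⟨p, hp, hpb⟩ := h
  refine ⟨p.map g, (Polynomial.map_ne_zero_iff g.injective).2 hp, ?_⟩
  rw [Polynomial.aeval_def, Polynomial.eval₂_map]
  exact hpb

theorem transc_cl {A : IntermediateField k Ω} {a : Ω} (h : Transcendental A a) :
    Transcendental (cl A) a := fun h' => h (cl_idem le_rfl h')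

theorem stage_full {n : ℕ} {V E : IntermediateField k Ω} {x : Fin n → Ω}
    (hE : Gal (coords V x n) E) : stage V E x n = E :=
  inf_eq_left.2 (alg_iff.1 hE.alg)

theorem gal_stage [IsAlgClosed Ω] {n : ℕ} {V E : IntermediateField k Ω} {x : Fin n → Ω}
    (hV : Fin' V) (hx : AlgebraicIndependent V x) (hE : Gal (coords V x n) E)
    (hΩ : ∀ A : IntermediateField k Ω, Fin' A → ∃ t : Ω, Transcendental A t) {i : ℕ} (hi : i ≤ n) :
    Gal (coords V x i) (stage V E x i) := by
  induction hi using Nat.decreasingInduction with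
  | self => rw [stage_full hE]; exact hE
  | of_succ i hi ih =>
    have hin : i < n := hi
    set j : Fin n := ⟨i, hin⟩ with hj
    have hcs : coords V x (i + 1) = coords V x i ⊔ IntermediateField.adjoin k {x j} :=
      coords_succ (V := V) (x := x) j
    have hle : coords V x i ≤ coords V x (i + 1) := hcs ▸ le_sup_left
    have hsl : stage V E x i ≤ stage V E x (i + 1) := inf_le_inf_left E (cl_mono hle)
    have hcE : coords V x i ≤ E := hle.trans (ih.le.trans inf_le_left)
    refine ⟨le_inf hcE le_cl, alg_iff.2 inf_le_right, fun σ hσ z hz => ?_⟩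
    obtain ⟨A, hA⟩ : ∃ A, A = cl (coords V x i) := ⟨_, rfl⟩
    have hσA : ∀ y ∈ A, σ y ∈ A := by
      intro y hy
      rw [hA] at hy ⊢
      exact mem_cl.2 (alg_map (fun a ha => by rw [hσ a ha]; exact ha) (mem_cl.1 hy))
    have hσA' : ∀ y ∈ A, σ.symm y ∈ A := by
      intro y hy
      rw [hA] at hy ⊢
      exact mem_cl.2 (alg_map (fun a ha => by rw [hσ.symm79 a ha]; exact ha) (mem_cl.1 hy))
    have hb : Transcendental A (x j) := hA ▸ transc_cl (transc_coords hx j)
    have ha : Transcendental A (σ (x j)) := by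
      intro h
      apply hb
      have h1 := alg_map (σ := σ.symm) hσA' h
      rwa [AlgEquiv.symm_apply_apply] at h1
    obtain ⟨t, ht⟩ := hΩ (coords V x i ⊔ IntermediateField.adjoin k {x j} ⊔
      IntermediateField.adjoin k {σ (x j)})
      (fin_sup (fin_sup (coords_fin hV i) (fin_one _)) (fin_one _))
    have hta : Transcendental (A ⊔ IntermediateField.adjoin k {σ (x j)} :
        IntermediateField k Ω) t := by
      intro h
      apply ht
      refine cl_idem (sup_le (hA ▸ cl_mono (le_sup_left.trans le_sup_left))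
        (le_sup_right.trans le_cl)) h
    have htb : Transcendental (A ⊔ IntermediateField.adjoin k {x j} :
        IntermediateField k Ω) t := by
      intro h
      apply ht
      refine cl_idem (sup_le (hA ▸ cl_mono (le_sup_left.trans le_sup_left))
        ((le_sup_right.trans le_sup_left).trans le_cl)) h
    obtain ⟨ρ, hρ, hρx⟩ := exists_move ha hb hta htb
    have hτ : Fixes (σ.trans ρ) (coords V x (i + 1)) := by
      rw [hcs]
      refine Fixes.sup79 (fun y hy => ?_) ?_
      · rw [AlgEquiv.trans_apply, hσ y hy]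
        exact hρ y (hA ▸ le_cl hy)
      · rw [fixes_iff79]
        exact adjoin_one_le hρx
    have h1 := ih.stab _ hτ z (hsl hz)
    have h2 : (σ.trans ρ) z = σ z := hρ _ (hσA z (hA ▸ hz.2))
    rw [h2] at h1
    exact ⟨h1.1, hA ▸ hσA z (hA ▸ hz.2)⟩

end Pf72953.Pl
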