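import Mathlib
import Pool.Agent.Lib.Pf72953n.LineO
import Pool.Agent.Lib.Pf72953n.Stage
import Pool.Agent.Lib.Pf72953j.Over
import Pool.Agent.Lib.Pf72953j.Kno

/-!
Iitaka's inequality for finite Galois covers of `V × ℙⁿ`, `V → B` stable.
-/

set_option autoImplicit false
set_option linter.style.haveILetI false

open scoped WithZero
open Pf72953 Pf72953.Mov Pf72953.Tow

namespace Pf72953.Pl

variable {k Ω : Type*} [Field k] [Field Ω] [Algebra k Ω]

/-- `Over` for the covers which come from `V` -/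
theorem _root_.Pf72953.Tow.OverC.sup {B V X P : IntermediateField k Ω} (hO : OverC B V X)
    (hX : Fin' X) (hP : Fin' P) (hG : Gal V P) : OverC B V (X ⊔ P) := by
  refine ⟨hO.1.trans le_sup_left, hO.2.1.trans le_sup_left, fun Y Q hY hi hQ hG' b c hb hc => ?_⟩
  have hi' : Indep X Y := hi.mono_left (fin_sup hX hP) hY.fin le_sup_left
  have h1 := hG'.sup (gal_sup_base hG (le_sup_left : V ≤ V ⊔ Y))
  have h2 : Q ⊔ (V ⊔ Y ⊔ P) = P ⊔ Q :=
    le_antisymm (sup_le le_sup_right (sup_le (hG'.le.trans le_sup_right) le_sup_left))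
      (sup_le (le_sup_right.trans le_sup_right) le_sup_left)
  rw [h2] at h1
  have h3 := hO.2.2 Y (P ⊔ Q) hY hi' (fin_sup hP hQ) h1 b c hb (by rw [← sup_assoc]; exact hc)
  rwa [← sup_assoc] at h3

section

variable [CharZero k]

/-- `κ(X) ≥ 0` if `κ(B) ≥ 0`, `κ(X/B) ≥ 0` and Iitaka's inequality holds -/
theorem kge_zero_of_relKod {B X : IntermediateField k Ω} (hX : Fin' X) (hI : Iitaka B X)
    (hB : KodairaGE k B 0) (hr : relKod B X ≠ ⊥) : KodairaGE k X 0 := by
  rcases relKod_cases (A := B) hX with h1 | ⟨c, hc, -⟩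
  · exact absurd h1 hr
  · exact kge_mono (by omega) (hI.ge hX hB hc)

end

section

variable [CharZero k] [IsAlgClosed k]

/-- `κ(Q/A) = 0` if `Q/A` is algebraic -/
theorem relKod_alg {A Q : IntermediateField k Ω} (hQ : Fin' Q) (hA : A ≤ Q)
    (halg : ∀ x ∈ Q, IsAlgebraic A x) : relKod A Q ≠ ⊥ := by
  have h0 : KGE (⊥ : IntermediateField k Ω) ⊥ 0 := by
    have h1 := kge_easy (fin_bot (k := k) (Ω := Ω)) le_rfl kge_bot
    rwa [Nat.zero_sub] at h1
  have h1 : KGE A Q 0 := by
    refine kge_up hQ bot_le hA bot_le ?_ ?_ h0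
    · rw [sup_bot_eq]
      exact halg
    · rw [dim_eq hQ hA halg]
  intro h2
  have h3 : ((0 : ℕ) : WithBot ℕ∞) ≤ relKod A Q := le_iSup₂_of_le 0 h1 le_rfl
  rw [h2] at h3
  simp at h3

end

section

variable [CharZero k] [IsAlgClosed k] [IsAlgClosed Ω]

/-- one family of curves `Q`, `Q` a finite Galois cover of `V × ℙ¹` -/
theorem _root_.Pf72953.Tow.OverC.curve {B V X Q : IntermediateField k Ω} {x : Ω} (hO : OverC B V X)
    (hX : Fin' X) (hQ : Fin' Q) (h0 : KodairaGE k X 0)
    (hΩ : ∀ A : IntermediateField k Ω, Fin' A → ∃ t : Ω, Transcendental A t)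
    (hx : Transcendental X x) (hG : Gal (V ⊔ IntermediateField.adjoin k {x}) Q) :
    OverC B (V ⊔ IntermediateField.adjoin k {x}) (X ⊔ Q) := by
  have h2 := (OverC.line hO hX h0 hΩ hx).sup (fin_sup hX (fin_one x)) hQ hG
  rwa [sup_assoc, sup_eq_right.2 (le_sup_right.trans hG.le)] at h2

/-- the stages of a finite Galois cover of `V × ℙⁿ` -/
theorem overC_stage {B V E : IntermediateField k Ω} {n : ℕ} {x : Fin n → Ω} (hV : Fin' V)
    (hS : StableFib B V) (hE : Fin' E) (hx : AlgebraicIndependent V x) (hG : Gal (coords V x n) E)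
    (hΩ : ∀ A : IntermediateField k Ω, Fin' A → ∃ t : Ω, Transcendental A t)
    (hB : KodairaGE k B 0) (h0 : ∀ i < n, relKod B (stage V E x i) ≠ ⊥) {i : ℕ} (hi : i ≤ n) :
    OverC B (coords V x i) (stage V E x i) := by
  have hfin : ∀ i, Fin' (stage V E x i) := fun i => fin_le hE inf_le_left
  induction i with
  | zero =>
    have hg := gal_stage hV hx hG hΩ hi
    rw [coords_zero] at hg ⊢
    have h2 := ((over_iff hV).1 (over_self.2 hS)).sup hV (hfin 0) hg
    rwa [sup_eq_right.2 hg.le] at h2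
  | succ i ih =>
    have hin : i < n := hi
    have hO := ih hin.le
    have h1 := kge_zero_of_relKod (hfin i) (((over_iff (hfin i)).2 hO).iitaka (hfin i)) hB
      (h0 i hin)
    have hg := gal_stage hV hx hG hΩ hi
    have hs : coords V x (i + 1) = coords V x i ⊔ IntermediateField.adjoin k {x ⟨i, hin⟩} :=
      coords_succ (V := V) (x := x) ⟨i, hin⟩
    rw [hs] at hg ⊢
    have hle : stage V E x i ≤ stage V E x (i + 1) := by
      unfold stage
      refine inf_le_inf_left E (cl_mono ?_)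
      rw [hs]
      exact le_sup_left
    have hx' : Transcendental (stage V E x i) (x ⟨i, hin⟩) := by
      intro h
      refine transc_coords hx ⟨i, hin⟩ (mem_cl.1 (cl_le (inf_le_right : stage V E x i ≤ _)
        (mem_cl.2 h)))
    have h3 := hO.curve (hfin i) (hfin (i + 1)) h1 hΩ hx' hg
    rwa [sup_eq_right.2 hle] at h3

/-- **Theorem G.**  Iitaka's inequality for the finite Galois covers `E` of `V × ℙⁿ`, `V → B` stable: `E_i` is the algebraic
closure of `V(x₁, …, x_i)` in `E`, and `κ(E_i/B) ≥ 0` for `i < n`. -/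
theorem iitaka_galois {B V E : IntermediateField k Ω} {n : ℕ} {x : Fin n → Ω} (hV : Fin' V)
    (hS : StableFib B V) (hE : Fin' E) (hx : AlgebraicIndependent V x) (hG : Gal (coords V x n) E)
    (hΩ : ∀ A : IntermediateField k Ω, Fin' A → ∃ t : Ω, Transcendental A t)
    (h0 : ∀ i < n, relKod B (stage V E x i) ≠ ⊥) : Iitaka B E := by
  by_cases hB : kodairaDim k B = ⊥
  · unfold Iitaka
    rw [hB, WithBot.bot_add]
    exact bot_le
  · have h1 := overC_stage hV hS hE hx hG hΩ ((kge_zero_iff (fin_le hV hS.1)).1 hB) h0 le_rfl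
    rw [stage_full hG] at h1
    exact ((over_iff hE).2 h1).iitaka hE

/-- **Theorem G** for `V = B`: finite Galois covers of `B × ℙⁿ` -/
theorem iitaka_galois_self {B E : IntermediateField k Ω} {n : ℕ} {x : Fin n → Ω} (hB : Fin' B)
    (hE : Fin' E) (hx : AlgebraicIndependent B x) (hG : Gal (coords B x n) E)
    (hΩ : ∀ A : IntermediateField k Ω, Fin' A → ∃ t : Ω, Transcendental A t)
    (h0 : ∀ i, 0 < i → i < n → relKod B (stage B E x i) ≠ ⊥) : Iitaka B E := by
  refine iitaka_galois hB (StableFib.refl hB) hE hx hG hΩ fun i hi => ?_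
  rcases Nat.eq_zero_or_pos i with rfl | hi0
  · have hg := gal_stage hB hx hG hΩ (Nat.zero_le n)
    rw [coords_zero] at hg
    exact relKod_alg (fin_le hE inf_le_left) hg.le hg.alg
  · exact h0 i hi0 hi

end

end Pf72953.Pl
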