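import Mathlib
import Pool.Agent.Lib.Pf72953j.Ram2
import Pool.Agent.Lib.Pf72953j.Over

/-!
Rigid isotrivial fibre spaces over a Galois cover `X` of `V`: the condition on the ramification.
-/

set_option autoImplicit false
set_option linter.style.haveILetI false

open scoped WithZero Polynomial
open Pf72953 Pf72953.Mov

namespace Pf72953.Tow

variable {k Ω : Type*} [Field k] [Field Ω] [Algebra k Ω] [CharZero k] [IsAlgClosed k]
  [IsAlgClosed Ω]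

/-- `P'` and `E·Y` are linearly disjoint over `V` for every Galois extension `P'` of `V` -/
theorem Step.exists_lift' {V E M P P' Y : IntermediateField k Ω} (h : Step V E M P)
    (hG : Gal V P') (hP' : Fin' P') (hY : Fin' Y) (hi : Indep (M ⊔ P) Y) (τ : Ω ≃ₐ[k] Ω)
    (hτ : Fixes τ V) : ∃ γ : Ω ≃ₐ[k] Ω, Fixes γ (E ⊔ Y) ∧ ∀ x ∈ P', γ x = τ x := by
  have hMP : Fin' (M ⊔ P) := fin_sup h.fgM h.fgP
  have hE : Fin' E := fin_le hMP h.le
  have hF : Fin' (E ⊔ Y) := fin_sup hE hY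
  have hEY : Indep E Y := hi.mono_left hMP hY h.le
  haveI : Fact (V ≤ P') := ⟨hG.le⟩
  obtain ⟨hfin, hgal⟩ := hG.finite hP'
  have hVE : V ≤ E := h.le_E
  have hVF : V ≤ E ⊔ Y := hVE.trans le_sup_left
  let H : Subgroup (P' ≃ₐ[V] P') :=
    { carrier := {s | ∃ γ : Ω ≃ₐ[k] Ω, Fixes γ (E ⊔ Y) ∧ ∀ x : P', (s x : Ω) = γ x}
      one_mem' := ⟨AlgEquiv.refl, fun _ _ => rfl, fun _ => rfl⟩
      mul_mem' := by
        rintro s t ⟨γ, hγ, hs⟩ ⟨δ, hδ, ht⟩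
        refine ⟨δ.trans γ, fun x hx => ?_, fun x => ?_⟩
        · rw [AlgEquiv.trans_apply, hδ x hx, hγ x hx]
        · rw [AlgEquiv.mul_apply, hs, ht, AlgEquiv.trans_apply]
      inv_mem' := by
        rintro s ⟨γ, hγ, hs⟩
        refine ⟨γ.symm, fun x hx => ?_, fun x => ?_⟩
        · rw [AlgEquiv.symm_apply_eq, hγ x hx]
        · rw [AlgEquiv.eq_symm_apply, ← hs]
          congr 1
          exact AlgEquiv.apply_symm_apply s x }
  have hfix : IntermediateField.fixedField H = ⊥ := by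
    rw [eq_bot_iff]
    intro x hx
    have h1 : ∀ γ : Ω ≃ₐ[k] Ω, Fixes γ (E ⊔ Y) → γ x = x := by
      intro γ hγ
      obtain ⟨s, hs⟩ := exists_restrict hG (hγ.mono hVF)
      have h2 : s ∈ H := ⟨γ, hγ, hs⟩
      have h3 := (IntermediateField.mem_fixedField_iff H x).mp hx s h2
      rw [← hs, h3]
    have h2 : IsAlgebraic V (x : Ω) := hG.alg x x.2
    have h3 : (x : Ω) ∈ E ⊔ Y := mem_of_fixed hF (alg_mono hVF h2) h1
    have h4 : (x : Ω) ∈ E := closed_sup hE hY hEY h3 (alg_mono hVE h2)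
    have h6 : (x : Ω) ∈ P := closed_sup h.fgP h.fgM (Indep.symm h.indep)
      (by rw [sup_comm]; exact h.le h4) (alg_mono h.le_P h2)
    have h5 : (x : Ω) ∈ V := by
      rw [h.eq]
      exact ⟨h4, h6⟩
    rw [IntermediateField.mem_bot]
    exact ⟨⟨x, h5⟩, Subtype.ext rfl⟩
  have hH : H = ⊤ := by
    rw [← IntermediateField.fixingSubgroup_fixedField H, hfix, IntermediateField.fixingSubgroup_bot]
  obtain ⟨s, hs⟩ := exists_restrict hG hτ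
  have h1 : s ∈ H := hH ▸ Subgroup.mem_top s
  obtain ⟨γ, hγ, hγs⟩ := h1
  exact ⟨γ, hγ, fun x hx => by rw [← hγs ⟨x, hx⟩, hs]⟩

/-- the Galois hull `R` of `Q` over `X·V·Y`, `X = k(x)`, `x` a transcendence basis of `M`: base `M` -/
theorem cond1' {V E M P₀ P Y Q X C : IntermediateField k Ω} (h : Step V E M P₀)
    (hGP : Gal V P) (hPP : P₀ ≤ P) (hfP : Fin' P) (hY : Fin' Y) (hi : Indep (M ⊔ P) Y) (hQ : Fin' Q) (hG : Gal (E ⊔ Y) Q) (hN : M ⊔ P ≤ Q) (hC : Fin' C)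
    (hXM : X ≤ M) (hMX : ∀ x ∈ M, IsAlgebraic X x) (hXC : Gal X C)
    [Fact (M ≤ M ⊔ (P ⊔ Y))] [Fact (P ⊔ Y ≤ M ⊔ (P ⊔ Y))] [Fact (M ≤ Q)]
    [Fact (P ⊔ Y ≤ Q)] [Fact (M ⊔ (P ⊔ Y) ≤ Q)] :
    ∃ R : IntermediateField k Ω, Fin' R ∧ Gal (X ⊔ (V ⊔ Y)) R ∧ Q ≤ R ∧ C ≤ R ∧
      ∃ (_ : Fact (M ≤ R)) (_ : Fact (P ⊔ Y ≤ R)) (_ : Fact (M ⊔ (P ⊔ Y) ≤ R)),
        ∀ (W : SmoothModel k (P ⊔ Y : IntermediateField k Ω)) (j : W.I) (w : Valuation R ℤᵐ⁰),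
          Br.Bad k W M (M ⊔ (P ⊔ Y) : IntermediateField k Ω) j w → ∃ φ : Q →ₐ[k] R,
          (∀ b : (P ⊔ Y : IntermediateField k Ω),
            φ (algebraMap (P ⊔ Y : IntermediateField k Ω) Q b) =
              algebraMap (P ⊔ Y : IntermediateField k Ω) R b) ∧
          (∀ y : M, IsAlgebraic M (φ (algebraMap M Q y))) ∧
          Br.Bad k W M (M ⊔ (P ⊔ Y) : IntermediateField k Ω) j (w.comap (φ : Q →+* R)) := by
  set F : IntermediateField k Ω := X ⊔ (V ⊔ Y) with hFdef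
  set Z : IntermediateField k Ω := M ⊔ (P ⊔ Y) with hZdef
  have hVP : V ≤ P := hGP.le
  have hPQ : P ≤ Q := le_sup_right.trans hN
  have hMQ : M ≤ Q := le_sup_left.trans hN
  have hYQ : Y ≤ Q := le_sup_right.trans hG.le
  have hXF : X ≤ F := le_sup_left
  have hVF : V ≤ F := le_sup_left.trans le_sup_right
  have hYF : Y ≤ F := le_sup_right.trans le_sup_right
  have hFQ : F ≤ Q := sup_le (hXM.trans hMQ) (sup_le (hVP.trans hPQ) hYQ)
  have hMZ : M ≤ Z := le_sup_left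
  have hPZ : P ≤ Z := le_sup_left.trans le_sup_right
  have hYZ : Y ≤ Z := le_sup_right.trans le_sup_right
  have hFZ : F ≤ Z := sup_le (hXM.trans hMZ) (sup_le (hVP.trans hPZ) hYZ)
  have hZQ' : Z ≤ Q := sup_le hMQ (sup_le hPQ hYQ)
  have hEZ : E ⊔ Y ≤ Z := sup_le (h.le.trans (sup_le hMZ (hPP.trans hPZ))) hYZ
  have hZQ : Gal Z Q := hG.mono79 hEZ hZQ'
  have hZF : ∀ x ∈ Z, IsAlgebraic F x := alg_iff.2 (sup_le ((alg_iff.1 hMX).trans (cl_mono hXF))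
    (sup_le ((alg_iff.1 hGP.alg).trans (cl_mono hVF)) (hYF.trans le_cl)))
  have halg : ∀ x ∈ Q, IsAlgebraic F x := fun x hx => alg_trans79 hFZ hZF (hZQ.alg x hx)
  have hFfin : Fin' F := fin_le hQ hFQ
  obtain ⟨R₁, hR₁, hGR₁, hQR₁, hmin⟩ := exists_hull hFfin hQ hFQ halg
  have hGC : Gal F (C ⊔ F) := hXC.base F hXF
  set R : IntermediateField k Ω := R₁ ⊔ (C ⊔ F) with hRdef
  have hGR : Gal F R := hGR₁.sup hGC
  have hR : Fin' R := fin_sup hR₁ (fin_sup hC hFfin)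
  have hQR : Q ≤ R := hQR₁.trans le_sup_left
  have hR₁R : R₁ ≤ R := le_sup_left
  have hCR : C ≤ R := (le_sup_left.trans le_sup_right : C ≤ R₁ ⊔ (C ⊔ F))
  have hZR' : Z ≤ R := hZQ'.trans hQR
  haveI fMR : Fact (M ≤ R) := ⟨hMQ.trans hQR⟩
  haveI fWR : Fact (P ⊔ Y ≤ R) := ⟨(sup_le hPQ hYQ).trans hQR⟩
  haveI fZR : Fact (Z ≤ R) := ⟨hZR'⟩
  haveI fFR : Fact (F ≤ R) := ⟨hFZ.trans hZR'⟩
  have hZR : Gal Z R := hGR.mono79 hFZ hZR'
  refine ⟨R, hR, hGR, hQR, hCR, fMR, fWR, fZR, ?_⟩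
  intro W j w hbad
  haveI := (hZR.finite hR).1
  haveI := (hZR.finite hR).2
  obtain ⟨σ₀, hσ₀, hne⟩ : ∃ σ : R ≃ₐ[Z] R, (∀ z, w z ≤ 1 → w (σ z - z) < 1) ∧ σ ≠ 1 := by
    by_contra hcon
    push Not at hcon
    exact hbad.ram (Br.unr_of_inertia hcon)
  obtain ⟨σ, hσZ, hσ⟩ := hZR.exists_ext hR σ₀
  have hσR : Stab σ R := hZR.stab σ hσZ
  have hσ' : ∀ z : R, w z ≤ 1 → w (⟨σ z, hσR z z.2⟩ - z) < 1 := fun z hz => by
    have h1 : (⟨σ z, hσR z z.2⟩ : R) = σ₀ z := Subtype.ext (hσ z)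
    rw [h1]
    exact hσ₀ z hz
  -- `σ` is the identity on the elements algebraic over `M`
  have hσM : ∀ x ∈ R, IsAlgebraic M x → σ x = x := fun x hx hxM =>
    fixes_of_inertia hbad.triv (hσZ.mono hMZ) hσR hσ' hx hxM
  have hσC : Fixes σ C := fun x hx => hσM x (hCR hx) (alg_mono hXM (hXC.alg x hx))
  -- `σ` is not the identity on some conjugate of `Q`
  obtain ⟨τ, hτ, x, hx, hxne⟩ : ∃ τ : Ω ≃ₐ[k] Ω, Fixes τ F ∧ ∃ x ∈ Q, σ (τ x) ≠ τ x := by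
    by_contra hcon
    push Not at hcon
    apply hne
    have h1 : R₁ ≤ fixF79 σ := hmin (fixF79 σ) fun τ hτ x hx => hcon τ hτ x hx
    have h2 : R ≤ fixF79 σ := sup_le h1 (sup_le (fixes_iff79.1 hσC) (hσZ.mono hFZ))
    ext z
    rw [← hσ z]
    exact h2 z.2
  obtain ⟨γ, hγ, hγP⟩ := h.exists_lift' hGP hfP hY (hi.mono_left (fin_sup h.fgM hfP) hY (sup_le_sup_left hPP M)) τ.symm (hτ.symm79.mono hVF)
  have hγE : Fixes γ E := hγ.mono le_sup_left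
  have hγY : Fixes γ Y := hγ.mono le_sup_right
  set ψ : Ω ≃ₐ[k] Ω := γ.trans τ with hψ
  have hψa : ∀ y, ψ y = τ (γ y) := fun _ => rfl
  have hψs : ∀ y, ψ.symm y = γ.symm (τ.symm y) := fun _ => rfl
  have hψQ : ∀ y ∈ Q, ψ y ∈ R := fun y hy =>
    hR₁R (hGR₁.stab τ hτ _ (hQR₁ (hG.stab γ hγ y hy)))
  have hψF : ∀ y ∈ F, ψ.symm y ∈ Q := fun y hy => by
    rw [hψs, hτ.symm79 y hy]
    exact hG.stab γ.symm hγ.symm79 y (hFQ hy)
  have hψM : ∀ y ∈ M, IsAlgebraic M (ψ y) := fun y hy => by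
    have h1 : γ y ∈ M := h.stabM γ hγE y hy
    rw [hψa]
    exact alg_mono hXM ((hτ.mono hXF).isAlgebraic (hMX _ h1))
  have hψP : Fixes ψ P := fun y hy => by
    rw [hψa, hγP y hy, AlgEquiv.apply_symm_apply]
  have hψY : Fixes ψ Y := fun y hy => by
    rw [hψa, hγY y hy, hτ y (hYF hy)]
  have hψW : Fixes ψ (P ⊔ Y) := hψP.sup79 hψY
  have hIMW : Indep M (P ⊔ Y) := by
    have h1 := hi
    have h2 : Indep M P := (h.indep.symm.up hfP h.fgM hPP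
      ((alg_iff.1 hGP.alg).trans (cl_mono h.le_P))).symm
    have h3 : Indep P Y := hi.mono_left (fin_sup h.fgM hfP) hY le_sup_right
    unfold Indep at h1 h2 h3 ⊢
    rw [sup_assoc] at h1
    omega
  refine ⟨resHom ψ hψQ, fun b => Subtype.ext (hψW b b.2), fun y => ?_, ?_⟩
  · rw [← isAlgebraic_algebraMap_iff (A := Ω) (algebraMap R Ω).injective]
    exact hψM y y.2
  refine bad_comap2 (F := F) hR hQ le_rfl hIMW hZQ hGR.alg ψ hψQ hψF hψM hψW hbad hσZ hσR hσ' hσM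
    (x := γ.symm x) (hG.stab γ.symm hγ.symm79 x hx) ?_
  have h1 : ψ (γ.symm x) = τ x := by rw [hψa, AlgEquiv.apply_symm_apply]
  rw [h1]
  exact hxne


end Pf72953.Tow
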