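import Mathlib
import Pool.Agent.Lib.Pf72953n.RigC
import Pool.Agent.Lib.Pf72953j.Over

/-!
Rigid isotrivial fibre spaces over a Galois cover `X` of `V`, `κ(X) ≥ 0`.
-/

set_option autoImplicit false
set_option linter.style.haveILetI false

open scoped WithZero
open Pf72953 Pf72953.Mov

namespace Pf72953.Tow

variable {k Ω : Type*} [Field k] [Field Ω] [Algebra k Ω]

/-- the pull-back of a step to `X` -/
theorem Step.lift {V E M P₀ X : IntermediateField k Ω} (h : Step V E M P₀) (hX : Fin' X)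
    (hi : Indep M (X ⊔ P₀)) : Step ((X ⊔ E) ⊓ (X ⊔ P₀)) (X ⊔ E) M (X ⊔ P₀) where
  fgM := h.fgM
  fgP := fin_sup hX h.fgP
  indep := hi
  le := sup_le (le_sup_left.trans le_sup_right) (h.le.trans (sup_le_sup_left le_sup_right M))
  alg := alg_iff.2 (sup_le ((le_sup_left.trans (alg_iff.1 h.alg)).trans (cl_mono le_sup_right))
    (sup_le (le_sup_left.trans le_cl)
      ((le_sup_right.trans (alg_iff.1 h.alg)).trans (cl_mono le_sup_right))))
  genM := h.genM.trans (sup_le_sup le_sup_right le_sup_right)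
  genP := sup_le (le_sup_left.trans le_sup_left)
    (h.genP.trans (sup_le_sup_right le_sup_right M))
  stabM := fun σ hσ => h.stabM σ (hσ.mono le_sup_right)
  stabP := fun σ hσ => (hσ.mono le_sup_left).stab.sup (h.stabP σ (hσ.mono le_sup_right))
  eq := rfl

variable [CharZero k] [IsAlgClosed k] [IsAlgClosed Ω]

/-- the estimate of a step: `κ(R₁/P·Y) + κ(B) + κ(Q'/M·B·Y) + dim Y ≤ κ(Q)`, `Q' = Q·M·P` -/
theorem rigid_coreC {B V X E M P₀ P : IntermediateField k Ω} (hO : OverC B V X)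
    (hGX : Gal V X) (h : Step V E M P₀) (hP : P = X ⊔ P₀) (hXk : KodairaGE k X 0)
    (hM : KodairaGE k M 0) (hMM : PicProd M P)
    {Y Q Q' R₁ : IntermediateField k Ω} (hY : CurveProd Y) (hEY : Indep (X ⊔ E) Y)
    (hQ : Fin' Q) (hG : Gal (E ⊔ Y) Q) (hXQ : X ≤ Q) (hQ' : Q' = Q ⊔ (M ⊔ P)) (hR₁ : Fin' R₁)
    (hG₁ : Gal (M ⊔ (P ⊔ Y)) R₁)
    [Fact (M ≤ M ⊔ (P ⊔ Y))] [Fact (P ⊔ Y ≤ M ⊔ (P ⊔ Y))] [Fact (M ≤ Q')]
    [Fact (P ⊔ Y ≤ Q')] [Fact (M ⊔ (P ⊔ Y) ≤ Q')]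
    (hC₁ : ∃ (_ : Fact (M ≤ R₁)) (_ : Fact (P ⊔ Y ≤ R₁)) (_ : Fact (M ⊔ (P ⊔ Y) ≤ R₁)),
        ∀ (MM : SmoothModel k M) (i : MM.I) (w : Valuation R₁ ℤᵐ⁰),
          Br.Bad k MM (P ⊔ Y : IntermediateField k Ω) (M ⊔ (P ⊔ Y) : IntermediateField k Ω) i w →
          ∃ φ : Q' →ₐ[k] R₁,
          (∀ y : M, φ (algebraMap M Q' y) = algebraMap M R₁ y) ∧
          (∀ b : (P ⊔ Y : IntermediateField k Ω), IsAlgebraic (P ⊔ Y : IntermediateField k Ω)
            (φ (algebraMap (P ⊔ Y : IntermediateField k Ω) Q' b))) ∧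
          Br.Bad k MM (P ⊔ Y : IntermediateField k Ω) (M ⊔ (P ⊔ Y) : IntermediateField k Ω) i
            (w.comap (φ : Q' →+* R₁)))
    {a b b' : ℕ} (hb : KodairaGE k B b) (ha : KGE (P ⊔ Y) R₁ a)
    (hb' : KGE (M ⊔ (B ⊔ Y)) Q' b') :
    KodairaGE k Q (a + (b + b' + dimension k Y)) := by
  have hYf : Fin' Y := hY.fin
  have hfP₀ : Fin' P₀ := h.fgP
  have hX : Fin' X := fin_le (fin_le hQ hXQ) le_rfl
  have hfP : Fin' P := hP ▸ fin_sup hX hfP₀
  have hPP : P₀ ≤ P := hP ▸ le_sup_right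
  have hXP : X ≤ P := hP ▸ le_sup_left
  have hGP : Gal V P := hP ▸ hGX.sup h.gal
  have hMP : Indep M P := (h.indep.symm.up hfP h.fgM hPP
      ((alg_iff.1 hGP.alg).trans (cl_mono h.le_P))).symm
  have h' : Step ((X ⊔ E) ⊓ P) (X ⊔ E) M P := by
    subst hP
    exact h.lift hX hMP
  have hB : Fin' B := fin_le hX hO.1
  -- `Y` is independent of `M·P`
  have hi : Indep (M ⊔ P) Y := hEY.up h'.finN hYf h'.le (alg_iff.1 h'.alg)
  have hfQ' : Fin' Q' := hQ' ▸ fin_sup hQ h'.finN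
  have hEYQ : E ⊔ Y ≤ Q := hG.le
  have hEQ : E ≤ Q := le_sup_left.trans hEYQ
  have hYQ : Y ≤ Q := le_sup_right.trans hEYQ
  have hQQ' : Q ≤ Q' := hQ' ▸ le_sup_left
  have hNQ' : M ⊔ P ≤ Q' := hQ' ▸ le_sup_right
  have hMQ' : M ≤ Q' := le_sup_left.trans hNQ'
  have hPQ' : P ≤ Q' := le_sup_right.trans hNQ'
  have hYQ' : Y ≤ Q' := hYQ.trans hQQ'
  have hVP : V ≤ P := hGP.le
  have hBP : B ≤ P := hO.1.trans hXP
  have hBQ' : B ≤ Q' := hBP.trans hPQ'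
  -- `Q'/E·Y` is Galois
  have hG' : Gal (E ⊔ Y) Q' := by
    have h1 : Gal (E ⊔ Y) ((M ⊔ P₀) ⊔ (E ⊔ Y)) := h.galN.base (E ⊔ Y) le_sup_left
    have h2 := hG.sup h1
    have h3 : Q ⊔ ((M ⊔ P₀) ⊔ (E ⊔ Y)) = Q' := by
      rw [hQ', hP]
      refine le_antisymm (sup_le le_sup_left (sup_le ?_ (hEYQ.trans le_sup_left)))
        (sup_le le_sup_left (sup_le ?_ (sup_le (hXQ.trans le_sup_left) ?_)))
      · exact (sup_le_sup_left le_sup_right M).trans le_sup_right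
      · exact (le_sup_left.trans le_sup_left).trans le_sup_right
      · exact (le_sup_right.trans le_sup_left).trans le_sup_right
    rwa [h3] at h2
  -- the fields
  set W : IntermediateField k Ω := P ⊔ Y with hW
  set Z : IntermediateField k Ω := M ⊔ W with hZ
  have hZQ' : Z ≤ Q' := sup_le hMQ' (sup_le hPQ' hYQ')
  have hfW : Fin' W := fin_sup hfP hYf
  have hfZ : Fin' Z := fin_sup h.fgM hfW
  -- the curves
  obtain ⟨T, C, hTM, hTC, hC, hGC, hMT⟩ := exists_curveProd h.fgM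
  have hMT' : M ≤ cl T := alg_iff.1 hMT
  have hCT : C ≤ cl T := alg_iff.1 hGC.alg
  obtain ⟨R, hR, hGR, hQR, hCR, g1, g2, g3, hC₂⟩ := cond1' h hGP hPP hfP hYf hi hfQ' hG' hNQ'
    hC.fin hTM hMT hGC
  have hMVY : M ⊔ (V ⊔ Y) ≤ Q' := sup_le hMQ' (sup_le (hVP.trans hPQ') hYQ')
  have hTVY : T ⊔ (V ⊔ Y) ≤ Q' := (sup_le_sup_right hTM _).trans hMVY
  have halgR : ∀ x ∈ R, IsAlgebraic Q' x :=
    alg_iff.2 ((alg_iff.1 hGR.alg).trans (cl_mono hTVY))
  -- dimensions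
  have e3 : dimension k (M ⊔ P : IntermediateField k Ω) = dimension k M + dimension k P := hMP
  have e2 : dimension k ((M ⊔ P) ⊔ Y : IntermediateField k Ω) =
      dimension k (M ⊔ P : IntermediateField k Ω) + dimension k Y := hi
  have iPY : Indep P Y := hi.mono_left h'.finN hYf le_sup_right
  have e4 : dimension k W = dimension k P + dimension k Y := iPY
  have hZ' : Z = (M ⊔ P) ⊔ Y := by rw [hZ, hW, sup_assoc]
  have iMW : Indep M W := by
    show dimension k Z = _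
    rw [hZ']
    omega
  have iMBY : Indep M (B ⊔ Y) := iMW.mono h.fgM hfW le_rfl (sup_le_sup_right hBP Y)
  have iMY : Indep M Y := iMBY.mono h.fgM (fin_sup hB hYf) le_rfl le_sup_right
  have iCY : Indep C Y := (iMY.mono_left h.fgM hYf hTM).up hC.fin hYf hTC hCT
  have iPMY : Indep P (M ⊔ Y) := by
    have e5 : dimension k (M ⊔ Y : IntermediateField k Ω) = dimension k M + dimension k Y := iMY
    have e6 : P ⊔ (M ⊔ Y) = (M ⊔ P) ⊔ Y := by rw [← sup_assoc, sup_comm P M]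
    unfold Indep
    rw [e6]
    omega
  have iXCY : Indep X (C ⊔ Y) :=
    ((iPMY.mono hfP (fin_sup h.fgM hYf) hXP (sup_le_sup_right hTM Y)).symm.up
      (fin_sup hC.fin hYf) hX (sup_le_sup_right hTC Y)
      (sup_le (hCT.trans (cl_mono le_sup_left)) (le_sup_right.trans le_cl))).symm
  have hMdim : dimension k M = dimension k T := dim_eq h.fgM hTM hMT
  have hCdim : dimension k C = dimension k T := dim_eq hC.fin hTC hGC.alg
  have hCY : dimension k (C ⊔ Y : IntermediateField k Ω) = dimension k C + dimension k Y := iCY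
  -- the inequality for `X`
  have hb1 : KGE (M ⊔ (B ⊔ Y)) R b' := kge_pull hR hQR halgR hb'
  have hYR : Y ≤ R := hYQ'.trans hQR
  have hBR : B ≤ R := hBQ'.trans hQR
  have hMR : M ≤ R := hMQ'.trans hQR
  have hXR : X ≤ R := (hXP.trans hPQ').trans hQR
  have hb0 : KGE (T ⊔ (B ⊔ Y)) R b' :=
    (kge_base hR (sup_le_sup_right hTM _) (sup_le hMR (sup_le hBR hYR))
      (alg_iff.2 (sup_le (hMT'.trans (cl_mono le_sup_left)) (le_sup_right.trans le_cl)))).2 hb1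
  have hb2 : KGE (B ⊔ (C ⊔ Y)) R b' :=
    (kge_base hR (sup_le (hTC.trans (le_sup_left.trans le_sup_right))
      (sup_le le_sup_left (le_sup_right.trans le_sup_right)))
      (sup_le hBR (sup_le hCR hYR))
      (alg_iff.2 (sup_le ((le_sup_left.trans le_sup_right).trans le_cl)
        (sup_le (hCT.trans (cl_mono le_sup_left))
          ((le_sup_right.trans le_sup_right).trans le_cl))))).1 hb0
  have hS : KodairaGE k R (b + b' + dimension k (C ⊔ Y : IntermediateField k Ω)) := by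
    have h1 := hO.2.2 (C ⊔ Y) R (hC.sup hY iCY) iXCY hR
      (hGR.of_le (sup_le (hTC.trans (le_sup_left.trans le_sup_right))
        (sup_le le_sup_left (le_sup_right.trans le_sup_right)))
        (sup_le ((hVP.trans hPQ').trans hQR) (sup_le hCR hYR))) b b' hb
      (by rw [sup_eq_right.2 hXR]; exact hb2)
    rwa [sup_eq_right.2 hXR] at h1
  have hS' : KGE M R (b + b' + dimension k Y) :=
    (kge_easy hR hMR hS).mono (by omega)
  -- the product formula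
  have hplus : KodairaGE k Q' (a + (b + b' + dimension k Y)) := by
    haveI : Algebra.EssFiniteType k W := hfW
    haveI : Algebra.EssFiniteType k M := h.fgM
    haveI : Algebra.EssFiniteType k Z := hfZ
    haveI : Algebra.EssFiniteType k Q' := hfQ'
    obtain ⟨g1', g2', g3', hC₁⟩ := hC₁
    have hEYZ : E ⊔ Y ≤ Z := by
      rw [hZ']
      exact sup_le_sup_right (h.le.trans (sup_le_sup_left hPP M)) Y
    obtain ⟨i1, i2⟩ := (hG'.of_le hEYZ hZQ').finite hfQ'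
    have hMZ : T ⊔ (V ⊔ Y) ≤ Z :=
      (sup_le_sup_right hTM _).trans (sup_le_sup_left (sup_le_sup_right hVP Y) M)
    obtain ⟨i3, i4⟩ := (hGR.of_le hMZ (hZQ'.trans hQR)).finite hR
    obtain ⟨i5, i6⟩ := hG₁.finite hR₁
    have hdim : dimension k W + dimension k M = dimension k Z := by
      rw [hZ']
      omega
    have hcomp : Twr.IsCompositum k W M Z := isCompositum (by rw [sup_comm])
    have hY0 : KodairaGE k Y 0 := Diag.ge_zero' hY.kod
    have hPk : KodairaGE k P 0 := kge_pull' hfP hXP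
      (alg_iff.2 ((alg_iff.1 hGP.alg).trans (cl_mono hGX.le))) hXk
    have hW0 : KodairaGE k W 0 := kge_prod hfP hYf iPY hPk hY0
    obtain ⟨MM, PM', hmv⟩ := hMM Y W Z Q' hfW hfZ inferInstance inferInstance inferInstance
      inferInstance inferInstance hcomp hdim hY iPY hW hfQ' (hG'.of_le hEYZ hZQ')
    have key := plus2 (k := k) (B := W) (Y := M) (Z := Z) (Q := Q') (R₁ := R₁) (R₂ := R) MM PM'
      hcomp hdim (Diag.ne_bot_of_ge hM) (Diag.ne_bot_of_ge hW0) hmv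
      (fun i w hw => hC₁ MM i w hw) (fun j w hw => hC₂ PM' j w hw)
    obtain ⟨_, ha'⟩ := ha
    obtain ⟨_, hS''⟩ := hS'
    refine kge_of_le (le_trans ?_ key)
    refine le_trans (le_of_eq ?_) (add_le_add (le_iSup₂_of_le a ha' le_rfl)
      (le_iSup₂_of_le (b + b' + dimension k Y) hS'' le_rfl))
    push_cast
    rfl
  -- descend
  rw [hQ'] at hplus
  have hG₂ : Gal ((X ⊔ E) ⊔ Y) Q :=
    hG.of_le (sup_le_sup_right le_sup_right Y) (sup_le (sup_le hXQ hEQ) hYQ)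
  have hX₁ : KodairaGE k ((X ⊔ E) ⊓ P : IntermediateField k Ω) 0 :=
    kge_pull' h'.finV (le_inf le_sup_left hXP)
      (alg_iff.2 ((inf_le_right.trans (alg_iff.1 hGP.alg)).trans (cl_mono hGX.le))) hXk
  exact descend h' hYf hi hQ hG₂ hX₁ hM (Diag.ge_zero' hY.kod) hplus

/-- a rigid isotrivial fibre space over the Galois cover `X` of `V`, with a growing base -/
theorem OverC.grow {B V X E M P₀ P M₀ : IntermediateField k Ω} (hO : OverC B V X) (hX : Fin' X)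
    (hGX : Gal V X) (hM₀ : M₀ = ⊥ ∨ StableC M₀ M) (h : Step V E M P₀) (hP : P = X ⊔ P₀)
    (hM₀E : M₀ ≤ E) (hXk : KodairaGE k X 0)
    (hM : KodairaGE k M 0) (hMM : PicProd M P) : OverC (B ⊔ M₀) E (X ⊔ E) := by
  refine ⟨sup_le (hO.1.trans le_sup_left) (hM₀E.trans le_sup_right), le_sup_right, ?_⟩
  intro Y Q₀ hY hEY hQ₀ hG₀ b c hb hc
  have hYf : Fin' Y := hY.fin
  have hE : Fin' E := h.finE
  have hEQ₀ : E ≤ Q₀ := le_sup_left.trans hG₀.le
  have hYQ₀ : Y ≤ Q₀ := le_sup_right.trans hG₀.le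
  -- the cover `Q = X·Q₀` of `E·Y`
  obtain ⟨Q, hQdef⟩ : ∃ Q : IntermediateField k Ω, Q = (X ⊔ E) ⊔ Q₀ := ⟨_, rfl⟩
  have hQe : Q = X ⊔ Q₀ := by rw [hQdef, sup_assoc, sup_eq_right.2 hEQ₀]
  have hQ : Fin' Q := hQe ▸ fin_sup hX hQ₀
  have hXQ : X ≤ Q := hQe ▸ le_sup_left
  have hG : Gal (E ⊔ Y) Q := by
    have h1 := (gal_sup_base hGX (h.le_E.trans le_sup_left : V ≤ E ⊔ Y)).sup hG₀
    have h2 : (E ⊔ Y ⊔ X) ⊔ Q₀ = Q := by
      rw [hQe]
      exact le_antisymm (sup_le (sup_le (hG₀.le.trans le_sup_right) le_sup_left) le_sup_right)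
        (sup_le (le_sup_right.trans le_sup_left) le_sup_right)
    rwa [h2] at h1
  rw [← hQdef] at hc ⊢
  have hfP₀ : Fin' P₀ := h.fgP
  have hfP : Fin' P := hP ▸ fin_sup hX hfP₀
  have hPP : P₀ ≤ P := hP ▸ le_sup_right
  have hXP : X ≤ P := hP ▸ le_sup_left
  have hGP : Gal V P := hP ▸ hGX.sup h.gal
  have hMP : Indep M P := (h.indep.symm.up hfP h.fgM hPP
      ((alg_iff.1 hGP.alg).trans (cl_mono h.le_P))).symm
  have h' : Step ((X ⊔ E) ⊓ P) (X ⊔ E) M P := by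
    subst hP
    exact h.lift hX hMP
  have hB : Fin' B := fin_le hX hO.1
  have hBP : B ≤ P := hO.1.trans hXP
  have hi : Indep (M ⊔ P) Y := hEY.up h'.finN hYf h'.le (alg_iff.1 h'.alg)
  obtain ⟨Q', hQ'⟩ : ∃ Q' : IntermediateField k Ω, Q' = Q ⊔ (M ⊔ P) := ⟨_, rfl⟩
  have hfQ' : Fin' Q' := hQ' ▸ fin_sup hQ h'.finN
  have hEYQ : E ⊔ Y ≤ Q := hG.le
  have hEQ : E ≤ Q := le_sup_left.trans hEYQ
  have hYQ : Y ≤ Q := le_sup_right.trans hEYQ
  have hQQ' : Q ≤ Q' := hQ' ▸ le_sup_left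
  have hNQ' : M ⊔ P ≤ Q' := hQ' ▸ le_sup_right
  have hMQ' : M ≤ Q' := le_sup_left.trans hNQ'
  have hPQ' : P ≤ Q' := le_sup_right.trans hNQ'
  have hYQ' : Y ≤ Q' := hYQ.trans hQQ'
  have hBQ' : B ≤ Q' := hBP.trans hPQ'
  have hG' : Gal (E ⊔ Y) Q' := by
    have h1 : Gal (E ⊔ Y) ((M ⊔ P₀) ⊔ (E ⊔ Y)) := h.galN.base (E ⊔ Y) le_sup_left
    have h2 := hG.sup h1
    have h3 : Q ⊔ ((M ⊔ P₀) ⊔ (E ⊔ Y)) = Q' := by
      rw [hQ', hP]
      refine le_antisymm (sup_le le_sup_left (sup_le ?_ (hEYQ.trans le_sup_left)))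
        (sup_le le_sup_left (sup_le ?_ (sup_le (hXQ.trans le_sup_left) ?_)))
      · exact (sup_le_sup_left le_sup_right M).trans le_sup_right
      · exact (le_sup_left.trans le_sup_left).trans le_sup_right
      · exact (le_sup_right.trans le_sup_left).trans le_sup_right
    rwa [h3] at h2
  -- dimensions
  have e2 : dimension k ((M ⊔ P) ⊔ Y : IntermediateField k Ω) =
      dimension k (M ⊔ P : IntermediateField k Ω) + dimension k Y := hi
  have e3 : dimension k (M ⊔ P : IntermediateField k Ω) = dimension k M + dimension k P := hMP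
  have iPY : Indep P Y := hi.mono_left h'.finN hYf le_sup_right
  have hfPY : Fin' (P ⊔ Y) := fin_sup hfP hYf
  have e4 : dimension k (P ⊔ Y : IntermediateField k Ω) = dimension k P + dimension k Y := iPY
  have hZ' : M ⊔ (P ⊔ Y) = (M ⊔ P) ⊔ Y := (sup_assoc _ _ _).symm
  have iMW : Indep M (P ⊔ Y) := by
    show dimension k (M ⊔ (P ⊔ Y) : IntermediateField k Ω) = _
    rw [hZ']
    omega
  have e8 : dimension k (M ⊔ (P ⊔ Y) : IntermediateField k Ω) =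
    dimension k M + dimension k (P ⊔ Y : IntermediateField k Ω) := iMW
  have iMBY : Indep M (B ⊔ Y) := iMW.mono h.fgM hfPY le_rfl (sup_le_sup_right hBP Y)
  have e6 : dimension k (M ⊔ (B ⊔ Y) : IntermediateField k Ω) =
    dimension k M + dimension k (B ⊔ Y : IntermediateField k Ω) := iMBY
  -- the field `Z = M·P·Y`
  have hWQ' : P ⊔ Y ≤ Q' := sup_le hPQ' hYQ'
  have hZQ' : M ⊔ (P ⊔ Y) ≤ Q' := sup_le hMQ' hWQ'
  haveI f1 : Fact (M ≤ M ⊔ (P ⊔ Y)) := ⟨le_sup_left⟩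
  haveI f2 : Fact (P ⊔ Y ≤ M ⊔ (P ⊔ Y)) := ⟨le_sup_right⟩
  haveI f3 : Fact (M ≤ Q') := ⟨hMQ'⟩
  haveI f4 : Fact (P ⊔ Y ≤ Q') := ⟨hWQ'⟩
  haveI f5 : Fact (M ⊔ (P ⊔ Y) ≤ Q') := ⟨hZQ'⟩
  have hEZ : E ⊔ Y ≤ M ⊔ (P ⊔ Y) := by
    rw [hZ']
    exact sup_le_sup_right (h.le.trans (sup_le_sup_left hPP M)) Y
  have hGZ : Gal (M ⊔ (P ⊔ Y)) Q' := hG'.of_le hEZ hZQ'
  have halgQ' : ∀ x ∈ Q', IsAlgebraic Q x := alg_iff.2 (hQ' ▸ sup_le le_cl
    ((alg_iff.1 h'.alg).trans (cl_mono (sup_le hXQ hEQ))))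
  rcases hM₀ with rfl | hM₀
  · -- the base does not grow
    rw [sup_bot_eq] at hb hc
    have hc' : KGE (B ⊔ Y) Q' c := kge_pull hfQ' hQQ' halgQ' hc
    have hXX : (P ⊔ Y) ⊔ (M ⊔ (B ⊔ Y)) = M ⊔ (P ⊔ Y) :=
      le_antisymm (sup_le le_sup_right (sup_le_sup_left (sup_le_sup_right hBP Y) M))
        (sup_le (le_sup_left.trans le_sup_right) le_sup_left)
    obtain ⟨a, b', hcab, ha, hb'⟩ := kge_sub (F := B ⊔ Y) (X := P ⊔ Y) (Y := M ⊔ (B ⊔ Y)) hfQ'
      (sup_le_sup_right hBP Y) le_sup_right hWQ' (sup_le hMQ' (sup_le hBQ' hYQ')) (by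
        rw [hXX]
        omega) hc'
    have h4 := rigid_coreC (R₁ := Q') hO hGX h hP hXk hM hMM hY hEY hQ hG hXQ hQ' hfQ' hGZ
      ⟨f3, f4, f5, fun MM i w hw => ⟨AlgHom.id k Q', fun y => rfl,
        fun b => isAlgebraic_algebraMap b, by
          have h1 : w.comap ((AlgHom.id k Q' : Q' →ₐ[k] Q') : Q' →+* Q') = w := by
            ext x
            rfl
          rw [h1]
          exact hw⟩⟩ hb ha hb'
    exact kge_mono (by omega) h4
  · have hfM₀ : Fin' M₀ := fin_le h.fgM hM₀.1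
    have iBM₀ : Indep B M₀ := hMP.symm.mono hfP h.fgM hBP hM₀.1
    obtain ⟨b₁, m, hbm, hb₁, hm⟩ := kge_prod_upper' hB hfM₀ iBM₀ hb
    have hM₀Q' : M₀ ≤ Q' := hM₀.1.trans hMQ'
    have iM₀W : Indep M₀ (P ⊔ Y) := iMW.mono h.fgM hfPY hM₀.1 le_rfl
    have iM₀BY : Indep M₀ (B ⊔ Y) := iMBY.mono h.fgM (fin_sup hB hYf) hM₀.1 le_rfl
    have e5 : dimension k (M₀ ⊔ (P ⊔ Y) : IntermediateField k Ω) =
      dimension k M₀ + dimension k (P ⊔ Y : IntermediateField k Ω) := iM₀W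
    have e7 : dimension k (M₀ ⊔ (B ⊔ Y) : IntermediateField k Ω) =
      dimension k M₀ + dimension k (B ⊔ Y : IntermediateField k Ω) := iM₀BY
    have hF : (B ⊔ M₀) ⊔ Y = M₀ ⊔ (B ⊔ Y) := by rw [← sup_assoc, sup_comm B M₀]
    have hXX : (M₀ ⊔ (P ⊔ Y)) ⊔ (M ⊔ (B ⊔ Y)) = M ⊔ (P ⊔ Y) := by
      refine le_antisymm (sup_le (sup_le_sup_right hM₀.1 _)
        (sup_le_sup_left (sup_le_sup_right hBP Y) M))
        (sup_le (le_sup_left.trans le_sup_right) (le_sup_right.trans le_sup_left))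
    -- easy addition over `B·M₀·Y`
    have hc' : KGE ((B ⊔ M₀) ⊔ Y) Q' c := kge_pull hfQ' hQQ' halgQ' hc
    rw [hF] at hc'
    obtain ⟨a, b', hcab, ha, hb'⟩ := kge_sub (F := M₀ ⊔ (B ⊔ Y)) (X := M₀ ⊔ (P ⊔ Y))
      (Y := M ⊔ (B ⊔ Y)) hfQ' (sup_le_sup_left (sup_le_sup_right hBP Y) M₀)
      (sup_le_sup_right hM₀.1 (B ⊔ Y)) (sup_le hM₀Q' hWQ')
      (sup_le hMQ' (sup_le hBQ' hYQ')) (by
        rw [hXX]
        omega) hc'
    -- the stable inequality for `M/M₀`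
    obtain ⟨T, C, hTP, hTC, hC, hGC, hPT⟩ := exists_curveProd hfP
    have hPT' : P ≤ cl T := alg_iff.1 hPT
    have hCT : C ≤ cl T := alg_iff.1 hGC.alg
    obtain ⟨R₁, hR₁, hGR₁, hQR₁, hCR₁, hC₁⟩ := cond2 h.fgM hfP hYf hMP hi hfQ' hGZ hC.fin hTP
      hPT hGC
    have hYR : Y ≤ R₁ := hYQ'.trans hQR₁
    have hM₀R : M₀ ≤ R₁ := hM₀Q'.trans hQR₁
    have hWR : P ⊔ Y ≤ R₁ := hWQ'.trans hQR₁
    have iTY : Indep T Y := iPY.mono_left hfP hYf hTP
    have iCY : Indep C Y := iTY.up hC.fin hYf hTC hCT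
    have hCYcl : C ⊔ Y ≤ cl (T ⊔ Y) :=
      sup_le (hCT.trans (cl_mono le_sup_left)) (le_sup_right.trans le_cl)
    have iMCY : Indep M (C ⊔ Y) :=
      ((iMW.mono h.fgM hfPY le_rfl (sup_le_sup_right hTP Y)).symm.up (fin_sup hC.fin hYf) h.fgM
        (sup_le_sup_right hTC Y) hCYcl).symm
    have hPdim : dimension k P = dimension k T := dim_eq hfP hTP hPT
    have hCdim : dimension k C = dimension k T := dim_eq hC.fin hTC hGC.alg
    have hCY : dimension k (C ⊔ Y : IntermediateField k Ω) = dimension k C + dimension k Y := iCY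
    have hTYZ : M ⊔ (T ⊔ Y) ≤ M ⊔ (P ⊔ Y) := sup_le_sup_left (sup_le_sup_right hTP Y) M
    have halgR : ∀ x ∈ R₁, IsAlgebraic Q' x :=
      alg_iff.2 ((alg_iff.1 hGR₁.alg).trans (cl_mono (hTYZ.trans hZQ')))
    have hG₁ : Gal (M ⊔ (P ⊔ Y)) R₁ := hGR₁.of_le hTYZ (hZQ'.trans hQR₁)
    have ha₁ : KGE (M₀ ⊔ (P ⊔ Y)) R₁ a := kge_pull hR₁ hQR₁ halgR ha
    have ha₂ : KGE (M₀ ⊔ (T ⊔ Y)) R₁ a :=
      (kge_base hR₁ (sup_le_sup_left (sup_le_sup_right hTP Y) M₀) (sup_le hM₀R hWR)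
        (alg_iff.2 (sup_le (le_sup_left.trans le_cl)
          ((sup_le (hPT'.trans (cl_mono le_sup_left)) (le_sup_right.trans le_cl) :
            P ⊔ Y ≤ cl (T ⊔ Y)).trans (cl_mono le_sup_right))))).2 ha₁
    have ha₃ : KGE (M₀ ⊔ (C ⊔ Y)) R₁ a :=
      (kge_base hR₁ (sup_le_sup_left (sup_le_sup_right hTC Y) M₀)
        (sup_le hM₀R (sup_le hCR₁ hYR))
        (alg_iff.2 (sup_le (le_sup_left.trans le_cl) (hCYcl.trans (cl_mono le_sup_right))))).1 ha₂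
    have h1 : KodairaGE k R₁ (m + a + dimension k (C ⊔ Y : IntermediateField k Ω)) := by
      refine hM₀.2 (C ⊔ Y) R₁ (hC.sup hY iCY) iMCY hR₁ ?_ m a hm ha₃
      exact hGR₁.of_le (sup_le_sup_left (sup_le_sup_right hTC Y) M)
        (sup_le (hMQ'.trans hQR₁) (sup_le hCR₁ hYR))
    have h2 : KGE (P ⊔ Y) R₁ (m + a) := (kge_easy hR₁ hWR h1).mono (by omega)
    have h4 := rigid_coreC hO hGX h hP hXk hM hMM hY hEY hQ hG hXQ hQ' hR₁ hG₁ hC₁ hb₁ h2 hb'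
    exact kge_mono (by omega) h4

/-- a rigid isotrivial fibre space over the Galois cover `X` of `V`, `κ(X) ≥ 0` -/
theorem OverC.rigid {B V X E M P₀ : IntermediateField k Ω} (hO : OverC B V X) (hX : Fin' X)
    (hGX : Gal V X) (h : Step V E M P₀) (hXk : KodairaGE k X 0) (hM : KodairaGE k M 0)
    (hMM : PicProd M (X ⊔ P₀)) : OverC B E (X ⊔ E) := by
  have h1 := hO.grow (M₀ := ⊥) hX hGX (Or.inl rfl) h rfl bot_le hXk hM hMM
  rwa [sup_bot_eq] at h1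

/-- `κ(X·E) ≥ 0` -/
theorem Step.kod_sup {V X E M P₀ : IntermediateField k Ω} (hX : Fin' X)
    (hGX : Gal V X) (h : Step V E M P₀) (hXk : KodairaGE k X 0) (hM : KodairaGE k M 0) :
    KodairaGE k (X ⊔ E : IntermediateField k Ω) 0 := by
  have hfP : Fin' (X ⊔ P₀) := fin_sup hX h.fgP
  have hGP : Gal V (X ⊔ P₀) := hGX.sup h.gal
  have hMP : Indep M (X ⊔ P₀) := (h.indep.symm.up hfP h.fgM le_sup_right
      ((alg_iff.1 hGP.alg).trans (cl_mono h.le_P))).symm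
  have h' := h.lift hX hMP
  refine h'.kod_E hM (kge_pull' h'.finV (le_inf le_sup_left le_sup_left)
      (alg_iff.2 ((inf_le_right.trans (alg_iff.1 hGP.alg)).trans (cl_mono hGX.le))) hXk)

end Pf72953.Tow
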