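import Mathlib
import Pool.Agent.Lib.Pf72953n.GalTower
import Pool.Agent.Lib.Pf72953n.RigO

/-!
Towers of families of curves and of isotrivial fibre spaces.
-/

set_option autoImplicit false
set_option linter.style.haveILetI false

open scoped WithZero
open Pf72953 Pf72953.Mov Pf72953.Tow

namespace Pf72953.Pl

variable {k Ω : Type*} [Field k] [Field Ω] [Algebra k Ω]

/-- `E → V` is a tower of fibre spaces over `V`: every step is the pull-back `X ×_W Q → X` of a family of curves `Q → W`, `Q` any
finite Galois extension of `W(x)` (then `W` is replaced by `W(x)`), the pull-back `X ×_W E` of a rigid isotrivial fibre space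
`E → W` with the fibre `M` (then `W` is replaced by `E`), an isotrivial fibre space `(G × X ×_W P₀)/H → X₁`, `P₀` a finite Galois
cover of `W`, `X₁` a finite cover of `X`, or a cover `X ×_W P₀`; the generic fibres `X/B` of the steps which are followed by a
further one have Kodaira dimension `≥ 0`. -/
inductive FibTower [CharZero k] (B V : IntermediateField k Ω) :
    IntermediateField k Ω → IntermediateField k Ω → Prop
  | base : FibTower B V V V
  | curve {W X Q : IntermediateField k Ω} {x : Ω} : FibTower B V W X → relKod B X ≠ ⊥ →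
      Transcendental X x → Fin' Q → Gal (W ⊔ IntermediateField.adjoin k {x}) Q →
      FibTower B V (W ⊔ IntermediateField.adjoin k {x}) (X ⊔ Q)
  | rigid {W X E M P₀ : IntermediateField k Ω} : FibTower B V W X → relKod B X ≠ ⊥ → Gal W X →
      Step W E M P₀ → kodairaDim k M ≠ ⊥ → PicProd M (X ⊔ P₀) → FibTower B V E (X ⊔ E)
  | isotrivial {W X X₁ E G P₀ : IntermediateField k Ω} : FibTower B V W X → relKod B X ≠ ⊥ →
      Gal W P₀ → X ≤ X₁ → Step X₁ E G (X ⊔ P₀) → FibTower B V W E
  | cover {W X P₀ : IntermediateField k Ω} : FibTower B V W X → Fin' P₀ → Gal W P₀ →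
      FibTower B V W (X ⊔ P₀)

section

variable [CharZero k] [IsAlgClosed k] [IsAlgClosed Ω]

theorem FibTower.over {B V W X : IntermediateField k Ω} (h : FibTower B V W X)
    (hΩ : ∀ A : IntermediateField k Ω, Fin' A → ∃ t : Ω, Transcendental A t)
    (hV : Fin' V) (hS : StableFib B V) (hB : KodairaGE k B 0) :
    Fin' W ∧ Fin' X ∧ OverC B W X := by
  have hx1 : ∀ x : Ω, Fin' (IntermediateField.adjoin k {x}) := fun x => by
    rw [Fin', IntermediateField.essFiniteType_iff]
    exact ⟨{x}, by rw [Finset.coe_singleton]⟩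
  induction h with
  | base => exact ⟨hV, hV, (over_iff hV).1 (over_self.2 hS)⟩
  | curve _ hr hx hQ hG ih =>
    obtain ⟨hW, hX, hO⟩ := ih
    have h0 := kge_zero_of_relKod hX (((over_iff hX).2 hO).iitaka hX) hB hr
    exact ⟨fin_sup hW (hx1 _), fin_sup hX hQ, hO.curve hX hQ h0 hΩ hx hG⟩
  | rigid _ hr hG hS' hM hP ih =>
    obtain ⟨hW, hX, hO⟩ := ih
    have h0 := kge_zero_of_relKod hX (((over_iff hX).2 hO).iitaka hX) hB hr
    exact ⟨hS'.finE, fin_sup hX hS'.finE,
      hO.rigid hX hG hS' h0 ((kge_zero_iff hS'.fgM).1 hM) hP⟩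
  | isotrivial _ hr hG hXX hS' ih =>
    obtain ⟨hW, hX, hO⟩ := ih
    have h0 := kge_zero_of_relKod hX (((over_iff hX).2 hO).iitaka hX) hB hr
    exact ⟨hW, hS'.finE, hO.isotrivial h0 hG hXX hS'⟩
  | cover _ hP hG ih =>
    obtain ⟨hW, hX, hO⟩ := ih
    exact ⟨hW, fin_sup hX hP, hO.sup hX hP hG⟩

/-- Iitaka's inequality for towers of families of curves and of isotrivial fibre spaces over stable fibre spaces -/
theorem FibTower.iitaka {B V W E : IntermediateField k Ω} (h : FibTower B V W E)
    (hΩ : ∀ A : IntermediateField k Ω, Fin' A → ∃ t : Ω, Transcendental A t)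
    (hV : Fin' V) (hS : StableFib B V) : Iitaka B E := by
  by_cases h0 : kodairaDim k B = ⊥
  · unfold Iitaka
    rw [h0, WithBot.bot_add]
    exact bot_le
  · obtain ⟨-, hE, hO⟩ := h.over hΩ hV hS ((kge_zero_iff (fin_le hV hS.1)).1 h0)
    exact ((over_iff hE).2 hO).iitaka hE

/-- `V(x) → B` is stable -/
theorem stableFib_line {B V : IntermediateField k Ω} (hS : StableFib B V) (hV : Fin' V)
    (h0 : kodairaDim k V ≠ ⊥)
    (hΩ : ∀ A : IntermediateField k Ω, Fin' A → ∃ t : Ω, Transcendental A t) {x : Ω}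
    (hx : Transcendental V x) : StableFib B (V ⊔ IntermediateField.adjoin k {x}) := by
  have hx1 : Fin' (IntermediateField.adjoin k {x}) := by
    rw [Fin', IntermediateField.essFiniteType_iff]
    exact ⟨{x}, by rw [Finset.coe_singleton]⟩
  exact over_self.1 ((over_iff (fin_sup hV hx1)).2
    (OverC.line ((over_iff hV).1 (over_self.2 hS)) hV ((kge_zero_iff hV).1 h0) hΩ hx))

end

end Pf72953.Pl
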