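import Mathlib
import Pool.Agent.Lib.Pf72953n.Tower

/-!
Families of curves are invisible for Iitaka's inequality.
-/

set_option autoImplicit false
set_option linter.style.haveILetI false

open scoped WithZero
open Pf72953 Pf72953.Mov Pf72953.Tow

namespace Pf72953.Pl

variable {k Ω : Type*} [Field k] [Field Ω] [Algebra k Ω] [CharZero k] [IsAlgClosed k]
  [IsAlgClosed Ω]

/-- Iitaka's inequality for all fibre spaces of fibre dimension at most `d` is equivalent to Iitaka's inequality for all
`E → B`, `E` a finite Galois extension of `V(x₁, …, x_n)`, `V → B` of fibre dimension at most `d`, any `n`, `κ(E_i/B) ≥ 0` for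
`i < n`. -/
theorem fibreDim_iff (hΩ : ∀ A : IntermediateField k Ω, Fin' A → ∃ t : Ω, Transcendental A t)
    (d : ℕ) : IitakaFibreDim k Ω d ↔
      ∀ (B V E : IntermediateField k Ω) (n : ℕ) (x : Fin n → Ω), Fin' V → B ≤ V →
        dimension k V ≤ dimension k B + d → Fin' E → AlgebraicIndependent V x →
        Gal (coords V x n) E → (∀ i < n, relKod B (stage V E x i) ≠ ⊥) → Iitaka B E := by
  constructor
  · intro hI B V E n x hV hBV hd hE hx hG h0
    exact iitaka_galois hV (stableFib_of_dim hI hV hBV hd) hE hx hG hΩ h0
  · intro h K Q hQ hKQ _ hd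
    refine h K Q Q 0 (fun i => i.elim0) hQ hKQ hd hQ ?_ ?_ fun i hi => absurd hi (Nat.not_lt_zero i)
    · exact algebraicIndependent_empty_type_iff.2 (algebraMap Q Ω).injective
    · rw [coords_zero]
      exact gal_refl

/-- the same for fibre spaces `V → B` of general type -/
theorem generalType_iff (hΩ : ∀ A : IntermediateField k Ω, Fin' A → ∃ t : Ω, Transcendental A t) :
    IitakaGeneralType k Ω ↔
      ∀ (B V E : IntermediateField k Ω) (d n : ℕ) (x : Fin n → Ω), Fin' V → B ≤ V →
        dimension k V = dimension k B + d → relKod B V = d → Fin' E → AlgebraicIndependent V x →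
        Gal (coords V x n) E → (∀ i < n, relKod B (stage V E x i) ≠ ⊥) → Iitaka B E := by
  constructor
  · intro hI B V E d n x hV hBV hd hr hE hx hG h0
    exact iitaka_galois hV (stableFib_of_general hI hV hBV hd hr) hE hx hG hΩ h0
  · intro h K Q hQ hKQ _ d hd hr
    refine h K Q Q d 0 (fun i => i.elim0) hQ hKQ hd hr hQ ?_ ?_
      fun i hi => absurd hi (Nat.not_lt_zero i)
    · exact algebraicIndependent_empty_type_iff.2 (algebraMap Q Ω).injective
    · rw [coords_zero]
      exact gal_refl

end Pf72953.Pl
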