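import Mathlib
import Pool.Agent.Lib.Pf72953j.Over
import Pool.Agent.Lib.Pf72953n.BrA
import Pool.Agent.Lib.Pf72953t.GoodUp

/-!
Étale quotients.
-/

set_option autoImplicit false
set_option linter.style.haveILetI false

open scoped WithZero
open Pf72953 Pf72953.Mov Pf72953.Tow Pf72953.Var

namespace Pf72953.Pl

/-- the forms on `N` give forms on `X` if `N/X` is unramified at the divisorial valuations of `N` -/
theorem kge_etale {k X N : Type*} [Field k] [CharZero k] [Field X] [Field N] [Algebra k X]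
    [Algebra k N] [Algebra X N] [IsScalarTower k X N] [FiniteDimensional X N]
    [Algebra.EssFiniteType k X] [Algebra.EssFiniteType k N]
    (hunr : ∀ w : Valuation N ℤᵐ⁰, IsDivisorial k N w → Br.Unr X w) {l : ℕ}
    (h : KodairaGE k N l) : KodairaGE k X l := by
  classical
  haveI : CharZero X := charZero_of_injective_algebraMap (algebraMap k X).injective
  haveI : CharZero N := charZero_of_injective_algebraMap (algebraMap k N).injective
  obtain ⟨z, hz⟩ := exists_tb k X
  have hzN : IsTranscendenceBasis k (fun i => algebraMap X N (z i)) :=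
    hz.algebraMap_comp (A := N)
  have hcardN : Fintype.card (Fin (dimension k X)) = dimension k N :=
    card_eq_of_isTranscendenceBasis hzN
  have hcardX : Fintype.card (Fin (dimension k X)) = dimension k X :=
    card_eq_of_isTranscendenceBasis hz
  let ε : Fin (dimension k N) ≃ Fin (dimension k X) := (Fintype.equivFinOfCardEq hcardN).symm
  have hzε : IsTranscendenceBasis k ((fun i => algebraMap X N (z i)) ∘ ε) :=
    (isTranscendenceBasis_equiv ε).mpr hzN
  have hback : ((fun i => algebraMap X N (z i)) ∘ ε) ∘ ε.symm = fun i => algebraMap X N (z i) := by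
    funext i; simp
  obtain ⟨m, hm, U₀, hU₀, hU₀ne, f, hf, hff⟩ := h.exists_coord hzε
  have hU : U₀ ∈ WReg k (fun i => algebraMap X N (z i)) m := by
    have h3 := WReg.reindex hU₀ ε.symm
    rwa [hback] at h3
  have hfU : ∀ i, f i * U₀ ∈ WReg k (fun i => algebraMap X N (z i)) m := by
    intro i
    have h3 := WReg.reindex (hff i) ε.symm
    rwa [hback] at h3
  have key : ∀ U ∈ WReg k (fun i => algebraMap X N (z i)) m,
      U ∈ GoodL k X (fun i => algebraMap X N (z i)) m := by
    intro U hU w hv c t hc ht htb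
    have hwN : IsDivisorial k N w := IsDivisorial.of_comap (hcardN.symm.trans hcardX) hv
    have hcN : Adapted k w (fun i => algebraMap X N (c i)) (algebraMap X N t) := hc.map
    have htN : IsUnif w (algebraMap X N t) := by
      refine ⟨by simpa using ht.ne_zero, ht.lt_one, fun a ha => ?_⟩
      obtain ⟨s, hs1, hs2⟩ := hunr w hwN a ha
      exact hs2.trans (ht.le s hs1)
    exact hU w hwN _ (hcN.regBasis hcardN htN)
  exact Twr.of_good' hzN hf (fun i => ⟨m, hm, U₀, key U₀ hU, hU₀ne, key _ (hfU i)⟩)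
    ⟨m, hm, U₀, key U₀ hU, hU₀ne, by rw [one_mul]; exact key U₀ hU⟩

variable {k Ω : Type*} [Field k] [Field Ω] [Algebra k Ω]

/-- `N → X` is a finite étale Galois cover: `N/X` is a finite Galois extension, and every divisorial valuation of `N` has a
uniformizer in `X`. -/
structure EtCover (X N : IntermediateField k Ω) : Prop where
  gal : Gal X N
  fin : Fin' N
  unr : ∀ w : Valuation N ℤᵐ⁰, IsDivisorial k N w → ∀ z : N, w z < 1 →
    ∃ t : N, (t : Ω) ∈ X ∧ w t < 1 ∧ w z ≤ w t

section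

variable [CharZero k] [IsAlgClosed k] [IsAlgClosed Ω]

theorem EtCover.unr_sup {X N Q : IntermediateField k Ω} (h : EtCover X N) (hQ : Fin' Q)
    [Fact (X ⊔ Q ≤ N ⊔ Q)] (w : Valuation (N ⊔ Q : IntermediateField k Ω) ℤᵐ⁰)
    (hw : IsDivisorial k (N ⊔ Q : IntermediateField k Ω) w) :
    Br.Unr (X ⊔ Q : IntermediateField k Ω) w := by
  have hXN : X ≤ N := h.gal.le
  haveI : Fact (X ≤ N) := ⟨hXN⟩
  haveI : Fact (N ≤ N ⊔ Q) := ⟨le_sup_left⟩
  haveI : Fact (X ≤ N ⊔ Q) := ⟨hXN.trans le_sup_left⟩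
  have hNQ : Fin' (N ⊔ Q) := fin_sup h.fin hQ
  haveI : Algebra.EssFiniteType k N := h.fin
  haveI : Algebra.EssFiniteType k (N ⊔ Q : IntermediateField k Ω) := hNQ
  have hG' : Gal (X ⊔ Q) (N ⊔ Q) := by
    have h1 := h.gal.base (X ⊔ Q) le_sup_left
    have h2 : N ⊔ (X ⊔ Q) = N ⊔ Q :=
      le_antisymm (sup_le le_sup_left (sup_le_sup_right hXN Q)) (sup_le le_sup_left
        (le_sup_right.trans le_sup_right))
    rwa [h2] at h1
  refine unr_up (Z := X) (L := N) (Z' := X ⊔ Q) (L' := N ⊔ Q) le_sup_left h.fin hNQ h.gal hG'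
    (sup_le le_sup_right (le_sup_right.trans le_sup_left)) (fun c hc => hw.const c hc) ?_
  intro z hz
  by_cases hnt : ∃ a : N, a ≠ 0 ∧ w (algebraMap N (N ⊔ Q : IntermediateField k Ω) a) ≠ 1
  · obtain ⟨t, htX, ht1, ht2⟩ := h.unr _ (hw.restrict hnt) z hz
    exact ⟨⟨t, htX⟩, ht1, ht2⟩
  · have hz0 : z = 0 := by
      by_contra hz0
      exact hnt ⟨z, hz0, fun h1 => by
        have h2 : w (algebraMap N (N ⊔ Q : IntermediateField k Ω) z) < 1 := hz
        rw [h1] at h2
        exact lt_irrefl _ h2⟩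
    refine ⟨0, ?_, ?_⟩
    · rw [map_zero, map_zero]
      exact zero_lt_one
    · rw [hz0, map_zero]
      exact zero_le

theorem EtCover.kge {X N Q : IntermediateField k Ω} (h : EtCover X N) (hQ : Fin' Q) {l : ℕ}
    (hl : KodairaGE k (N ⊔ Q : IntermediateField k Ω) l) :
    KodairaGE k (X ⊔ Q : IntermediateField k Ω) l := by
  have hXN : X ≤ N := h.gal.le
  have hle : X ⊔ Q ≤ N ⊔ Q := sup_le_sup_right hXN Q
  haveI : Fact (X ⊔ Q ≤ N ⊔ Q) := ⟨hle⟩
  have hNQ : Fin' (N ⊔ Q) := fin_sup h.fin hQ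
  haveI : Algebra.EssFiniteType k (N ⊔ Q : IntermediateField k Ω) := hNQ
  haveI : Algebra.EssFiniteType k (X ⊔ Q : IntermediateField k Ω) := fin_le hNQ hle
  haveI : FiniteDimensional (X ⊔ Q : IntermediateField k Ω) (N ⊔ Q : IntermediateField k Ω) :=
    finite_of hNQ (alg_iff.2 (sup_le ((alg_iff.1 h.gal.alg).trans (cl_mono le_sup_left))
      (le_sup_right.trans le_cl)))
  exact kge_etale (fun w hw => h.unr_sup hQ w hw) hl

theorem EtCover.kge' {X N : IntermediateField k Ω} (h : EtCover X N) {l : ℕ}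
    (hl : KodairaGE k N l) : KodairaGE k X l := by
  have h1 := h.kge (Q := ⊥) fin_bot (l := l) (by rwa [sup_bot_eq])
  rwa [sup_bot_eq] at h1

/-- **étale quotients** -/
theorem _root_.Pf72953.Tow.OverC.etale {B V X N : IntermediateField k Ω} (hO : OverC B V N) (h : EtCover X N)
    (hBX : B ≤ X) (hVX : V ≤ X) : OverC B V X := by
  obtain ⟨hBN, hVN, hO⟩ := hO
  refine ⟨hBX, hVX, fun Y Q hY hi hQ hG b c hb hc => ?_⟩
  have hXN : X ≤ N := h.gal.le
  have hX : Fin' X := fin_le h.fin hXN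
  have hi' : Indep N Y := by
    have h1 : dimension k (X ⊔ Y : IntermediateField k Ω) = dimension k X + dimension k Y := hi
    have h2 : dimension k N = dimension k X := dim_eq h.fin hXN h.gal.alg
    have h3 : dimension k (N ⊔ Y : IntermediateField k Ω) =
        dimension k (X ⊔ Y : IntermediateField k Ω) :=
      dim_eq (fin_sup h.fin hY.fin) (sup_le_sup_right hXN Y)
        (alg_iff.2 (sup_le ((alg_iff.1 h.gal.alg).trans (cl_mono le_sup_left))
          (le_sup_right.trans le_cl)))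
    unfold Indep
    rw [h3, h1, h2]
  refine h.kge hQ (hO Y Q hY hi' hQ hG b c hb ?_)
  exact kge_pull (fin_sup h.fin hQ) (sup_le_sup_right hXN Q)
    (alg_iff.2 (sup_le ((alg_iff.1 h.gal.alg).trans (cl_mono le_sup_left))
      (le_sup_right.trans le_cl))) hc

omit [CharZero k] [IsAlgClosed k] [IsAlgClosed Ω] in
theorem EtCover.alg_sup {X N : IntermediateField k Ω} (h : EtCover X N)
    (Q : IntermediateField k Ω) :
    ∀ z ∈ N ⊔ Q, IsAlgebraic (X ⊔ Q : IntermediateField k Ω) z :=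
  alg_iff.2 (sup_le ((alg_iff.1 h.gal.alg).trans (cl_mono le_sup_left)) (le_sup_right.trans le_cl))

theorem EtCover.kge_rel {A X N Q : IntermediateField k Ω} (h : EtCover X N) (hQ : Fin' Q)
    (hA : A ≤ X ⊔ Q) {l : ℕ} (hl : KGE A (N ⊔ Q) l) : KGE A (X ⊔ Q) l := by
  obtain ⟨fA, hl⟩ := hl
  have hle : X ⊔ Q ≤ N ⊔ Q := sup_le_sup_right h.gal.le Q
  have hNQ : Fin' (N ⊔ Q) := fin_sup h.fin hQ
  haveI f1 : Fact (A ≤ X ⊔ Q) := ⟨hA⟩
  haveI f2 : Fact (X ⊔ Q ≤ N ⊔ Q) := ⟨hle⟩
  haveI : Algebra.EssFiniteType k (N ⊔ Q : IntermediateField k Ω) := hNQ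
  haveI : Algebra.EssFiniteType k (X ⊔ Q : IntermediateField k Ω) := fin_le hNQ hle
  haveI : Algebra.EssFiniteType k A := fin_le hNQ fA.out
  haveI : Algebra.EssFiniteType A (X ⊔ Q : IntermediateField k Ω) :=
    Algebra.EssFiniteType.of_comp k A _
  haveI : Algebra.EssFiniteType A (N ⊔ Q : IntermediateField k Ω) :=
    Algebra.EssFiniteType.of_comp k A _
  haveI : CharZero A := charZero_of_injective_algebraMap (algebraMap k A).injective
  haveI : FiniteDimensional (X ⊔ Q : IntermediateField k Ω) (N ⊔ Q : IntermediateField k Ω) :=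
    finite_of hNQ (h.alg_sup Q)
  exact ⟨f1, kge_etale (k := A) (fun w hw => h.unr_sup hQ w (Up.IsDivisorial.under (k := k) hw)) hl⟩

/-- **étale covers** -/
theorem _root_.Pf72953.Tow.OverC.etale_up {B V X N : IntermediateField k Ω} (hO : OverC B V X)
    (h : EtCover X N) : OverC B V N := by
  obtain ⟨hBX, hVX, hO⟩ := hO
  refine ⟨hBX.trans h.gal.le, hVX.trans h.gal.le, fun Y Q hY hi hQ hG b c hb hc => ?_⟩
  refine kge_pull' (fin_sup h.fin hQ) (sup_le_sup_right h.gal.le Q) (h.alg_sup Q)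
    (hO Y Q hY (hi.mono_left h.fin hY.fin h.gal.le) hQ hG b c hb (h.kge_rel hQ ?_ hc))
  exact sup_le (hBX.trans le_sup_left) ((le_sup_right.trans hG.le).trans le_sup_right)

/-- `X₁` and `X` have a common finite étale Galois cover -/
def Commens (X X₁ : IntermediateField k Ω) : Prop :=
  ∃ N : IntermediateField k Ω, EtCover X N ∧ EtCover X₁ N

theorem _root_.Pf72953.Tow.OverC.commens {B V X X₁ : IntermediateField k Ω} (hO : OverC B V X)
    (h : Commens X X₁) (hBX : B ≤ X₁) (hVX : V ≤ X₁) : OverC B V X₁ := by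
  obtain ⟨N, h1, h2⟩ := h
  exact (hO.etale_up h1).etale h2 hBX hVX

theorem Commens.kge {X X₁ : IntermediateField k Ω} (h : Commens X X₁) {l : ℕ}
    (hl : KodairaGE k X l) : KodairaGE k X₁ l := by
  obtain ⟨N, h1, h2⟩ := h
  exact h2.kge' (kge_pull' h1.fin h1.gal.le h1.gal.alg hl)

omit [CharZero k] [IsAlgClosed k] [IsAlgClosed Ω] in
theorem Commens.fin {X X₁ : IntermediateField k Ω} (h : Commens X X₁) : Fin' X₁ := by
  obtain ⟨N, h1, h2⟩ := h
  exact fin_le h2.fin h2.gal.le

end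

end Pf72953.Pl
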