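import Mathlib
import Pool.Agent.Lib.Pf72953n.GalTower

/-!
Radical extensions: towers of superelliptic curves and abelian covers of `V × ℙⁿ`.
-/

set_option autoImplicit false
set_option linter.style.haveILetI false

open scoped WithZero
open Pf72953 Pf72953.Mov Pf72953.Tow

namespace Pf72953.Pl

variable {k Ω : Type*} [Field k] [Field Ω] [Algebra k Ω]

theorem fin_range {ι : Type*} [Finite ι] (y : ι → Ω) :
    Fin' (IntermediateField.adjoin k (Set.range y)) := by
  have h2 := fin_adjoin (k := k) (Set.finite_range y).toFinset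
  rwa [Set.Finite.coe_toFinset] at h2

/-- the roots of unity are constants -/
theorem root_mem [IsAlgClosed k] {c : Ω} {m : ℕ} (hm : m ≠ 0) (hc : c ^ m = 1)
    (F : IntermediateField k Ω) : c ∈ F := by
  have h1 : IsIntegral k c := by
    refine ⟨Polynomial.X ^ m - 1, ?_, ?_⟩
    · have := Polynomial.monic_X_pow_sub_C (1 : k) hm
      rwa [Polynomial.C_1] at this
    · simp [hc]
  obtain ⟨a, ha⟩ := minpoly.mem_range_of_degree_eq_one k c
    (IsAlgClosed.degree_eq_one_of_irreducible k (minpoly.irreducible h1))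
  rw [← ha]
  exact F.algebraMap_mem a

/-- a field generated by radicals is Galois -/
theorem gal_radical [IsAlgClosed k] {F : IntermediateField k Ω} {S : Set Ω}
    (hS : ∀ z ∈ S, ∃ m : ℕ, m ≠ 0 ∧ z ^ m ∈ F) : Gal F (F ⊔ IntermediateField.adjoin k S) := by
  have halg : F ⊔ IntermediateField.adjoin k S ≤ cl F := by
    refine sup_le le_cl (IntermediateField.adjoin_le_iff.2 fun z hz => ?_)
    obtain ⟨m, hm, hy⟩ := hS z hz
    exact mem_cl.2 ((alg_of_mem hy).of_pow (Nat.pos_of_ne_zero hm))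
  refine ⟨le_sup_left, fun x hx => mem_cl.1 (halg hx), fun σ hσ => ?_⟩
  have h1 : F ⊔ IntermediateField.adjoin k S ≤
      (F ⊔ IntermediateField.adjoin k S).comap (σ : Ω →ₐ[k] Ω) := by
    refine sup_le (fun x hx => ?_) (IntermediateField.adjoin_le_iff.2 fun z hz => ?_)
    · show σ x ∈ F ⊔ IntermediateField.adjoin k S
      rw [hσ x hx]
      exact (le_sup_left : F ≤ F ⊔ IntermediateField.adjoin k S) hx
    · show σ z ∈ F ⊔ IntermediateField.adjoin k S
      have hzE : z ∈ F ⊔ IntermediateField.adjoin k S :=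
        (le_sup_right : _ ≤ F ⊔ IntermediateField.adjoin k S)
          (IntermediateField.subset_adjoin k S hz)
      by_cases h0 : z = 0
      · rw [h0, map_zero]
        exact zero_mem _
      · obtain ⟨m, hm, hy⟩ := hS z hz
        have h2 : (σ z / z) ^ m = 1 := by
          rw [div_pow, ← map_pow, hσ _ hy, div_self (pow_ne_zero m h0)]
        have h3 : σ z = (σ z / z) * z := by field_simp
        rw [h3]
        exact mul_mem (root_mem hm h2 _) hzE
  exact fun x hx => h1 hx

/-- `V(x₁, …, x_i, y₁, …, y_i)` -/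
def tower {n : ℕ} (V : IntermediateField k Ω) (x y : Fin n → Ω) (i : ℕ) : IntermediateField k Ω :=
  coords (coords V x i) y i

theorem coords_mono {n : ℕ} {V : IntermediateField k Ω} {x : Fin n → Ω} {i j : ℕ} (h : i ≤ j) :
    coords V x i ≤ coords V x j := by
  refine sup_le_sup_left (IntermediateField.adjoin.mono k _ _ ?_) V
  rintro _ ⟨l, hl, rfl⟩
  exact ⟨l, hl.trans_le h, rfl⟩

theorem coords_mono_base {n : ℕ} {V W : IntermediateField k Ω} {x : Fin n → Ω} {i : ℕ}
    (h : V ≤ W) : coords V x i ≤ coords W x i := sup_le_sup_right h _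

theorem tower_zero {n : ℕ} {V : IntermediateField k Ω} {x y : Fin n → Ω} : tower V x y 0 = V := by
  rw [tower, coords_zero, coords_zero]

theorem tower_fin {n : ℕ} {V : IntermediateField k Ω} {x y : Fin n → Ω} (hV : Fin' V) (i : ℕ) :
    Fin' (tower V x y i) := coords_fin (coords_fin hV i) i

theorem tower_mono {n : ℕ} {V : IntermediateField k Ω} {x y : Fin n → Ω} {i j : ℕ} (h : i ≤ j) :
    tower V x y i ≤ tower V x y j :=
  (coords_mono_base (coords_mono h)).trans (coords_mono h)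

/-- `κ` does not become `-∞` in an algebraic extension -/
theorem relKod_up [CharZero k] [IsAlgClosed k] {A E Q : IntermediateField k Ω} (hQ : Fin' Q) (hE : E ≤ Q)
    (halg : ∀ x ∈ Q, IsAlgebraic E x) (h : relKod A E ≠ ⊥) : relKod A Q ≠ ⊥ := by
  rcases relKod_cases (A := A) (fin_le hQ hE) with h1 | ⟨c, hc, -⟩
  · exact absurd h1 h
  · have hAE : A ≤ E := hc.1.out
    have h2 : KGE A Q c := by
      refine kge_up hQ le_rfl (hAE.trans hE) hE (fun x hx => alg_mono le_sup_right (halg x hx)) ?_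
        hc
      rw [dim_eq hQ hE halg]
      exact add_comm _ _
    intro h3
    have h4 : ((c : ℕ∞) : WithBot ℕ∞) ≤ relKod A Q := le_iSup₂_of_le c h2 le_rfl
    rw [h3] at h4
    simp at h4

section

variable [CharZero k] [IsAlgClosed k] [IsAlgClosed Ω]

/-- **Abelian covers of `V × ℙⁿ`**, `V → B` stable: `E = V(x₁, …, x_n)(S)`, `S` a finite set of radicals of rational
functions. -/
theorem iitaka_radical {B V : IntermediateField k Ω} {n : ℕ} {x : Fin n → Ω} {S : Finset Ω}
    (hV : Fin' V) (hSt : StableFib B V) (hx : AlgebraicIndependent V x)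
    (hS : ∀ z ∈ S, ∃ m : ℕ, m ≠ 0 ∧ z ^ m ∈ coords V x n)
    (hΩ : ∀ A : IntermediateField k Ω, Fin' A → ∃ t : Ω, Transcendental A t)
    (h0 : ∀ i < n, relKod B (stage V (coords V x n ⊔ IntermediateField.adjoin k (S : Set Ω)) x i)
      ≠ ⊥) :
    Iitaka B (coords V x n ⊔ IntermediateField.adjoin k (S : Set Ω)) :=
  iitaka_galois hV hSt (fin_sup (coords_fin hV n) (fin_adjoin S)) hx
    (gal_radical fun z hz => hS z hz) hΩ h0

omit [CharZero k] [IsAlgClosed Ω] in
theorem gal_tower {V : IntermediateField k Ω} {n : ℕ} {x y : Fin n → Ω} {m : Fin n → ℕ}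
    (hm : ∀ i : Fin n, m i ≠ 0) (hy : ∀ i : Fin n, y i ^ m i ∈ coords V x ((i : ℕ) + 1)) :
    Gal (coords V x n) (tower V x y n) := by
  refine gal_radical ?_
  rintro _ ⟨j, -, rfl⟩
  exact ⟨m j, hm j, coords_mono (by omega) (hy j)⟩

theorem tower_le_stage {V : IntermediateField k Ω} {n : ℕ} {x y : Fin n → Ω} {m : Fin n → ℕ}
    (hm : ∀ i : Fin n, m i ≠ 0) (hy : ∀ i : Fin n, y i ^ m i ∈ coords V x ((i : ℕ) + 1)) {i : ℕ} (hi : i ≤ n) :
    tower V x y i ≤ stage V (tower V x y n) x i := by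
  refine le_inf (tower_mono hi) (sup_le le_cl (IntermediateField.adjoin_le_iff.2 ?_))
  rintro _ ⟨j, hj, rfl⟩
  exact mem_cl.2 ((alg_of_mem (coords_mono (V := V) (x := x) (by omega) (hy j))).of_pow
    (Nat.pos_of_ne_zero (hm j)))

theorem stage_ne_bot {B V : IntermediateField k Ω} {n : ℕ} {x y : Fin n → Ω} {m : Fin n → ℕ}
    (hV : Fin' V) (hm : ∀ i : Fin n, m i ≠ 0) (hy : ∀ i : Fin n, y i ^ m i ∈ coords V x ((i : ℕ) + 1)) {i : ℕ}
    (hi : i ≤ n) (h : relKod B (tower V x y i) ≠ ⊥) :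
    relKod B (stage V (tower V x y n) x i) ≠ ⊥ := by
  refine relKod_up (fin_le (tower_fin hV n) inf_le_left) (tower_le_stage hm hy hi)
    (fun z hz => ?_) h
  exact alg_mono (show coords V x i ≤ tower V x y i from le_sup_left)
    (mem_cl.1 ((inf_le_right : stage V (tower V x y n) x i ≤ _) hz))

/-- **Towers of superelliptic curves** over `V`, `V → B` stable: `E = V(x₁, …, x_n, y₁, …, y_n)`, `y_i^{m_i}` any rational
function of `x₁, …, x_i` over `V`; the condition is `κ(V(x₁, …, x_i, y₁, …, y_i)/B) ≥ 0` for `i < n`. -/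
theorem iitaka_tower {B V : IntermediateField k Ω} {n : ℕ} {x y : Fin n → Ω} {m : Fin n → ℕ}
    (hV : Fin' V) (hSt : StableFib B V) (hx : AlgebraicIndependent V x) (hm : ∀ i : Fin n, m i ≠ 0)
    (hy : ∀ i : Fin n, y i ^ m i ∈ coords V x ((i : ℕ) + 1))
    (hΩ : ∀ A : IntermediateField k Ω, Fin' A → ∃ t : Ω, Transcendental A t)
    (h0 : ∀ i < n, relKod B (tower V x y i) ≠ ⊥) : Iitaka B (tower V x y n) :=
  iitaka_galois hV hSt (tower_fin hV n) hx (gal_tower hm hy) hΩ fun i hi =>
    stage_ne_bot hV hm hy hi.le (h0 i hi)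

/-- towers of superelliptic curves over `B` itself -/
theorem iitaka_tower_self {B : IntermediateField k Ω} {n : ℕ} {x y : Fin n → Ω} {m : Fin n → ℕ}
    (hB : Fin' B) (hx : AlgebraicIndependent B x) (hm : ∀ i : Fin n, m i ≠ 0)
    (hy : ∀ i : Fin n, y i ^ m i ∈ coords B x ((i : ℕ) + 1))
    (hΩ : ∀ A : IntermediateField k Ω, Fin' A → ∃ t : Ω, Transcendental A t)
    (h0 : ∀ i, 0 < i → i < n → relKod B (tower B x y i) ≠ ⊥) : Iitaka B (tower B x y n) :=
  iitaka_galois_self hB (tower_fin hB n) hx (gal_tower hm hy) hΩ fun i hi0 hi =>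
    stage_ne_bot hB hm hy hi.le (h0 i hi0 hi)

end

end Pf72953.Pl
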