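import Mathlib
import Pool.Agent.Lib.Pf72953n.BP

/-!
Families of rational curves `T → V`, Galois covers `Q → T`: the action of the Galois group of `V` on the set of the branch points.
-/

set_option autoImplicit false
set_option linter.style.haveILetI false

open scoped WithZero Polynomial
open Pf72953 Pf72953.Mov Pf72953.Tow

namespace Pf72953.Pl

variable {k Ω : Type*} [Field k] [Field Ω] [Algebra k Ω]

/-- `T → V` is a family of rational curves -/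
structure Ruled (V T : IntermediateField k Ω) : Prop where
  fin : Fin' T
  le : V ≤ T
  closed : ∀ z ∈ T, IsAlgebraic V z → z ∈ V
  split : ∃ (P : IntermediateField k Ω) (x : Ω), Fin' P ∧ Gal V P ∧ Transcendental V x ∧
    T ⊔ P = P ⊔ IntermediateField.adjoin k {x}

/-- the same, with the property which is used -/
structure Con (V T : IntermediateField k Ω) : Prop where
  fin : Fin' T
  le : V ≤ T
  lift : ∀ P : IntermediateField k Ω, Fin' P → Gal V P → ∀ σ : Ω ≃ₐ[k] Ω, Fixes σ V →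
    ∃ τ : Ω ≃ₐ[k] Ω, Fixes τ T ∧ ∀ z ∈ P, τ z = σ z
  split : ∃ (P : IntermediateField k Ω) (x : Ω), Fin' P ∧ Gal V P ∧ Transcendental V x ∧
    T ⊔ P = P ⊔ IntermediateField.adjoin k {x}

/-- `s` is the permutation of `S` which belongs to `σ` -/
structure Act (σ : Ω ≃ₐ[k] Ω) (x : Ω) (S : Finset Ω) (s : Ω → Ω) : Prop where
  mem : ∀ e ∈ S, s e ∈ S
  inj : ∀ a ∈ S, ∀ b ∈ S, s a = s b → a = b
  xc : ∀ p ∈ trip S, σ (xc x p.1 p.2.1 p.2.2) = Pl.xc x (s p.1) (s p.2.1) (s p.2.2)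

theorem Act.trip {σ : Ω ≃ₐ[k] Ω} {x : Ω} {S : Finset Ω} {s : Ω → Ω} (h : Act σ x S s)
    {p : Ω × Ω × Ω} (hp : p ∈ trip S) : (s p.1, s p.2.1, s p.2.2) ∈ trip S := by
  obtain ⟨⟨h1, h2, h3⟩, h4, h5, h6⟩ := mem_trip.1 hp
  exact mem_trip.2 ⟨⟨h.mem _ h1, h.mem _ h2, h.mem _ h3⟩, fun h0 => h4 (h.inj _ h1 _ h2 h0),
    fun h0 => h5 (h.inj _ h1 _ h3 h0), fun h0 => h6 (h.inj _ h2 _ h3 h0)⟩

/-- the field `P` of the branch points of `Q/T` -/
structure Tw (V T Q P : IntermediateField k Ω) (x : Ω) (S : Finset Ω) : Prop where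
  fin : Fin' P
  gal : Gal V P
  trans : Transcendental P x
  gen : T ⊔ P = P ⊔ IntermediateField.adjoin k {x}
  mem : ∀ e ∈ S, e ∈ P
  br : BranchProp P (Q ⊔ P) x S
  act : ∀ σ : Ω ≃ₐ[k] Ω, Fixes σ T → ∃ s, Act σ x S s
  faith : ∀ σ : Ω ≃ₐ[k] Ω, Fixes σ T →
    (∀ p ∈ trip S, σ (xc x p.1 p.2.1 p.2.2) = xc x p.1 p.2.1 p.2.2) → Fixes σ P
  lift : ∀ σ : Ω ≃ₐ[k] Ω, Fixes σ V → ∃ τ : Ω ≃ₐ[k] Ω, Fixes τ T ∧ ∀ z ∈ P, τ z = σ z

variable [CharZero k] [IsAlgClosed Ω] [IsAlgClosed k]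

omit [CharZero k] [IsAlgClosed k] [IsAlgClosed Ω] in
theorem gal_split {T Q P : IntermediateField k Ω} {x : Ω} (hG : Gal T Q)
    (h : T ⊔ P = P ⊔ IntermediateField.adjoin k {x}) :
    Gal (P ⊔ IntermediateField.adjoin k {x}) (Q ⊔ P) := by
  have h1 := hG.base (T ⊔ P) le_sup_left
  have h2 : Q ⊔ (T ⊔ P) = Q ⊔ P := le_antisymm (sup_le le_sup_left (sup_le (hG.le.trans le_sup_left)
    le_sup_right)) (sup_le le_sup_left (le_sup_right.trans le_sup_right))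
  rwa [h2, h] at h1

/-- a field which contains the branch points -/
theorem Con.exists_big {V T Q : IntermediateField k Ω} (h : Con V T) (hV : Fin' V) (hQ : Fin' Q)
    (hG : Gal T Q) : ∃ (P : IntermediateField k Ω) (x : Ω) (S : Finset Ω), Fin' P ∧ Gal V P ∧
      Transcendental P x ∧ T ⊔ P = P ⊔ IntermediateField.adjoin k {x} ∧ (∀ e ∈ S, e ∈ P) ∧
      BP P (Q ⊔ P) x S := by
  obtain ⟨P₀, x₀, hP₀, hG₀, hx₀, hs₀⟩ := h.split
  have hx₀' : Transcendental P₀ x₀ := transcendental_alg hG₀.le hG₀.alg hx₀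
  obtain ⟨x, hadj, S, hS, -, hbr⟩ := exists_branch hP₀ (fin_sup hQ hP₀) hx₀' (gal_split hG hs₀)
  have hbr' : BranchProp P₀ (Q ⊔ P₀) x S := hbr
  have hVP₀ : V ≤ P₀ := hG₀.le
  have hbf : Fin' (bp P₀ S) := bp_fin hP₀
  obtain ⟨P, hP, hGP, hbP, -⟩ := exists_hull hV hbf (hVP₀.trans le_sup_left) (alg_iff.2
    ((bp_alg hS).trans (cl_le (alg_iff.1 hG₀.alg))))
  have hP₀P : P₀ ≤ P := le_sup_left.trans hbP
  refine ⟨P, x, S, hP, hGP, ?_, ?_, fun e he => hbP (bp_mem he), ?_⟩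
  · refine transcendental_alg hGP.le hGP.alg fun h0 => hx₀ ?_
    have h1 : IntermediateField.adjoin k {x₀} ≤ cl V := by
      rw [← hadj]
      exact adjoin_one_le (mem_cl.2 h0)
    exact mem_cl.1 (h1 (mem_adjoin_one x₀))
  · rw [hadj]
    have h1 : T ⊔ P = T ⊔ P₀ ⊔ P := by rw [sup_assoc, sup_eq_right.2 hP₀P]
    rw [h1, hs₀]
    refine le_antisymm (sup_le (sup_le (hP₀P.trans le_sup_left) le_sup_right) le_sup_left)
      (sup_le le_sup_right (le_sup_right.trans le_sup_left))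
  · refine (bp_iff.1 hbr').congr hP₀P fun K hK => ?_
    refine le_antisymm (sup_le le_sup_left (sup_le (le_sup_left.trans le_sup_right)
      (hK.trans le_sup_left))) (sup_le le_sup_left (sup_le (le_sup_left.trans le_sup_right)
      ((hP₀P.trans hK).trans le_sup_left)))

omit [IsAlgClosed Ω] [IsAlgClosed k] in
/-- the action on the branch points -/
theorem exists_act {V T Q P : IntermediateField k Ω} {x : Ω} {S : Finset Ω} (hVT : V ≤ T)
    (hQ : Fin' Q) (hG : Gal T Q) (hP : Fin' P) (hGP : Gal V P) (hx : Transcendental P x)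
    (hgen : T ⊔ P = P ⊔ IntermediateField.adjoin k {x}) (hS : ∀ e ∈ S, e ∈ P)
    (hbr : BP P (Q ⊔ P) x S) (σ : Ω ≃ₐ[k] Ω) (hσ : Fixes σ T) : ∃ s, Act σ x S s := by
  classical
  have hσV : Fixes σ V := hσ.mono hVT
  have hσP : Stab σ P := hGP.stab σ hσV
  have hσP' : Stab σ.symm P := hGP.stab _ hσV.symm79
  have hσL : Stab σ (Q ⊔ P) := (hG.stab σ hσ).sup hσP
  have hσL' : Stab σ.symm (Q ⊔ P) := (hG.stab _ hσ.symm79).sup hσP'
  have hσF : Stab σ (P ⊔ IntermediateField.adjoin k {x}) := hgen ▸ hσ.stab.sup hσP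
  have hσF' : Stab σ.symm (P ⊔ IntermediateField.adjoin k {x}) := hgen ▸ hσ.symm79.stab.sup hσP'
  have hLf : Fin' (Q ⊔ P : IntermediateField k Ω) := fin_sup hQ hP
  have hGL := gal_split hG hgen
  haveI f1 : Fact (P ⊔ IntermediateField.adjoin k {x} ≤ Q ⊔ P) := ⟨hGL.le⟩
  haveI f2 : Fact (P ≤ Q ⊔ P) := ⟨le_sup_right⟩
  have hxL : x ∈ Q ⊔ P := hGL.le (mem_sup_right' (mem_adjoin_one x))
  let φ : (Q ⊔ P : IntermediateField k Ω) ≃+* (Q ⊔ P : IntermediateField k Ω) :=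
    { toFun := fun z => ⟨σ z, hσL z z.2⟩
      invFun := fun z => ⟨σ.symm z, hσL' z z.2⟩
      left_inv := fun z => Subtype.ext (σ.symm_apply_apply z)
      right_inv := fun z => Subtype.ext (σ.apply_symm_apply z)
      map_mul' := fun a b => Subtype.ext (map_mul σ (a : Ω) b)
      map_add' := fun a b => Subtype.ext (map_add σ (a : Ω) b) }
  -- the coordinate
  have hσx : P ⊔ IntermediateField.adjoin k {σ x} = P ⊔ IntermediateField.adjoin k {x} := by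
    refine le_antisymm (sup_le le_sup_left (adjoin_one_le (hσF x (mem_sup_right'
      (mem_adjoin_one x))))) (sup_le le_sup_left (adjoin_one_le ?_))
    have h1 : σ.symm x ∈ P ⊔ IntermediateField.adjoin k {x} :=
      hσF' x (mem_sup_right' (mem_adjoin_one x))
    have h2 : (P ⊔ IntermediateField.adjoin k {x}).map (σ : Ω →ₐ[k] Ω) ≤
        P ⊔ IntermediateField.adjoin k {σ x} := by
      rw [IntermediateField.map_sup, IntermediateField.adjoin_map, Set.image_singleton]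
      exact sup_le_sup_right hσP.map_le _
    have h3 : σ (σ.symm x) ∈ P ⊔ IntermediateField.adjoin k {σ x} := h2 ⟨_, h1, rfl⟩
    rwa [AlgEquiv.apply_symm_apply] at h3
  obtain ⟨α, hα, β, hβ, γ, hγ, δ, hδ, hd, hx0, hy⟩ := exists_mob hx hσx
  have key : ∀ e ∈ S, ∃ e' ∈ S, γ * e' + δ ≠ 0 ∧ (α * e' + β) / (γ * e' + δ) = σ e := by
    intro e he
    obtain ⟨u, hu, hlt⟩ := exists_place (K := P) (L := Q ⊔ P) hLf hx (hS e he) hxL hGL.alg
    have hu' : ∀ a ∈ P, a ≠ 0 → ∀ h : a ∈ Q ⊔ P, u ⟨a, h⟩ = 1 := fun a ha h0 _ =>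
      hu ⟨a, ha⟩ (fun h => h0 (congrArg Subtype.val h))
    have hL : Q ⊔ P = P ⊔ (Q ⊔ P) := (sup_eq_right.2 le_sup_right).symm
    have hxe : x - e ∈ Q ⊔ P := sub_mem hxL (mem_sup_right' (hS e he))
    have hram := (hbr P hP le_rfl hS hx (Q ⊔ P) hL u hu').2 e he hxe hlt
    set u' : Valuation (Q ⊔ P : IntermediateField k Ω) ℤᵐ⁰ := u.comap (φ.symm : _ →+* _) with hu'def
    have hφ : ∀ z, u' z = u (φ.symm z) := fun z => rfl
    have ht' : ∀ a ∈ P, a ≠ 0 → ∀ h : a ∈ Q ⊔ P, u' ⟨a, h⟩ = 1 := by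
      intro a ha h0 h
      rw [hφ]
      exact hu' (σ.symm a) (hσP' a ha) (by simpa using h0) (hσL' a h)
    have hcen : ∃ e' ∈ S, ∃ h : x - e' ∈ Q ⊔ P, u' ⟨x - e', h⟩ < 1 := by
      by_contra hcon
      push Not at hcon
      have h1 := (hbr P hP le_rfl hS hx (Q ⊔ P) hL u' ht').1 (fun e' he' h => not_lt.2
        (hcon e' he' h))
      refine hram fun z hz => ?_
      obtain ⟨t, ht, hzt⟩ := h1 (φ z) (by
        rw [hφ, RingEquiv.symm_apply_apply]
        exact hz)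
      have h2 : φ.symm (algebraMap _ _ t) =
          algebraMap (P ⊔ IntermediateField.adjoin k {x} : IntermediateField k Ω)
            (Q ⊔ P : IntermediateField k Ω) ⟨σ.symm t, hσF' t t.2⟩ := rfl
      rw [hφ] at ht hzt
      rw [hφ, RingEquiv.symm_apply_apply, h2] at hzt
      rw [h2] at ht
      exact ⟨_, ht, hzt⟩
    obtain ⟨e', he', hxe', hlt'⟩ := hcen
    have hσxe : σ x - σ e ∈ Q ⊔ P := by
      rw [← map_sub]
      exact hσL _ hxe
    have hlt2 : u' ⟨σ x - σ e, hσxe⟩ < 1 := by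
      rw [hφ]
      have h1 : φ.symm ⟨σ x - σ e, hσxe⟩ = ⟨x - e, hxe⟩ := by
        apply Subtype.ext
        change σ.symm (σ x - σ e) = x - e
        rw [← map_sub, AlgEquiv.symm_apply_apply]
      rw [h1]
      exact hlt
    have hPL : P ≤ Q ⊔ P := le_sup_right
    have ht1 : ∀ a : Ω, ∀ ha : a ∈ P, u' ⟨a, hPL ha⟩ ≤ 1 := by
      intro a ha
      rcases eq_or_ne a 0 with h0 | h0
      · have : (⟨a, hPL ha⟩ : (Q ⊔ P : IntermediateField k Ω)) = 0 := Subtype.ext h0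
        rw [this, map_zero]
        exact zero_le
      · exact (ht' a ha h0 _).le
    have heP := hS e' he'
    have hdP : α * δ - β * γ ∈ P := sub_mem (mul_mem hα hδ) (mul_mem hβ hγ)
    have hσxL : σ x ∈ Q ⊔ P := hσL x hxL
    have hσeP : σ e ∈ P := hσP e (hS e he)
    by_cases hne : γ * e' + δ = 0
    · exfalso
      have hγ0 : γ ≠ 0 := by
        rintro rfl
        rw [zero_mul, zero_add] at hne
        apply hd
        rw [hne]
        ring
      have hn1 : α * e' + β ≠ 0 := by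
        intro h0
        apply hd
        linear_combination α * hne - γ * h0
      have e1 : u' (⟨γ * x + δ, add_mem (mul_mem (hPL hγ) hxL) (hPL hδ)⟩) < 1 := by
        have h1 : (⟨γ * x + δ, add_mem (mul_mem (hPL hγ) hxL) (hPL hδ)⟩ :
            (Q ⊔ P : IntermediateField k Ω)) = ⟨γ, hPL hγ⟩ * ⟨x - e', hxe'⟩ := by
          apply Subtype.ext
          change γ * x + δ = γ * (x - e')
          linear_combination hne
        rw [h1, map_mul]
        exact lt_of_le_of_lt (mul_le_of_le_one_left zero_le (ht1 _ hγ)) hlt'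
      have e2 : u' (⟨α * x + β, add_mem (mul_mem (hPL hα) hxL) (hPL hβ)⟩) = 1 := by
        have h1 : (⟨α * x + β, add_mem (mul_mem (hPL hα) hxL) (hPL hβ)⟩ :
            (Q ⊔ P : IntermediateField k Ω)) = ⟨α, hPL hα⟩ * ⟨x - e', hxe'⟩ +
              ⟨α * e' + β, hPL (add_mem (mul_mem hα heP) hβ)⟩ := by
          apply Subtype.ext
          change α * x + β = α * (x - e') + (α * e' + β)
          ring
        have h2 := ht' _ (add_mem (mul_mem hα heP) hβ) hn1 (hPL (add_mem (mul_mem hα heP) hβ))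
        rw [h1, u'.map_add_eq_of_lt_right, h2]
        rw [h2, map_mul]
        exact lt_of_le_of_lt (mul_le_of_le_one_left zero_le (ht1 _ hα)) hlt'
      have e3 : u' ⟨σ x, hσxL⟩ ≤ 1 := by
        have h1 : (⟨σ x, hσxL⟩ : (Q ⊔ P : IntermediateField k Ω)) = ⟨σ x - σ e, hσxe⟩ +
            ⟨σ e, hPL hσeP⟩ := by
          apply Subtype.ext
          change σ x = σ x - σ e + σ e
          ring
        rw [h1]
        exact (u'.map_add _ _).trans (max_le hlt2.le (ht1 _ hσeP))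
      have e4 : (⟨σ x, hσxL⟩ : (Q ⊔ P : IntermediateField k Ω)) *
          ⟨γ * x + δ, add_mem (mul_mem (hPL hγ) hxL) (hPL hδ)⟩ =
          ⟨α * x + β, add_mem (mul_mem (hPL hα) hxL) (hPL hβ)⟩ := by
        apply Subtype.ext
        change σ x * (γ * x + δ) = α * x + β
        rw [hy, div_mul_cancel₀ _ hx0]
      have e5 := congrArg u' e4
      rw [map_mul, e2] at e5
      have e6 : u' ⟨σ x, hσxL⟩ * u' (⟨γ * x + δ, add_mem (mul_mem (hPL hγ) hxL) (hPL hδ)⟩) < 1 :=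
        lt_of_le_of_lt (mul_le_of_le_one_left zero_le e3) e1
      exact absurd e5 e6.ne
    · refine ⟨e', he', hne, ?_⟩
      have h1 := (val_mob (u := u') (α := ⟨α, hPL hα⟩) (β := ⟨β, hPL hβ⟩) (γ := ⟨γ, hPL hγ⟩)
        (δ := ⟨δ, hPL hδ⟩) (x := ⟨x, hxL⟩) (e := ⟨e', hPL heP⟩) (ht' _ hdP hd _) (ht1 _ hγ)
        (ht' _ (add_mem (mul_mem hγ heP) hδ) hne _) hlt').2
      by_contra hneq
      have hMe : (α * e' + β) / (γ * e' + δ) ∈ P :=
        div_mem (add_mem (mul_mem hα heP) hβ) (add_mem (mul_mem hγ heP) hδ)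
      have h2 := ht' ((α * e' + β) / (γ * e' + δ) - σ e) (sub_mem hMe hσeP) (sub_ne_zero.2 hneq)
        (hPL (sub_mem hMe hσeP))
      have h3 : (⟨(α * e' + β) / (γ * e' + δ) - σ e, hPL (sub_mem hMe hσeP)⟩ :
          (Q ⊔ P : IntermediateField k Ω)) = ⟨σ x - σ e, hσxe⟩ -
            ((⟨α, hPL hα⟩ * ⟨x, hxL⟩ + ⟨β, hPL hβ⟩) / (⟨γ, hPL hγ⟩ * ⟨x, hxL⟩ + ⟨δ, hPL hδ⟩) -
              (⟨α, hPL hα⟩ * ⟨e', hPL heP⟩ + ⟨β, hPL hβ⟩) /
                (⟨γ, hPL hγ⟩ * ⟨e', hPL heP⟩ + ⟨δ, hPL hδ⟩)) := by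
        apply Subtype.ext
        change (α * e' + β) / (γ * e' + δ) - σ e = (σ x - σ e) - ((α * x + β) / (γ * x + δ) -
          (α * e' + β) / (γ * e' + δ))
        rw [hy]
        ring
      rw [h3] at h2
      have h4 : u' (⟨σ x - σ e, hσxe⟩ -
            ((⟨α, hPL hα⟩ * ⟨x, hxL⟩ + ⟨β, hPL hβ⟩) / (⟨γ, hPL hγ⟩ * ⟨x, hxL⟩ + ⟨δ, hPL hδ⟩) -
              (⟨α, hPL hα⟩ * ⟨e', hPL heP⟩ + ⟨β, hPL hβ⟩) /
                (⟨γ, hPL hγ⟩ * ⟨e', hPL heP⟩ + ⟨δ, hPL hδ⟩))) < 1 :=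
        lt_of_le_of_lt (u'.map_sub _ _) (max_lt hlt2 (by rw [h1]; exact hlt'))
      exact h4.ne h2
  choose! s hs1 hs2 hs3 using key
  refine ⟨s, hs1, fun a ha b hb hab => ?_, fun p hp => ?_⟩
  · apply σ.injective
    rw [← hs3 a ha, ← hs3 b hb, hab]
  · obtain ⟨⟨h1, h2, h3⟩, -, -, -⟩ := mem_trip.1 hp
    have h4 := map_xcO (σ : Ω →+* Ω) x p.1 p.2.1 p.2.2
    have h5 : σ (xc x p.1 p.2.1 p.2.2) = xc (σ x) (σ p.1) (σ p.2.1) (σ p.2.2) := h4
    rw [h5, hy, ← hs3 _ h1, ← hs3 _ h2, ← hs3 _ h3]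
    exact xc_mob hd hx0 (hs2 _ h1) (hs2 _ h2) (hs2 _ h3)

end Pf72953.Pl
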