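import Mathlib
import Pool.Agent.Lib.Pf72953n.Tw
import Pool.Agent.Lib.Pf72953n.Etale
import Pool.Agent.Lib.Pf72953z.Final

/-!
Towers of Galois families of curves over families of rational curves and of isotrivial fibre spaces whose fibres have factorial
charts.
-/

set_option autoImplicit false
set_option linter.style.haveILetI false

open scoped WithZero
open Pf72953 Pf72953.Mov Pf72953.Tow Pf72953.Pl

namespace Pf72953.Tow

/-- `M` is the function field of a smooth complete variety with factorial charts, and `k` has infinite transcendence degree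
over `ℚ` (for example `k = ℂ`).  (A smooth projective variety has such charts if and only if `q(M) = 0`.) -/
def IsFactorial {k Ω : Type*} [Field k] [CharZero k] [Field Ω] [Algebra k Ω]
    (M : IntermediateField k Ω) : Prop :=
  Cardinal.aleph0 ≤ Algebra.trdeg ℚ k ∧ ∃ MM : SmoothModel k M, Fac.Factorial MM

/-- `E → V` is an isotrivial fibre space with the fibre `M`: `E = (M × P)/H`, `V = P/H` (`Step`), `κ(M) ≥ 0`, and `M` has
factorial charts. -/
structure FactorialStep {k Ω : Type*} [Field k] [CharZero k] [Field Ω] [Algebra k Ω]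
    (V E M P : IntermediateField k Ω) : Prop extends Step V E M P where
  kod : kodairaDim k M ≠ ⊥
  fac : IsFactorial M

end Pf72953.Tow

namespace Pf72953.Fb

variable {k Ω : Type*} [Field k] [Field Ω] [Algebra k Ω]

/-- `E` is a finite Galois extension of `U_n`, where `V = U₀ ⊆ U₁ ⊆ … ⊆ U_n` and every `U_{i+1}` is a family of rational curves or
an isotrivial fibre space with a fibre of Kodaira dimension `≥ 0` with factorial charts over `U_i`; with `E_i` the algebraic
closure of `U_i` in `E`: `κ(E₀/B) ≥ 0` (if `n > 0`), and the curve `E_{i+1}/E_i` has genus `≥ 1` if `U_{i+1}` is a family of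
rational curves over `U_i`, `i + 1 < n`. -/
def GalTower [CharZero k] (B V E : IntermediateField k Ω) : Prop :=
  ∃ (n : ℕ) (U : ℕ → IntermediateField k Ω), U 0 = V ∧ Fin' E ∧ Gal (U n) E ∧
    (∀ i < n, Ruled (U i) (U (i + 1)) ∨ ∃ M P, FactorialStep (U i) (U (i + 1)) M P) ∧
    (0 < n → relKod B (E ⊓ cl (U 0)) ≠ ⊥) ∧
    ∀ i, i + 1 < n → Ruled (U i) (U (i + 1)) → relKod (E ⊓ cl (U i)) (E ⊓ cl (U (i + 1))) ≠ ⊥

/-- `E → V` is a tower of fibre spaces with fibres of Kodaira dimension `≥ 0`.  It starts with a finite Galois cover `X` of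
`W = V`, `κ(X/B) ≥ 0`.  Every further step `X' → X` is the pull-back `X ×_W Q` of a family of curves `Q → W`, of genus `≥ 1`
over `X`, `Q` any finite Galois cover of a family `T → W` of rational curves (then `W` is replaced by `T`); the pull-back
`X ×_W E` of an isotrivial fibre space `E = (M × P)/H → W`, `κ(M) ≥ 0`, `M` with factorial charts (then `W` is replaced by `E`);
an isotrivial fibre space `(G × (X ×_W P))/H → X₁`, `κ(G) ≥ 0`, `P` a finite Galois cover of `W`, `X₁` a finite cover of `X`; or
a cover `X ×_W P`; or `X` is replaced by `X₁ → W` such that `X` and `X₁` have a common finite Galois cover which is unramified at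
all divisorial valuations. -/
inductive FibreTower [CharZero k] (B V : IntermediateField k Ω) :
    IntermediateField k Ω → IntermediateField k Ω → Prop
  | base {X : IntermediateField k Ω} : Fin' X → Gal V X → relKod B X ≠ ⊥ → FibreTower B V V X
  | curve {W X T Q : IntermediateField k Ω} : FibreTower B V W X → Ruled W T →
      (∃ t ∈ T, Transcendental X t) → Fin' Q → Gal T Q → relKod X (X ⊔ Q) ≠ ⊥ →
      FibreTower B V T (X ⊔ Q)
  | factorial {W X E M P : IntermediateField k Ω} : FibreTower B V W X → FactorialStep W E M P →
      Indep M (X ⊔ P) → FibreTower B V E (X ⊔ E)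
  | isotrivial {W X X₁ E G P : IntermediateField k Ω} : FibreTower B V W X → Gal W P → X ≤ X₁ →
      Step X₁ E G (X ⊔ P) → kodairaDim k G ≠ ⊥ → FibreTower B V W E
  | cover {W X P : IntermediateField k Ω} : FibreTower B V W X → Fin' P → Gal W P →
      FibreTower B V W (X ⊔ P)
  | etale {W X X₁ : IntermediateField k Ω} : FibreTower B V W X → W ≤ X₁ → Commens X X₁ →
      FibreTower B V W X₁

end Pf72953.Fb
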