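import Mathlib
import Pool.Agent.Lib.Pf72953n.GalTower

/-!
Iitaka's inequality for finite Galois covers of `V × ℙⁿ`: `V = B × M`, or `V → B` a rigid tower.
-/

set_option autoImplicit false
set_option linter.style.haveILetI false

open scoped WithZero
open Pf72953 Pf72953.Mov Pf72953.Tow

namespace Pf72953.Pl

variable {k Ω : Type*} [Field k] [Field Ω] [Algebra k Ω]

theorem relKod_of_kge {A Q : IntermediateField k Ω} (h : KGE A Q 0) : relKod A Q ≠ ⊥ := by
  intro h2
  have h3 : ((0 : ℕ) : WithBot ℕ∞) ≤ relKod A Q := le_iSup₂_of_le 0 h le_rfl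
  rw [h2] at h3
  simp at h3

theorem iitaka_of_bot {B E : IntermediateField k Ω} (hB : kodairaDim k B = ⊥) : Iitaka B E := by
  unfold Iitaka
  rw [hB, WithBot.bot_add]
  exact bot_le

section

theorem kge_of_relKod {A Q : IntermediateField k Ω} (hQ : Fin' Q) (h : relKod A Q ≠ ⊥) :
    KGE A Q 0 := by
  rcases relKod_cases (A := A) hQ with h1 | ⟨c, hc, -⟩
  · exact absurd h1 h
  · exact hc.mono (by omega)

/-- easy addition: `κ(V/B) ≥ 0` if `κ(V) ≥ 0` -/
theorem relKod_of_kod [CharZero k] {B V : IntermediateField k Ω} (hV : Fin' V) (hBV : B ≤ V)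
    (h : kodairaDim k V ≠ ⊥) : relKod B V ≠ ⊥ := by
  have h1 := kge_easy hV hBV ((kge_zero_iff hV).1 h)
  rw [Nat.zero_sub] at h1
  exact relKod_of_kge h1

end

section

variable [CharZero k] [IsAlgClosed k] [IsAlgClosed Ω]

/-- **Theorem G**, the condition on the stages only for `0 < i < n` -/
theorem iitaka_galois_pos {B V E : IntermediateField k Ω} {n : ℕ} {x : Fin n → Ω} (hV : Fin' V)
    (hS : StableFib B V) (hVB : relKod B V ≠ ⊥) (hE : Fin' E) (hx : AlgebraicIndependent V x)
    (hG : Gal (coords V x n) E)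
    (hΩ : ∀ A : IntermediateField k Ω, Fin' A → ∃ t : Ω, Transcendental A t)
    (h0 : ∀ i, 0 < i → i < n → relKod B (stage V E x i) ≠ ⊥) : Iitaka B E := by
  refine iitaka_galois hV hS hE hx hG hΩ fun i hi => ?_
  rcases Nat.eq_zero_or_pos i with rfl | hi0
  · have hg := gal_stage hV hx hG hΩ (Nat.zero_le n)
    rw [coords_zero] at hg
    have hf : Fin' (stage V E x 0) := fin_le hE inf_le_left
    exact relKod_of_kge (kge_pull hf hg.le hg.alg (kge_of_relKod hV hVB))
  · exact h0 i hi0 hi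

/-- **Theorem G** over rigid towers `V → B` -/
theorem iitaka_galois_rigid {B V E : IntermediateField k Ω} {n : ℕ} {x : Fin n → Ω}
    (hT : RigidTower B V) (hE : Fin' E) (hx : AlgebraicIndependent V x)
    (hG : Gal (coords V x n) E)
    (hΩ : ∀ A : IntermediateField k Ω, Fin' A → ∃ t : Ω, Transcendental A t)
    (h0 : ∀ i, 0 < i → i < n → relKod B (stage V E x i) ≠ ⊥) : Iitaka B E := by
  have hV : Fin' V := fin_le hE (le_sup_left.trans hG.le)
  have hB : Fin' B := fin_le hV hT.le
  by_cases hk : kodairaDim k B = ⊥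
  · exact iitaka_of_bot hk
  · obtain ⟨hS, hV0⟩ := hT.stableFib (StableFib.refl hB) hk
    exact iitaka_galois_pos hV hS (relKod_of_kod hV hT.le hV0) hE hx hG hΩ h0

omit [IsAlgClosed k] [IsAlgClosed Ω] in
/-- the projection `B × M → B` is a rigid tower -/
theorem rigidTower_prod {B M : IntermediateField k Ω} (hB : Fin' B) (hM : Fin' M) (hi : Indep M B)
    (hMk : kodairaDim k M ≠ ⊥) (hpic : PicProd M B) : RigidTower B (B ⊔ M) := by
  rw [sup_comm]
  exact RigidTower.base.step (V := B) (E := M ⊔ B) (M := M) (P := B) ⟨⟨hM, hB, hi, le_rfl,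
    fun x hx => alg_of_mem hx, le_sup_left.trans le_sup_left, le_sup_right.trans le_sup_left,
    fun σ hσ => (hσ.mono le_sup_left).stab, fun σ hσ => (hσ.mono le_sup_right).stab,
    (inf_eq_right.2 le_sup_right).symm⟩, hMk, hpic⟩

/-- **Theorem G** for finite Galois covers of `B × M × ℙⁿ`; no condition on the stages if `n ≤ 1` -/
theorem iitaka_galois_prod {B M E : IntermediateField k Ω} {n : ℕ} {x : Fin n → Ω}
    (hi : Indep M B) (hMk : kodairaDim k M ≠ ⊥) (hpic : PicProd M B) (hE : Fin' E)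
    (hx : AlgebraicIndependent (B ⊔ M : IntermediateField k Ω) x)
    (hG : Gal (coords (B ⊔ M) x n) E)
    (hΩ : ∀ A : IntermediateField k Ω, Fin' A → ∃ t : Ω, Transcendental A t)
    (h0 : ∀ i, 0 < i → i < n → relKod B (stage (B ⊔ M) E x i) ≠ ⊥) : Iitaka B E := by
  have hV : Fin' (B ⊔ M : IntermediateField k Ω) := fin_le hE (le_sup_left.trans hG.le)
  exact iitaka_galois_rigid (rigidTower_prod (fin_le hV le_sup_left) (fin_le hV le_sup_right) hi hMk
    hpic) hE hx hG hΩ h0

end

end Pf72953.Pl
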