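import Mathlib
import Pool.Agent.Lib.Pf72953n.GalProd
import Pool.Agent.Lib.Pf72953n.RigO
import Pool.Agent.Lib.Pf72953n.Tower

/-!
Iitaka's inequality for the finite Galois covers of towers of `ℙ¹`-bundles and rigid isotrivial fibre spaces, in any order.
-/

set_option autoImplicit false
set_option linter.style.haveILetI false

open scoped WithZero Polynomial
open Pf72953 Pf72953.Mov Pf72953.Tow

namespace Pf72953.Pl

variable {k Ω : Type*} [Field k] [Field Ω] [Algebra k Ω]

section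

variable [IsAlgClosed Ω]

/-- `V` algebraically closed in `V'`: conjugates over `V` are conjugates over `V'` -/
theorem conj_closed {V V' : IntermediateField k Ω} (hVV : V ≤ V')
    (hcl : ∀ y ∈ V', IsAlgebraic V y → y ∈ V) {e : Ω} (he : IsAlgebraic V e)
    {σ : Ω ≃ₐ[k] Ω} (hσ : Fixes σ V) : ∃ τ : Ω ≃ₐ[k] Ω, Fixes τ V' ∧ τ e = σ e := by
  haveI : Fact (V ≤ V') := ⟨hVV⟩
  have heF : IsAlgebraic V' e := alg_mono hVV he
  refine exists_conj heF ?_
  have hdvd : minpoly V' e ∣ (minpoly V e).map (algebraMap V V') :=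
    minpoly.dvd_map_of_isScalarTower V V' e
  have hcoef : ∀ n, ((minpoly V' e).coeff n : Ω) ∈ V := by
    intro n
    have h1 : IsIntegral V ((minpoly V' e).coeff n) :=
      Polynomial.isIntegral_coeff_of_dvd (minpoly V e) _ (minpoly.monic he.isIntegral)
        (minpoly.monic heF.isIntegral) hdvd n
    have h2 : IsAlgebraic V (((minpoly V' e).coeff n : V') : Ω) := by
      have h3 := h1.isAlgebraic
      exact (isAlgebraic_algebraMap_iff (R := V) (A := Ω) (S := V')
        (algebraMap V' Ω).injective).2 h3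
    exact hcl _ ((minpoly V' e).coeff n).2 h2
  have h1 : Polynomial.aeval (σ e) (minpoly V' e) = σ (Polynomial.aeval e (minpoly V' e)) := by
    rw [Polynomial.aeval_eq_sum_range, Polynomial.aeval_eq_sum_range, map_sum]
    refine Finset.sum_congr rfl fun n _ => ?_
    rw [Algebra.smul_def, Algebra.smul_def, map_mul, map_pow]
    congr 1
    exact (hσ _ (hcoef n)).symm
  rw [h1, minpoly.aeval, map_zero]

/-- `V` algebraically closed in `V'`, `E/V'` Galois: the algebraic closure of `V` in `E` is Galois over `V` -/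
theorem gal_inf_cl {V V' E : IntermediateField k Ω} (hVV : V ≤ V')
    (hcl : ∀ y ∈ V', IsAlgebraic V y → y ∈ V) (hG : Gal V' E) : Gal V (E ⊓ cl V) := by
  refine ⟨le_inf (hVV.trans hG.le) le_cl, alg_iff.2 inf_le_right, fun σ hσ z hz => ?_⟩
  obtain ⟨τ, hτ, hτz⟩ := conj_closed hVV hcl (mem_cl.1 hz.2) hσ
  refine ⟨?_, mem_cl.2 (alg_map (fun a ha => by rw [hσ a ha]; exact ha) (mem_cl.1 hz.2))⟩
  rw [← hτz]
  exact hG.stab τ hτ z hz.1

end

section

variable [CharZero k] [IsAlgClosed k] [IsAlgClosed Ω]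

/-- `V` is algebraically closed in an isotrivial fibre space `E → V` -/
theorem step_closed {V E M P : IntermediateField k Ω} (h : Step V E M P) {y : Ω} (hy : y ∈ E)
    (hyV : IsAlgebraic V y) : y ∈ V := by
  have h1 : y ∈ P ⊔ M := by
    rw [sup_comm]
    exact h.le hy
  have h2 : y ∈ P := closed_sup h.fgP h.fgM h.indep.symm h1 (alg_mono h.gal.le hyV)
  rw [h.eq]
  exact ⟨hy, h2⟩

end

/-- `V' = V(x)` -/
def IsLine (V V' : IntermediateField k Ω) : Prop :=
  ∃ x : Ω, Transcendental V x ∧ V' = V ⊔ IntermediateField.adjoin k {x}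

/-- `V' → V` is an isotrivial fibre space `(M × P)/H → P/H` with `κ(M) ≥ 0`, rigid for the covers which come from `X` -/
def IsRigid [CharZero k] (X V V' : IntermediateField k Ω) : Prop :=
  ∃ M P : IntermediateField k Ω, Step V V' M P ∧ kodairaDim k M ≠ ⊥ ∧ PicProd M (X ⊔ P)

section

variable [CharZero k]

theorem link_le {X V V' : IntermediateField k Ω} (h : IsLine V V' ∨ IsRigid X V V') : V ≤ V' := by
  rcases h with ⟨x, -, rfl⟩ | ⟨M, P, hS, -, -⟩
  · exact le_sup_left
  · exact hS.le_E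

variable [IsAlgClosed k] [IsAlgClosed Ω]

theorem link_closed {X V V' : IntermediateField k Ω} (h : IsLine V V' ∨ IsRigid X V V')
    (hV : Fin' V) {y : Ω} (hy : y ∈ V') (hyV : IsAlgebraic V y) : y ∈ V := by
  rcases h with ⟨x, hx, rfl⟩ | ⟨M, P, hS, -, -⟩
  · exact closed_sup hV (fin_simple x) (indep_simple hV hx) hy hyV
  · exact step_closed hS hy hyV

/-- one step -/
theorem link_over {B X V V' X' : IntermediateField k Ω} (h : IsLine V V' ∨ IsRigid X V V')
    (hO : OverC B V X) (hX : Fin' X) (hGX : Gal V X) (h0 : KodairaGE k X 0) (hX' : Fin' X')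
    (hG' : Gal V' X') (hXX : X ≤ X')
    (hΩ : ∀ A : IntermediateField k Ω, Fin' A → ∃ t : Ω, Transcendental A t) :
    OverC B V' X' := by
  rcases h with ⟨x, hx, rfl⟩ | ⟨M, P, hS, hM, hpic⟩
  · have hx' : Transcendental X x := fun h => hx (mem_cl.1 (cl_le (alg_iff.1 hGX.alg)
      (mem_cl.2 h)))
    have h3 := hO.curve hX hX' h0 hΩ hx' hG'
    rwa [sup_eq_right.2 hXX] at h3
  · have h3 := (hO.rigid hX hGX hS h0 ((kge_zero_iff hS.fgM).1 hM) hpic).sup
      (fin_sup hX hS.finE) hX' hG'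
    rwa [sup_eq_right.2 (sup_le hXX hG'.le)] at h3

/-- `κ ≥ 0` after a rigid step -/
theorem rigid_kod {X V V' X' : IntermediateField k Ω} (h : IsRigid X V V') (hX : Fin' X)
    (hGX : Gal V X) (h0 : KodairaGE k X 0) (hX' : Fin' X') (hG' : Gal V' X') (hXX : X ≤ X') :
    KodairaGE k X' 0 := by
  obtain ⟨M, P, hS, hM, -⟩ := h
  refine kge_pull' hX' (sup_le hXX hG'.le) ?_
    (hS.kod_sup hX hGX h0 ((kge_zero_iff hS.fgM).1 hM))
  exact alg_iff.2 ((alg_iff.1 hG'.alg).trans (cl_mono le_sup_right))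

variable {B E : IntermediateField k Ω} {V : ℕ → IntermediateField k Ω} {n : ℕ}

/-- the stages are Galois -/
theorem gal_chain (hE : Fin' E) (hG : Gal (V n) E)
    (hst : ∀ i < n, IsLine (V i) (V (i + 1)) ∨ IsRigid (E ⊓ cl (V i)) (V i) (V (i + 1)))
    {i : ℕ} (hi : i ≤ n) : Gal (V i) (E ⊓ cl (V i)) := by
  induction hi using Nat.decreasingInduction with
  | self => rw [inf_eq_left.2 (alg_iff.1 hG.alg)]; exact hG
  | of_succ i hi ih =>
    have hin : i < n := hi
    have hl := hst i hin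
    have hle := link_le hl
    have hVE : V i ≤ E := hle.trans (ih.le.trans inf_le_left)
    have h1 := gal_inf_cl hle (fun y hy hyV => link_closed hl (fin_le hE hVE) hy hyV) ih
    have h2 : E ⊓ cl (V (i + 1)) ⊓ cl (V i) = E ⊓ cl (V i) := by
      rw [inf_assoc, inf_eq_right.2 (cl_mono hle)]
    rwa [h2] at h1

/-- the stages -/
theorem overC_chain (hE : Fin' E) (hG : Gal (V n) E) (hS : StableFib B (V 0))
    (hst : ∀ i < n, IsLine (V i) (V (i + 1)) ∨ IsRigid (E ⊓ cl (V i)) (V i) (V (i + 1)))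
    (hΩ : ∀ A : IntermediateField k Ω, Fin' A → ∃ t : Ω, Transcendental A t)
    (hB : KodairaGE k B 0) (hV0 : relKod B (V 0) ≠ ⊥)
    (h0 : ∀ i, i + 1 < n → IsLine (V i) (V (i + 1)) → relKod B (E ⊓ cl (V (i + 1))) ≠ ⊥)
    {i : ℕ} (hi : i ≤ n) :
    OverC B (V i) (E ⊓ cl (V i)) ∧ (i < n → KodairaGE k (E ⊓ cl (V i) : IntermediateField k Ω) 0) := by
  have hfin : ∀ i, Fin' (E ⊓ cl (V i)) := fun i => fin_le hE inf_le_left
  induction i with
  | zero =>
    have hg := gal_chain hE hG hst hi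
    have hV : Fin' (V 0) := fin_le (hfin 0) hg.le
    have h1 := (over_iff hV).1 (over_self.2 hS)
    have h2 := h1.sup hV (hfin 0) hg
    rw [sup_eq_right.2 hg.le] at h2
    exact ⟨h2, fun _ => kge_pull' (hfin 0) hg.le hg.alg
      (kge_zero_of_relKod hV (((over_iff hV).2 h1).iitaka hV) hB hV0)⟩
  | succ i ih =>
    have hin : i < n := hi
    obtain ⟨hO, hk⟩ := ih hin.le
    have hgi := gal_chain hE hG hst hin.le
    have hg := gal_chain hE hG hst hi
    have hle : E ⊓ cl (V i) ≤ E ⊓ cl (V (i + 1)) :=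
      inf_le_inf_left E (cl_mono (link_le (hst i hin)))
    have hO' := link_over (hst i hin) hO (hfin i) hgi (hk hin) (hfin (i + 1)) hg hle hΩ
    refine ⟨hO', fun hin' => ?_⟩
    rcases hst i hin with hl | hr
    · exact kge_zero_of_relKod (hfin (i + 1)) (((over_iff (hfin (i + 1))).2 hO').iitaka
        (hfin (i + 1))) hB (h0 i hin' hl)
    · exact rigid_kod hr (hfin i) hgi (hk hin) (hfin (i + 1)) hg hle

/-- **Theorem G for sequences.**  `V₀ → B` stable, `κ(V₀/B) ≥ 0`; `V_{i+1} → V_i` is the projection `V_i × ℙ¹ → V_i` or a rigid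
isotrivial fibre space with a fibre `M_i`, `κ(M_i) ≥ 0`; `E` is any finite Galois extension of `V_n`, `E_i` the algebraic closure
of `V_i` in `E`, and `κ(E_i/B) ≥ 0` if `0 < i < n` and `V_i = V_{i-1}(x)`. -/
theorem iitaka_chain (hE : Fin' E) (hG : Gal (V n) E) (hS : StableFib B (V 0))
    (hst : ∀ i < n, IsLine (V i) (V (i + 1)) ∨ IsRigid (E ⊓ cl (V i)) (V i) (V (i + 1)))
    (hΩ : ∀ A : IntermediateField k Ω, Fin' A → ∃ t : Ω, Transcendental A t)
    (hV0 : relKod B (V 0) ≠ ⊥)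
    (h0 : ∀ i, i + 1 < n → IsLine (V i) (V (i + 1)) → relKod B (E ⊓ cl (V (i + 1))) ≠ ⊥) :
    Iitaka B E := by
  by_cases hB : kodairaDim k B = ⊥
  · exact iitaka_of_bot hB
  · have hVE : V 0 ≤ E := (gal_chain hE hG hst (Nat.zero_le n)).le.trans inf_le_left
    obtain ⟨h1, -⟩ := overC_chain hE hG hS hst hΩ
      ((kge_zero_iff (fin_le (fin_le hE hVE) hS.1)).1 hB) hV0 h0 le_rfl
    rw [inf_eq_left.2 (alg_iff.1 hG.alg)] at h1
    exact ((over_iff hE).2 h1).iitaka hE

/-- **Theorem G for sequences over `B`** (`V₀ = B`) -/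
theorem iitaka_chain_self (hE : Fin' E) (hG : Gal (V n) E) (hB : V 0 = B)
    (hst : ∀ i < n, IsLine (V i) (V (i + 1)) ∨ IsRigid (E ⊓ cl (V i)) (V i) (V (i + 1)))
    (hΩ : ∀ A : IntermediateField k Ω, Fin' A → ∃ t : Ω, Transcendental A t)
    (h0 : ∀ i, i + 1 < n → IsLine (V i) (V (i + 1)) → relKod B (E ⊓ cl (V (i + 1))) ≠ ⊥) :
    Iitaka B E := by
  have hBE : V 0 ≤ E := (gal_chain hE hG hst (Nat.zero_le n)).le.trans inf_le_left
  have hBf : Fin' B := hB ▸ fin_le hE hBE
  have hS : StableFib B (V 0) := by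
    rw [hB]
    exact StableFib.refl hBf
  refine iitaka_chain hE hG hS hst hΩ ?_ h0
  rw [hB]
  exact relKod_alg hBf le_rfl fun x hx => alg_of_mem hx

end

end Pf72953.Pl
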