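import Mathlib
import Pool.Agent.Lib.Pf72953n.GalSeq

/-!
Iitaka's inequality for towers of Galois families of curves of genus `≥ 1` (the last family: any genus) and rigid isotrivial
fibre spaces, in any order.
-/

set_option autoImplicit false
set_option linter.style.haveILetI false

open scoped WithZero Polynomial
open Pf72953 Pf72953.Mov Pf72953.Tow

namespace Pf72953.Pl

variable {k Ω : Type*} [Field k] [Field Ω] [Algebra k Ω]

section

variable [CharZero k] [IsAlgClosed k] [IsAlgClosed Ω]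

/-- Iitaka's inequality for the finite Galois covers of `X × ℙ¹` over `X` -/
theorem iitaka_one {X X' : IntermediateField k Ω} {x : Ω} (hX' : Fin' X')
    (hx : Transcendental X x) (hG : Gal (X ⊔ IntermediateField.adjoin k {x}) X')
    (hΩ : ∀ A : IntermediateField k Ω, Fin' A → ∃ t : Ω, Transcendental A t) : Iitaka X X' := by
  have h1 : coords X (fun _ : Fin 1 => x) 1 = X ⊔ IntermediateField.adjoin k {x} := by
    have h2 := coords_succ (V := X) (x := fun _ : Fin 1 => x) 0
    rw [show ((0 : Fin 1) : ℕ) + 1 = 1 from rfl] at h2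
    rw [h2]
    congr 1
    exact coords_zero
  refine iitaka_galois_self (n := 1) (x := fun _ => x) (fin_le hX' (le_sup_left.trans hG.le)) hX'
    (algebraicIndependent_unique_type_iff.2 hx) (by rw [h1]; exact hG) hΩ fun i h1 h2 => ?_
  omega

/-- `κ ≥ 0` after a line, for curves of genus `≥ 1` -/
theorem line_kod {X V V' X' : IntermediateField k Ω} (h : IsLine V V')
    (hGX : Gal V X) (h0 : KodairaGE k X 0) (hX' : Fin' X') (hG' : Gal V' X') (hXX : X ≤ X')
    (hΩ : ∀ A : IntermediateField k Ω, Fin' A → ∃ t : Ω, Transcendental A t)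
    (hr : relKod X X' ≠ ⊥) : KodairaGE k X' 0 := by
  obtain ⟨x, hx, rfl⟩ := h
  have hx' : Transcendental X x := fun h => hx (mem_cl.1 (cl_le (alg_iff.1 hGX.alg)
    (mem_cl.2 h)))
  have h1 : Gal (X ⊔ IntermediateField.adjoin k {x}) X' :=
    hG'.of_le (sup_le_sup_right hGX.le _) (sup_le hXX (le_sup_right.trans hG'.le))
  exact kge_zero_of_relKod hX' (iitaka_one hX' hx' h1 hΩ) h0 hr

variable {B E : IntermediateField k Ω} {V : ℕ → IntermediateField k Ω} {n : ℕ}

/-- the stages -/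
theorem overC_genus (hE : Fin' E) (hG : Gal (V n) E) (hS : StableFib B (V 0))
    (hst : ∀ i < n, IsLine (V i) (V (i + 1)) ∨ IsRigid (E ⊓ cl (V i)) (V i) (V (i + 1)))
    (hΩ : ∀ A : IntermediateField k Ω, Fin' A → ∃ t : Ω, Transcendental A t)
    (hB : KodairaGE k B 0) (hV0 : relKod B (V 0) ≠ ⊥)
    (h0 : ∀ i, i + 1 < n → IsLine (V i) (V (i + 1)) →
      relKod (E ⊓ cl (V i)) (E ⊓ cl (V (i + 1))) ≠ ⊥) {i : ℕ} (hi : i ≤ n) :
    OverC B (V i) (E ⊓ cl (V i)) ∧ (i < n → KodairaGE k (E ⊓ cl (V i) : IntermediateField k Ω) 0) := by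
  have hfin : ∀ i, Fin' (E ⊓ cl (V i)) := fun i => fin_le hE inf_le_left
  induction i with
  | zero =>
    have hg := gal_chain hE hG hst hi
    have hV : Fin' (V 0) := fin_le (hfin 0) hg.le
    have h1 := (over_iff hV).1 (over_self.2 hS)
    have h2 := h1.sup hV (hfin 0) hg
    rw [sup_eq_right.2 hg.le] at h2
    exact ⟨h2, fun _ => kge_pull' (hfin 0) hg.le hg.alg
      (kge_zero_of_relKod hV (((over_iff hV).2 h1).iitaka hV) hB hV0)⟩
  | succ i ih =>
    have hin : i < n := hi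
    obtain ⟨hO, hk⟩ := ih hin.le
    have hgi := gal_chain hE hG hst hin.le
    have hg := gal_chain hE hG hst hi
    have hle : E ⊓ cl (V i) ≤ E ⊓ cl (V (i + 1)) :=
      inf_le_inf_left E (cl_mono (link_le (hst i hin)))
    refine ⟨link_over (hst i hin) hO (hfin i) hgi (hk hin) (hfin (i + 1)) hg hle hΩ,
      fun hin' => ?_⟩
    rcases hst i hin with hl | hr
    · exact line_kod hl hgi (hk hin) (hfin (i + 1)) hg hle hΩ (h0 i hin' hl)
    · exact rigid_kod hr (hfin i) hgi (hk hin) (hfin (i + 1)) hg hle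

/-- **Towers of Galois families of curves and rigid isotrivial fibre spaces.**  `V₀ → B` stable, `κ(V₀/B) ≥ 0`; `V_{i+1} → V_i` is
the projection `V_i × ℙ¹ → V_i` or a rigid isotrivial fibre space with a fibre `M_i`, `κ(M_i) ≥ 0`; `E` is any finite Galois
extension of `V_n`, `E_i` the algebraic closure of `V_i` in `E`; if `0 < i < n` and `V_i = V_{i-1}(x)`, then the curve `E_i/E_{i-1}`
has genus `≥ 1`. -/
theorem iitaka_genus (hE : Fin' E) (hG : Gal (V n) E) (hS : StableFib B (V 0))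
    (hst : ∀ i < n, IsLine (V i) (V (i + 1)) ∨ IsRigid (E ⊓ cl (V i)) (V i) (V (i + 1)))
    (hΩ : ∀ A : IntermediateField k Ω, Fin' A → ∃ t : Ω, Transcendental A t)
    (hV0 : relKod B (V 0) ≠ ⊥)
    (h0 : ∀ i, i + 1 < n → IsLine (V i) (V (i + 1)) →
      relKod (E ⊓ cl (V i)) (E ⊓ cl (V (i + 1))) ≠ ⊥) : Iitaka B E := by
  by_cases hB : kodairaDim k B = ⊥
  · exact iitaka_of_bot hB
  · have hVE : V 0 ≤ E := (gal_chain hE hG hst (Nat.zero_le n)).le.trans inf_le_left
    obtain ⟨h1, -⟩ := overC_genus hE hG hS hst hΩ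
      ((kge_zero_iff (fin_le (fin_le hE hVE) hS.1)).1 hB) hV0 h0 le_rfl
    rw [inf_eq_left.2 (alg_iff.1 hG.alg)] at h1
    exact ((over_iff hE).2 h1).iitaka hE

/-- the same over `B` (`V₀ = B`) -/
theorem iitaka_genus_self (hE : Fin' E) (hG : Gal (V n) E) (hB : V 0 = B)
    (hst : ∀ i < n, IsLine (V i) (V (i + 1)) ∨ IsRigid (E ⊓ cl (V i)) (V i) (V (i + 1)))
    (hΩ : ∀ A : IntermediateField k Ω, Fin' A → ∃ t : Ω, Transcendental A t)
    (h0 : ∀ i, i + 1 < n → IsLine (V i) (V (i + 1)) →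
      relKod (E ⊓ cl (V i)) (E ⊓ cl (V (i + 1))) ≠ ⊥) : Iitaka B E := by
  have hBE : V 0 ≤ E := (gal_chain hE hG hst (Nat.zero_le n)).le.trans inf_le_left
  have hBf : Fin' B := hB ▸ fin_le hE hBE
  have hS : StableFib B (V 0) := by
    rw [hB]
    exact StableFib.refl hBf
  refine iitaka_genus hE hG hS hst hΩ ?_ h0
  rw [hB]
  exact relKod_alg hBf le_rfl fun x hx => alg_of_mem hx

/-- **Theorem G, genus form**: `V → B` stable, `κ(V/B) ≥ 0`, `E` any finite Galois extension of `V(x₁, …, x_n)`, `E_i` the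
algebraic closure of `V(x₁, …, x_i)` in `E`, and the curves `E_i/E_{i-1}`, `0 < i < n`, have genus `≥ 1`. -/
theorem iitaka_galois_genus {V : IntermediateField k Ω} {x : Fin n → Ω}
    (hS : StableFib B V) (hVB : relKod B V ≠ ⊥) (hE : Fin' E) (hx : AlgebraicIndependent V x)
    (hG : Gal (coords V x n) E)
    (hΩ : ∀ A : IntermediateField k Ω, Fin' A → ∃ t : Ω, Transcendental A t)
    (h0 : ∀ i, i + 1 < n → relKod (stage V E x i) (stage V E x (i + 1)) ≠ ⊥) : Iitaka B E := by
  refine iitaka_genus (V := coords V x) hE hG (by rw [coords_zero]; exact hS) (fun i hi =>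
    Or.inl ⟨x ⟨i, hi⟩, transc_coords hx ⟨i, hi⟩, coords_succ (V := V) (x := x) ⟨i, hi⟩⟩) hΩ
    (by rw [coords_zero]; exact hVB) fun i hi _ => h0 i hi

end

/-- `κ(E/B) ≥ 0` implies `κ(E/A) ≥ 0` for `B ⊆ A ⊆ E`: the condition on the genus is weaker than `κ(E_{i+1}/B) ≥ 0` -/
theorem relKod_fibre [CharZero k] {B A E : IntermediateField k Ω} (hE : Fin' E) (hBA : B ≤ A)
    (hAE : A ≤ E) (h : relKod B E ≠ ⊥) : relKod A E ≠ ⊥ :=
  relKod_of_kge (kge_fibre hE hBA hAE (kge_of_relKod hE h))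

theorem iitaka_of_rel {B E : IntermediateField k Ω} (h : relKod B E = ⊥) : Iitaka B E := by
  unfold Iitaka
  rw [h, WithBot.add_bot]
  exact bot_le

section

variable [CharZero k] [IsAlgClosed k] [IsAlgClosed Ω]

/-- (I) in fibre dimension `≤ d` is equivalent to (I) for all towers of Galois families of curves of genus `≥ 1` and rigid
isotrivial fibre spaces over the fibre spaces `V₀ → B` of dimension `≤ d`, `κ(V₀/B) ≥ 0` -/
theorem iitakaFibreDim_iff_genus
    (hΩ : ∀ A : IntermediateField k Ω, Fin' A → ∃ t : Ω, Transcendental A t) (d : ℕ) :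
    IitakaFibreDim k Ω d ↔
      ∀ (B E : IntermediateField k Ω) (V : ℕ → IntermediateField k Ω) (n : ℕ), B ≤ V 0 →
        dimension k (V 0) ≤ dimension k B + d → relKod B (V 0) ≠ ⊥ → Fin' E → Gal (V n) E →
        (∀ i < n, IsLine (V i) (V (i + 1)) ∨ IsRigid (E ⊓ cl (V i)) (V i) (V (i + 1))) →
        (∀ i, i + 1 < n → IsLine (V i) (V (i + 1)) →
          relKod (E ⊓ cl (V i)) (E ⊓ cl (V (i + 1))) ≠ ⊥) → Iitaka B E := by
  constructor
  · intro hI B E V n hBV hd hVB hE hG hst h0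
    have hV : Fin' (V 0) :=
      fin_le hE ((gal_chain hE hG hst (Nat.zero_le n)).le.trans inf_le_left)
    exact iitaka_genus hE hG (stableFib_of_dim hI hV hBV hd) hst hΩ hVB h0
  · intro h K Q hQ hKQ _ hd
    by_cases h1 : relKod K Q = ⊥
    · exact iitaka_of_rel h1
    · exact h K Q (fun _ => Q) 0 hKQ hd h1 hQ gal_refl (fun i hi => absurd hi (Nat.not_lt_zero i))
        fun i hi => absurd hi (Nat.not_lt_zero _)

/-- the same for the fibre spaces whose general fibre is of general type -/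
theorem iitakaGeneralType_iff_genus
    (hΩ : ∀ A : IntermediateField k Ω, Fin' A → ∃ t : Ω, Transcendental A t) :
    IitakaGeneralType k Ω ↔
      ∀ (B E : IntermediateField k Ω) (V : ℕ → IntermediateField k Ω) (n d : ℕ), B ≤ V 0 →
        dimension k (V 0) = dimension k B + d → relKod B (V 0) = d → Fin' E → Gal (V n) E →
        (∀ i < n, IsLine (V i) (V (i + 1)) ∨ IsRigid (E ⊓ cl (V i)) (V i) (V (i + 1))) →
        (∀ i, i + 1 < n → IsLine (V i) (V (i + 1)) →
          relKod (E ⊓ cl (V i)) (E ⊓ cl (V (i + 1))) ≠ ⊥) → Iitaka B E := by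
  constructor
  · intro hI B E V n d hBV hd hVd hE hG hst h0
    have hV : Fin' (V 0) :=
      fin_le hE ((gal_chain hE hG hst (Nat.zero_le n)).le.trans inf_le_left)
    refine iitaka_genus hE hG (stableFib_of_general hI hV hBV hd hVd) hst hΩ ?_ h0
    rw [hVd]
    simp
  · intro h K Q hQ hKQ _ d hd hQd
    exact h K Q (fun _ => Q) 0 d hKQ hd hQd hQ gal_refl
      (fun i hi => absurd hi (Nat.not_lt_zero i)) fun i hi => absurd hi (Nat.not_lt_zero _)

end

end Pf72953.Pl
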