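import Mathlib
import Pool.Agent.Lib.Pf72953n.GalProd
import Pool.Agent.Lib.Pf72953n.Tower

/-!
Iitaka's inequality for fibre spaces with `κ(F) ≥ dim F - d` is equivalent to the inequality for the towers of Galois families
of curves over them.
-/

set_option autoImplicit false
set_option linter.style.haveILetI false

open scoped WithZero
open Pf72953 Pf72953.Mov Pf72953.Tow

namespace Pf72953.Tow

/-- Iitaka's inequality for all fibre spaces `Q → K` (`K` algebraically closed in `Q`) with the generic fibre `F`,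
`κ(F) ≥ dim F - d` -/
def IitakaFibreKod (k Ω : Type*) [Field k] [Field Ω] [Algebra k Ω] (d : ℕ) : Prop :=
  ∀ K Q : IntermediateField k Ω, Fin' Q → K ≤ Q → (∀ x ∈ Q, IsAlgebraic K x → x ∈ K) →
    (dimension k Q : WithBot ℕ∞) ≤ dimension k K + d + relKod K Q → Iitaka K Q

section

variable {k Ω : Type*} [Field k] [Field Ω] [Algebra k Ω] [CharZero k] [IsAlgClosed k]

theorem stableFib_of_kod {d : ℕ} (hI : IitakaFibreKod k Ω d) {B V : IntermediateField k Ω}
    (hV : Fin' V) (hBV : B ≤ V)
    (hd : (dimension k V : WithBot ℕ∞) ≤ dimension k B + d + relKod B V) : StableFib B V := by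
  refine ⟨hBV, fun Y Q hYC hi hQ hG => ?_⟩
  have hY : Fin' Y := hYC.fin
  obtain ⟨K, h1, h2, h3, h4, h5⟩ := exists_stein (F := B ⊔ Y) hQ ((sup_le_sup_right hBV Y).trans hG.le)
  have e1 : dimension k (V ⊔ Y : IntermediateField k Ω) = dimension k V + dimension k Y := hi
  have e2 : dimension k (B ⊔ Y : IntermediateField k Ω) = dimension k B + dimension k Y :=
    hi.mono_left hV hY hBV
  have e3 := dim_eq hQ hG.le hG.alg
  have hVQ : V ≤ Q := le_sup_left.trans hG.le
  have hYQ : Y ≤ Q := le_sup_right.trans hG.le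
  obtain ⟨c, h6, h7⟩ : ∃ c : ℕ, KGE B V c ∧ dimension k V ≤ dimension k B + d + c := by
    rcases relKod_cases (A := B) hV with h7 | ⟨c, hc, h7⟩
    · rw [h7, WithBot.add_bot] at hd
      exact absurd hd (by simp)
    · rw [h7] at hd
      exact ⟨c, hc, by exact_mod_cast hd⟩
  have h8 : KGE (B ⊔ Y) Q c := by
    refine kge_up hQ le_sup_left ((sup_le_sup_right hBV Y).trans hG.le) hVQ ?_ ?_ h6
    · have h8 : (V ⊔ Y : IntermediateField k Ω) ≤ (B ⊔ Y) ⊔ V :=
        sup_le le_sup_right (le_sup_right.trans le_sup_left)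
      exact fun x hx => alg_mono h8 (hG.alg x hx)
    · omega
  have h9 : KGE K Q c := (kge_base hQ h1 h2 h4).1 h8
  have h10 : ((c : ℕ∞) : WithBot ℕ∞) ≤ relKod K Q := le_iSup₂_of_le c h9 le_rfl
  refine iitaka_of_stein hQ h1 h2 h4 (hI K Q hQ h2 h3 (le_trans ?_ (add_le_add_right h10 _)))
  have h11 : dimension k Q ≤ dimension k K + d + c := by omega
  exact_mod_cast h11

end

end Pf72953.Tow

namespace Pf72953.Pl

variable {k Ω : Type*} [Field k] [CharZero k] [IsAlgClosed k] [Field Ω] [IsAlgClosed Ω] [Algebra k Ω]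

theorem iitakaFibreKod_iff
    (hΩ : ∀ A : IntermediateField k Ω, Fin' A → ∃ t : Ω, Transcendental A t) (d : ℕ) :
    IitakaFibreKod k Ω d ↔
      ∀ (B V E : IntermediateField k Ω) (n : ℕ) (x : Fin n → Ω), B ≤ V →
        (dimension k V : WithBot ℕ∞) ≤ dimension k B + d + relKod B V → Fin' E →
        AlgebraicIndependent V x → Gal (coords V x n) E →
        (∀ i < n, relKod B (stage V E x i) ≠ ⊥) → Iitaka B E := by
  constructor
  · intro hI B V E n x hBV hd hE hx hG h0
    have hV : Fin' V := fin_le hE (le_sup_left.trans hG.le)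
    exact iitaka_galois hV (stableFib_of_kod hI hV hBV hd) hE hx hG hΩ h0
  · intro h K Q hQ hKQ _ hd
    refine h K Q Q 0 Fin.elim0 hKQ hd hQ (algebraicIndependent_empty_type) ?_
      fun i hi => absurd hi (Nat.not_lt_zero i)
    rw [coords_zero]
    exact gal_refl

theorem iitakaFibreKod_iff_tower
    (hΩ : ∀ A : IntermediateField k Ω, Fin' A → ∃ t : Ω, Transcendental A t) (d : ℕ) :
    IitakaFibreKod k Ω d ↔
      ∀ B V W E : IntermediateField k Ω, Fin' V → B ≤ V →
        (dimension k V : WithBot ℕ∞) ≤ dimension k B + d + relKod B V →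
        FibTower B V W E → Iitaka B E := by
  constructor
  · intro hI B V W E hV hBV hd hT
    exact hT.iitaka hΩ hV (stableFib_of_kod hI hV hBV hd)
  · intro h K Q hQ hKQ _ hd
    exact h K Q Q Q hQ hKQ hd FibTower.base

end Pf72953.Pl
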