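import Mathlib
import Pool.Agent.Lib.Pf72953n.RigO
import Pool.Agent.Lib.Pf72953n.Amalg

/-!
Rigid isotrivial fibre spaces over an arbitrary fibre space `X` over `V`: the condition on the ramification.
-/

set_option autoImplicit false
set_option linter.style.haveILetI false

open scoped WithZero Polynomial
open Pf72953 Pf72953.Mov

namespace Pf72953.Tow

variable {k Ω : Type*} [Field k] [Field Ω] [Algebra k Ω] [CharZero k] [IsAlgClosed k]
  [IsAlgClosed Ω]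

/-- `P'` and `E·Y` are linearly disjoint over `V·Y` for every Galois extension `P'` of `V·Y` -/
theorem Step.exists_liftY {V E M P P' Y : IntermediateField k Ω} (h : Step V E M P)
    (hG : Gal (V ⊔ Y) P') (hP' : Fin' P') (hY : Fin' Y) (hi : Indep (M ⊔ P) Y) (τ : Ω ≃ₐ[k] Ω)
    (hτ : Fixes τ (V ⊔ Y)) : ∃ γ : Ω ≃ₐ[k] Ω, Fixes γ (E ⊔ Y) ∧ ∀ x ∈ P', γ x = τ x := by
  have hMP : Fin' (M ⊔ P) := fin_sup h.fgM h.fgP
  have hE : Fin' E := fin_le hMP h.le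
  have hF : Fin' (E ⊔ Y) := fin_sup hE hY
  haveI : Fact (V ⊔ Y ≤ P') := ⟨hG.le⟩
  obtain ⟨hfin, hgal⟩ := hG.finite hP'
  have hVE : V ≤ E := h.le_E
  have hVF : V ⊔ Y ≤ E ⊔ Y := sup_le_sup_right hVE Y
  have iPY : Indep P Y := hi.mono_left hMP hY le_sup_right
  have iPYM : Indep (P ⊔ Y) M := by
    have e1 : dimension k ((M ⊔ P) ⊔ Y : IntermediateField k Ω) =
        dimension k (M ⊔ P : IntermediateField k Ω) + dimension k Y := hi
    have e2 : dimension k (M ⊔ P : IntermediateField k Ω) = dimension k M + dimension k P := h.indep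
    have e3 : dimension k (P ⊔ Y : IntermediateField k Ω) = dimension k P + dimension k Y := iPY
    have e4 : (P ⊔ Y) ⊔ M = (M ⊔ P) ⊔ Y := by rw [sup_comm, sup_assoc]
    unfold Indep
    rw [e4]
    omega
  let H : Subgroup (P' ≃ₐ[(V ⊔ Y : IntermediateField k Ω)] P') :=
    { carrier := {s | ∃ γ : Ω ≃ₐ[k] Ω, Fixes γ (E ⊔ Y) ∧ ∀ x : P', (s x : Ω) = γ x}
      one_mem' := ⟨AlgEquiv.refl, fun _ _ => rfl, fun _ => rfl⟩
      mul_mem' := by
        rintro s t ⟨γ, hγ, hs⟩ ⟨δ, hδ, ht⟩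
        refine ⟨δ.trans γ, fun x hx => ?_, fun x => ?_⟩
        · rw [AlgEquiv.trans_apply, hδ x hx, hγ x hx]
        · rw [AlgEquiv.mul_apply, hs, ht, AlgEquiv.trans_apply]
      inv_mem' := by
        rintro s ⟨γ, hγ, hs⟩
        refine ⟨γ.symm, fun x hx => ?_, fun x => ?_⟩
        · rw [AlgEquiv.symm_apply_eq, hγ x hx]
        · rw [AlgEquiv.eq_symm_apply, ← hs]
          congr 1
          exact AlgEquiv.apply_symm_apply s x }
  have hfix : IntermediateField.fixedField H = ⊥ := by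
    rw [eq_bot_iff]
    intro x hx
    have h1 : ∀ γ : Ω ≃ₐ[k] Ω, Fixes γ (E ⊔ Y) → γ x = x := by
      intro γ hγ
      obtain ⟨s, hs⟩ := exists_restrict hG (hγ.mono hVF)
      have h2 : s ∈ H := ⟨γ, hγ, hs⟩
      have h3 := (IntermediateField.mem_fixedField_iff H x).mp hx s h2
      rw [← hs, h3]
    have h2 : IsAlgebraic (V ⊔ Y : IntermediateField k Ω) (x : Ω) := hG.alg x x.2
    have h3 : (x : Ω) ∈ E ⊔ Y := mem_of_fixed hF (alg_mono hVF h2) h1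
    have h6 : (x : Ω) ∈ P ⊔ Y := by
      refine closed_sup (fin_sup h.fgP hY) h.fgM iPYM ?_ (alg_mono (sup_le_sup_right h.le_P Y) h2)
      refine (sup_le (h.le.trans (sup_le le_sup_right (le_sup_left.trans le_sup_left)))
        (le_sup_right.trans le_sup_left) : E ⊔ Y ≤ (P ⊔ Y) ⊔ M) h3
    have h5 : (x : Ω) ∈ V ⊔ Y := by
      refine mem_of_fixed (fin_sup h.finV hY) h2 fun σ hσ => ?_
      obtain ⟨γ, hγ, hγP⟩ := h.exists_lift hY hi σ (hσ.mono le_sup_left)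
      have h7 : Fixes (γ.trans σ.symm) (P ⊔ Y) := by
        refine Fixes.sup79 (fun y hy => ?_) (fun y hy => ?_)
        · rw [AlgEquiv.trans_apply, hγP y hy, AlgEquiv.symm_apply_apply]
        · rw [AlgEquiv.trans_apply, hγ y ((le_sup_right : Y ≤ E ⊔ Y) hy), AlgEquiv.symm_apply_eq]
          exact (hσ y ((le_sup_right : Y ≤ V ⊔ Y) hy)).symm
      have h8 := h7 _ h6
      rw [AlgEquiv.trans_apply, hγ _ h3, AlgEquiv.symm_apply_eq] at h8
      exact h8.symm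
    rw [IntermediateField.mem_bot]
    exact ⟨⟨x, h5⟩, Subtype.ext rfl⟩
  have hH : H = ⊤ := by
    rw [← IntermediateField.fixingSubgroup_fixedField H, hfix, IntermediateField.fixingSubgroup_bot]
  obtain ⟨s, hs⟩ := exists_restrict hG hτ
  have h1 : s ∈ H := hH ▸ Subgroup.mem_top s
  obtain ⟨γ, hγ, hγs⟩ := h1
  exact ⟨γ, hγ, fun x hx => by rw [← hγs ⟨x, hx⟩, hs]⟩

/-- the Galois hull `R` of `Q` over `T·V·Y`, `T = k(x)`, `x` a transcendence basis of `M`: base `M`, for the pull-backs to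
`X` -/
theorem cond1X {V X E M P₀ P Y Q T C : IntermediateField k Ω} (h : Step V E M P₀)
    (hVX : V ≤ X) (hX : Fin' X) (hP : P = X ⊔ P₀) (hMP : Indep M P)
    (hY : Fin' Y) (hi : Indep (M ⊔ P) Y) (hQ : Fin' Q) (hG : Gal (E ⊔ Y) Q) (hN : M ⊔ P₀ ≤ Q)
    (hC : Fin' C) (hTM : T ≤ M) (hMT : ∀ x ∈ M, IsAlgebraic T x) (hTC : Gal T C)
    [Fact (M ≤ M ⊔ (P ⊔ Y))] [Fact (P ⊔ Y ≤ M ⊔ (P ⊔ Y))] [Fact (M ≤ X ⊔ Q)]
    [Fact (P ⊔ Y ≤ X ⊔ Q)] [Fact (M ⊔ (P ⊔ Y) ≤ X ⊔ Q)] :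
    ∃ R : IntermediateField k Ω, Fin' R ∧ Gal (T ⊔ (V ⊔ Y)) R ∧ Q ≤ R ∧ C ≤ R ∧
      ∃ (_ : Fact (M ≤ X ⊔ R)) (_ : Fact (P ⊔ Y ≤ X ⊔ R)) (_ : Fact (M ⊔ (P ⊔ Y) ≤ X ⊔ R)),
        ∀ (W : SmoothModel k (P ⊔ Y : IntermediateField k Ω)) (j : W.I)
          (w : Valuation (X ⊔ R : IntermediateField k Ω) ℤᵐ⁰),
          Br.Bad k W M (M ⊔ (P ⊔ Y) : IntermediateField k Ω) j w →
          ∃ φ : (X ⊔ Q : IntermediateField k Ω) →ₐ[k] (X ⊔ R : IntermediateField k Ω),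
          (∀ b : (P ⊔ Y : IntermediateField k Ω),
            φ (algebraMap (P ⊔ Y : IntermediateField k Ω) (X ⊔ Q : IntermediateField k Ω) b) =
              algebraMap (P ⊔ Y : IntermediateField k Ω) (X ⊔ R : IntermediateField k Ω) b) ∧
          (∀ y : M, IsAlgebraic M (φ (algebraMap M (X ⊔ Q : IntermediateField k Ω) y))) ∧
          Br.Bad k W M (M ⊔ (P ⊔ Y) : IntermediateField k Ω) j (w.comap
            (φ : (X ⊔ Q : IntermediateField k Ω) →+* (X ⊔ R : IntermediateField k Ω))) := by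
  set F : IntermediateField k Ω := T ⊔ (V ⊔ Y) with hFdef
  set Z : IntermediateField k Ω := M ⊔ (P ⊔ Y) with hZdef
  have hfP : Fin' P := hP ▸ fin_sup hX h.fgP
  have hXP : X ≤ P := hP ▸ le_sup_left
  have hPP : P₀ ≤ P := hP ▸ le_sup_right
  have hVP : V ≤ P := hVX.trans hXP
  have hP₀Q : P₀ ≤ Q := le_sup_right.trans hN
  have hMQ : M ≤ Q := le_sup_left.trans hN
  have hYQ : Y ≤ Q := le_sup_right.trans hG.le
  have hVQ : V ≤ Q := h.le_P.trans hP₀Q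
  have hTF : T ≤ F := le_sup_left
  have hVF : V ≤ F := le_sup_left.trans le_sup_right
  have hYF : Y ≤ F := le_sup_right.trans le_sup_right
  have hVYF : V ⊔ Y ≤ F := le_sup_right
  have hFQ : F ≤ Q := sup_le (hTM.trans hMQ) (sup_le hVQ hYQ)
  have hMZ : M ≤ Z := le_sup_left
  have hPZ : P ≤ Z := le_sup_left.trans le_sup_right
  have hYZ : Y ≤ Z := le_sup_right.trans le_sup_right
  have hXZ : X ≤ Z := hXP.trans hPZ
  have hFZ : F ≤ Z := sup_le (hTM.trans hMZ) (sup_le (hVP.trans hPZ) hYZ)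
  have hEZ : E ⊔ Y ≤ Z := sup_le (h.le.trans (sup_le hMZ (hPP.trans hPZ))) hYZ
  have hP₀cl : P₀ ≤ cl V := alg_iff.1 h.gal.alg
  have hMcl : M ≤ cl T := alg_iff.1 hMT
  have hQcl : Q ≤ cl F := by
    refine (alg_iff.1 hG.alg).trans (cl_le ?_)
    refine sup_le (h.le.trans (sup_le (hMcl.trans (cl_mono hTF)) (hP₀cl.trans (cl_mono hVF)))) ?_
    exact hYF.trans le_cl
  have halg : ∀ x ∈ Q, IsAlgebraic F x := alg_iff.2 hQcl
  have hFfin : Fin' F := fin_le hQ hFQ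
  obtain ⟨R₁, hR₁, hGR₁, hQR₁, hmin⟩ := exists_hull hFfin hQ hFQ halg
  have hGC : Gal F (C ⊔ F) := hTC.base F hTF
  set R : IntermediateField k Ω := R₁ ⊔ (C ⊔ F) with hRdef
  have hGR : Gal F R := hGR₁.sup hGC
  have hR : Fin' R := fin_sup hR₁ (fin_sup hC hFfin)
  have hQR : Q ≤ R := hQR₁.trans le_sup_left
  have hR₁R : R₁ ≤ R := le_sup_left
  have hCR : C ≤ R := (le_sup_left.trans le_sup_right : C ≤ R₁ ⊔ (C ⊔ F))
  have hZQ' : Z ≤ X ⊔ Q := Fact.out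
  have hZR' : Z ≤ X ⊔ R := hZQ'.trans (sup_le_sup_left hQR X)
  haveI fMR : Fact (M ≤ X ⊔ R) := ⟨hMZ.trans hZR'⟩
  haveI fWR : Fact (P ⊔ Y ≤ X ⊔ R) := ⟨(le_sup_right : P ⊔ Y ≤ Z).trans hZR'⟩
  haveI fZR : Fact (Z ≤ X ⊔ R) := ⟨hZR'⟩
  have hfXR : Fin' (X ⊔ R) := fin_sup hX hR
  have hfXQ : Fin' (X ⊔ Q) := fin_sup hX hQ
  have hZR : Gal Z (X ⊔ R) := by
    have h1 := gal_sup_base hGR hFZ
    have h2 : Z ⊔ R = X ⊔ R := le_antisymm (sup_le hZR' le_sup_right)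
      (sup_le_sup_right hXZ R)
    rwa [h2] at h1
  have hZQ : Gal Z (X ⊔ Q) := by
    have h1 := gal_sup_base hG hEZ
    have h2 : Z ⊔ Q = X ⊔ Q := le_antisymm (sup_le hZQ' le_sup_right)
      (sup_le_sup_right hXZ Q)
    rwa [h2] at h1
  refine ⟨R, hR, hGR, hQR, hCR, fMR, fWR, fZR, ?_⟩
  intro W j w hbad
  haveI := (hZR.finite hfXR).1
  haveI := (hZR.finite hfXR).2
  obtain ⟨σ₀, hσ₀, hne⟩ : ∃ σ : (X ⊔ R : IntermediateField k Ω) ≃ₐ[Z]
      (X ⊔ R : IntermediateField k Ω), (∀ z, w z ≤ 1 → w (σ z - z) < 1) ∧ σ ≠ 1 := by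
    by_contra hcon
    push Not at hcon
    exact hbad.ram (Br.unr_of_inertia hcon)
  obtain ⟨σ, hσZ, hσ⟩ := hZR.exists_ext hfXR σ₀
  have hσR : Stab σ (X ⊔ R) := hZR.stab σ hσZ
  have hσ' : ∀ z : (X ⊔ R : IntermediateField k Ω), w z ≤ 1 → w (⟨σ z, hσR z z.2⟩ - z) < 1 :=
    fun z hz => by
      have h1 : (⟨σ z, hσR z z.2⟩ : (X ⊔ R : IntermediateField k Ω)) = σ₀ z := Subtype.ext (hσ z)
      rw [h1]
      exact hσ₀ z hz
  -- `σ` is the identity on the elements algebraic over `M`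
  have hσM : ∀ x ∈ X ⊔ R, IsAlgebraic M x → σ x = x := fun x hx hxM =>
    fixes_of_inertia hbad.triv (hσZ.mono hMZ) hσR hσ' hx hxM
  have hσC : Fixes σ C := fun x hx =>
    hσM x ((hCR.trans le_sup_right) hx) (alg_mono hTM (hTC.alg x hx))
  -- `σ` is not the identity on some conjugate of `Q`
  obtain ⟨τ, hτ, x, hx, hxne⟩ : ∃ τ : Ω ≃ₐ[k] Ω, Fixes τ F ∧ ∃ x ∈ Q, σ (τ x) ≠ τ x := by
    by_contra hcon
    push Not at hcon
    apply hne
    have h1 : R₁ ≤ fixF79 σ := hmin (fixF79 σ) fun τ hτ x hx => hcon τ hτ x hx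
    have h2 : R ≤ fixF79 σ := sup_le h1 (sup_le (fixes_iff79.1 hσC) (hσZ.mono hFZ))
    have h3 : X ⊔ R ≤ fixF79 σ := sup_le (hσZ.mono hXZ) h2
    ext z
    rw [← hσ z]
    exact h3 z.2
  -- the algebraic closure of `V·Y` in `P·Y` and its Galois hull
  have hVYA : V ⊔ Y ≤ P ⊔ Y := sup_le_sup_right hVP Y
  have hfA : Fin' (P ⊔ Y) := fin_sup hfP hY
  have hfVY : Fin' (V ⊔ Y) := fin_sup h.finV hY
  set D : IntermediateField k Ω := (P ⊔ Y) ⊓ cl (V ⊔ Y) with hD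
  have hDA : D ≤ P ⊔ Y := inf_le_left
  have hVYD : V ⊔ Y ≤ D := le_inf hVYA le_cl
  have hfD : Fin' D := fin_le hfA hDA
  have hDalg : ∀ x ∈ D, IsAlgebraic (V ⊔ Y : IntermediateField k Ω) x := fun x hx =>
    mem_cl.1 hx.2
  obtain ⟨P₁, hP₁, hGP₁, hDP₁, -⟩ := exists_hull hfVY hfD hVYD hDalg
  obtain ⟨γ, hγ, hγP⟩ := h.exists_liftY hGP₁ hP₁ hY
    (hi.mono_left (fin_sup h.fgM hfP) hY (sup_le_sup_left hPP M)) τ.symm (hτ.symm79.mono hVYF)
  have hγE : Fixes γ E := hγ.mono le_sup_left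
  have hγY : Fixes γ Y := hγ.mono le_sup_right
  set ρ : Ω ≃ₐ[k] Ω := γ.trans τ with hρ
  have hρa : ∀ y, ρ y = τ (γ y) := fun _ => rfl
  have hρs : ∀ y, ρ.symm y = γ.symm (τ.symm y) := fun _ => rfl
  have hρD : Fixes ρ D := fun y hy => by
    rw [hρa, hγP y (hDP₁ hy), AlgEquiv.apply_symm_apply]
  have hρR : ∀ y ∈ Q, ρ y ∈ R₁ := fun y hy => hGR₁.stab τ hτ _ (hQR₁ (hG.stab γ hγ y hy))
  -- dimensions
  have hIMW : Indep M (P ⊔ Y) := by
    have h1 := hi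
    have h2 := hMP
    have h3 : Indep P Y := hi.mono_left (fin_sup h.fgM hfP) hY le_sup_right
    unfold Indep at h1 h2 h3 ⊢
    rw [sup_assoc] at h1
    omega
  have e1 : dimension k (M ⊔ (P ⊔ Y) : IntermediateField k Ω) =
      dimension k M + dimension k (P ⊔ Y : IntermediateField k Ω) := hIMW
  have hDd : dimension k D = dimension k (V ⊔ Y : IntermediateField k Ω) := dim_eq hfD hVYD hDalg
  have iMVY : Indep M (V ⊔ Y) := hIMW.mono h.fgM hfA le_rfl hVYA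
  have e2 : dimension k (M ⊔ (V ⊔ Y) : IntermediateField k Ω) =
      dimension k M + dimension k (V ⊔ Y : IntermediateField k Ω) := iMVY
  have hDcl : D ≤ cl F := (inf_le_right : D ≤ cl (V ⊔ Y)).trans (cl_mono hVYF)
  set N : IntermediateField k Ω := Q ⊔ D with hNdef
  set N' : IntermediateField k Ω := N.map (ρ : Ω →ₐ[k] Ω) with hN'def
  have hfN : Fin' N := fin_sup hQ hfD
  have hN'eq : N' = Q.map (ρ : Ω →ₐ[k] Ω) ⊔ D := by
    rw [hN'def, hNdef, IntermediateField.map_sup]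
    congr 1
    refine le_antisymm ?_ ?_
    · rintro _ ⟨y, hy, rfl⟩
      show ρ y ∈ D
      rw [hρD y hy]
      exact hy
    · intro y hy
      exact ⟨y, hy, hρD y hy⟩
  have hN'le : N' ≤ R ⊔ D := by
    rw [hN'eq]
    refine sup_le_sup_right ?_ D
    rintro _ ⟨y, hy, rfl⟩
    exact hR₁R (hρR y hy)
  have hfN' : Fin' N' := fin_le (fin_sup hR hfD) hN'le
  have hMF : M ⊔ (V ⊔ Y) ≤ cl F := sup_le (hMcl.trans (cl_mono hTF)) (hVYF.trans le_cl)
  have hFM : F ≤ M ⊔ (V ⊔ Y) := sup_le_sup_right hTM _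
  have dF : dimension k (M ⊔ (V ⊔ Y) : IntermediateField k Ω) = dimension k F :=
    dim_eq (fin_sup h.fgM hfVY) hFM (alg_iff.2 hMF)
  have dN : dimension k N = dimension k F :=
    dim_eq hfN (hFQ.trans le_sup_left) (alg_iff.2 (sup_le hQcl hDcl))
  have hFN' : F ≤ N' := by
    intro y hy
    -- `y = τ (γ (γ⁻¹ y))`
    refine ⟨γ.symm y, (le_sup_left : Q ≤ N) (hG.stab γ.symm hγ.symm79 y (hFQ hy)), ?_⟩
    show ρ (γ.symm y) = y
    rw [hρa, AlgEquiv.apply_symm_apply, hτ y hy]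
  have hRcl : R ≤ cl F := alg_iff.1 hGR.alg
  have dN' : dimension k N' = dimension k F :=
    dim_eq hfN' hFN' (alg_iff.2 (hN'le.trans (sup_le hRcl hDcl)))
  have hclZ : ∀ K : IntermediateField k Ω, F ≤ K → K ≤ cl F → Fin' K →
      dimension k (K ⊔ (P ⊔ Y) : IntermediateField k Ω) =
        dimension k M + dimension k (P ⊔ Y : IntermediateField k Ω) := by
    intro K hFK hKF hK
    have h1 : dimension k (K ⊔ (P ⊔ Y) : IntermediateField k Ω) =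
        dimension k (F ⊔ (P ⊔ Y) : IntermediateField k Ω) :=
      dim_eq (fin_sup hK hfA) (sup_le_sup_right hFK _)
        (alg_iff.2 (sup_le (hKF.trans (cl_mono le_sup_left)) (le_sup_right.trans le_cl)))
    have h2 : dimension k (M ⊔ (P ⊔ Y) : IntermediateField k Ω) =
        dimension k (F ⊔ (P ⊔ Y) : IntermediateField k Ω) :=
      dim_eq (fin_sup h.fgM hfA) (sup_le hFZ le_sup_right)
        (alg_iff.2 (sup_le (hMcl.trans (cl_mono (hTF.trans le_sup_left)))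
          (le_sup_right.trans le_cl)))
    omega
  obtain ⟨ψ, hψA, hψN⟩ := exists_amalg (D := D) (N := N) (N' := N') (A := P ⊔ Y) hfN hfN' hfA
    le_sup_right hDA (fun x hx hxD => ⟨hx, cl_le (inf_le_right : D ≤ cl (V ⊔ Y)) (mem_cl.2 hxD)⟩)
    ρ hρD (fun x hx => ⟨x, hx, rfl⟩)
    (fun x hx => by
      obtain ⟨y, hy, rfl⟩ := hx
      have h1 : ρ.symm ((ρ : Ω →ₐ[k] Ω) y) = y := ρ.symm_apply_apply y
      rw [RingHom.coe_coe] at *
      rw [h1]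
      exact hy)
    (by
      have h1 := hclZ N (hFQ.trans le_sup_left) (sup_le hQcl hDcl) hfN
      omega)
    (by
      have h1 := hclZ N' hFN' (hN'le.trans (sup_le hRcl hDcl)) hfN'
      omega)
  have hψa : ∀ y ∈ Q, ψ y = τ (γ y) := fun y hy => hψN y ((le_sup_left : Q ≤ N) hy)
  have hψX : Fixes ψ X := hψA.mono (hXP.trans le_sup_left)
  have hψQ : ∀ y ∈ X ⊔ Q, ψ y ∈ X ⊔ R := by
    have h1 : (X ⊔ Q).map (ψ : Ω →ₐ[k] Ω) ≤ X ⊔ R := by
      rw [IntermediateField.map_sup]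
      refine sup_le ?_ ?_
      · rintro _ ⟨y, hy, rfl⟩
        show ψ y ∈ X ⊔ R
        rw [hψX y hy]
        exact (le_sup_left : X ≤ X ⊔ R) hy
      · rintro _ ⟨y, hy, rfl⟩
        show ψ y ∈ X ⊔ R
        rw [hψa y hy]
        exact (le_sup_right : R ≤ X ⊔ R) (hR₁R (hρR y hy))
    exact fun y hy => h1 ⟨y, hy, rfl⟩
  have hψsF : ∀ y ∈ F, ψ.symm y ∈ Q := fun y hy => by
    have h1 : γ.symm y ∈ Q := hG.stab γ.symm hγ.symm79 y (hFQ hy)
    have h2 : ψ (γ.symm y) = y := by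
      rw [hψa _ h1, AlgEquiv.apply_symm_apply, hτ y hy]
    have h3 : ψ.symm y = γ.symm y := by rw [AlgEquiv.symm_apply_eq, h2]
    rw [h3]
    exact h1
  have hψF : ∀ y ∈ X ⊔ F, ψ.symm y ∈ X ⊔ Q := by
    have h1 : (X ⊔ F).map (ψ.symm : Ω →ₐ[k] Ω) ≤ X ⊔ Q := by
      rw [IntermediateField.map_sup]
      refine sup_le ?_ ?_
      · rintro _ ⟨y, hy, rfl⟩
        show ψ.symm y ∈ X ⊔ Q
        rw [hψX.symm79 y hy]
        exact (le_sup_left : X ≤ X ⊔ Q) hy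
      · rintro _ ⟨y, hy, rfl⟩
        exact (le_sup_right : Q ≤ X ⊔ Q) (hψsF y hy)
    exact fun y hy => h1 ⟨y, hy, rfl⟩
  have hψM : ∀ y ∈ M, IsAlgebraic M (ψ y) := fun y hy => by
    have h1 : γ y ∈ M := h.stabM γ hγE y hy
    rw [hψa y (hMQ hy)]
    exact alg_mono hTM ((hτ.mono hTF).isAlgebraic (hMT _ h1))
  haveI fFR : Fact (X ⊔ F ≤ X ⊔ R) := ⟨sup_le_sup_left hGR.le X⟩
  refine ⟨resHom ψ hψQ, fun b => Subtype.ext (hψA b b.2), fun y => ?_, ?_⟩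
  · rw [← isAlgebraic_algebraMap_iff (A := Ω)
      (algebraMap (X ⊔ R : IntermediateField k Ω) Ω).injective]
    exact hψM y y.2
  have hXRF : ∀ y ∈ X ⊔ R, IsAlgebraic (X ⊔ F : IntermediateField k Ω) y := alg_iff.2
    (sup_le (le_sup_left.trans le_cl) (hRcl.trans (cl_mono le_sup_right)))
  refine bad_comap2 (F := X ⊔ F) hfXR hfXQ le_rfl hIMW hZQ hXRF ψ hψQ hψF hψM hψA hbad hσZ hσR hσ'
    hσM (x := γ.symm x) ((le_sup_right : Q ≤ X ⊔ Q) (hG.stab γ.symm hγ.symm79 x hx)) ?_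
  have h1 : ψ (γ.symm x) = τ x := by
    rw [hψa _ (hG.stab γ.symm hγ.symm79 x hx), AlgEquiv.apply_symm_apply]
  rw [h1]
  exact hxne

end Pf72953.Tow
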