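import Mathlib
import Pool.Agent.Lib.Pf72953z.CondD
import Pool.Agent.Lib.Pf72953n.FibDef
import Pool.Agent.Lib.Pf72953z.Plus3

/-!
Isotrivial fibre spaces whose fibre has factorial charts, over an arbitrary fibre space `X` over `V`, `κ(X) ≥ 0`.
-/

set_option autoImplicit false
set_option linter.style.haveILetI false

open scoped WithZero
open Pf72953 Pf72953.Mov

namespace Pf72953.Tow

variable {k Ω : Type*} [Field k] [Field Ω] [Algebra k Ω] [CharZero k] [IsAlgClosed k]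
  [IsAlgClosed Ω]

/-- the estimate of a step: `κ(R₁/P·Y) + κ(B) + κ(Q'/M·B·Y) + dim Y ≤ κ(X·Q)`, `Q' = X·Q·M·P₀` -/
theorem rigid_coreF {B V X E M P₀ P : IntermediateField k Ω} (hO : OverC B V X) (hX : Fin' X)
    (h : Step V E M P₀) (hP : P = X ⊔ P₀) (hMP : Indep M P) (hXk : KodairaGE k X 0)
    (hM : KodairaGE k M 0) (hMM : IsFactorial M)
    {Y Q Q₀ R₁ : IntermediateField k Ω} (hY : CurveProd Y) (hEY : Indep (X ⊔ E) Y)
    (hQ : Fin' Q) (hG : Gal (E ⊔ Y) Q) (hQ₀ : Q₀ = Q ⊔ (M ⊔ P₀)) (hR₁ : Fin' R₁)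
    (hG₁ : Gal (M ⊔ (P ⊔ Y)) R₁)
    [Fact (M ≤ M ⊔ (P ⊔ Y))] [Fact (P ⊔ Y ≤ M ⊔ (P ⊔ Y))] [Fact (M ≤ X ⊔ Q₀)]
    [Fact (P ⊔ Y ≤ X ⊔ Q₀)] [Fact (M ⊔ (P ⊔ Y) ≤ X ⊔ Q₀)]
    (hC₁ : ∃ (_ : Fact (M ≤ R₁)) (_ : Fact (P ⊔ Y ≤ R₁)) (_ : Fact (M ⊔ (P ⊔ Y) ≤ R₁)),
        ∀ (MM : SmoothModel k M) (i : MM.I) (w : Valuation R₁ ℤᵐ⁰),
          Br.Bad k MM (P ⊔ Y : IntermediateField k Ω) (M ⊔ (P ⊔ Y) : IntermediateField k Ω) i w →
          ∃ φ : (X ⊔ Q₀ : IntermediateField k Ω) →ₐ[k] R₁,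
          (∀ y : M, φ (algebraMap M (X ⊔ Q₀ : IntermediateField k Ω) y) = algebraMap M R₁ y) ∧
          (∀ b : (P ⊔ Y : IntermediateField k Ω), IsAlgebraic (P ⊔ Y : IntermediateField k Ω)
            (φ (algebraMap (P ⊔ Y : IntermediateField k Ω) (X ⊔ Q₀ : IntermediateField k Ω) b))) ∧
          Br.Bad k MM (P ⊔ Y : IntermediateField k Ω) (M ⊔ (P ⊔ Y) : IntermediateField k Ω) i
            (w.comap (φ : (X ⊔ Q₀ : IntermediateField k Ω) →+* R₁)))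
    {a b b' : ℕ} (hb : KodairaGE k B b) (ha : KGE (P ⊔ Y) R₁ a)
    (hb' : KGE (M ⊔ (B ⊔ Y)) (X ⊔ Q₀) b') :
    KodairaGE k (X ⊔ Q : IntermediateField k Ω) (a + (b + b' + dimension k Y)) := by
  have hYf : Fin' Y := hY.fin
  have hVX : V ≤ X := hO.2.1
  have hfP₀ : Fin' P₀ := h.fgP
  have hfP : Fin' P := hP ▸ fin_sup hX hfP₀
  have hPP : P₀ ≤ P := hP ▸ le_sup_right
  have hXP : X ≤ P := hP ▸ le_sup_left
  have hPcl : P ≤ cl X := hP ▸ sup_le le_cl ((alg_iff.1 h.gal.alg).trans (cl_mono hVX))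
  have h' : Step ((X ⊔ E) ⊓ P) (X ⊔ E) M P := by
    subst hP
    exact h.lift hX hMP
  have hB : Fin' B := fin_le hX hO.1
  -- `Y` is independent of `M·P`
  have hi : Indep (M ⊔ P) Y := hEY.up h'.finN hYf h'.le (alg_iff.1 h'.alg)
  have hfQ₀ : Fin' Q₀ := hQ₀ ▸ fin_sup hQ h.finN
  have hEYQ : E ⊔ Y ≤ Q := hG.le
  have hEQ : E ≤ Q := le_sup_left.trans hEYQ
  have hYQ : Y ≤ Q := le_sup_right.trans hEYQ
  have hQQ₀ : Q ≤ Q₀ := hQ₀ ▸ le_sup_left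
  have hNQ₀ : M ⊔ P₀ ≤ Q₀ := hQ₀ ▸ le_sup_right
  have hMQ₀ : M ≤ Q₀ := le_sup_left.trans hNQ₀
  have hP₀Q₀ : P₀ ≤ Q₀ := le_sup_right.trans hNQ₀
  have hYQ₀ : Y ≤ Q₀ := hYQ.trans hQQ₀
  have hVP : V ≤ P := hVX.trans hXP
  have hBX : B ≤ X := hO.1
  have hBP : B ≤ P := hBX.trans hXP
  -- `Q₀/E·Y` is Galois
  have hG₀ : Gal (E ⊔ Y) Q₀ := by
    have h1 : Gal (E ⊔ Y) ((M ⊔ P₀) ⊔ (E ⊔ Y)) := h.galN.base (E ⊔ Y) le_sup_left
    have h2 := hG.sup h1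
    have h3 : Q ⊔ ((M ⊔ P₀) ⊔ (E ⊔ Y)) = Q₀ := by
      rw [hQ₀, ← sup_assoc]
      exact sup_eq_left.2 (hEYQ.trans le_sup_left)
    rwa [h3] at h2
  -- the fields
  set W : IntermediateField k Ω := P ⊔ Y with hW
  set Z : IntermediateField k Ω := M ⊔ W with hZ
  set Q' : IntermediateField k Ω := X ⊔ Q₀ with hQ'
  have hfQ' : Fin' Q' := fin_sup hX hfQ₀
  have hZQ' : Z ≤ Q' := Fact.out
  have hfW : Fin' W := fin_sup hfP hYf
  have hfZ : Fin' Z := fin_sup h.fgM hfW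
  -- the curves
  obtain ⟨T, C, hTM, hTC, hC, hGC, hMT⟩ := exists_curveProd h.fgM
  have hMT' : M ≤ cl T := alg_iff.1 hMT
  have hCT : C ≤ cl T := alg_iff.1 hGC.alg
  obtain ⟨R₀, hR₀, hGR, hQR, hCR, g1, g2, g3, hC₂⟩ := cond1XD h hVX hX hP hMP hYf hi hfQ₀ hG₀ hNQ₀
    hC.fin hTM hMT hGC
  set R : IntermediateField k Ω := X ⊔ R₀ with hRdef
  have hR : Fin' R := fin_sup hX hR₀
  have hQ'R : Q' ≤ R := sup_le_sup_left hQR X
  have hTVY : T ⊔ (V ⊔ Y) ≤ Q₀ := sup_le (hTM.trans hMQ₀) (sup_le (h.le_P.trans hP₀Q₀) hYQ₀)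
  have halgR : ∀ x ∈ R, IsAlgebraic Q' x :=
    alg_iff.2 (sup_le (le_sup_left.trans le_cl)
      ((alg_iff.1 hGR.alg).trans (cl_mono (hTVY.trans le_sup_right))))
  -- dimensions
  have e3 : dimension k (M ⊔ P : IntermediateField k Ω) = dimension k M + dimension k P := hMP
  have e2 : dimension k ((M ⊔ P) ⊔ Y : IntermediateField k Ω) =
      dimension k (M ⊔ P : IntermediateField k Ω) + dimension k Y := hi
  have iPY : Indep P Y := hi.mono_left h'.finN hYf le_sup_right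
  have e4 : dimension k W = dimension k P + dimension k Y := iPY
  have hZ' : Z = (M ⊔ P) ⊔ Y := by rw [hZ, hW, sup_assoc]
  have iMW : Indep M W := by
    show dimension k Z = _
    rw [hZ']
    omega
  have iMBY : Indep M (B ⊔ Y) := iMW.mono h.fgM hfW le_rfl (sup_le_sup_right hBP Y)
  have iMY : Indep M Y := iMBY.mono h.fgM (fin_sup hB hYf) le_rfl le_sup_right
  have iCY : Indep C Y := (iMY.mono_left h.fgM hYf hTM).up hC.fin hYf hTC hCT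
  have iPMY : Indep P (M ⊔ Y) := by
    have e5 : dimension k (M ⊔ Y : IntermediateField k Ω) = dimension k M + dimension k Y := iMY
    have e6 : P ⊔ (M ⊔ Y) = (M ⊔ P) ⊔ Y := by rw [← sup_assoc, sup_comm P M]
    unfold Indep
    rw [e6]
    omega
  have iXCY : Indep X (C ⊔ Y) :=
    ((iPMY.mono hfP (fin_sup h.fgM hYf) hXP (sup_le_sup_right hTM Y)).symm.up
      (fin_sup hC.fin hYf) hX (sup_le_sup_right hTC Y)
      (sup_le (hCT.trans (cl_mono le_sup_left)) (le_sup_right.trans le_cl))).symm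
  have hMdim : dimension k M = dimension k T := dim_eq h.fgM hTM hMT
  have hCdim : dimension k C = dimension k T := dim_eq hC.fin hTC hGC.alg
  have hCY : dimension k (C ⊔ Y : IntermediateField k Ω) = dimension k C + dimension k Y := iCY
  -- the inequality for `X`
  have hb1 : KGE (M ⊔ (B ⊔ Y)) R b' := kge_pull hR hQ'R halgR hb'
  have hYR : Y ≤ R := (hYQ₀.trans le_sup_right).trans hQ'R
  have hBR : B ≤ R := hBX.trans le_sup_left
  have hMR : M ≤ R := (hMQ₀.trans le_sup_right).trans hQ'R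
  have hCR' : C ≤ R := hCR.trans le_sup_right
  have hb0 : KGE (T ⊔ (B ⊔ Y)) R b' :=
    (kge_base hR (sup_le_sup_right hTM _) (sup_le hMR (sup_le hBR hYR))
      (alg_iff.2 (sup_le (hMT'.trans (cl_mono le_sup_left)) (le_sup_right.trans le_cl)))).2 hb1
  have hb2 : KGE (B ⊔ (C ⊔ Y)) R b' :=
    (kge_base hR (sup_le (hTC.trans (le_sup_left.trans le_sup_right))
      (sup_le le_sup_left (le_sup_right.trans le_sup_right)))
      (sup_le hBR (sup_le hCR' hYR))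
      (alg_iff.2 (sup_le ((le_sup_left.trans le_sup_right).trans le_cl)
        (sup_le (hCT.trans (cl_mono le_sup_left))
          ((le_sup_right.trans le_sup_right).trans le_cl))))).1 hb0
  have hS : KodairaGE k R (b + b' + dimension k (C ⊔ Y : IntermediateField k Ω)) :=
    hO.2.2 (C ⊔ Y) R₀ (hC.sup hY iCY) iXCY hR₀
      (hGR.of_le (sup_le (hTC.trans (le_sup_left.trans le_sup_right))
        (sup_le le_sup_left (le_sup_right.trans le_sup_right)))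
        (sup_le ((h.le_P.trans hP₀Q₀).trans hQR) (sup_le hCR (hYQ₀.trans hQR)))) b b' hb hb2
  have hS' : KGE M R (b + b' + dimension k Y) :=
    (kge_easy hR hMR hS).mono (by omega)
  have hEYZ : E ⊔ Y ≤ Z := by
    rw [hZ']
    exact sup_le_sup_right (h.le.trans (sup_le_sup_left hPP M)) Y
  have hGZ : Gal Z Q' := by
    have h1 := gal_sup_base hG₀ hEYZ
    have h2 : Z ⊔ Q₀ = Q' := le_antisymm (sup_le hZQ' le_sup_right)
      (sup_le_sup_right ((hXP.trans le_sup_left).trans le_sup_right) Q₀)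
    rwa [h2] at h1
  have hGZR : Gal Z R := by
    have hTZ : T ⊔ (V ⊔ Y) ≤ Z := sup_le (hTM.trans le_sup_left)
      ((sup_le_sup_right hVP Y).trans le_sup_right)
    have h1 := gal_sup_base hGR hTZ
    have h2 : Z ⊔ R₀ = R := le_antisymm (sup_le (hZQ'.trans hQ'R) le_sup_right)
      (sup_le_sup_right ((hXP.trans le_sup_left).trans le_sup_right) R₀)
    rwa [h2] at h1
  -- the product formula
  have hplus : KodairaGE k Q' (a + (b + b' + dimension k Y)) := by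
    haveI : Algebra.EssFiniteType k W := hfW
    haveI : Algebra.EssFiniteType k M := h.fgM
    haveI : Algebra.EssFiniteType k Z := hfZ
    haveI : Algebra.EssFiniteType k Q' := hfQ'
    obtain ⟨g1', g2', g3', hC₁⟩ := hC₁
    obtain ⟨i1, i2⟩ := hGZ.finite hfQ'
    obtain ⟨i3, i4⟩ := hGZR.finite hR
    obtain ⟨i5, i6⟩ := hG₁.finite hR₁
    have hdim : dimension k W + dimension k M = dimension k Z := by
      rw [hZ']
      omega
    have hcomp : Twr.IsCompositum k W M Z := isCompositum (by rw [sup_comm])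
    have hY0 : KodairaGE k Y 0 := Diag.ge_zero' hY.kod
    have hPk : KodairaGE k P 0 := kge_pull' hfP hXP (alg_iff.2 hPcl) hXk
    have hW0 : KodairaGE k W 0 := kge_prod hfP hYf iPY hPk hY0
    obtain ⟨hk, MM, hF⟩ := hMM
    have hmv := Osp.wMoves_of_factorial (k := k) (B := W) (Y := M) (Z := Z) (Q := Q') hk hF hcomp
      hdim
    have key := Osp.plus3 (k := k) (B := W) (Y := M) (Z := Z) (Q := Q') (R₁ := R₁) (R₂ := R) MM
      hcomp hdim (Diag.ne_bot_of_ge hM) (Diag.ne_bot_of_ge hW0) hmv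
      (fun i w hw => hC₁ MM i w hw) (fun w hw ht hr => by
        obtain ⟨φ, h1, h2, h3, -⟩ := hC₂ w ⟨hw, ht, hr⟩
        exact ⟨φ, h1, h2, h3.div, h3.ram⟩)
    obtain ⟨_, ha'⟩ := ha
    obtain ⟨_, hS''⟩ := hS'
    refine kge_of_le (le_trans ?_ key)
    refine le_trans (le_of_eq ?_) (add_le_add (le_iSup₂_of_le a ha' le_rfl)
      (le_iSup₂_of_le (b + b' + dimension k Y) hS'' le_rfl))
    push_cast
    rfl
  -- descend
  have hQ'' : Q' = (X ⊔ Q) ⊔ (M ⊔ P) := by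
    rw [hQ', hQ₀, hP]
    refine le_antisymm (sup_le (le_sup_left.trans le_sup_left) (sup_le
      (le_sup_right.trans le_sup_left)
      ((sup_le_sup_left le_sup_right M).trans le_sup_right)))
      (sup_le (sup_le_sup_left le_sup_left X) (sup_le ?_ (sup_le le_sup_left ?_)))
    · exact (le_sup_left.trans le_sup_right).trans le_sup_right
    · exact (le_sup_right.trans le_sup_right).trans le_sup_right
  rw [hQ''] at hplus
  have hG₂ : Gal ((X ⊔ E) ⊔ Y) (X ⊔ Q) := by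
    have h1 := gal_sup_base hG (sup_le_sup_right (le_sup_right : E ≤ X ⊔ E) Y)
    have h2 : ((X ⊔ E) ⊔ Y) ⊔ Q = X ⊔ Q := le_antisymm
      (sup_le (sup_le (sup_le le_sup_left (hEQ.trans le_sup_right)) (hYQ.trans le_sup_right))
        le_sup_right) (sup_le_sup_right (le_sup_left.trans le_sup_left) Q)
    rwa [h2] at h1
  have hX₁ : KodairaGE k ((X ⊔ E) ⊓ P : IntermediateField k Ω) 0 :=
    kge_pull' h'.finV (le_inf le_sup_left hXP)
      (alg_iff.2 ((inf_le_right : (X ⊔ E) ⊓ P ≤ P).trans hPcl)) hXk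
  exact descend h' hYf hi (fin_sup hX hQ) hG₂ hX₁ hM (Diag.ge_zero' hY.kod) hplus

/-- a rigid isotrivial fibre space over `X`, with a growing base -/
theorem OverC.growF {B V X E M P₀ P M₀ : IntermediateField k Ω} (hO : OverC B V X) (hX : Fin' X)
    (hM₀ : M₀ = ⊥ ∨ StableC M₀ M) (h : Step V E M P₀) (hP : P = X ⊔ P₀) (hMP : Indep M P)
    (hM₀E : M₀ ≤ E) (hXk : KodairaGE k X 0)
    (hM : KodairaGE k M 0) (hMM : IsFactorial M) : OverC (B ⊔ M₀) E (X ⊔ E) := by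
  refine ⟨sup_le (hO.1.trans le_sup_left) (hM₀E.trans le_sup_right), le_sup_right, ?_⟩
  intro Y Q hY hEY hQ hG b c hb hc
  have hYf : Fin' Y := hY.fin
  have hE : Fin' E := h.finE
  have hVX : V ≤ X := hO.2.1
  have hEQ : E ≤ Q := le_sup_left.trans hG.le
  have hYQ : Y ≤ Q := le_sup_right.trans hG.le
  have hXEQ : (X ⊔ E) ⊔ Q = X ⊔ Q := by rw [sup_assoc, sup_eq_right.2 hEQ]
  rw [hXEQ] at hc ⊢
  have hfXQ : Fin' (X ⊔ Q) := fin_sup hX hQ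
  have hfP₀ : Fin' P₀ := h.fgP
  have hfP : Fin' P := hP ▸ fin_sup hX hfP₀
  have hPP : P₀ ≤ P := hP ▸ le_sup_right
  have hXP : X ≤ P := hP ▸ le_sup_left
  have h' : Step ((X ⊔ E) ⊓ P) (X ⊔ E) M P := by
    subst hP
    exact h.lift hX hMP
  have hB : Fin' B := fin_le hX hO.1
  have hBX : B ≤ X := hO.1
  have hBP : B ≤ P := hBX.trans hXP
  have hi : Indep (M ⊔ P) Y := hEY.up h'.finN hYf h'.le (alg_iff.1 h'.alg)
  obtain ⟨Q₀, hQ₀⟩ : ∃ Q₀ : IntermediateField k Ω, Q₀ = Q ⊔ (M ⊔ P₀) := ⟨_, rfl⟩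
  have hfQ₀ : Fin' Q₀ := hQ₀ ▸ fin_sup hQ h.finN
  have hQQ₀ : Q ≤ Q₀ := hQ₀ ▸ le_sup_left
  have hNQ₀ : M ⊔ P₀ ≤ Q₀ := hQ₀ ▸ le_sup_right
  have hMQ₀ : M ≤ Q₀ := le_sup_left.trans hNQ₀
  have hP₀Q₀ : P₀ ≤ Q₀ := le_sup_right.trans hNQ₀
  have hYQ₀ : Y ≤ Q₀ := hYQ.trans hQQ₀
  have hG₀ : Gal (E ⊔ Y) Q₀ := by
    have h1 : Gal (E ⊔ Y) ((M ⊔ P₀) ⊔ (E ⊔ Y)) := h.galN.base (E ⊔ Y) le_sup_left
    have h2 := hG.sup h1
    have h3 : Q ⊔ ((M ⊔ P₀) ⊔ (E ⊔ Y)) = Q₀ := by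
      rw [hQ₀, ← sup_assoc]
      exact sup_eq_left.2 (hG.le.trans le_sup_left)
    rwa [h3] at h2
  obtain ⟨Q', hQ'⟩ : ∃ Q' : IntermediateField k Ω, Q' = X ⊔ Q₀ := ⟨_, rfl⟩
  have hfQ' : Fin' Q' := hQ' ▸ fin_sup hX hfQ₀
  have hQ₀Q' : Q₀ ≤ Q' := hQ' ▸ le_sup_right
  have hXQ' : X ≤ Q' := hQ' ▸ le_sup_left
  have hQQ' : X ⊔ Q ≤ Q' := sup_le hXQ' (hQQ₀.trans hQ₀Q')
  have hMQ' : M ≤ Q' := hMQ₀.trans hQ₀Q'
  have hPQ' : P ≤ Q' := hP ▸ sup_le hXQ' (hP₀Q₀.trans hQ₀Q')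
  have hYQ' : Y ≤ Q' := hYQ₀.trans hQ₀Q'
  have hBQ' : B ≤ Q' := hBX.trans hXQ'
  -- dimensions
  have e2 : dimension k ((M ⊔ P) ⊔ Y : IntermediateField k Ω) =
      dimension k (M ⊔ P : IntermediateField k Ω) + dimension k Y := hi
  have e3 : dimension k (M ⊔ P : IntermediateField k Ω) = dimension k M + dimension k P := hMP
  have iPY : Indep P Y := hi.mono_left h'.finN hYf le_sup_right
  have hfPY : Fin' (P ⊔ Y) := fin_sup hfP hYf
  have e4 : dimension k (P ⊔ Y : IntermediateField k Ω) = dimension k P + dimension k Y := iPY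
  have hZ' : M ⊔ (P ⊔ Y) = (M ⊔ P) ⊔ Y := (sup_assoc _ _ _).symm
  have iMW : Indep M (P ⊔ Y) := by
    show dimension k (M ⊔ (P ⊔ Y) : IntermediateField k Ω) = _
    rw [hZ']
    omega
  have e8 : dimension k (M ⊔ (P ⊔ Y) : IntermediateField k Ω) =
    dimension k M + dimension k (P ⊔ Y : IntermediateField k Ω) := iMW
  have iMBY : Indep M (B ⊔ Y) := iMW.mono h.fgM hfPY le_rfl (sup_le_sup_right hBP Y)
  have e6 : dimension k (M ⊔ (B ⊔ Y) : IntermediateField k Ω) =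
    dimension k M + dimension k (B ⊔ Y : IntermediateField k Ω) := iMBY
  -- the field `Z = M·P·Y`
  have hWQ' : P ⊔ Y ≤ Q' := sup_le hPQ' hYQ'
  have hZQ' : M ⊔ (P ⊔ Y) ≤ Q' := sup_le hMQ' hWQ'
  haveI f1 : Fact (M ≤ M ⊔ (P ⊔ Y)) := ⟨le_sup_left⟩
  haveI f2 : Fact (P ⊔ Y ≤ M ⊔ (P ⊔ Y)) := ⟨le_sup_right⟩
  have hEZ : E ⊔ Y ≤ M ⊔ (P ⊔ Y) := by
    rw [hZ']
    exact sup_le_sup_right (h.le.trans (sup_le_sup_left hPP M)) Y
  have hGZ : Gal (M ⊔ (P ⊔ Y)) Q' := by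
    have h1 := gal_sup_base hG₀ hEZ
    have h2 : (M ⊔ (P ⊔ Y)) ⊔ Q₀ = Q' := by
      rw [hQ'] at hZQ' ⊢
      exact le_antisymm (sup_le hZQ' le_sup_right)
        (sup_le_sup_right ((hXP.trans le_sup_left).trans le_sup_right) Q₀)
    rwa [h2] at h1
  have halgQ' : ∀ x ∈ Q', IsAlgebraic (X ⊔ Q : IntermediateField k Ω) x := by
    rw [alg_iff, hQ', hQ₀]
    refine sup_le (le_sup_left.trans le_cl) (sup_le (le_sup_right.trans le_cl) ?_)
    exact (alg_iff.1 h.alg).trans (cl_mono (hEQ.trans le_sup_right))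
  rcases hM₀ with rfl | hM₀
  · -- the base does not grow
    rw [sup_bot_eq] at hb hc
    have hc' : KGE (B ⊔ Y) Q' c := kge_pull hfQ' hQQ' halgQ' hc
    have hXX : (P ⊔ Y) ⊔ (M ⊔ (B ⊔ Y)) = M ⊔ (P ⊔ Y) :=
      le_antisymm (sup_le le_sup_right (sup_le_sup_left (sup_le_sup_right hBP Y) M))
        (sup_le (le_sup_left.trans le_sup_right) le_sup_left)
    obtain ⟨a, b', hcab, ha, hb'⟩ := kge_sub (F := B ⊔ Y) (X := P ⊔ Y) (Y := M ⊔ (B ⊔ Y)) hfQ'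
      (sup_le_sup_right hBP Y) le_sup_right hWQ' (sup_le hMQ' (sup_le hBQ' hYQ')) (by
        rw [hXX]
        omega) hc'
    subst hQ'
    haveI f3 : Fact (M ≤ X ⊔ Q₀) := ⟨hMQ'⟩
    haveI f4 : Fact (P ⊔ Y ≤ X ⊔ Q₀) := ⟨hWQ'⟩
    haveI f5 : Fact (M ⊔ (P ⊔ Y) ≤ X ⊔ Q₀) := ⟨hZQ'⟩
    have h4 := rigid_coreF (R₁ := X ⊔ Q₀) hO hX h hP hMP hXk hM hMM hY hEY hQ hG hQ₀ hfQ' hGZ
      ⟨f3, f4, f5, fun MM i w hw => ⟨AlgHom.id k (X ⊔ Q₀ : IntermediateField k Ω), fun y => rfl,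
        fun b => isAlgebraic_algebraMap b, by
          have h1 : w.comap ((AlgHom.id k (X ⊔ Q₀ : IntermediateField k Ω) :
              (X ⊔ Q₀ : IntermediateField k Ω) →ₐ[k] (X ⊔ Q₀ : IntermediateField k Ω)) :
              (X ⊔ Q₀ : IntermediateField k Ω) →+* (X ⊔ Q₀ : IntermediateField k Ω)) = w := by
            ext x
            rfl
          rw [h1]
          exact hw⟩⟩ hb ha hb'
    exact kge_mono (by omega) h4
  · have hfM₀ : Fin' M₀ := fin_le h.fgM hM₀.1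
    have iBM₀ : Indep B M₀ := hMP.symm.mono hfP h.fgM hBP hM₀.1
    obtain ⟨b₁, m, hbm, hb₁, hm⟩ := kge_prod_upper' hB hfM₀ iBM₀ hb
    have hM₀Q' : M₀ ≤ Q' := hM₀.1.trans hMQ'
    have iM₀W : Indep M₀ (P ⊔ Y) := iMW.mono h.fgM hfPY hM₀.1 le_rfl
    have iM₀BY : Indep M₀ (B ⊔ Y) := iMBY.mono h.fgM (fin_sup hB hYf) hM₀.1 le_rfl
    have e5 : dimension k (M₀ ⊔ (P ⊔ Y) : IntermediateField k Ω) =
      dimension k M₀ + dimension k (P ⊔ Y : IntermediateField k Ω) := iM₀W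
    have e7 : dimension k (M₀ ⊔ (B ⊔ Y) : IntermediateField k Ω) =
      dimension k M₀ + dimension k (B ⊔ Y : IntermediateField k Ω) := iM₀BY
    have hF : (B ⊔ M₀) ⊔ Y = M₀ ⊔ (B ⊔ Y) := by rw [← sup_assoc, sup_comm B M₀]
    have hXX : (M₀ ⊔ (P ⊔ Y)) ⊔ (M ⊔ (B ⊔ Y)) = M ⊔ (P ⊔ Y) := by
      refine le_antisymm (sup_le (sup_le_sup_right hM₀.1 _)
        (sup_le_sup_left (sup_le_sup_right hBP Y) M))
        (sup_le (le_sup_left.trans le_sup_right) (le_sup_right.trans le_sup_left))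
    -- easy addition over `B·M₀·Y`
    have hc' : KGE ((B ⊔ M₀) ⊔ Y) Q' c := kge_pull hfQ' hQQ' halgQ' hc
    rw [hF] at hc'
    obtain ⟨a, b', hcab, ha, hb'⟩ := kge_sub (F := M₀ ⊔ (B ⊔ Y)) (X := M₀ ⊔ (P ⊔ Y))
      (Y := M ⊔ (B ⊔ Y)) hfQ' (sup_le_sup_left (sup_le_sup_right hBP Y) M₀)
      (sup_le_sup_right hM₀.1 (B ⊔ Y)) (sup_le hM₀Q' hWQ')
      (sup_le hMQ' (sup_le hBQ' hYQ')) (by
        rw [hXX]
        omega) hc'
    -- the stable inequality for `M/M₀`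
    obtain ⟨T, C, hTP, hTC, hC, hGC, hPT⟩ := exists_curveProd hfP
    have hPT' : P ≤ cl T := alg_iff.1 hPT
    have hCT : C ≤ cl T := alg_iff.1 hGC.alg
    subst hQ'
    haveI f3 : Fact (M ≤ X ⊔ Q₀) := ⟨hMQ'⟩
    haveI f4 : Fact (P ⊔ Y ≤ X ⊔ Q₀) := ⟨hWQ'⟩
    haveI f5 : Fact (M ⊔ (P ⊔ Y) ≤ X ⊔ Q₀) := ⟨hZQ'⟩
    obtain ⟨R₁, hR₁, hGR₁, hQR₁, hCR₁, hC₁⟩ := cond2 h.fgM hfP hYf hMP hi hfQ' hGZ hC.fin hTP
      hPT hGC
    have hYR : Y ≤ R₁ := hYQ'.trans hQR₁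
    have hM₀R : M₀ ≤ R₁ := hM₀Q'.trans hQR₁
    have hWR : P ⊔ Y ≤ R₁ := hWQ'.trans hQR₁
    have iTY : Indep T Y := iPY.mono_left hfP hYf hTP
    have iCY : Indep C Y := iTY.up hC.fin hYf hTC hCT
    have hCYcl : C ⊔ Y ≤ cl (T ⊔ Y) :=
      sup_le (hCT.trans (cl_mono le_sup_left)) (le_sup_right.trans le_cl)
    have iMCY : Indep M (C ⊔ Y) :=
      ((iMW.mono h.fgM hfPY le_rfl (sup_le_sup_right hTP Y)).symm.up (fin_sup hC.fin hYf) h.fgM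
        (sup_le_sup_right hTC Y) hCYcl).symm
    have hPdim : dimension k P = dimension k T := dim_eq hfP hTP hPT
    have hCdim : dimension k C = dimension k T := dim_eq hC.fin hTC hGC.alg
    have hCY : dimension k (C ⊔ Y : IntermediateField k Ω) = dimension k C + dimension k Y := iCY
    have hTYZ : M ⊔ (T ⊔ Y) ≤ M ⊔ (P ⊔ Y) := sup_le_sup_left (sup_le_sup_right hTP Y) M
    have halgR : ∀ x ∈ R₁, IsAlgebraic (X ⊔ Q₀ : IntermediateField k Ω) x :=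
      alg_iff.2 ((alg_iff.1 hGR₁.alg).trans (cl_mono (hTYZ.trans hZQ')))
    have hG₁ : Gal (M ⊔ (P ⊔ Y)) R₁ := hGR₁.of_le hTYZ (hZQ'.trans hQR₁)
    have ha₁ : KGE (M₀ ⊔ (P ⊔ Y)) R₁ a := kge_pull hR₁ hQR₁ halgR ha
    have ha₂ : KGE (M₀ ⊔ (T ⊔ Y)) R₁ a :=
      (kge_base hR₁ (sup_le_sup_left (sup_le_sup_right hTP Y) M₀) (sup_le hM₀R hWR)
        (alg_iff.2 (sup_le (le_sup_left.trans le_cl)
          ((sup_le (hPT'.trans (cl_mono le_sup_left)) (le_sup_right.trans le_cl) :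
            P ⊔ Y ≤ cl (T ⊔ Y)).trans (cl_mono le_sup_right))))).2 ha₁
    have ha₃ : KGE (M₀ ⊔ (C ⊔ Y)) R₁ a :=
      (kge_base hR₁ (sup_le_sup_left (sup_le_sup_right hTC Y) M₀)
        (sup_le hM₀R (sup_le hCR₁ hYR))
        (alg_iff.2 (sup_le (le_sup_left.trans le_cl) (hCYcl.trans (cl_mono le_sup_right))))).1 ha₂
    have h1 : KodairaGE k R₁ (m + a + dimension k (C ⊔ Y : IntermediateField k Ω)) := by
      refine hM₀.2 (C ⊔ Y) R₁ (hC.sup hY iCY) iMCY hR₁ ?_ m a hm ha₃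
      exact hGR₁.of_le (sup_le_sup_left (sup_le_sup_right hTC Y) M)
        (sup_le (hMQ'.trans hQR₁) (sup_le hCR₁ hYR))
    have h2 : KGE (P ⊔ Y) R₁ (m + a) := (kge_easy hR₁ hWR h1).mono (by omega)
    have h4 := rigid_coreF hO hX h hP hMP hXk hM hMM hY hEY hQ hG hQ₀ hR₁ hG₁ hC₁ hb₁ h2 hb'
    exact kge_mono (by omega) h4

/-- a rigid isotrivial fibre space over `X`, `κ(X) ≥ 0` -/
theorem OverC.rigidF {B V X E M P₀ : IntermediateField k Ω} (hO : OverC B V X) (hX : Fin' X)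
    (h : Step V E M P₀) (hi : Indep M (X ⊔ P₀)) (hXk : KodairaGE k X 0) (hM : KodairaGE k M 0)
    (hMM : IsFactorial M) : OverC B E (X ⊔ E) := by
  have h1 := hO.growF (M₀ := ⊥) hX (Or.inl rfl) h rfl hi bot_le hXk hM hMM
  rwa [sup_bot_eq] at h1

end Pf72953.Tow
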