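import Mathlib
import Pool.Agent.Lib.Pf72953n.Tw

/-!
The field of the branch points.
-/

set_option autoImplicit false
set_option linter.style.haveILetI false

open scoped WithZero Polynomial
open Pf72953 Pf72953.Mov Pf72953.Tow

namespace Pf72953.Pl

variable {k Ω : Type*} [Field k] [Field Ω] [Algebra k Ω]

/-- `T` and the coordinates `x̃` -/
noncomputable def xfield (T : IntermediateField k Ω) (x : Ω) (S : Finset Ω) : IntermediateField k Ω :=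
  T ⊔ IntermediateField.adjoin k {y | ∃ p ∈ trip S, xc x p.1 p.2.1 p.2.2 = y}

theorem mem_xfield {T : IntermediateField k Ω} {x : Ω} {S : Finset Ω} {p : Ω × Ω × Ω}
    (hp : p ∈ trip S) : xc x p.1 p.2.1 p.2.2 ∈ xfield T x S :=
  mem_sup_right' (IntermediateField.subset_adjoin k _ ⟨p, hp, rfl⟩)

theorem xfield_le {T F : IntermediateField k Ω} {x : Ω} {S : Finset Ω} (hT : T ≤ F)
    (h : ∀ p ∈ trip S, xc x p.1 p.2.1 p.2.2 ∈ F) : xfield T x S ≤ F := by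
  refine sup_le hT ?_
  rw [IntermediateField.adjoin_le_iff]
  rintro _ ⟨p, hp, rfl⟩
  exact h p hp

theorem xfield_stab {T : IntermediateField k Ω} {x : Ω} {S : Finset Ω} {σ : Ω ≃ₐ[k] Ω}
    (hσ : Fixes σ T) {s : Ω → Ω} (hs : Act σ x S s) : Stab σ (xfield T x S) := by
  have h1 : xfield T x S ≤ (xfield T x S).comap (σ : Ω →ₐ[k] Ω) := by
    refine xfield_le (fun z hz => ?_) fun p hp => ?_
    · change σ z ∈ xfield T x S
      rw [hσ z hz]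
      exact mem_sup_left' hz
    · change σ (xc x p.1 p.2.1 p.2.2) ∈ xfield T x S
      rw [hs.xc p hp]
      exact mem_xfield (hs.trip hp)
  exact fun z hz => h1 hz

theorem xfield_fixes {T : IntermediateField k Ω} {x : Ω} {S : Finset Ω} {σ : Ω ≃ₐ[k] Ω}
    (hσ : Fixes σ T) (h : ∀ p ∈ trip S, σ (xc x p.1 p.2.1 p.2.2) = xc x p.1 p.2.1 p.2.2) :
    Fixes σ (xfield T x S) := by
  rw [fixes_iff79] at hσ ⊢
  exact xfield_le hσ h

variable [CharZero k] [IsAlgClosed Ω] [IsAlgClosed k]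

theorem exists_tw {V T Q P₁ : IntermediateField k Ω} {x : Ω} {S : Finset Ω} (hC : Con V T)
    (hQ : Fin' Q) (hG : Gal T Q) (hP₁ : Fin' P₁) (hG₁ : Gal V P₁)
    (hx : Transcendental P₁ x) (hgen : T ⊔ P₁ = P₁ ⊔ IntermediateField.adjoin k {x})
    (hS : ∀ e ∈ S, e ∈ P₁) (hbr : BP P₁ (Q ⊔ P₁) x S) {p₀ : Ω × Ω × Ω} (hp₀ : p₀ ∈ trip S) :
    ∃ (P : IntermediateField k Ω) (x' : Ω) (S' : Finset Ω), Tw V T Q P x' S' ∧
      (trip S').Nonempty := by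
  classical
  have hact := exists_act hC.le hQ hG hP₁ hG₁ hx hgen hS hbr
  have hVT : V ≤ T := hC.le
  have hVP₁ : V ≤ P₁ := hG₁.le
  have hP₁cl : P₁ ≤ cl V := alg_iff.1 hG₁.alg
  obtain ⟨L, hL⟩ : ∃ L, L = xfield T x S := ⟨_, rfl⟩
  have hTL : T ≤ L := hL ▸ le_sup_left
  have hxcL : ∀ p ∈ trip S, xc x p.1 p.2.1 p.2.2 ∈ L := fun p hp => hL ▸ mem_xfield hp
  have hLle : L ≤ P₁ ⊔ IntermediateField.adjoin k {x} := by
    rw [hL]
    refine xfield_le (hgen ▸ le_sup_left) fun p hp => ?_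
    obtain ⟨⟨h1, h2, h3⟩, h4, h5, h6⟩ := mem_trip.1 hp
    exact (adjoin_xc hx (hS _ h1) (hS _ h2) (hS _ h3) h4 h5 h6).1
  have hFf : Fin' (P₁ ⊔ IntermediateField.adjoin k {x} : IntermediateField k Ω) :=
    fin_sup hP₁ (fin_one x)
  have hLf : Fin' L := fin_le hFf hLle
  obtain ⟨P, hP⟩ : ∃ P, P = L ⊓ cl V := ⟨_, rfl⟩
  have hPL : P ≤ L := hP ▸ inf_le_left
  have hPcl : P ≤ cl V := hP ▸ inf_le_right
  have hPP₁ : P ≤ P₁ := by
    intro z hz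
    exact closed_sup hP₁ (fin_one x) (indep_simple hP₁ hx) (hLle (hPL hz))
      (alg_mono hVP₁ (mem_cl.1 (hPcl hz)))
  have hVP : V ≤ P := hP ▸ le_inf (hVT.trans hTL) le_cl
  have hPf : Fin' P := fin_le hP₁ hPP₁
  have hGP : Gal V P := by
    refine ⟨hVP, alg_iff.2 hPcl, fun σ hσ z hz => ?_⟩
    obtain ⟨τ, hτ, hτσ⟩ := hC.lift P₁ hP₁ hG₁ σ hσ
    obtain ⟨s, hs⟩ := hact τ hτ
    rw [← hτσ z (hPP₁ hz), hP]
    refine ⟨?_, ?_⟩
    · have h1 := xfield_stab hτ hs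
      rw [← hL] at h1
      exact h1 z (hPL hz)
    · exact mem_cl.2 ((hτ.mono hVT).isAlgebraic (mem_cl.1 (hPcl hz)))
  have hGP₁ : Gal P P₁ := ⟨hPP₁, fun z hz => alg_mono hVP (hG₁.alg z hz),
    fun σ hσ => hG₁.stab σ (hσ.mono hVP)⟩
  -- amalgamation
  have hdim1 : dimension k (P₁ ⊔ L : IntermediateField k Ω) = dimension k L :=
    dim_eq (fin_sup hP₁ hLf) le_sup_right (alg_iff.2 (sup_le (hP₁cl.trans (cl_mono
      (hVT.trans hTL))) le_cl))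
  have hdim2 : dimension k P₁ = dimension k P := dim_eq hP₁ hPP₁ hGP₁.alg
  have amalg : ∀ σ : Ω ≃ₐ[k] Ω, Fixes σ P → ∃ ψ : Ω ≃ₐ[k] Ω, Fixes ψ L ∧ ∀ z ∈ P₁, ψ z = σ z := by
    intro σ hσ
    refine exists_amalg (D := P) (N := P₁) (N' := P₁) (A := L) hP₁ hP₁ hLf hPP₁ hPL ?_ σ hσ
      (hGP₁.stab σ hσ) (hGP₁.stab _ hσ.symm79) ?_ ?_
    · intro z hz hz'
      rw [hP]
      exact ⟨hz, cl_le hPcl (mem_cl.2 hz')⟩
    all_goals omega
  have hfix : ∀ σ : Ω ≃ₐ[k] Ω, Fixes σ P → (∀ F : IntermediateField k Ω, F ≤ L →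
      L ≤ P₁ ⊔ F → Fixes σ F → Fixes σ L) := by
    intro σ hσ F hFL hF hσF z hz
    obtain ⟨ψ, hψ, hψσ⟩ := amalg σ hσ
    have h1 : Fixes (ψ.trans σ.symm) P₁ := fun y hy => by
      rw [AlgEquiv.trans_apply, hψσ y hy, AlgEquiv.symm_apply_apply]
    have h2 : Fixes (ψ.trans σ.symm) F := fun y hy => by
      rw [AlgEquiv.trans_apply, hψ y (hFL hy), AlgEquiv.symm_apply_eq, hσF y hy]
    have h3 := (h1.sup79 h2) z (hF hz)
    rw [AlgEquiv.trans_apply, hψ z hz, AlgEquiv.symm_apply_eq] at h3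
    exact h3.symm
  -- the first coordinate
  obtain ⟨⟨hi, hj, hl⟩, hij, hil, hjl⟩ := mem_trip.1 hp₀
  obtain ⟨y, hy⟩ : ∃ y, y = xc x p₀.1 p₀.2.1 p₀.2.2 := ⟨_, rfl⟩
  have hyL : y ∈ L := hy ▸ hxcL p₀ hp₀
  have hyP₁ : P₁ ⊔ IntermediateField.adjoin k {y} = P₁ ⊔ IntermediateField.adjoin k {x} :=
    hy ▸ adjoin_xc_eq hx (hS _ hi) (hS _ hj) (hS _ hl) hij hil hjl
  have hLcl : L ≤ cl (P ⊔ IntermediateField.adjoin k {y}) := by
    refine hLle.trans (hyP₁ ▸ sup_le ?_ (le_sup_right.trans le_cl))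
    exact (alg_iff.1 hGP₁.alg).trans (cl_mono le_sup_left)
  have hPy : P ⊔ IntermediateField.adjoin k {y} = L := by
    refine le_antisymm (sup_le hPL (adjoin_one_le hyL)) fun z hz => ?_
    refine mem_of_fixed (fin_sup hPf (fin_one y)) (mem_cl.1 (hLcl hz)) fun σ hσ => ?_
    exact hfix σ (hσ.mono le_sup_left) (IntermediateField.adjoin k {y}) (adjoin_one_le hyL)
      (hyP₁ ▸ hLle) (hσ.mono le_sup_right) z hz
  have hTP : T ⊔ P = L := by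
    refine le_antisymm (sup_le hTL hPL) fun z hz => ?_
    have halg : IsAlgebraic (T ⊔ P : IntermediateField k Ω) z := by
      have h1 : L ≤ cl (T ⊔ P) := by
        refine hLle.trans (hgen ▸ sup_le (le_sup_left.trans le_cl) ?_)
        exact hP₁cl.trans (cl_mono (hVT.trans le_sup_left))
      exact mem_cl.1 (h1 hz)
    refine mem_of_fixed (fin_sup hC.fin hPf) halg fun σ hσ => ?_
    exact hfix σ (hσ.mono le_sup_right) T hTL (by rw [sup_comm, hgen]; exact hLle)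
      (hσ.mono le_sup_left) z hz
  -- the second coordinate
  obtain ⟨c, hc⟩ := Set.Infinite.exists_notMem_finset (Set.infinite_range_of_injective
    (algebraMap k Ω).injective) (S.image fun e => xc e p₀.1 p₀.2.1 p₀.2.2)
  obtain ⟨⟨c', rfl⟩, hc⟩ := hc
  obtain ⟨i, hi'⟩ : ∃ i, i = p₀.1 := ⟨_, rfl⟩
  obtain ⟨j, hj'⟩ : ∃ j, j = p₀.2.1 := ⟨_, rfl⟩
  obtain ⟨l, hl'⟩ : ∃ l, l = p₀.2.2 := ⟨_, rfl⟩
  rw [← hi', ← hj', ← hl'] at hy hc
  rw [← hi'] at hi hij hil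
  rw [← hj'] at hj hij hjl
  rw [← hl'] at hl hil hjl
  set c : Ω := algebraMap k Ω c' with hcdef
  have hcP₁ : ∀ F : IntermediateField k Ω, c ∈ F := fun F => F.algebraMap_mem c'
  obtain ⟨α, hα⟩ : ∃ α, α = l - i := ⟨_, rfl⟩
  obtain ⟨β, hβ⟩ : ∃ β, β = -j * (l - i) := ⟨_, rfl⟩
  obtain ⟨γ, hγ⟩ : ∃ γ, γ = (l - j) - c * (l - i) := ⟨_, rfl⟩
  obtain ⟨δ, hδ⟩ : ∃ δ, δ = -i * (l - j) + c * j * (l - i) := ⟨_, rfl⟩
  have hli0 : l - i ≠ 0 := sub_ne_zero.2 hil.symm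
  have hlj0 : l - j ≠ 0 := sub_ne_zero.2 hjl.symm
  have hji0 : j - i ≠ 0 := sub_ne_zero.2 hij.symm
  have hαP : α ∈ P₁ := hα ▸ sub_mem (hS _ hl) (hS _ hi)
  have hβP : β ∈ P₁ := hβ ▸ mul_mem (neg_mem (hS _ hj)) (sub_mem (hS _ hl) (hS _ hi))
  have hγP : γ ∈ P₁ := hγ ▸ sub_mem (sub_mem (hS _ hl) (hS _ hj)) (mul_mem (hcP₁ _)
    (sub_mem (hS _ hl) (hS _ hi)))
  have hδP : δ ∈ P₁ := hδ ▸ add_mem (mul_mem (neg_mem (hS _ hi)) (sub_mem (hS _ hl) (hS _ hj)))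
    (mul_mem (mul_mem (hcP₁ _) (hS _ hj)) (sub_mem (hS _ hl) (hS _ hi)))
  have hd : α * δ - β * γ ≠ 0 := by
    have h1 : α * δ - β * γ = (l - i) * (l - j) * (j - i) := by
      rw [hα, hβ, hγ, hδ]
      ring
    rw [h1]
    exact mul_ne_zero (mul_ne_zero hli0 hlj0) hji0
  have hne : ∀ e ∈ S, γ * e + δ ≠ 0 := by
    intro e he h0
    have h1 : γ * e + δ = (e - i) * (l - j) - c * ((e - j) * (l - i)) := by
      rw [hγ, hδ]
      ring
    rw [h1] at h0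
    rcases eq_or_ne e j with rfl | hej
    · rw [sub_self, zero_mul, mul_zero, sub_zero] at h0
      exact mul_ne_zero hji0 hlj0 h0
    · apply hc
      rw [Finset.mem_image]
      refine ⟨e, he, ?_⟩
      unfold xc
      rw [div_eq_iff (mul_ne_zero (sub_ne_zero.2 hej) hli0)]
      linear_combination h0
  have hxS : ∀ e ∈ P₁, x - e ≠ 0 := fun e he h0 => hx (by
    rw [sub_eq_zero.1 h0]
    exact alg_of_mem he)
  have hx0 : γ * x + δ ≠ 0 := by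
    intro h0
    rcases eq_or_ne γ 0 with hγ0 | hγ0
    · rw [hγ0, zero_mul, zero_add] at h0
      apply hd
      rw [h0, hγ0]
      ring
    · refine hxS (-δ / γ) (div_mem (neg_mem hδP) hγP) ?_
      rw [sub_eq_zero, eq_div_iff hγ0]
      linear_combination h0
  obtain ⟨x', hx'⟩ : ∃ x', x' = (α * x + β) / (γ * x + δ) := ⟨_, rfl⟩
  obtain ⟨-, -, hm3⟩ := mob_field (K := P₁) hαP hβP hγP hδP hd hx0
  rw [← hx'] at hm3
  have hx'T : Transcendental P₁ x' := by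
    intro h0
    apply hx
    have h1 : IntermediateField.adjoin k {x'} ≤ cl P₁ := adjoin_one_le (mem_cl.2 h0)
    have h2 : x ∈ P₁ ⊔ IntermediateField.adjoin k {x'} := hm3 ▸ mem_sup_right' (mem_adjoin_one x)
    exact mem_cl.1 ((sup_le le_cl h1 : P₁ ⊔ IntermediateField.adjoin k {x'} ≤ cl P₁) h2)
  have hx'y : x' = (0 * y + 1) / (1 * y + -c) := by
    have h1 : (x - j) * (l - i) ≠ 0 := mul_ne_zero (hxS _ (hS _ hj)) hli0
    have h2 : y * ((x - j) * (l - i)) = (x - i) * (l - j) := by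
      rw [hy]
      unfold xc
      exact div_mul_cancel₀ _ h1
    have h3 : γ * x + δ = (y - c) * ((x - j) * (l - i)) := by
      rw [hγ, hδ]
      linear_combination -h2
    have h4 : α * x + β = (x - j) * (l - i) := by
      rw [hα, hβ]
      ring
    have h5 : y - c ≠ 0 := by
      intro h0
      rw [h3, h0, zero_mul] at hx0
      exact hx0 rfl
    rw [hx', h3, h4, zero_mul, zero_add, one_mul, ← sub_eq_add_neg,
      div_eq_div_iff (mul_ne_zero h5 h1) h5]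
    ring
  have hy0 : 1 * y + -c ≠ 0 := by
    intro h0
    rw [hx'y, h0, div_zero] at hx'T
    exact hx'T isAlgebraic_zero
  have hx'P : P ⊔ IntermediateField.adjoin k {x'} = L := by
    obtain ⟨-, -, h1⟩ := mob_field (K := P) (zero_mem P) (one_mem P) (one_mem P) (neg_mem (hcP₁ P))
      (by rw [zero_mul, one_mul, zero_sub]; exact neg_ne_zero.2 one_ne_zero) hy0
    rw [← hx'y] at h1
    rw [h1, hPy]
  have hx'L : x' ∈ L := hx'P ▸ mem_sup_right' (mem_adjoin_one x')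
  -- the new set
  obtain ⟨mo, hmo⟩ : ∃ mo : Ω → Ω, mo = fun e => (α * e + β) / (γ * e + δ) := ⟨_, rfl⟩
  have hmoe : ∀ e, mo e = (α * e + β) / (γ * e + δ) := fun e => by rw [hmo]
  set S' : Finset Ω := S.image mo with hS'def
  have hS' : ∀ e', e' ∈ S' ↔ ∃ e ∈ S, mo e = e' := fun e' => Finset.mem_image
  have hmoinj : ∀ a ∈ S, ∀ b ∈ S, mo a = mo b → a = b := by
    intro a ha b hb hab
    rw [hmoe, hmoe] at hab
    exact mob_inj hd (hne a ha) (hne b hb) hab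
  have hmoP₁ : ∀ e ∈ S, mo e ∈ P₁ := fun e he => by
    rw [hmoe]
    exact div_mem (add_mem (mul_mem hαP (hS e he)) hβP) (add_mem (mul_mem hγP (hS e he)) hδP)
  have hxc : ∀ a ∈ S, ∀ b ∈ S, ∀ d ∈ S, xc x' (mo a) (mo b) (mo d) = xc x a b d := by
    intro a ha b hb d hd'
    rw [hx', hmoe, hmoe, hmoe]
    exact xc_mob hd hx0 (hne a ha) (hne b hb) (hne d hd')
  have htrip : ∀ a ∈ S, ∃ b ∈ S, ∃ d ∈ S, a ≠ b ∧ a ≠ d ∧ b ≠ d := by
    intro a ha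
    by_cases h1 : a = i
    · exact ⟨j, hj, l, hl, h1 ▸ hij, h1 ▸ hil, hjl⟩
    · by_cases h2 : a = j
      · exact ⟨i, hi, l, hl, h2 ▸ hij.symm, h2 ▸ hjl, hil⟩
      · exact ⟨i, hi, j, hj, h1, h2, hij⟩
  have hmoP : ∀ e ∈ S, mo e ∈ P := by
    intro e he
    refine mem_of_fixed hPf (hGP₁.alg _ (hmoP₁ e he)) fun σ hσ => ?_
    obtain ⟨ψ, hψ, hψσ⟩ := amalg σ hσ
    rw [← hψσ _ (hmoP₁ e he)]
    obtain ⟨b, hb, d, hd', h1, h2, h3⟩ := htrip e he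
    have hxq : xc x' (mo e) (mo b) (mo d) ∈ L := by
      rw [hxc e he b hb d hd']
      exact hxcL (e, b, d) (mem_trip.2 ⟨⟨he, hb, hd'⟩, h1, h2, h3⟩)
    have h4 : ψ (xc x' (mo e) (mo b) (mo d)) = xc (ψ x') (ψ (mo e)) (ψ (mo b)) (ψ (mo d)) :=
      map_xcO (ψ : Ω →+* Ω) x' (mo e) (mo b) (mo d)
    rw [hψ _ hxq, hψ _ hx'L] at h4
    have hψP₁ : ∀ z ∈ P₁, ψ z ∈ P₁ := fun z hz => by
      rw [hψσ z hz]
      exact hGP₁.stab σ hσ z hz
    have hn : ∀ a ∈ S, ∀ b ∈ S, a ≠ b → mo a ≠ mo b := fun a ha b hb hab h => hab (hmoinj a ha b hb h)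
    exact (xc_zero hx'T (hmoP₁ e he) (hmoP₁ b hb) (hmoP₁ d hd') (hψP₁ _ (hmoP₁ e he))
      (hψP₁ _ (hmoP₁ b hb)) (hψP₁ _ (hmoP₁ d hd')) (hn e he b hb h1) (hn e he d hd' h2)
      (ψ.injective.ne (hn e he d hd' h2)) (ψ.injective.ne (hn b hb d hd' h3)) h4).symm
  have hbr' : BP P₁ (Q ⊔ P₁) x' S' := by
    rw [hx']
    refine hbr.mob hS hαP hβP hγP hδP hd hne fun e' => ?_
    rw [hS']
    exact exists_congr fun e => and_congr_right fun _ => by rw [hmoe]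
  have hgen' : T ⊔ P = P ⊔ IntermediateField.adjoin k {x'} := by rw [hTP, hx'P]
  have hbrP : BP P (Q ⊔ P) x' S' := hbr'.descend hP₁ hGP₁ hQ (gal_split hG hgen')
  have hx'P' : Transcendental P x' := fun h => hx'T (alg_mono hPP₁ h)
  have htrip' : ∀ p' ∈ trip S', ∃ p ∈ trip S, p' = (mo p.1, mo p.2.1, mo p.2.2) := by
    rintro ⟨a', b', d'⟩ hp'
    obtain ⟨⟨h1, h2, h3⟩, h4, h5, h6⟩ := mem_trip.1 hp'
    obtain ⟨a, ha, rfl⟩ := (hS' _).1 h1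
    obtain ⟨b, hb, rfl⟩ := (hS' _).1 h2
    obtain ⟨d, hd', rfl⟩ := (hS' _).1 h3
    exact ⟨(a, b, d), mem_trip.2 ⟨⟨ha, hb, hd'⟩, fun h => h4 (congrArg mo h),
      fun h => h5 (congrArg mo h), fun h => h6 (congrArg mo h)⟩, rfl⟩
  have htrip2 : ∀ p ∈ trip S, (mo p.1, mo p.2.1, mo p.2.2) ∈ trip S' := by
    intro p hp
    obtain ⟨⟨h1, h2, h3⟩, h4, h5, h6⟩ := mem_trip.1 hp
    exact mem_trip.2 ⟨⟨(hS' _).2 ⟨_, h1, rfl⟩, (hS' _).2 ⟨_, h2, rfl⟩, (hS' _).2 ⟨_, h3, rfl⟩⟩,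
      fun h => h4 (hmoinj _ h1 _ h2 h), fun h => h5 (hmoinj _ h1 _ h3 h),
      fun h => h6 (hmoinj _ h2 _ h3 h)⟩
  refine ⟨P, x', S', ⟨hPf, hGP, hx'P', hgen', ?_, bp_iff.2 hbrP, ?_, ?_, ?_⟩, ⟨_, htrip2 p₀ hp₀⟩⟩
  · intro e' he'
    obtain ⟨e, he, rfl⟩ := (hS' _).1 he'
    exact hmoP e he
  · intro σ hσ
    obtain ⟨s, hs⟩ := hact σ hσ
    have h1 : ∀ e', ∃ e, e' ∈ S' → e ∈ S ∧ mo e = e' := by
      intro e'
      by_cases h : e' ∈ S'
      · obtain ⟨e, he, hee⟩ := (hS' _).1 h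
        exact ⟨e, fun _ => ⟨he, hee⟩⟩
      · exact ⟨0, fun h' => absurd h' h⟩
    choose inv hinv using h1
    have hinv' : ∀ e ∈ S, inv (mo e) = e := by
      intro e he
      obtain ⟨h2, h3⟩ := hinv (mo e) ((hS' _).2 ⟨e, he, rfl⟩)
      exact hmoinj _ h2 _ he h3
    refine ⟨fun e' => mo (s (inv e')), fun e' he' => ?_, fun a' ha' b' hb' hab => ?_,
      fun p' hp' => ?_⟩
    · exact (hS' _).2 ⟨_, hs.mem _ (hinv e' he').1, rfl⟩
    · obtain ⟨h2, h3⟩ := hinv a' ha'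
      obtain ⟨h4, h5⟩ := hinv b' hb'
      rw [← h3, ← h5, hs.inj _ h2 _ h4 (hmoinj _ (hs.mem _ h2) _ (hs.mem _ h4) hab)]
    · obtain ⟨p, hp, rfl⟩ := htrip' p' hp'
      obtain ⟨⟨h2, h3, h4⟩, -, -, -⟩ := mem_trip.1 hp
      change σ (xc x' (mo p.1) (mo p.2.1) (mo p.2.2)) = xc x' (mo (s (inv (mo p.1))))
        (mo (s (inv (mo p.2.1)))) (mo (s (inv (mo p.2.2))))
      rw [hinv' _ h2, hinv' _ h3, hinv' _ h4, hxc _ h2 _ h3 _ h4, hs.xc p hp,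
        hxc _ (hs.mem _ h2) _ (hs.mem _ h3) _ (hs.mem _ h4)]
  · intro σ hσ hall
    have h1 : Fixes σ (xfield T x S) := by
      refine xfield_fixes hσ fun p hp => ?_
      obtain ⟨⟨h2, h3, h4⟩, -, -, -⟩ := mem_trip.1 hp
      have h5 := hall _ (htrip2 p hp)
      simp only at h5
      rw [hxc _ h2 _ h3 _ h4] at h5
      exact h5
    rw [← hL] at h1
    exact h1.mono hPL
  · intro σ hσ
    obtain ⟨τ, hτ, hτσ⟩ := hC.lift P₁ hP₁ hG₁ σ hσ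
    exact ⟨τ, hτ, fun z hz => hτσ z (hPP₁ hz)⟩

end Pf72953.Pl
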