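import Mathlib
import Pool.Agent.Lib.Pf72953n.Tw2
import Pool.Agent.Lib.Pf72953n.Amalg
import Pool.Agent.Lib.Pf72953n.Swap
import Pool.Agent.Lib.Pf72953n.Up

/-!
Families of rational curves: base change and examples.
-/

set_option autoImplicit false
set_option linter.style.haveILetI false

open scoped WithZero Polynomial
open Pf72953 Pf72953.Mov Pf72953.Tow

namespace Pf72953.Pl

variable {k Ω : Type*} [Field k] [Field Ω] [Algebra k Ω]

section con

variable [CharZero k] [IsAlgClosed Ω]

/-- base change of a family of rational curves -/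
theorem Ruled.con {V T Y : IntermediateField k Ω} (h : Ruled V T) (hY : Fin' Y)
    (hi : Indep T Y) : Con (V ⊔ Y) (T ⊔ Y) := by
  have hT : Fin' T := h.fin
  have hV : Fin' V := fin_le hT h.le
  have hiV : Indep V Y := hi.mono_left hT hY h.le
  refine ⟨fin_sup hT hY, sup_le_sup_right h.le Y, fun P hP hG σ hσ => ?_, ?_⟩
  · have hVP : V ≤ P := le_sup_left.trans hG.le
    have hYP : Y ≤ P := le_sup_right.trans hG.le
    have hσV : Fixes σ V := fun z hz => hσ z (mem_sup_left' hz)
    have hσY : Fixes σ Y := fun z hz => hσ z (mem_sup_right' hz)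
    have hPT : Fin' (P ⊔ T : IntermediateField k Ω) := fin_sup hP hT
    have e1 : dimension k P = dimension k (V ⊔ Y : IntermediateField k Ω) :=
      dim_eq hP hG.le hG.alg
    have e2 : dimension k (P ⊔ T : IntermediateField k Ω) =
        dimension k (T ⊔ Y : IntermediateField k Ω) := by
      refine dim_eq hPT (sup_le le_sup_right (hYP.trans le_sup_left)) (alg_iff.2 ?_)
      exact sup_le ((alg_iff.1 hG.alg).trans (cl_mono (sup_le_sup_right h.le Y)))
        (le_sup_left.trans le_cl)
    have e3 : dimension k (V ⊔ Y : IntermediateField k Ω) = dimension k V + dimension k Y := hiV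
    have e4 : dimension k (T ⊔ Y : IntermediateField k Ω) = dimension k T + dimension k Y := hi
    have hd : dimension k (P ⊔ T : IntermediateField k Ω) + dimension k V =
        dimension k P + dimension k T := by omega
    obtain ⟨τ, hτT, hτP⟩ := exists_amalg hP hP hT hVP h.le h.closed σ hσV
      (fun z hz => hG.stab σ hσ z hz) (fun z hz => hG.stab _ hσ.symm79 z hz) hd hd
    refine ⟨τ, ?_, hτP⟩
    rw [fixes_iff79]
    refine sup_le (fixes_iff79.1 hτT) (fixes_iff79.1 fun z hz => ?_)
    rw [hτP z (hYP hz)]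
    exact hσY z hz
  · obtain ⟨P, x, hP, hG, hx, hs⟩ := h.split
    have hVP : V ≤ P := hG.le
    refine ⟨P ⊔ Y, x, fin_sup hP hY, ?_, ?_, ?_⟩
    · have h1 := hG.base (V ⊔ Y) le_sup_left
      rwa [← sup_assoc, sup_eq_left.2 hVP] at h1
    · have hTP : Fin' (T ⊔ P : IntermediateField k Ω) := fin_sup hT hP
      have hcl : T ⊔ P ≤ cl T := sup_le le_cl ((alg_iff.1 hG.alg).trans (cl_mono h.le))
      have hiE : Indep (T ⊔ P) Y := hi.up hTP hY le_sup_left hcl
      refine trans_of_indep hTP hY (h.le.trans le_sup_left) hiE ?_ hx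
      rw [hs]
      exact mem_sup_right' (mem_adjoin_one x)
    · have h1 : T ⊔ Y ⊔ (P ⊔ Y) = T ⊔ P ⊔ Y := by
        refine le_antisymm (sup_le (sup_le (le_sup_left.trans le_sup_left) le_sup_right)
          (sup_le (le_sup_right.trans le_sup_left) le_sup_right)) (sup_le (sup_le
          (le_sup_left.trans le_sup_left) (le_sup_left.trans le_sup_right))
          (le_sup_right.trans le_sup_left))
      rw [h1, hs, sup_assoc, sup_assoc, sup_comm Y]

omit [IsAlgClosed Ω] in
theorem Ruled.dim {V T : IntermediateField k Ω} (h : Ruled V T) :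
    dimension k T = dimension k V + 1 := by
  have hT : Fin' T := h.fin
  obtain ⟨P, x, hP, hG, hx, hs⟩ := h.split
  have hTP : Fin' (T ⊔ P : IntermediateField k Ω) := fin_sup hT hP
  have e1 : dimension k (T ⊔ P : IntermediateField k Ω) = dimension k T :=
    dim_eq hTP le_sup_left (alg_iff.2 (sup_le le_cl ((alg_iff.1 hG.alg).trans (cl_mono h.le))))
  have e2 : dimension k P = dimension k V := dim_eq hP hG.le hG.alg
  have hx' : Transcendental P x := transcendental_alg hG.le hG.alg hx
  have e3 := dim_adj hP hx'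
  rw [← hs] at e3
  omega

end con

/-- the homomorphism `P(X) → Ω`, `X ↦ x` -/
noncomputable def rfHom {P : IntermediateField k Ω} (x : Ω) (hx : Transcendental P x) :
    RatFunc P →ₐ[P] Ω :=
  (IntermediateField.val _).comp (RatFunc.algEquivOfTranscendental x hx).toAlgHom

theorem rfHom_surj {P : IntermediateField k Ω} {x z : Ω} (hx : Transcendental P x)
    (hz : z ∈ P ⊔ IntermediateField.adjoin k {x}) : ∃ f, rfHom x hx f = z := by
  have h1 : z ∈ IntermediateField.adjoin P {x} := by
    rw [← adjoin_eq_sup] at hz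
    exact hz
  refine ⟨(RatFunc.algEquivOfTranscendental x hx).symm ⟨z, h1⟩, ?_⟩
  change (((RatFunc.algEquivOfTranscendental x hx)
    ((RatFunc.algEquivOfTranscendental x hx).symm ⟨z, h1⟩) :
      IntermediateField.adjoin P ({x} : Set Ω)) : Ω) = z
  rw [AlgEquiv.apply_symm_apply]

/-- `V` is algebraically closed in `V(x)` -/
theorem closed_line {V : IntermediateField k Ω} {x z : Ω} (hx : Transcendental V x)
    (hz : z ∈ V ⊔ IntermediateField.adjoin k {x}) (ha : IsAlgebraic V z) : z ∈ V := by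
  obtain ⟨f, rfl⟩ := rfHom_surj hx hz
  have h1 : IsAlgebraic V f := (isAlgebraic_algHom_iff _ (rfHom x hx).injective).1 ha
  have h2 : ∃ c, f = RatFunc.C c := by
    by_contra h
    exact RatFunc.transcendental_of_ne_C f h h1
  obtain ⟨c, rfl⟩ := h2
  have h3 : rfHom x hx (RatFunc.C c) = algebraMap V Ω c := (rfHom x hx).commutes c
  rw [h3]
  exact c.2

/-- Lüroth -/
theorem luroth {P L : IntermediateField k Ω} {x : Ω} (hx : Transcendental P x) (h1 : P ≤ L)
    (h2 : L ≤ P ⊔ IntermediateField.adjoin k {x}) :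
    ∃ y, L = P ⊔ IntermediateField.adjoin k {y} := by
  set L' : IntermediateField P Ω := IntermediateField.extendScalars h1 with hL'
  set g := rfHom x hx with hg
  set E : IntermediateField P (RatFunc P) := L'.comap g with hE
  have h3 : E = IntermediateField.adjoin P {RatFunc.Luroth.generator E} :=
    RatFunc.Luroth.eq_adjoin_generator
  have h4 : E.map g = L' := by
    refine le_antisymm (IntermediateField.map_le_iff_le_comap.2 le_rfl) fun z hz => ?_
    obtain ⟨f, hf⟩ := rfHom_surj hx (h2 hz)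
    exact ⟨f, by rw [← hf] at hz; exact hz, hf⟩
  rw [h3, IntermediateField.adjoin_map, Set.image_singleton] at h4
  refine ⟨g (RatFunc.Luroth.generator E), ?_⟩
  rw [← adjoin_eq_sup, h4]
  rfl

theorem ruled_line {V : IntermediateField k Ω} {x : Ω} (hV : Fin' V) (hx : Transcendental V x) :
    Ruled V (V ⊔ IntermediateField.adjoin k {x}) :=
  ⟨fin_sup hV (fin_one x), le_sup_left, fun _ hz ha => closed_line hx hz ha,
    V, x, hV, gal_refl, hx, by rw [sup_comm, ← sup_assoc, sup_idem]⟩

/-- a family of curves which is covered by `P × ℙ¹` -/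
theorem ruled_of_le {V T P : IntermediateField k Ω} {x : Ω} (hVT : V ≤ T)
    (hcl : ∀ z ∈ T, IsAlgebraic V z → z ∈ V) (hne : T ≠ V) (hP : Fin' P) (hG : Gal V P)
    (hx : Transcendental V x) (hT : T ≤ P ⊔ IntermediateField.adjoin k {x}) : Ruled V T := by
  have hx' : Transcendental P x := transcendental_alg hG.le hG.alg hx
  obtain ⟨y, hy⟩ := luroth (L := T ⊔ P) hx' le_sup_right (sup_le hT le_sup_left)
  refine ⟨fin_le (fin_sup hP (fin_one x)) hT, hVT, hcl, P, y, hP, hG, fun h => hne ?_, hy⟩
  refine le_antisymm (fun z hz => hcl z hz ?_) hVT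
  have h1 : P ⊔ IntermediateField.adjoin k {y} ≤ cl V :=
    sup_le (alg_iff.1 hG.alg) (adjoin_one_le (mem_cl.2 h))
  rw [← hy] at h1
  exact mem_cl.1 (h1 (mem_sup_left' hz))

section

variable [CharZero k] [IsAlgClosed Ω]

omit [IsAlgClosed Ω] in
/-- transcendental elements are conjugate -/
theorem exists_move_conic [IsAlgClosed Ω] {F : IntermediateField k Ω} (hF : Fin' F) {x y : Ω}
    (hx : Transcendental F x) (hy : Transcendental F y) :
    ∃ ρ : Ω ≃ₐ[k] Ω, Fixes ρ F ∧ ρ x = y := by
  let e := (RatFunc.algEquivOfTranscendental x hx).symm.trans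
    (RatFunc.algEquivOfTranscendental y hy)
  let L₁ := (IntermediateField.adjoin F ({x} : Set Ω)).restrictScalars k
  let L₂ := (IntermediateField.adjoin F ({y} : Set Ω)).restrictScalars k
  have f₁ : Fin' L₁ := by
    change Fin' ((IntermediateField.adjoin F ({x} : Set Ω)).restrictScalars k)
    rw [adjoin_eq_sup]
    exact fin_sup hF (fin_one x)
  have f₂ : Fin' L₂ := by
    change Fin' ((IntermediateField.adjoin F ({y} : Set Ω)).restrictScalars k)
    rw [adjoin_eq_sup]
    exact fin_sup hF (fin_one y)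
  let e' : L₁ ≃ₐ[k] L₂ := AlgEquiv.ofRingEquiv (f := e.toRingEquiv) fun c =>
    e.commutes (algebraMap k F c)
  obtain ⟨τ, hτ⟩ := exists_ext_equiv f₁ f₂ e'
  refine ⟨τ, fun z hz => ?_, ?_⟩
  · have h1 := hτ (algebraMap F (IntermediateField.adjoin F ({x} : Set Ω)) ⟨z, hz⟩)
    have h2 : e (algebraMap F _ ⟨z, hz⟩) = algebraMap F _ ⟨z, hz⟩ := e.commutes ⟨z, hz⟩
    have h3 : ((e (algebraMap F _ ⟨z, hz⟩) : IntermediateField.adjoin F ({y} : Set Ω)) : Ω) = z := by
      rw [h2]
      rfl
    exact h1.trans h3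
  · have h1 := hτ (IntermediateField.AdjoinSimple.gen F x)
    have h2 : e (IntermediateField.AdjoinSimple.gen F x) = IntermediateField.AdjoinSimple.gen F y := by
      have h3 : (RatFunc.algEquivOfTranscendental x hx).symm
          (IntermediateField.AdjoinSimple.gen F x) = RatFunc.X := by
        rw [AlgEquiv.symm_apply_eq]
        exact Subtype.ext (RatFunc.algEquivOfTranscendental_X x hx).symm
      change (RatFunc.algEquivOfTranscendental y hy) ((RatFunc.algEquivOfTranscendental x hx).symm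
          (IntermediateField.AdjoinSimple.gen F x)) = _
      rw [h3]
      exact Subtype.ext (RatFunc.algEquivOfTranscendental_X y hy)
    have h3 : ((e (IntermediateField.AdjoinSimple.gen F x) :
        IntermediateField.adjoin F ({y} : Set Ω)) : Ω) = y := by
      rw [h2]
      rfl
    exact h1.trans h3


omit [CharZero k] [IsAlgClosed Ω] in
theorem conic_coord [CharZero Ω] {α β ι u v : Ω} (hα : α ≠ 0) (hβ : β ≠ 0) (hι : ι ^ 2 = -1)
    (h : α ^ 2 * u ^ 2 + β ^ 2 * v ^ 2 = 1) :
    α * u + ι * β * v ≠ 0 ∧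
    u = ((α * u + ι * β * v) + (α * u + ι * β * v)⁻¹) / (2 * α) ∧
    v = ((α * u + ι * β * v) - (α * u + ι * β * v)⁻¹) / (2 * (ι * β)) := by
  have hι0 : ι ≠ 0 := by
    rintro rfl
    norm_num at hι
  have h1 : (α * u + ι * β * v) * (α * u - ι * β * v) = 1 := by
    linear_combination h - β ^ 2 * v ^ 2 * hι
  have h0 : α * u + ι * β * v ≠ 0 := by
    intro h2
    rw [h2, zero_mul] at h1
    exact zero_ne_one h1
  have h2 : (α * u + ι * β * v)⁻¹ = α * u - ι * β * v := by
    exact inv_eq_of_mul_eq_one_right h1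
  refine ⟨h0, ?_, ?_⟩
  · rw [h2, eq_div_iff (mul_ne_zero two_ne_zero hα)]
    ring
  · rw [h2, eq_div_iff (mul_ne_zero two_ne_zero (mul_ne_zero hι0 hβ))]
    ring

/-- the conic `a u² + b v² = 1` over `V` -/
theorem ruled_conic [IsAlgClosed k] {V : IntermediateField k Ω} {a b u v : Ω} (hV : Fin' V)
    (ha : a ∈ V) (hb : b ∈ V) (ha0 : a ≠ 0) (hb0 : b ≠ 0) (hu : Transcendental V u)
    (h : a * u ^ 2 + b * v ^ 2 = 1) : Ruled V (V ⊔ IntermediateField.adjoin k {u, v}) := by
  haveI : CharZero Ω := charZero_of_injective_algebraMap (algebraMap k Ω).injective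
  obtain ⟨α, hα⟩ := IsAlgClosed.exists_pow_nat_eq a (n := 2) (by norm_num)
  obtain ⟨β, hβ⟩ := IsAlgClosed.exists_pow_nat_eq b (n := 2) (by norm_num)
  obtain ⟨ι₀, hι₀⟩ := IsAlgClosed.exists_pow_nat_eq (-1 : k) (n := 2) (by norm_num)
  set ι : Ω := algebraMap k Ω ι₀ with hιdef
  have hι : ι ^ 2 = -1 := by rw [hιdef, ← map_pow, hι₀, map_neg, map_one]
  have hι0 : ι ≠ 0 := by
    intro h0
    rw [h0] at hι
    norm_num at hι
  have hιm : ∀ K : IntermediateField k Ω, ι ∈ K := fun K => K.algebraMap_mem ι₀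
  have hα0 : α ≠ 0 := by
    rintro rfl
    exact ha0 (by rw [← hα]; norm_num)
  have hβ0 : β ≠ 0 := by
    rintro rfl
    exact hb0 (by rw [← hβ]; norm_num)
  set P : IntermediateField k Ω := V ⊔ IntermediateField.adjoin k {α, β} with hPdef
  have hVP : V ≤ P := le_sup_left
  have hαP : α ∈ P := mem_sup_right' (IntermediateField.subset_adjoin k _ (by simp))
  have hβP : β ∈ P := mem_sup_right' (IntermediateField.subset_adjoin k _ (by simp))
  have hPf : Fin' P := fin_sup hV (Et.fin_adjoin (by simp))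
  have hsq : ∀ γ c : Ω, c ∈ V → γ ^ 2 = c → IsAlgebraic V γ := by
    intro γ c hc h1
    refine IsAlgebraic.of_pow (n := 2) (by norm_num) ?_
    rw [h1]
    exact alg_of_mem hc
  have hpm : ∀ γ γ' : Ω, γ' ^ 2 = γ ^ 2 → γ ∈ P → γ' ∈ P := by
    intro γ γ' h1 h2
    rcases sq_eq_sq_iff_eq_or_eq_neg.1 h1 with h3 | h3
    · rw [h3]
      exact h2
    · rw [h3]
      exact neg_mem h2
  have hG : Gal V P := by
    refine Et.gal_adjoin ?_ ?_
    · rintro x (rfl | rfl)
      · exact hsq _ _ ha hα
      · exact hsq _ _ hb hβ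
    · rintro σ hσ x (rfl | rfl)
      · exact hpm _ _ (by rw [← map_pow, hα, hσ a ha]) hαP
      · exact hpm _ _ (by rw [← map_pow, hβ, hσ b hb]) hβP
  have hPcl : P ≤ cl V := alg_iff.1 hG.alg
  -- the coordinates
  have hcoord : ∀ α' β' : Ω, α' ^ 2 = a → β' ^ 2 = b →
      Transcendental P (α' * u + ι * β' * v) := by
    intro α' β' h1 h2 h3
    have hα' : α' ∈ P := hpm α α' (by rw [h1, hα]) hαP
    have hα'0 : α' ≠ 0 := by
      rintro rfl
      exact ha0 (by rw [← h1]; norm_num)
    have hβ'0 : β' ≠ 0 := by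
      rintro rfl
      exact hb0 (by rw [← h2]; norm_num)
    obtain ⟨h4, h5, -⟩ := conic_coord (u := u) (v := v) hα'0 hβ'0 hι (by rw [h1, h2]; exact h)
    have h6 : u ∈ cl P := by
      rw [h5]
      have h7 : α' * u + ι * β' * v ∈ cl P := mem_cl.2 h3
      exact div_mem (add_mem h7 (inv_mem h7)) (mul_mem (by
        have := (cl P).algebraMap_mem (2 : k)
        rwa [map_ofNat] at this) (le_cl hα'))
    exact hu (cl_idem hPcl (mem_cl.1 h6))
  set y : Ω := α * u + ι * β * v with hy
  have hyt : Transcendental P y := hcoord α β hα hβ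
  obtain ⟨hy0, hu1, hv1⟩ := conic_coord (u := u) (v := v) hα0 hβ0 hι (by rw [hα, hβ]; exact h)
  rw [← hy] at hy0 hu1 hv1
  have hyV : Transcendental V y := fun h0 => hyt (alg_mono hVP h0)
  have h2m : ∀ K : IntermediateField k Ω, (2 : Ω) ∈ K := fun K => by
    have := K.algebraMap_mem (2 : k)
    rwa [map_ofNat] at this
  set T : IntermediateField k Ω := V ⊔ IntermediateField.adjoin k {u, v} with hTdef
  have huT : u ∈ T := mem_sup_right' (IntermediateField.subset_adjoin k _ (by simp))
  have hvT : v ∈ T := mem_sup_right' (IntermediateField.subset_adjoin k _ (by simp))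
  have hyP : y ∈ P ⊔ IntermediateField.adjoin k {y} := mem_sup_right' (mem_adjoin_one y)
  have huP : u ∈ P ⊔ IntermediateField.adjoin k {y} := by
    rw [hu1]
    exact div_mem (add_mem hyP (inv_mem hyP)) (mul_mem (h2m _) (mem_sup_left' hαP))
  have hvP : v ∈ P ⊔ IntermediateField.adjoin k {y} := by
    rw [hv1]
    exact div_mem (sub_mem hyP (inv_mem hyP)) (mul_mem (h2m _) (mul_mem (hιm _)
      (mem_sup_left' hβP)))
  have hTP : T ≤ P ⊔ IntermediateField.adjoin k {y} := by
    refine sup_le (hVP.trans le_sup_left) ?_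
    rw [IntermediateField.adjoin_le_iff]
    rintro _ (rfl | rfl)
    · exact huP
    · exact hvP
  refine ⟨fin_sup hV (Et.fin_adjoin (by simp)), le_sup_left, fun z hz hza => ?_, P, y, hPf, hG,
    hyV, ?_⟩
  · refine mem_of_fixed hV hza fun σ hσ => ?_
    have hzP : z ∈ P := closed_line hyt (hTP hz) (alg_mono hVP hza)
    have hσP : ∀ w ∈ P, σ w ∈ P := hG.stab σ hσ
    have h1 : (σ α) ^ 2 = a := by rw [← map_pow, hα, hσ a ha]
    have h2 : (σ β) ^ 2 = b := by rw [← map_pow, hβ, hσ b hb]
    have hσy : Transcendental P (σ y) := by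
      intro h0
      have h3 := alg_map (σ := σ.symm) (fun c hc => hG.stab _ hσ.symm79 c hc) h0
      rw [AlgEquiv.symm_apply_apply] at h3
      exact hyt h3
    obtain ⟨ρ, hρ, hρy⟩ := exists_move_conic hPf hσy (hcoord (σ α) (σ β) h1 h2)
    have hα1 : σ α ≠ 0 := fun h0 => hα0 (by simpa using h0)
    have hβ1 : σ β ≠ 0 := fun h0 => hβ0 (by simpa using h0)
    obtain ⟨-, hu2, hv2⟩ := conic_coord (u := u) (v := v) hα1 hβ1 hι (by rw [h1, h2]; exact h)
    have hι1 : σ ι = ι := σ.commutes ι₀
    have hι2 : ρ ι = ι := ρ.commutes ι₀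
    have hρP : ∀ w ∈ P, ρ (σ w) = σ w := fun w hw => hρ _ (hσP w hw)
    have hτu : ρ (σ u) = u := by
      rw [hu1]
      simp only [map_div₀, map_add, map_inv₀, map_mul, map_ofNat, hρP α hαP, hρy]
      rw [← hu2, ← hu1]
    have hτv : ρ (σ v) = v := by
      rw [hv1]
      simp only [map_div₀, map_sub, map_inv₀, map_mul, map_ofNat, hρP β hβP, hρy, hι1, hι2]
      rw [← hv2, ← hv1]
    have hfix : Fixes (σ.trans ρ) T := by
      rw [fixes_iff79]
      refine sup_le (fixes_iff79.1 fun w hw => ?_) ?_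
      · change ρ (σ w) = w
        rw [hρP w (hVP hw), hσ w hw]
      · rw [IntermediateField.adjoin_le_iff]
        rintro _ (rfl | rfl)
        · exact hτu
        · exact hτv
    have h3 : ρ (σ z) = z := hfix z hz
    exact (hρP z hzP).symm.trans h3
  · refine le_antisymm (sup_le hTP le_sup_left) (sup_le le_sup_right (adjoin_one_le ?_))
    exact add_mem (mul_mem (mem_sup_right' hαP) (mem_sup_left' huT))
      (mul_mem (mul_mem (hιm _) (mem_sup_right' hβP)) (mem_sup_left' hvT))

end

end Pf72953.Pl
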