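import Mathlib
import Pool.Agent.Lib.Pf72953n.Eta

/-!
An inertial automorphism which permutes the coordinates `x̃` acts trivially on `S`.
-/

set_option autoImplicit false

open scoped WithZero
open Pf72953

namespace Pf72953.Pl

theorem exists_period {α : Type*} {S : Finset α} {s : α → α} (hm : ∀ e ∈ S, s e ∈ S)
    (hi : ∀ a ∈ S, ∀ b ∈ S, s a = s b → a = b) : ∃ n, 1 ≤ n ∧ ∀ a ∈ S, s^[n] a = a := by
  classical
  let f : S → S := fun a => ⟨s a, hm a a.2⟩
  have hf : Function.Injective f := fun a b hab =>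
    Subtype.ext (hi a a.2 b b.2 (congrArg Subtype.val hab))
  let e : Equiv.Perm S := Equiv.ofBijective f (Finite.injective_iff_bijective.1 hf)
  have key : ∀ (n : ℕ) (a : S), ((e ^ n) a : α) = s^[n] a := by
    intro n
    induction n with
    | zero => intro a; rfl
    | succ n ih =>
      intro a
      rw [pow_succ, Function.iterate_succ_apply]
      exact ih (e a)
  refine ⟨orderOf e, orderOf_pos e, fun a ha => ?_⟩
  rw [← key (orderOf e) ⟨a, ha⟩, pow_orderOf_eq_one]
  rfl

variable {P N : Type*} [Field P] [Field N] [Algebra P N] {w : Valuation N ℤᵐ⁰} {x : N}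
  {D : Derivation P N N} {ρ : ℤᵐ⁰}

theorem RelNorm.D_xc (h : RelNorm P w x D ρ) (i j l : P) (hxi : x ≠ algebraMap P N i)
    (hxj : x ≠ algebraMap P N j) :
    D (xc x (algebraMap P N i) (algebraMap P N j) (algebraMap P N l)) =
      xc x (algebraMap P N i) (algebraMap P N j) (algebraMap P N l) *
        hh x (algebraMap P N i) (algebraMap P N j) := by
  have hxi' := sub_ne_zero.2 hxi
  have hxj' := sub_ne_zero.2 hxj
  have e4 : xc x (algebraMap P N i) (algebraMap P N j) (algebraMap P N l) =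
      algebraMap P N ((l - j) / (l - i)) *
        ((x - algebraMap P N i) / (x - algebraMap P N j)) := by
    unfold xc
    rw [map_div₀, map_sub, map_sub, mul_div_mul_comm, mul_comm]
  rw [e4, D.leibniz, D.map_algebraMap, smul_zero, add_zero, smul_eq_mul, h.D_quot i j hxj]
  unfold hh
  field_simp

variable [DecidableEq N]

theorem fixS_twisted {S : Finset N} (hS : ∀ e ∈ S, ∃ e' : P, algebraMap P N e' = e)
    (h : RelNorm P w x D ρ) (hh1 : ∀ a ∈ S, ∀ b ∈ S, a ≠ b → ρ * w (hh x a b) = 1)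
    (hnat : ∀ n : ℕ, n ≠ 0 → w (n : N) = 1)
    (h3 : ∀ a ∈ S, ∀ b ∈ S, a ≠ b → ∃ c ∈ S, c ≠ a ∧ c ≠ b) (f : N → N) {s : N → N}
    (hm : ∀ e ∈ S, s e ∈ S) (hi : ∀ a ∈ S, ∀ b ∈ S, s a = s b → a = b)
    (hxc : ∀ i ∈ S, ∀ j ∈ S, ∀ l ∈ S, i ≠ j → i ≠ l → j ≠ l →
      f (xc x i j l) = xc x (s i) (s j) (s l))
    (hf : ∀ z, w z ≤ 1 → w (f z - z) < 1) : ∀ e ∈ S, s e = e := by
  classical
  have hρ : ∀ a ∈ S, ∀ b ∈ S, a ≠ b → ρ ≠ 0 ∧ hh x a b ≠ 0 := by
    intro a ha b hb hab
    have h1 := hh1 a ha b hb hab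
    refine ⟨?_, ?_⟩
    · rintro rfl
      rw [zero_mul] at h1
      exact zero_ne_one h1
    · intro h0
      rw [h0, map_zero, mul_zero] at h1
      exact zero_ne_one h1
  have hx : ∀ a ∈ S, ∀ b ∈ S, a ≠ b → x - a ≠ 0 := by
    intro a ha b hb hab h0
    apply (hρ a ha b hb hab).2
    unfold hh
    rw [h0, zero_mul, div_zero]
  have hwh : ∀ a ∈ S, ∀ b ∈ S, a ≠ b → w (hh x a b) = ρ⁻¹ := fun a ha b hb hab =>
    eq_inv_of_mul_eq_one_right (hh1 a ha b hb hab)
  have hwxc : ∀ i ∈ S, ∀ j ∈ S, ∀ l ∈ S, i ≠ j → i ≠ l → j ≠ l → w (xc x i j l) = 1 := by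
    intro i hi' j hj l hl hij hil hjl
    have hxi := hx i hi' j hj hij
    have hxj := hx j hj i hi' hij.symm
    have hxl := hx l hl i hi' hil.symm
    have hli : l - i ≠ 0 := sub_ne_zero.2 hil.symm
    have hlj : l - j ≠ 0 := sub_ne_zero.2 hjl.symm
    have e1 : xc x i j l = hh x l j / hh x l i := by
      unfold xc hh
      field_simp
    rw [e1, map_div₀, hwh l hl j hj hjl.symm, hwh l hl i hi' hil.symm,
      div_self (inv_ne_zero (hρ i hi' j hj hij).1)]
  have hDxc : ∀ i ∈ S, ∀ j ∈ S, ∀ l ∈ S, i ≠ j →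
      D (xc x i j l) = xc x i j l * hh x i j := by
    intro i hi' j hj l hl hij
    obtain ⟨i', rfl⟩ := hS i hi'
    obtain ⟨j', rfl⟩ := hS j hj
    obtain ⟨l', rfl⟩ := hS l hl
    exact h.D_xc i' j' l' (sub_ne_zero.1 (hx _ hi' _ hj hij)) (sub_ne_zero.1 (hx _ hj _ hi' hij.symm))
  -- the difference of the forms
  have key : ∀ a ∈ S, ∀ b ∈ S, a ≠ b → ρ * w (hh x (s a) (s b) - hh x a b) < 1 := by
    intro a ha b hb hab
    obtain ⟨c, hc, hca, hcb⟩ := h3 a ha b hb hab
    have hsab : s a ≠ s b := fun h0 => hab (hi a ha b hb h0)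
    have hsac : s a ≠ s c := fun h0 => hca.symm (hi a ha c hc h0)
    have hsbc : s b ≠ s c := fun h0 => hcb.symm (hi b hb c hc h0)
    have w1 := hwxc a ha b hb c hc hab hca.symm hcb.symm
    have w2 := hwxc _ (hm a ha) _ (hm b hb) _ (hm c hc) hsab hsac hsbc
    have d1 := hDxc a ha b hb c hc hab
    have d2 := hDxc _ (hm a ha) _ (hm b hb) _ (hm c hc) hsab
    have h1 := hf _ w1.le
    rw [hxc a ha b hb c hc hab hca.symm hcb.symm] at h1
    have h2 := h.le (xc x (s a) (s b) (s c) - xc x a b c)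
    have h4 : xc x (s a) (s b) (s c) * (hh x (s a) (s b) - hh x a b) =
        D (xc x (s a) (s b) (s c) - xc x a b c) -
          (xc x (s a) (s b) (s c) - xc x a b c) * hh x a b := by
      rw [map_sub, d1, d2]
      ring
    have hρ0 : ρ ≠ 0 := (hρ a ha b hb hab).1
    have h5 : w (hh x (s a) (s b) - hh x a b) =
        w (xc x (s a) (s b) (s c) * (hh x (s a) (s b) - hh x a b)) := by
      rw [map_mul, w2, one_mul]
    rw [h5, h4, mul_comm, ← lt_div_iff₀ (zero_lt_iff.2 hρ0), one_div]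
    refine lt_of_le_of_lt (w.map_sub _ _) (max_lt ?_ ?_)
    · rw [← one_div, lt_div_iff₀ (zero_lt_iff.2 hρ0)]
      exact lt_of_le_of_lt h2 h1
    · rw [map_mul, hwh a ha b hb hab]
      exact mul_lt_of_lt_one_left (zero_lt_iff.2 (inv_ne_zero hρ0)) h1
  -- the translation
  intro a ha
  by_contra hne
  have hρ0 : ρ ≠ 0 := (hρ _ (hm a ha) a ha hne).1
  have hxe : ∀ e ∈ S, x - e ≠ 0 := by
    intro e he
    rcases eq_or_ne e a with rfl | hea
    · exact hx _ ha _ (hm _ ha) (Ne.symm hne)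
    · exact hx _ he _ ha hea
  set d : N → N := fun e => 1 / (x - s e) - 1 / (x - e) with hd
  have hdd : ∀ b ∈ S, ρ * w (d a - d b) < 1 := by
    intro b hb
    rcases eq_or_ne a b with rfl | hab
    · rw [sub_self, map_zero, mul_zero]
      exact zero_lt_one
    · have e1 : d a - d b = hh x (s a) (s b) - hh x a b := by
        have h1 := hxe a ha
        have h2 := hxe b hb
        have h4 := hxe _ (hm a ha)
        have h5 := hxe _ (hm b hb)
        rw [hd]
        unfold hh
        field_simp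
        ring
      rw [e1]
      exact key a ha b hb hab
  obtain ⟨n, hn, hper⟩ := exists_period hm hi
  have hmem : ∀ m : ℕ, s^[m] a ∈ S := by
    intro m
    induction m with
    | zero => exact ha
    | succ m ih =>
      rw [Function.iterate_succ_apply']
      exact hm _ ih
  have htel : ∀ m : ℕ, ∑ i ∈ Finset.range m, d (s^[i] a) = 1 / (x - s^[m] a) - 1 / (x - a) := by
    intro m
    induction m with
    | zero => simp
    | succ m ih =>
      rw [Finset.sum_range_succ, ih, hd, Function.iterate_succ_apply']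
      simp
  have h6 : (n : N) * d a = ∑ i ∈ Finset.range n, (d a - d (s^[i] a)) := by
    rw [Finset.sum_sub_distrib, htel, hper a ha, sub_self, sub_zero, Finset.sum_const,
      Finset.card_range, nsmul_eq_mul]
  have h7 : w ((n : N) * d a) < ρ⁻¹ := by
    rw [h6]
    refine Valuation.map_sum_lt w (inv_ne_zero hρ0) fun i _ => ?_
    rw [← one_div, lt_div_iff₀ (zero_lt_iff.2 hρ0), mul_comm]
    exact hdd _ (hmem i)
  rw [map_mul, hnat n (by omega), one_mul] at h7
  have h8 : d a = hh x (s a) a := by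
    have h1 := hxe a ha
    have h4 := hxe _ (hm a ha)
    rw [hd]
    unfold hh
    field_simp
    ring
  rw [h8, hwh _ (hm a ha) a ha hne] at h7
  exact lt_irrefl _ h7

end Pf72953.Pl
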