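import Mathlib
import Pool.Agent.Lib.Pf72953n.Tw2
import Pool.Agent.Lib.Pf72953n.TwF

/-!
The covering field over a family of rational curves and its ramification.
-/

set_option autoImplicit false
set_option linter.style.haveILetI false

open scoped WithZero Polynomial
open Pf72953 Pf72953.Mov Pf72953.Tow

namespace Pf72953.Pl

variable {k Ω : Type*} [Field k] [Field Ω] [Algebra k Ω]

theorem trip_third {S : Finset Ω} (h : (trip S).Nonempty) :
    ∀ a ∈ S, ∀ b ∈ S, a ≠ b → ∃ c ∈ S, c ≠ a ∧ c ≠ b := by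
  intro a _ b _ hab
  obtain ⟨p, hp⟩ := h
  obtain ⟨⟨h1, h2, h3⟩, h4, h5, h6⟩ := mem_trip.1 hp
  by_cases c1 : p.1 = a
  · by_cases c2 : p.2.1 = b
    · exact ⟨p.2.2, h3, fun h => h5 (c1.trans h.symm), fun h => h6 (c2.trans h.symm)⟩
    · exact ⟨p.2.1, h2, fun h => h4 (c1.trans h.symm), c2⟩
  · by_cases c2 : p.1 = b
    · by_cases c3 : p.2.1 = a
      · exact ⟨p.2.2, h3, fun h => h6 (c3.trans h.symm), fun h => h5 (c2.trans h.symm)⟩
      · exact ⟨p.2.1, h2, c3, fun h => h4 (c2.trans h.symm)⟩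
    · exact ⟨p.1, h1, c1, c2⟩

theorem bp_eq {P : IntermediateField k Ω} {S : Finset Ω} (hS : ∀ e ∈ S, e ∈ P) : bp P S = P := by
  refine sup_eq_left.2 ?_
  rw [IntermediateField.adjoin_le_iff]
  exact fun e he => hS e he

variable [CharZero k] [IsAlgClosed Ω]

/-- `R` is Galois over `V·Y₂` -/
theorem Tw.cover_gal {V T Q P X Y₂ R : IntermediateField k Ω} {x t : Ω} {S : Finset Ω}
    {ψ : Ω × Ω × Ω → (Ω ≃ₐ[k] Ω)} (hT : Tw V T Q P x S) (hVT : V ≤ T) (hG : Gal T Q)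
    (hC : Cover P (X ⊔ P) (Q ⊔ P) x S Y₂ t ψ R) (htY : t ∈ Y₂) : Gal (V ⊔ Y₂) R := by
  have hbp : bp P S = P := bp_eq hT.mem
  have hPR : P ≤ R := hbp ▸ hC.le
  have hYR : Y₂ ≤ R := le_sup_right.trans hC.gal.le
  have hVP : V ≤ P := hT.gal.le
  have halg : R ≤ cl (V ⊔ Y₂) := by
    refine (alg_iff.1 hC.gal.alg).trans (cl_le (sup_le ?_ (le_sup_right.trans le_cl)))
    exact (alg_iff.1 hT.gal.alg).trans (cl_mono le_sup_left)
  refine ⟨sup_le (hVP.trans hPR) hYR, alg_iff.2 halg, fun σ hσ z hz => ?_⟩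
  have hσV : Fixes σ V := hσ.mono le_sup_left
  have hσY : Fixes σ Y₂ := hσ.mono le_sup_right
  have hσP : Stab σ P := hT.gal.stab σ hσV
  have hPψ : ∀ p ∈ trip S, ∀ z ∈ P, ψ p z = z := fun p hp z hz =>
    hC.fix p hp z (mem_sup_left' (mem_sup_right' hz))
  -- the images of the specializations
  have key : ∀ p ∈ trip S, ∀ z ∈ Q ⊔ P, σ (ψ p z) ∈ R := by
    intro p hp z hz
    obtain ⟨τ, hτ, hτσ⟩ := hT.lift σ hσV
    obtain ⟨s, hs⟩ := hT.act τ hτ
    obtain ⟨q, hq⟩ : ∃ q : Ω × Ω × Ω, q = (s p.1, s p.2.1, s p.2.2) := ⟨_, rfl⟩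
    have hqS : q ∈ trip S := hq ▸ hs.trip hp
    obtain ⟨θ, hθ⟩ : ∃ θ : Ω ≃ₐ[k] Ω, θ = ((ψ p).trans σ).trans (ψ q).symm := ⟨_, rfl⟩
    have hθP : ∀ z ∈ P, θ z = τ z := by
      intro z hz
      rw [hθ, AlgEquiv.trans_apply, AlgEquiv.trans_apply, hPψ p hp z hz, AlgEquiv.symm_apply_eq,
        hτσ z hz]
      exact (hPψ q hqS _ (hσP z hz)).symm
    have hθx : θ (xc x p.1 p.2.1 p.2.2) = τ (xc x p.1 p.2.1 p.2.2) := by
      rw [hθ, AlgEquiv.trans_apply, AlgEquiv.trans_apply, hC.map p hp, hσY t htY,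
        AlgEquiv.symm_apply_eq, hs.xc p hp]
      have h1 := hC.map q hqS
      rw [hq] at h1 ⊢
      exact h1.symm
    have hfix : Fixes (θ.trans τ.symm) (P ⊔ IntermediateField.adjoin k {xc x p.1 p.2.1 p.2.2}) := by
      have h1 : Fixes (θ.trans τ.symm) P := fun z hz => by
        rw [AlgEquiv.trans_apply, hθP z hz, AlgEquiv.symm_apply_apply]
      refine h1.sup79 ?_
      rw [fixes_iff79]
      refine adjoin_one_le ?_
      change (θ.trans τ.symm) (xc x p.1 p.2.1 p.2.2) = xc x p.1 p.2.1 p.2.2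
      rw [AlgEquiv.trans_apply, hθx, AlgEquiv.symm_apply_apply]
    obtain ⟨⟨h1, h2, h3⟩, h4, h5, h6⟩ := mem_trip.1 hp
    rw [adjoin_xc_eq hT.trans (hT.mem _ h1) (hT.mem _ h2) (hT.mem _ h3) h4 h5 h6, ← hT.gen] at hfix
    have hθT : Fixes θ T := by
      intro z hz
      have h7 := hfix z (mem_sup_left' hz)
      rw [AlgEquiv.trans_apply, AlgEquiv.symm_apply_eq, hτ z hz] at h7
      exact h7
    have hθQ : Stab θ (Q ⊔ P) := (hG.stab θ hθT).sup (hT.gal.stab θ (hθT.mono hVT))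
    have h7 : σ (ψ p z) = ψ q (θ z) := by
      rw [hθ, AlgEquiv.trans_apply, AlgEquiv.trans_apply, AlgEquiv.apply_symm_apply]
    rw [h7]
    exact hC.img q hqS _ (mem_sup_left' (hθQ z hz))
  have halgσ : IsAlgebraic R (σ z) := by
    have h1 : IsAlgebraic (P ⊔ Y₂ : IntermediateField k Ω) (σ z) := by
      refine alg_map (A := P ⊔ Y₂) (fun a ha => ?_) (hC.gal.alg z hz)
      exact (hσP.sup hσY.stab) a ha
    exact alg_mono hC.gal.le h1
  refine mem_of_fixed hC.fin halgσ fun τ hτ => ?_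
  have hfix : Fixes ((σ.trans τ).trans σ.symm) R := by
    refine hC.gen _ ?_ ?_ ?_
    · intro y hy
      rw [AlgEquiv.trans_apply, AlgEquiv.trans_apply, hσY y hy, hτ y (hYR hy),
        AlgEquiv.symm_apply_eq, hσY y hy]
    · rw [hbp]
      intro y hy
      rw [AlgEquiv.trans_apply, AlgEquiv.trans_apply, hτ _ (hPR (hσP y hy)),
        AlgEquiv.symm_apply_apply]
    · rw [hbp, sup_assoc, sup_idem]
      intro p hp y hy
      rw [AlgEquiv.trans_apply, AlgEquiv.trans_apply, hτ _ (key p hp y hy),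
        AlgEquiv.symm_apply_apply]
  have h1 := hfix z hz
  rw [AlgEquiv.trans_apply, AlgEquiv.trans_apply, AlgEquiv.symm_apply_eq] at h1
  exact h1

variable [IsAlgClosed k]

/-- the ramification of `X·Q·R` over `X·Q·Y₂` -/
theorem Tw.unr_cover {V T Q P X Y₂ R XX PP N : IntermediateField k Ω} {x t : Ω} {S : Finset Ω}
    {ψ : Ω × Ω × Ω → (Ω ≃ₐ[k] Ω)} (hT : Tw V T Q P x S) (hVT : V ≤ T) (hG : Gal T Q)
    (hC : Cover P (X ⊔ P) (Q ⊔ P) x S Y₂ t ψ R) (hne : (trip S).Nonempty)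
    (hXX : XX = X ⊔ Q ⊔ Y₂) (hPP : PP = X ⊔ R) (hN : N = R ⊔ XX)
    (hX : Fin' X) (hQ : Fin' Q) (hY₂ : Fin' Y₂) (hVX : V ≤ X)
    (hx : Transcendental (X ⊔ P : IntermediateField k Ω) x)
    (htY : t ∈ Y₂) [f1 : Fact (XX ≤ N)] [f2 : Fact (PP ≤ N)] [DecidableEq N]
    (w : Valuation N ℤᵐ⁰) (hk : ∀ a : k, a ≠ 0 → w (algebraMap k _ a) = 1)
    {SN : Finset N} (hSN : ∀ z, z ∈ SN ↔ (z : Ω) ∈ S)
    {m : N → N → ℕ} (hm : ∀ a ∈ SN, ∀ b ∈ SN, 1 ≤ m a b) (hxN : x ∈ N) (htN : t ∈ N)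
    (hns : ¬ Small PP w ⟨x, hxN⟩ ⟨t, htN⟩ (GG SN m ⟨x, hxN⟩)
      (TT SN ⟨x, hxN⟩ ⟨t, htN⟩) (MG SN m) (MT SN)) :
    Br.Unr XX w := by
  classical
  have hPf := hT.fin
  have hbp : bp P S = P := bp_eq hT.mem
  have hPR : P ≤ R := hbp ▸ hC.le
  have hXXf : Fin' XX := hXX ▸ fin_sup (fin_sup hX hQ) hY₂
  have hNf : Fin' N := hN ▸ fin_sup hC.fin hXXf
  have hX1 : X ≤ XX := hXX ▸ le_sup_left.trans le_sup_left
  have hQ1 : Q ≤ XX := hXX ▸ le_sup_right.trans le_sup_left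
  have hY1 : Y₂ ≤ XX := hXX ▸ le_sup_right
  have hRN : R ≤ N := hN ▸ le_sup_left
  have hPN : P ≤ N := hPR.trans hRN
  have hRPP : R ≤ PP := hPP ▸ le_sup_right
  have hTXX : T ≤ XX := hG.le.trans hQ1
  have hVXX : V ≤ XX := hVX.trans hX1
  have hGR : Gal (V ⊔ Y₂) R := hT.cover_gal hVT hG hC htY
  have hGN : Gal XX N := by
    rw [hN]
    exact hGR.base XX (sup_le hVXX hY1)
  obtain ⟨i1, i2⟩ := hGN.finite hNf
  have hSPP : ∀ e ∈ S, e ∈ PP := fun e he => hRPP (hPR (hT.mem e he))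
  have hSR : ∀ e ∈ S, e ∈ N := fun e he => hPN (hT.mem e he)
  have hSN' : ∀ e ∈ SN, ∃ e' : PP, algebraMap PP N e' = e := fun e he =>
    ⟨⟨e, hSPP _ ((hSN e).1 he)⟩, rfl⟩
  have hnat : ∀ n : ℕ, n ≠ 0 → w (n : N) = 1 := fun n hn => by
    have h1 := hk (n : k) (Nat.cast_ne_zero.2 hn)
    rwa [map_natCast] at h1
  -- over `P`
  obtain ⟨XP, hXP⟩ : ∃ XP, XP = X ⊔ P ⊔ (Q ⊔ P) ⊔ Y₂ := ⟨_, rfl⟩
  have hXPeq : XP = XX ⊔ P := by
    rw [hXP, hXX]
    refine le_antisymm (sup_le (sup_le (sup_le ?_ le_sup_right) (sup_le ?_ le_sup_right)) ?_)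
      (sup_le (sup_le (sup_le ?_ ?_) le_sup_right) ?_)
    · exact le_sup_left.trans (le_sup_left.trans le_sup_left)
    · exact le_sup_right.trans (le_sup_left.trans le_sup_left)
    · exact le_sup_right.trans le_sup_left
    · exact le_sup_left.trans (le_sup_left.trans le_sup_left)
    · exact le_sup_left.trans (le_sup_right.trans le_sup_left)
    · exact le_sup_right.trans (le_sup_left.trans le_sup_left)
  haveI f3 : Fact (XP ≤ N) := ⟨hXPeq ▸ sup_le f1.out hPN⟩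
  have hXPf : Fin' XP := hXPeq ▸ fin_sup hXXf hPf
  have hGNP : Gal XP N := by
    have h1 := hGN.base XP (hXPeq ▸ le_sup_left)
    rwa [sup_eq_left.2 f3.out] at h1
  obtain ⟨i3, i4⟩ := hGNP.finite hNf
  have hunr : Br.Unr XP w := by
    refine Pl.unr_cover hC hT.br hXP (PP := PP) (N := N) ?_ ?_ hPf (fin_sup hX hPf)
      (fin_sup hQ hPf) hY₂ le_sup_right hx (gal_split hG hT.gen)
      (fun e he => alg_of_mem (hT.mem e he)) (fun σ hσ e he => ?_) htY w hk hSN hm hxN htN hns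
    · rw [hPP]
      exact le_antisymm (sup_le (le_sup_left.trans le_sup_left) le_sup_right)
        (sup_le (sup_le le_sup_left (hPR.trans le_sup_right)) le_sup_right)
    · rw [hN, hXPeq]
      exact le_antisymm (sup_le le_sup_left (le_sup_left.trans le_sup_right))
        (sup_le le_sup_left (sup_le le_sup_right (hPR.trans le_sup_left)))
    · rw [hσ e (hT.mem e he)]
      exact he
  obtain ⟨D, ρ, hR, ht1, ht2, hhh, hq⟩ := exists_of_not_small hm hSN' hns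
  refine Br.unr_of_inertia (fun σ hin => ?_)
  obtain ⟨σ', hσX', hσ'⟩ := hGN.exists_ext hNf σ
  have hσXX : Fixes σ' XX := hσX'
  have hσT : Fixes σ' T := hσXX.mono hTXX
  obtain ⟨s, hs⟩ := hT.act σ' hσT
  -- the action on `SN`
  let sN : N → N := fun z => if h : (z : Ω) ∈ S then ⟨s z, hSR _ (hs.mem _ h)⟩ else z
  have hsN : ∀ z : N, (z : Ω) ∈ S → (sN z : Ω) = s z := by
    intro z hz
    change ((if h : (z : Ω) ∈ S then ⟨s z, hSR _ (hs.mem _ h)⟩ else z : N) : Ω) = s z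
    rw [dif_pos hz]
  have hfixN : ∀ e ∈ SN, sN e = e := by
    refine fixS_twisted (P := PP) (N := N) hSN' hR hhh hnat ?_ (fun z => σ z) (s := sN) ?_ ?_ ?_ hin
    · intro a ha b hb hab
      obtain ⟨c, hc, h1, h2⟩ := trip_third hne a ((hSN a).1 ha) b ((hSN b).1 hb)
        (fun h => hab (Subtype.ext h))
      exact ⟨⟨c, hSR c hc⟩, (hSN _).2 hc, fun h => h1 (congrArg Subtype.val h),
        fun h => h2 (congrArg Subtype.val h)⟩
    · intro e he
      rw [hSN, hsN e ((hSN e).1 he)]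
      exact hs.mem _ ((hSN e).1 he)
    · intro a ha b hb hab
      have h1 := congrArg (Subtype.val : N → Ω) hab
      have h2 : (sN a : Ω) = (sN b : Ω) := h1
      rw [hsN a ((hSN a).1 ha), hsN b ((hSN b).1 hb)] at h2
      exact Subtype.ext (hs.inj _ ((hSN a).1 ha) _ ((hSN b).1 hb) h2)
    · intro i hi j hj l hl hij hil hjl
      apply Subtype.ext
      rw [hSN] at hi hj hl
      have h1 : (((xc (⟨x, hxN⟩ : N) (sN i) (sN j) (sN l) : N)) : Ω) =
          xc x (sN i) (sN j) (sN l) := rfl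
      have h2 : ((σ (xc (⟨x, hxN⟩ : N) i j l) : N) : Ω) = σ' (xc x i j l) :=
        (hσ' (xc (⟨x, hxN⟩ : N) i j l)).symm
      change ((σ (xc (⟨x, hxN⟩ : N) i j l) : N) : Ω) = _
      rw [h1, h2, hsN i hi, hsN j hj, hsN l hl]
      exact hs.xc (i, j, l) (mem_trip.2 ⟨⟨hi, hj, hl⟩, fun h => hij (Subtype.ext h),
        fun h => hil (Subtype.ext h), fun h => hjl (Subtype.ext h)⟩)
  have hfixS : ∀ e ∈ S, s e = e := by
    intro e he
    have h1 := hfixN ⟨e, hSR e he⟩ ((hSN _).2 he)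
    have h2 := congrArg (Subtype.val : N → Ω) h1
    rw [hsN ⟨e, hSR e he⟩ he] at h2
    exact h2
  have hfixP : Fixes σ' P := by
    refine hT.faith σ' hσT fun p hp => ?_
    obtain ⟨⟨h1, h2, h3⟩, -, -, -⟩ := mem_trip.1 hp
    rw [hs.xc p hp, hfixS _ h1, hfixS _ h2, hfixS _ h3]
  have hfixXP : Fixes σ' XP := hXPeq ▸ hσXX.sup79 hfixP
  obtain ⟨s₂, hs₂⟩ := Tow.exists_restrict hGNP hfixXP
  have hs₂1 : s₂ = 1 := by
    refine inertia_of_unr (k := k) hk hunr s₂ fun z hz => ?_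
    have h1 := hin z hz
    have h2 : s₂ z = σ z := Subtype.ext (by rw [hs₂, hσ'])
    rw [h2]
    exact h1
  ext u
  have h6 := hσ' u
  have h7 := hs₂ u
  rw [hs₂1] at h7
  rw [← h6]
  exact h7.symm

end Pf72953.Pl
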