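import Mathlib
import Pool.Agent.Lib.Pf72953n.TwR
import Pool.Agent.Lib.Pf72953n.Line

/-!
The indices of the branch points over a family of rational curves.
-/

set_option autoImplicit false
set_option linter.style.haveILetI false

open scoped WithZero Polynomial
open Pf72953 Pf72953.Mov Pf72953.Tow

namespace Pf72953.Pl

section field

variable {K N : Type*} [Field K] [Field N] [Algebra K N]

theorem idx_unique {x e : N} {r r' : ℕ} (h : IsIdx K x e r) (h' : IsIdx K x e r') (hne : x ≠ e)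
    {u : Valuation N ℤᵐ⁰} (hu : ∀ a : K, a ≠ 0 → u (algebraMap K N a) = 1) (hlt : u (x - e) < 1) :
    r = r' := by
  obtain ⟨t, ht1, ht2, ht3⟩ := h u hu hlt
  obtain ⟨t', ht1', ht2', ht3'⟩ := h' u hu hlt
  have h1 : u t = u t' := le_antisymm (ht2' t ht1) (ht2 t' ht1')
  have h0 : u (x - e) ≠ 0 := (Valuation.ne_zero_iff u).2 (sub_ne_zero.2 hne)
  have hr0 : r ≠ 0 := by
    rintro rfl
    rw [pow_zero] at ht3
    exact hlt.ne ht3
  have ht0 : 0 < u t := by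
    rw [zero_lt_iff]
    intro h2
    rw [h2, zero_pow hr0] at ht3
    exact h0 ht3
  rw [ht3, h1] at ht3'
  rw [h1] at ht0 ht1
  exact (pow_right_strictAnti₀ ht0 ht1).injective ht3'

/-- the places with `x = e` are the zeros of `xc x e b c` -/
theorem val_xc {u : Valuation N ℤᵐ⁰} {x e b c : N} (heb : u (e - b) = 1)
    (hec : u (c - e) = 1) (hbc : u (c - b) = 1) (hxb : x ≠ b) :
    (u (x - e) < 1 → u (xc x e b c) = u (x - e)) ∧
      (u (xc x e b c) < 1 → u (x - e) < 1 ∧ u (xc x e b c) = u (x - e)) := by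
  have h1 : u (xc x e b c) = u (x - e) / u (x - b) := by
    unfold xc
    rw [map_div₀, map_mul, map_mul, hbc, hec, mul_one, mul_one]
  have h2 : x - b = (x - e) + (e - b) := by ring
  have h3 : u (x - e) < 1 → u (xc x e b c) = u (x - e) := by
    intro hlt
    have h4 : u (x - b) = 1 := by
      rw [h2, u.map_add_eq_of_lt_right (by rw [heb]; exact hlt), heb]
    rw [h1, h4, div_one]
  refine ⟨h3, fun hlt => ?_⟩
  have h5 : u (x - e) < 1 := by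
    by_contra hcon
    rw [not_lt] at hcon
    rcases hcon.lt_or_eq with hc | hc
    · have h4 : u (x - b) = u (x - e) := by
        rw [h2, u.map_add_eq_of_lt_left (by rw [heb]; exact hc)]
      rw [h1, h4, div_self (zero_lt_one.trans hc).ne'] at hlt
      exact lt_irrefl _ hlt
    · have h4 : u (x - b) ≤ 1 := by
        rw [h2]
        exact (u.map_add _ _).trans (max_le hc.ge heb.le)
      rw [h1, ← hc, one_div] at hlt
      have h0 : u (x - b) ≠ 0 := (Valuation.ne_zero_iff u).2 (sub_ne_zero.2 hxb)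
      exact absurd hlt (not_lt.2 ((one_le_inv₀ (zero_lt_iff.2 h0)).2 h4))
  exact ⟨h5, h3 h5⟩

end field

variable {k Ω : Type*} [Field k] [Field Ω] [Algebra k Ω] [CharZero k] [IsAlgClosed Ω]
  [IsAlgClosed k]

omit [Algebra k Ω] [Field k] [CharZero k] [IsAlgClosed Ω] [IsAlgClosed k] in
theorem trip_two {S : Finset Ω} (h : (trip S).Nonempty) :
    ∀ a ∈ S, ∃ b ∈ S, ∃ c ∈ S, a ≠ b ∧ a ≠ c ∧ b ≠ c := by
  intro a ha
  obtain ⟨p, hp⟩ := h
  obtain ⟨⟨h1, h2, h3⟩, h4, h5, h6⟩ := mem_trip.1 hp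
  by_cases c1 : a = p.1
  · exact ⟨_, h2, _, h3, c1 ▸ h4, c1 ▸ h5, h6⟩
  · by_cases c2 : a = p.2.1
    · exact ⟨_, h1, _, h3, c2 ▸ h4.symm, c2 ▸ h6, h5⟩
    · exact ⟨_, h1, _, h2, c1, c2, h4⟩

/-- the indices of the branch points -/
theorem Tw.exists_idx {V T Q P X : IntermediateField k Ω} {x : Ω} {S : Finset Ω}
    (hT : Tw V T Q P x S) (hne : (trip S).Nonempty) (hX : Fin' X) (hQ : Fin' Q) (hVX : V ≤ X)
    (hx : Transcendental (X ⊔ P : IntermediateField k Ω) x) (hG : Gal T Q)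
    {K M : IntermediateField k Ω} (hK : K = X ⊔ P) (hM : M = K ⊔ Q) [Fact (K ≤ M)] (hxM : x ∈ M)
    {δ : ℕ} (hδ : δ ≤ 1) (hκ : KodairaGE K M δ) :
    ∃ r : Ω → ℕ, (∀ e ∈ S, 2 ≤ r e) ∧
      (∀ e ∈ S, ∃ he : e ∈ M, IsIdx K (⟨x, hxM⟩ : M) ⟨e, he⟩ (r e)) ∧
      (∀ σ : Ω ≃ₐ[k] Ω, Fixes σ (X ⊔ Q) → ∀ s, Act σ x S s → ∀ e ∈ S, r (s e) = r e) ∧
      2 * ∏ e ∈ S, r e + δ ≤ ∑ e ∈ S, (∏ e ∈ S, r e - (∏ e ∈ S, r e) / r e) := by
  classical
  have hPf := hT.fin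
  have hbp : bp P S = P := bp_eq hT.mem
  have hKM : K ≤ M := Fact.out
  have hPK : P ≤ K := hK ▸ le_sup_right
  have hXK : X ≤ K := hK ▸ le_sup_left
  have hK' : K = X ⊔ P ⊔ bp P S := by rw [hbp, sup_assoc, sup_idem, hK]
  have hM' : M = K ⊔ (Q ⊔ P) := by
    rw [hM]
    exact le_antisymm (sup_le le_sup_left (le_sup_left.trans le_sup_right)) (sup_le le_sup_left
      (sup_le le_sup_right (hPK.trans le_sup_left)))
  have hKf : Fin' K := hK ▸ fin_sup hX hPf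
  have hMf : Fin' M := hM ▸ fin_sup hKf hQ
  have hxK : Transcendental K x := hK ▸ hx
  obtain ⟨r, hr2, hridx, -, hsum⟩ := Pl.exists_idx (V := P) (X := X ⊔ P) (Q := Q ⊔ P) (M := M)
    hT.br hPf (fin_sup hX hPf) (fin_sup hQ hPf) le_sup_right hx (gal_split hG hT.gen)
    (fun e he => alg_of_mem (hT.mem e he)) (fun σ hσ e he => by
      rw [hσ e (hT.mem e he)]
      exact he) hK' hM' hxM hδ hκ
  refine ⟨r, hr2, hridx, fun σ hσ s hs e he => ?_, hsum⟩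
  have hσX : Fixes σ X := hσ.mono le_sup_left
  have hσQ : Fixes σ Q := hσ.mono le_sup_right
  have hσV : Fixes σ V := hσX.mono hVX
  have hσK : Stab σ K := hK ▸ hσX.stab.sup (hT.gal.stab σ hσV)
  have hσK' : Stab σ.symm K := hK ▸ hσX.symm79.stab.sup (hT.gal.stab _ hσV.symm79)
  have hσM : Stab σ M := hM ▸ hσK.sup hσQ.stab
  have hσM' : Stab σ.symm M := hM ▸ hσK'.sup hσQ.symm79.stab
  let φ : M ≃+* M :=
    { toFun := fun z => ⟨σ z, hσM z z.2⟩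
      invFun := fun z => ⟨σ.symm z, hσM' z z.2⟩
      left_inv := fun z => Subtype.ext (σ.symm_apply_apply z)
      right_inv := fun z => Subtype.ext (σ.apply_symm_apply z)
      map_mul' := fun a b => Subtype.ext (map_mul σ (a : Ω) b)
      map_add' := fun a b => Subtype.ext (map_add σ (a : Ω) b) }
  have hse : s e ∈ S := hs.mem e he
  have hSK : ∀ a ∈ S, a ∈ K := fun a ha => hPK (hT.mem a ha)
  obtain ⟨heM, hI⟩ := hridx e he
  obtain ⟨hseM, hIs⟩ := hridx (s e) hse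
  -- two further points
  obtain ⟨b, hb, c, hc, heb, hec, hbc⟩ := trip_two hne e he
  have hσxc := hs.xc (e, b, c) (mem_trip.2 ⟨⟨he, hb, hc⟩, heb, hec, hbc⟩)
  simp only at hσxc
  have hseb : s e ≠ s b := fun h => heb (hs.inj e he b hb h)
  have hsec : s e ≠ s c := fun h => hec (hs.inj e he c hc h)
  have hsbc : s b ≠ s c := fun h => hbc (hs.inj b hb c hc h)
  have hxne : ∀ a ∈ K, x ≠ a := fun a ha h => hxK (h ▸ alg_of_mem ha)
  have htr : IsIdx K (⟨x, hxM⟩ : M) ⟨s e, hseM⟩ (r e) := by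
    intro u hu hlt
    have hu' : ∀ a : Ω, ∀ ha : a ∈ K, a ≠ 0 → u ⟨a, hKM ha⟩ = 1 := fun a ha h0 =>
      hu ⟨a, ha⟩ (fun h => h0 (congrArg Subtype.val h))
    have hu2 : ∀ a b : Ω, ∀ (ha : a ∈ K) (hb : b ∈ K), a ≠ b →
        u (⟨a, hKM ha⟩ - ⟨b, hKM hb⟩ : M) = 1 := fun a b ha hb hab =>
      hu' (a - b) (sub_mem ha hb) (sub_ne_zero.2 hab)
    have e1 := (val_xc (u := u) (x := (⟨x, hxM⟩ : M)) (e := ⟨s e, hseM⟩)
      (b := ⟨s b, hKM (hSK _ (hs.mem b hb))⟩) (c := ⟨s c, hKM (hSK _ (hs.mem c hc))⟩)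
      (hu2 _ _ (hSK _ hse) (hSK _ (hs.mem b hb)) hseb)
      (hu2 _ _ (hSK _ (hs.mem c hc)) (hSK _ hse) hsec.symm)
      (hu2 _ _ (hSK _ (hs.mem c hc)) (hSK _ (hs.mem b hb)) hsbc.symm)
      (fun h => hxne _ (hSK _ (hs.mem b hb)) (congrArg Subtype.val h))).1 hlt
    set u₁ : Valuation M ℤᵐ⁰ := u.comap (φ : M →+* M) with hu₁
    have hφ : ∀ z, u₁ z = u (φ z) := fun z => rfl
    have ht1 : ∀ a : K, a ≠ 0 → u₁ (algebraMap K M a) = 1 := by
      intro a ha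
      rw [hφ]
      exact hu' (σ a) (hσK a a.2) (by simpa using ha)
    have ht2 : ∀ a b : Ω, ∀ (ha : a ∈ K) (hb : b ∈ K), a ≠ b →
        u₁ (⟨a, hKM ha⟩ - ⟨b, hKM hb⟩ : M) = 1 := fun a b ha hb hab =>
      ht1 ⟨a - b, sub_mem ha hb⟩ (fun h => hab (sub_eq_zero.1 (congrArg Subtype.val h)))
    have hφxc : φ (xc (⟨x, hxM⟩ : M) ⟨e, heM⟩ ⟨b, hKM (hSK b hb)⟩ ⟨c, hKM (hSK c hc)⟩) =
        xc (⟨x, hxM⟩ : M) ⟨s e, hseM⟩ ⟨s b, hKM (hSK _ (hs.mem b hb))⟩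
          ⟨s c, hKM (hSK _ (hs.mem c hc))⟩ := Subtype.ext hσxc
    have e2 : u₁ (xc (⟨x, hxM⟩ : M) ⟨e, heM⟩ ⟨b, hKM (hSK b hb)⟩ ⟨c, hKM (hSK c hc)⟩) =
        u ((⟨x, hxM⟩ : M) - ⟨s e, hseM⟩) := by
      rw [hφ, hφxc, e1]
    obtain ⟨e3, e4⟩ := (val_xc (u := u₁) (x := (⟨x, hxM⟩ : M)) (e := ⟨e, heM⟩)
      (b := ⟨b, hKM (hSK b hb)⟩) (c := ⟨c, hKM (hSK c hc)⟩)
      (ht2 _ _ (hSK e he) (hSK b hb) heb) (ht2 _ _ (hSK c hc) (hSK e he) hec.symm)
      (ht2 _ _ (hSK c hc) (hSK b hb) hbc.symm)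
      (fun h => hxne _ (hSK b hb) (congrArg Subtype.val h))).2 (by rw [e2]; exact hlt)
    obtain ⟨t, ht3, ht4, ht5⟩ := hI u₁ ht1 e3
    refine ⟨φ t, ht3, fun g hg => ?_, ?_⟩
    · have h1 := ht4 (φ.symm g) (by
        rw [hφ, RingEquiv.apply_symm_apply]
        exact hg)
      rw [hφ, RingEquiv.apply_symm_apply] at h1
      exact h1
    · rw [← e2, e4, ht5]
      rfl
  have halg : ∀ z ∈ M, IsAlgebraic (K ⊔ IntermediateField.adjoin k {x} : IntermediateField k Ω) z := by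
    rw [alg_iff, hM]
    refine sup_le (le_sup_left.trans le_cl) ?_
    refine (le_sup_left.trans (alg_iff.1 (gal_split hG hT.gen).alg)).trans (cl_mono ?_)
    exact sup_le_sup_right hPK _
  obtain ⟨u, hu, hlt⟩ := exists_place (K := K) (L := M) hMf hxK (hSK _ hse) hxM halg
  exact idx_unique hIs htr (fun h => hxne _ (hSK _ hse) (congrArg Subtype.val h)) hu hlt

end Pf72953.Pl
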