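import Mathlib
import Pool.Agent.Lib.Pf72953n.Inv

/-!
Twisted action: the forms `GG`, `TT` and the third form descend to `X`, if `x` is not in `X`.
-/

set_option autoImplicit false

open scoped WithZero Polynomial
open Pf72953

namespace Pf72953.Pl

/-- `s` is the permutation of `S` which belongs to `σ` (`J = dx/dx₀`, `x₀ ∈ X`) -/
structure TAct {N : Type*} [Field N] [DecidableEq N] (σ : N → N) (S : Finset N) (m : N → N → ℕ) (r : N → ℕ)
    (x J : N) (s : N → N) : Prop where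
  mem : ∀ e ∈ S, s e ∈ S
  inj : ∀ a ∈ S, ∀ b ∈ S, s a = s b → a = b
  hh : ∀ a ∈ S, ∀ b ∈ S, a ≠ b → σ (J * hh x a b) = J * Pl.hh x (s a) (s b)
  xc : ∀ i ∈ S, ∀ j ∈ S, ∀ l ∈ S, i ≠ j → i ≠ l → j ≠ l → σ (xc x i j l) = Pl.xc x (s i) (s j) (s l)
  m : ∀ a ∈ S, ∀ b ∈ S, m (s a) (s b) = m a b
  r : ∀ a ∈ S, r (s a) = r a

namespace TAct

variable {N : Type*} [Field N] [DecidableEq N] {σ : N → N} {S : Finset N} {m : N → N → ℕ}
  {r : N → ℕ} {x J : N} {s : N → N}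

theorem ne (h : TAct σ S m r x J s) {a b : N} (ha : a ∈ S) (hb : b ∈ S) (hab : a ≠ b) :
    s a ≠ s b := fun h' => hab (h.inj a ha b hb h')

theorem surj (h : TAct σ S m r x J s) : ∀ b ∈ S, ∃ a ∈ S, s a = b := by
  intro b hb
  have h1 : S.image s = S := by
    refine Finset.eq_of_subset_of_card_le ?_ ?_
    · intro y hy
      obtain ⟨a, ha, rfl⟩ := Finset.mem_image.1 hy
      exact h.mem a ha
    · rw [Finset.card_image_of_injOn fun a ha b hb hab => h.inj a ha b hb hab]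
  rw [← h1] at hb
  obtain ⟨a, ha, hab⟩ := Finset.mem_image.1 hb
  exact ⟨a, ha, hab⟩

theorem DG (h : TAct σ S m r x J s) {j : N} (hj : j ∈ S) : DG S m (s j) = Pl.DG S m j := by
  unfold Pl.DG
  symm
  refine Finset.sum_nbij s ?_ ?_ ?_ ?_
  · intro a ha
    rw [Finset.mem_erase] at ha ⊢
    exact ⟨h.ne ha.2 hj ha.1, h.mem _ ha.2⟩
  · intro a ha b hb hab
    exact h.inj a (Finset.mem_of_mem_erase ha) b (Finset.mem_of_mem_erase hb) hab
  · intro b hb
    have hb' := Finset.mem_erase.1 (Finset.mem_coe.1 hb)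
    obtain ⟨a, ha, hab⟩ := h.surj b hb'.2
    refine ⟨a, ?_, hab⟩
    rw [Finset.mem_coe, Finset.mem_erase]
    refine ⟨?_, ha⟩
    rintro rfl
    exact hb'.1 hab.symm
  · intro a ha
    rw [Finset.mem_erase] at ha
    exact (h.m _ hj _ ha.2).symm

end TAct

section forms

variable {N : Type*} [Field N] [DecidableEq N] (S : Finset N) (m : N → N → ℕ) (x J c : N)

omit [DecidableEq N] in
theorem J_GG : J ^ MG S m * GG S m x = ∏ p ∈ S.offDiag, (J * hh x p.1 p.2) ^ m p.1 p.2 := by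
  unfold MG GG
  rw [← Finset.prod_pow_eq_pow_sum, ← Finset.prod_mul_distrib]
  exact Finset.prod_congr rfl fun p _ => (mul_pow _ _ _).symm

omit [DecidableEq N] in
theorem J_tq (i j l s : N) : J ^ 2 * tq x c i j l s =
    c * ((J * hh x s j) * (J * hh x l i)) - (J * hh x s i) * (J * hh x l j) := by
  unfold tq
  ring

theorem J_TT : J ^ MT S * TT S x c =
    ∏ q ∈ quads S, (J ^ 2 * tq x c q.1 q.2.1 q.2.2.1 q.2.2.2) := by
  unfold MT TT
  rw [Finset.prod_mul_distrib, Finset.prod_const, ← pow_mul]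

end forms

variable {Q X N : Type*} [Field Q] [Field X] [Field N] [Algebra Q N] [Algebra X N] [DecidableEq N]
  [FiniteDimensional X N] [IsGalois X N] {S : Finset N} {r : N → ℕ} {m : N → N → ℕ} {x J : N}

theorem exists_GG' (hs : ∀ σ : N ≃ₐ[X] N, ∃ s, TAct σ S m r x J s) :
    ∃ G : X, algebraMap X N G = J ^ MG S m * GG S m x := by
  have key : J ^ MG S m * GG S m x ∈ Set.range (algebraMap X N) := by
    rw [IsGalois.mem_range_algebraMap_iff_fixed]
    intro σ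
    obtain ⟨s, h⟩ := hs σ
    rw [J_GG, map_prod]
    refine Finset.prod_nbij (fun p => (s p.1, s p.2)) ?_ ?_ ?_ ?_
    · intro p hp
      rw [Finset.mem_offDiag] at hp ⊢
      exact ⟨h.mem _ hp.1, h.mem _ hp.2.1, h.ne hp.1 hp.2.1 hp.2.2⟩
    · intro p hp q hq hpq
      have hp' := Finset.mem_offDiag.1 (Finset.mem_coe.1 hp)
      have hq' := Finset.mem_offDiag.1 (Finset.mem_coe.1 hq)
      have h1 := congrArg Prod.fst hpq
      have h2 := congrArg Prod.snd hpq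
      exact Prod.ext (h.inj _ hp'.1 _ hq'.1 h1) (h.inj _ hp'.2.1 _ hq'.2.1 h2)
    · intro q hq
      have hq' := Finset.mem_offDiag.1 (Finset.mem_coe.1 hq)
      obtain ⟨a, ha, haq⟩ := h.surj _ hq'.1
      obtain ⟨b, hb, hbq⟩ := h.surj _ hq'.2.1
      refine ⟨(a, b), ?_, Prod.ext haq hbq⟩
      rw [Finset.mem_coe, Finset.mem_offDiag]
      refine ⟨ha, hb, ?_⟩
      intro hab
      apply hq'.2.2
      rw [← haq, ← hbq]
      exact congrArg s hab
    · intro p hp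
      rw [Finset.mem_offDiag] at hp
      rw [map_pow]
      change (σ (J * hh x p.1 p.2)) ^ m p.1 p.2 = (J * hh x (s p.1) (s p.2)) ^ m (s p.1) (s p.2)
      rw [h.hh _ hp.1 _ hp.2.1 hp.2.2, h.m _ hp.1 _ hp.2.1]
  exact key

theorem exists_TT' (hs : ∀ σ : N ≃ₐ[X] N, ∃ s, TAct σ S m r x J s) (c : X) :
    ∃ T : X, algebraMap X N T = J ^ MT S * TT S x (algebraMap X N c) := by
  have key : J ^ MT S * TT S x (algebraMap X N c) ∈ Set.range (algebraMap X N) := by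
    rw [IsGalois.mem_range_algebraMap_iff_fixed]
    intro σ
    obtain ⟨s, h⟩ := hs σ
    rw [J_TT, map_prod]
    refine Finset.prod_nbij (fun q => (s q.1, s q.2.1, s q.2.2.1, s q.2.2.2)) ?_ ?_ ?_ ?_
    · intro q hq
      rw [mem_quads] at hq ⊢
      obtain ⟨⟨h1, h2, h3, h4⟩, h5, h6, h7, h8, h9, h10⟩ := hq
      exact ⟨⟨h.mem _ h1, h.mem _ h2, h.mem _ h3, h.mem _ h4⟩, h.ne h1 h2 h5, h.ne h1 h3 h6,
        h.ne h1 h4 h7, h.ne h2 h3 h8, h.ne h2 h4 h9, h.ne h3 h4 h10⟩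
    · intro p hp q hq hpq
      have hp' := (mem_quads.1 (Finset.mem_coe.1 hp)).1
      have hq' := (mem_quads.1 (Finset.mem_coe.1 hq)).1
      have h1 := congrArg (fun z => z.1) hpq
      have h2 := congrArg (fun z => z.2.1) hpq
      have h3 := congrArg (fun z => z.2.2.1) hpq
      have h4 := congrArg (fun z => z.2.2.2) hpq
      exact Prod.ext (h.inj _ hp'.1 _ hq'.1 h1) (Prod.ext (h.inj _ hp'.2.1 _ hq'.2.1 h2)
        (Prod.ext (h.inj _ hp'.2.2.1 _ hq'.2.2.1 h3) (h.inj _ hp'.2.2.2 _ hq'.2.2.2 h4)))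
    · intro q hq
      obtain ⟨⟨h1, h2, h3, h4⟩, h5, h6, h7, h8, h9, h10⟩ := mem_quads.1 (Finset.mem_coe.1 hq)
      obtain ⟨a, ha, haq⟩ := h.surj _ h1
      obtain ⟨b, hb, hbq⟩ := h.surj _ h2
      obtain ⟨c, hc, hcq⟩ := h.surj _ h3
      obtain ⟨d, hd, hdq⟩ := h.surj _ h4
      refine ⟨(a, b, c, d), ?_, Prod.ext haq (Prod.ext hbq (Prod.ext hcq hdq))⟩
      rw [Finset.mem_coe, mem_quads]
      rw [← haq, ← hbq] at h5
      rw [← haq, ← hcq] at h6
      rw [← haq, ← hdq] at h7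
      rw [← hbq, ← hcq] at h8
      rw [← hbq, ← hdq] at h9
      rw [← hcq, ← hdq] at h10
      exact ⟨⟨ha, hb, hc, hd⟩, fun h' => h5 (congrArg s h'), fun h' => h6 (congrArg s h'),
        fun h' => h7 (congrArg s h'), fun h' => h8 (congrArg s h'), fun h' => h9 (congrArg s h'),
        fun h' => h10 (congrArg s h')⟩
    · intro q hq
      obtain ⟨⟨h1, h2, h3, h4⟩, h5, h6, h7, h8, h9, h10⟩ := mem_quads.1 hq
      change σ (J ^ 2 * tq x (algebraMap X N c) q.1 q.2.1 q.2.2.1 q.2.2.2) =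
        J ^ 2 * tq x (algebraMap X N c) (s q.1) (s q.2.1) (s q.2.2.1) (s q.2.2.2)
      rw [J_tq, J_tq, map_sub, map_mul σ (algebraMap X N c), map_mul σ (J * hh x q.2.2.2 q.2.1),
        map_mul σ (J * hh x q.2.2.2 q.1), AlgEquiv.commutes,
        h.hh _ h4 _ h2 h9.symm, h.hh _ h3 _ h1 h6.symm, h.hh _ h4 _ h1 h7.symm,
        h.hh _ h3 _ h2 h8.symm]
  exact key

theorem exists_q' [CharZero Q] (hs : ∀ σ : N ≃ₐ[X] N, ∃ s, TAct σ S m r x J s)
    (hSQ : ∀ e ∈ S, ∃ e' : Q, algebraMap Q N e' = e) (h3 : 3 ≤ S.card)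
    (hr1 : ∀ e ∈ S, 2 ≤ r e) (hW : Weights S r m)
    (hj : ∃ j ∈ S, (2 * DG S m j + 1) * r j ≤ MG S m * (r j - 1)) (hx : Transcendental Q x) :
    ∃ (q : X) (d : ℕ), 1 ≤ d ∧ Transcendental Q (algebraMap X N q) ∧
      (∀ (w : Valuation N ℤᵐ⁰) (D : Derivation Q N N) (ρ : ℤᵐ⁰), RelNorm Q w x D ρ →
        ρ ^ (MG S m * d) * w (GG S m x ^ d * algebraMap X N q) ≤ 1) ∧
      ∀ (w : Valuation N ℤᵐ⁰) (D : Derivation Q N N) (ρ : ℤᵐ⁰) (t : N),
        At Q N w x D ρ t → (∀ g : N, IsAlgebraic (IntermediateField.adjoin Q {x}) g) →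
        (∀ e ∈ S, w (x - e) < 1 → w (x - e) ≤ w t ^ r e) →
        ρ ^ (MG S m * d) * w (GG S m x ^ d * algebraMap X N q) ≤ w t ^ (MG S m * d) := by
  obtain ⟨j, hjS, hjr⟩ := hj
  have hc1 : (S.erase j).Nonempty := by
    rw [← Finset.card_pos, Finset.card_erase_of_mem hjS]
    omega
  obtain ⟨i, hi⟩ := hc1
  have hiS := Finset.mem_of_mem_erase hi
  have hij : i ≠ j := Finset.ne_of_mem_erase hi
  have hc2 : ((S.erase j).erase i).Nonempty := by
    rw [← Finset.card_pos, Finset.card_erase_of_mem hi, Finset.card_erase_of_mem hjS]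
    omega
  obtain ⟨l, hl⟩ := hc2
  have hli : l ≠ i := Finset.ne_of_mem_erase hl
  have hl' := Finset.mem_of_mem_erase hl
  have hlj : l ≠ j := Finset.ne_of_mem_erase hl'
  have hlS := Finset.mem_of_mem_erase hl'
  set y : N := xc x i j l with hy
  have hyT : Transcendental Q y :=
    xc_transcendental hx (hSQ i hiS) (hSQ j hjS) (hSQ l hlS) hij hli.symm hlj.symm
  set p : N[X] := ∏ τ : N ≃ₐ[X] N, (Polynomial.X - Polynomial.C (τ y)) with hp
  have hpm : p.Monic := Polynomial.monic_prod_of_monic _ _ fun τ _ => Polynomial.monic_X_sub_C _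
  have hpy : p.eval y = 0 := by
    rw [hp, Polynomial.eval_prod]
    refine Finset.prod_eq_zero (Finset.mem_univ (1 : N ≃ₐ[X] N)) ?_
    simp
  obtain ⟨n, hn⟩ := exists_coeff hpm hpy hyT
  obtain ⟨q, hq⟩ := coeff_mem (X := X) y n
  rw [← hp] at hq
  have hxS : ∀ e ∈ S, x ≠ e := by
    intro e he h
    obtain ⟨e', he'⟩ := hSQ e he
    rw [← he'] at h
    exact hx (h ▸ isAlgebraic_algebraMap e')
  have hτy : ∀ τ : N ≃ₐ[X] N, ∃ s, TAct τ S m r x J s ∧ τ y = xc x (s i) (s j) (s l) := by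
    intro τ
    obtain ⟨s, h⟩ := hs τ
    exact ⟨s, h, h.xc i hiS j hjS l hlS hij hli.symm hlj.symm⟩
  -- the product of the forms
  have hmain : ∀ (w : Valuation N ℤᵐ⁰) (ρ c : ℤᵐ⁰),
      ρ ^ MG S m * w (GG S m x) ≤ c →
      (∀ τ : N ≃ₐ[X] N, ρ ^ MG S m * w (GG S m x * τ y) ≤ c) →
      ρ ^ (MG S m * (Finset.univ : Finset (N ≃ₐ[X] N)).card) *
        w (GG S m x ^ (Finset.univ : Finset (N ≃ₐ[X] N)).card *
          algebraMap X N q) ≤ c ^ (Finset.univ : Finset (N ≃ₐ[X] N)).card := by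
    intro w ρ c h1 h2
    have h4 := coeff_prod_le w (ρ ^ MG S m) c (Finset.univ : Finset (N ≃ₐ[X] N))
      (fun τ => Polynomial.C (GG S m x) * (Polynomial.X - Polynomial.C (τ y)))
      (by
        intro τ _ k
        rw [Polynomial.coeff_C_mul, Polynomial.coeff_sub, Polynomial.coeff_X, Polynomial.coeff_C]
        rcases k with _ | k
        · rw [if_neg (by norm_num), if_pos rfl, zero_sub, mul_neg, Valuation.map_neg]
          exact h2 τ
        · rw [if_neg (by omega : ¬ k + 1 = 0), sub_zero]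
          split
          · rw [mul_one]; exact h1
          · rw [mul_zero, map_zero, mul_zero]; exact zero_le) n
    rw [Finset.prod_mul_distrib, Finset.prod_const, ← Polynomial.C_pow, Polynomial.coeff_C_mul,
      ← hp, ← hq, ← pow_mul] at h4
    exact h4
  refine ⟨q, (Finset.univ : Finset (N ≃ₐ[X] N)).card, Finset.card_pos.2 ⟨1, Finset.mem_univ _⟩,
    ?_, ?_, ?_⟩
  · rw [hq]; exact hn
  · intro w D ρ h
    have h1 := hmain w ρ 1 (h.GG_le hSQ m) (by
      intro τ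
      obtain ⟨s, hτ, hτy⟩ := hτy τ
      rw [hτy]
      exact h.GGxc_le hSQ (hτ.mem _ hiS) (hτ.mem _ hjS) (hτ.mem _ hlS) (hτ.ne hlS hiS hli)
        (hW.pos _ (hτ.mem _ hlS) _ (hτ.mem _ hiS)) hxS)
    rwa [one_pow] at h1
  · intro w D ρ t h halg hram
    have hr' : ∀ e ∈ S, 1 ≤ r e := fun e he => (by norm_num : 1 ≤ 2).trans (hr1 e he)
    have h1 := hmain w ρ (w t ^ MG S m)
      (h.GG_le halg ⟨x, rfl⟩ hSQ hW hr1 hram) (by
      intro τ
      obtain ⟨s, hτ, hτy⟩ := hτy τ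
      rw [hτy]
      refine h.GGxc_le halg ⟨x, rfl⟩ hSQ hW hr' hram (hτ.mem _ hiS) (hτ.mem _ hjS) (hτ.mem _ hlS)
        (hτ.ne hlS hiS hli) (hτ.ne hlS hjS hlj) (hτ.ne hiS hjS hij) ?_
      rw [hτ.DG hjS, hτ.r _ hjS]
      exact hjr)
    rwa [← pow_mul] at h1

end Pf72953.Pl
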