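import Mathlib
import Pool.Agent.Lib.Pf72953n.InvT
import Pool.Agent.Lib.Pf72953n.TwF
import Pool.Agent.Lib.Pf72953e.RelU
import Pool.Agent.Lib.Pf72953j.Ram

/-!
The derivation `d/dx₀` of `N/P` and the factor `J = dx/dx₀`.
-/

set_option autoImplicit false
set_option linter.style.haveILetI false

open scoped WithZero Polynomial
open Pf72953 Pf72953.Mov

namespace Pf72953.Pl

variable {k P N ι : Type*} [Field k] [CharZero k] [Field P] [Field N] [Algebra k P] [Algebra k N]
  [Algebra P N] [IsScalarTower k P N] [Fintype ι] [DecidableEq ι] {cP : ι → P} {x₀ x : N}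

omit [DecidableEq ι] in
theorem der_eq_pd (hz : IsTranscendenceBasis k (Sum.elim (fun i => algebraMap P N (cP i))
    (fun _ : Unit => x₀))) (D : Derivation P N N) (a : N) :
    D a = pd hz (Sum.inr ()) a * D x₀ := by
  have h1 := der_eq_sum hz (D.restrictScalars k) a
  rw [Fintype.sum_sum_type] at h1
  simp only [Sum.elim_inl, Sum.elim_inr, Derivation.restrictScalars_apply,
    Derivation.map_algebraMap, mul_zero, Finset.sum_const_zero, zero_add, Finset.univ_unique,
    Finset.sum_singleton] at h1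
  exact h1

theorem exists_der (hcP : IsTranscendenceBasis k cP)
    (hz : IsTranscendenceBasis k (Sum.elim (fun i => algebraMap P N (cP i))
      (fun _ : Unit => x₀))) : ∃ D : Derivation P N N, D x₀ = 1 := by
  have hkill : ∀ β : P, pd hz (Sum.inr ()) (algebraMap P N β) = 0 := fun β =>
    pd_algebraMap_of_notMem hcP hz Sum.inl (fun _ => rfl) (Sum.inr ()) (fun _ h => by cases h) β
  refine ⟨derOver (pd hz (Sum.inr ())) hkill, ?_⟩
  rw [derOver_apply]
  have h1 := pd_self hz (Sum.inr ()) (Sum.inr ())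
  rw [if_pos rfl] at h1
  exact h1

theorem pd_ne_zero (hcP : IsTranscendenceBasis k cP)
    (hz : IsTranscendenceBasis k (Sum.elim (fun i => algebraMap P N (cP i))
      (fun _ : Unit => x₀)))
    (hz' : IsTranscendenceBasis k (Sum.elim (fun i => algebraMap P N (cP i))
      (fun _ : Unit => x))) : pd hz (Sum.inr ()) x ≠ 0 := by
  obtain ⟨D, hD⟩ := exists_der hcP hz
  intro h0
  have h1 := der_eq_pd hz D x
  rw [h0, zero_mul] at h1
  have h2 := der_eq_pd hz' D x₀
  rw [h1, mul_zero, hD] at h2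
  exact one_ne_zero h2

/-- `d/dx₀` commutes with the automorphisms which preserve `P` and `x₀` -/
theorem map_pd (hcP : IsTranscendenceBasis k cP)
    (hz : IsTranscendenceBasis k (Sum.elim (fun i => algebraMap P N (cP i))
      (fun _ : Unit => x₀))) (σ : N ≃+* N) (β : P ≃+* P)
    (h : ∀ b : P, σ (algebraMap P N b) = algebraMap P N (β b)) (hx : σ x₀ = x₀) (a : N) :
    σ (pd hz (Sum.inr ()) a) = pd hz (Sum.inr ()) (σ a) := by
  obtain ⟨D, hD⟩ := exists_der hcP hz
  have hsymm : σ.symm x₀ = x₀ := by rw [RingEquiv.symm_apply_eq, hx]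
  have h1 : (Tow.conjDer D σ β h) x₀ = 1 := by
    rw [Tow.conjDer_apply, hsymm, hD, map_one]
  have h2 := der_eq_pd hz (Tow.conjDer D σ β h) (σ a)
  have h3 := der_eq_pd hz D a
  rw [h1, mul_one, Tow.conjDer_apply, RingEquiv.symm_apply_apply] at h2
  rw [hD, mul_one] at h3
  rw [← h3, h2]

omit [DecidableEq ι] in
/-- change of the coordinate -/
theorem RelNorm.change (hz : IsTranscendenceBasis k (Sum.elim (fun i => algebraMap P N (cP i))
      (fun _ : Unit => x₀))) (hJ : pd hz (Sum.inr ()) x ≠ 0) {w : Valuation N ℤᵐ⁰}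
    {D : Derivation P N N} {ρ : ℤᵐ⁰} (h : RelNorm P w x₀ D ρ) :
    RelNorm P w x ((pd hz (Sum.inr ()) x)⁻¹ • D) (ρ * w (pd hz (Sum.inr ()) x)) := by
  have h1 := der_eq_pd hz D x
  rw [h.dx, mul_one] at h1
  have h0 : w (pd hz (Sum.inr ()) x) ≠ 0 := (Valuation.ne_zero_iff w).2 hJ
  refine ⟨?_, fun g => ?_⟩
  · rw [Derivation.smul_apply, smul_eq_mul, h1, inv_mul_cancel₀ hJ]
  · rw [Derivation.smul_apply, smul_eq_mul, map_mul, map_inv₀]
    calc (w (pd hz (Sum.inr ()) x))⁻¹ * w (D g) * (ρ * w (pd hz (Sum.inr ()) x))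
        = w (D g) * ρ * ((w (pd hz (Sum.inr ()) x))⁻¹ * w (pd hz (Sum.inr ()) x)) := by ac_rfl
      _ = w (D g) * ρ := by rw [inv_mul_cancel₀ h0, mul_one]
      _ ≤ w g := h.le g

theorem At.change {X : Type*} [Field X] [Algebra X N]
    (hz : IsTranscendenceBasis k (Sum.elim (fun i => algebraMap P N (cP i))
      (fun _ : Unit => x₀))) (hJ : pd hz (Sum.inr ()) x ≠ 0) {w : Valuation N ℤᵐ⁰}
    {D : Derivation P N N} {ρ : ℤᵐ⁰} {t : X} (h : At P X w x₀ D ρ t)
    (hunr : ∀ s : N, w s < 1 → ∃ s' : X, w (algebraMap X N s') < 1 ∧ w s ≤ w (algebraMap X N s')) :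
    At P N w x ((pd hz (Sum.inr ()) x)⁻¹ • D) (ρ * w (pd hz (Sum.inr ()) x))
      (algebraMap X N t) := by
  refine ⟨h.triv, h.norm.change hz hJ, ?_, (map_ne_zero _).2 h.ne, h.lt, fun g hg => ?_⟩
  · obtain ⟨I, hI⟩ := h.mem
    exact ⟨algebraMap X N I * pd hz (Sum.inr ()) x, by rw [hI]; exact (map_mul w _ _).symm⟩
  · obtain ⟨s', h1, h2⟩ := hunr g hg
    exact h2.trans (h.le s' h1)

/-- `J h_{ij} = d/dx₀ log x̃` -/
theorem pd_xc (hz : IsTranscendenceBasis k (Sum.elim (fun i => algebraMap P N (cP i))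
      (fun _ : Unit => x₀))) (hcP : IsTranscendenceBasis k cP)
    (hJ : pd hz (Sum.inr ()) x ≠ 0) (i j l : P) (hxi : x ≠ algebraMap P N i)
    (hxj : x ≠ algebraMap P N j) :
    pd hz (Sum.inr ()) (xc x (algebraMap P N i) (algebraMap P N j) (algebraMap P N l)) =
      xc x (algebraMap P N i) (algebraMap P N j) (algebraMap P N l) *
        (pd hz (Sum.inr ()) x * hh x (algebraMap P N i) (algebraMap P N j)) := by
  classical
  obtain ⟨D, hD⟩ := exists_der hcP hz
  have hR : RelNorm P (1 : Valuation N ℤᵐ⁰) x₀ D 0 := ⟨hD, fun g => by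
    rw [mul_zero]
    exact zero_le⟩
  have h1 := (hR.change hz hJ).D_xc i j l hxi hxj
  have h2 := der_eq_pd hz D (xc x (algebraMap P N i) (algebraMap P N j) (algebraMap P N l))
  rw [hD, mul_one] at h2
  rw [Derivation.smul_apply, smul_eq_mul, h2, inv_mul_eq_iff_eq_mul₀ hJ] at h1
  rw [h1]
  ring

end Pf72953.Pl
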