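import Mathlib
import Pool.Agent.Lib.Pf72953n.TwI
import Pool.Agent.Lib.Pf72953n.TwJ
import Pool.Agent.Lib.Pf72953n.Line

/-!
The descent over a family of rational curves.
-/

set_option autoImplicit false
set_option linter.style.haveILetI false

open scoped WithZero Polynomial
open Pf72953 Pf72953.Mov Pf72953.Tow

namespace Pf72953.Pl

variable {k Ω : Type*} [Field k] [Field Ω] [Algebra k Ω] [CharZero k] [IsAlgClosed k]
  [IsAlgClosed Ω]

omit [CharZero k] [IsAlgClosed k] [IsAlgClosed Ω] in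
theorem alg_of_adjoin {A M : IntermediateField k Ω} [Fact (A ≤ M)] {x : M} {z : M}
    (h : IsAlgebraic (IntermediateField.adjoin A ({x} : Set M)) z) :
    IsAlgebraic (A ⊔ IntermediateField.adjoin k {(x : Ω)} : IntermediateField k Ω) (z : Ω) := by
  let g : IntermediateField.adjoin A ({x} : Set M) →+*
      (A ⊔ IntermediateField.adjoin k {(x : Ω)} : IntermediateField k Ω) :=
    { toFun := fun z => ⟨(z : M), mem_adjoin_iff.1 z.2⟩
      map_one' := rfl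
      map_mul' := fun _ _ => rfl
      map_zero' := rfl
      map_add' := fun _ _ => rfl }
  obtain ⟨p, hp, hpz⟩ := h
  refine ⟨p.map g, (Polynomial.map_ne_zero_iff g.injective).2 hp, ?_⟩
  have h2 : (algebraMap M Ω) (Polynomial.eval₂ (algebraMap _ M) z p) = 0 := by
    rw [← Polynomial.aeval_def, hpz, map_zero]
  rw [Polynomial.hom_eval₂] at h2
  rw [Polynomial.aeval_def, Polynomial.eval₂_map]
  exact h2

omit [IsAlgClosed k] [IsAlgClosed Ω] in
/-- exchange -/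
theorem exchange {K L : IntermediateField k Ω} (hL : Fin' L) (hKL : K ≤ L) {x y : Ω}
    (hx : Transcendental K x) (hy : Transcendental K y) (hxL : x ∈ L) (hyL : y ∈ L)
    (halg : L ≤ cl (K ⊔ IntermediateField.adjoin k {x})) :
    L ≤ cl (K ⊔ IntermediateField.adjoin k {y}) := by
  haveI : Fact (K ≤ L) := ⟨hKL⟩
  haveI : Algebra.EssFiniteType k L := hL
  haveI : Algebra.EssFiniteType K L := Algebra.EssFiniteType.of_comp k K L
  have hK : Fin' K := fin_le hL hKL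
  have hdim : dimension K L = 1 := by
    have h1 := dim_add (A := K) hL
    have h2 : dimension k L = dimension k K + 1 := by
      rw [← dim_adj hK hx]
      exact dim_eq hL (sup_le hKL (adjoin_one_le hxL)) (alg_iff.2 halg)
    omega
  have hy' : Transcendental K (⟨y, hyL⟩ : L) := fun h => hy (h.algebraMap (A := Ω))
  have htb : IsTranscendenceBasis K (fun _ : Unit => (⟨y, hyL⟩ : L)) := by
    refine isTranscendenceBasis_of_card (by simp [hdim]) ?_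
    exact algebraicIndependent_unique_type_iff.2 hy'
  have halg0 := htb.isAlgebraic_field
  have hrange : Set.range (fun _ : Unit => (⟨y, hyL⟩ : L)) = {⟨y, hyL⟩} := Set.range_const
  rw [hrange] at halg0
  intro z hz
  have h1 : IsAlgebraic (IntermediateField.adjoin K ({⟨y, hyL⟩} : Set L)) (⟨z, hz⟩ : L) :=
    halg0.isAlgebraic _
  have h2 := alg_of_adjoin (x := (⟨y, hyL⟩ : L)) (z := (⟨z, hz⟩ : L)) h1
  exact mem_cl.2 h2

/-- the descent from `X·R` to `X·Q·Y₂` -/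
theorem Tw.line_down {V T Q P X Y₂ R : IntermediateField k Ω} {x x₀ t y₀ : Ω} {S : Finset Ω}
    {ψ : Ω × Ω × Ω → (Ω ≃ₐ[k] Ω)} (hT : Tw V T Q P x S) (hVT : V ≤ T) (hne : (trip S).Nonempty)
    (hC : Cover P (X ⊔ P) (Q ⊔ P) x S Y₂ t ψ R) (hX : Fin' X) (hQ : Fin' Q) (hVX : V ≤ X)
    (hx₀T : x₀ ∈ T) (hx₀ : Transcendental X x₀) (hG : Gal T Q)
    (hty : y₀ ^ 2 = t ^ 5 - 1) (hY₂ : Y₂ = IntermediateField.adjoin k {t, y₀})
    (ht : Transcendental (X ⊔ Q : IntermediateField k Ω) t) (h0 : KodairaGE k X 0) {δ : ℕ}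
    (hδ : δ ≤ 1) (hκ : KGE (X ⊔ P) (X ⊔ P ⊔ Q) δ) {l : ℕ}
    (hl : KodairaGE k (X ⊔ R : IntermediateField k Ω) l) :
    KodairaGE k (X ⊔ Q ⊔ Y₂ : IntermediateField k Ω) (l + δ) := by
  classical
  have hPf := hT.fin
  have hbp : bp P S = P := bp_eq hT.mem
  obtain ⟨K, hK⟩ : ∃ K, K = X ⊔ P := ⟨_, rfl⟩
  obtain ⟨M, hM⟩ : ∃ M, M = K ⊔ Q := ⟨_, rfl⟩
  obtain ⟨W, hW⟩ : ∃ W, W = X ⊔ Y₂ := ⟨_, rfl⟩
  obtain ⟨XX, hXX⟩ : ∃ XX, XX = X ⊔ Q ⊔ Y₂ := ⟨_, rfl⟩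
  obtain ⟨PP, hPP⟩ : ∃ PP, PP = X ⊔ R := ⟨_, rfl⟩
  obtain ⟨N, hN⟩ : ∃ N, N = R ⊔ XX := ⟨_, rfl⟩
  rw [← hK, ← hM] at hκ
  rw [← hPP] at hl
  rw [← hXX]
  obtain ⟨fKM, hκ⟩ := hκ
  -- finiteness and inclusions
  have hfg : ∀ u v : Ω, Fin' (IntermediateField.adjoin k {u, v}) := fun u v => by
    rw [Fin', IntermediateField.essFiniteType_iff]
    exact ⟨{u, v}, by rw [Finset.coe_pair]⟩
  have hY₂f : Fin' Y₂ := by rw [hY₂]; exact hfg _ _
  have htY : t ∈ Y₂ := by rw [hY₂]; exact IntermediateField.subset_adjoin k _ (Or.inl rfl)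
  have hWf : Fin' W := hW ▸ fin_sup hX hY₂f
  have hXXf : Fin' XX := hXX ▸ fin_sup (fin_sup hX hQ) hY₂f
  have hPPf : Fin' PP := hPP ▸ fin_sup hX hC.fin
  have hNf : Fin' N := hN ▸ fin_sup hC.fin hXXf
  have hX1 : X ≤ XX := hXX ▸ le_sup_left.trans le_sup_left
  have hQ1 : Q ≤ XX := hXX ▸ le_sup_right.trans le_sup_left
  have hY1 : Y₂ ≤ XX := hXX ▸ le_sup_right
  have hYR : Y₂ ≤ R := le_sup_right.trans hC.gal.le
  have hXW : X ≤ W := hW ▸ le_sup_left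
  have hYW : Y₂ ≤ W := hW ▸ le_sup_right
  have hWXX : W ≤ XX := hW ▸ sup_le hX1 hY1
  have hRPP : R ≤ PP := hPP ▸ le_sup_right
  have hXPP : X ≤ PP := hPP ▸ le_sup_left
  have hWPP : W ≤ PP := hW ▸ sup_le hXPP (hYR.trans hRPP)
  have hXXN : XX ≤ N := hN ▸ le_sup_right
  have hRN : R ≤ N := hN ▸ le_sup_left
  have hPPN : PP ≤ N := hPP ▸ sup_le (hX1.trans hXXN) hRN
  have hPR : P ≤ R := hbp ▸ hC.le
  have hKPP : K ≤ PP := hK ▸ sup_le hXPP (hPR.trans hRPP)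
  have hPK : P ≤ K := hK ▸ le_sup_right
  have hXK : X ≤ K := hK ▸ le_sup_left
  have hMN : M ≤ N := hM ▸ sup_le (hKPP.trans hPPN) (hQ1.trans hXXN)
  have hTQ : T ≤ Q := hG.le
  have hx₀XX : x₀ ∈ XX := hQ1 (hTQ hx₀T)
  have hx₀N : x₀ ∈ N := hXXN hx₀XX
  have hxTP : x ∈ T ⊔ P := hT.gen ▸ mem_sup_right' (mem_adjoin_one x)
  have hxM : x ∈ M := by
    rw [hM]
    exact (sup_le (hTQ.trans le_sup_right) (hPK.trans le_sup_left) : T ⊔ P ≤ K ⊔ Q) hxTP
  have hxN : x ∈ N := hMN hxM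
  have htN : t ∈ N := hXXN (hY1 htY)
  have htXX : t ∈ XX := hY1 htY
  have hSPP : ∀ e ∈ S, e ∈ PP := fun e he => hRPP (hPR (hT.mem e he))
  have hSN : ∀ e ∈ S, e ∈ N := fun e he => hRN (hPR (hT.mem e he))
  haveI f1 : Fact (W ≤ XX) := ⟨hWXX⟩
  haveI f2 : Fact (W ≤ PP) := ⟨hWPP⟩
  haveI f3 : Fact (XX ≤ N) := ⟨hXXN⟩
  haveI f4 : Fact (PP ≤ N) := ⟨hPPN⟩
  haveI f5 : Fact (W ≤ N) := ⟨hWPP.trans hPPN⟩
  haveI f6 : Fact (M ≤ N) := ⟨hMN⟩
  haveI : Algebra.EssFiniteType k W := hWf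
  haveI : Algebra.EssFiniteType k XX := hXXf
  haveI : Algebra.EssFiniteType k PP := hPPf
  haveI : Algebra.EssFiniteType k N := hNf
  haveI : CharZero PP := charZero_of_injective_algebraMap (algebraMap k PP).injective
  have hGR : Gal (V ⊔ Y₂) R := hT.cover_gal hVT hG hC htY
  have hGN : Gal XX N := hN ▸ hGR.base XX (sup_le (hVX.trans hX1) hY1)
  have hGP : Gal W PP := by
    have h1 := hGR.base W (sup_le (hVX.trans hXW) hYW)
    have h2 : R ⊔ W = PP := by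
      rw [hPP]
      exact le_antisymm (sup_le le_sup_right (hW ▸ sup_le le_sup_left (hYR.trans le_sup_right)))
        (sup_le (hXW.trans le_sup_right) le_sup_left)
    rwa [h2] at h1
  obtain ⟨i1, i2⟩ := hGN.finite hNf
  obtain ⟨i3, i4⟩ := hGP.finite hPPf
  -- transcendence
  have hiY : Indep (X ⊔ Q) Y₂ := by
    have h1 := dim_gens (k := k) (m := 1) (x := fun _ => t) (y := fun _ => y₀) (fun _ => hty)
      (algebraicIndependent_unique_type_iff.2 (fun h => ht (h.tower_top (L := _))))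
    rw [← range_one] at h1
    exact Et.indep_curve (fin_sup hX hQ) hY₂f (by rw [hY₂]; exact h1) htY ht
  have hx₀W : Transcendental W x₀ := by
    rw [hW]
    exact trans_of_indep (fin_sup hX hQ) hY₂f le_sup_left hiY (mem_sup_right' (hTQ hx₀T)) hx₀
  have hPclX : P ≤ cl X := (alg_iff.1 hT.gal.alg).trans (cl_mono hVX)
  have hKcl : K ≤ cl X := hK ▸ sup_le le_cl hPclX
  have hPPcl : PP ≤ cl W := alg_iff.1 hGP.alg
  have hx₀PP : Transcendental PP x₀ := fun h => hx₀W (cl_idem hPPcl h)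
  have hx₀TP : x₀ ∈ P ⊔ IntermediateField.adjoin k {x} := hT.gen ▸ mem_sup_left' hx₀T
  have hxPP : Transcendental PP x := by
    intro h
    apply hx₀PP
    have h1 : P ⊔ IntermediateField.adjoin k {x} ≤ cl PP :=
      sup_le ((hPR.trans hRPP).trans le_cl) (adjoin_one_le (mem_cl.2 h))
    exact mem_cl.1 (h1 hx₀TP)
  have hxK : Transcendental K x := fun h => hxPP (alg_mono hKPP h)
  have hTcl : T ≤ cl (PP ⊔ IntermediateField.adjoin k {x}) := by
    have h1 : T ≤ P ⊔ IntermediateField.adjoin k {x} := hT.gen ▸ le_sup_left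
    exact h1.trans ((sup_le_sup_right (hPR.trans hRPP) _).trans le_cl)
  have hNclx : N ≤ cl (PP ⊔ IntermediateField.adjoin k {x}) := by
    have h2 : Q ≤ cl (PP ⊔ IntermediateField.adjoin k {x}) :=
      (alg_iff.1 hG.alg).trans (cl_le hTcl)
    rw [hN, hXX]
    exact sup_le ((hRPP.trans le_sup_left).trans le_cl) (sup_le (sup_le
      ((hXPP.trans le_sup_left).trans le_cl) h2) (((hYR.trans hRPP).trans le_sup_left).trans le_cl))
  have hNclx₀ : N ≤ cl (PP ⊔ IntermediateField.adjoin k {x₀}) :=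
    exchange hNf hPPN hxPP hx₀PP hxN hx₀N hNclx
  have hNcl : N ≤ cl (W ⊔ IntermediateField.adjoin k {x₀}) :=
    hNclx₀.trans (cl_le (sup_le (hPPcl.trans (cl_mono le_sup_left)) (le_sup_right.trans le_cl)))
  have hxPP' : Transcendental PP (⟨x, hxN⟩ : N) := fun h => hxPP (h.algebraMap (A := Ω))
  have halg : ∀ g : N, IsAlgebraic (IntermediateField.adjoin PP {(⟨x, hxN⟩ : N)}) g := fun g =>
    alg_adjoin_of (x := ⟨x, hxN⟩) (mem_cl.1 (hNclx g.2))
  -- the weights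
  obtain ⟨r, hr2, hridx, hrσ, hsum⟩ := hT.exists_idx hne hX hQ hVX (hK ▸ hxK) hG hK hM hxM hδ hκ
  set SN : Finset N := S.subtype (· ∈ N) with hSNdef
  have hmS : ∀ z : N, z ∈ SN ↔ (z : Ω) ∈ S := fun z => Finset.mem_subtype
  have hprod : ∏ e ∈ SN, r e = ∏ e ∈ S, r e := Finset.prod_subtype_of_mem (fun e => r e) hSN
  have hsumN : ∑ e ∈ SN, (∏ e ∈ SN, r e - (∏ e ∈ SN, r e) / r e) =
      ∑ e ∈ S, (∏ e ∈ S, r e - (∏ e ∈ S, r e) / r e) := by
    rw [hprod]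
    exact Finset.sum_subtype_of_mem (fun e => (∏ e ∈ S, r e - (∏ e ∈ S, r e) / r e)) hSN
  rw [← hsumN, ← hprod] at hsum
  have hr2N : ∀ e ∈ SN, 2 ≤ (fun z : N => r z) e := fun e he => hr2 e ((hmS e).1 he)
  obtain ⟨hcard, m, hWt, hmr, hslack⟩ := exists_weights (S := SN) (r := fun z : N => r z) hr2N
    (le_trans (Nat.le_add_right _ _) hsum)
  have hSN' : ∀ e ∈ SN, ∃ e' : PP, algebraMap PP N e' = e := fun e he =>
    ⟨⟨e, hSPP _ ((hmS e).1 he)⟩, rfl⟩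
  have hxS : ∀ e ∈ S, x ≠ e := fun e he h => hxPP (h ▸ alg_of_mem (hSPP e he))
  -- the transcendence bases
  have htX : Transcendental X t := transc_mono le_sup_left ht
  obtain ⟨n, z, hz, m₀, r₀, hm₀, hr₀, e1, e2, e3, e4⟩ : ∃ (n : ℕ) (z : Fin n → W),
      IsTranscendenceBasis k z ∧ ∃ (m₀ : ℕ) (r₀ : W), 1 ≤ m₀ ∧ r₀ ≠ 0 ∧ r₀ ∈ WReg k z m₀ ∧
        ⟨t, hYW htY⟩ * r₀ ∈ WReg k z m₀ ∧ (⟨t, hYW htY⟩ : W)⁻¹ * r₀ ∈ WReg k z m₀ ∧
        ((⟨t, hYW htY⟩ : W) - 1)⁻¹ * r₀ ∈ WReg k z m₀ := by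
    subst hW
    haveI : Fact (X ≤ X ⊔ Y₂) := ⟨le_sup_left⟩
    exact exists_r0 hX h0 htX hty hY₂ (hYW htY)
  have hzx := tb_line (W := W) hNf hz hx₀N hx₀W (fun y hy => mem_cl.1 (hNcl hy))
  have hcP : IsTranscendenceBasis k (fun i => algebraMap W PP (z i)) :=
    hz.algebraMap_comp (A := PP)
  have hfam : ∀ u : N, (Sum.elim (fun i => algebraMap PP N (algebraMap W PP (z i)))
      (fun _ : Unit => u)) = Sum.elim (fun i => algebraMap W N (z i)) (fun _ : Unit => u) := by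
    intro u
    funext i
    rcases i with i | i
    · rfl
    · rfl
  have hzP : IsTranscendenceBasis k (Sum.elim (fun i => algebraMap PP N (algebraMap W PP (z i)))
      (fun _ : Unit => (⟨x₀, hx₀N⟩ : N))) := by
    rw [hfam]
    exact hzx
  have hxW : Transcendental W x := fun h => hxPP (alg_mono hWPP h)
  have hzP' : IsTranscendenceBasis k (Sum.elim (fun i => algebraMap PP N (algebraMap W PP (z i)))
      (fun _ : Unit => (⟨x, hxN⟩ : N))) := by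
    rw [hfam]
    refine tb_line (W := W) hNf hz hxN hxW (fun y hy => ?_)
    exact mem_cl.1 ((cl_le (sup_le (hPPcl.trans (cl_mono le_sup_left))
      (le_sup_right.trans le_cl))) (hNclx hy))
  obtain ⟨J, hJ⟩ : ∃ J, J = pd hzP (Sum.inr ()) (⟨x, hxN⟩ : N) := ⟨_, rfl⟩
  have hJ0 : pd hzP (Sum.inr ()) (⟨x, hxN⟩ : N) ≠ 0 := pd_ne_zero hcP hzP hzP'
  have hJ0' : J ≠ 0 := hJ ▸ hJ0
  -- the action
  have hact : ∀ σ : N ≃ₐ[XX] N, ∃ s, TAct σ SN m (fun z : N => r z) ⟨x, hxN⟩ J s := by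
    intro σ
    obtain ⟨σ', h1, h2⟩ := hGN.exists_ext hNf σ
    have hσT : Fixes σ' T := h1.mono (hTQ.trans hQ1)
    have hσXQ : Fixes σ' (X ⊔ Q) := h1.mono (sup_le hX1 hQ1)
    obtain ⟨s, hs⟩ := hT.act σ' hσT
    let sN : N → N := fun z => if h : (z : Ω) ∈ S then ⟨s z, hSN _ (hs.mem _ h)⟩ else z
    have hsN : ∀ z : N, (z : Ω) ∈ S → (sN z : Ω) = s z := by
      intro z hz
      change ((if h : (z : Ω) ∈ S then ⟨s z, hSN _ (hs.mem _ h)⟩ else z : N) : Ω) = s z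
      rw [dif_pos hz]
    have hxc : ∀ i ∈ SN, ∀ j ∈ SN, ∀ l ∈ SN, i ≠ j → i ≠ l → j ≠ l →
        σ (xc (⟨x, hxN⟩ : N) i j l) = xc ⟨x, hxN⟩ (sN i) (sN j) (sN l) := by
      intro i hi j hj l hl hij hil hjl
      apply Subtype.ext
      rw [hmS] at hi hj hl
      have h3 : (((xc (⟨x, hxN⟩ : N) (sN i) (sN j) (sN l) : N)) : Ω) =
          xc x (sN i) (sN j) (sN l) := rfl
      have h4 : ((σ (xc (⟨x, hxN⟩ : N) i j l) : N) : Ω) = σ' (xc x i j l) :=
        (h2 (xc (⟨x, hxN⟩ : N) i j l)).symm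
      rw [h3, h4, hsN i hi, hsN j hj, hsN l hl]
      exact hs.xc (i, j, l) (mem_trip.2 ⟨⟨hi, hj, hl⟩, fun h => hij (Subtype.ext h),
        fun h => hil (Subtype.ext h), fun h => hjl (Subtype.ext h)⟩)
    have hmem : ∀ e ∈ SN, sN e ∈ SN := by
      intro e he
      rw [hmS, hsN e ((hmS e).1 he)]
      exact hs.mem _ ((hmS e).1 he)
    have hinj : ∀ a ∈ SN, ∀ b ∈ SN, sN a = sN b → a = b := by
      intro a ha b hb hab
      have h3 : (sN a : Ω) = (sN b : Ω) := congrArg (Subtype.val : N → Ω) hab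
      rw [hsN a ((hmS a).1 ha), hsN b ((hmS b).1 hb)] at h3
      exact Subtype.ext (hs.inj _ ((hmS a).1 ha) _ ((hmS b).1 hb) h3)
    have hr : ∀ a ∈ SN, r (sN a) = r a := by
      intro a ha
      rw [hsN a ((hmS a).1 ha)]
      exact hrσ σ' hσXQ s hs a ((hmS a).1 ha)
    -- the restriction to `PP`
    have hσPP : Stab σ' PP := hPP ▸ (h1.mono hX1).stab.sup
      (hGR.stab σ' (h1.mono (sup_le (hVX.trans hX1) hY1)))
    have hσPP' : Stab σ'.symm PP := hPP ▸ (h1.mono hX1).symm79.stab.sup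
      (hGR.stab σ'.symm (h1.mono (sup_le (hVX.trans hX1) hY1)).symm79)
    let β : PP ≃+* PP :=
      { toFun := fun z => ⟨σ' z, hσPP z z.2⟩
        invFun := fun z => ⟨σ'.symm z, hσPP' z z.2⟩
        left_inv := fun z => Subtype.ext (σ'.symm_apply_apply z)
        right_inv := fun z => Subtype.ext (σ'.apply_symm_apply z)
        map_mul' := fun a b => Subtype.ext (map_mul σ' (a : Ω) b)
        map_add' := fun a b => Subtype.ext (map_add σ' (a : Ω) b) }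
    have hpd : ∀ a : N, σ (pd hzP (Sum.inr ()) a) = pd hzP (Sum.inr ()) (σ a) := by
      intro a
      refine map_pd hcP hzP σ.toRingEquiv β (fun b => ?_) ?_ a
      · apply Subtype.ext
        exact (h2 (algebraMap PP N b)).symm
      · exact σ.commutes (⟨x₀, hx₀XX⟩ : XX)
    have hJh : ∀ a ∈ SN, ∀ b ∈ SN, ∀ c ∈ SN, a ≠ b → a ≠ c → b ≠ c →
        J * hh (⟨x, hxN⟩ : N) a b = pd hzP (Sum.inr ()) (xc (⟨x, hxN⟩ : N) a b c) /
          xc (⟨x, hxN⟩ : N) a b c := by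
      intro a ha b hb c hc hab hac hbc
      have hxa : ∀ e ∈ SN, (⟨x, hxN⟩ : N) ≠ e := fun e he h =>
        hxS e ((hmS e).1 he) (congrArg Subtype.val h)
      have h3 : xc (⟨x, hxN⟩ : N) a b c ≠ 0 := by
        unfold xc
        exact div_ne_zero (mul_ne_zero (sub_ne_zero.2 (hxa a ha)) (sub_ne_zero.2 hbc.symm))
          (mul_ne_zero (sub_ne_zero.2 (hxa b hb)) (sub_ne_zero.2 hac.symm))
      obtain ⟨a', ha'⟩ := hSN' a ha
      obtain ⟨b', hb'⟩ := hSN' b hb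
      obtain ⟨c', hc'⟩ := hSN' c hc
      have h4 := pd_xc hzP hcP hJ0 a' b' c' (ha'.symm ▸ hxa a ha) (hb'.symm ▸ hxa b hb)
      rw [ha', hb', hc', ← hJ] at h4
      rw [h4, mul_div_cancel_left₀ _ h3]
    refine ⟨sN, hmem, hinj, fun a ha b hb hab => ?_, hxc, fun a ha b hb => ?_, hr⟩
    · obtain ⟨c, hc, hca, hcb⟩ := trip_third hne a ((hmS a).1 ha) b ((hmS b).1 hb)
        (fun h => hab (Subtype.ext h))
      have hcN : (⟨c, hSN c hc⟩ : N) ∈ SN := (hmS _).2 hc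
      have hac : a ≠ ⟨c, hSN c hc⟩ := fun h => hca (congrArg Subtype.val h).symm
      have hbc : b ≠ ⟨c, hSN c hc⟩ := fun h => hcb (congrArg Subtype.val h).symm
      rw [hJh a ha b hb _ hcN hab hac hbc, map_div₀, hpd, hxc a ha b hb _ hcN hab hac hbc,
        hJh _ (hmem a ha) _ (hmem b hb) _ (hmem _ hcN) (fun h => hab (hinj a ha b hb h))
          (fun h => hac (hinj a ha _ hcN h)) (fun h => hbc (hinj b hb _ hcN h))]
    · exact hmr _ (hmem a ha) _ (hmem b hb) _ ha _ hb (hr a ha) (hr b hb)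
  obtain ⟨G, hGG⟩ := exists_GG' (X := XX) (N := N) hact
  obtain ⟨T', hTT⟩ := exists_TT' (X := XX) (N := N) hact (⟨t, htXX⟩ : XX)
  -- the places of the generic fibre
  have hunr : ∀ w : Valuation N ℤᵐ⁰, (∀ a : PP, a ≠ 0 → w (algebraMap PP N a) = 1) →
      Br.Unr XX w := by
    intro w hw
    refine unr_hor hNf hGN (fun σ hσ => ?_) ?_ hw
    · rw [hPP]
      exact (hσ.mono hX1).stab.sup (hGR.stab σ (hσ.mono (sup_le (hVX.trans hX1) hY1)))
    · rw [hN]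
      exact sup_le (hRPP.trans le_sup_left) le_sup_right
  have hchg : ∀ (w : Valuation N ℤᵐ⁰) (D : Derivation PP N N) (ρ : ℤᵐ⁰) (τ : XX),
      At PP XX w (algebraMap XX N ⟨x₀, hx₀XX⟩) D ρ τ →
        At PP N w (⟨x, hxN⟩ : N) (J⁻¹ • D) (ρ * w J) (algebraMap XX N τ) := by
    intro w D ρ τ hAt
    rw [hJ]
    exact At.change hzP hJ0 hAt (hunr w hAt.triv)
  have hchg' : ∀ (w : Valuation N ℤᵐ⁰) (D : Derivation PP N N) (ρ : ℤᵐ⁰),
      RelNorm PP w (algebraMap XX N ⟨x₀, hx₀XX⟩) D ρ →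
        RelNorm PP w (⟨x, hxN⟩ : N) (J⁻¹ • D) (ρ * w J) := by
    intro w D ρ hR
    rw [hJ]
    exact RelNorm.change hzP hJ0 hR
  have hram : ∀ (w : Valuation N ℤᵐ⁰) (D : Derivation PP N N) (ρ : ℤᵐ⁰) (τ : N),
      At PP N w (⟨x, hxN⟩ : N) D ρ τ → ∀ e ∈ SN,
      w ((⟨x, hxN⟩ : N) - e) < 1 → w ((⟨x, hxN⟩ : N) - e) ≤ w τ ^ r e := by
    intro w D ρ τ hAt e he hlt
    obtain ⟨heM, hI⟩ := hridx e ((hmS e).1 he)
    obtain ⟨s, hs1, -, hs2⟩ := hI (w.comap (algebraMap M N)) (fun a ha => by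
      have h1 := hAt.triv ⟨a, hKPP a.2⟩ (fun h => ha (by
        have h4 : (a : Ω) = 0 := congrArg Subtype.val h
        exact Subtype.ext h4))
      exact h1) hlt
    have h2 : w (algebraMap M N s) ≤ w τ := hAt.le (algebraMap M N s) hs1
    have h3 : w ((⟨x, hxN⟩ : N) - e) = w (algebraMap M N s) ^ r e := hs2
    rw [h3]
    exact pow_le_pow_left' h2 _
  have hGG' : ∀ (w : Valuation N ℤᵐ⁰) (D : Derivation PP N N) (ρ : ℤᵐ⁰) (τ : XX),
      At PP XX w (algebraMap XX N ⟨x₀, hx₀XX⟩) D ρ τ →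
        ρ ^ MG SN m * w (algebraMap XX N G) ≤ w (algebraMap XX N τ) ^ MG SN m := by
    intro w D ρ τ hAt
    rw [hGG, map_mul, map_pow, ← mul_assoc, ← mul_pow]
    have h1 := hchg w D ρ τ hAt
    exact h1.GG_le halg ⟨_, rfl⟩ hSN' hWt hr2N (hram w _ _ _ h1)
  have hTT' : ∀ (w : Valuation N ℤᵐ⁰) (D : Derivation PP N N) (ρ : ℤᵐ⁰) (τ : XX),
      At PP XX w (algebraMap XX N ⟨x₀, hx₀XX⟩) D ρ τ →
        ρ ^ MT SN * w (algebraMap XX N T') ≤ w (algebraMap XX N τ) ^ MT SN := by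
    intro w D ρ τ hAt
    rw [hTT, map_mul, map_pow, ← mul_assoc, ← mul_pow]
    have h1 := hchg w D ρ τ hAt
    refine h1.TT_le halg ⟨_, rfl⟩ hSN' hr2N (hram w _ _ _ h1) ?_
    have htPP : t ∈ PP := hWPP (hYW htY)
    have ht0 : (⟨t, htPP⟩ : PP) ≠ 0 := by
      intro h
      have h1 : t = 0 := congrArg Subtype.val h
      exact ht (by rw [h1]; exact isAlgebraic_zero)
    exact (hAt.triv ⟨t, htPP⟩ ht0).le
  have hMG : 1 ≤ MG SN m := by
    have h1 : ∃ a ∈ SN, ∃ b ∈ SN, a ≠ b := by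
      have h2 : 1 < SN.card := by omega
      obtain ⟨a, ha, b, hb, hab⟩ := Finset.one_lt_card.1 h2
      exact ⟨a, ha, b, hb, hab⟩
    obtain ⟨a, ha, b, hb, hab⟩ := h1
    have h2 : m a b ≤ MG SN m := Finset.single_le_sum (f := fun p : N × N => m p.1 p.2)
      (fun _ _ => Nat.zero_le _) (Finset.mem_offDiag.2 ⟨ha, hb, hab⟩ : (a, b) ∈ SN.offDiag)
    exact (hWt.pos a ha b hb).trans h2
  have htK : ∀ y ∈ K, t ≠ y := by
    intro y hy h
    apply ht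
    rw [h]
    exact mem_cl.1 ((hKcl.trans (cl_mono le_sup_left)) hy)
  have hG0 : G ≠ 0 := by
    intro h
    rw [h, map_zero] at hGG
    exact mul_ne_zero (pow_ne_zero _ hJ0') (GG_ne hSN' m hxPP') hGG.symm
  have hT0 : T' ≠ 0 := by
    intro h
    rw [h, map_zero] at hTT
    refine mul_ne_zero (pow_ne_zero _ hJ0') (TT_ne hSN' hxPP' ?_) hTT.symm
    intro i hi j hj l' hl' s hs h1
    have hmK : ∀ e ∈ S, e ∈ K := fun e he => hPK (hT.mem e he)
    refine htK (xc s i j l' : Ω) ?_ (congrArg Subtype.val h1)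
    exact div_mem (mul_mem (sub_mem (hmK _ ((hmS _).1 hs)) (hmK _ ((hmS _).1 hi)))
      (sub_mem (hmK _ ((hmS _).1 hl')) (hmK _ ((hmS _).1 hj))))
      (mul_mem (sub_mem (hmK _ ((hmS _).1 hs)) (hmK _ ((hmS _).1 hj)))
      (sub_mem (hmK _ ((hmS _).1 hl')) (hmK _ ((hmS _).1 hi))))
  -- the second form
  obtain ⟨q, d, hd, hq0, hqt, hqR, hqR'⟩ : ∃ (q : XX) (d : ℕ), 1 ≤ d ∧ q ≠ 0 ∧
      (δ = 1 → Transcendental PP (algebraMap XX N q)) ∧
      (∀ (w : Valuation N ℤᵐ⁰) (D : Derivation PP N N) (ρ : ℤᵐ⁰),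
        RelNorm PP w (algebraMap XX N ⟨x₀, hx₀XX⟩) D ρ →
          ρ ^ (MG SN m * d) * w (algebraMap XX N (G ^ d * q)) ≤ 1) ∧
      ∀ (w : Valuation N ℤᵐ⁰) (D : Derivation PP N N) (ρ : ℤᵐ⁰) (τ : XX),
        At PP XX w (algebraMap XX N ⟨x₀, hx₀XX⟩) D ρ τ →
          ρ ^ (MG SN m * d) * w (algebraMap XX N (G ^ d * q)) ≤
            w (algebraMap XX N τ) ^ (MG SN m * d) := by
    rcases Nat.lt_or_ge δ 1 with hδ0 | hδ1
    · refine ⟨1, 1, le_rfl, one_ne_zero, fun h => by omega, ?_, ?_⟩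
      · intro w D ρ hR
        rw [mul_one, pow_one, mul_one, hGG, map_mul, map_pow, ← mul_assoc, ← mul_pow]
        exact (hchg' w D ρ hR).GG_le hSN' m
      · intro w D ρ τ hAt
        rw [mul_one, pow_one, mul_one]
        exact hGG' w D ρ τ hAt
    · have hδ' : δ = 1 := le_antisymm hδ hδ1
      rw [hδ'] at hsum
      obtain ⟨q, d, hd, hqt, h1, h2⟩ := exists_q' (Q := PP) (X := XX) (N := N) hact hSN' hcard hr2N
        hWt (hslack hsum) hxPP'
      have heq : ∀ (w : Valuation N ℤᵐ⁰) (ρ : ℤᵐ⁰),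
          ρ ^ (MG SN m * d) * w (algebraMap XX N (G ^ d * q)) =
            (ρ * w J) ^ (MG SN m * d) * w (GG SN m (⟨x, hxN⟩ : N) ^ d * algebraMap XX N q) := by
        intro w ρ
        rw [map_mul, map_pow, hGG]
        simp only [mul_pow, map_mul, map_pow, ← pow_mul, mul_assoc]
      refine ⟨q, d, hd, ?_, fun _ => hqt, ?_, ?_⟩
      · rintro rfl
        rw [map_zero] at hqt
        exact hqt isAlgebraic_zero
      · intro w D ρ hR
        rw [heq]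
        exact h1 w _ _ (hchg' w D ρ hR)
      · intro w D ρ τ hAt
        rw [heq]
        have h3 := hchg w D ρ τ hAt
        exact h2 w _ _ _ h3 halg (hram w _ _ _ h3)
  have hc0 : (⟨t, hYW htY⟩ : W) ≠ 0 := fun h => htK 0 K.zero_mem (congrArg Subtype.val h)
  have hc1 : (⟨t, hYW htY⟩ : W) ≠ 1 := fun h => htK 1 K.one_mem (congrArg Subtype.val h)
  refine down (k := k) (W := W) (X := XX) (Q := PP) (N := N) hz (c := ⟨t, hYW htY⟩) hc0 hc1
    (x := ⟨x₀, hx₀XX⟩) hzx hMG hd hδ hG0 hT0 hq0 hqt ?_ ?_ hqR hGG' hTT' hqR' ?_ hm₀ hr₀ e1 e2 e3 e4 hl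
  · intro w D ρ hR
    rw [hGG, map_mul, map_pow, ← mul_assoc, ← mul_pow]
    exact (hchg' w D ρ hR).GG_le hSN' m
  · intro w D ρ hR
    rw [hTT, map_mul, map_pow, ← mul_assoc, ← mul_pow]
    exact (hchg' w D ρ hR).TT_le hSN' _
  · intro w hw _ hns
    have hk : ∀ a : k, a ≠ 0 → w (algebraMap k N a) = 1 := hw.const
    refine hT.unr_cover hVT hG hC hne hXX hPP hN hX hQ hY₂f hVX (hK ▸ hxK) htY w hk hmS hWt.pos hxN
      htN fun hsm => hns fun D ρ hR => ?_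
    have h1 := hsm _ _ (hchg' w D ρ hR)
    rw [hGG, hTT, map_mul, map_mul, map_pow, map_pow, ← mul_assoc, ← mul_assoc, ← mul_pow,
      ← mul_pow]
    exact h1

end Pf72953.Pl
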