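import Mathlib
import Pool.Agent.Lib.Pf72953n.TwO
import Pool.Agent.Lib.Pf72953n.Ruled
import Pool.Agent.Lib.Pf72953n.GalTower

/-!
The step of a family of curves of genus `0` for `Ruled`.
-/

set_option autoImplicit false
set_option linter.style.haveILetI false

open scoped WithZero Polynomial
open Pf72953 Pf72953.Mov Pf72953.Tow

namespace Pf72953.Pl

variable {k Ω : Type*} [Field k] [Field Ω] [Algebra k Ω] [CharZero k] [IsAlgClosed k]
  [IsAlgClosed Ω]

omit [CharZero k] [IsAlgClosed k] [IsAlgClosed Ω] in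
theorem Ruled.exists_trans {V T : IntermediateField k Ω} (h : Ruled V T) :
    ∃ t ∈ T, Transcendental V t := by
  obtain ⟨P, x, hP, hG, hx, hgen⟩ := h.split
  by_contra hcon
  push Not at hcon
  have h1 : T ⊔ P ≤ cl V := sup_le (fun z hz => mem_cl.2 (by simpa [Transcendental] using hcon z hz))
    (alg_iff.1 hG.alg)
  rw [hgen] at h1
  exact hx (mem_cl.1 (h1 (mem_sup_right' (mem_adjoin_one x))))

omit [CharZero k] [IsAlgClosed k] [IsAlgClosed Ω] in
theorem Ruled.exists_trans' {V T X : IntermediateField k Ω} (h : Ruled V T) (hX : X ≤ cl V) :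
    ∃ t ∈ T, Transcendental X t := by
  obtain ⟨t, ht, htV⟩ := h.exists_trans
  exact ⟨t, ht, fun h => htV (cl_idem hX h)⟩

/-- **The step of a family of curves of genus `0`** -/
theorem OverC.ruled {B V X T : IntermediateField k Ω} (hO : OverC B V X) (hX : Fin' X)
    (h0 : KodairaGE k X 0)
    (hΩ : ∀ A : IntermediateField k Ω, Fin' A → ∃ t : Ω, Transcendental A t) (hT : Ruled V T)
    (ht : ∃ t ∈ T, Transcendental X t) : OverC B T (X ⊔ T) := by
  obtain ⟨t, htT, ht⟩ := ht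
  exact OverC.con hO hX h0 hΩ hT.le hT.fin (fun Y hY hi => hT.con hY hi) htT ht

omit [IsAlgClosed Ω] in
theorem overC_self {V X : IntermediateField k Ω} (hX : Fin' X) (hVX : V ≤ X) : OverC X V X := by
  have h1 := over_self.2 (StableFib.refl hX)
  refine (over_iff hX).1 ⟨le_rfl, hVX, fun Y Q hY hi hQ hG => ?_⟩
  have hYQ : Y ≤ Q := le_sup_right.trans hG.le
  have h2 : Gal (X ⊔ Y) (X ⊔ Q) := by
    have h3 := gal_sup_base hG (sup_le_sup_right hVX Y)
    rwa [sup_assoc, sup_eq_right.2 hYQ] at h3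
  have h3 := h1.2.2 Y (X ⊔ Q) hY hi (fin_sup hX hQ) h2
  rwa [sup_eq_right.2 le_sup_left] at h3

/-- Iitaka's inequality for the finite Galois covers of a family of curves of genus `0` -/
theorem iitaka_ruled {W X Q T : IntermediateField k Ω} (hX : Fin' X) (hWX : W ≤ X)
    (h0 : KodairaGE k X 0)
    (hΩ : ∀ A : IntermediateField k Ω, Fin' A → ∃ t : Ω, Transcendental A t) (hT : Ruled W T)
    (ht : ∃ t ∈ T, Transcendental X t) (hQ : Fin' Q) (hG : Gal T Q) : Iitaka X (X ⊔ Q) := by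
  have h1 := (OverC.ruled (overC_self hX hWX) hX h0 hΩ hT ht).sup (fin_sup hX hT.fin) hQ hG
  rw [sup_assoc, sup_eq_right.2 hG.le] at h1
  exact ((over_iff (fin_sup hX hQ)).2 h1).iitaka (fin_sup hX hQ)

/-- `κ ≥ 0` after a family of curves of genus `≥ 1` -/
theorem ruled_kod {W X Q T : IntermediateField k Ω} (hX : Fin' X) (hWX : W ≤ X)
    (h0 : KodairaGE k X 0)
    (hΩ : ∀ A : IntermediateField k Ω, Fin' A → ∃ t : Ω, Transcendental A t) (hT : Ruled W T)
    (ht : ∃ t ∈ T, Transcendental X t) (hQ : Fin' Q) (hG : Gal T Q)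
    (hr : relKod X (X ⊔ Q) ≠ ⊥) : KodairaGE k (X ⊔ Q : IntermediateField k Ω) 0 :=
  kge_zero_of_relKod (fin_sup hX hQ) (iitaka_ruled hX hWX h0 hΩ hT ht hQ hG) h0 hr

/-- the step, followed by a Galois cover -/
theorem OverC.ruledQ {B V X Q T : IntermediateField k Ω} (hO : OverC B V X) (hX : Fin' X)
    (h0 : KodairaGE k X 0)
    (hΩ : ∀ A : IntermediateField k Ω, Fin' A → ∃ t : Ω, Transcendental A t) (hT : Ruled V T)
    (ht : ∃ t ∈ T, Transcendental X t) (hQ : Fin' Q) (hG : Gal T Q) : OverC B T (X ⊔ Q) := by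
  have h1 := (OverC.ruled hO hX h0 hΩ hT ht).sup (fin_sup hX hT.fin) hQ hG
  rwa [sup_assoc, sup_eq_right.2 hG.le] at h1

end Pf72953.Pl
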