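import Mathlib
import Pool.Agent.Lib.Pf72953n.RigF
import Pool.Agent.Lib.Pf72953n.RigG
import Pool.Agent.Lib.Pf72953n.GalGen
import Pool.Agent.Lib.Pf72953n.KodIff
import Pool.Agent.Lib.Pf72953n.RulT

/-!
Towers of Galois families of curves and of isotrivial fibre spaces whose fibres have factorial charts, over stable fibre spaces.
-/

set_option autoImplicit false
set_option linter.style.haveILetI false

open scoped WithZero
open Pf72953 Pf72953.Mov Pf72953.Tow Pf72953.Pl

namespace Pf72953.Fb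

variable {k Ω : Type*} [Field k] [Field Ω] [Algebra k Ω]

section

variable [CharZero k] [IsAlgClosed k] [IsAlgClosed Ω]

/-- `Iitaka's inequality for X'/X` is an `OverC`: the inequality over the base `B = X` -/
theorem overC_top {X W : IntermediateField k Ω} (hX : Fin' X) (hWX : W ≤ X) : OverC X W X := by
  refine ⟨le_rfl, hWX, fun Y Q hY hi hQ hG b c hb hc => ?_⟩
  have hYQ : Y ≤ Q := le_sup_right.trans hG.le
  have hf : Fin' (X ⊔ Q) := fin_sup hX hQ
  have hle : X ⊔ Y ≤ X ⊔ Q := sup_le_sup_left hYQ X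
  have halg : ∀ z ∈ X ⊔ Q, IsAlgebraic (X ⊔ Y : IntermediateField k Ω) z :=
    alg_iff.2 (sup_le (le_sup_left.trans le_cl)
      ((alg_iff.1 hG.alg).trans (cl_mono (sup_le_sup_right hWX Y))))
  obtain ⟨f1, hc⟩ := hc
  haveI : Algebra.EssFiniteType k (X ⊔ Q : IntermediateField k Ω) := hf
  haveI : Algebra.EssFiniteType (X ⊔ Y : IntermediateField k Ω) (X ⊔ Q : IntermediateField k Ω) :=
    Algebra.EssFiniteType.of_comp k _ _
  have h0 : c = 0 := by
    have h1 := hc.le_dimension
    have h2 := dim_add (A := X ⊔ Y) hf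
    have h3 := dim_eq hf hle halg
    omega
  rw [h0, add_zero]
  exact kge_pull' hf hle halg (kge_prod hX hY.fin hi hb hY.kod)

/-- a Galois family of curves -/
theorem over_family {B W X T Q : IntermediateField k Ω} (hO : OverC B W X) (hX : Fin' X)
    (hQ : Fin' Q) (h0 : KodairaGE k X 0)
    (hΩ : ∀ A : IntermediateField k Ω, Fin' A → ∃ t : Ω, Transcendental A t)
    (hT : Ruled W T) (ht : ∃ t ∈ T, Transcendental X t) (hG : Gal T Q) : OverC B T (X ⊔ Q) := by
  have h2 := (Pl.OverC.ruled hO hX h0 hΩ hT ht).sup (fin_sup hX hT.fin) hQ hG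
  rwa [sup_assoc, sup_eq_right.2 hG.le] at h2

/-- Iitaka's inequality for a Galois family of curves -/
theorem iitaka_family {W X T Q : IntermediateField k Ω} (hX : Fin' X) (hWX : W ≤ X) (hQ : Fin' Q)
    (h0 : KodairaGE k X 0)
    (hΩ : ∀ A : IntermediateField k Ω, Fin' A → ∃ t : Ω, Transcendental A t)
    (hT : Ruled W T) (ht : ∃ t ∈ T, Transcendental X t) (hG : Gal T Q) : Iitaka X (X ⊔ Q) :=
  ((over_iff (fin_sup hX hQ)).2 (over_family (overC_top hX hWX) hX hQ h0 hΩ hT ht hG)).iitaka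
    (fin_sup hX hQ)

omit [IsAlgClosed k] [IsAlgClosed Ω] in
theorem FibreTower.fin {B V W X : IntermediateField k Ω} (h : FibreTower B V W X) :
    Fin' V ∧ Fin' W ∧ Fin' X := by
  induction h with
  | base hX hG _ => exact ⟨fin_le hX hG.le, fin_le hX hG.le, hX⟩
  | curve _ hT _ hQ _ _ ih => exact ⟨ih.1, hT.fin, fin_sup ih.2.2 hQ⟩
  | factorial _ hS _ ih => exact ⟨ih.1, hS.finE, fin_sup ih.2.2 hS.finE⟩
  | isotrivial _ _ _ hS _ ih => exact ⟨ih.1, ih.2.1, hS.finE⟩
  | cover _ hP _ ih => exact ⟨ih.1, ih.2.1, fin_sup ih.2.2 hP⟩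
  | etale _ _ he ih => exact ⟨ih.1, ih.2.1, he.fin⟩

omit [IsAlgClosed k] [IsAlgClosed Ω] in
theorem FibreTower.le {B V W X : IntermediateField k Ω} (h : FibreTower B V W X) : V ≤ W := by
  induction h with
  | base _ _ _ => exact le_rfl
  | curve _ hT _ _ _ _ ih => exact ih.trans hT.le
  | factorial _ hS _ ih => exact ih.trans hS.le_E
  | isotrivial _ _ _ _ _ ih => exact ih
  | cover _ _ _ ih => exact ih
  | etale _ _ _ ih => exact ih

theorem FibreTower.over {B V W X : IntermediateField k Ω} (h : FibreTower B V W X)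
    (hΩ : ∀ A : IntermediateField k Ω, Fin' A → ∃ t : Ω, Transcendental A t)
    (hS : StableFib B V) (hB : KodairaGE k B 0) : OverC B W X ∧ KodairaGE k X 0 := by
  induction h with
  | base hX hG hr =>
    have hV : Fin' V := fin_le hX hG.le
    have h1 := ((over_iff hV).1 (over_self.2 hS)).sup hV hX hG
    rw [sup_eq_right.2 hG.le] at h1
    exact ⟨h1, kge_zero_of_relKod hX (((over_iff hX).2 h1).iitaka hX) hB hr⟩
  | @curve W X T Q hF hT ht hQ hG hr ih =>
    obtain ⟨hO, h0⟩ := ih
    have hX := hF.fin.2.2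
    exact ⟨over_family hO hX hQ h0 hΩ hT ht hG,
      kge_zero_of_relKod (fin_sup hX hQ) (iitaka_family hX hO.2.1 hQ h0 hΩ hT ht hG) h0 hr⟩
  | @factorial W X E M P hF hS' hi ih =>
    obtain ⟨hO, h0⟩ := ih
    have hX := hF.fin.2.2
    have hM' := (kge_zero_iff hS'.fgM).1 hS'.kod
    exact ⟨hO.rigidF hX hS'.toStep hi h0 hM' hS'.fac, hS'.toStep.kod_supX hX hO.2.1 hi h0 hM'⟩
  | @isotrivial W X X₁ E G P hF hG hXX hS' hk ih =>
    obtain ⟨hO, h0⟩ := ih
    have hX := hF.fin.2.2
    refine ⟨hO.isotrivial h0 hG hXX hS', hS'.kod_E ((kge_zero_iff hS'.fgM).1 hk)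
      (kge_pull' hS'.finV hXX (alg_iff.2 (hS'.le_P.trans (sup_le le_cl
        ((alg_iff.1 hG.alg).trans (cl_mono hO.2.1))))) h0)⟩
  | @cover W X P hF hP hG ih =>
    obtain ⟨hO, h0⟩ := ih
    have hX := hF.fin.2.2
    exact ⟨hO.sup hX hP hG, kge_pull' (fin_sup hX hP) le_sup_left (alg_iff.2 (sup_le le_cl
      ((alg_iff.1 hG.alg).trans (cl_mono hO.2.1)))) h0⟩
  | @etale W X X₁ hF hW he ih =>
    obtain ⟨hO, h0⟩ := ih
    exact ⟨hO.commens he ((hS.1.trans hF.le).trans hW) hW, he.kge h0⟩

/-- **Iitaka's inequality for towers of Galois families of curves and of isotrivial fibre spaces over stable fibre spaces** -/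
theorem FibreTower.iitaka {B V W E : IntermediateField k Ω} (h : FibreTower B V W E)
    (hΩ : ∀ A : IntermediateField k Ω, Fin' A → ∃ t : Ω, Transcendental A t)
    (hS : StableFib B V) : Iitaka B E := by
  by_cases h0 : kodairaDim k B = ⊥
  · exact iitaka_of_bot h0
  · have hE := h.fin.2.2
    obtain ⟨hO, -⟩ := h.over hΩ hS ((kge_zero_iff (fin_le h.fin.1 hS.1)).1 h0)
    exact ((over_iff hE).2 hO).iitaka hE

omit [IsAlgClosed k] [IsAlgClosed Ω] in
theorem link_le {V V' : IntermediateField k Ω} (h : Ruled V V' ∨ ∃ M P, FactorialStep V V' M P) :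
    V ≤ V' := by
  rcases h with h | ⟨M, P, hS⟩
  · exact h.le
  · exact hS.le_E

theorem link_closed {V V' : IntermediateField k Ω}
    (h : Ruled V V' ∨ ∃ M P, FactorialStep V V' M P) {y : Ω} (hy : y ∈ V')
    (hyV : IsAlgebraic V y) : y ∈ V := by
  rcases h with h | ⟨M, P, hS⟩
  · exact h.closed y hy hyV
  · exact step_closed hS.toStep hy hyV

/-- the stages are Galois -/
theorem gal_chain {E : IntermediateField k Ω} {V : ℕ → IntermediateField k Ω} {n : ℕ}
    (hG : Gal (V n) E)
    (hst : ∀ i < n, Ruled (V i) (V (i + 1)) ∨ ∃ M P, FactorialStep (V i) (V (i + 1)) M P)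
    {i : ℕ} (hi : i ≤ n) : Gal (V i) (E ⊓ cl (V i)) := by
  induction hi using Nat.decreasingInduction with
  | self => rw [inf_eq_left.2 (alg_iff.1 hG.alg)]; exact hG
  | of_succ i hi ih =>
    have hin : i < n := hi
    have hl := hst i hin
    have hle := link_le hl
    have h1 := gal_inf_cl hle (fun y hy hyV => link_closed hl hy hyV) ih
    have h2 : E ⊓ cl (V (i + 1)) ⊓ cl (V i) = E ⊓ cl (V i) := by
      rw [inf_assoc, inf_eq_right.2 (cl_mono hle)]
    rwa [h2] at h1

/-- the Galois covers of towers of families of rational curves and isotrivial fibre spaces are `FibreTower`s, if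
`κ(E/B) ≥ 0` -/
theorem GalTower.exists_tower {B V E : IntermediateField k Ω} (h : GalTower B V E) (hBV : B ≤ V)
    (hr : relKod B E ≠ ⊥) : ∃ W, FibreTower B V W E := by
  obtain ⟨n, U, hU, hE, hG, hst, h0, h1⟩ := h
  have hgal : ∀ i ≤ n, Gal (U i) (E ⊓ cl (U i)) := fun i hi => gal_chain hG hst hi
  have hfin : ∀ i, Fin' (E ⊓ cl (U i)) := fun i => fin_le hE inf_le_left
  have hEn : E ⊓ cl (U n) = E := inf_eq_left.2 (alg_iff.1 hG.alg)
  have hmono : ∀ i < n, E ⊓ cl (U i) ≤ E ⊓ cl (U (i + 1)) := fun i hi =>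
    inf_le_inf_left E (cl_mono (link_le (hst i hi)))
  have hBi : ∀ i ≤ n, B ≤ E ⊓ cl (U i) := by
    intro i hi
    induction i with
    | zero =>
      have h2 := (hgal 0 hi).le
      rw [hU] at h2
      rw [hU]
      exact hBV.trans h2
    | succ i ih => exact (ih (by omega)).trans (hmono i (by omega))
  have key : ∀ i ≤ n, FibreTower B V (U i) (E ⊓ cl (U i)) := by
    intro i hi
    induction i with
    | zero =>
      have h2 := FibreTower.base (B := B) (hfin 0) (hgal 0 hi)
        (by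
          rcases Nat.eq_zero_or_pos n with h3 | h3
          · rw [← h3, hEn]; exact hr
          · exact h0 h3)
      rwa [hU] at h2 ⊢
    | succ i ih =>
      have hin : i < n := hi
      have hF := ih hin.le
      have hg := hgal (i + 1) hi
      have hsup : (E ⊓ cl (U i)) ⊔ (E ⊓ cl (U (i + 1))) = E ⊓ cl (U (i + 1)) :=
        sup_eq_right.2 (hmono i hin)
      rcases hst i hin with hl | hl
      · have hgen : relKod (E ⊓ cl (U i)) (E ⊓ cl (U (i + 1))) ≠ ⊥ := by
          rcases Nat.lt_or_ge (i + 1) n with h3 | h3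
          · exact h1 i h3 hl
          · have h4 : i + 1 = n := le_antisymm hi h3
            rw [h4, hEn]
            exact relKod_fibre hE (hBi i hin.le) inf_le_left hr
        have ht : ∃ t ∈ U (i + 1), Transcendental (E ⊓ cl (U i) : IntermediateField k Ω) t := by
          by_contra hcon
          push Not at hcon
          have h2 : ∀ t ∈ U (i + 1), IsAlgebraic (U i) t := fun t ht => by
            have h3 : IsAlgebraic (E ⊓ cl (U i) : IntermediateField k Ω) t :=
              not_not.1 (hcon t ht)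
            exact mem_cl.1 (cl_le (inf_le_right : E ⊓ cl (U i) ≤ _) (mem_cl.2 h3))
          have h3 := dim_eq hl.fin hl.le h2
          have h4 := hl.dim
          omega
        have h3 := hF.curve hl ht (hfin (i + 1)) hg (by rw [hsup]; exact hgen)
        rwa [hsup] at h3
      · obtain ⟨M, P, hS⟩ := hl
        have hfP : Fin' (E ⊓ cl (U i) ⊔ P) := fin_sup (hfin i) hS.fgP
        have hGP : Gal (U i) (E ⊓ cl (U i) ⊔ P) := (hgal i hin.le).sup hS.gal
        have hMP : Indep M (E ⊓ cl (U i) ⊔ P) := (hS.indep.symm.up hfP hS.fgM le_sup_right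
          ((alg_iff.1 hGP.alg).trans (cl_mono hS.le_P))).symm
        have h3 := (hF.factorial hS hMP).cover (hfin (i + 1)) hg
        rwa [sup_assoc, sup_eq_right.2 hg.le, hsup] at h3
  exact ⟨U n, hEn ▸ key n le_rfl⟩

/-- **Theorem G**: Iitaka's inequality for the finite Galois covers of towers of families of rational curves and isotrivial fibre
spaces -/
theorem GalTower.iitaka {B V E : IntermediateField k Ω} (h : GalTower B V E)
    (hΩ : ∀ A : IntermediateField k Ω, Fin' A → ∃ t : Ω, Transcendental A t)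
    (hS : StableFib B V) : Iitaka B E := by
  by_cases hr : relKod B E = ⊥
  · exact iitaka_of_rel hr
  · obtain ⟨W, hT⟩ := h.exists_tower hS.1 hr
    exact hT.iitaka hΩ hS

/-- the finite Galois extensions of `V(x₁, …, x_n)` -/
theorem galTower_coords {B V E : IntermediateField k Ω} {n : ℕ} {x : Fin n → Ω} (hE : Fin' E)
    (hx : AlgebraicIndependent V x) (hG : Gal (coords V x n) E)
    (h0 : 0 < n → relKod B (stage V E x 0) ≠ ⊥)
    (h1 : ∀ i, i + 1 < n → relKod (stage V E x i) (stage V E x (i + 1)) ≠ ⊥) : GalTower B V E := by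
  refine ⟨n, coords V x, coords_zero, hE, hG, fun i hi => Or.inl ?_, h0, fun i hi _ => h1 i hi⟩
  have h2 : coords V x (i + 1) = coords V x i ⊔ IntermediateField.adjoin k {x ⟨i, hi⟩} :=
    coords_succ (V := V) (x := x) ⟨i, hi⟩
  rw [h2]
  refine ruled_line (fin_le hE ?_) (transc_coords hx ⟨i, hi⟩)
  have h3 : ∀ j ≤ n, coords V x j ≤ coords V x n := by
    intro j hj
    induction hj using Nat.decreasingInduction with
    | self => exact le_rfl
    | of_succ j hj ih =>
      have h4 : coords V x (j + 1) = coords V x j ⊔ IntermediateField.adjoin k {x ⟨j, hj⟩} :=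
        coords_succ (V := V) (x := x) ⟨j, hj⟩
      refine le_trans ?_ ih
      rw [h4]
      exact le_sup_left
  exact (h3 i hi.le).trans hG.le

omit [IsAlgClosed k] [IsAlgClosed Ω] in
theorem galTower_self {B V : IntermediateField k Ω} (hV : Fin' V) : GalTower B V V :=
  ⟨0, fun _ => V, rfl, hV, gal_refl, fun i hi => absurd hi (Nat.not_lt_zero i),
    fun h => absurd h (lt_irrefl 0), fun _ hi => absurd hi (Nat.not_lt_zero _)⟩

omit [IsAlgClosed k] [IsAlgClosed Ω] in
theorem fibreTower_self {B V : IntermediateField k Ω} (hV : Fin' V) (h : relKod B V ≠ ⊥) :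
    FibreTower B V V V := FibreTower.base hV gal_refl h

theorem GalTower.fin {B V E : IntermediateField k Ω} (h : GalTower B V E) : Fin' V := by
  obtain ⟨n, U, hU, hE, hG, hst, -, -⟩ := h
  have h2 := (gal_chain hG hst (Nat.zero_le n)).le
  rw [hU] at h2
  exact fin_le hE (h2.trans inf_le_left)

theorem fibreDim_galTower
    (hΩ : ∀ A : IntermediateField k Ω, Fin' A → ∃ t : Ω, Transcendental A t) (d : ℕ) :
    IitakaFibreDim k Ω d ↔ ∀ B V E : IntermediateField k Ω, B ≤ V →
      dimension k V ≤ dimension k B + d → GalTower B V E → Iitaka B E :=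
  ⟨fun hI _ _ _ hBV hd h => h.iitaka hΩ (stableFib_of_dim hI h.fin hBV hd),
    fun h K Q hQ hKQ _ hd => h K Q Q hKQ hd (galTower_self hQ)⟩

theorem fibreDim_fibreTower
    (hΩ : ∀ A : IntermediateField k Ω, Fin' A → ∃ t : Ω, Transcendental A t) (d : ℕ) :
    IitakaFibreDim k Ω d ↔ ∀ B V W E : IntermediateField k Ω, B ≤ V →
      dimension k V ≤ dimension k B + d → FibreTower B V W E → Iitaka B E := by
  refine ⟨fun hI _ _ _ _ hBV hd h => h.iitaka hΩ (stableFib_of_dim hI h.fin.1 hBV hd),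
    fun h K Q hQ hKQ _ hd => ?_⟩
  by_cases h1 : relKod K Q = ⊥
  · exact iitaka_of_rel h1
  · exact h K Q Q Q hKQ hd (fibreTower_self hQ h1)

theorem fibreKod_galTower
    (hΩ : ∀ A : IntermediateField k Ω, Fin' A → ∃ t : Ω, Transcendental A t) (d : ℕ) :
    IitakaFibreKod k Ω d ↔ ∀ B V E : IntermediateField k Ω, B ≤ V →
      (dimension k V : WithBot ℕ∞) ≤ dimension k B + d + relKod B V →
      GalTower B V E → Iitaka B E :=
  ⟨fun hI _ _ _ hBV hd h => h.iitaka hΩ (stableFib_of_kod hI h.fin hBV hd),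
    fun h K Q hQ hKQ _ hd => h K Q Q hKQ hd (galTower_self hQ)⟩

theorem fibreKod_fibreTower
    (hΩ : ∀ A : IntermediateField k Ω, Fin' A → ∃ t : Ω, Transcendental A t) (d : ℕ) :
    IitakaFibreKod k Ω d ↔ ∀ B V W E : IntermediateField k Ω, B ≤ V →
      (dimension k V : WithBot ℕ∞) ≤ dimension k B + d + relKod B V →
      FibreTower B V W E → Iitaka B E := by
  refine ⟨fun hI _ _ _ _ hBV hd h => h.iitaka hΩ (stableFib_of_kod hI h.fin.1 hBV hd),
    fun h K Q hQ hKQ _ hd => ?_⟩
  by_cases h1 : relKod K Q = ⊥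
  · exact iitaka_of_rel h1
  · exact h K Q Q Q hKQ hd (fibreTower_self hQ h1)

/-! ### stable fibre spaces -/

/-- families of rational curves -/
theorem stableFib_ruled {B V T : IntermediateField k Ω} (hS : StableFib B V) (hV : Fin' V)
    (h0 : kodairaDim k V ≠ ⊥)
    (hΩ : ∀ A : IntermediateField k Ω, Fin' A → ∃ t : Ω, Transcendental A t)
    (hT : Ruled V T) : StableFib B T := by
  have ht : ∃ t ∈ T, Transcendental V t := by
    by_contra hcon
    push Not at hcon
    have h3 := dim_eq hT.fin hT.le fun t ht => not_not.1 (hcon t ht)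
    have h4 := hT.dim
    omega
  have h1 := Pl.OverC.ruled ((over_iff hV).1 (over_self.2 hS)) hV ((kge_zero_iff hV).1 h0) hΩ hT ht
  rw [sup_eq_right.2 hT.le] at h1
  exact over_self.1 ((over_iff hT.fin).2 h1)

/-- isotrivial fibre spaces whose fibres have factorial charts -/
theorem _root_.Pf72953.Tow.FactorialStep.grow {B V E M P M₀ : IntermediateField k Ω}
    (h : FactorialStep V E M P) (hS : StableFib B V) (hV : kodairaDim k V ≠ ⊥)
    (hM₀ : M₀ = ⊥ ∨ StableFib M₀ M) (hM₀E : M₀ ≤ E) :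
    StableFib (B ⊔ M₀) E ∧ kodairaDim k E ≠ ⊥ := by
  have h0 := h.toStep
  have hM := (kge_zero_iff h0.fgM).1 h.kod
  have hV' := (kge_zero_iff h0.finV).1 hV
  have h1 := ((over_iff h0.finV).1 (over_self.2 hS)).growF (P := P) h0.finV
    (hM₀.imp_right (stableFib_iff h0.fgM).1) h0 (sup_eq_right.2 h0.le_P).symm h0.indep hM₀E hV' hM
    h.fac
  rw [sup_eq_right.2 h0.le_E] at h1
  exact ⟨over_self.1 ((over_iff h0.finE).2 h1), (kge_zero_iff h0.finE).2 (h0.kod_E hM hV')⟩

theorem _root_.Pf72953.Tow.FactorialStep.stableFib {B V E M P : IntermediateField k Ω}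
    (h : FactorialStep V E M P) (hS : StableFib B V) (hV : kodairaDim k V ≠ ⊥) :
    StableFib B E ∧ kodairaDim k E ≠ ⊥ := by
  have h1 := h.grow hS hV (Or.inl rfl) bot_le
  rwa [sup_bot_eq] at h1

omit [IsAlgClosed k] [IsAlgClosed Ω] in
theorem factorialStep_prod {V M : IntermediateField k Ω} (hV : Fin' V) (hM : Fin' M)
    (hi : Indep M V) (hMk : kodairaDim k M ≠ ⊥) (hf : IsFactorial M) :
    FactorialStep V (M ⊔ V) M V :=
  ⟨⟨hM, hV, hi, le_rfl, fun x hx => alg_of_mem hx,
    le_sup_left.trans le_sup_left, le_sup_right.trans le_sup_left,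
    fun σ hσ => (hσ.mono le_sup_left).stab, fun σ hσ => (hσ.mono le_sup_right).stab,
    (inf_eq_right.2 le_sup_right).symm⟩, hMk, hf⟩

/-- products -/
theorem stableFib_prod {B P M₀ M : IntermediateField k Ω} (hS : StableFib B P)
    (hS' : StableFib M₀ M) (hP : Fin' P) (hM : Fin' M) (hi : Indep M P)
    (hPk : kodairaDim k P ≠ ⊥) (hMk : kodairaDim k M ≠ ⊥) (hf : IsFactorial M) :
    StableFib (B ⊔ M₀) (M ⊔ P) :=
  ((factorialStep_prod hP hM hi hMk hf).grow hS hPk (Or.inr hS') (hS'.1.trans le_sup_left)).1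

end

end Pf72953.Fb
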