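import Mathlib
import Pool.Agent.Lib.Pf72953n.RigG
import Pool.Agent.Lib.Pf72953n.GalGen
import Pool.Agent.Lib.Pf72953n.KodIff
import Pool.Agent.Lib.Pf72953n.Etale

/-!
Towers of Galois families of curves and of isotrivial fibre spaces over stable fibre spaces.
-/

set_option autoImplicit false
set_option linter.style.haveILetI false

open scoped WithZero
open Pf72953 Pf72953.Mov Pf72953.Tow

namespace Pf72953.Pl

variable {k Ω : Type*} [Field k] [Field Ω] [Algebra k Ω]

/-- `E` is a finite Galois extension of `U_n`, where `V = U₀ ⊆ U₁ ⊆ … ⊆ U_n` and every `U_{i+1}` is `U_i(x)` or a rigid isotrivial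
fibre space over `U_i`; with `E_i` the algebraic closure of `U_i` in `E`: `κ(E₀/B) ≥ 0` (if `n > 0`), and the curve `E_{i+1}/E_i`
has genus `≥ 1` if `U_{i+1} = U_i(x)`, `i + 1 < n`. -/
def GalTower [CharZero k] (B V E : IntermediateField k Ω) : Prop :=
  ∃ (n : ℕ) (U : ℕ → IntermediateField k Ω), U 0 = V ∧ Fin' E ∧ Gal (U n) E ∧
    (∀ i < n, IsLine (U i) (U (i + 1)) ∨ IsRigid (E ⊓ cl (U i)) (U i) (U (i + 1))) ∧
    (0 < n → relKod B (E ⊓ cl (U 0)) ≠ ⊥) ∧
    ∀ i, i + 1 < n → IsLine (U i) (U (i + 1)) → relKod (E ⊓ cl (U i)) (E ⊓ cl (U (i + 1))) ≠ ⊥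

/-- `E → V` is a tower of fibre spaces with fibres of Kodaira dimension `≥ 0`.  It starts with a finite Galois cover `X` of
`W = V`, `κ(X/B) ≥ 0`.  Every further step `X' → X` is the pull-back `X ×_W Q` of a family of curves `Q → W`, of genus `≥ 1`
over `X`, `Q` any finite Galois extension of `W(x)` (then `W` is replaced by `W(x)`); the pull-back `X ×_W E` of an isotrivial
fibre space `E = (M × P)/H → W`, `κ(M) ≥ 0`, all of whose covers over `X` have branch divisors of product type (then `W` is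
replaced by `E`); an isotrivial fibre space `(G × (X ×_W P))/H → X₁`, `κ(G) ≥ 0`, `P` a finite Galois cover of `W`, `X₁` a
finite cover of `X`; or a cover `X ×_W P`; or `X` is replaced by `X₁ → W` such that `X` and `X₁` have a common finite Galois
cover which is unramified at all divisorial valuations. -/
inductive FibreTower [CharZero k] (B V : IntermediateField k Ω) :
    IntermediateField k Ω → IntermediateField k Ω → Prop
  | base {X : IntermediateField k Ω} : Fin' X → Gal V X → relKod B X ≠ ⊥ → FibreTower B V V X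
  | curve {W X Q : IntermediateField k Ω} {x : Ω} : FibreTower B V W X → Transcendental X x →
      Fin' Q → Gal (W ⊔ IntermediateField.adjoin k {x}) Q → relKod X (X ⊔ Q) ≠ ⊥ →
      FibreTower B V (W ⊔ IntermediateField.adjoin k {x}) (X ⊔ Q)
  | rigid {W X E M P : IntermediateField k Ω} : FibreTower B V W X → Step W E M P →
      Indep M (X ⊔ P) → kodairaDim k M ≠ ⊥ → PicProd M (X ⊔ P) → FibreTower B V E (X ⊔ E)
  | isotrivial {W X X₁ E G P : IntermediateField k Ω} : FibreTower B V W X → Gal W P → X ≤ X₁ →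
      Step X₁ E G (X ⊔ P) → kodairaDim k G ≠ ⊥ → FibreTower B V W E
  | cover {W X P : IntermediateField k Ω} : FibreTower B V W X → Fin' P → Gal W P →
      FibreTower B V W (X ⊔ P)
  | etale {W X X₁ : IntermediateField k Ω} : FibreTower B V W X → W ≤ X₁ → Commens X X₁ →
      FibreTower B V W X₁

theorem fin_adj1 (x : Ω) : Fin' (IntermediateField.adjoin k {x}) := by
  rw [Fin', IntermediateField.essFiniteType_iff]
  exact ⟨{x}, by rw [Finset.coe_singleton]⟩

section

variable [CharZero k] [IsAlgClosed k] [IsAlgClosed Ω]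

omit [IsAlgClosed k] [IsAlgClosed Ω] in
theorem FibreTower.fin {B V W X : IntermediateField k Ω} (h : FibreTower B V W X) :
    Fin' V ∧ Fin' W ∧ Fin' X := by
  induction h with
  | base hX hG _ => exact ⟨fin_le hX hG.le, fin_le hX hG.le, hX⟩
  | curve _ _ hQ _ _ ih => exact ⟨ih.1, fin_sup ih.2.1 (fin_adj1 _), fin_sup ih.2.2 hQ⟩
  | rigid _ hS _ _ _ ih => exact ⟨ih.1, hS.finE, fin_sup ih.2.2 hS.finE⟩
  | isotrivial _ _ _ hS _ ih => exact ⟨ih.1, ih.2.1, hS.finE⟩
  | cover _ hP _ ih => exact ⟨ih.1, ih.2.1, fin_sup ih.2.2 hP⟩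
  | etale _ _ he ih => exact ⟨ih.1, ih.2.1, he.fin⟩

omit [IsAlgClosed k] [IsAlgClosed Ω] in
theorem FibreTower.le {B V W X : IntermediateField k Ω} (h : FibreTower B V W X) : V ≤ W := by
  induction h with
  | base _ _ _ => exact le_rfl
  | curve _ _ _ _ _ ih => exact ih.trans le_sup_left
  | rigid _ hS _ _ _ ih => exact ih.trans hS.le_E
  | isotrivial _ _ _ _ _ ih => exact ih
  | cover _ _ _ ih => exact ih
  | etale _ _ _ ih => exact ih

theorem FibreTower.over {B V W X : IntermediateField k Ω} (h : FibreTower B V W X)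
    (hΩ : ∀ A : IntermediateField k Ω, Fin' A → ∃ t : Ω, Transcendental A t)
    (hS : StableFib B V) (hB : KodairaGE k B 0) : OverC B W X ∧ KodairaGE k X 0 := by
  induction h with
  | base hX hG hr =>
    have hV : Fin' V := fin_le hX hG.le
    have h1 := ((over_iff hV).1 (over_self.2 hS)).sup hV hX hG
    rw [sup_eq_right.2 hG.le] at h1
    exact ⟨h1, kge_zero_of_relKod hX (((over_iff hX).2 h1).iitaka hX) hB hr⟩
  | @curve W X Q x hT hx hQ hG hr ih =>
    obtain ⟨hO, h0⟩ := ih
    have hX := hT.fin.2.2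
    have h1 : Gal (X ⊔ IntermediateField.adjoin k {x}) (X ⊔ Q) := by
      have h2 := gal_sup_base hG (sup_le_sup_right hO.2.1 (IntermediateField.adjoin k {x}))
      rwa [sup_assoc, sup_eq_right.2 (le_sup_right.trans hG.le)] at h2
    exact ⟨hO.curve hX hQ h0 hΩ hx hG,
      kge_zero_of_relKod (fin_sup hX hQ) (iitaka_one (fin_sup hX hQ) hx h1 hΩ) h0 hr⟩
  | @rigid W X E M P hT hS' hi hM hP ih =>
    obtain ⟨hO, h0⟩ := ih
    have hX := hT.fin.2.2
    have hM' := (kge_zero_iff hS'.fgM).1 hM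
    exact ⟨hO.rigidX hX hS' hi h0 hM' hP, hS'.kod_supX hX hO.2.1 hi h0 hM'⟩
  | @isotrivial W X X₁ E G P hT hG hXX hS' hk ih =>
    obtain ⟨hO, h0⟩ := ih
    have hX := hT.fin.2.2
    refine ⟨hO.isotrivial h0 hG hXX hS', hS'.kod_E ((kge_zero_iff hS'.fgM).1 hk)
      (kge_pull' hS'.finV hXX (alg_iff.2 (hS'.le_P.trans (sup_le le_cl
        ((alg_iff.1 hG.alg).trans (cl_mono hO.2.1))))) h0)⟩
  | @cover W X P hT hP hG ih =>
    obtain ⟨hO, h0⟩ := ih
    have hX := hT.fin.2.2
    exact ⟨hO.sup hX hP hG, kge_pull' (fin_sup hX hP) le_sup_left (alg_iff.2 (sup_le le_cl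
      ((alg_iff.1 hG.alg).trans (cl_mono hO.2.1)))) h0⟩
  | @etale W X X₁ hT hW he ih =>
    obtain ⟨hO, h0⟩ := ih
    exact ⟨hO.commens he ((hS.1.trans hT.le).trans hW) hW, he.kge h0⟩

/-- **Iitaka's inequality for towers of Galois families of curves and of isotrivial fibre spaces over stable fibre spaces** -/
theorem FibreTower.iitaka {B V W E : IntermediateField k Ω} (h : FibreTower B V W E)
    (hΩ : ∀ A : IntermediateField k Ω, Fin' A → ∃ t : Ω, Transcendental A t)
    (hS : StableFib B V) : Iitaka B E := by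
  by_cases h0 : kodairaDim k B = ⊥
  · exact iitaka_of_bot h0
  · have hE := h.fin.2.2
    obtain ⟨hO, -⟩ := h.over hΩ hS ((kge_zero_iff (fin_le h.fin.1 hS.1)).1 h0)
    exact ((over_iff hE).2 hO).iitaka hE

/-- the Galois covers of towers of lines and rigid isotrivial fibre spaces are `FibreTower`s, if `κ(E/B) ≥ 0` -/
theorem GalTower.exists_tower {B V E : IntermediateField k Ω} (h : GalTower B V E) (hBV : B ≤ V)
    (hr : relKod B E ≠ ⊥) : ∃ W, FibreTower B V W E := by
  obtain ⟨n, U, hU, hE, hG, hst, h0, h1⟩ := h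
  have hgal : ∀ i ≤ n, Gal (U i) (E ⊓ cl (U i)) := fun i hi => gal_chain hE hG hst hi
  have hfin : ∀ i, Fin' (E ⊓ cl (U i)) := fun i => fin_le hE inf_le_left
  have hEn : E ⊓ cl (U n) = E := inf_eq_left.2 (alg_iff.1 hG.alg)
  have hmono : ∀ i < n, E ⊓ cl (U i) ≤ E ⊓ cl (U (i + 1)) := fun i hi =>
    inf_le_inf_left E (cl_mono (link_le (hst i hi)))
  have hBi : ∀ i ≤ n, B ≤ E ⊓ cl (U i) := by
    intro i hi
    induction i with
    | zero =>
      have h2 := (hgal 0 hi).le
      rw [hU] at h2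
      rw [hU]
      exact hBV.trans h2
    | succ i ih => exact (ih (by omega)).trans (hmono i (by omega))
  have key : ∀ i ≤ n, FibreTower B V (U i) (E ⊓ cl (U i)) := by
    intro i hi
    induction i with
    | zero =>
      have h2 := FibreTower.base (B := B) (hfin 0) (hgal 0 hi)
        (by
          rcases Nat.eq_zero_or_pos n with h3 | h3
          · rw [← h3, hEn]; exact hr
          · exact h0 h3)
      rwa [hU] at h2 ⊢
    | succ i ih =>
      have hin : i < n := hi
      have hT := ih hin.le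
      have hg := hgal (i + 1) hi
      have hsup : (E ⊓ cl (U i)) ⊔ (E ⊓ cl (U (i + 1))) = E ⊓ cl (U (i + 1)) :=
        sup_eq_right.2 (hmono i hin)
      rcases hst i hin with hl | hl
      · have hgen : relKod (E ⊓ cl (U i)) (E ⊓ cl (U (i + 1))) ≠ ⊥ := by
          rcases Nat.lt_or_ge (i + 1) n with h3 | h3
          · exact h1 i h3 hl
          · have h4 : i + 1 = n := le_antisymm hi h3
            rw [h4, hEn]
            exact relKod_fibre hE (hBi i hin.le) inf_le_left hr
        obtain ⟨x, hx, hUx⟩ := hl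
        have hx' : Transcendental (E ⊓ cl (U i) : IntermediateField k Ω) x := fun h =>
          hx (mem_cl.1 (cl_le (inf_le_right : E ⊓ cl (U i) ≤ _) (mem_cl.2 h)))
        have h3 := hT.curve hx' (hfin (i + 1)) (by rw [← hUx]; exact hg) (by rw [hsup]; exact hgen)
        rwa [hsup, ← hUx] at h3
      · obtain ⟨M, P, hS, hM, hpic⟩ := hl
        have hfP : Fin' (E ⊓ cl (U i) ⊔ P) := fin_sup (hfin i) hS.fgP
        have hGP : Gal (U i) (E ⊓ cl (U i) ⊔ P) := (hgal i hin.le).sup hS.gal
        have hMP : Indep M (E ⊓ cl (U i) ⊔ P) := (hS.indep.symm.up hfP hS.fgM le_sup_right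
          ((alg_iff.1 hGP.alg).trans (cl_mono hS.le_P))).symm
        have h3 := (hT.rigid hS hMP hM hpic).cover (hfin (i + 1)) hg
        rwa [sup_assoc, sup_eq_right.2 hg.le, hsup] at h3
  exact ⟨U n, hEn ▸ key n le_rfl⟩

/-- **Theorem G**: Iitaka's inequality for the finite Galois covers of towers of lines and rigid isotrivial fibre spaces -/
theorem GalTower.iitaka {B V E : IntermediateField k Ω} (h : GalTower B V E)
    (hΩ : ∀ A : IntermediateField k Ω, Fin' A → ∃ t : Ω, Transcendental A t)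
    (hS : StableFib B V) : Iitaka B E := by
  by_cases hr : relKod B E = ⊥
  · exact iitaka_of_rel hr
  · obtain ⟨W, hT⟩ := h.exists_tower hS.1 hr
    exact hT.iitaka hΩ hS

omit [IsAlgClosed k] [IsAlgClosed Ω] in
/-- the finite Galois extensions of `V(x₁, …, x_n)` -/
theorem galTower_coords {B V E : IntermediateField k Ω} {n : ℕ} {x : Fin n → Ω} (hE : Fin' E)
    (hx : AlgebraicIndependent V x) (hG : Gal (coords V x n) E)
    (h0 : 0 < n → relKod B (stage V E x 0) ≠ ⊥)
    (h1 : ∀ i, i + 1 < n → relKod (stage V E x i) (stage V E x (i + 1)) ≠ ⊥) : GalTower B V E :=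
  ⟨n, coords V x, coords_zero, hE, hG, fun i hi => Or.inl ⟨x ⟨i, hi⟩, transc_coords hx ⟨i, hi⟩,
    coords_succ (V := V) (x := x) ⟨i, hi⟩⟩, h0, fun i hi _ => h1 i hi⟩

omit [IsAlgClosed k] [IsAlgClosed Ω] in
theorem galTower_self {B V : IntermediateField k Ω} (hV : Fin' V) : GalTower B V V :=
  ⟨0, fun _ => V, rfl, hV, gal_refl, fun i hi => absurd hi (Nat.not_lt_zero i),
    fun h => absurd h (lt_irrefl 0), fun _ hi => absurd hi (Nat.not_lt_zero _)⟩

omit [IsAlgClosed k] [IsAlgClosed Ω] in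
theorem fibreTower_self {B V : IntermediateField k Ω} (hV : Fin' V) (h : relKod B V ≠ ⊥) :
    FibreTower B V V V := FibreTower.base hV gal_refl h

theorem GalTower.fin {B V E : IntermediateField k Ω} (h : GalTower B V E) : Fin' V := by
  obtain ⟨n, U, hU, hE, hG, hst, -, -⟩ := h
  have h2 := (gal_chain hE hG hst (Nat.zero_le n)).le
  rw [hU] at h2
  exact fin_le hE (h2.trans inf_le_left)

theorem fibreDim_galTower
    (hΩ : ∀ A : IntermediateField k Ω, Fin' A → ∃ t : Ω, Transcendental A t) (d : ℕ) :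
    IitakaFibreDim k Ω d ↔ ∀ B V E : IntermediateField k Ω, B ≤ V →
      dimension k V ≤ dimension k B + d → GalTower B V E → Iitaka B E :=
  ⟨fun hI _ _ _ hBV hd h => h.iitaka hΩ (stableFib_of_dim hI h.fin hBV hd),
    fun h K Q hQ hKQ _ hd => h K Q Q hKQ hd (galTower_self hQ)⟩

theorem fibreDim_fibreTower
    (hΩ : ∀ A : IntermediateField k Ω, Fin' A → ∃ t : Ω, Transcendental A t) (d : ℕ) :
    IitakaFibreDim k Ω d ↔ ∀ B V W E : IntermediateField k Ω, B ≤ V →
      dimension k V ≤ dimension k B + d → FibreTower B V W E → Iitaka B E := by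
  refine ⟨fun hI _ _ _ _ hBV hd h => h.iitaka hΩ (stableFib_of_dim hI h.fin.1 hBV hd),
    fun h K Q hQ hKQ _ hd => ?_⟩
  by_cases h1 : relKod K Q = ⊥
  · exact iitaka_of_rel h1
  · exact h K Q Q Q hKQ hd (fibreTower_self hQ h1)

theorem fibreKod_galTower
    (hΩ : ∀ A : IntermediateField k Ω, Fin' A → ∃ t : Ω, Transcendental A t) (d : ℕ) :
    IitakaFibreKod k Ω d ↔ ∀ B V E : IntermediateField k Ω, B ≤ V →
      (dimension k V : WithBot ℕ∞) ≤ dimension k B + d + relKod B V →
      GalTower B V E → Iitaka B E :=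
  ⟨fun hI _ _ _ hBV hd h => h.iitaka hΩ (stableFib_of_kod hI h.fin hBV hd),
    fun h K Q hQ hKQ _ hd => h K Q Q hKQ hd (galTower_self hQ)⟩

theorem fibreKod_fibreTower
    (hΩ : ∀ A : IntermediateField k Ω, Fin' A → ∃ t : Ω, Transcendental A t) (d : ℕ) :
    IitakaFibreKod k Ω d ↔ ∀ B V W E : IntermediateField k Ω, B ≤ V →
      (dimension k V : WithBot ℕ∞) ≤ dimension k B + d + relKod B V →
      FibreTower B V W E → Iitaka B E := by
  refine ⟨fun hI _ _ _ _ hBV hd h => h.iitaka hΩ (stableFib_of_kod hI h.fin.1 hBV hd),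
    fun h K Q hQ hKQ _ hd => ?_⟩
  by_cases h1 : relKod K Q = ⊥
  · exact iitaka_of_rel h1
  · exact h K Q Q Q hKQ hd (fibreTower_self hQ h1)

end

end Pf72953.Pl
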