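import Mathlib
import Pool.Agent.Lib.Pf72953n.Ruled

/-!
Geometrically Galois covers: the fields of constants.
-/

set_option autoImplicit false
set_option linter.style.haveILetI false

open scoped WithZero Polynomial
open Pf72953 Pf72953.Mov Pf72953.Tow

namespace Pf72953.Pl

variable {k Ω : Type*} [Field k] [Field Ω] [Algebra k Ω]

/-- the curve `E/V` is a cover of the curve `T/V` which is Galois over a finite Galois extension of `V` -/
structure GeoGal (V T E : IntermediateField k Ω) : Prop where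
  fin : Fin' E
  le : T ≤ E
  closed : ∀ z ∈ E, IsAlgebraic V z → z ∈ V
  gal : ∃ P : IntermediateField k Ω, Fin' P ∧ Gal V P ∧ Gal T (E ⊔ P)

variable [CharZero k] [IsAlgClosed Ω]

/-- base change of a regular extension -/
theorem closed_free {D N A : IntermediateField k Ω} (hN : Fin' N) (hA : Fin' A) (hDN : D ≤ N)
    (hDA : D ≤ A) (hcl : ∀ x ∈ A, IsAlgebraic D x → x ∈ D)
    (hi : dimension k (N ⊔ A : IntermediateField k Ω) + dimension k D =
      dimension k N + dimension k A) : ∀ z ∈ N ⊔ A, IsAlgebraic N z → z ∈ N := by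
  intro z hz hzN
  refine mem_of_fixed hN hzN fun σ hσ => ?_
  obtain ⟨N₁, hN₁⟩ : ∃ N₁, N₁ = N ⊔ IntermediateField.adjoin k {z} := ⟨_, rfl⟩
  obtain ⟨N₂, hN₂⟩ : ∃ N₂, N₂ = N ⊔ IntermediateField.adjoin k {σ z} := ⟨_, rfl⟩
  have f₁ : Fin' N₁ := hN₁ ▸ fin_sup hN (fin_one z)
  have f₂ : Fin' N₂ := hN₂ ▸ fin_sup hN (fin_one _)
  have hNN₁ : N ≤ N₁ := hN₁ ▸ le_sup_left
  have hNN₂ : N ≤ N₂ := hN₂ ▸ le_sup_left
  have hzN₁ : z ∈ N₁ := hN₁ ▸ mem_sup_right' (mem_adjoin_one z)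
  have hzN₂ : σ z ∈ N₂ := hN₂ ▸ mem_sup_right' (mem_adjoin_one _)
  have hc₁ : N₁ ≤ cl N := hN₁ ▸ sup_le le_cl (adjoin_one_le (mem_cl.2 hzN))
  have hc₂ : N₂ ≤ cl N := hN₂ ▸ sup_le le_cl (adjoin_one_le (mem_cl.2 (hσ.isAlgebraic hzN)))
  have m₁ : ∀ x ∈ N₁, σ x ∈ N₂ := by
    have h1 : N₁ ≤ N₂.comap (σ : Ω →ₐ[k] Ω) := by
      rw [hN₁]
      refine sup_le (fun x hx => ?_) (adjoin_one_le hzN₂)
      change σ x ∈ N₂
      rw [hσ x hx]
      exact hNN₂ hx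
    exact fun x hx => h1 hx
  have m₂ : ∀ x ∈ N₂, σ.symm x ∈ N₁ := by
    have h1 : N₂ ≤ N₁.comap (σ.symm : Ω →ₐ[k] Ω) := by
      rw [hN₂]
      refine sup_le (fun x hx => ?_) (adjoin_one_le ?_)
      · change σ.symm x ∈ N₁
        rw [hσ.symm79 x hx]
        exact hNN₁ hx
      · change σ.symm (σ z) ∈ N₁
        rw [AlgEquiv.symm_apply_apply]
        exact hzN₁
    exact fun x hx => h1 hx
  have d₁ : dimension k N₁ = dimension k N := dim_eq f₁ hNN₁ (alg_iff.2 hc₁)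
  have d₂ : dimension k N₂ = dimension k N := dim_eq f₂ hNN₂ (alg_iff.2 hc₂)
  have d₃ : dimension k (N₁ ⊔ A : IntermediateField k Ω) =
      dimension k (N ⊔ A : IntermediateField k Ω) :=
    dim_eq (fin_sup f₁ hA) (sup_le_sup_right hNN₁ A) (alg_iff.2 (sup_le
      (hc₁.trans (cl_mono le_sup_left)) (le_sup_right.trans le_cl)))
  have d₄ : dimension k (N₂ ⊔ A : IntermediateField k Ω) =
      dimension k (N ⊔ A : IntermediateField k Ω) :=
    dim_eq (fin_sup f₂ hA) (sup_le_sup_right hNN₂ A) (alg_iff.2 (sup_le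
      (hc₂.trans (cl_mono le_sup_left)) (le_sup_right.trans le_cl)))
  obtain ⟨ψ, hψ, hψσ⟩ := exists_amalg f₁ f₂ hA (hDN.trans hNN₁) hDA hcl σ (hσ.mono hDN) m₁ m₂
    (by rw [d₁, d₃, hi]) (by rw [d₂, d₄, hi])
  have hψN : Fixes ψ N := fun x hx => by rw [hψσ x (hNN₁ hx), hσ x hx]
  rw [← hψσ z hzN₁]
  exact (hψN.sup79 hψ) z hz

/-- automorphisms of the constants extend to automorphisms over a regular extension -/
theorem lift_regular {V E P : IntermediateField k Ω} (hP : Fin' P) (hE : Fin' E) (hVE : V ≤ E)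
    (hG : Gal V P) (hcl : ∀ x ∈ E, IsAlgebraic V x → x ∈ V) (σ : Ω ≃ₐ[k] Ω) (hσ : Fixes σ V) :
    ∃ h : Ω ≃ₐ[k] Ω, Fixes h E ∧ ∀ z ∈ P, h z = σ z := by
  have e1 : dimension k P = dimension k V := dim_eq hP hG.le hG.alg
  have e2 : dimension k (P ⊔ E : IntermediateField k Ω) = dimension k E :=
    dim_eq (fin_sup hP hE) le_sup_right (alg_iff.2 (sup_le ((alg_iff.1 hG.alg).trans (cl_mono hVE))
      le_cl))
  exact exists_amalg hP hP hE hG.le hVE hcl σ hσ (fun z hz => hG.stab σ hσ z hz)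
    (fun z hz => hG.stab _ hσ.symm79 z hz) (by omega) (by omega)

omit [CharZero k] [IsAlgClosed Ω] in
/-- the constants of `Q` -/
theorem gal_const {V T Q C : IntermediateField k Ω} (hC : Con V T) (hV : Fin' V) (hQ : Fin' Q)
    (hG : Gal T Q) (hCQ : C ≤ Q) (hCV : C ≤ cl V) (hcl : ∀ z ∈ Q, IsAlgebraic V z → z ∈ C) :
    Gal V C := by
  have hVC : V ≤ C := fun z hz => hcl z (hG.le (hC.le hz)) (alg_of_mem hz)
  refine ⟨hVC, alg_iff.2 hCV, fun σ hσ z hz => ?_⟩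
  obtain ⟨P, hP, hGP, hCP, -⟩ := exists_hull hV (fin_le hQ hCQ) hVC (alg_iff.2 hCV)
  obtain ⟨τ, hτ, hτσ⟩ := hC.lift P hP hGP σ hσ
  rw [← hτσ z (hCP hz)]
  refine hcl _ (hG.stab τ hτ z (hCQ hz)) ?_
  exact (hτ.mono hC.le).isAlgebraic (mem_cl.1 (hCV hz))

/-- the Galois hull of a geometrically Galois cover -/
theorem exists_hull_geo {V T E P : IntermediateField k Ω} (hT : Fin' T) (hE : Fin' E)
    (hP : Fin' P) (hVT : V ≤ T) (hTE : T ≤ E) (hG : Gal V P) (hGE : Gal T (E ⊔ P)) :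
    ∃ R : IntermediateField k Ω, Fin' R ∧ Gal T R ∧ E ≤ R ∧
      (∀ R' : IntermediateField k Ω, (∀ τ : Ω ≃ₐ[k] Ω, Fixes τ T → ∀ x ∈ E, τ x ∈ R') → R ≤ R') ∧
      R ≤ E ⊔ (R ⊓ cl V) := by
  classical
  have hVP : V ≤ P := hG.le
  have halg : ∀ x ∈ E, IsAlgebraic T x := fun x hx => hGE.alg x (mem_sup_left' hx)
  obtain ⟨R, hR, hGR, hER, hmin⟩ := exists_hull hT hE hTE halg
  refine ⟨R, hR, hGR, hER, hmin, fun z hz => ?_⟩
  have hREP : R ≤ E ⊔ P := hmin _ fun τ hτ x hx => hGE.stab τ hτ x (mem_sup_left' hx)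
  haveI : Fact (V ≤ P) := ⟨hVP⟩
  obtain ⟨i1, i2⟩ := hG.finite hP
  have hVR : V ≤ R := hVT.trans hGR.le
  -- the automorphisms of `P` which come from automorphisms over `R`
  let U : Subgroup (P ≃ₐ[V] P) :=
    { carrier := {ρ | ∃ σ : Ω ≃ₐ[k] Ω, Fixes σ R ∧ ∀ x : P, σ x = ρ x}
      mul_mem' := by
        rintro ρ ρ' ⟨σ, hσ, hσρ⟩ ⟨σ', hσ', hσρ'⟩
        refine ⟨σ'.trans σ, fun x hx => ?_, fun x => ?_⟩
        · rw [AlgEquiv.trans_apply, hσ' x hx, hσ x hx]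
        · rw [AlgEquiv.trans_apply, hσρ' x, hσρ, AlgEquiv.mul_apply]
      one_mem' := ⟨AlgEquiv.refl, fun _ _ => rfl, fun _ => rfl⟩
      inv_mem' := by
        rintro ρ ⟨σ, hσ, hσρ⟩
        refine ⟨σ.symm, hσ.symm79, fun x => ?_⟩
        rw [AlgEquiv.symm_apply_eq, hσρ]
        congr 1
        exact (AlgEquiv.apply_symm_apply ρ x).symm }
  have hfixU : ∀ x : P, x ∈ IntermediateField.fixedField U → (x : Ω) ∈ R ⊓ cl V := by
    intro x hx
    refine ⟨?_, mem_cl.2 (hG.alg x x.2)⟩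
    refine mem_of_fixed hR (alg_mono hVR (hG.alg x x.2)) fun σ hσ => ?_
    obtain ⟨s, hs⟩ := Tow.exists_restrict hG (hσ.mono hVR)
    have h1 : s ∈ U := ⟨σ, hσ, fun x => (hs x).symm⟩
    have h2 : s x = x := (IntermediateField.mem_fixedField_iff U x).1 hx s h1
    rw [← hs, h2]
  have hEV : V ≤ E ⊔ (R ⊓ cl V) := (hVT.trans hTE).trans le_sup_left
  refine mem_of_fixed (fin_sup hE (fin_le hR inf_le_left)) ?_ fun σ hσ => ?_
  · exact alg_mono (hTE.trans le_sup_left) (hGR.alg z hz)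
  obtain ⟨s, hs⟩ := Tow.exists_restrict hG (hσ.mono hEV)
  have h1 : s ∈ (IntermediateField.fixedField U).fixingSubgroup := by
    rw [IntermediateField.mem_fixingSubgroup_iff]
    intro x hx
    apply Subtype.ext
    rw [hs]
    exact hσ _ (mem_sup_right' (hfixU x hx))
  rw [IntermediateField.fixingSubgroup_fixedField] at h1
  obtain ⟨τ, hτ, hτs⟩ := h1
  have h2 : Fixes (σ.trans τ.symm) (E ⊔ P) := by
    refine Fixes.sup79 (fun x hx => ?_) fun x hx => ?_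
    · rw [AlgEquiv.trans_apply, hσ x (mem_sup_left' hx), AlgEquiv.symm_apply_eq, hτ x (hER hx)]
    · rw [AlgEquiv.trans_apply, AlgEquiv.symm_apply_eq]
      exact (hs ⟨x, hx⟩).symm.trans (hτs ⟨x, hx⟩).symm
  have h3 := h2 z (hREP hz)
  rw [AlgEquiv.trans_apply, AlgEquiv.symm_apply_eq, hτ z hz] at h3
  exact h3

end Pf72953.Pl
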