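import Mathlib
import Pool.Agent.Lib.Pf72953n.GeoC
import Pool.Agent.Lib.Pf72953n.BrA

/-!
Families of covers of curves of genus `0` which are uniformly ramified.
-/

set_option autoImplicit false
set_option linter.style.haveILetI false

open scoped WithZero Polynomial
open Pf72953 Pf72953.Mov Pf72953.Tow

namespace Pf72953.Pl

variable {k Ω : Type*} [Field k] [Field Ω] [Algebra k Ω]

/-- `V` is algebraically closed in `E`, and a finite Galois extension of `T` which contains `E` is unramified over `E` at the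
valuations which are trivial on `V` -/
structure Uni (V T E : IntermediateField k Ω) : Prop where
  fin : Fin' E
  le : T ≤ E
  closed : ∀ z ∈ E, IsAlgebraic V z → z ∈ V
  gal : ∃ Q : IntermediateField k Ω, Fin' Q ∧ Gal T Q ∧ E ≤ Q ∧
    ∀ u : Valuation Q ℤᵐ⁰, (∀ a ∈ V, a ≠ 0 → ∀ h : a ∈ Q, u ⟨a, h⟩ = 1) →
      ∀ z : Q, u z < 1 → ∃ t : Q, (t : Ω) ∈ E ∧ u t < 1 ∧ u z ≤ u t

/-- the data of the step -/
structure Geo (V T E Q C : IntermediateField k Ω) : Prop where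
  TE : T ≤ E
  EQ : E ≤ Q
  CQ : C ≤ Q
  fin : Fin' Q
  galQ : Gal T Q
  gal : Gal V C
  closed : ∀ z ∈ Q, IsAlgebraic V z → z ∈ C
  hor : ∀ [Fact (E ≤ Q)] (u : Valuation Q ℤᵐ⁰),
    (∀ a ∈ V, a ≠ 0 → ∀ h : a ∈ Q, u ⟨a, h⟩ = 1) → Br.Unr E u
  faith : ∀ σ : Ω ≃ₐ[k] Ω, Fixes σ E → (∀ g : Ω ≃ₐ[k] Ω, Fixes g (T ⊔ C) → ∀ z ∈ Q,
    σ (g z) = g (σ z)) → Fixes σ Q

theorem unr_iff_mem {E Q : IntermediateField k Ω} [Fact (E ≤ Q)] {u : Valuation Q ℤᵐ⁰} :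
    Br.Unr E u ↔ ∀ z : Q, u z < 1 → ∃ t : Q, (t : Ω) ∈ E ∧ u t < 1 ∧ u z ≤ u t := by
  constructor
  · intro h z hz
    obtain ⟨t, h1, h2⟩ := h z hz
    exact ⟨algebraMap E Q t, t.2, h1, h2⟩
  · intro h z hz
    obtain ⟨t, h0, h1, h2⟩ := h z hz
    exact ⟨⟨t, h0⟩, h1, h2⟩

/-- a valuation which is trivial on `V` is trivial on the algebraic extensions of `V` -/
theorem triv_of_alg {V P Q : IntermediateField k Ω} (hVQ : V ≤ Q) (hP : ∀ z ∈ P, IsAlgebraic V z)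
    {u : Valuation Q ℤᵐ⁰} (hu : ∀ a ∈ V, a ≠ 0 → ∀ h : a ∈ Q, u ⟨a, h⟩ = 1) (a : Q)
    (ha : (a : Ω) ∈ P) (h0 : a ≠ 0) : u a = 1 := by
  haveI : Fact (V ≤ Q) := ⟨hVQ⟩
  refine val_eq_one_of_isIntegral (B := V) ?_ h0 ?_
  · intro b hb
    exact hu b b.2 (fun h => hb (Subtype.ext h)) (hVQ b.2)
  · have h1 : IsAlgebraic V a := (isAlgebraic_algebraMap_iff (A := Ω) (algebraMap Q Ω).injective).1
      (hP a ha)
    exact h1.isIntegral

variable [CharZero k] [IsAlgClosed k] [IsAlgClosed Ω]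

/-- geometrically Galois covers are uniformly ramified -/
theorem GeoGal.uni {V T E : IntermediateField k Ω} (h : GeoGal V T E) (hVT : V ≤ T) :
    Uni V T E := by
  obtain ⟨P, hP, hGP, hG⟩ := h.gal
  have hEf := h.fin
  have hQf : Fin' (E ⊔ P : IntermediateField k Ω) := fin_sup hEf hP
  refine ⟨hEf, h.le, h.closed, E ⊔ P, hQf, hG, le_sup_left, fun u hu => ?_⟩
  haveI f1 : Fact (E ≤ E ⊔ P) := ⟨le_sup_left⟩
  haveI f2 : Fact (E ⊔ P ≤ E ⊔ P) := ⟨le_rfl⟩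
  rw [← unr_iff_mem]
  have hVE : V ≤ E := hVT.trans h.le
  have hGE : Gal E (E ⊔ P) := by
    have h1 := hGP.base E hVE
    rwa [sup_comm] at h1
  have htr : ∀ a : (E ⊔ P : IntermediateField k Ω), (a : Ω) ∈ P → a ≠ 0 → u a = 1 :=
    triv_of_alg (hVE.trans le_sup_left) hGP.alg hu
  refine unr_const (Z' := E ⊔ P) (C := P) hQf hGE gal_refl le_sup_right
    (fun σ hσ => hGP.stab σ (hσ.mono hVE)) le_rfl (fun c hc => ?_) htr ?_
  · refine htr _ (P.algebraMap_mem c) ?_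
    simpa using hc
  · intro z hz
    exact ⟨z, hz, le_rfl⟩

/-- the cover of `T ⊔ Y` which belongs to `E` and a Galois cover `Q₀` -/
theorem Uni.exists_geo {V T E Y Q₀ : IntermediateField k Ω} (hE : Uni V T E) (hVT : V ≤ T)
    (hY : Fin' Y) (hi : Indep E Y) (hC : Con (V ⊔ Y) (T ⊔ Y)) (hQ₀ : Fin' Q₀)
    (hG₀ : Gal (T ⊔ Y) Q₀) : ∃ Q C : IntermediateField k Ω, Geo (V ⊔ Y) (T ⊔ Y) (E ⊔ Q₀) Q C := by
  have hEf := hE.fin
  have hTf : Fin' T := fin_le hEf hE.le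
  have hVf : Fin' V := fin_le hTf hVT
  have hVE : V ≤ E := hVT.trans hE.le
  obtain ⟨V', hV'⟩ : ∃ V', V' = V ⊔ Y := ⟨_, rfl⟩
  obtain ⟨T', hT'⟩ : ∃ T', T' = T ⊔ Y := ⟨_, rfl⟩
  obtain ⟨E', hE'⟩ : ∃ E', E' = E ⊔ Y := ⟨_, rfl⟩
  have hV'f : Fin' V' := hV' ▸ fin_sup hVf hY
  have hT'f : Fin' T' := hT' ▸ fin_sup hTf hY
  have hE'f : Fin' E' := hE' ▸ fin_sup hEf hY
  have hVT' : V' ≤ T' := by rw [hV', hT']; exact sup_le_sup_right hVT Y
  have hTE' : T' ≤ E' := by rw [hT', hE']; exact sup_le_sup_right hE.le Y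
  rw [← hV', ← hT'] at hC ⊢
  rw [← hT'] at hG₀
  -- `E'/V'` is regular
  have hclE : ∀ z ∈ E', IsAlgebraic V' z → z ∈ V' := by
    have h1 : V ⊔ Y ⊔ E = E ⊔ Y := by
      rw [sup_comm V Y, sup_assoc, sup_eq_right.2 hVE, sup_comm]
    have h2 := closed_free (D := V) (N := V ⊔ Y) (A := E) (fin_sup hVf hY) hEf le_sup_left hVE
      hE.closed (by
        rw [h1]
        have e1 : dimension k (E ⊔ Y : IntermediateField k Ω) = dimension k E + dimension k Y := hi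
        have e2 : dimension k (V ⊔ Y : IntermediateField k Ω) = dimension k V + dimension k Y :=
          hi.mono_left hEf hY hVE
        omega)
    rwa [h1, ← hV', ← hE'] at h2
  -- the Galois hull
  obtain ⟨Q₁, hQ₁, hG₁, hEQ₁, hun⟩ := hE.gal
  have hEalg : ∀ x ∈ E, IsAlgebraic T x := fun x hx => hG₁.alg x (hEQ₁ hx)
  obtain ⟨R, hR, hGR, hER, hmin⟩ := exists_hull hTf hEf hE.le hEalg
  have hRQ₁ : R ≤ Q₁ := hmin _ fun τ hτ x hx => hG₁.stab τ hτ x (hEQ₁ hx)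
  haveI f1 : Fact (E ≤ R) := ⟨hER⟩
  haveI f2 : Fact (R ≤ Q₁) := ⟨hRQ₁⟩
  haveI f3 : Fact (E ≤ Q₁) := ⟨hEQ₁⟩
  have hVR : V ≤ R := hVE.trans hER
  have hunR : ∀ u : Valuation R ℤᵐ⁰, (∀ a ∈ V, a ≠ 0 → ∀ h : a ∈ R, u ⟨a, h⟩ = 1) →
      Br.Unr E u := by
    intro u hu
    obtain ⟨u₁, hu₁⟩ := exists_val hQ₁ (fun x hx => alg_mono hGR.le (hG₁.alg x hx)) u
    have h1 : Br.Unr E u₁ := by
      rw [unr_iff_mem]
      refine hun u₁ fun a ha h0 h => ?_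
      have h2 := hu a ha h0 (hVR ha)
      have h3 := (Valuation.isEquiv_iff_val_eq_one.1 hu₁ (x := ⟨a, hVR ha⟩)).2 h2
      exact h3
    exact unr_of_equiv hu₁ (unr_comap (L := R) h1)
  obtain ⟨Q, hQ⟩ : ∃ Q, Q = Q₀ ⊔ R := ⟨_, rfl⟩
  obtain ⟨C, hCdef⟩ : ∃ C, C = Q ⊓ cl V' := ⟨_, rfl⟩
  have hT'Q₀ : T' ≤ Q₀ := hG₀.le
  have hYQ₀ : Y ≤ Q₀ := (hT' ▸ le_sup_right : Y ≤ T').trans hT'Q₀
  have hTT' : T ≤ T' := hT' ▸ le_sup_left
  have hQf : Fin' Q := hQ ▸ fin_sup hQ₀ hR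
  have hGQ : Gal T' Q := by
    have h1 := hG₀.sup (hGR.base T' hTT')
    have h2 : Q₀ ⊔ (R ⊔ T') = Q := by
      rw [hQ]
      exact le_antisymm (sup_le le_sup_left (sup_le le_sup_right (hT'Q₀.trans le_sup_left)))
        (sup_le_sup_left le_sup_left _)
    rwa [h2] at h1
  have hCQ : C ≤ Q := hCdef ▸ inf_le_left
  have hCV : C ≤ cl V' := hCdef ▸ inf_le_right
  have hCcl : ∀ z ∈ Q, IsAlgebraic V' z → z ∈ C := fun z hz hz' => by
    rw [hCdef]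
    exact ⟨hz, mem_cl.2 hz'⟩
  have hGC : Gal V' C := gal_const hC hV'f hQf hGQ hCQ hCV hCcl
  have hCf : Fin' C := fin_le hQf hCQ
  have hE'E : E' ≤ E ⊔ Q₀ := hE' ▸ sup_le_sup_left hYQ₀ E
  have hEE' : E ≤ E' := hE' ▸ le_sup_left
  have hRQ : R ≤ Q := hQ ▸ le_sup_right
  have hEQ : E ⊔ Q₀ ≤ Q := hQ ▸ sup_le (hER.trans le_sup_right) le_sup_left
  refine ⟨Q, C, hT'Q₀.trans le_sup_right, hEQ, hCQ, hQf, hGQ, hGC, hCcl, ?_,
    fun σ hσ hcomm => ?_⟩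
  · intro f u hu
    haveI g1 : Fact (R ≤ Q) := ⟨hRQ⟩
    haveI g2 : Fact (E ≤ Q) := ⟨hER.trans hRQ⟩
    have hGE : Gal E R := ⟨hER, fun x hx => alg_mono hE.le (hGR.alg x hx), fun σ hσ =>
      hGR.stab σ (hσ.mono hE.le)⟩
    have hGE' : Gal (E ⊔ Q₀) Q := ⟨hEQ, fun x hx => alg_mono (hT'Q₀.trans le_sup_right)
      (hGQ.alg x hx), fun σ hσ => hGQ.stab σ (hσ.mono (hT'Q₀.trans le_sup_right))⟩
    refine unr_up (Z := E) (L := R) (Z' := E ⊔ Q₀) (L' := Q) le_sup_left hR hQf hGE hGE' ?_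
      (fun c hc => ?_) ?_
    · rw [hQ]
      exact sup_le (le_sup_right.trans le_sup_left) le_sup_right
    · exact hu _ (V'.algebraMap_mem c) (by simpa using hc) (Q.algebraMap_mem c)
    · refine hunR _ fun a ha h0 h => ?_
      exact hu a (hV' ▸ mem_sup_left' ha) h0 (hRQ h)
  · have hσE' : Fixes σ E' := hσ.mono hE'E
    have hclT : ∀ x ∈ T', IsAlgebraic T x → x ∈ T := by
      intro x hx hx'
      rw [hT'] at hx
      exact closed_sup hTf hY (hi.mono_left hEf hY hE.le) hx hx'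
    have hσR : R ≤ fixF79 σ := by
      refine hmin _ fun τ₀ hτ₀ x hx => ?_
      change σ (τ₀ x) = τ₀ x
      obtain ⟨τ, hτ, hττ₀⟩ := lift_regular hR hT'f hTT' hGR hclT τ₀ hτ₀
      rw [← hττ₀ x (hER hx)]
      obtain ⟨h, hh, hhτ⟩ := lift_regular hCf hE'f (hVT'.trans hTE') hGC hclE τ (hτ.mono hVT')
      have hg : Fixes (h.symm.trans τ) (T' ⊔ C) := by
        refine Fixes.sup79 (fun y hy => ?_) fun y hy => ?_
        · rw [AlgEquiv.trans_apply, hh.symm79 y (hTE' hy), hτ y hy]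
        · have h1 : h.symm y ∈ C := by
            have h2 : Fixes h V' := hh.mono (hVT'.trans hTE')
            exact hGC.stab _ h2.symm79 y hy
          rw [AlgEquiv.trans_apply, ← hhτ _ h1, AlgEquiv.apply_symm_apply]
      have h1 := hcomm _ hg x (hRQ (hER hx))
      rw [hσE' x (hEE' hx), AlgEquiv.trans_apply, hh.symm79 x (hEE' hx)] at h1
      exact h1
    have h2 : Fixes σ R := fixes_iff79.2 hσR
    have h3 : Fixes σ Q₀ := hσ.mono le_sup_right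
    rw [hQ]
    exact h3.sup79 h2

end Pf72953.Pl
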