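import Mathlib
import Pool.Agent.Lib.Pf72953x.IdemB
import Pool.Agent.Lib.Pf72953x.Uniq
import Pool.Agent.Lib.Pf72953x.B3

/-!
The Gauss valuation has only one extension, if it is unramified and the branch points do not collide.
-/

set_option autoImplicit false
set_option linter.style.haveILetI false

open scoped WithZero Polynomial
open Pf72953

namespace Pf72953.Pl

theorem gauss_unique {k K L : Type*} [Field k] [CharZero k] [IsAlgClosed k] [Field K] [Field L]
    [Algebra k K] [Algebra k L] [Algebra K L] [IsScalarTower k K L] {x : L}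
    (hx : Transcendental K x) [FiniteDimensional (IntermediateField.adjoin K {x}) L]
    [IsGalois (IntermediateField.adjoin K {x}) L]
    (hcl : ∀ z : L, IsAlgebraic K z → ∃ a : K, algebraMap K L a = z)
    {w : Valuation L ℤᵐ⁰} (hk : ∀ a : k, a ≠ 0 → w (algebraMap k L a) = 1)
    (hG : ∀ p : Polynomial K, (∀ i, w (algebraMap K L (p.coeff i)) ≤ 1) →
      (∃ i, w (algebraMap K L (p.coeff i)) = 1) → w (Polynomial.aeval x p) = 1)
    (hun : ∀ g : L ≃ₐ[IntermediateField.adjoin K {x}] L, (∀ z, w z ≤ 1 → w (g z - z) < 1) → g = 1)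
    (S : Finset K) (hS1 : ∀ s ∈ S, w (algebraMap K L s) ≤ 1)
    (hS2 : ∀ s ∈ S, ∀ s' ∈ S, s ≠ s' → w (algebraMap K L (s - s')) = 1)
    (hS : ∀ u : Valuation L ℤᵐ⁰, (∀ a : K, a ≠ 0 → u (algebraMap K L a) = 1) →
      (∀ s ∈ S, 1 ≤ u (x - algebraMap K L s)) →
      ∀ g : L ≃ₐ[IntermediateField.adjoin K {x}] L, (∀ z, u z ≤ 1 → u (g z - z) < 1) → g = 1)
    (g : L ≃ₐ[IntermediateField.adjoin K {x}] L) (z : L) : w (g z) = w z := by
  classical
  set v : Valuation K ℤᵐ⁰ := w.comap (algebraMap K L) with hv
  have hva : ∀ a : K, v a = w (algebraMap K L a) := fun _ => rfl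
  set x' : IntermediateField.adjoin K {x} := IntermediateField.AdjoinSimple.gen K x with hx'
  have hxx : algebraMap (IntermediateField.adjoin K {x}) L x' = x :=
    IntermediateField.AdjoinSimple.algebraMap_gen K x
  have hae : ∀ p : K[X], algebraMap (IntermediateField.adjoin K {x}) L (Polynomial.aeval x' p) =
      Polynomial.aeval x p := by
    intro p
    rw [← Polynomial.aeval_algebraMap_apply, hxx]
  have hxt : Transcendental K x' := by
    rw [← transcendental_algebraMap_iff
      (algebraMap (IntermediateField.adjoin K {x}) L).injective, hxx]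
    exact hx
  have hK : ∀ z : IntermediateField.adjoin K {x}, z ∈ IntermediateField.adjoin K {x'} := by
    intro z
    obtain ⟨r, s, hrs⟩ := (IntermediateField.mem_adjoin_simple_iff K (z : L)).1 z.2
    refine (IntermediateField.mem_adjoin_simple_iff K z).2 ⟨r, s, ?_⟩
    apply (algebraMap (IntermediateField.adjoin K {x}) L).injective
    rw [map_div₀, hae, hae]
    exact hrs
  by_cases hnt : ∃ a : K, a ≠ 0 ∧ v a ≠ 1
  · have hG' : ∀ p : K[X], (∀ n, w (algebraMap K L (p.coeff n)) ≤ 1) →
        (∃ n, w (algebraMap K L (p.coeff n)) = 1) →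
        w (algebraMap (IntermediateField.adjoin K {x}) L (Polynomial.aeval x' p)) = 1 := by
      intro p h1 h2
      rw [hae]
      exact hG p h1 h2
    have hU : ∀ u : Valuation L ℤᵐ⁰, (∀ a : K, a ≠ 0 → u (algebraMap K L a) = 1) →
        (∀ e ∈ S, ¬ u (algebraMap (IntermediateField.adjoin K {x}) L
          (x' - algebraMap K (IntermediateField.adjoin K {x}) e)) < 1) →
        Ug.NoInert (IntermediateField.adjoin K {x}) u := by
      intro u hu hu2
      refine hS u hu fun s hs => ?_
      have h1 := not_lt.1 (hu2 s hs)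
      rwa [map_sub, hxx, ← IsScalarTower.algebraMap_apply] at h1
    have hk' : ∀ a : k, a ≠ 0 → v (algebraMap k K a) = 1 := fun a ha => by
      rw [hva, ← IsScalarTower.algebraMap_apply]
      exact hk a ha
    obtain ⟨e₁, e₂, he₁, he₂, hE⟩ := Ug.exists_idem_aux hxt hK (v := v) (w₀ := w) (fun a => by rw [hva])
      hnt hG' hun S hS1 hU fun e he z hz =>
        Ug.exists_good_at k hxt hK hva hk' hnt hG' hun S hS1 hS2 hU he hz
    exact Br.InertiaAux.Dc_eq (Ug.dc_of_idem hcl hxt hK hva hnt hG' hun he₁ he₂ hE g) z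
  · -- the trivial case
    push Not at hnt
    have h1 : ∀ p : K[X], p ≠ 0 → w (Polynomial.aeval x p) = 1 := by
      intro p hp
      refine hG p (fun i => ?_) ?_
      · rcases eq_or_ne (p.coeff i) 0 with h | h
        · rw [h, map_zero, map_zero]; exact zero_le
        · rw [← hva, hnt _ h]
      · refine ⟨p.natDegree, ?_⟩
        rw [← hva]
        exact hnt _ (Polynomial.leadingCoeff_ne_zero.2 hp)
    have h2 : ∀ c : IntermediateField.adjoin K {x}, w (c : L) ≤ 1 := by
      intro c
      obtain ⟨r, s, hrs⟩ := (IntermediateField.mem_adjoin_simple_iff K (c : L)).1 c.2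
      rw [hrs, map_div₀]
      rcases eq_or_ne s 0 with rfl | hs
      · rw [map_zero, map_zero, div_zero]; exact zero_le
      rcases eq_or_ne r 0 with rfl | hr
      · rw [map_zero, map_zero, zero_div]; exact zero_le
      rw [h1 r hr, h1 s hs, div_one]
    have h3 : ∀ y : L, w y ≤ 1 := fun y =>
      Pur.le_one_of_isIntegral (A := IntermediateField.adjoin K {x}) h2
        (Algebra.IsIntegral.isIntegral y)
    have h4 : ∀ y : L, y ≠ 0 → w y = 1 := by
      intro y hy
      refine le_antisymm (h3 y) ?_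
      have h5 := h3 y⁻¹
      have h6 : 0 < w y := zero_lt_iff.2 ((Valuation.ne_zero_iff w).2 hy)
      rwa [map_inv₀, inv_le_one₀ h6] at h5
    rcases eq_or_ne z 0 with rfl | hz
    · rw [map_zero]
    · rw [h4 z hz, h4 (g z) ((map_ne_zero g).2 hz)]

end Pf72953.Pl
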