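import Mathlib
import Pool.Agent.Lib.Pf72953n.GauU
import Pool.Agent.Lib.Pf72953x.Kummer
import Pool.Agent.Lib.Pf72953x.GaussAlg

/-!
The Gauss valuation has only one extension, if the branch points do not collide.
-/

set_option autoImplicit false
set_option linter.style.haveILetI false
set_option linter.unusedSectionVars false

open scoped WithZero Polynomial
open Pf72953

namespace Pf72953.Pl

/-- the values of the Gauss valuation are powers of the value of a uniformizer of the constants -/
theorem gauss_zpow {K L : Type*} [Field K] [Field L] [Algebra K L] {x : L} {w : Valuation L ℤᵐ⁰}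
    (hG : ∀ p : Polynomial K, (∀ i, w (algebraMap K L (p.coeff i)) ≤ 1) →
      (∃ i, w (algebraMap K L (p.coeff i)) = 1) → w (Polynomial.aeval x p) = 1)
    {ϖ : K} (hϖ : IsUnif (w.comap (algebraMap K L)) ϖ) {a : L}
    (ha : a ∈ IntermediateField.adjoin K {x}) (ha0 : a ≠ 0) :
    ∃ j : ℤ, w a = w (algebraMap K L ϖ) ^ j := by
  classical
  have hK : ∀ b : K, b ≠ 0 → ∃ j : ℤ, w (algebraMap K L b) = w (algebraMap K L ϖ) ^ j := by
    intro b hb
    rcases le_total (w (algebraMap K L b)) 1 with h | h
    · obtain ⟨e, he⟩ := hϖ.exists_pow hb h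
      exact ⟨e, by rw [zpow_natCast]; exact he⟩
    · have h1 : (w.comap (algebraMap K L)) b⁻¹ ≤ 1 := by
        show w (algebraMap K L b⁻¹) ≤ 1
        rw [map_inv₀, map_inv₀]
        exact inv_le_one_of_one_le₀ h
      obtain ⟨e, he⟩ := hϖ.exists_pow (inv_ne_zero hb) h1
      refine ⟨-(e : ℤ), ?_⟩
      have h2 : w (algebraMap K L b⁻¹) = w (algebraMap K L ϖ) ^ e := he
      rw [zpow_neg, zpow_natCast, ← h2, map_inv₀, map_inv₀, inv_inv]
  have hpoly : ∀ p : K[X], Polynomial.aeval x p ≠ 0 →
      ∃ j : ℤ, w (Polynomial.aeval x p) = w (algebraMap K L ϖ) ^ j := by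
    intro p hp
    have hp0 : p ≠ 0 := by
      rintro rfl
      exact hp (map_zero _)
    obtain ⟨m, hm, hmax⟩ := Finset.exists_max_image p.support
      (fun i => w (algebraMap K L (p.coeff i))) (by
        rwa [Finset.nonempty_iff_ne_empty, Ne, Polynomial.support_eq_empty])
    have hm0 : p.coeff m ≠ 0 := Polynomial.mem_support_iff.1 hm
    have hmL : algebraMap K L (p.coeff m) ≠ 0 := (map_ne_zero _).2 hm0
    have hmpos : 0 < w (algebraMap K L (p.coeff m)) :=
      zero_lt_iff.2 ((Valuation.ne_zero_iff w).2 hmL)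
    have h1 := hG (Polynomial.C (p.coeff m)⁻¹ * p) (fun n => ?_) ⟨m, ?_⟩
    · rw [map_mul, Polynomial.aeval_C, map_inv₀, map_mul, map_inv₀,
        inv_mul_eq_one₀ hmpos.ne'] at h1
      obtain ⟨j, hj⟩ := hK _ hm0
      exact ⟨j, by rw [← h1, hj]⟩
    · rw [Polynomial.coeff_C_mul, map_mul, map_mul, map_inv₀, map_inv₀]
      by_cases hn : n ∈ p.support
      · calc _ ≤ (w (algebraMap K L (p.coeff m)))⁻¹ * w (algebraMap K L (p.coeff m)) := by
              gcongr
              exact hmax n hn
          _ = 1 := inv_mul_cancel₀ hmpos.ne'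
      · rw [Polynomial.notMem_support_iff.1 hn, map_zero, map_zero, mul_zero]
        exact zero_le
    · rw [Polynomial.coeff_C_mul, inv_mul_cancel₀ hm0, map_one, map_one]
  obtain ⟨p, q, rfl⟩ := (IntermediateField.mem_adjoin_simple_iff K a).1 ha
  have hq : Polynomial.aeval x q ≠ 0 := fun h => ha0 (by rw [h, div_zero])
  have hp : Polynomial.aeval x p ≠ 0 := fun h => ha0 (by rw [h, zero_div])
  obtain ⟨i, hi⟩ := hpoly p hp
  obtain ⟨j, hj⟩ := hpoly q hq
  have hϖ0 : w (algebraMap K L ϖ) ≠ 0 :=
    (Valuation.ne_zero_iff w).2 ((map_ne_zero _).2 hϖ.ne_zero)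
  exact ⟨i - j, by rw [map_div₀, hi, hj, zpow_sub₀ hϖ0]⟩

section up

variable {k K F L L' : Type*} [Field k] [CharZero k] [IsAlgClosed k] [Field K] [Field F] [Field L]
  [Field L'] [Algebra k K] [Algebra k L] [Algebra K L] [IsScalarTower k K L] [Algebra K F]
  [Algebra F L] [IsScalarTower K F L] {x : F} [FiniteDimensional F L] [IsGalois F L]
  [Algebra L L'] [Algebra K L'] [IsScalarTower K L L'] [Algebra k L'] [IsScalarTower k K L']
  [Algebra F L'] [IsScalarTower F L L'] [FiniteDimensional F L'] [IsGalois F L']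

theorem gauss_up (hx : Transcendental K (algebraMap F L x))
    (hF : ∀ z : F, z ∈ IntermediateField.adjoin K {x})
    (hcl : ∀ z : L, IsAlgebraic K z → ∃ a : K, algebraMap K L a = z)
    {w : Valuation L ℤᵐ⁰} (hk : ∀ a : k, a ≠ 0 → w (algebraMap k L a) = 1)
    (hG : ∀ p : Polynomial K, (∀ i, w (algebraMap K L (p.coeff i)) ≤ 1) →
      (∃ i, w (algebraMap K L (p.coeff i)) = 1) → w (Polynomial.aeval (algebraMap F L x) p) = 1)
    (S : Finset K) (hS1 : ∀ s ∈ S, w (algebraMap K L s) ≤ 1)
    (hS2 : ∀ s ∈ S, ∀ s' ∈ S, s ≠ s' → w (algebraMap K L (s - s')) = 1)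
    (hS : ∀ u : Valuation L ℤᵐ⁰, (∀ a : K, a ≠ 0 → u (algebraMap K L a) = 1) →
      (∀ s ∈ S, 1 ≤ u (algebraMap F L x - algebraMap K L s)) →
      ∀ g : L ≃ₐ[F] L, (∀ z, u z ≤ 1 → u (g z - z) < 1) → g = 1)
    {ϖ : K} (hϖ : IsUnif (w.comap (algebraMap K L)) ϖ) {r : ℕ} (hr0 : 0 < r)
    (hr : ∀ m : ℕ, 0 < m → m ≤ Module.finrank F L → m ∣ r)
    {y : L'} (hy : y ^ r = algebraMap K L' ϖ) (hL' : ∀ z : L', z ∈ IntermediateField.adjoin L {y})
    (g : L ≃ₐ[F] L) (z : L) : w (g z) = w z := by
  classical
  haveI : FiniteDimensional L L' :=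
    Module.Finite.of_restrictScalars_finite F L L'
  haveI : IsGalois L L' := IsGalois.tower_top_of_isGalois F L L'
  haveI : IsScalarTower k L L' := IsScalarTower.of_algebraMap_eq fun a => by
    rw [IsScalarTower.algebraMap_apply k K L', IsScalarTower.algebraMap_apply K L L',
      ← IsScalarTower.algebraMap_apply k K L]
  haveI : IsScalarTower K F L' :=
    IsScalarTower.of_algebraMap_eq fun a => by
      rw [IsScalarTower.algebraMap_apply F L L', ← IsScalarTower.algebraMap_apply K F L,
        ← IsScalarTower.algebraMap_apply K L L']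
  have hϖ0 : ϖ ≠ 0 := hϖ.ne_zero
  have hy0 : y ≠ 0 := by
    rintro rfl
    rw [zero_pow hr0.ne'] at hy
    exact hϖ0 ((map_eq_zero (algebraMap K L')).1 hy.symm)
  have hyalg : IsAlgebraic K y := by
    refine IsAlgebraic.of_pow hr0 ?_
    rw [hy]
    exact isAlgebraic_algebraMap _
  haveI hKK : Algebra.IsAlgebraic K (IntermediateField.adjoin K {y}) :=
    IntermediateField.isAlgebraic_adjoin_simple hyalg.isIntegral
  set x' : L' := algebraMap L L' (algebraMap F L x) with hx'def
  -- `x'` is transcendental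
  have hx'K : Transcendental K x' := by
    rw [hx'def, transcendental_algebraMap_iff (algebraMap L L').injective]
    exact hx
  have hx' : Transcendental (IntermediateField.adjoin K {y}) x' := fun h =>
    hx'K (h.restrictScalars K)
  -- `K(x) ⊆ K'(x)`
  have hFL : ∀ z : F, algebraMap F L z ∈ IntermediateField.adjoin K {algebraMap F L x} := by
    intro z
    have h1 : IntermediateField.adjoin K {x} ≤
        (IntermediateField.adjoin K {algebraMap F L x}).comap (IsScalarTower.toAlgHom K F L) := by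
      rw [IntermediateField.adjoin_le_iff, Set.singleton_subset_iff]
      exact IntermediateField.mem_adjoin_simple_self _ _
    exact h1 (hF z)
  have hle : ∀ z : F, algebraMap F L' z ∈
        IntermediateField.adjoin (IntermediateField.adjoin K {y}) {x'} := by
    intro z
    rw [IsScalarTower.algebraMap_apply F L L']
    have h1 : IntermediateField.adjoin K {algebraMap F L x} ≤
        ((IntermediateField.adjoin (IntermediateField.adjoin K {y}) {x'}).restrictScalars K).comap
          (IsScalarTower.toAlgHom K L L') := by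
      rw [IntermediateField.adjoin_le_iff, Set.singleton_subset_iff]
      exact IntermediateField.mem_adjoin_simple_self _ x'
    exact h1 (hFL z)
  letI : Algebra F
      (IntermediateField.adjoin (IntermediateField.adjoin K {y}) {x'}) :=
    ((algebraMap F L').codRestrict
      (IntermediateField.adjoin (IntermediateField.adjoin K {y}) {x'}) hle).toAlgebra
  haveI : IsScalarTower F
      (IntermediateField.adjoin (IntermediateField.adjoin K {y}) {x'}) L' :=
    IsScalarTower.of_algebraMap_eq fun a => rfl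
  haveI : FiniteDimensional (IntermediateField.adjoin (IntermediateField.adjoin K {y}) {x'}) L' :=
    Module.Finite.of_restrictScalars_finite F _ L'
  haveI : IsGalois (IntermediateField.adjoin (IntermediateField.adjoin K {y}) {x'}) L' :=
    IsGalois.tower_top_of_isGalois F _ L'
  -- the constants
  have hcl' : ∀ z : L', IsAlgebraic (IntermediateField.adjoin K {y}) z →
      ∃ a : IntermediateField.adjoin K {y}, algebraMap _ L' a = z := by
    intro z hz
    exact ⟨⟨z, Ug.kummer_closed (L := L) k hr0 hϖ0 hy hL' hcl (hz.restrictScalars K)⟩, rfl⟩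
  haveI : IsScalarTower k (IntermediateField.adjoin K {y}) L' :=
    IsScalarTower.of_algebraMap_eq fun a => rfl
  -- the valuation
  obtain ⟨w', hw'⟩ := exists_extension (L := L') w
    ⟨algebraMap K L ϖ, (map_ne_zero _).2 hϖ0, hϖ.lt_one.ne⟩
  have heqv : (w'.comap (algebraMap L L')).IsEquiv w :=
    Valuation.isEquiv_iff_val_le_one.2 (fun {z} => hw' z)
  have hlt : ∀ z : L, w' (algebraMap L L' z) < 1 ↔ w z < 1 := fun z => heqv.lt_one_iff_lt_one
  have heq1 : ∀ z : L, w' (algebraMap L L' z) = 1 ↔ w z = 1 := fun z =>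
    Valuation.isEquiv_iff_val_eq_one.1 heqv
  have hKL : ∀ a : K, algebraMap K L' a = algebraMap L L' (algebraMap K L a) := fun a =>
    IsScalarTower.algebraMap_apply K L L' a
  have hk' : ∀ a : k, a ≠ 0 → w' (algebraMap k L' a) = 1 := by
    intro a ha
    rw [IsScalarTower.algebraMap_apply k L L', heq1]
    exact hk a ha
  have hn : ∀ n : ℕ, n ≠ 0 → w (n : L) = 1 := by
    intro n hn
    have h1 := hk (n : k) (Nat.cast_ne_zero.2 hn)
    rwa [map_natCast] at h1
  -- Gauss
  have hGx : ∀ p : K[X], (∀ n, w' (algebraMap K L' (p.coeff n)) ≤ 1) →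
      (∃ n, w' (algebraMap K L' (p.coeff n)) = 1) → w' (Polynomial.aeval x' p) = 1 := by
    intro p h1 h2
    rw [hx'def, Polynomial.aeval_algebraMap_apply, heq1]
    refine hG p (fun n => ?_) ?_
    · rw [← hw', ← hKL]
      exact h1 n
    · obtain ⟨n, hn⟩ := h2
      refine ⟨n, ?_⟩
      rw [← heq1, ← hKL]
      exact hn
  have hG' : ∀ p : (IntermediateField.adjoin K {y})[X],
      (∀ n, w' (algebraMap (IntermediateField.adjoin K {y}) L' (p.coeff n)) ≤ 1) →
      (∃ n, w' (algebraMap (IntermediateField.adjoin K {y}) L' (p.coeff n)) = 1) →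
      w' (Polynomial.aeval x' p) = 1 :=
    fun p h1 h2 => Ug.gauss_alg (P := K) (fun a => Algebra.IsAlgebraic.isAlgebraic a) hGx p h1 h2
  -- an automorphism over `K'(x)`
  have hgy : ∀ g : L' ≃ₐ[IntermediateField.adjoin (IntermediateField.adjoin K {y}) {x'}] L',
      g y = y := by
    intro g
    have h1 := g.commutes (algebraMap (IntermediateField.adjoin K {y}) _
      ⟨y, IntermediateField.mem_adjoin_simple_self K y⟩)
    exact h1
  have hone : ∀ g : L' ≃ₐ[IntermediateField.adjoin (IntermediateField.adjoin K {y}) {x'}] L',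
      (g.restrictScalars F).restrictNormal L = 1 → g = 1 := by
    intro g h1
    have hgL : ∀ z : L, g (algebraMap L L' z) = algebraMap L L' z := by
      intro z
      have h2 := AlgEquiv.restrictNormal_commutes
        (g.restrictScalars F) L z
      rw [h1] at h2
      exact h2.symm
    have h4 : ∀ z ∈ IntermediateField.adjoin L {y}, g z = z := by
      intro z hz
      induction hz using IntermediateField.adjoin_induction with
      | mem z hz =>
        rw [Set.mem_singleton_iff] at hz
        rw [hz]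
        exact hgy g
      | algebraMap z => exact hgL z
      | add a b _ _ ha hb => rw [map_add, ha, hb]
      | inv a _ ha => rw [map_inv₀, ha]
      | mul a b _ _ ha hb => rw [map_mul, ha, hb]
    ext z
    rw [AlgEquiv.one_apply]
    exact h4 z (hL' z)
  have hres : ∀ (g : L' ≃ₐ[IntermediateField.adjoin (IntermediateField.adjoin K {y}) {x'}] L')
      (z : L), algebraMap L L'
        ((g.restrictScalars F).restrictNormal L z) =
        g (algebraMap L L' z) := fun g z =>
    AlgEquiv.restrictNormal_commutes (g.restrictScalars F) L z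
  -- the inertia
  have hun' : ∀ g : L' ≃ₐ[IntermediateField.adjoin (IntermediateField.adjoin K {y}) {x'}] L',
      (∀ z, w' z ≤ 1 → w' (g z - z) < 1) → g = 1 := by
    intro g hg
    refine hone g (Pur.eq_one_of_graded (w := w) hn fun z hz => ?_)
    obtain ⟨m, hm0, hmle, a, ha0, ha⟩ := Ug.exists_pow_val (K := F) w hz
    obtain ⟨j, hj⟩ := gauss_zpow hG hϖ (hFL a) ((map_ne_zero _).2 ha0)
    obtain ⟨s, hs⟩ := hr m hm0 hmle
    have hy1 : w' y ≠ 0 := (Valuation.ne_zero_iff w').2 hy0
    have hzL : algebraMap L L' z ≠ 0 := (map_ne_zero _).2 hz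
    -- the value of `z`
    have e1 : w' (algebraMap L L' z) ^ m = (w' y ^ (s * j)) ^ m := by
      have e2 : w (z ^ m * (algebraMap K L ϖ ^ j)⁻¹) = 1 := by
        rw [map_mul, map_pow, map_inv₀, map_zpow₀, ha]
        rw [hj, mul_inv_cancel₀]
        exact zpow_ne_zero j ((Valuation.ne_zero_iff w).2 ((map_ne_zero _).2 hϖ0))
      have e3 := (heq1 _).2 e2
      rw [map_mul, map_pow, map_inv₀, map_zpow₀, ← hKL, ← hy, map_mul, map_pow, map_inv₀,
        map_zpow₀, map_pow] at e3
      have e4 : (w' y ^ r) ^ j ≠ 0 := zpow_ne_zero j (pow_ne_zero r hy1)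
      rw [mul_inv_eq_one₀ e4] at e3
      rw [e3, hs, pow_mul, ← zpow_natCast (w' y), ← zpow_natCast (w' y ^ (m : ℤ)),
        ← zpow_natCast (w' y ^ (s * j)), ← zpow_mul, ← zpow_mul, ← zpow_mul]
      congr 1
      ring
    have e5 : w' (algebraMap L L' z) = w' y ^ ((s : ℤ) * j) :=
      (pow_left_inj₀ zero_le zero_le hm0.ne').1 e1
    have e6 : w' (algebraMap L L' z / y ^ ((s : ℤ) * j)) = 1 := by
      rw [map_div₀, map_zpow₀, e5, div_self (zpow_ne_zero _ hy1)]
    have e7 := hg _ e6.le
    rw [map_div₀, map_zpow₀, hgy, ← sub_div, map_div₀, map_zpow₀,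
      div_lt_one₀ (zero_lt_iff.2 (zpow_ne_zero _ hy1)), ← e5, ← hres, ← map_sub] at e7
    have e8 : w' (algebraMap L L' (((g.restrictScalars F).restrictNormal
        L z - z) / z)) < 1 := by
      rw [map_div₀, map_div₀, div_lt_one₀ (zero_lt_iff.2 ((Valuation.ne_zero_iff w').2 hzL))]
      exact e7
    rw [hlt, map_div₀, div_lt_one₀ (zero_lt_iff.2 ((Valuation.ne_zero_iff w).2 hz))] at e8
    exact e8
  -- the branch points
  have hS' : ∀ u : Valuation L' ℤᵐ⁰,
      (∀ a : IntermediateField.adjoin K {y}, a ≠ 0 → u (algebraMap _ L' a) = 1) →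
      (∀ s ∈ S.image (algebraMap K (IntermediateField.adjoin K {y})),
        1 ≤ u (x' - algebraMap (IntermediateField.adjoin K {y}) L' s)) →
      ∀ g : L' ≃ₐ[IntermediateField.adjoin (IntermediateField.adjoin K {y}) {x'}] L',
        (∀ z, u z ≤ 1 → u (g z - z) < 1) → g = 1 := by
    intro u hu1 hu2 g hg
    refine hone g (hS (u.comap (algebraMap L L')) (fun a ha => ?_) (fun s hs => ?_) _ fun z hz => ?_)
    · rw [Valuation.comap_apply, ← hKL]
      exact hu1 (algebraMap K (IntermediateField.adjoin K {y}) a) ((map_ne_zero _).2 ha)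
    · have h1 := hu2 _ (Finset.mem_image_of_mem _ hs)
      rw [Valuation.comap_apply, map_sub, ← hKL]
      exact h1
    · rw [Valuation.comap_apply, map_sub, hres]
      exact hg _ hz
  have key := gauss_unique (k := k) (K := IntermediateField.adjoin K {y}) (L := L') hx' hcl' hk' hG'
    hun' (S.image (algebraMap K (IntermediateField.adjoin K {y}))) (by
      intro s hs
      obtain ⟨a, ha, rfl⟩ := Finset.mem_image.1 hs
      rw [← IsScalarTower.algebraMap_apply K _ L', hKL, hw']
      exact hS1 a ha) (by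
      intro s hs s' hs' hne
      obtain ⟨a, ha, rfl⟩ := Finset.mem_image.1 hs
      obtain ⟨a', ha', rfl⟩ := Finset.mem_image.1 hs'
      rw [← map_sub, ← IsScalarTower.algebraMap_apply K _ L', hKL, heq1]
      exact hS2 a ha a' ha' fun h => hne (by rw [h])) hS'
  -- the lift of `g`
  have hlift : ∀ g : L ≃ₐ[F] L,
      ∃ g₂ : L' ≃ₐ[IntermediateField.adjoin (IntermediateField.adjoin K {y}) {x'}] L',
        ∀ z : L, g₂ (algebraMap L L' z) = algebraMap L L' (g z) := by
    intro g
    obtain ⟨g₁, hg₁⟩ := AlgEquiv.restrictNormalHom_surjective (F := F)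
      (K₁ := L) L' g
    have hg₁' : ∀ z : L, g₁ (algebraMap L L' z) = algebraMap L L' (g z) := by
      intro z
      rw [← hg₁]
      exact (AlgEquiv.restrictNormal_commutes g₁ L z).symm
    obtain ⟨h, hh⟩ := Ug.kummer_lift (L := L) k hr0 hϖ0 hy hL' hcl (g₁.restrictScalars K)
    have hhy : g₁ (h y) = y := hh
    set g₂ : L' ≃+* L' := (h : L' ≃+* L').trans (g₁ : L' ≃+* L') with hg₂
    have hg₂' : ∀ z, g₂ z = g₁ (h z) := fun z => rfl
    have hg₂L : ∀ z : L, g₂ (algebraMap L L' z) = algebraMap L L' (g z) := by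
      intro z
      rw [hg₂', h.commutes, hg₁']
    have hg₂K : ∀ z ∈ IntermediateField.adjoin K {y}, g₂ z = z := by
      intro z hz
      induction hz using IntermediateField.adjoin_induction with
      | mem z hz =>
        rw [Set.mem_singleton_iff] at hz
        rw [hz, hg₂', hhy]
      | algebraMap a =>
        rw [hKL, hg₂L]
        have h1 := g.commutes (algebraMap K F a)
        rw [← IsScalarTower.algebraMap_apply K F L] at h1
        rw [h1]
      | add a b _ _ ha hb => rw [map_add, ha, hb]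
      | inv a _ ha => rw [map_inv₀, ha]
      | mul a b _ _ ha hb => rw [map_mul, ha, hb]
    have hg₂F : ∀ z ∈ IntermediateField.adjoin (IntermediateField.adjoin K {y}) {x'}, g₂ z = z := by
      intro z hz
      induction hz using IntermediateField.adjoin_induction with
      | mem z hz =>
        rw [Set.mem_singleton_iff] at hz
        rw [hz, hx'def, hg₂L]
        rw [g.commutes]
      | algebraMap a => exact hg₂K a a.2
      | add a b _ _ ha hb => rw [map_add, ha, hb]
      | inv a _ ha => rw [map_inv₀, ha]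
      | mul a b _ _ ha hb => rw [map_mul, ha, hb]
    exact ⟨{ g₂ with commutes' := fun a => hg₂F a a.2 }, hg₂L⟩
  have hDc : Br.InertiaAux.Dc w g := by
    intro z hz
    obtain ⟨g₂, hg₂⟩ := hlift g
    rw [← hw', ← hg₂, key]
    exact (hw' z).2 hz
  exact Br.InertiaAux.Dc_eq hDc z

end up

section up'

variable {k K F L : Type*} [Field k] [CharZero k] [IsAlgClosed k] [Field K] [Field F] [Field L]
  [Algebra k K] [Algebra k L] [Algebra K L] [IsScalarTower k K L] [Algebra K F]
  [Algebra F L] [IsScalarTower K F L] {x : F} [FiniteDimensional F L] [IsGalois F L]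

theorem gauss_up' (hx : Transcendental K (algebraMap F L x))
    (hF : ∀ z : F, z ∈ IntermediateField.adjoin K {x})
    (hcl : ∀ z : L, IsAlgebraic K z → ∃ a : K, algebraMap K L a = z)
    {w : Valuation L ℤᵐ⁰} (hk : ∀ a : k, a ≠ 0 → w (algebraMap k L a) = 1)
    (hG : ∀ p : Polynomial K, (∀ i, w (algebraMap K L (p.coeff i)) ≤ 1) →
      (∃ i, w (algebraMap K L (p.coeff i)) = 1) →
      w (Polynomial.aeval (algebraMap F L x) p) = 1)
    (S : Finset K) (hS1 : ∀ s ∈ S, w (algebraMap K L s) ≤ 1)
    (hS2 : ∀ s ∈ S, ∀ s' ∈ S, s ≠ s' → w (algebraMap K L (s - s')) = 1)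
    (hS : ∀ u : Valuation L ℤᵐ⁰, (∀ a : K, a ≠ 0 → u (algebraMap K L a) = 1) →
      (∀ s ∈ S, 1 ≤ u (algebraMap F L x - algebraMap K L s)) →
      ∀ g : L ≃ₐ[F] L, (∀ z, u z ≤ 1 → u (g z - z) < 1) → g = 1)
    {ϖ : K} (hϖ : IsUnif (w.comap (algebraMap K L)) ϖ) (g : L ≃ₐ[F] L) (z : L) :
    w (g z) = w z := by
  haveI : CharZero K := charZero_of_injective_algebraMap (algebraMap k K).injective
  letI : Algebra k F := ((algebraMap K F).comp (algebraMap k K)).toAlgebra
  obtain ⟨L', y, hgal, hfd, hy, hL'⟩ := Ug.exists_field k (P := K) (K := F) (L := L)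
    (Nat.factorial_pos (Module.finrank F L)) (algebraMap K F ϖ) ((map_ne_zero _).2 hϖ.ne_zero)
  haveI := hgal
  haveI := hfd
  haveI : IsScalarTower k K L' := IsScalarTower.of_algebraMap_eq fun a => by
    apply Subtype.ext
    show algebraMap k (AlgebraicClosure L) a =
      algebraMap K (AlgebraicClosure L) (algebraMap k K a)
    rw [IsScalarTower.algebraMap_apply k L (AlgebraicClosure L),
      IsScalarTower.algebraMap_apply K L (AlgebraicClosure L),
      ← IsScalarTower.algebraMap_apply k K L]
  refine gauss_up (F := F) (L' := L') hx hF hcl hk hG S hS1 hS2 hS hϖ (Nat.factorial_pos _)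
    (fun m hm hmle => Nat.dvd_factorial hm hmle) (y := y) ?_ hL' g z
  rw [hy]
  apply Subtype.ext
  show algebraMap F (AlgebraicClosure L) (algebraMap K F ϖ) = algebraMap K (AlgebraicClosure L) ϖ
  rw [IsScalarTower.algebraMap_apply F L (AlgebraicClosure L), ← IsScalarTower.algebraMap_apply K F L,
    ← IsScalarTower.algebraMap_apply K L (AlgebraicClosure L)]

end up'

/-- the Gauss valuation has only one extension, if the branch points do not collide -/
theorem gauss_unique' {k K L : Type*} [Field k] [CharZero k] [IsAlgClosed k] [Field K] [Field L]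
    [Algebra k K] [Algebra k L] [Algebra K L] [IsScalarTower k K L] {x : L}
    (hx : Transcendental K x) [FiniteDimensional (IntermediateField.adjoin K {x}) L]
    [IsGalois (IntermediateField.adjoin K {x}) L]
    (hcl : ∀ z : L, IsAlgebraic K z → ∃ a : K, algebraMap K L a = z)
    {w : Valuation L ℤᵐ⁰} (hk : ∀ a : k, a ≠ 0 → w (algebraMap k L a) = 1)
    (hG : ∀ p : Polynomial K, (∀ i, w (algebraMap K L (p.coeff i)) ≤ 1) →
      (∃ i, w (algebraMap K L (p.coeff i)) = 1) → w (Polynomial.aeval x p) = 1)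
    (S : Finset K) (hS1 : ∀ s ∈ S, w (algebraMap K L s) ≤ 1)
    (hS2 : ∀ s ∈ S, ∀ s' ∈ S, s ≠ s' → w (algebraMap K L (s - s')) = 1)
    (hS : ∀ u : Valuation L ℤᵐ⁰, (∀ a : K, a ≠ 0 → u (algebraMap K L a) = 1) →
      (∀ s ∈ S, 1 ≤ u (x - algebraMap K L s)) →
      ∀ g : L ≃ₐ[IntermediateField.adjoin K {x}] L, (∀ z, u z ≤ 1 → u (g z - z) < 1) → g = 1)
    (g : L ≃ₐ[IntermediateField.adjoin K {x}] L) (z : L) : w (g z) = w z := by
  classical
  by_cases hnt : ∃ a : K, a ≠ 0 ∧ w (algebraMap K L a) ≠ 1
  · obtain ⟨ϖ, hϖ⟩ := exists_unif (w.comap (algebraMap K L)) hnt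
    have hgen : algebraMap (IntermediateField.adjoin K {x}) L
        (IntermediateField.AdjoinSimple.gen K x) = x :=
      IntermediateField.AdjoinSimple.algebraMap_gen K x
    have hK : ∀ z : IntermediateField.adjoin K {x},
        z ∈ IntermediateField.adjoin K {IntermediateField.AdjoinSimple.gen K x} := by
      intro z
      obtain ⟨r, s, hrs⟩ := (IntermediateField.mem_adjoin_simple_iff K (z : L)).1 z.2
      refine (IntermediateField.mem_adjoin_simple_iff K z).2 ⟨r, s, ?_⟩
      apply (algebraMap (IntermediateField.adjoin K {x}) L).injective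
      rw [map_div₀, ← Polynomial.aeval_algebraMap_apply, ← Polynomial.aeval_algebraMap_apply, hgen]
      exact hrs
    exact gauss_up' (F := IntermediateField.adjoin K {x})
      (x := IntermediateField.AdjoinSimple.gen K x) (by rw [hgen]; exact hx) hK hcl hk
      (by rw [hgen]; exact hG) S hS1 hS2 (by rw [hgen]; exact hS) hϖ g z
  · -- the trivial case
    push Not at hnt
    have h1 : ∀ p : K[X], p ≠ 0 → w (Polynomial.aeval x p) = 1 := by
      intro p hp
      refine hG p (fun i => ?_) ?_
      · rcases eq_or_ne (p.coeff i) 0 with h | h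
        · rw [h, map_zero, map_zero]; exact zero_le
        · rw [hnt _ h]
      · exact ⟨p.natDegree, hnt _ (Polynomial.leadingCoeff_ne_zero.2 hp)⟩
    have h2 : ∀ c : IntermediateField.adjoin K {x}, w (c : L) ≤ 1 := by
      intro c
      obtain ⟨r, s, hrs⟩ := (IntermediateField.mem_adjoin_simple_iff K (c : L)).1 c.2
      rw [hrs, map_div₀]
      rcases eq_or_ne s 0 with rfl | hs
      · rw [map_zero, map_zero, div_zero]; exact zero_le
      rcases eq_or_ne r 0 with rfl | hr
      · rw [map_zero, map_zero, zero_div]; exact zero_le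
      rw [h1 r hr, h1 s hs, div_one]
    have h3 : ∀ y : L, w y ≤ 1 := fun y =>
      Pur.le_one_of_isIntegral (A := IntermediateField.adjoin K {x}) h2
        (Algebra.IsIntegral.isIntegral y)
    have h4 : ∀ y : L, y ≠ 0 → w y = 1 := by
      intro y hy
      refine le_antisymm (h3 y) ?_
      have h5 := h3 y⁻¹
      have h6 : 0 < w y := zero_lt_iff.2 ((Valuation.ne_zero_iff w).2 hy)
      rwa [map_inv₀, inv_le_one₀ h6] at h5
    rcases eq_or_ne z 0 with rfl | hz
    · rw [map_zero]
    · rw [h4 z hz, h4 (g z) ((map_ne_zero g).2 hz)]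

end Pf72953.Pl
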