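import Mathlib
import Pool.Agent.Lib.Pf72953n.Eta
import Pool.Agent.Lib.Pf72953n.BP

/-!
Geometrically Galois covers: the coordinate in which the branch points are distinct and finite at `w`.
-/

set_option autoImplicit false
set_option linter.style.haveILetI false

open scoped WithZero Polynomial
open Pf72953

namespace Pf72953.Pl

section val

variable {N : Type*} [Field N] {w : Valuation N ℤᵐ⁰} {x : N} {ρ : ℤᵐ⁰} {S : Finset N}

/-- all cross ratios of the points of `S` are units -/
structure Equi (w : Valuation N ℤᵐ⁰) (x : N) (ρ : ℤᵐ⁰) (S : Finset N) : Prop where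
  ne : ρ ≠ 0
  xne : ∀ a ∈ S, w (x - a) ≠ 0
  eq : ∀ a ∈ S, ∀ b ∈ S, a ≠ b → w (a - b) * ρ = w (x - a) * w (x - b)

theorem equi_of_hh (hne : ∀ a ∈ S, ∃ b ∈ S, b ≠ a) (hS : S.Nonempty)
    (hh1 : ∀ a ∈ S, ∀ b ∈ S, a ≠ b → ρ * w (hh x a b) = 1) : Equi w x ρ S := by
  have hρ : ρ ≠ 0 := by
    rintro rfl
    obtain ⟨a, ha⟩ := hS
    obtain ⟨b, hb, hab⟩ := hne a ha
    have h1 := hh1 b hb a ha hab
    rw [zero_mul] at h1
    exact zero_ne_one h1
  have hx : ∀ a ∈ S, w (x - a) ≠ 0 := by
    intro a ha h0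
    obtain ⟨b, hb, hab⟩ := hne a ha
    have h1 := hh1 a ha b hb hab.symm
    rw [Valuation.zero_iff] at h0
    unfold hh at h1
    rw [h0, zero_mul, div_zero, map_zero, mul_zero] at h1
    exact zero_ne_one h1
  refine ⟨hρ, hx, fun a ha b hb hab => ?_⟩
  have h1 := hh1 a ha b hb hab
  unfold hh at h1
  rw [map_div₀, map_mul] at h1
  have h2 := hx a ha
  have h3 := hx b hb
  field_simp at h1
  rw [mul_comm]
  exact h1

theorem Equi.xc (h : Equi w x ρ S) {i j l e : N} (hi : i ∈ S) (hj : j ∈ S) (hl : l ∈ S)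
    (he : e ∈ S) (hil : i ≠ l) (hjl : j ≠ l) (hej : e ≠ j) (hei : e ≠ i) :
    w (xc e i j l) = 1 := by
  have h1 := h.eq e he i hi hei
  have h2 := h.eq l hl j hj hjl.symm
  have h3 := h.eq e he j hj hej
  have h4 := h.eq l hl i hi hil.symm
  have n1 := h.xne i hi
  have n2 := h.xne j hj
  have n3 := h.xne l hl
  have n4 := h.xne e he
  have n5 := h.ne
  unfold Pl.xc
  rw [map_div₀, map_mul, map_mul]
  have e1 : w (e - i) = w (x - e) * w (x - i) / ρ := by rw [← h1, mul_div_cancel_right₀ _ n5]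
  have e2 : w (l - j) = w (x - l) * w (x - j) / ρ := by rw [← h2, mul_div_cancel_right₀ _ n5]
  have e3 : w (e - j) = w (x - e) * w (x - j) / ρ := by rw [← h3, mul_div_cancel_right₀ _ n5]
  have e4 : w (l - i) = w (x - l) * w (x - i) / ρ := by rw [← h4, mul_div_cancel_right₀ _ n5]
  rw [e1, e2, e3, e4]
  field_simp

/-- the denominator at `e` -/
theorem Equi.den (h : Equi w x ρ S) {i j l c e : N} (hi : i ∈ S) (hj : j ∈ S) (hl : l ∈ S)
    (he : e ∈ S) (hij : i ≠ j) (hil : i ≠ l) (hjl : j ≠ l)
    (hc : e ≠ j → w (Pl.xc e i j l - c) = 1) :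
    w (((l - j) - c * (l - i)) * e + (-i * (l - j) + c * j * (l - i))) * ρ ^ 2 =
      w (x - e) * w (x - i) * w (x - j) * w (x - l) := by
  have n5 := h.ne
  rcases eq_or_ne e j with rfl | hej
  · have h1 := h.eq e he i hi hij.symm
    have h2 := h.eq l hl e hj hjl.symm
    have e1 : ((l - e) - c * (l - i)) * e + (-i * (l - e) + c * e * (l - i)) =
        (e - i) * (l - e) := by ring
    rw [e1, map_mul, pow_two]
    calc w (e - i) * w (l - e) * (ρ * ρ) = (w (e - i) * ρ) * (w (l - e) * ρ) :=
          mul_mul_mul_comm _ _ _ _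
      _ = _ := by
        rw [h1, h2]
        simp only [mul_comm, mul_left_comm]
  · have h3 := h.eq e he j hj hej
    have h4 := h.eq l hl i hi hil.symm
    have hej' : e - j ≠ 0 := sub_ne_zero.2 hej
    have hli' : l - i ≠ 0 := sub_ne_zero.2 hil.symm
    have e1 : ((l - j) - c * (l - i)) * e + (-i * (l - j) + c * j * (l - i)) =
        (Pl.xc e i j l - c) * ((e - j) * (l - i)) := by
      unfold Pl.xc
      field_simp
      ring
    rw [e1, map_mul, hc hej, one_mul, map_mul, pow_two]
    calc w (e - j) * w (l - i) * (ρ * ρ) = (w (e - j) * ρ) * (w (l - i) * ρ) :=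
          mul_mul_mul_comm _ _ _ _
      _ = _ := by
        rw [h3, h4]
        simp only [mul_comm, mul_left_comm]

/-- the images of the points of `S` are distinct and finite -/
theorem Equi.mob (h : Equi w x ρ S) {i j l c a : N} (hi : i ∈ S) (hj : j ∈ S) (hl : l ∈ S)
    (ha : a ∈ S) (hij : i ≠ j) (hil : i ≠ l) (hjl : j ≠ l)
    (hc : ∀ e ∈ S, e ≠ j → w (Pl.xc e i j l - c) = 1) :
    w (((l - i) * a + (-j * (l - i))) /
        (((l - j) - c * (l - i)) * a + (-i * (l - j) + c * j * (l - i)))) ≤ 1 ∧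
      ∀ b ∈ S, a ≠ b → w (((l - i) * a + (-j * (l - i))) /
          (((l - j) - c * (l - i)) * a + (-i * (l - j) + c * j * (l - i))) -
        ((l - i) * b + (-j * (l - i))) /
          (((l - j) - c * (l - i)) * b + (-i * (l - j) + c * j * (l - i)))) = 1 := by
  have n5 := h.ne
  have ni := h.xne i hi
  have nj := h.xne j hj
  have nl := h.xne l hl
  have key : ∀ e ∈ S, ((l - j) - c * (l - i)) * e + (-i * (l - j) + c * j * (l - i)) ≠ 0 ∧
      w (((l - j) - c * (l - i)) * e + (-i * (l - j) + c * j * (l - i))) =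
        w (x - e) * w (x - i) * w (x - j) * w (x - l) / ρ ^ 2 := by
    intro e he
    have h1 := h.den hi hj hl he hij hil hjl (hc e he)
    have h2 : w (((l - j) - c * (l - i)) * e + (-i * (l - j) + c * j * (l - i))) =
        w (x - e) * w (x - i) * w (x - j) * w (x - l) / ρ ^ 2 := by
      rw [← h1, mul_div_cancel_right₀ _ (pow_ne_zero _ n5)]
    refine ⟨fun h0 => ?_, h2⟩
    rw [h0, map_zero] at h2
    have ne := h.xne e he
    exact (div_ne_zero (mul_ne_zero (mul_ne_zero (mul_ne_zero ne ni) nj) nl)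
      (pow_ne_zero 2 n5)) h2.symm
  have heq : ∀ u ∈ S, ∀ v ∈ S, u ≠ v → w (u - v) = w (x - u) * w (x - v) / ρ := by
    intro u hu v hv huv
    rw [← h.eq u hu v hv huv, mul_div_cancel_right₀ _ n5]
  have na := h.xne a ha
  obtain ⟨ka, kav⟩ := key a ha
  refine ⟨?_, fun b hb hab => ?_⟩
  · rcases eq_or_ne a j with rfl | haj
    · have e1 : (l - i) * a + (-a * (l - i)) = 0 := by ring
      rw [e1, zero_div, map_zero]
      exact zero_le
    · have e1 : (l - i) * a + (-j * (l - i)) = (a - j) * (l - i) := by ring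
      rw [map_div₀, kav, e1, map_mul, heq a ha j hj haj, heq l hl i hi hil.symm]
      apply le_of_eq
      field_simp
  · have nb := h.xne b hb
    obtain ⟨kb, kbv⟩ := key b hb
    have e1 : ((l - i) * a + (-j * (l - i))) /
          (((l - j) - c * (l - i)) * a + (-i * (l - j) + c * j * (l - i))) -
        ((l - i) * b + (-j * (l - i))) /
          (((l - j) - c * (l - i)) * b + (-i * (l - j) + c * j * (l - i))) =
        ((l - i) * (l - j) * (j - i) * (a - b)) /
          ((((l - j) - c * (l - i)) * a + (-i * (l - j) + c * j * (l - i))) *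
          (((l - j) - c * (l - i)) * b + (-i * (l - j) + c * j * (l - i)))) := by
      rw [div_sub_div _ _ ka kb]
      congr 1
      ring
    rw [e1, map_div₀, map_mul w (_ * _ * _), map_mul w (_ * _), map_mul w (l - i), map_mul w (_ + _),
      kav, kbv, heq l hl i hi hil.symm, heq l hl j hj hjl.symm, heq j hj i hi hij.symm,
      heq a ha b hb hab]
    field_simp

/-- a constant whose residue avoids the residues of a finite set -/
theorem exists_avoid {k : Type*} [Field k] [CharZero k] [Algebra k N]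
    (hk : ∀ a : k, a ≠ 0 → w (algebraMap k N a) = 1) (F : Finset N) (hF : ∀ z ∈ F, w z ≤ 1) :
    ∃ c : k, ∀ z ∈ F, w (z - algebraMap k N c) = 1 := by
  classical
  have hsub : ∀ z : N, {c : k | w (z - algebraMap k N c) < 1}.Subsingleton := by
    intro z c hc c' hc'
    by_contra hne
    have h1 : algebraMap k N (c - c') = (z - algebraMap k N c') - (z - algebraMap k N c) := by
      rw [map_sub]
      ring
    have h2 := hk (c - c') (sub_ne_zero.2 hne)
    rw [h1] at h2
    exact absurd h2 (lt_of_le_of_lt (w.map_sub _ _) (max_lt hc' hc)).ne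
  have hfin : (⋃ z ∈ F, {c : k | w (z - algebraMap k N c) < 1}).Finite :=
    Set.Finite.biUnion F.finite_toSet fun z _ => (hsub z).finite
  obtain ⟨c, hc⟩ := hfin.infinite_compl.nonempty
  refine ⟨c, fun z hz => le_antisymm ?_ ?_⟩
  · refine (w.map_sub _ _).trans (max_le (hF z hz) ?_)
    rcases eq_or_ne c 0 with rfl | h0
    · rw [map_zero, map_zero]
      exact zero_le
    · exact (hk c h0).le
  · by_contra hlt
    rw [not_le] at hlt
    exact hc (Set.mem_biUnion hz hlt)

end val

end Pf72953.Pl
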