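import Mathlib
import Pool.Agent.Lib.Pf72953n.GeoV
import Pool.Agent.Lib.Pf72953n.GauV
import Pool.Agent.Lib.Pf72953n.Tw2
import Pool.Agent.Lib.Pf72953n.TwF

/-!
Geometrically Galois covers: the place over the Gauss valuation is unique.
-/

set_option autoImplicit false
set_option linter.style.haveILetI false

open scoped WithZero Polynomial
open Pf72953 Pf72953.Mov Pf72953.Tow

namespace Pf72953.Pl

variable {k Ω : Type*} [Field k] [Field Ω] [Algebra k Ω] [IsAlgClosed Ω]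

/-- automorphisms of `M/A(x)` extend -/
theorem exists_ext_adjoin {A M : IntermediateField k Ω} [Fact (A ≤ M)] {x : M} (hM : Fin' M)
    (g : M ≃ₐ[IntermediateField.adjoin A ({x} : Set M)] M) :
    ∃ τ : Ω ≃ₐ[k] Ω, Fixes τ (A ⊔ IntermediateField.adjoin k {(x : Ω)}) ∧ ∀ z : M, τ z = g z := by
  have hAM : A ≤ M := Fact.out
  have hle : A ⊔ IntermediateField.adjoin k {(x : Ω)} ≤ M := sup_le hAM (adjoin_one_le x.2)
  have hfix : ∀ z : M, (z : Ω) ∈ A ⊔ IntermediateField.adjoin k {(x : Ω)} → g z = z := fun z hz =>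
    g.commutes (⟨z, mem_adjoin_iff.2 hz⟩ : IntermediateField.adjoin A ({x} : Set M))
  obtain ⟨τ, hτ⟩ := exists_ext hM (AlgEquiv.ofRingEquiv (f := g.toRingEquiv) fun c =>
    hfix (algebraMap k M c) (IntermediateField.algebraMap_mem _ c))
  refine ⟨τ, fun z hz => ?_, hτ⟩
  have h1 := hτ ⟨z, hle hz⟩
  have h2 := congrArg (Subtype.val : M → Ω) (hfix ⟨z, hle hz⟩ hz)
  exact h1.trans h2

/-- automorphisms over `A(x)` restrict to `M` -/
theorem exists_restrict_adjoin {A M : IntermediateField k Ω} [Fact (A ≤ M)] {x : M}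
    (hG : Gal (A ⊔ IntermediateField.adjoin k {(x : Ω)}) M) {τ : Ω ≃ₐ[k] Ω}
    (hτ : Fixes τ (A ⊔ IntermediateField.adjoin k {(x : Ω)})) :
    ∃ g : M ≃ₐ[IntermediateField.adjoin A ({x} : Set M)] M, ∀ z : M, (g z : Ω) = τ z := by
  haveI : Fact (A ⊔ IntermediateField.adjoin k {(x : Ω)} ≤ M) := ⟨hG.le⟩
  obtain ⟨s, hs⟩ := Tow.exists_restrict hG hτ
  refine ⟨AlgEquiv.ofRingEquiv (f := s.toRingEquiv) fun c => ?_, hs⟩
  apply Subtype.ext
  exact (hs c).trans (hτ _ (mem_adjoin_iff.1 c.2))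

variable [CharZero k] [IsAlgClosed k]

omit [IsAlgClosed Ω] in
/-- the inertia group of an unramified valuation -/
theorem inertia_adjoin {A M : IntermediateField k Ω} [Fact (A ≤ M)] {x : M} {y : Ω}
    (hy : y = (x : Ω)) [Fact (A ⊔ IntermediateField.adjoin k {y} ≤ M)] {u : Valuation M ℤᵐ⁰}
    [FiniteDimensional (IntermediateField.adjoin A ({x} : Set M)) M]
    (hu : ∀ a : A, a ≠ 0 → u (algebraMap A M a) = 1)
    (h : Br.Unr (A ⊔ IntermediateField.adjoin k {y} : IntermediateField k Ω) u)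
    (s : M ≃ₐ[IntermediateField.adjoin A ({x} : Set M)] M)
    (hs : ∀ z, u z ≤ 1 → u (s z - z) < 1) : s = 1 := by
  subst hy
  have hU' : Br.Unr (IntermediateField.adjoin A ({x} : Set M)) u :=
    unr_adjoin (A' := A ⊔ IntermediateField.adjoin k {(x : Ω)}) le_rfl h
  haveI : IsScalarTower k (IntermediateField.adjoin A ({x} : Set M)) M :=
    IsScalarTower.of_algebraMap_eq fun _ => rfl
  refine inertia_of_unr (k := k) (fun c hc => ?_) hU' s hs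
  exact hu (algebraMap k A c) ((map_ne_zero _).2 hc)

/-- there is only one place of `N` over the Gauss valuation -/
theorem unique_place {P Q PP N : IntermediateField k Ω} {x : Ω} {S : Finset Ω}
    (hbr : BP P Q x S) (hPPf : Fin' PP) (hNf : Fin' N) (hPPP : P ≤ PP) (hN : N = PP ⊔ Q)
    [f : Fact (PP ≤ N)] (hS : ∀ e ∈ S, e ∈ P) (hne : (trip S).Nonempty)
    (hx : Transcendental PP x) (hxN : x ∈ N) (hG : Gal (PP ⊔ IntermediateField.adjoin k {x}) N)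
    (hcl : ∀ z ∈ N, IsAlgebraic PP z → z ∈ PP) (w : Valuation N ℤᵐ⁰)
    (hk : ∀ a : k, a ≠ 0 → w (algebraMap k _ a) = 1) [DecidableEq N]
    {SN : Finset N} (hSN : ∀ z, z ∈ SN ↔ (z : Ω) ∈ S) {D : Derivation PP N N} {ρ : ℤᵐ⁰}
    (hR : RelNorm PP w ⟨x, hxN⟩ D ρ)
    (hh1 : ∀ a ∈ SN, ∀ b ∈ SN, a ≠ b → ρ * w (hh ⟨x, hxN⟩ a b) = 1)
    (g : Ω ≃ₐ[k] Ω) (hg : Fixes g (PP ⊔ IntermediateField.adjoin k {x})) (z : N)
    (h : g z ∈ N) : w ⟨g z, h⟩ = w z := by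
  classical
  have hPPN : PP ≤ N := f.out
  have hPN : P ≤ N := hPPP.trans hPPN
  have hnat : ∀ n : ℕ, n ≠ 0 → w (n : N) = 1 := fun n hn => by
    have h1 := hk (n : k) (Nat.cast_ne_zero.2 hn)
    rwa [map_natCast] at h1
  have hSN' : ∀ e ∈ SN, ∃ e' : PP, algebraMap PP N e' = e := fun e he =>
    ⟨⟨e, hPPP (hS _ ((hSN e).1 he))⟩, rfl⟩
  obtain ⟨p₀, hp₀⟩ := hne
  obtain ⟨⟨hi, hj, hl⟩, hij, hil, hjl⟩ := mem_trip.1 hp₀
  obtain ⟨i, hi'⟩ : ∃ i, i = p₀.1 := ⟨_, rfl⟩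
  obtain ⟨j, hj'⟩ : ∃ j, j = p₀.2.1 := ⟨_, rfl⟩
  obtain ⟨l, hl'⟩ : ∃ l, l = p₀.2.2 := ⟨_, rfl⟩
  rw [← hi'] at hi hij hil
  rw [← hj'] at hj hij hjl
  rw [← hl'] at hl hil hjl
  have hSN2 : ∀ e ∈ S, e ∈ N := fun e he => hPN (hS e he)
  obtain ⟨iN, hiN⟩ : ∃ iN : N, iN = ⟨i, hSN2 i hi⟩ := ⟨_, rfl⟩
  obtain ⟨jN, hjN⟩ : ∃ jN : N, jN = ⟨j, hSN2 j hj⟩ := ⟨_, rfl⟩
  obtain ⟨lN, hlN⟩ : ∃ lN : N, lN = ⟨l, hSN2 l hl⟩ := ⟨_, rfl⟩
  have hi2 : iN ∈ SN := (hSN _).2 (hiN ▸ hi)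
  have hj2 : jN ∈ SN := (hSN _).2 (hjN ▸ hj)
  have hl2 : lN ∈ SN := (hSN _).2 (hlN ▸ hl)
  have hij2 : iN ≠ jN := fun h => hij (by rw [hiN, hjN] at h; exact congrArg Subtype.val h)
  have hil2 : iN ≠ lN := fun h => hil (by rw [hiN, hlN] at h; exact congrArg Subtype.val h)
  have hjl2 : jN ≠ lN := fun h => hjl (by rw [hjN, hlN] at h; exact congrArg Subtype.val h)
  have hE : Equi w (⟨x, hxN⟩ : N) ρ SN := by
    refine equi_of_hh (fun a _ => ?_) ⟨iN, hi2⟩ hh1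
    by_cases ha : a = iN
    · exact ⟨jN, hj2, fun h => hij2 (ha ▸ h.symm)⟩
    · exact ⟨iN, hi2, fun h => ha h.symm⟩
  -- the constant `c`
  obtain ⟨c', hc'⟩ := exists_avoid hk ((SN.erase jN).image fun e => xc e iN jN lN) (by
    intro z hz
    obtain ⟨e, he, rfl⟩ := Finset.mem_image.1 hz
    obtain ⟨hej, he⟩ := Finset.mem_erase.1 he
    rcases eq_or_ne e iN with rfl | hei
    · have h1 : xc e e jN lN = 0 := by simp [xc]
      rw [h1, map_zero]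
      exact zero_le
    · exact (hE.xc hi2 hj2 hl2 he hil2 hjl2 hej hei).le)
  have hc : ∀ e ∈ SN, e ≠ jN → w (xc e iN jN lN - algebraMap k N c') = 1 := fun e he hej =>
    hc' _ (Finset.mem_image.2 ⟨e, Finset.mem_erase.2 ⟨hej, he⟩, rfl⟩)
  obtain ⟨c, hcdef⟩ : ∃ c : Ω, c = algebraMap k Ω c' := ⟨_, rfl⟩
  have hcF : ∀ F : IntermediateField k Ω, c ∈ F := fun F => hcdef ▸ F.algebraMap_mem c'
  -- the Möbius transformation
  obtain ⟨α, hα⟩ : ∃ α, α = l - i := ⟨_, rfl⟩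
  obtain ⟨β, hβ⟩ : ∃ β, β = -j * (l - i) := ⟨_, rfl⟩
  obtain ⟨γ, hγ⟩ : ∃ γ, γ = (l - j) - c * (l - i) := ⟨_, rfl⟩
  obtain ⟨δ, hδ⟩ : ∃ δ, δ = -i * (l - j) + c * j * (l - i) := ⟨_, rfl⟩
  have hαP : α ∈ P := hα ▸ sub_mem (hS _ hl) (hS _ hi)
  have hβP : β ∈ P := hβ ▸ mul_mem (neg_mem (hS _ hj)) (sub_mem (hS _ hl) (hS _ hi))
  have hγP : γ ∈ P := hγ ▸ sub_mem (sub_mem (hS _ hl) (hS _ hj)) (mul_mem (hcF _)
    (sub_mem (hS _ hl) (hS _ hi)))
  have hδP : δ ∈ P := hδ ▸ add_mem (mul_mem (neg_mem (hS _ hi)) (sub_mem (hS _ hl) (hS _ hj)))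
    (mul_mem (mul_mem (hcF _) (hS _ hj)) (sub_mem (hS _ hl) (hS _ hi)))
  have hli0 : l - i ≠ 0 := sub_ne_zero.2 hil.symm
  have hlj0 : l - j ≠ 0 := sub_ne_zero.2 hjl.symm
  have hji0 : j - i ≠ 0 := sub_ne_zero.2 hij.symm
  have hd : α * δ - β * γ ≠ 0 := by
    have h1 : α * δ - β * γ = (l - i) * (l - j) * (j - i) := by
      rw [hα, hβ, hγ, hδ]
      ring
    rw [h1]
    exact mul_ne_zero (mul_ne_zero hli0 hlj0) hji0
  have hval : ∀ e (he : e ∈ S), ((((lN - jN) - algebraMap k N c' * (lN - iN)) * ⟨e, hSN2 e he⟩ +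
      (-iN * (lN - jN) + algebraMap k N c' * jN * (lN - iN)) : N) : Ω) = γ * e + δ := by
    intro e he
    rw [hγ, hδ, hcdef, hiN, hjN, hlN]
    rfl
  have hne' : ∀ e ∈ S, γ * e + δ ≠ 0 := by
    intro e he h0
    have h1 := hE.den hi2 hj2 hl2 ((hSN ⟨e, hSN2 e he⟩).2 he) hij2 hil2 hjl2 (hc ⟨e, hSN2 e he⟩
      ((hSN _).2 he))
    have h2 : ((lN - jN) - algebraMap k N c' * (lN - iN)) * ⟨e, hSN2 e he⟩ +
      (-iN * (lN - jN) + algebraMap k N c' * jN * (lN - iN)) = 0 := by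
      apply Subtype.ext
      rw [hval e he, h0]
      rfl
    rw [h2, map_zero, zero_mul] at h1
    exact mul_ne_zero (mul_ne_zero (mul_ne_zero (hE.xne _ ((hSN ⟨e, hSN2 e he⟩).2 he))
      (hE.xne _ hi2)) (hE.xne _ hj2)) (hE.xne _ hl2) h1.symm
  have hxS : ∀ e ∈ PP, x - e ≠ 0 := fun e he h0 => hx (by
    rw [sub_eq_zero.1 h0]
    exact alg_of_mem he)
  have hx0 : γ * x + δ ≠ 0 := by
    intro h0
    rcases eq_or_ne γ 0 with hγ0 | hγ0
    · rw [hγ0, zero_mul, zero_add] at h0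
      apply hd
      rw [h0, hγ0]
      ring
    · refine hxS (-δ / γ) (div_mem (neg_mem (hPPP hδP)) (hPPP hγP)) ?_
      rw [sub_eq_zero, eq_div_iff hγ0]
      linear_combination h0
  obtain ⟨x', hx'⟩ : ∃ x', x' = (α * x + β) / (γ * x + δ) := ⟨_, rfl⟩
  obtain ⟨-, -, hm3⟩ := mob_field (K := PP) (hPPP hαP) (hPPP hβP) (hPPP hγP) (hPPP hδP) hd hx0
  rw [← hx'] at hm3
  have hx'T : Transcendental PP x' := by
    intro h0
    apply hx
    have h1 : IntermediateField.adjoin k {x'} ≤ cl PP := adjoin_one_le (mem_cl.2 h0)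
    have h2 : x ∈ PP ⊔ IntermediateField.adjoin k {x'} := hm3 ▸ mem_sup_right' (mem_adjoin_one x)
    exact mem_cl.1 ((sup_le le_cl h1 : PP ⊔ IntermediateField.adjoin k {x'} ≤ cl PP) h2)
  have hx'N : x' ∈ N := by
    rw [hx']
    exact div_mem (add_mem (mul_mem (hPN hαP) hxN) (hPN hβP))
      (add_mem (mul_mem (hPN hγP) hxN) (hPN hδP))
  -- the new set
  obtain ⟨mo, hmo⟩ : ∃ mo : Ω → Ω, mo = fun e => (α * e + β) / (γ * e + δ) := ⟨_, rfl⟩
  have hmoe : ∀ e, mo e = (α * e + β) / (γ * e + δ) := fun e => by rw [hmo]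
  have hmoP : ∀ e ∈ S, mo e ∈ P := fun e he => by
    rw [hmoe]
    exact div_mem (add_mem (mul_mem hαP (hS e he)) hβP) (add_mem (mul_mem hγP (hS e he)) hδP)
  have hbr' : BP P Q x' (S.image mo) := by
    rw [hx']
    refine hbr.mob hS hαP hβP hγP hδP hd hne' fun e' => ?_
    rw [Finset.mem_image]
    exact exists_congr fun e => and_congr_right fun _ => by rw [hmoe]
  have hmoN : ∀ e (he : e ∈ S) (h : mo e ∈ N), (⟨mo e, h⟩ : N) =
      ((lN - iN) * ⟨e, hSN2 e he⟩ + (-jN * (lN - iN))) /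
        (((lN - jN) - algebraMap k N c' * (lN - iN)) * ⟨e, hSN2 e he⟩ +
          (-iN * (lN - jN) + algebraMap k N c' * jN * (lN - iN))) := by
    intro e he h
    apply Subtype.ext
    change mo e = _
    rw [hmoe, hα, hβ, hγ, hδ, hcdef, hiN, hjN, hlN]
    rfl
  have hmob : ∀ e (he : e ∈ S), _ := fun e he =>
    hE.mob hi2 hj2 hl2 ((hSN ⟨e, hSN2 e he⟩).2 he) hij2 hil2 hjl2 hc
  obtain ⟨SP, hSPdef⟩ : ∃ SP : Finset PP, SP = S.attach.image (fun e : {x // x ∈ S} =>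
      (⟨mo e.1, hPPP (hmoP e.1 e.2)⟩ : PP)) := ⟨_, rfl⟩
  have hSP : ∀ s ∈ SP, ∃ e, ∃ he : e ∈ S, s = ⟨mo e, hPPP (hmoP e he)⟩ := by
    intro s hs
    rw [hSPdef] at hs
    obtain ⟨e, -, rfl⟩ := Finset.mem_image.1 hs
    exact ⟨e.1, e.2, rfl⟩
  have hSP' : ∀ e (he : e ∈ S), (⟨mo e, hPPP (hmoP e he)⟩ : PP) ∈ SP := by
    intro e he
    rw [hSPdef]
    exact Finset.mem_image.2 ⟨⟨e, he⟩, Finset.mem_attach _ _, rfl⟩
  -- the derivative of the new coordinate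
  have hx'c : (⟨x', hx'N⟩ : N) = (xc ⟨x, hxN⟩ iN jN lN - algebraMap k N c')⁻¹ := by
    apply Subtype.ext
    change x' = (xc x (iN : Ω) jN lN - algebraMap k Ω c')⁻¹
    rw [← hcdef, hx', hα, hβ, hγ, hδ, hiN, hjN, hlN]
    have h1 : x - j ≠ 0 := hxS j (hPPP (hS j hj))
    have h2 : γ * x + δ = (xc x i j l - c) * ((x - j) * (l - i)) := by
      rw [hγ, hδ]
      unfold xc
      field_simp
      ring
    have h3 : xc x i j l - c ≠ 0 := by
      intro h0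
      rw [h0, zero_mul] at h2
      exact hx0 h2
    rw [hγ, hδ] at h2
    rw [h2, div_eq_iff (mul_ne_zero h3 (mul_ne_zero h1 hli0))]
    have h4 : (xc x i j l - c)⁻¹ * ((xc x i j l - c) * ((x - j) * (l - i))) =
        (x - j) * (l - i) := by
      rw [← mul_assoc, inv_mul_cancel₀ h3, one_mul]
    rw [h4]
    ring
  have hxcd : w (xc (⟨x, hxN⟩ : N) iN jN lN) = 1 ∧
      ρ * w (D (xc (⟨x, hxN⟩ : N) iN jN lN)) = 1 := by
    have hρ := hE.ne
    have hwh : ∀ a ∈ SN, ∀ b ∈ SN, a ≠ b → w (hh (⟨x, hxN⟩ : N) a b) = ρ⁻¹ := fun a ha b hb hab =>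
      eq_inv_of_mul_eq_one_right (hh1 a ha b hb hab)
    have hxi : (⟨x, hxN⟩ : N) - iN ≠ 0 := (Valuation.ne_zero_iff w).1 (hE.xne _ hi2)
    have hxj : (⟨x, hxN⟩ : N) - jN ≠ 0 := (Valuation.ne_zero_iff w).1 (hE.xne _ hj2)
    have hxl : (⟨x, hxN⟩ : N) - lN ≠ 0 := (Valuation.ne_zero_iff w).1 (hE.xne _ hl2)
    have hli : lN - iN ≠ 0 := sub_ne_zero.2 hil2.symm
    have hlj : lN - jN ≠ 0 := sub_ne_zero.2 hjl2.symm
    have e1 : xc (⟨x, hxN⟩ : N) iN jN lN = hh (⟨x, hxN⟩ : N) lN jN / hh (⟨x, hxN⟩ : N) lN iN := by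
      unfold xc hh
      field_simp
    have w1 : w (xc (⟨x, hxN⟩ : N) iN jN lN) = 1 := by
      rw [e1, map_div₀, hwh _ hl2 _ hj2 hjl2.symm, hwh _ hl2 _ hi2 hil2.symm,
        div_self (inv_ne_zero hρ)]
    refine ⟨w1, ?_⟩
    obtain ⟨i', hi'⟩ := hSN' iN hi2
    obtain ⟨j', hj'⟩ := hSN' jN hj2
    obtain ⟨l', hl'⟩ := hSN' lN hl2
    have e2 := hR.D_xc i' j' l' (by rw [hi']; exact sub_ne_zero.1 hxi)
      (by rw [hj']; exact sub_ne_zero.1 hxj)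
    rw [hi', hj', hl'] at e2
    rw [e2, map_mul, w1, one_mul]
    exact hh1 _ hi2 _ hj2 hij2
  have hxcc : w (xc (⟨x, hxN⟩ : N) iN jN lN - algebraMap k N c') = 1 := by
    have h1 := gauss_of_norm hR hnat hxcd.1.le hxcd.2
      (Polynomial.X - Polynomial.C (algebraMap k PP c')) (fun n => ?_) ⟨1, ?_⟩
    · rw [map_sub, Polynomial.aeval_X, Polynomial.aeval_C] at h1
      exact h1
    · rw [Polynomial.coeff_sub, Polynomial.coeff_X, Polynomial.coeff_C, map_sub]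
      refine (w.map_sub _ _).trans (max_le ?_ ?_)
      · split_ifs
        · rw [map_one, map_one]
        · rw [map_zero, map_zero]; exact zero_le
      · split_ifs
        · rcases eq_or_ne c' 0 with h0 | h0
          · rw [h0, map_zero, map_zero, map_zero]
            exact zero_le
          · exact (hk c' h0).le
        · rw [map_zero, map_zero]; exact zero_le
    · rw [Polynomial.coeff_sub, Polynomial.coeff_X_one, Polynomial.coeff_C_of_ne_zero one_ne_zero,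
        sub_zero, map_one, map_one]
  have hwx' : w (⟨x', hx'N⟩ : N) = 1 := by
    rw [hx'c, map_inv₀, hxcc, inv_one]
  have hDx' : ρ * w (D (⟨x', hx'N⟩ : N)) = 1 := by
    have h1 : D (algebraMap k N c') = 0 := D.map_algebraMap (algebraMap k PP c')
    rw [hx'c, Derivation.leibniz_inv, smul_eq_mul, map_mul, Valuation.map_neg, map_pow,
      map_inv₀, hxcc, inv_one, one_pow, one_mul, map_sub, h1, sub_zero]
    exact hxcd.2
  -- the unique place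
  have hG' : Gal (PP ⊔ IntermediateField.adjoin k {x'}) N := hm3.symm ▸ hG
  obtain ⟨i1, i2⟩ := gal_adjoin (A := PP) (M := N) (x := ⟨x', hx'N⟩) hNf hG'
  have hg' : Fixes g (PP ⊔ IntermediateField.adjoin k {x'}) := hm3.symm ▸ hg
  obtain ⟨s, hs⟩ := exists_restrict_adjoin (A := PP) (M := N) (x := ⟨x', hx'N⟩) hG' hg'
  have main := gauss_unique' (k := k) (K := PP) (L := N) (x := (⟨x', hx'N⟩ : N))
    (fun h => hx'T (h.algebraMap (A := Ω))) (fun z hz => ?_) (w := w) hk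
    (fun p hp hp1 => gauss_of_norm hR hnat hwx'.le hDx' p hp hp1) SP ?_ ?_ ?_ s z
  · have h1 : s z = ⟨g z, h⟩ := Subtype.ext (hs z)
    rw [h1] at main
    exact main
  · exact ⟨⟨z, hcl z z.2 (hz.algebraMap (A := Ω))⟩, rfl⟩
  · intro s' hs'
    obtain ⟨e, he, rfl⟩ := hSP s' hs'
    have h1 := (hmob e he).1
    rw [← hmoN e he (hPN (hmoP e he))] at h1
    exact h1
  · intro s' hs' s'' hs'' hss
    obtain ⟨a, ha, rfl⟩ := hSP s' hs'
    obtain ⟨b, hb, rfl⟩ := hSP s'' hs''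
    have hab : (⟨a, hSN2 a ha⟩ : N) ≠ ⟨b, hSN2 b hb⟩ := by
      intro h0
      have h1 : a = b := congrArg Subtype.val h0
      subst h1
      exact hss rfl
    have h1 := (hmob a ha).2 _ ((hSN ⟨b, hSN2 b hb⟩).2 hb) hab
    rw [← hmoN a ha (hPN (hmoP a ha)), ← hmoN b hb (hPN (hmoP b hb))] at h1
    exact h1
  · intro u hu huS s' hs'
    haveI g1 : Fact (PP ⊔ IntermediateField.adjoin k {x'} ≤ N) := ⟨hG'.le⟩
    have h1 := (hbr' PP hPPf hPPP (fun e' he' => by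
      obtain ⟨e, he, rfl⟩ := Finset.mem_image.1 he'
      exact hPPP (hmoP e he)) hx'T N hN u (fun a ha h0 h2 => hu ⟨a, ha⟩ (fun h3 => h0
        (congrArg Subtype.val h3)))).1 (fun e' he' h2 h3 => by
      obtain ⟨e, he, rfl⟩ := Finset.mem_image.1 he'
      have h4 := huS ⟨mo e, hPPP (hmoP e he)⟩ (hSP' e he)
      exact absurd h3 (not_lt.2 h4))
    exact inertia_adjoin (y := x') rfl hu h1 s' hs'

end Pf72953.Pl
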