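import Mathlib

/-!
Tame inertia is central in the decomposition group.
-/

set_option autoImplicit false
set_option linter.style.haveILetI false
set_option linter.unusedSectionVars false

open scoped WithZero Polynomial

namespace Pf72953.Pl

namespace GeoZ

section

variable {k N : Type*} [Field k] [Field N] [Algebra k N] {w : Valuation N ℤᵐ⁰}

theorem val_lt {σ : N ≃ₐ[k] N} (hσ : ∀ z, w z ≤ 1 → w (σ z - z) < 1) {x : N} (hx : w x < 1) :
    w (σ x) < 1 := by
  have h1 : σ x = (σ x - x) + x := by ring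
  rw [h1]
  exact Valuation.map_add_lt _ (hσ x hx.le) hx

theorem val_le {σ : N ≃ₐ[k] N} (hσ : ∀ z, w z ≤ 1 → w (σ z - z) < 1) {x : N} (hx : w x ≤ 1) :
    w (σ x) ≤ 1 := by
  have h1 : σ x = (σ x - x) + x := by ring
  rw [h1]
  exact (Valuation.map_add _ _ _).trans (max_le (hσ x hx).le hx)

theorem inertial_pow {σ : N ≃ₐ[k] N} (hσ : ∀ z, w z ≤ 1 → w (σ z - z) < 1) (i : ℕ) :
    ∀ z, w z ≤ 1 → w ((σ ^ i) z - z) < 1 := by
  induction i with
  | zero =>
    intro z _
    rw [pow_zero, AlgEquiv.one_apply, sub_self, map_zero]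
    exact zero_lt_one
  | succ i ih =>
    intro z hz
    have h1 : (σ ^ (i + 1)) z - z = ((σ ^ i) (σ z) - σ z) + (σ z - z) := by
      rw [pow_succ, AlgEquiv.mul_apply]
      ring
    rw [h1]
    exact Valuation.map_add_lt _ (ih _ (val_le hσ hz)) (hσ z hz)

theorem val_eq {σ : N ≃ₐ[k] N} (hσ : ∀ z, w z ≤ 1 → w (σ z - z) < 1) {n : ℕ} (hn : 1 ≤ n)
    (hσn : σ ^ n = 1) (z : N) : w (σ z) = w z := by
  rcases eq_or_ne z 0 with rfl | hz
  · rw [map_zero]
  have step : ∀ y : N, y ≠ 0 → w (σ y) < w y → False := by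
    intro y hy h
    have h1 : ∀ i : ℕ, w ((σ ^ (i + 1)) y) < w ((σ ^ i) y) := by
      intro i
      have hlt : w (σ y / y) < 1 := by
        rw [map_div₀]
        exact (div_lt_one₀ (zero_lt_iff.2 ((Valuation.ne_zero_iff w).2 hy))).2 h
      have h2 : w ((σ ^ i) (σ y / y)) < 1 := val_lt (inertial_pow hσ i) hlt
      have hy' : (σ ^ i) y ≠ 0 := (map_ne_zero_iff _ (σ ^ i).injective).2 hy
      rw [map_div₀, map_div₀,
        div_lt_one₀ (zero_lt_iff.2 ((Valuation.ne_zero_iff w).2 hy'))] at h2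
      rwa [pow_succ, AlgEquiv.mul_apply]
    have h2 : ∀ i : ℕ, w ((σ ^ (i + 1)) y) < w y := by
      intro i
      induction i with
      | zero =>
        have h3 := h1 0
        rwa [pow_zero, AlgEquiv.one_apply] at h3
      | succ i ih => exact (h1 (i + 1)).trans ih
    obtain ⟨j, rfl⟩ : ∃ j, n = j + 1 := ⟨n - 1, by omega⟩
    have h3 := h2 j
    rw [hσn, AlgEquiv.one_apply] at h3
    exact lt_irrefl _ h3
  rcases lt_trichotomy (w (σ z)) (w z) with h | h | h
  · exact (step z hz h).elim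
  · exact h
  · refine (step z⁻¹ (inv_ne_zero hz) ?_).elim
    rw [map_inv₀, map_inv₀, map_inv₀]
    exact inv_strictAnti₀ (zero_lt_iff.2 ((Valuation.ne_zero_iff w).2 hz)) h

/-- `σ z / z` is congruent to a root of unity in `k` -/
theorem exists_eigen [IsAlgClosed k] (hk : ∀ c : k, c ≠ 0 → w (algebraMap k N c) = 1)
    {σ : N ≃ₐ[k] N} (hσ : ∀ z, w z ≤ 1 → w (σ z - z) < 1) {n : ℕ} (hn : 1 ≤ n)
    (hσn : σ ^ n = 1) {z : N} (hz : z ≠ 0) :
    ∃ ζ : k, w (algebraMap k N ζ) = 1 ∧ w (σ z - algebraMap k N ζ * z) < w z := by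
  classical
  have hwz : w z ≠ 0 := (Valuation.ne_zero_iff w).2 hz
  have hwz0 : 0 < w z := zero_lt_iff.2 hwz
  set a : N := σ z / z with ha
  have haz : σ z = a * z := by rw [ha, div_mul_cancel₀ _ hz]
  have ha1 : w a = 1 := by
    rw [ha, map_div₀, val_eq hσ hn hσn, div_self hwz]
  have hpow : ∀ i : ℕ, w ((σ ^ i) z - a ^ i * z) < w z := by
    intro i
    induction i with
    | zero =>
      rw [pow_zero, pow_zero, AlgEquiv.one_apply, one_mul, sub_self, map_zero]
      exact hwz0
    | succ i ih =>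
      have h1 : (σ ^ (i + 1)) z - a ^ (i + 1) * z =
          ((σ ^ i) a - a) * (σ ^ i) z + a * ((σ ^ i) z - a ^ i * z) := by
        rw [pow_succ, AlgEquiv.mul_apply, haz, map_mul]
        ring
      have h2 : w ((σ ^ i) z) = w z := by
        have h3 : (σ ^ i) z = a ^ i * z + ((σ ^ i) z - a ^ i * z) := by ring
        rw [h3, Valuation.map_add_eq_of_lt_left]
        · rw [map_mul, map_pow, ha1, one_pow, one_mul]
        · rw [map_mul, map_pow, ha1, one_pow, one_mul]
          exact ih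
      rw [h1]
      refine Valuation.map_add_lt _ ?_ ?_
      · rw [map_mul, h2]
        exact mul_lt_of_lt_one_left hwz0 (inertial_pow hσ i a ha1.le)
      · rw [map_mul, ha1, one_mul]
        exact ih
  have hn1 : w (a ^ n - 1) < 1 := by
    have h1 := hpow n
    rw [hσn, AlgEquiv.one_apply] at h1
    have h2 : z - a ^ n * z = -((a ^ n - 1) * z) := by ring
    rw [h2, Valuation.map_neg, map_mul] at h1
    by_contra h3
    rw [not_lt] at h3
    exact absurd h1 (not_lt.2 (le_mul_of_one_le_left zero_le h3))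
  -- factor `X ^ n - 1`
  have hmon : (Polynomial.X ^ n - 1 : k[X]).Monic := by
    have h1 := Polynomial.monic_X_pow_sub_C (1 : k) (by omega : n ≠ 0)
    rwa [Polynomial.C_1] at h1
  have hfac := (IsAlgClosed.splits (Polynomial.X ^ n - 1 : k[X])).eq_prod_roots_of_monic hmon
  have hev : a ^ n - 1 =
      ((Polynomial.X ^ n - 1 : k[X]).roots.map fun ζ => a - algebraMap k N ζ).prod := by
    have h1 := congrArg (Polynomial.aeval a) hfac
    rw [map_multiset_prod, Multiset.map_map] at h1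
    have h2 : Polynomial.aeval a (Polynomial.X ^ n - 1 : k[X]) = a ^ n - 1 := by
      rw [map_sub, map_pow, Polynomial.aeval_X, map_one]
    rw [h2] at h1
    rw [h1]
    congr 1
    refine Multiset.map_congr rfl fun ζ _ => ?_
    simp
  obtain ⟨ζ, hζ, hζ1⟩ : ∃ ζ ∈ (Polynomial.X ^ n - 1 : k[X]).roots,
      w (a - algebraMap k N ζ) < 1 := by
    by_contra hcon
    push Not at hcon
    rw [hev, map_multiset_prod, Multiset.map_map] at hn1
    refine absurd hn1 (not_lt.2 (Multiset.one_le_prod_of_one_le fun x hx => ?_))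
    obtain ⟨ζ, hζ, rfl⟩ := Multiset.mem_map.1 hx
    exact hcon ζ hζ
  have hζ0 : ζ ≠ 0 := by
    rintro rfl
    rw [Polynomial.mem_roots hmon.ne_zero] at hζ
    simp only [Polynomial.IsRoot, Polynomial.eval_sub, Polynomial.eval_pow, Polynomial.eval_X,
      Polynomial.eval_one] at hζ
    rw [zero_pow (by omega : n ≠ 0), zero_sub, neg_eq_zero] at hζ
    exact one_ne_zero hζ
  refine ⟨ζ, hk ζ hζ0, ?_⟩
  have h1 : σ z - algebraMap k N ζ * z = (a - algebraMap k N ζ) * z := by
    rw [haz]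
    ring
  rw [h1, map_mul]
  exact mul_lt_of_lt_one_left hwz0 hζ1

/-- an automorphism of finite order which is trivial on the graded ring is trivial -/
theorem eq_one_of_graded_pow (hn : ∀ n : ℕ, n ≠ 0 → w (n : N) = 1) {c : N ≃ₐ[k] N} {m : ℕ}
    (hm : 1 ≤ m) (hcm : c ^ m = 1) (hc : ∀ z : N, z ≠ 0 → w (c z - z) < w z) : c = 1 := by
  ext z
  rw [AlgEquiv.one_apply]
  by_contra hne
  set u := c z - z with hu
  have hu0 : u ≠ 0 := sub_ne_zero.2 hne
  have hwu : w u ≠ 0 := (Valuation.ne_zero_iff w).2 hu0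
  have hval : ∀ i : ℕ, w ((c ^ i) u - u) < w u := by
    intro i
    induction i with
    | zero =>
      rw [pow_zero, AlgEquiv.one_apply, sub_self, map_zero]
      exact zero_lt_iff.2 hwu
    | succ i ih =>
      have h1 : (c ^ (i + 1)) u - u = (c ((c ^ i) u) - (c ^ i) u) + ((c ^ i) u - u) := by
        rw [pow_succ', AlgEquiv.mul_apply]
        ring
      have h2 : w ((c ^ i) u) = w u := by
        have h3 : (c ^ i) u = u + ((c ^ i) u - u) := by ring
        rw [h3]
        exact Valuation.map_add_eq_of_lt_left _ ih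
      have h4 : (c ^ i) u ≠ 0 := (map_ne_zero_iff _ (c ^ i).injective).2 hu0
      rw [h1]
      exact Valuation.map_add_lt _ ((hc _ h4).trans_eq h2) ih
  have hsum : ∑ i ∈ Finset.range m, (c ^ i) u = 0 := by
    have h1 : ∀ i : ℕ, (c ^ i) u = (c ^ (i + 1)) z - (c ^ i) z := by
      intro i
      rw [hu, map_sub, pow_succ, AlgEquiv.mul_apply]
    rw [Finset.sum_congr rfl fun i _ => h1 i, Finset.sum_range_sub (fun i => (c ^ i) z),
      hcm, pow_zero, sub_self]
  have hsum2 : ∑ i ∈ Finset.range m, ((c ^ i) u - u) = -((m : ℕ) * u) := by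
    rw [Finset.sum_sub_distrib, hsum, Finset.sum_const, Finset.card_range, nsmul_eq_mul, zero_sub]
  have hlt : w (∑ i ∈ Finset.range m, ((c ^ i) u - u)) < w u :=
    Valuation.map_sum_lt _ hwu fun i _ => hval i
  rw [hsum2, Valuation.map_neg, map_mul, hn _ (by omega), one_mul] at hlt
  exact lt_irrefl _ hlt

end

end GeoZ

open GeoZ

/-- tame inertia commutes with the decomposition group -/
theorem inertia_central {k N : Type*} [Field k] [CharZero k] [IsAlgClosed k] [Field N] [Algebra k N]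
    {w : Valuation N ℤᵐ⁰} (hk : ∀ c : k, c ≠ 0 → w (algebraMap k N c) = 1)
    (σ g : N ≃ₐ[k] N) (hσ : ∀ z, w z ≤ 1 → w (σ z - z) < 1) {n : ℕ} (hn : 1 ≤ n)
    (hσn : σ ^ n = 1) (hg : ∀ z, w (g z) = w z) {m : ℕ} (hm : 1 ≤ m)
    (hc : (σ * g * σ⁻¹ * g⁻¹) ^ m = 1) : σ * g = g * σ := by
  have hone : σ * g * σ⁻¹ * g⁻¹ = 1 := by
    refine eq_one_of_graded_pow (w := w) (fun j hj => ?_) hm hc fun z hz => ?_
    · have h1 := hk (j : k) (by exact_mod_cast hj)
      rwa [map_natCast] at h1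
    · set y : N := σ⁻¹ (g⁻¹ z) with hy
      have hz' : z = g (σ y) := by
        rw [hy, ← AlgEquiv.mul_apply, ← AlgEquiv.mul_apply, ← AlgEquiv.mul_apply]
        simp
      have hy0 : y ≠ 0 := by
        rintro h
        rw [h, map_zero, map_zero] at hz'
        exact hz hz'
      have hwy : w z = w y := by rw [hz', hg, val_eq hσ hn hσn]
      have hcz : (σ * g * σ⁻¹ * g⁻¹) z = σ (g y) := by
        simp only [AlgEquiv.mul_apply, hy]
      rw [hcz, hwy]
      obtain ⟨ζ, hζ1, hζ⟩ := exists_eigen hk hσ hn hσn hy0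
      set v : N := g y / y with hv
      have hgy : g y = y * v := by rw [hv, mul_div_cancel₀ _ hy0]
      have hwy0 : w y ≠ 0 := (Valuation.ne_zero_iff w).2 hy0
      have hv1 : w v = 1 := by rw [hv, map_div₀, hg, div_self hwy0]
      have h1 : σ (g y) - z = ((σ y - algebraMap k N ζ * y) * σ v +
          algebraMap k N ζ * y * (σ v - v)) - g (σ y - algebraMap k N ζ * y) := by
        rw [map_sub, map_mul g, AlgEquiv.commutes, ← hz', hgy, map_mul]
        ring
      rw [h1]
      refine (Valuation.map_sub _ _ _).trans_lt (max_lt (Valuation.map_add_lt _ ?_ ?_) ?_)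
      · rw [map_mul, val_eq hσ hn hσn v, hv1, mul_one]
        exact hζ
      · rw [map_mul, map_mul, hζ1, one_mul]
        exact mul_lt_of_lt_one_right (zero_lt_iff.2 hwy0) (hσ v hv1.le)
      · rw [hg]
        exact hζ
  have h2 : σ * g * σ⁻¹ = g := by
    rwa [mul_inv_eq_one] at hone
  calc σ * g = σ * g * σ⁻¹ * σ := by rw [inv_mul_cancel_right]
    _ = g * σ := by rw [h2]

end Pf72953.Pl
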