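import Mathlib
import Pool.Agent.Lib.Pf72953n.GeoE
import Pool.Agent.Lib.Pf72953n.GeoP
import Pool.Agent.Lib.Pf72953n.GeoZ
import Pool.Agent.Lib.Pf72953n.TwR
import Pool.Agent.Lib.Pf72953n.Line0

/-!
Families of uniformly ramified covers: the ramification of the covering field.
-/

set_option autoImplicit false
set_option linter.style.haveILetI false

open scoped WithZero Polynomial
open Pf72953 Pf72953.Mov Pf72953.Tow

namespace Pf72953.Pl

variable {k Ω : Type*} [Field k] [Field Ω] [Algebra k Ω] [CharZero k] [IsAlgClosed Ω]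

/-- an automorphism of a regular extension `A` of `D` extends to an automorphism over `N` -/
theorem amalg_over {D N A : IntermediateField k Ω} (hN : Fin' N) (hA : Fin' A) (hDN : D ≤ N)
    (hDA : D ≤ A) (hcl : ∀ x ∈ A, IsAlgebraic D x → x ∈ D)
    (hi : dimension k (N ⊔ A : IntermediateField k Ω) + dimension k D =
      dimension k N + dimension k A) (g : Ω ≃ₐ[k] Ω) (hg : Fixes g D) (hgA : Stab g A)
    (hgA' : Stab g.symm A) : ∃ g₁ : Ω ≃ₐ[k] Ω, Fixes g₁ N ∧ ∀ z ∈ A, g₁ z = g z := by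
  obtain ⟨N', hN'⟩ : ∃ N', N' = N.map (g.symm : Ω →ₐ[k] Ω) := ⟨_, rfl⟩
  have m₁ : ∀ x ∈ N, g.symm x ∈ N' := fun x hx => hN' ▸ ⟨x, hx, rfl⟩
  have m₂ : ∀ x ∈ N', g.symm.symm x ∈ N := by
    intro x hx
    rw [hN'] at hx
    obtain ⟨y, hy, rfl⟩ := hx
    change g (g.symm y) ∈ N
    rw [AlgEquiv.apply_symm_apply]
    exact hy
  have hN'f : Fin' N' := by
    haveI : Algebra.EssFiniteType k N := hN
    rw [hN']
    change Algebra.EssFiniteType k (N.map (g.symm : Ω →ₐ[k] Ω))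
    let e : N ≃ₐ[k] (N.map (g.symm : Ω →ₐ[k] Ω)) := N.equivMap (g.symm : Ω →ₐ[k] Ω)
    exact Algebra.EssFiniteType.of_surjective e.toAlgHom e.surjective
  have m₃ : ∀ x ∈ N ⊔ A, g.symm x ∈ N' ⊔ A := by
    have h1 : N ⊔ A ≤ (N' ⊔ A).comap (g.symm : Ω →ₐ[k] Ω) :=
      sup_le (fun x hx => mem_sup_left' (m₁ x hx)) fun x hx => mem_sup_right' (hgA' x hx)
    exact fun x hx => h1 hx
  have m₄ : ∀ x ∈ N' ⊔ A, g.symm.symm x ∈ N ⊔ A := by
    have h1 : N' ⊔ A ≤ (N ⊔ A).comap (g : Ω →ₐ[k] Ω) :=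
      sup_le (fun x hx => mem_sup_left' (m₂ x hx)) fun x hx => mem_sup_right' (hgA x hx)
    exact fun x hx => h1 hx
  have d₁ : dimension k N = dimension k N' := dim_eq_of_maps g.symm m₁ m₂
  have d₂ : dimension k (N ⊔ A : IntermediateField k Ω) =
      dimension k (N' ⊔ A : IntermediateField k Ω) := dim_eq_of_maps g.symm m₃ m₄
  obtain ⟨ψ, hψ, hψg⟩ := exists_amalg hN hN'f hA hDN hDA hcl g.symm hg.symm79 m₁ m₂ hi
    (by rw [← d₂, ← d₁, hi])
  refine ⟨ψ.trans g, fun x hx => ?_, fun z hz => ?_⟩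
  · rw [AlgEquiv.trans_apply, hψg x hx, AlgEquiv.apply_symm_apply]
  · rw [AlgEquiv.trans_apply, hψ z hz]

variable [IsAlgClosed k]

/-- the covering field contains the constants -/
theorem Geo.const_le {V T E Q C P X Y₂ R : IntermediateField k Ω} {x t : Ω} {S : Finset Ω}
    {ψ : Ω × Ω × Ω → (Ω ≃ₐ[k] Ω)} (hg : Geo V T E Q C)
    (hC : Cover P (X ⊔ P) (Q ⊔ P) x S Y₂ t ψ R) (hne : (trip S).Nonempty) (hVX : V ≤ X) :
    C ≤ R := by
  obtain ⟨p, hp⟩ := hne
  intro z hz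
  have h1 : Fixes (ψ p) V := (hC.fix p hp).mono (hVX.trans (le_sup_left.trans le_sup_left))
  have h2 : (ψ p).symm z ∈ C := hg.gal.stab _ h1.symm79 z hz
  have h3 := hC.img p hp _ (mem_sup_left' (mem_sup_left' (hg.CQ h2)))
  rwa [AlgEquiv.apply_symm_apply] at h3

/-- places of the generic fibre are unramified -/
theorem Geo.unr_hor {V T E Q C XX PP N : IntermediateField k Ω} (hg : Geo V T E Q C)
    [Fact (XX ≤ N)] [Fact (PP ≤ N)] (hN : Fin' N)
    (hGN : Gal XX N) (hst : ∀ σ : Ω ≃ₐ[k] Ω, Fixes σ XX → Stab σ PP) (hEX : E ≤ XX)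
    (hVP : V ≤ PP) (hQN : Q ≤ N) (hgen : N ≤ PP ⊔ (XX ⊔ Q))
    {w : Valuation N ℤᵐ⁰} (hw : ∀ a : PP, a ≠ 0 → w (algebraMap PP N a) = 1) : Br.Unr XX w := by
  have hPN : PP ≤ N := Fact.out
  obtain ⟨i1, i2⟩ := hGN.finite hN
  refine Br.unr_of_inertia (fun σ hin => ?_)
  obtain ⟨σ', hσX', hσ'⟩ := hGN.exists_ext hN σ
  have hfix : Fixes σ' PP := by
    intro a ha
    by_contra hne
    have hm : σ' a - a ∈ PP := sub_mem (hst σ' hσX' a ha) ha
    have h1 := hw ⟨σ' a - a, hm⟩ (fun h => hne (sub_eq_zero.1 (congrArg Subtype.val h)))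
    have h2 := hin ⟨a, hPN ha⟩ (by
      by_cases h0 : a = 0
      · have : (⟨a, hPN ha⟩ : N) = 0 := Subtype.ext h0
        rw [this, map_zero]
        exact zero_le
      · exact (hw ⟨a, ha⟩ (fun h => h0 (congrArg Subtype.val h))).le)
    have h3 : (σ ⟨a, hPN ha⟩ - ⟨a, hPN ha⟩ : N) = algebraMap PP N ⟨σ' a - a, hm⟩ := Subtype.ext (by
      change ((σ ⟨a, hPN ha⟩ : N) : Ω) - a = σ' a - a
      rw [← hσ'])
    rw [h3, h1] at h2
    exact lt_irrefl _ h2
  -- the action on `Q`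
  haveI f1 : Fact (E ≤ Q) := ⟨hg.EQ⟩
  haveI f2 : Fact (Q ≤ N) := ⟨hQN⟩
  have hGEQ : Gal E Q := ⟨hg.EQ, fun x hx => alg_mono hg.TE (hg.galQ.alg x hx),
    fun σ hσ => hg.galQ.stab σ (hσ.mono hg.TE)⟩
  obtain ⟨j1, j2⟩ := hGEQ.finite hg.fin
  have hσE : Fixes σ' E := hσX'.mono hEX
  obtain ⟨s, hs⟩ := Tow.exists_restrict hGEQ hσE
  have hU : Br.Unr E (w.comap (algebraMap Q N)) := by
    refine hg.hor _ fun a ha h0 h => ?_
    exact hw ⟨a, hVP ha⟩ (fun h => h0 (congrArg Subtype.val h))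
  have hs1 : s = 1 := by
    refine inertia_of_unr (k := k) (w := w.comap (algebraMap Q N)) (fun c hc => ?_) hU s
      fun z hz => ?_
    · exact hw (algebraMap k PP c) ((map_ne_zero _).2 hc)
    · have h1 := hin (algebraMap Q N z) hz
      have h2 : σ (algebraMap Q N z) - algebraMap Q N z = algebraMap Q N (s z - z) := by
        apply Subtype.ext
        change ((σ (algebraMap Q N z) : N) : Ω) - z = (s z : Ω) - z
        rw [hs z]
        have h3 := hσ' (algebraMap Q N z)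
        rw [← h3]
        rfl
      rw [h2] at h1
      exact h1
  have hfixQ : Fixes σ' Q := by
    intro z hz
    have h1 := hs ⟨z, hz⟩
    rw [hs1] at h1
    exact h1.symm
  have hfixN : Fixes σ' N := (hfix.sup79 (hσX'.sup79 hfixQ)).mono hgen
  ext u
  have h6 := hσ' u
  rw [hfixN u u.2] at h6
  exact h6.symm

/-- the ramification of `X·Q·R` over `X·E·Y₂` -/
theorem Geo.unr_cover {V T E Q C P X Y₂ R XX PP N : IntermediateField k Ω} {x t : Ω} {S : Finset Ω}
    {ψ : Ω × Ω × Ω → (Ω ≃ₐ[k] Ω)} (hT : Tw V T Q P x S) (hVT : V ≤ T) (hg : Geo V T E Q C)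
    (hC : Cover P (X ⊔ P) (Q ⊔ P) x S Y₂ t ψ R) (hne : (trip S).Nonempty)
    (hXX : XX = X ⊔ E ⊔ Y₂) (hPP : PP = X ⊔ R) (hN : N = R ⊔ (XX ⊔ Q))
    (hX : Fin' X) (hY₂ : Fin' Y₂) (hVX : V ≤ X) (hxPP : Transcendental PP x)
    (htY : t ∈ Y₂) [f1 : Fact (XX ≤ N)] [f2 : Fact (PP ≤ N)] [DecidableEq N]
    (w : Valuation N ℤᵐ⁰) (hk : ∀ a : k, a ≠ 0 → w (algebraMap k _ a) = 1)
    {SN : Finset N} (hSN : ∀ z, z ∈ SN ↔ (z : Ω) ∈ S)
    {m : N → N → ℕ} (hm : ∀ a ∈ SN, ∀ b ∈ SN, 1 ≤ m a b) (hxN : x ∈ N) (htN : t ∈ N)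
    (hns : ¬ Small PP w ⟨x, hxN⟩ ⟨t, htN⟩ (GG SN m ⟨x, hxN⟩)
      (TT SN ⟨x, hxN⟩ ⟨t, htN⟩) (MG SN m) (MT SN)) :
    Br.Unr XX w := by
  classical
  have hG := hg.galQ
  have hQ := hg.fin
  have hPf := hT.fin
  have hbp : bp P S = P := bp_eq hT.mem
  have hPR : P ≤ R := hbp ▸ hC.le
  have hEf : Fin' E := fin_le hQ hg.EQ
  have hXXf : Fin' XX := hXX ▸ fin_sup (fin_sup hX hEf) hY₂
  have hNf : Fin' N := hN ▸ fin_sup hC.fin (fin_sup hXXf hQ)
  have hX1 : X ≤ XX := hXX ▸ le_sup_left.trans le_sup_left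
  have hE1 : E ≤ XX := hXX ▸ le_sup_right.trans le_sup_left
  have hY1 : Y₂ ≤ XX := hXX ▸ le_sup_right
  have hRN : R ≤ N := hN ▸ le_sup_left
  have hQN : Q ≤ N := hN ▸ le_sup_right.trans le_sup_right
  have hPN : P ≤ N := hPR.trans hRN
  have hRPP : R ≤ PP := hPP ▸ le_sup_right
  have hXPP : X ≤ PP := hPP ▸ le_sup_left
  have hPPP : P ≤ PP := hPR.trans hRPP
  have hTE : T ≤ E := hg.TE
  have hTXX : T ≤ XX := hTE.trans hE1
  have hTQ : T ≤ Q := hG.le
  have hVXX : V ≤ XX := hVX.trans hX1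
  have hGR : Gal (V ⊔ Y₂) R := hT.cover_gal hVT hG hC htY
  have hGN : Gal XX N := by
    have h1 := (hGR.base XX (sup_le hVXX hY1)).sup (hG.base XX hTXX)
    have h2 : R ⊔ XX ⊔ (Q ⊔ XX) = N := by
      rw [hN]
      exact le_antisymm (sup_le (sup_le le_sup_left (le_sup_left.trans le_sup_right))
        (sup_le (le_sup_right.trans le_sup_right) (le_sup_left.trans le_sup_right)))
        (sup_le (le_sup_left.trans le_sup_left) (sup_le (le_sup_right.trans le_sup_left)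
        (le_sup_left.trans le_sup_right)))
    rwa [h2] at h1
  obtain ⟨i1, i2⟩ := hGN.finite hNf
  have hSPP : ∀ e ∈ S, e ∈ PP := fun e he => hPPP (hT.mem e he)
  have hSR : ∀ e ∈ S, e ∈ N := fun e he => hPN (hT.mem e he)
  have hSN' : ∀ e ∈ SN, ∃ e' : PP, algebraMap PP N e' = e := fun e he =>
    ⟨⟨e, hSPP _ ((hSN e).1 he)⟩, rfl⟩
  have hnat : ∀ n : ℕ, n ≠ 0 → w (n : N) = 1 := fun n hn => by
    have h1 := hk (n : k) (Nat.cast_ne_zero.2 hn)
    rwa [map_natCast] at h1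
  have hXPPP : X ⊔ P ≤ PP := sup_le hXPP hPPP
  have hx : Transcendental (X ⊔ P : IntermediateField k Ω) x := fun h => hxPP (alg_mono hXPPP h)
  -- over `P·Q`
  obtain ⟨XP, hXP⟩ : ∃ XP, XP = X ⊔ P ⊔ (Q ⊔ P) ⊔ Y₂ := ⟨_, rfl⟩
  have hXXP : XX ≤ XP := by
    rw [hXX, hXP]
    exact sup_le_sup_right (sup_le (le_sup_left.trans le_sup_left)
      ((hg.EQ.trans le_sup_left).trans le_sup_right)) _
  have hXPN : XP ≤ N := by
    rw [hXP]
    exact sup_le (sup_le (sup_le (hX1.trans f1.out) hPN) (sup_le hQN hPN)) (hY1.trans f1.out)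
  haveI f3 : Fact (XP ≤ N) := ⟨hXPN⟩
  have hXPf : Fin' XP := fin_le hNf hXPN
  have hGNP : Gal XP N := by
    have h1 := hGN.base XP hXXP
    rwa [sup_eq_left.2 hXPN] at h1
  obtain ⟨i3, i4⟩ := hGNP.finite hNf
  have hunr : Br.Unr XP w := by
    refine Pl.unr_cover hC hT.br hXP (PP := PP) (N := N) ?_ ?_ hPf (fin_sup hX hPf)
      (fin_sup hQ hPf) hY₂ le_sup_right hx (gal_split hG hT.gen)
      (fun e he => alg_of_mem (hT.mem e he)) (fun σ hσ e he => ?_) htY w hk hSN hm hxN htN hns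
    · rw [hPP]
      exact le_antisymm (sup_le (le_sup_left.trans le_sup_left) le_sup_right)
        (sup_le (sup_le le_sup_left (hPR.trans le_sup_right)) le_sup_right)
    · refine le_antisymm ?_ (sup_le hRN hXPN)
      rw [hN]
      refine sup_le le_sup_left (sup_le (hXXP.trans le_sup_right) (le_trans ?_ le_sup_right))
      rw [hXP]
      exact le_sup_left.trans (le_sup_right.trans le_sup_left)
    · rw [hσ e (hT.mem e he)]
      exact he
  obtain ⟨D, ρ, hR, ht1, ht2, hhh, hq⟩ := exists_of_not_small hm hSN' hns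
  -- the unique place
  have hGs := gal_split hG hT.gen
  have hNPQ : N = PP ⊔ (Q ⊔ P) := by
    refine le_antisymm ?_ (sup_le f2.out (sup_le hQN hPN))
    rw [hN]
    refine sup_le (hRPP.trans le_sup_left) (sup_le ?_ (le_sup_left.trans le_sup_right))
    rw [hXX]
    exact sup_le (sup_le (hXPP.trans le_sup_left) ((hg.EQ.trans le_sup_left).trans le_sup_right))
      (((le_sup_right.trans hC.gal.le).trans hRPP).trans le_sup_left)
  have hGx : Gal (PP ⊔ IntermediateField.adjoin k {x}) N := by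
    rw [hNPQ]
    exact galK hGs hPPP
  have hCR : C ≤ R := hg.const_le hC hne hVX
  have hCPP : C ≤ PP := hCR.trans hRPP
  have hCcl : ∀ z ∈ Q, IsAlgebraic C z → z ∈ C := fun z hz hz' =>
    hg.closed z hz (cl_idem (alg_iff.1 hg.gal.alg) hz')
  have hPPf : Fin' PP := fin_le hNf f2.out
  have hCf : Fin' C := fin_le hQ hg.CQ
  have hTf : Fin' T := fin_le hQ hTQ
  have hNPPQ : PP ⊔ Q = N := by
    rw [hNPQ]
    exact le_antisymm (sup_le_sup_left le_sup_left _) (sup_le le_sup_left (sup_le le_sup_right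
      (hPPP.trans le_sup_left)))
  have hdim : dimension k (PP ⊔ Q : IntermediateField k Ω) + dimension k C =
      dimension k PP + dimension k Q := by
    have e1 : dimension k Q = dimension k T := dim_eq hQ hTQ hG.alg
    have e2 : dimension k (T ⊔ P : IntermediateField k Ω) = dimension k T :=
      dim_eq (fin_sup hTf hPf) le_sup_left (alg_iff.2 (sup_le le_cl
        ((alg_iff.1 hT.gal.alg).trans (cl_mono hVT))))
    have e3 := dim_adj hPf hT.trans
    rw [← hT.gen, e2] at e3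
    have e4 : dimension k P = dimension k V := dim_eq hPf hT.gal.le hT.gal.alg
    have e5 : dimension k C = dimension k V := dim_eq hCf hg.gal.le hg.gal.alg
    have e6 := dim_adj hPPf hxPP
    have e7 : dimension k N = dimension k (PP ⊔ IntermediateField.adjoin k {x} :
        IntermediateField k Ω) := dim_eq hNf hGx.le hGx.alg
    rw [hNPPQ, e7, e6, e5, e1, e3, e4]
    ring
  have hclN : ∀ z ∈ N, IsAlgebraic PP z → z ∈ PP := by
    have h1 := closed_free (D := C) (N := PP) (A := Q) hPPf hQ hCPP hg.CQ hCcl hdim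
    rwa [hNPPQ] at h1
  have huniq : ∀ g : Ω ≃ₐ[k] Ω, Fixes g (PP ⊔ IntermediateField.adjoin k {x}) → ∀ (z : N)
      (h : g z ∈ N), w ⟨g z, h⟩ = w z := fun g hgx z h =>
    unique_place (bp_iff.1 hT.br) hPPf hNf hPPP hNPQ hT.mem hne hxPP hxN hGx hclN w hk hSN hR hhh
      g hgx z h
  refine Br.unr_of_inertia (fun σ hin => ?_)
  obtain ⟨σ', hσX', hσ'⟩ := hGN.exists_ext hNf σ
  have hσXX : Fixes σ' XX := hσX'
  have hσE : Fixes σ' E := hσXX.mono hE1
  have hσT : Fixes σ' T := hσXX.mono hTXX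
  obtain ⟨s, hs⟩ := hT.act σ' hσT
  -- the action on `SN`
  let sN : N → N := fun z => if h : (z : Ω) ∈ S then ⟨s z, hSR _ (hs.mem _ h)⟩ else z
  have hsN : ∀ z : N, (z : Ω) ∈ S → (sN z : Ω) = s z := by
    intro z hz
    change ((if h : (z : Ω) ∈ S then ⟨s z, hSR _ (hs.mem _ h)⟩ else z : N) : Ω) = s z
    rw [dif_pos hz]
  have hfixN : ∀ e ∈ SN, sN e = e := by
    refine fixS_twisted (P := PP) (N := N) hSN' hR hhh hnat ?_ (fun z => σ z) (s := sN) ?_ ?_ ?_ hin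
    · intro a ha b hb hab
      obtain ⟨c, hc, h1, h2⟩ := trip_third hne a ((hSN a).1 ha) b ((hSN b).1 hb)
        (fun h => hab (Subtype.ext h))
      exact ⟨⟨c, hSR c hc⟩, (hSN _).2 hc, fun h => h1 (congrArg Subtype.val h),
        fun h => h2 (congrArg Subtype.val h)⟩
    · intro e he
      rw [hSN, hsN e ((hSN e).1 he)]
      exact hs.mem _ ((hSN e).1 he)
    · intro a ha b hb hab
      have h1 := congrArg (Subtype.val : N → Ω) hab
      have h2 : (sN a : Ω) = (sN b : Ω) := h1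
      rw [hsN a ((hSN a).1 ha), hsN b ((hSN b).1 hb)] at h2
      exact Subtype.ext (hs.inj _ ((hSN a).1 ha) _ ((hSN b).1 hb) h2)
    · intro i hi j hj l hl hij hil hjl
      apply Subtype.ext
      rw [hSN] at hi hj hl
      have h1 : (((xc (⟨x, hxN⟩ : N) (sN i) (sN j) (sN l) : N)) : Ω) =
          xc x (sN i) (sN j) (sN l) := rfl
      have h2 : ((σ (xc (⟨x, hxN⟩ : N) i j l) : N) : Ω) = σ' (xc x i j l) :=
        (hσ' (xc (⟨x, hxN⟩ : N) i j l)).symm
      change ((σ (xc (⟨x, hxN⟩ : N) i j l) : N) : Ω) = _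
      rw [h1, h2, hsN i hi, hsN j hj, hsN l hl]
      exact hs.xc (i, j, l) (mem_trip.2 ⟨⟨hi, hj, hl⟩, fun h => hij (Subtype.ext h),
        fun h => hil (Subtype.ext h), fun h => hjl (Subtype.ext h)⟩)
  have hfixS : ∀ e ∈ S, s e = e := by
    intro e he
    have h1 := hfixN ⟨e, hSR e he⟩ ((hSN _).2 he)
    have h2 := congrArg (Subtype.val : N → Ω) h1
    rw [hsN ⟨e, hSR e he⟩ he] at h2
    exact h2
  have hfixP : Fixes σ' P := by
    refine hT.faith σ' hσT fun p hp => ?_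
    obtain ⟨⟨h1, h2, h3⟩, -, -, -⟩ := mem_trip.1 hp
    rw [hs.xc p hp, hfixS _ h1, hfixS _ h2, hfixS _ h3]
  -- the action on `Q`
  have hσPP : Stab σ' PP := hPP ▸ (hσXX.mono hX1).stab.sup
    (hGR.stab σ' (hσXX.mono (sup_le hVXX hY1)))
  have hσx : σ' x = x := by
    have h1 : x ∈ T ⊔ P := hT.gen ▸ mem_sup_right' (mem_adjoin_one x)
    exact (hσT.sup79 hfixP) x h1
  have hfixQ : Fixes σ' Q := by
    refine hg.faith σ' hσE fun g₀ hg₀ z hz => ?_
    have hg₀T : Fixes g₀ T := hg₀.mono le_sup_left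
    obtain ⟨g₁, hg₁, hg₁₀⟩ := amalg_over hPPf hQ hCPP hg.CQ hCcl hdim g₀ (hg₀.mono le_sup_right)
      (hG.stab _ hg₀T) (hG.stab _ hg₀T.symm79)
    have hg₁T : Fixes g₁ T := fun y hy => by rw [hg₁₀ y (hTQ hy), hg₀T y hy]
    have hg₁x : Fixes g₁ (PP ⊔ IntermediateField.adjoin k {x}) := by
      refine hg₁.sup79 ?_
      rw [fixes_iff79]
      refine adjoin_one_le ?_
      have h1 : x ∈ T ⊔ P := hT.gen ▸ mem_sup_right' (mem_adjoin_one x)
      exact (hg₁T.sup79 (hg₁.mono hPPP)) x h1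
    haveI f4 : Fact (PP ⊔ IntermediateField.adjoin k {x} ≤ N) := ⟨hGx.le⟩
    obtain ⟨i5, i6⟩ := hGx.finite hNf
    obtain ⟨gN, hgN⟩ := Tow.exists_restrict hGx hg₁x
    -- the commutator
    have hσN : Stab σ' N := hGN.stab σ' hσXX
    have hσN' : Stab σ'.symm N := hGN.stab _ hσXX.symm79
    have hgN' : Stab g₁ N := hGx.stab g₁ hg₁x
    have hgN'' : Stab g₁.symm N := hGx.stab _ hg₁x.symm79
    let σk : N ≃ₐ[k] N := AlgEquiv.ofRingEquiv (f := σ.toRingEquiv) fun c =>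
      σ.commutes (algebraMap k XX c)
    let gk : N ≃ₐ[k] N := AlgEquiv.ofRingEquiv (f := gN.toRingEquiv) fun c =>
      gN.commutes (algebraMap k (PP ⊔ IntermediateField.adjoin k {x} : IntermediateField k Ω) c)
    have hσk : ∀ z : N, (σk z : Ω) = σ' z := fun z => (hσ' z).symm
    have hgk : ∀ z : N, (gk z : Ω) = g₁ z := fun z => hgN z
    have hσki : ∀ z : N, ((σk⁻¹ z : N) : Ω) = σ'.symm z := by
      intro z
      rw [eq_comm, AlgEquiv.symm_apply_eq, ← hσk]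
      congr 1
      exact (AlgEquiv.apply_symm_apply σk z).symm
    have hgki : ∀ z : N, ((gk⁻¹ z : N) : Ω) = g₁.symm z := by
      intro z
      rw [eq_comm, AlgEquiv.symm_apply_eq, ← hgk]
      congr 1
      exact (AlgEquiv.apply_symm_apply gk z).symm
    have hpow : ∀ {F : Type _} [Field F] [Algebra F N] (a : N ≃ₐ[F] N) (b : N ≃ₐ[k] N),
        (∀ z, b z = a z) → ∀ (n : ℕ) (z : N), (b ^ n) z = (a ^ n) z := by
      intro F _ _ a b hab n
      induction n with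
      | zero => intro z; rfl
      | succ n ih =>
        intro z
        rw [pow_succ, pow_succ, AlgEquiv.mul_apply, AlgEquiv.mul_apply, ih, hab]
    have hσn : σk ^ orderOf σ = 1 := by
      ext z
      rw [hpow σ σk (fun _ => rfl), pow_orderOf_eq_one]
      rfl
    -- the commutator fixes `PP(x)`
    have hcfix : Fixes (((g₁.symm.trans σ'.symm).trans g₁).trans σ')
        (PP ⊔ IntermediateField.adjoin k {x}) := by
      refine Fixes.sup79 (fun y hy => ?_) ?_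
      · have h1 : σ'.symm y ∈ PP := by
          have h2 : Stab σ'.symm PP := hPP ▸ (hσXX.mono hX1).symm79.stab.sup
            (hGR.stab _ (hσXX.mono (sup_le hVXX hY1)).symm79)
          exact h2 y hy
        rw [AlgEquiv.trans_apply, AlgEquiv.trans_apply, AlgEquiv.trans_apply,
          hg₁.symm79 y hy, hg₁ _ h1, AlgEquiv.apply_symm_apply]
      · rw [fixes_iff79]
        refine adjoin_one_le ?_
        have e1 : g₁.symm x = x := by
          rw [AlgEquiv.symm_apply_eq]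
          exact (hg₁x x (mem_sup_right' (mem_adjoin_one x))).symm
        have e2 : σ'.symm x = x := by rw [AlgEquiv.symm_apply_eq, hσx]
        change (((g₁.symm.trans σ'.symm).trans g₁).trans σ') x = x
        rw [AlgEquiv.trans_apply, AlgEquiv.trans_apply, AlgEquiv.trans_apply, e1, e2,
          hg₁x x (mem_sup_right' (mem_adjoin_one x)), hσx]
    obtain ⟨cN, hcN⟩ := Tow.exists_restrict hGx hcfix
    have hck : ∀ z : N, (σk * gk * σk⁻¹ * gk⁻¹) z = cN z := by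
      intro z
      apply Subtype.ext
      rw [hcN, AlgEquiv.mul_apply, AlgEquiv.mul_apply, AlgEquiv.mul_apply, hσk, hgk, hσki, hgki]
      rfl
    have hcm : (σk * gk * σk⁻¹ * gk⁻¹) ^ orderOf cN = 1 := by
      ext z
      rw [hpow cN _ hck, pow_orderOf_eq_one]
      rfl
    have hcomm := inertia_central hk σk gk hin (orderOf_pos σ) hσn (fun z => by
      have h1 := huniq g₁ hg₁x z (hgN' z z.2)
      have h2 : (⟨g₁ z, hgN' z z.2⟩ : N) = gk z := Subtype.ext (hgk z).symm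
      rw [h2] at h1
      exact h1) (orderOf_pos cN) hcm
    have h1 := congrArg (fun f : N ≃ₐ[k] N => ((f ⟨z, hQN hz⟩ : N) : Ω)) hcomm
    simp only [AlgEquiv.mul_apply] at h1
    rw [hσk, hgk, hgk, hσk] at h1
    change σ' (g₁ z) = g₁ (σ' z) at h1
    rw [← hg₁₀ z hz, h1, hg₁₀ _ (hG.stab σ' hσT z hz)]
  have hfixXP : Fixes σ' XP := by
    rw [hXP]
    exact (((hσXX.mono hX1).sup79 hfixP).sup79 (hfixQ.sup79 hfixP)).sup79 (hσXX.mono hY1)
  obtain ⟨s₂, hs₂⟩ := Tow.exists_restrict hGNP hfixXP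
  have hs₂1 : s₂ = 1 := by
    refine inertia_of_unr (k := k) hk hunr s₂ fun z hz => ?_
    have h1 := hin z hz
    have h2 : s₂ z = σ z := Subtype.ext (by rw [hs₂, hσ'])
    rw [h2]
    exact h1
  ext u
  have h6 := hσ' u
  have h7 := hs₂ u
  rw [hs₂1] at h7
  rw [← h6]
  exact h7.symm

end Pf72953.Pl
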