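import Mathlib
import Pool.Agent.Lib.Pf72953n.GeoD
import Pool.Agent.Lib.Pf72953n.RulT

/-!
The step of a family of curves which are uniformly ramified covers of curves of genus `0`.
-/

set_option autoImplicit false
set_option linter.style.haveILetI false

open scoped WithZero Polynomial
open Pf72953 Pf72953.Mov Pf72953.Tow

namespace Pf72953.Pl

variable {k Ω : Type*} [Field k] [Field Ω] [Algebra k Ω] [CharZero k] [IsAlgClosed k]
  [IsAlgClosed Ω]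

/-- **The step of a family of uniformly ramified covers.** -/
theorem OverC.uni {B V X T E : IntermediateField k Ω} (hO : OverC B V X) (hX : Fin' X)
    (h0 : KodairaGE k X 0)
    (hΩ : ∀ A : IntermediateField k Ω, Fin' A → ∃ t : Ω, Transcendental A t) (hT : Ruled V T)
    (ht : ∃ t ∈ T, Transcendental X t) (hE : Uni V T E) : OverC B T (X ⊔ E) := by
  classical
  obtain ⟨x₀, hx₀T, hx₀⟩ := ht
  have hVT : V ≤ T := hT.le
  have hTf : Fin' T := hT.fin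
  have hEff : Fin' E := hE.fin
  obtain ⟨hBX, hVX, hO⟩ := hO
  refine ⟨hBX.trans le_sup_left, hE.le.trans le_sup_right,
    fun Y Q₀ hY hiE hQ₀ hG₀ b c hb hc => ?_⟩
  have hYf := hY.fin
  have hVf : Fin' V := fin_le hX hVX
  have hEf : Fin' (X ⊔ T : IntermediateField k Ω) := fin_sup hX hTf
  have hi : Indep (X ⊔ T) Y := hiE.mono_left (fin_sup hX hEff) hYf (sup_le_sup_left hE.le X)
  obtain ⟨X', hX'⟩ : ∃ X', X' = X ⊔ Y := ⟨_, rfl⟩
  obtain ⟨V', hV'⟩ : ∃ V', V' = V ⊔ Y := ⟨_, rfl⟩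
  obtain ⟨T', hT'⟩ : ∃ T', T' = T ⊔ Y := ⟨_, rfl⟩
  have hX'f : Fin' X' := hX' ▸ fin_sup hX hYf
  have hV'f : Fin' V' := hV' ▸ fin_sup hVf hYf
  have hT'f : Fin' T' := hT' ▸ fin_sup hTf hYf
  have hVX' : V' ≤ X' := by rw [hV', hX']; exact sup_le_sup_right hVX Y
  have hVT' : V' ≤ T' := by rw [hV', hT']; exact sup_le_sup_right hVT Y
  have hiX : Indep X Y := hi.mono_left hEf hYf le_sup_left
  have hiT : Indep T Y := hi.mono_left hEf hYf le_sup_right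
  have hC' : Con V' T' := by rw [hV', hT']; exact hT.con hYf hiT
  obtain ⟨Q, C, hg⟩ := hE.exists_geo hVT hYf (hiE.mono_left (fin_sup hX hEff) hYf le_sup_right)
    (by rw [← hV', ← hT']; exact hC') hQ₀ hG₀
  obtain ⟨E₁, hE₁⟩ : ∃ E₁, E₁ = E ⊔ Q₀ := ⟨_, rfl⟩
  rw [← hV', ← hT', ← hE₁] at hg
  have hG := hg.galQ
  have hQ := hg.fin
  have hE₁f : Fin' E₁ := hE₁ ▸ fin_sup hEff hQ₀
  have hT'Q₀ : T' ≤ Q₀ := hT' ▸ hG₀.le
  have hx₀X' : Transcendental X' x₀ := by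
    rw [hX']
    exact trans_of_indep hEf hYf le_sup_left hi (mem_sup_right' hx₀T) hx₀
  have hTQ' : T' ≤ Q := hG.le
  have hTQ : T ≤ Q := (hT' ▸ le_sup_left : T ≤ T').trans hTQ'
  have hYQ : Y ≤ Q := (hT' ▸ le_sup_right : Y ≤ T').trans hTQ'
  have hx₀T' : x₀ ∈ T' := (hT' ▸ le_sup_left : T ≤ T') hx₀T
  have hEQ : X ⊔ E ⊔ Q₀ = X' ⊔ E₁ := by
    have hYQ₀ : Y ≤ Q₀ := (hT' ▸ le_sup_right : Y ≤ T').trans hT'Q₀
    rw [hX', hE₁]
    exact le_antisymm (sup_le (sup_le (le_sup_left.trans le_sup_left)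
      (le_sup_left.trans le_sup_right)) (le_sup_right.trans le_sup_right))
      (sup_le (sup_le (le_sup_left.trans le_sup_left) (hYQ₀.trans le_sup_right))
      (sup_le (le_sup_right.trans le_sup_left) le_sup_right))
  rw [hEQ] at hc ⊢
  replace hc : KGE (B ⊔ Y) (X' ⊔ Q) c := by
    refine kge_pull (fin_sup hX'f hQ) (sup_le_sup_left hg.EQ X') ?_ hc
    rw [alg_iff]
    exact sup_le (le_sup_left.trans le_cl) ((alg_iff.1 hG.alg).trans (cl_mono
      (hg.TE.trans le_sup_right)))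
  have h0' : KodairaGE k X' 0 := by
    rw [hX']
    exact kge_mono (Nat.zero_le _) (kge_prod hX hYf hiX h0 hY.kod)
  have hBX' : B ⊔ Y ≤ X' := by rw [hX']; exact sup_le_sup_right hBX Y
  -- the coordinate over a field of branch points
  have htrans : ∀ (P : IntermediateField k Ω) (x : Ω), Gal V' P →
      T' ⊔ P = P ⊔ IntermediateField.adjoin k {x} → Transcendental (X' ⊔ P : IntermediateField k Ω) x := by
    intro P x hGP hgen h
    have hcl : X' ⊔ P ≤ cl X' := sup_le le_cl ((alg_iff.1 hGP.alg).trans (cl_mono hVX'))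
    have h1 : P ⊔ IntermediateField.adjoin k {x} ≤ cl (X' ⊔ P) :=
      sup_le (le_sup_right.trans le_cl) (adjoin_one_le (mem_cl.2 h))
    have h2 : x₀ ∈ P ⊔ IntermediateField.adjoin k {x} := hgen ▸ mem_sup_left' hx₀T'
    exact hx₀X' (cl_idem hcl (mem_cl.1 (h1 h2)))
  have hpull : ∀ P : IntermediateField k Ω, Fin' P → Gal V' P →
      KGE (B ⊔ Y) (X' ⊔ P ⊔ Q) c := by
    intro P hP hGP
    refine kge_pull (fin_sup (fin_sup hX'f hP) hQ) (sup_le_sup_right le_sup_left Q) ?_ hc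
    rw [alg_iff]
    exact sup_le (sup_le (le_sup_left.trans le_cl) ((alg_iff.1 hGP.alg).trans
      (cl_mono (hVX'.trans le_sup_left)))) (le_sup_right.trans le_cl)
  -- at least three branch points
  obtain ⟨P₁, x₁, S₁, hP₁, hG₁, hx₁, hgen₁, hS₁, hbr₁⟩ := hC'.exists_big hV'f hQ hG
  obtain ⟨K₁, hK₁⟩ : ∃ K, K = X' ⊔ P₁ := ⟨_, rfl⟩
  obtain ⟨M₁, hM₁⟩ : ∃ M, M = K₁ ⊔ Q := ⟨_, rfl⟩
  have hK₁f : Fin' K₁ := hK₁ ▸ fin_sup hX'f hP₁
  have hM₁f : Fin' M₁ := hM₁ ▸ fin_sup hK₁f hQ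
  have hKM₁ : K₁ ≤ M₁ := hM₁ ▸ le_sup_left
  have hcM₁ : KGE (B ⊔ Y) M₁ c := by
    rw [hM₁, hK₁]
    exact hpull P₁ hP₁ hG₁
  obtain ⟨fKM₁, hκ₀⟩ := kge_fibre hM₁f (hBX'.trans (hK₁ ▸ le_sup_left)) hKM₁ hcM₁
  have hPK₁ : P₁ ≤ K₁ := hK₁ ▸ le_sup_right
  have hx₁K : Transcendental K₁ x₁ := hK₁ ▸ htrans P₁ x₁ hG₁ hgen₁
  have hGs₁ := gal_split hG hgen₁
  have hx₁M : x₁ ∈ M₁ := by
    have h1 : x₁ ∈ T' ⊔ P₁ := hgen₁ ▸ mem_sup_right' (mem_adjoin_one x₁)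
    rw [hM₁]
    exact (sup_le (hTQ'.trans le_sup_right) (hPK₁.trans le_sup_left) : T' ⊔ P₁ ≤ K₁ ⊔ Q) h1
  have hne₁ : (trip S₁).Nonempty := by
    have hKe : K₁ = K₁ ⊔ bp P₁ S₁ := by rw [bp_eq hS₁, sup_eq_left.2 hPK₁]
    have hMe : M₁ = K₁ ⊔ (Q ⊔ P₁) := by
      rw [hM₁]
      exact le_antisymm (sup_le le_sup_left (le_sup_left.trans le_sup_right)) (sup_le le_sup_left
        (sup_le le_sup_right (hPK₁.trans le_sup_left)))
    obtain ⟨r, hr2, -, -, hsum⟩ := Pl.exists_idx (V := P₁) (X := K₁) (Q := Q ⊔ P₁) (K := K₁)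
      (M := M₁) (bp_iff.2 hbr₁) hP₁ hK₁f (fin_sup hQ hP₁) hPK₁ hx₁K hGs₁
      (fun e he => alg_of_mem (hS₁ e he)) (fun σ hσ e he => by
        rw [hσ e (hS₁ e he)]
        exact he) hKe hMe hx₁M (Nat.zero_le 1) hκ₀
    obtain ⟨hcard, -⟩ := exists_weights (S := S₁) (r := r) hr2 (by simpa using hsum)
    exact trip_nonempty hcard
  obtain ⟨p₁, hp₁⟩ := hne₁
  obtain ⟨P, x, S, hT, hne⟩ := exists_tw hC' hQ hG hP₁ hG₁ hx₁ hgen₁ hS₁ hbr₁ hp₁
  have hPf := hT.fin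
  have hbp : bp P S = P := bp_eq hT.mem
  obtain ⟨K, hK⟩ : ∃ K, K = X' ⊔ P := ⟨_, rfl⟩
  have hKf : Fin' K := hK ▸ fin_sup hX'f hPf
  have hPK : P ≤ K := hK ▸ le_sup_right
  have hXK : X' ≤ K := hK ▸ le_sup_left
  have hxK : Transcendental K x := hK ▸ htrans P x hT.gal hT.gen
  have hQPf : Fin' (Q ⊔ P : IntermediateField k Ω) := fin_sup hQ hPf
  have hKQ : K ⊔ (Q ⊔ P) = K ⊔ Q := le_antisymm (sup_le le_sup_left (sup_le le_sup_right
    (hPK.trans le_sup_left))) (sup_le le_sup_left (le_sup_left.trans le_sup_right))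
  have hGs := gal_split hG hT.gen
  have hSa : ∀ e ∈ S, IsAlgebraic P e := fun e he => alg_of_mem (hT.mem e he)
  have hSσ : ∀ σ : Ω ≃ₐ[k] Ω, Fixes σ P → ∀ e ∈ S, σ e ∈ S := fun σ hσ e he => by
    rw [hσ e (hT.mem e he)]
    exact he
  obtain ⟨p, hp⟩ := hne
  -- the new curve
  obtain ⟨t, ht⟩ := hΩ (K ⊔ (Q ⊔ P)) (fin_sup hKf hQPf)
  obtain ⟨y₀, hty⟩ := IsAlgClosed.exists_pow_nat_eq (t ^ 5 - 1) (n := 2) (by norm_num)
  obtain ⟨Y₂, hY₂⟩ : ∃ Y₂, Y₂ = IntermediateField.adjoin k ({t, y₀} : Set Ω) := ⟨_, rfl⟩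
  have ht' : Transcendental (X' ⊔ Q : IntermediateField k Ω) t := fun h => ht (alg_mono
    (sup_le (hXK.trans le_sup_left) (le_sup_left.trans le_sup_right)) h)
  have htk : Transcendental k t := fun h => ht (h.tower_top (L := _))
  have htY : t ∈ Y₂ := hY₂ ▸ IntermediateField.subset_adjoin k _ (Or.inl rfl)
  have hYC : CurveProd Y₂ := ⟨1, fun _ => t, fun _ => y₀,
    algebraicIndependent_unique_type_iff.2 htk, fun _ => hty, by rw [hY₂, ← range_one]⟩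
  have hY₂f := hYC.fin
  have hY₂d : dimension k Y₂ = 1 := by
    have h1 := dim_gens (k := k) (m := 1) (x := fun _ => t) (y := fun _ => y₀) (fun _ => hty)
      (algebraicIndependent_unique_type_iff.2 htk)
    rw [← range_one] at h1
    rw [hY₂]
    exact h1
  have hi₂ : Indep (X' ⊔ Q) Y₂ := Et.indep_curve (fin_sup hX'f hQ) hY₂f hY₂d htY ht'
  have hi₂' : Indep X' Y₂ := hi₂.mono_left (fin_sup hX'f hQ) hY₂f le_sup_left
  have htA : ∀ y ∈ Y₂, IsAlgebraic (IntermediateField.adjoin k ({t} : Set Ω)) y := by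
    rw [alg_iff, hY₂, IntermediateField.adjoin_le_iff]
    rintro y (rfl | hy)
    · exact le_cl (mem_adjoin_one y)
    · rw [Set.mem_singleton_iff] at hy
      subst hy
      refine mem_cl.2 (IsAlgebraic.of_pow (n := 2) (by norm_num) ?_)
      rw [hty]
      exact alg_of_mem (sub_mem (pow_mem (mem_adjoin_one t) 5) (one_mem _))
  -- the covering field
  obtain ⟨ψ, R, hC⟩ := exists_cover (V := P) (X := K) (Q := Q ⊔ P) hPf hKf hQPf hY₂f hPK hxK hGs
    hSa hSσ htY ht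
  have hcK : KGE (B ⊔ Y) (K ⊔ (Q ⊔ P)) c := by
    rw [hKQ, hK]
    exact hpull P hPf hT.gal
  obtain ⟨c', δ, hδ, hcδ, hκ, hcR⟩ := up_cover hC hPf hKf hQPf (hBX'.trans hXK) hPK hxK hGs hSa htY
    htA hp hcK
  rw [hbp, sup_eq_left.2 hPK, hKQ] at hκ
  have hGR : Gal (V' ⊔ Y₂) R := by
    rw [hK] at hC
    exact hT.cover_gal hVT' hG hC htY
  have hPR : P ≤ R := hbp ▸ hC.le
  have hYR : Y ≤ R := (hV' ▸ le_sup_right : Y ≤ V').trans (le_sup_left.trans hGR.le)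
  have hKR : K ⊔ R = X ⊔ R := by
    rw [hK, hX']
    exact le_antisymm (sup_le (sup_le (sup_le le_sup_left (hYR.trans le_sup_right))
      (hPR.trans le_sup_right)) le_sup_right)
      (sup_le (le_sup_left.trans (le_sup_left.trans le_sup_left)) le_sup_right)
  have hXR : X' ⊔ R = X ⊔ R := by
    rw [hX']
    exact le_antisymm (sup_le (sup_le le_sup_left (hYR.trans le_sup_right)) le_sup_right)
      (sup_le (le_sup_left.trans le_sup_left) le_sup_right)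
  have hiY : Indep Y Y₂ := hi₂'.mono_left hX'f hY₂f (hX' ▸ le_sup_right)
  have hdYY : dimension k (Y ⊔ Y₂ : IntermediateField k Ω) = dimension k Y + dimension k Y₂ := hiY
  have hiXY : Indep X (Y ⊔ Y₂) := by
    have h1 : dimension k (X' ⊔ Y₂ : IntermediateField k Ω) = dimension k X' + dimension k Y₂ :=
      hi₂'
    have h2 : dimension k (X ⊔ Y : IntermediateField k Ω) = dimension k X + dimension k Y := hiX
    unfold Indep
    rw [← sup_assoc, ← hX', h1, hX', h2, hdYY]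
    ring
  have h1 : KodairaGE k (X ⊔ R : IntermediateField k Ω)
      (b + c' + dimension k (Y ⊔ Y₂ : IntermediateField k Ω)) := by
    refine hO (Y ⊔ Y₂) R (hY.sup hYC hiY) hiXY hC.fin ?_ b c' hb ?_
    · rw [← sup_assoc, ← hV']
      exact hGR
    · rw [← sup_assoc, ← hKR]
      exact hcR
  rw [← hXR] at h1
  rw [hK] at hC hκ
  have h2 := hg.line_down hT hVT' ⟨p, hp⟩ hC hX'f hVX' hx₀T' hx₀X' hty hY₂ ht' h0' hδ hκ h1
  obtain ⟨a, b₂, hab, ha, hb₂⟩ := kge_prod_upper' (fin_sup hX'f hE₁f) hY₂f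
    (hi₂.mono_left (fin_sup hX'f hQ) hY₂f (sup_le_sup_left hg.EQ X')) h2
  haveI : Algebra.EssFiniteType k Y₂ := hY₂f
  have h3 := hb₂.le_dimension
  exact kge_mono (by omega) ha

/-- **The step of a family of geometrically Galois covers.** -/
theorem OverC.geo {B V X T E : IntermediateField k Ω} (hO : OverC B V X) (hX : Fin' X)
    (h0 : KodairaGE k X 0)
    (hΩ : ∀ A : IntermediateField k Ω, Fin' A → ∃ t : Ω, Transcendental A t) (hT : Ruled V T)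
    (ht : ∃ t ∈ T, Transcendental X t) (hE : GeoGal V T E) : OverC B T (X ⊔ E) :=
  OverC.uni hO hX h0 hΩ hT ht (hE.uni hT.le)

end Pf72953.Pl
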