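import Mathlib
import Pool.Agent.Lib.Pf72953n.FibF
import Pool.Agent.Lib.Pf72953n.GeoO

/-!
Towers of families of curves with uniform ramification and of isotrivial fibre spaces whose fibres have factorial charts, over
stable fibre spaces.
-/

set_option autoImplicit false
set_option linter.style.haveILetI false

open scoped WithZero
open Pf72953 Pf72953.Mov Pf72953.Tow Pf72953.Pl

namespace Pf72953.Un

variable {k Ω : Type*} [Field k] [Field Ω] [Algebra k Ω]

/-- `E → V` is a tower of fibre spaces with fibres of Kodaira dimension `≥ 0`.  It starts with a finite Galois cover `X` of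
`W = V`, `κ(X/B) ≥ 0`.  Every further step `X' → X` is the pull-back `X ×_W (E ×_T Q)` of a family of curves, of genus `≥ 1` over
`X`: `T → W` is a family of rational curves, `E → W` a cover of `T` with uniform ramification (for example `E = T`), `Q` any
finite Galois cover of `T` (then `W` is replaced by `T`); the pull-back `X ×_W E` of an isotrivial fibre space `E = (M × P)/H → W`,
`κ(M) ≥ 0`, `M` with factorial charts (then `W` is replaced by `E`); an isotrivial fibre space `(G × (X ×_W P))/H → X₁`,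
`κ(G) ≥ 0`, `P` a finite Galois cover of `W`, `X₁` a finite cover of `X`; or a cover `X ×_W P`; or `X` is replaced by `X₁ → W`
such that `X` and `X₁` have a common finite Galois cover which is unramified at all divisorial valuations. -/
inductive FibreTower [CharZero k] (B V : IntermediateField k Ω) :
    IntermediateField k Ω → IntermediateField k Ω → Prop
  | base {X : IntermediateField k Ω} : Fin' X → Gal V X → relKod B X ≠ ⊥ → FibreTower B V V X
  | curve {W X T E Q : IntermediateField k Ω} : FibreTower B V W X → Ruled W T →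
      (∃ t ∈ T, Transcendental X t) → Uni W T E → Fin' Q → Gal T Q →
      relKod X (X ⊔ E ⊔ Q) ≠ ⊥ → FibreTower B V T (X ⊔ E ⊔ Q)
  | factorial {W X E M P : IntermediateField k Ω} : FibreTower B V W X → FactorialStep W E M P →
      Indep M (X ⊔ P) → FibreTower B V E (X ⊔ E)
  | isotrivial {W X X₁ E G P : IntermediateField k Ω} : FibreTower B V W X → Gal W P → X ≤ X₁ →
      Step X₁ E G (X ⊔ P) → kodairaDim k G ≠ ⊥ → FibreTower B V W E
  | cover {W X P : IntermediateField k Ω} : FibreTower B V W X → Fin' P → Gal W P →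
      FibreTower B V W (X ⊔ P)
  | etale {W X X₁ : IntermediateField k Ω} : FibreTower B V W X → W ≤ X₁ → Commens X X₁ →
      FibreTower B V W X₁

section

variable [CharZero k] [IsAlgClosed k] [IsAlgClosed Ω]

omit [CharZero k] [IsAlgClosed k] [IsAlgClosed Ω] in
theorem uni_self {V T : IntermediateField k Ω} (h : Ruled V T) : Uni V T T :=
  ⟨h.fin, le_rfl, h.closed, T, h.fin, gal_refl, le_rfl, fun _ _ z hz => ⟨z, z.2, hz, le_rfl⟩⟩

/-- a family of curves with uniform ramification -/
theorem over_family {B W X T E Q : IntermediateField k Ω} (hO : OverC B W X) (hX : Fin' X)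
    (hE : Uni W T E) (hQ : Fin' Q) (h0 : KodairaGE k X 0)
    (hΩ : ∀ A : IntermediateField k Ω, Fin' A → ∃ t : Ω, Transcendental A t)
    (hT : Ruled W T) (ht : ∃ t ∈ T, Transcendental X t) (hG : Gal T Q) :
    OverC B T (X ⊔ E ⊔ Q) :=
  (Pl.OverC.uni hO hX h0 hΩ hT ht hE).sup (fin_sup hX hE.fin) hQ hG

/-- Iitaka's inequality for a family of curves with uniform ramification -/
theorem iitaka_family {W X T E Q : IntermediateField k Ω} (hX : Fin' X) (hWX : W ≤ X)
    (hE : Uni W T E) (hQ : Fin' Q) (h0 : KodairaGE k X 0)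
    (hΩ : ∀ A : IntermediateField k Ω, Fin' A → ∃ t : Ω, Transcendental A t)
    (hT : Ruled W T) (ht : ∃ t ∈ T, Transcendental X t) (hG : Gal T Q) :
    Iitaka X (X ⊔ E ⊔ Q) :=
  ((over_iff (fin_sup (fin_sup hX hE.fin) hQ)).2
    (over_family (Fb.overC_top hX hWX) hX hE hQ h0 hΩ hT ht hG)).iitaka
    (fin_sup (fin_sup hX hE.fin) hQ)

omit [IsAlgClosed k] [IsAlgClosed Ω] in
theorem FibreTower.fin {B V W X : IntermediateField k Ω} (h : FibreTower B V W X) :
    Fin' V ∧ Fin' W ∧ Fin' X := by
  induction h with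
  | base hX hG _ => exact ⟨fin_le hX hG.le, fin_le hX hG.le, hX⟩
  | curve _ hT _ hE hQ _ _ ih => exact ⟨ih.1, hT.fin, fin_sup (fin_sup ih.2.2 hE.fin) hQ⟩
  | factorial _ hS _ ih => exact ⟨ih.1, hS.finE, fin_sup ih.2.2 hS.finE⟩
  | isotrivial _ _ _ hS _ ih => exact ⟨ih.1, ih.2.1, hS.finE⟩
  | cover _ hP _ ih => exact ⟨ih.1, ih.2.1, fin_sup ih.2.2 hP⟩
  | etale _ _ he ih => exact ⟨ih.1, ih.2.1, he.fin⟩

omit [IsAlgClosed k] [IsAlgClosed Ω] in
theorem FibreTower.le {B V W X : IntermediateField k Ω} (h : FibreTower B V W X) : V ≤ W := by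
  induction h with
  | base _ _ _ => exact le_rfl
  | curve _ hT _ _ _ _ _ ih => exact ih.trans hT.le
  | factorial _ hS _ ih => exact ih.trans hS.le_E
  | isotrivial _ _ _ _ _ ih => exact ih
  | cover _ _ _ ih => exact ih
  | etale _ _ _ ih => exact ih

omit [IsAlgClosed k] [IsAlgClosed Ω] in
/-- the towers of Galois families of curves -/
theorem _root_.Pf72953.Fb.FibreTower.uni {B V W X : IntermediateField k Ω}
    (h : Fb.FibreTower B V W X) : FibreTower B V W X := by
  induction h with
  | base hX hG hr => exact .base hX hG hr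
  | @curve W X T Q _ hT ht hQ hG hr ih =>
    have h1 : X ⊔ T ⊔ Q = X ⊔ Q := by rw [sup_assoc, sup_eq_right.2 hG.le]
    have h2 := ih.curve hT ht (uni_self hT) hQ hG (by rw [h1]; exact hr)
    rwa [h1] at h2
  | factorial _ hS hi ih => exact ih.factorial hS hi
  | isotrivial _ hG hX hS hk ih => exact ih.isotrivial hG hX hS hk
  | cover _ hP hG ih => exact ih.cover hP hG
  | etale _ hW he ih => exact ih.etale hW he

theorem FibreTower.over {B V W X : IntermediateField k Ω} (h : FibreTower B V W X)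
    (hΩ : ∀ A : IntermediateField k Ω, Fin' A → ∃ t : Ω, Transcendental A t)
    (hS : StableFib B V) (hB : KodairaGE k B 0) : OverC B W X ∧ KodairaGE k X 0 := by
  induction h with
  | base hX hG hr =>
    have hV : Fin' V := fin_le hX hG.le
    have h1 := ((over_iff hV).1 (over_self.2 hS)).sup hV hX hG
    rw [sup_eq_right.2 hG.le] at h1
    exact ⟨h1, kge_zero_of_relKod hX (((over_iff hX).2 h1).iitaka hX) hB hr⟩
  | @curve W X T E Q hF hT ht hE hQ hG hr ih =>
    obtain ⟨hO, h0⟩ := ih
    have hX := hF.fin.2.2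
    exact ⟨over_family hO hX hE hQ h0 hΩ hT ht hG,
      kge_zero_of_relKod (fin_sup (fin_sup hX hE.fin) hQ)
        (iitaka_family hX hO.2.1 hE hQ h0 hΩ hT ht hG) h0 hr⟩
  | @factorial W X E M P hF hS' hi ih =>
    obtain ⟨hO, h0⟩ := ih
    have hX := hF.fin.2.2
    have hM' := (kge_zero_iff hS'.fgM).1 hS'.kod
    exact ⟨hO.rigidF hX hS'.toStep hi h0 hM' hS'.fac, hS'.toStep.kod_supX hX hO.2.1 hi h0 hM'⟩
  | @isotrivial W X X₁ E G P hF hG hXX hS' hk ih =>
    obtain ⟨hO, h0⟩ := ih
    have hX := hF.fin.2.2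
    refine ⟨hO.isotrivial h0 hG hXX hS', hS'.kod_E ((kge_zero_iff hS'.fgM).1 hk)
      (kge_pull' hS'.finV hXX (alg_iff.2 (hS'.le_P.trans (sup_le le_cl
        ((alg_iff.1 hG.alg).trans (cl_mono hO.2.1))))) h0)⟩
  | @cover W X P hF hP hG ih =>
    obtain ⟨hO, h0⟩ := ih
    have hX := hF.fin.2.2
    exact ⟨hO.sup hX hP hG, kge_pull' (fin_sup hX hP) le_sup_left (alg_iff.2 (sup_le le_cl
      ((alg_iff.1 hG.alg).trans (cl_mono hO.2.1)))) h0⟩
  | @etale W X X₁ hF hW he ih =>
    obtain ⟨hO, h0⟩ := ih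
    exact ⟨hO.commens he ((hS.1.trans hF.le).trans hW) hW, he.kge h0⟩

/-- **Iitaka's inequality for towers of families of curves with uniform ramification and of isotrivial fibre spaces over stable
fibre spaces** -/
theorem FibreTower.iitaka {B V W E : IntermediateField k Ω} (h : FibreTower B V W E)
    (hΩ : ∀ A : IntermediateField k Ω, Fin' A → ∃ t : Ω, Transcendental A t)
    (hS : StableFib B V) : Iitaka B E := by
  by_cases h0 : kodairaDim k B = ⊥
  · exact iitaka_of_bot h0
  · have hE := h.fin.2.2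
    obtain ⟨hO, -⟩ := h.over hΩ hS ((kge_zero_iff (fin_le h.fin.1 hS.1)).1 h0)
    exact ((over_iff hE).2 hO).iitaka hE

theorem fibreDim_fibreTower
    (hΩ : ∀ A : IntermediateField k Ω, Fin' A → ∃ t : Ω, Transcendental A t) (d : ℕ) :
    IitakaFibreDim k Ω d ↔ ∀ B V W E : IntermediateField k Ω, B ≤ V →
      dimension k V ≤ dimension k B + d → FibreTower B V W E → Iitaka B E :=
  ⟨fun hI _ _ _ _ hBV hd h => h.iitaka hΩ (stableFib_of_dim hI h.fin.1 hBV hd),
    fun h => (Fb.fibreDim_fibreTower hΩ d).2 fun B V W E hBV hd hF => h B V W E hBV hd hF.uni⟩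

theorem fibreKod_fibreTower
    (hΩ : ∀ A : IntermediateField k Ω, Fin' A → ∃ t : Ω, Transcendental A t) (d : ℕ) :
    IitakaFibreKod k Ω d ↔ ∀ B V W E : IntermediateField k Ω, B ≤ V →
      (dimension k V : WithBot ℕ∞) ≤ dimension k B + d + relKod B V →
      FibreTower B V W E → Iitaka B E :=
  ⟨fun hI _ _ _ _ hBV hd h => h.iitaka hΩ (stableFib_of_kod hI h.fin.1 hBV hd),
    fun h => (Fb.fibreKod_fibreTower hΩ d).2 fun B V W E hBV hd hF => h B V W E hBV hd hF.uni⟩

end

end Pf72953.Un
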