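import Mathlib
import Pool.Agent.Lib.Pf72953n.GalProd
import Pool.Agent.Lib.Pf72953n.Tower

/-!
Iitaka's inequality for fibre spaces `V → B` of relative dimension `≤ d` (of general type) is equivalent to the inequality for the
towers of Galois families of curves over them.
-/

set_option autoImplicit false
set_option linter.style.haveILetI false

open scoped WithZero
open Pf72953 Pf72953.Mov Pf72953.Tow

namespace Pf72953.Pl

variable {k Ω : Type*} [Field k] [CharZero k] [IsAlgClosed k] [Field Ω] [IsAlgClosed Ω] [Algebra k Ω]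

theorem iitakaFibreDim_iff
    (hΩ : ∀ A : IntermediateField k Ω, Fin' A → ∃ t : Ω, Transcendental A t) (d : ℕ) :
    IitakaFibreDim k Ω d ↔
      ∀ (B V E : IntermediateField k Ω) (n : ℕ) (x : Fin n → Ω), B ≤ V →
        dimension k V ≤ dimension k B + d → Fin' E → AlgebraicIndependent V x →
        Gal (coords V x n) E → (∀ i < n, relKod B (stage V E x i) ≠ ⊥) → Iitaka B E := by
  constructor
  · intro hI B V E n x hBV hd hE hx hG h0
    have hV : Fin' V := fin_le hE (le_sup_left.trans hG.le)
    exact iitaka_galois hV (stableFib_of_dim hI hV hBV hd) hE hx hG hΩ h0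
  · intro h K Q hQ hKQ _ hd
    refine h K Q Q 0 Fin.elim0 hKQ hd hQ (algebraicIndependent_empty_type) ?_
      fun i hi => absurd hi (Nat.not_lt_zero i)
    rw [coords_zero]
    exact gal_refl

theorem iitakaFibreDim_iff_tower
    (hΩ : ∀ A : IntermediateField k Ω, Fin' A → ∃ t : Ω, Transcendental A t) (d : ℕ) :
    IitakaFibreDim k Ω d ↔
      ∀ B V W E : IntermediateField k Ω, Fin' V → B ≤ V → dimension k V ≤ dimension k B + d →
        FibTower B V W E → Iitaka B E := by
  constructor
  · intro hI B V W E hV hBV hd hT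
    exact hT.iitaka hΩ hV (stableFib_of_dim hI hV hBV hd)
  · intro h K Q hQ hKQ _ hd
    exact h K Q Q Q hQ hKQ hd FibTower.base

theorem iitakaGeneralType_iff
    (hΩ : ∀ A : IntermediateField k Ω, Fin' A → ∃ t : Ω, Transcendental A t) :
    IitakaGeneralType k Ω ↔
      ∀ (B V E : IntermediateField k Ω) (n d : ℕ) (x : Fin n → Ω), B ≤ V →
        dimension k V = dimension k B + d → relKod B V = d → Fin' E → AlgebraicIndependent V x →
        Gal (coords V x n) E → (∀ i < n, relKod B (stage V E x i) ≠ ⊥) → Iitaka B E := by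
  constructor
  · intro hI B V E n d x hBV hd hVd hE hx hG h0
    have hV : Fin' V := fin_le hE (le_sup_left.trans hG.le)
    exact iitaka_galois hV (stableFib_of_general hI hV hBV hd hVd) hE hx hG hΩ h0
  · intro h K Q hQ hKQ _ d hd hQd
    refine h K Q Q 0 d Fin.elim0 hKQ hd hQd hQ (algebraicIndependent_empty_type) ?_
      fun i hi => absurd hi (Nat.not_lt_zero i)
    rw [coords_zero]
    exact gal_refl

theorem iitakaGeneralType_iff_tower
    (hΩ : ∀ A : IntermediateField k Ω, Fin' A → ∃ t : Ω, Transcendental A t) :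
    IitakaGeneralType k Ω ↔
      ∀ (B V W E : IntermediateField k Ω) (d : ℕ), Fin' V → B ≤ V →
        dimension k V = dimension k B + d → relKod B V = d → FibTower B V W E → Iitaka B E := by
  constructor
  · intro hI B V W E d hV hBV hd hVd hT
    exact hT.iitaka hΩ hV (stableFib_of_general hI hV hBV hd hVd)
  · intro h K Q hQ hKQ _ d hd hQd
    exact h K Q Q Q d hQ hKQ hd hQd FibTower.base

end Pf72953.Pl
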