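import Mathlib
import Pool.Agent.Lib.Pf72953b.Inertia
import Pool.Agent.Lib.Pf72953j.Iner
import Pool.Agent.Lib.Pf72953y.Det

/-!
Inertia groups: `X/M` unramified, `N/X` Galois; then the inertial automorphisms of `N/M` are trivial on `X`.
-/

set_option autoImplicit false
set_option linter.style.haveILetI false

open scoped WithZero
open Pf72953

namespace Pf72953.Pl

open Pf72953.Br.InertiaAux

section val

variable {K L : Type*} [Field K] [Field L] [Algebra K L]

/-- some combination of the conjugates of `s` has the value of `s`, if `s` is fixed by the inertia group -/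
theorem exists_c_fixed [FiniteDimensional K L] {w : Valuation L ℤᵐ⁰}
    (hn : ∀ n : ℕ, n ≠ 0 → w (n : L) = 1) {s : L} (hs : s ≠ 0)
    (hI : ∀ σ : L ≃ₐ[K] L, (∀ z, w z ≤ 1 → w (σ z - z) < 1) → σ s = s)
    (D : Finset (L ≃ₐ[K] L)) (hD : ∀ σ ∈ D, Dc w σ) (h1D : (1 : L ≃ₐ[K] L) ∈ D) :
    ∃ c : L, w c ≤ 1 ∧ w (∑ σ ∈ D, σ (c * s)) = w s := by
  classical
  have hws : w s ≠ 0 := (Valuation.ne_zero_iff w).2 hs
  have hu : ∀ σ ∈ D, w (σ s / s) ≤ 1 := by
    intro σ hσ
    rw [map_div₀, Dc_eq (hD σ hσ), div_self hws]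
  by_contra hcon
  push Not at hcon
  let f : {σ // σ ∈ D} → (w.valuationSubring →* IsLocalRing.ResidueField w.valuationSubring) :=
    fun σ => (chi w σ.1 (hD σ.1 σ.2) : _ →* _)
  let a : {σ // σ ∈ D} → IsLocalRing.ResidueField w.valuationSubring := fun σ =>
    IsLocalRing.residue w.valuationSubring ⟨σ.1 s / s, hu σ.1 σ.2⟩
  -- the relation
  have hrel : ∀ x : w.valuationSubring, ∑ σ : {σ // σ ∈ D}, a σ * f σ x = 0 := by
    intro x
    have h4 := hcon x.1 x.2
    have hle : w (∑ σ ∈ D, σ (x.1 * s)) ≤ w s := by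
      refine Valuation.map_sum_le w fun σ hσ => ?_
      rw [Dc_eq (hD σ hσ), map_mul]
      exact mul_le_of_le_one_left zero_le x.2
    have hlt : w ((∑ σ ∈ D, σ (x.1 * s)) / s) < 1 := by
      rw [map_div₀, div_lt_one₀ (zero_lt_iff.2 hws)]
      exact lt_of_le_of_ne hle h4
    have h5 : (∑ σ : {σ // σ ∈ D}, a σ * f σ x) = IsLocalRing.residue w.valuationSubring
          ⟨(∑ σ ∈ D, σ (x.1 * s)) / s, hlt.le⟩ := by
      change (∑ σ : {σ // σ ∈ D}, IsLocalRing.residue w.valuationSubring ⟨σ.1 s / s, hu σ.1 σ.2⟩ *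
        chi w σ.1 (hD σ.1 σ.2) x) = _
      unfold chi
      simp only [RingHom.comp_apply]
      simp only [← map_mul, ← map_sum]
      congr 1
      apply Subtype.ext
      refine Eq.trans ?_ (b := ∑ σ : {σ // σ ∈ D}, (σ.1 s / s) * (σ.1 x.1)) ?_
      · rw [AddSubmonoidClass.coe_finsetSum]
        rfl
      · show _ = (∑ σ ∈ D, σ (x.1 * s)) / s
        rw [← Finset.sum_attach D, Finset.sum_div]
        refine Finset.sum_congr rfl fun σ _ => ?_
        rw [map_mul]
        ring
    rw [h5, IsLocalRing.residue_eq_zero_iff, Valuation.mem_maximalIdeal_iff]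
    exact hlt
  -- linear independence of the distinct characters
  have hlin := linearIndependent_monoidHom w.valuationSubring
    (IsLocalRing.ResidueField w.valuationSubring)
  rw [linearIndependent_iff'] at hlin
  have h1 := hlin (Finset.univ.image f) (fun χ => ∑ σ ∈ Finset.univ.filter (fun σ => f σ = χ), a σ)
    ?_ (f ⟨1, h1D⟩) (Finset.mem_image_of_mem f (Finset.mem_univ _))
  · have h2 : ∀ σ ∈ Finset.univ.filter (fun σ => f σ = f ⟨1, h1D⟩), a σ = 1 := by
      intro σ hσ
      have h3 := (Finset.mem_filter.1 hσ).2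
      have h4 : σ.1 s = s := by
        refine hI σ.1 fun z hz => ?_
        have h5 : chi w σ.1 (hD σ.1 σ.2) ⟨z, hz⟩ = chi w 1 (hD 1 h1D) ⟨z, hz⟩ :=
          DFunLike.congr_fun h3 (⟨z, hz⟩ : w.valuationSubring)
        rw [chi_eq_iff] at h5
        exact h5
      change IsLocalRing.residue w.valuationSubring ⟨σ.1 s / s, hu σ.1 σ.2⟩ = 1
      have h5 : (⟨σ.1 s / s, hu σ.1 σ.2⟩ : w.valuationSubring) = 1 := by
        apply Subtype.ext
        change σ.1 s / s = 1
        rw [h4, div_self hs]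
      rw [h5, map_one]
    rw [Finset.sum_congr rfl h2, Finset.sum_const, nsmul_eq_mul, mul_one] at h1
    set m := (Finset.univ.filter (fun σ => f σ = f ⟨1, h1D⟩)).card with hm
    have hm0 : m ≠ 0 := by
      rw [hm, Finset.card_ne_zero]
      exact ⟨⟨1, h1D⟩, Finset.mem_filter.2 ⟨Finset.mem_univ _, rfl⟩⟩
    have h3 : IsLocalRing.residue w.valuationSubring (m : w.valuationSubring) = 0 := by
      rw [map_natCast]
      exact h1
    rw [IsLocalRing.residue_eq_zero_iff, Valuation.mem_maximalIdeal_iff] at h3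
    have h4 : w (m : L) < 1 := h3
    rw [hn m hm0] at h4
    exact lt_irrefl _ h4
  · ext x
    have h2 := hrel x
    rw [← Finset.sum_fiberwise_of_maps_to (g := f) (t := Finset.univ.image f)
      (fun σ _ => Finset.mem_image_of_mem f (Finset.mem_univ σ))] at h2
    simp only [Finset.sum_apply, Pi.smul_apply, smul_eq_mul, Pi.zero_apply]
    rw [← h2]
    refine Finset.sum_congr rfl fun χ _ => ?_
    rw [Finset.sum_mul]
    refine Finset.sum_congr rfl fun σ hσ => ?_
    rw [(Finset.mem_filter.1 hσ).2]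

/-- an element which is fixed by the inertia group has the value of an element of `K` -/
theorem exists_val_of_fixed [FiniteDimensional K L] [IsGalois K L]
    {w : Valuation L ℤᵐ⁰} (hn : ∀ n : ℕ, n ≠ 0 → w (n : L) = 1) {s : L} (hs0 : s ≠ 0)
    (hs : ∀ σ : L ≃ₐ[K] L, (∀ z, w z ≤ 1 → w (σ z - z) < 1) → σ s = s) :
    ∃ t : K, w (algebraMap K L t) = w s := by
  classical
  by_cases htriv : ∃ a : L, a ≠ 0 ∧ w a ≠ 1
  swap
  · push Not at htriv
    exact ⟨1, by rw [map_one, map_one, htriv s hs0]⟩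
  obtain ⟨p, hp⟩ := exists_unif w htriv
  have hwp0 : 0 < w p := zero_lt_iff.2 ((Valuation.ne_zero_iff w).2 hp.ne_zero)
  have hws : w s ≠ 0 := (Valuation.ne_zero_iff w).2 hs0
  have hws0 : 0 < w s := zero_lt_iff.2 hws
  set D : Finset (L ≃ₐ[K] L) := Finset.univ.filter (fun σ => Dc w σ) with hDdef
  have hD : ∀ σ ∈ D, Dc w σ := fun σ hσ => (Finset.mem_filter.1 hσ).2
  have h1D : (1 : L ≃ₐ[K] L) ∈ D := Finset.mem_filter.2 ⟨Finset.mem_univ _, fun z hz => hz⟩
  obtain ⟨c, hc1, hc⟩ := exists_c_fixed hn hs0 hs D hD h1D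
  set a : L := c * s with ha
  have hwa : w a ≤ w s := by
    rw [ha, map_mul]
    exact mul_le_of_le_one_left zero_le hc1
  have h0 : ∃ y, 1 < w y := ⟨p⁻¹, by rw [map_inv₀]; exact (one_lt_inv₀ hwp0).2 hp.lt_one⟩
  have hsep : ∀ τ ∈ (Finset.univ \ D), ∃ y, 1 < w y ∧ (w.comap (τ : L →+* L)) y < 1 := by
    intro τ hτ
    have hτ' : ¬ Dc w τ := fun h => (Finset.mem_sdiff.1 hτ).2 (Finset.mem_filter.2 ⟨Finset.mem_univ _, h⟩)
    unfold Dc at hτ'
    push Not at hτ'
    obtain ⟨z, hz1, hz2⟩ := hτ'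
    have hz0 : z ≠ 0 := by
      rintro rfl
      rw [map_zero, map_zero] at hz2
      exact absurd hz2 (not_lt.2 zero_le)
    have hinv : w (τ z⁻¹) < 1 := by
      rw [map_inv₀, map_inv₀]
      exact inv_lt_one_of_one_lt₀ hz2
    obtain ⟨n, hn⟩ := pow_arch (w (τ p⁻¹)) hinv
    refine ⟨(z⁻¹) ^ n * p⁻¹, ?_, ?_⟩
    · rw [map_mul, map_pow]
      refine one_lt_mul_of_le_of_lt (one_le_pow₀ ?_) ?_
      · rw [map_inv₀]
        exact (one_le_inv₀ (zero_lt_iff.2 ((Valuation.ne_zero_iff w).2 hz0))).2 hz1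
      · rw [map_inv₀]
        exact (one_lt_inv₀ hwp0).2 hp.lt_one
    · rw [Valuation.comap_apply, map_mul, map_pow, map_mul, map_pow]
      exact hn n le_rfl
  obtain ⟨e, he1, he2⟩ := approx w h0 (Finset.univ \ D) (fun τ => w.comap (τ : L →+* L)) hsep
    (fun τ => w (τ a) * (w s)⁻¹)
  refine ⟨Algebra.trace K L (e * a), ?_⟩
  have htr : algebraMap K L (Algebra.trace K L (e * a)) = ∑ σ : L ≃ₐ[K] L, σ (e * a) :=
    trace_eq_sum_automorphisms (K := K) (e * a)
  have hsplit : algebraMap K L (Algebra.trace K L (e * a)) = (∑ σ ∈ D, σ a) +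
      ((∑ σ ∈ D, σ ((e - 1) * a)) + ∑ σ ∈ Finset.univ \ D, σ (e * a)) := by
    rw [htr, ← Finset.sum_sdiff (Finset.subset_univ D), ← add_assoc, ← Finset.sum_add_distrib,
      add_comm]
    congr 1
    refine Finset.sum_congr rfl fun σ _ => ?_
    rw [← map_add]
    congr 1
    ring
  have hr1 : w (∑ σ ∈ D, σ ((e - 1) * a)) < w s := by
    refine Valuation.map_sum_lt w hws fun σ hσ => ?_
    rw [Dc_eq (hD σ hσ), map_mul]
    calc w (e - 1) * w a ≤ w (e - 1) * w s := mul_le_mul_right hwa _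
      _ < 1 * w s := mul_lt_mul_of_pos_right he1 hws0
      _ = w s := one_mul _
  have hr2 : w (∑ σ ∈ Finset.univ \ D, σ (e * a)) < w s := by
    refine Valuation.map_sum_lt w hws fun σ hσ => ?_
    have h1 := he2 σ hσ
    rw [Valuation.comap_apply, ← mul_assoc] at h1
    rw [map_mul, map_mul]
    have h2 := mul_lt_mul_of_pos_right h1 hws0
    rw [mul_assoc _ (w s)⁻¹, inv_mul_cancel₀ hws, mul_one, one_mul] at h2
    exact h2
  have hr : w ((∑ σ ∈ D, σ ((e - 1) * a)) + ∑ σ ∈ Finset.univ \ D, σ (e * a)) < w (∑ σ ∈ D, σ a) := by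
    rw [hc]
    exact Valuation.map_add_lt w hr1 hr2
  rw [hsplit, w.map_add_eq_of_lt_left hr, hc]

end val

section comm

variable {K L : Type*} [Field K] [Field L] [Algebra K L]

/-- an inertial automorphism preserves the values -/
theorem inertial_val [FiniteDimensional K L] {w : Valuation L ℤᵐ⁰} {σ : L ≃ₐ[K] L}
    (hσ : ∀ z, w z ≤ 1 → w (σ z - z) < 1) (z : L) : w (σ z) = w z := by
  refine Dc_eq (fun z hz => ?_) z
  have h1 : σ z = (σ z - z) + z := by ring
  rw [h1]
  exact (w.map_add _ _).trans (max_le (hσ z hz).le hz)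

/-- the inertia group is commutative (residue characteristic `0`) -/
theorem inertial_comm [FiniteDimensional K L] {w : Valuation L ℤᵐ⁰}
    (hn : ∀ n : ℕ, n ≠ 0 → w (n : L) = 1) {g h : L ≃ₐ[K] L}
    (hg : ∀ z, w z ≤ 1 → w (g z - z) < 1) (hh : ∀ z, w z ≤ 1 → w (h z - z) < 1) :
    g * h = h * g := by
  -- `σ τ t ≡ (σ t / t) (τ t / t) t`
  have key : ∀ σ τ : L ≃ₐ[K] L, (∀ z, w z ≤ 1 → w (σ z - z) < 1) →
      (∀ z, w z ≤ 1 → w (τ z - z) < 1) → ∀ t : L, t ≠ 0 →
      w (σ (τ t) - σ t / t * (τ t / t) * t) < w t := by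
    intro σ τ hσ hτ t ht
    have hwt : 0 < w t := zero_lt_iff.2 ((Valuation.ne_zero_iff w).2 ht)
    have h1 : w (τ t / t) ≤ 1 := by
      rw [map_div₀, inertial_val hτ, div_self hwt.ne']
    have h2 : σ (τ t) - σ t / t * (τ t / t) * t = (σ (τ t / t) - τ t / t) * σ t := by
      have h3 : σ (τ t) = σ (τ t / t) * σ t := by
        rw [← map_mul, div_mul_cancel₀ _ ht]
      rw [h3]
      field_simp
    rw [h2, map_mul, inertial_val hσ]
    calc w (σ (τ t / t) - τ t / t) * w t < 1 * w t := mul_lt_mul_of_pos_right (hσ _ h1) hwt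
      _ = w t := one_mul _
  have h1 : (g * h) * (h * g)⁻¹ = 1 := by
    refine Pur.eq_one_of_graded hn fun y hy => ?_
    obtain ⟨t, ht⟩ : ∃ t, t = (h * g)⁻¹ y := ⟨_, rfl⟩
    have hyt : y = h (g t) := by
      rw [ht, ← AlgEquiv.mul_apply, ← AlgEquiv.mul_apply, mul_inv_cancel, AlgEquiv.one_apply]
    have ht0 : t ≠ 0 := by
      rintro rfl
      rw [map_zero, map_zero] at hyt
      exact hy hyt
    have h2 : ((g * h) * (h * g)⁻¹) y = g (h t) := by
      rw [AlgEquiv.mul_apply, ← ht, AlgEquiv.mul_apply]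
    have h3 : w y = w t := by rw [hyt, inertial_val hh, inertial_val hg]
    have h4 := key g h hg hh t ht0
    have h5 := key h g hh hg t ht0
    have h6 : g (h t) - y = (g (h t) - g t / t * (h t / t) * t) -
        (h (g t) - h t / t * (g t / t) * t) := by
      rw [hyt]
      ring
    rw [h2, h3, h6]
    exact (w.map_sub _ _).trans_lt (max_lt h4 h5)
  exact mul_inv_eq_one.1 h1

end comm

/-- **`X/M` unramified, `N/X` Galois: the inertial automorphisms of `N/M` are trivial on `X`** -/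
theorem inertia_fixes {k M X N : Type*} [Field k] [CharZero k] [IsAlgClosed k] [Field M] [Field X]
    [Field N] [Algebra k M] [Algebra k X] [Algebra k N] [Algebra M X] [Algebra X N] [Algebra M N]
    [IsScalarTower M X N] [IsScalarTower k M N] [IsScalarTower k X N]
    [FiniteDimensional M N] [FiniteDimensional X N] [IsGalois X N]
    {w : Valuation N ℤᵐ⁰} (hk : ∀ c : k, c ≠ 0 → w (algebraMap k N c) = 1)
    (hU : ∀ a : X, w (algebraMap X N a) < 1 → ∃ s : M, w (algebraMap M N s) < 1 ∧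
      w (algebraMap X N a) ≤ w (algebraMap M N s))
    (g : N ≃ₐ[M] N) (hg : ∀ z, w z ≤ 1 → w (g z - z) < 1) (z : X) :
    g (algebraMap X N z) = algebraMap X N z := by
  have hn : ∀ n : ℕ, n ≠ 0 → w (n : N) = 1 := fun n hn => by
    have h1 := hk (n : k) (Nat.cast_ne_zero.2 hn)
    rwa [map_natCast] at h1
  -- the subspace of the inertial invariants of `N/X`
  let F : Submodule k N :=
    { carrier := {y | ∀ σ : N ≃ₐ[X] N, (∀ z, w z ≤ 1 → w (σ z - z) < 1) → σ y = y}
      add_mem' := fun {a b} ha hb σ hσ => by rw [map_add, ha σ hσ, hb σ hσ]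
      zero_mem' := fun σ _ => map_zero σ
      smul_mem' := fun c y hy σ hσ => by
        rw [Algebra.smul_def, map_mul, hy σ hσ, IsScalarTower.algebraMap_apply k X N, σ.commutes] }
  have hgF : ∀ y ∈ F, g y ∈ F := by
    intro y hy σ hσ
    have h1 := inertial_comm (K := M) hn (g := g) (h := σ.restrictScalars M) hg hσ
    have h2 := DFunLike.congr_fun h1 y
    rw [AlgEquiv.mul_apply, AlgEquiv.mul_apply] at h2
    have h3 : (σ.restrictScalars M) y = y := hy σ hσ
    rw [h3] at h2
    exact h2.symm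
  let T : Module.End k F :=
    { toFun := fun y => ⟨g y, hgF y y.2⟩
      map_add' := fun a b => Subtype.ext (map_add g (a : N) b)
      map_smul' := fun c a => Subtype.ext (by
        change g (c • (a : N)) = c • g a
        rw [Algebra.smul_def, Algebra.smul_def, map_mul, IsScalarTower.algebraMap_apply k M N,
          g.commutes]) }
  have hpow : ∀ m : ℕ, ∀ y : F, ((T ^ m) y : N) = (g ^ m) y := by
    intro m
    induction m with
    | zero => intro y; rfl
    | succ m ih =>
      intro y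
      rw [pow_succ, pow_succ, Module.End.mul_apply, AlgEquiv.mul_apply, ih]
      rfl
  have hTn : T ^ orderOf g = 1 := by
    refine LinearMap.ext fun y => Subtype.ext ?_
    rw [hpow, pow_orderOf_eq_one]
    rfl
  have hT1 : T = 1 := by
    by_contra hne
    obtain ⟨r, hr, x, hx, hTx⟩ := Tow.exists_eig T (orderOf_pos g).ne' hTn hne
    have hx0 : (x : N) ≠ 0 := fun h => hx (Subtype.ext h)
    have hgx : g x = algebraMap k N r * x := by
      have h1 := congrArg (Subtype.val : F → N) hTx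
      rw [← Algebra.smul_def]
      exact h1
    obtain ⟨t, ht⟩ := exists_val_of_fixed (K := X) hn hx0 x.2
    have ht0 : t ≠ 0 := by
      rintro rfl
      rw [map_zero, map_zero] at ht
      exact hx0 ((Valuation.zero_iff w).1 ht.symm)
    have hU' : Br.Unr M (w.comap (algebraMap X N)) := by
      intro a ha
      obtain ⟨s, hs1, hs2⟩ := hU a ha
      refine ⟨s, ?_, ?_⟩
      · rw [Valuation.comap_apply, ← IsScalarTower.algebraMap_apply]
        exact hs1
      · rw [Valuation.comap_apply, Valuation.comap_apply, ← IsScalarTower.algebraMap_apply]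
        exact hs2
    obtain ⟨c, hc0, hc⟩ := Tow.unr_val hU' ht0
    rw [Valuation.comap_apply, Valuation.comap_apply, ht, ← IsScalarTower.algebraMap_apply] at hc
    have hwc0 : w (algebraMap M N c) ≠ 0 := by
      rw [← hc]
      exact (Valuation.ne_zero_iff w).2 hx0
    have hz1 : w ((x : N) / algebraMap M N c) = 1 := by
      rw [map_div₀, hc, div_self hwc0]
    have h1 := hg _ hz1.le
    have h2 : g ((x : N) / algebraMap M N c) - (x : N) / algebraMap M N c =
        algebraMap k N (r - 1) * ((x : N) / algebraMap M N c) := by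
      rw [map_div₀, g.commutes, hgx, map_sub, map_one]
      ring
    rw [h2, map_mul, hz1, mul_one, hk _ (sub_ne_zero.2 hr)] at h1
    exact lt_irrefl _ h1
  have hzF : algebraMap X N z ∈ F := fun σ _ => σ.commutes z
  have h1 := congrArg (fun S : Module.End k F => (S ⟨_, hzF⟩ : N)) hT1
  exact h1

end Pf72953.Pl
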