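import Mathlib
import Pool.Agent.Lib.Pf72953n.GalGen
import Pool.Agent.Lib.Pf72953n.KodIff
import Pool.Agent.Lib.Pf72953n.RigG

/-!
Towers of Galois families of curves of genus `≥ 1`, of rigid isotrivial fibre spaces and of isotrivial fibre spaces.
-/

set_option autoImplicit false
set_option linter.style.haveILetI false

open scoped WithZero
open Pf72953 Pf72953.Mov Pf72953.Tow

namespace Pf72953.Pl

variable {k Ω : Type*} [Field k] [Field Ω] [Algebra k Ω]

/-- `X → V` is a tower of fibre spaces (`X` lies over an auxiliary field `W ⊆ X`; first `X = W = V`).  Every step replaces `X` by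

* (curve) `X ×_W Q`, the pull-back of a family of curves `Q → W`, `Q` any finite Galois extension of `W(x)`, if the curve
  `X·Q/X` has genus `≥ 1`; then `W` is replaced by `W(x)`;
* (rigid) the pull-back `X ×_W E` of an isotrivial fibre space `E = (M × P₀)/H → W = P₀/H`, `κ(M) ≥ 0`, `M` independent of
  `X·P₀`, and the branch divisors of the finite Galois covers of `M × (X·P₀ × C^m)` are of product type; then `W` is
  replaced by `E`;
* (isotrivial) an isotrivial fibre space `(G × X ×_W P₀)/H → X₁`, `κ(G) ≥ 0`, `P₀` a finite Galois cover of `W`, `X₁` a finite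
  cover of `X`;
* (cover) `X ×_W P₀`, `P₀` a finite Galois cover of `W`. -/
inductive Tower [CharZero k] (V : IntermediateField k Ω) :
    IntermediateField k Ω → IntermediateField k Ω → Prop
  | base : Tower V V V
  | curve {W X Q : IntermediateField k Ω} {x : Ω} : Tower V W X → Transcendental X x → Fin' Q →
      Gal (W ⊔ IntermediateField.adjoin k {x}) Q → relKod X (X ⊔ Q) ≠ ⊥ →
      Tower V (W ⊔ IntermediateField.adjoin k {x}) (X ⊔ Q)
  | rigid {W X E M P₀ : IntermediateField k Ω} : Tower V W X → Step W E M P₀ →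
      Indep M (X ⊔ P₀) → kodairaDim k M ≠ ⊥ → PicProd M (X ⊔ P₀) → Tower V E (X ⊔ E)
  | isotrivial {W X X₁ E G P₀ : IntermediateField k Ω} : Tower V W X → Gal W P₀ → X ≤ X₁ →
      Step X₁ E G (X ⊔ P₀) → kodairaDim k G ≠ ⊥ → Tower V W E
  | cover {W X P₀ : IntermediateField k Ω} : Tower V W X → Fin' P₀ → Gal W P₀ →
      Tower V W (X ⊔ P₀)

/-- a `Tower` with one more step, which may be a family of curves of any genus or an isotrivial fibre space with any fibre `G` -/
inductive TopTower [CharZero k] (V : IntermediateField k Ω) : IntermediateField k Ω → Prop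
  | tower {W X : IntermediateField k Ω} : Tower V W X → TopTower V X
  | curve {W X Q : IntermediateField k Ω} {x : Ω} : Tower V W X → Transcendental X x → Fin' Q →
      Gal (W ⊔ IntermediateField.adjoin k {x}) Q → TopTower V (X ⊔ Q)
  | isotrivial {W X X₁ E G P₀ : IntermediateField k Ω} : Tower V W X → Gal W P₀ → X ≤ X₁ →
      Step X₁ E G (X ⊔ P₀) → TopTower V E

section

variable [CharZero k] [IsAlgClosed k] [IsAlgClosed Ω]

theorem Tower.over {B V W X : IntermediateField k Ω} (h : Tower V W X)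
    (hΩ : ∀ A : IntermediateField k Ω, Fin' A → ∃ t : Ω, Transcendental A t)
    (hV : Fin' V) (hS : StableFib B V) (hV0 : KodairaGE k V 0) :
    Fin' W ∧ Fin' X ∧ OverC B W X ∧ KodairaGE k X 0 := by
  induction h with
  | base => exact ⟨hV, hV, (over_iff hV).1 (over_self.2 hS), hV0⟩
  | curve _ hx hQ hG hr ih =>
    obtain ⟨hW, hX, hO, hk⟩ := ih
    have hX' := fin_sup hX hQ
    exact ⟨fin_sup hW (fin_one _), hX', hO.curve hX hQ hk hΩ hx hG,
      kge_zero_of_relKod hX' (iitaka_one hX' hx (gal_up hG hO.2.1) hΩ) hk hr⟩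
  | rigid _ hS' hi hM hP ih =>
    obtain ⟨hW, hX, hO, hk⟩ := ih
    have hM' := (kge_zero_iff hS'.fgM).1 hM
    exact ⟨hS'.finE, fin_sup hX hS'.finE, hO.rigidX hX hS' hi hk hM' hP,
      hS'.kod_supX hX hO.2.1 hi hk hM'⟩
  | isotrivial _ hG hXX hS' hM ih =>
    obtain ⟨hW, hX, hO, hk⟩ := ih
    refine ⟨hW, hS'.finE, hO.isotrivial hk hG hXX hS', ?_⟩
    refine hS'.kod_E ((kge_zero_iff hS'.fgM).1 hM) (kge_pull' hS'.finV hXX
      (alg_iff.2 (hS'.le_P.trans ?_)) hk)
    exact sup_le le_cl ((alg_iff.1 hG.alg).trans (cl_mono hO.2.1))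
  | cover _ hP hG ih =>
    obtain ⟨hW, hX, hO, hk⟩ := ih
    refine ⟨hW, fin_sup hX hP, hO.sup hX hP hG, kge_pull' (fin_sup hX hP) le_sup_left ?_ hk⟩
    exact alg_iff.2 (sup_le le_cl ((alg_iff.1 hG.alg).trans (cl_mono hO.2.1)))

/-- **Iitaka's inequality for towers.** -/
theorem TopTower.iitaka {B V E : IntermediateField k Ω} (h : TopTower V E)
    (hΩ : ∀ A : IntermediateField k Ω, Fin' A → ∃ t : Ω, Transcendental A t)
    (hV : Fin' V) (hS : StableFib B V) (hVB : relKod B V ≠ ⊥) : Iitaka B E := by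
  by_cases hB : kodairaDim k B = ⊥
  · exact iitaka_of_bot hB
  have hV0 : KodairaGE k V 0 := by
    refine kge_zero_of_relKod hV ?_ ((kge_zero_iff (fin_le hV hS.1)).1 hB) hVB
    exact ((over_iff hV).2 ((over_iff hV).1 (over_self.2 hS))).iitaka hV
  rcases h with h | ⟨h, hx, hQ, hG⟩ | ⟨h, hG, hXX, hS'⟩
  · obtain ⟨-, hX, hO, -⟩ := h.over hΩ hV hS hV0
    exact ((over_iff hX).2 hO).iitaka hX
  · obtain ⟨-, hX, hO, hk⟩ := h.over hΩ hV hS hV0
    have hX' := fin_sup hX hQ
    exact ((over_iff hX').2 (hO.curve hX hQ hk hΩ hx hG)).iitaka hX'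
  · obtain ⟨-, hX, hO, hk⟩ := h.over hΩ hV hS hV0
    have hX' := hS'.finE
    exact ((over_iff hX').2 (hO.isotrivial hk hG hXX hS')).iitaka hX'

/-- towers over `B` -/
theorem TopTower.iitaka_self {B E : IntermediateField k Ω} (h : TopTower B E)
    (hΩ : ∀ A : IntermediateField k Ω, Fin' A → ∃ t : Ω, Transcendental A t)
    (hB : Fin' B) : Iitaka B E :=
  h.iitaka hΩ hB (StableFib.refl hB) (relKod_alg hB le_rfl fun _ hx => alg_of_mem hx)

/-- (I) in fibre dimension `≤ d` is equivalent to (I) for all towers over the fibre spaces of dimension `≤ d` -/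
theorem iitakaFibreDim_iff_top
    (hΩ : ∀ A : IntermediateField k Ω, Fin' A → ∃ t : Ω, Transcendental A t) (d : ℕ) :
    IitakaFibreDim k Ω d ↔
      ∀ B V E : IntermediateField k Ω, Fin' V → B ≤ V → dimension k V ≤ dimension k B + d →
        relKod B V ≠ ⊥ → TopTower V E → Iitaka B E := by
  constructor
  · intro hI B V E hV hBV hd hVB hT
    exact hT.iitaka hΩ hV (stableFib_of_dim hI hV hBV hd) hVB
  · intro h K Q hQ hKQ _ hd
    by_cases h1 : relKod K Q = ⊥
    · exact iitaka_of_rel h1
    · exact h K Q Q hQ hKQ hd h1 (TopTower.tower Tower.base)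

/-- (I) for `κ(F) ≥ dim F - d` is equivalent to (I) for all towers over the fibre spaces with `κ(F) ≥ dim F - d` -/
theorem iitakaFibreKod_iff_top
    (hΩ : ∀ A : IntermediateField k Ω, Fin' A → ∃ t : Ω, Transcendental A t) (d : ℕ) :
    IitakaFibreKod k Ω d ↔
      ∀ B V E : IntermediateField k Ω, Fin' V → B ≤ V →
        (dimension k V : WithBot ℕ∞) ≤ dimension k B + d + relKod B V →
        TopTower V E → Iitaka B E := by
  constructor
  · intro hI B V E hV hBV hd hT
    refine hT.iitaka hΩ hV (stableFib_of_kod hI hV hBV hd) fun h => ?_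
    rw [h, WithBot.add_bot] at hd
    simp at hd
  · intro h K Q hQ hKQ _ hd
    exact h K Q Q hQ hKQ hd (TopTower.tower Tower.base)

end

end Pf72953.Pl
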