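import Mathlib
import Pool.Agent.Lib.Pf72953n.TowG

/-!
The finite Galois covers of the sequences of lines and rigid isotrivial fibre spaces are towers.
-/

set_option autoImplicit false
set_option linter.style.haveILetI false

open scoped WithZero
open Pf72953 Pf72953.Mov Pf72953.Tow

namespace Pf72953.Pl

variable {k Ω : Type*} [Field k] [Field Ω] [Algebra k Ω] [CharZero k] [IsAlgClosed k] [IsAlgClosed Ω]

variable {E : IntermediateField k Ω} {V : ℕ → IntermediateField k Ω} {n : ℕ}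

theorem tower_seq (hE : Fin' E) (hG : Gal (V n) E)
    (hst : ∀ i < n, IsLine (V i) (V (i + 1)) ∨ IsRigid (E ⊓ cl (V i)) (V i) (V (i + 1)))
    (h0 : ∀ i, i + 1 < n → IsLine (V i) (V (i + 1)) →
      relKod (E ⊓ cl (V i)) (E ⊓ cl (V (i + 1))) ≠ ⊥) {i : ℕ} (hi : i < n ∨ i = 0) :
    Tower (V 0) (V i) (E ⊓ cl (V i)) := by
  have hfin : ∀ i, Fin' (E ⊓ cl (V i)) := fun i => fin_le hE inf_le_left
  induction i with
  | zero =>
    have hg := gal_chain hE hG hst (Nat.zero_le n)
    have h1 := Tower.base.cover (hfin 0) hg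
    rwa [sup_eq_right.2 hg.le] at h1
  | succ i ih =>
    have hin' : i + 1 < n := by omega
    have hin : i < n := by omega
    have hT := ih (Or.inl hin)
    have hgi := gal_chain hE hG hst hin.le
    have hg := gal_chain hE hG hst hin'.le
    have hle : E ⊓ cl (V i) ≤ E ⊓ cl (V (i + 1)) :=
      inf_le_inf_left E (cl_mono (link_le (hst i hin)))
    rcases hst i hin with hl | ⟨M, P, hS, hM, hpic⟩
    · have hr := h0 i hin' hl
      obtain ⟨x, hx, hV⟩ := hl
      have hx' : Transcendental (E ⊓ cl (V i) : IntermediateField k Ω) x := fun h =>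
        hx (mem_cl.1 (cl_le (alg_iff.1 hgi.alg) (mem_cl.2 h)))
      rw [hV] at hg
      have h1 := hT.curve hx' (hfin (i + 1)) (hV ▸ hg) (by rw [sup_eq_right.2 hle]; exact hr)
      rw [sup_eq_right.2 hle, ← hV] at h1
      exact h1
    · have hiM : Indep M (E ⊓ cl (V i) ⊔ P) :=
        (hS.indep.symm.up (fin_sup (hfin i) hS.fgP) hS.fgM le_sup_right
          ((alg_iff.1 (hgi.sup hS.gal).alg).trans (cl_mono hS.le_P))).symm
      have h1 := (hT.rigid hS hiM hM hpic).cover (hfin (i + 1)) hg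
      rwa [sup_eq_right.2 (sup_le hle hg.le)] at h1

/-- The finite Galois covers `E` of the sequences `V₀ ⊂ … ⊂ V_n` of lines and rigid isotrivial fibre spaces are towers over
`V₀`, if the curves `E_i/E_{i-1}`, `0 < i < n`, `V_i = V_{i-1}(x)`, have genus `≥ 1`. -/
theorem topTower_seq (hE : Fin' E) (hG : Gal (V n) E)
    (hst : ∀ i < n, IsLine (V i) (V (i + 1)) ∨ IsRigid (E ⊓ cl (V i)) (V i) (V (i + 1)))
    (h0 : ∀ i, i + 1 < n → IsLine (V i) (V (i + 1)) →
      relKod (E ⊓ cl (V i)) (E ⊓ cl (V (i + 1))) ≠ ⊥) : TopTower (V 0) E := by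
  have hfull : E ⊓ cl (V n) = E := inf_eq_left.2 (alg_iff.1 hG.alg)
  rcases Nat.eq_zero_or_pos n with h | hn
  · have h1 := tower_seq hE hG hst h0 (i := 0) (Or.inr rfl)
    have h2 : E ⊓ cl (V 0) = E := by rw [h] at hfull; exact hfull
    rw [h2] at h1
    exact TopTower.tower h1
  obtain ⟨m, rfl⟩ : ∃ m, n = m + 1 := ⟨n - 1, by omega⟩
  have hin : m < m + 1 := Nat.lt_succ_self m
  have hT := tower_seq hE hG hst h0 (Or.inl hin)
  have hgi := gal_chain hE hG hst hin.le
  have hmf : Fin' (E ⊓ cl (V m)) := fin_le hE inf_le_left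
  rcases hst m hin with ⟨x, hx, hV⟩ | ⟨M, P, hS, hM, hpic⟩
  · have hx' : Transcendental (E ⊓ cl (V m) : IntermediateField k Ω) x := fun h =>
      hx (mem_cl.1 (cl_le (alg_iff.1 hgi.alg) (mem_cl.2 h)))
    have h1 := TopTower.curve hT hx' hE (hV ▸ hG)
    rwa [sup_eq_right.2 inf_le_left] at h1
  · have hiM : Indep M (E ⊓ cl (V m) ⊔ P) :=
      (hS.indep.symm.up (fin_sup hmf hS.fgP) hS.fgM le_sup_right
        ((alg_iff.1 (hgi.sup hS.gal).alg).trans (cl_mono hS.le_P))).symm
    have h1 := (hT.rigid hS hiM hM hpic).cover hE hG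
    rw [sup_eq_right.2 (sup_le inf_le_left hG.le)] at h1
    exact TopTower.tower h1

/-- The finite Galois covers `E` of `V × ℙⁿ` are towers over `V`, if the curves `E_i/E_{i-1}`, `0 < i < n`, have genus `≥ 1`. -/
theorem topTower_galois {V : IntermediateField k Ω} {x : Fin n → Ω} (hE : Fin' E)
    (hx : AlgebraicIndependent V x) (hG : Gal (coords V x n) E)
    (h0 : ∀ i, i + 1 < n → relKod (stage V E x i) (stage V E x (i + 1)) ≠ ⊥) : TopTower V E := by
  have h1 := topTower_seq (V := coords V x) hE hG (fun i hi =>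
    Or.inl ⟨x ⟨i, hi⟩, transc_coords hx ⟨i, hi⟩, coords_succ (V := V) (x := x) ⟨i, hi⟩⟩)
    fun i hi _ => h0 i hi
  rwa [coords_zero] at h1

end Pf72953.Pl
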